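import Pool.Agent.H12.ON.Def

/-! # [H12 ON VAL] Valuation rings over `k`: five basic facts

* `val_alg`: `V` is integrally closed and contains `k`, so it contains every `z` algebraic over `k` (IsIntegral over the field `k`; a root of a monic
  polynomial with coefficients in `V`; `ValuationSubring` is integrally closed, see the first lines of the proof of
  `Pool.Agent.H82.NS.q0_alg` for the pattern).
* `val_unit`: if moreover `z ≠ 0`, `z⁻¹` is algebraic, so in `V`: `z` is a unit of `V`, not in `V.nonunits`.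
* `exists_inf`: copy of the proof of `Pool.Agent.H82.NS.exists_place` (H82/NS/PlB.lean line 29; it may also be imported): `x` transcendental
  over `k`: there is `V` over `k` with `x ∉ V`.
* `all_alg`: `z` in all `V` over `k`: `z` is algebraic (otherwise `exists_inf`).
* `all_zero`: `z` in all `V` over `k`, in the maximal ideal of those without `x`: `z` algebraic, and a nonunit of one `V`: `z = 0`.
* `int_of_all`: `z` in every `V` over `k` which contains `x`: `z` is integral over `k[x]`. Mathlib: `iInf_valuationSubring_superset` or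
  `Subring.eq_iInf_of_isIntegrallyClosedIn` in `Mathlib/RingTheory/Valuation/LocalSubring.lean` for the subring
  `integralClosure (Algebra.adjoin k {x}) Ω`. -/

namespace Pool.Agent.H12.ON

theorem val_alg {k Ω : Type} [Field k] [Field Ω] [Algebra k Ω] {V : ValuationSubring Ω} (hV : Ov k V) {z : Ω}
    (hz : IsAlgebraic k z) : z ∈ V := by
  obtain ⟨p, hp, hpz⟩ := hz.isIntegral
  have h1 : IsIntegral V z := by
    refine ⟨p.map ((algebraMap k Ω).codRestrict V.toSubring hV), hp.map _, ?_⟩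
    rw [Polynomial.eval₂_map]
    exact hpz
  obtain ⟨y, rfl⟩ := IsIntegrallyClosed.isIntegral_iff.1 h1
  exact y.2

theorem val_unit {k Ω : Type} [Field k] [Field Ω] [Algebra k Ω] {V : ValuationSubring Ω} (hV : Ov k V) {z : Ω}
    (hz : IsAlgebraic k z) (h0 : z ≠ 0) : z ∉ V.nonunits := by
  rw [V.mem_nonunits_iff_or]
  rintro (h1 | h1)
  · exact h0 h1
  · exact h1 (val_alg hV hz.inv)

theorem exists_inf {k Ω : Type} [Field k] [Field Ω] [Algebra k Ω] {x : Ω} (hx : Transcendental k x) :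
    ∃ V : ValuationSubring Ω, Ov k V ∧ x ∉ V := by
  have hx0 : x ≠ 0 := by
    rintro rfl
    exact hx isAlgebraic_zero
  have hu : Transcendental k x⁻¹ := fun h => hx (IsAlgebraic.inv_iff.1 h)
  obtain ⟨A, hA⟩ : ∃ A : Subring Ω, A = (Polynomial.aeval (R := k) x⁻¹).range.toSubring := ⟨_, rfl⟩
  have hmem : ∀ y, y ∈ A ↔ ∃ p : Polynomial k, Polynomial.aeval x⁻¹ p = y := by
    intro y
    rw [hA]
    exact Iff.rfl
  have huA : x⁻¹ ∈ A := (hmem _).2 ⟨Polynomial.X, Polynomial.aeval_X _⟩
  have hI : Ideal.span {(⟨x⁻¹, huA⟩ : A)} ≠ ⊤ := by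
    intro h
    have h1 := (Ideal.eq_top_iff_one _).1 h
    obtain ⟨⟨a, ha⟩, h2⟩ := Ideal.mem_span_singleton'.1 h1
    obtain ⟨p, rfl⟩ := (hmem a).1 ha
    have h3 : Polynomial.aeval x⁻¹ p * x⁻¹ = 1 := congrArg Subtype.val h2
    have h4 : Polynomial.aeval x⁻¹ (p * Polynomial.X - 1) = 0 := by
      rw [map_sub, map_mul, Polynomial.aeval_X, h3, map_one, sub_self]
    have h5 := transcendental_iff.1 hu _ h4
    have h6 := congrArg (Polynomial.eval 0) h5
    simp at h6
  obtain ⟨V, hV1, hV2⟩ := Ideal.image_subset_nonunits_valuationSubring _ hI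
  refine ⟨V, fun e => hV1 ((hmem _).2 ⟨Polynomial.C e, Polynomial.aeval_C _ _⟩), ?_⟩
  have h1 : x⁻¹ ∈ V.nonunits := hV2 ⟨_, Ideal.subset_span rfl, rfl⟩
  exact (V.inv_mem_nonunits_iff.1 h1).resolve_left hx0

theorem all_alg {k Ω : Type} [Field k] [Field Ω] [Algebra k Ω] {z : Ω}
    (h : ∀ V : ValuationSubring Ω, Ov k V → z ∈ V) : IsAlgebraic k z := by
  by_contra hz
  obtain ⟨V, hV, hzV⟩ := exists_inf (k := k) hz
  exact hzV (h V hV)

theorem all_zero {k Ω : Type} [Field k] [Field Ω] [Algebra k Ω] {x z : Ω} (hx : Transcendental k x)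
    (h : ∀ V : ValuationSubring Ω, Ov k V → z ∈ V)
    (h' : ∀ V : ValuationSubring Ω, Ov k V → x ∉ V → z ∈ V.nonunits) : z = 0 := by
  obtain ⟨V, hV, hxV⟩ := exists_inf (k := k) hx
  by_contra h0
  exact val_unit hV (all_alg h) h0 (h' V hV hxV)

theorem int_of_all {k Ω : Type} [Field k] [Field Ω] [Algebra k Ω] {x z : Ω}
    (h : ∀ V : ValuationSubring Ω, Ov k V → x ∈ V → z ∈ V) : IsIntegral (Algebra.adjoin k {x}) z := by
  obtain ⟨s, hs⟩ : ∃ s : Set Ω, s = Set.range (algebraMap k Ω) ∪ {x} := ⟨_, rfl⟩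
  have h1 : z ∈ (⨅ V : {V : ValuationSubring Ω // s ⊆ V.toSubring}, V.1.toSubring) := by
    rw [Subring.mem_iInf]
    rintro ⟨V, hV⟩
    refine h V (fun e => hV ?_) (hV ?_)
    · rw [hs]
      exact Or.inl ⟨e, rfl⟩
    · rw [hs]
      exact Or.inr rfl
  rw [iInf_valuationSubring_superset] at h1
  obtain ⟨p, hp, hpz⟩ : IsIntegral (Subring.closure s) z := h1
  have hle : Subring.closure s ≤ (Algebra.adjoin k {x}).toSubring := by
    rw [Subring.closure_le, hs]
    rintro y (⟨e, rfl⟩ | rfl)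
    · exact (Algebra.adjoin k {x}).algebraMap_mem e
    · exact Algebra.self_mem_adjoin_singleton k y
  refine ⟨p.map (Subring.inclusion hle), hp.map _, ?_⟩
  rw [Polynomial.eval₂_map]
  exact hpz

end Pool.Agent.H12.ON
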