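import Pool.Agent.H12.ON.Li

/-! # [H12 ON GAL] Automorphisms

`Ω` is algebraically closed and algebraic over `k(x)`, characteristic zero.
* `exists_aut`: `(x,y)`, `(x',y')` zeros of `F` with `x, x'` transcendental over `k`: there is `σ : Ω ≃ₐ[k] Ω` with `σ x = x'`, `σ y = y'`.
  `p(x,y) ↦ p(x',y')` is a well defined injective `k`-algebra map `k[x,y] → Ω` (`gen_zero` in both directions: `p(x,y) = 0 ↔ F ∣ p`), it extends
  to the fraction field `k(x,y)` and, `Ω` being algebraic over it and algebraically closed, to `σ : Ω →ₐ[k] Ω` (`IsAlgClosed.lift`). It is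
  surjective: `Ω` is algebraic over `k(x')` (both `x, x'` are transcendence bases: `Ω` has transcendence degree one: `x'` is algebraic over
  `k(x)` and transcendental over `k`, so `x` is algebraic over `k(x')`), the image is algebraically closed and contains `x'`.
* `fixed_mem`: `z` fixed by all `σ : Ω ≃ₐ[k] Ω` with `σ x = x`, `σ y = y` lies in `k(x,y)` (`Ω / k(x,y)` is Galois: algebraic, algebraically
  closed, characteristic zero; `IsGalois.mem_bot_iff_fixed` or `IsAlgClosure` lemmas; automorphisms over `k(x,y)` are automorphisms over `k`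
  which fix `x, y`).
* `alg_swap`: `Ω` is algebraic over `k(x')` for every transcendental `x'`. -/

namespace Pool.Agent.H12.ON

open MvPolynomial IntermediateField

variable {k Ω : Type} [Field k] [CharZero k] [Field Ω] [IsAlgClosed Ω] [Algebra k Ω]

theorem alg_swap {x x' : Ω} (hΩ : Algebra.IsAlgebraic k⟮x⟯ Ω) (hx' : Transcendental k x') :
    Algebra.IsAlgebraic k⟮x'⟯ Ω := by
  have h1 : Algebra.IsAlgebraic (Algebra.adjoin k {x}) Ω := isAlgebraic_adjoin_iff_top.1 hΩ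
  have h2 := Algebra.IsAlgebraic.trdeg_le_cardinalMk k ({x} : Set Ω)
  have h3 : AlgebraicIndependent k (fun _ : Unit => x') := algebraicIndependent_unique_type_iff.2 hx'
  have h4 : IsTranscendenceBasis k (fun _ : Unit => x') := by
    refine h3.isTranscendenceBasis_of_trdeg_le_of_finite (h2.trans ?_)
    simp
  have h5 := h4.isAlgebraic_field
  rwa [Set.range_const] at h5

private theorem gal_alg {x : Ω} (hΩ : Algebra.IsAlgebraic k⟮x⟯ Ω) {A : Subalgebra k Ω}
    (hx : x ∈ A) : Algebra.IsAlgebraic A Ω := by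
  have h1 : Algebra.IsAlgebraic (Algebra.adjoin k {x}) Ω := isAlgebraic_adjoin_iff_top.1 hΩ
  have hle : Algebra.adjoin k {x} ≤ A := Algebra.adjoin_le (Set.singleton_subset_iff.2 hx)
  let _ : Algebra (Algebra.adjoin k {x}) A := (Subalgebra.inclusion hle).toRingHom.toAlgebra
  have : IsScalarTower (Algebra.adjoin k {x}) A Ω := IsScalarTower.of_algebraMap_eq fun _ => rfl
  exact h1.extendScalars (Subalgebra.inclusion_injective hle)

theorem exists_aut {n : ℕ} {F : MvPolynomial (Fin 2) k} (hF : Tp k n F) {x y x' y' : Ω}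
    (h0 : aeval ![x, y] F = 0) (h0' : aeval ![x', y'] F = 0) (hx : Transcendental k x)
    (hx' : Transcendental k x') (hΩ : Algebra.IsAlgebraic k⟮x⟯ Ω) :
    ∃ σ : Ω ≃ₐ[k] Ω, σ x = x' ∧ σ y = y' := by
  have hker : RingHom.ker (aeval ![x, y] : MvPolynomial (Fin 2) k →ₐ[k] Ω) =
      RingHom.ker (aeval ![x', y'] : MvPolynomial (Fin 2) k →ₐ[k] Ω) := by
    ext q
    rw [RingHom.mem_ker, RingHom.mem_ker]
    constructor
    · intro hq
      obtain ⟨g, rfl⟩ := gen_zero hF h0 hx hq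
      rw [map_mul, h0', zero_mul]
    · intro hq
      obtain ⟨g, rfl⟩ := gen_zero hF h0' hx' hq
      rw [map_mul, h0, zero_mul]
  obtain ⟨a1, ha1⟩ : ∃ a1 : MvPolynomial (Fin 2) k →ₐ[k] Ω, a1 = aeval ![x, y] := ⟨_, rfl⟩
  obtain ⟨a2, ha2⟩ : ∃ a2 : MvPolynomial (Fin 2) k →ₐ[k] Ω, a2 = aeval ![x', y'] := ⟨_, rfl⟩
  rw [← ha1, ← ha2] at hker
  have h1x : a1 (X 0) = x := by
    rw [ha1, aeval_X]
    rfl
  have h1y : a1 (X 1) = y := by
    rw [ha1, aeval_X]
    rfl
  have h2x : a2 (X 0) = x' := by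
    rw [ha2, aeval_X]
    rfl
  have h2y : a2 (X 1) = y' := by
    rw [ha2, aeval_X]
    rfl
  obtain ⟨e, he⟩ : ∃ e : a1.range ≃+* a2.range, ∀ p, ((e ⟨a1 p, ⟨p, rfl⟩⟩ : a2.range) : Ω) = a2 p := by
    let e0 := ((Ideal.quotientKerEquivRange a1).symm.trans
      (Ideal.quotientEquivAlgOfEq k hker)).trans (Ideal.quotientKerEquivRange a2)
    refine ⟨e0.toRingEquiv, fun p => ?_⟩
    have h3 : (Ideal.quotientKerEquivRange a1).symm ⟨a1 p, ⟨p, rfl⟩⟩ =
        Ideal.Quotient.mk _ p := by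
      rw [AlgEquiv.symm_apply_eq]
      rfl
    change ((Ideal.quotientKerEquivRange a2 (Ideal.quotientEquivAlgOfEq k hker
      ((Ideal.quotientKerEquivRange a1).symm ⟨a1 p, ⟨p, rfl⟩⟩)) : a2.range) : Ω) = a2 p
    rw [h3]
    rfl
  have hA1 : Algebra.IsAlgebraic a1.range Ω := gal_alg hΩ ⟨X 0, h1x⟩
  have hA2 : Algebra.IsAlgebraic a2.range Ω := gal_alg (alg_swap hΩ hx') ⟨X 0, h2x⟩
  have hc1 : IsAlgClosure a1.range Ω := ⟨inferInstance, hA1⟩
  have hc2 : IsAlgClosure a2.range Ω := ⟨inferInstance, hA2⟩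
  obtain ⟨σ, hσ⟩ : ∃ σ : Ω ≃+* Ω, ∀ p, σ (a1 p) = a2 p := by
    refine ⟨IsAlgClosure.equivOfEquiv Ω Ω e, fun p => ?_⟩
    have h3 := IsAlgClosure.equivOfEquiv_algebraMap Ω Ω e ⟨a1 p, ⟨p, rfl⟩⟩
    have h4 : algebraMap a2.range Ω (e ⟨a1 p, ⟨p, rfl⟩⟩) = a2 p := he p
    rw [h4] at h3
    exact h3
  refine ⟨AlgEquiv.ofRingEquiv (f := σ) fun c => ?_, ?_, ?_⟩
  · have h3 := hσ (algebraMap k _ c)
    rw [AlgHom.commutes, AlgHom.commutes] at h3
    exact h3
  · change σ x = x'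
    rw [← h1x, hσ, h2x]
  · change σ y = y'
    rw [← h1y, hσ, h2y]

theorem fixed_mem {x y z : Ω} (hΩ : Algebra.IsAlgebraic k⟮x⟯ Ω)
    (h : ∀ σ : Ω ≃ₐ[k] Ω, σ x = x → σ y = y → σ z = z) : z ∈ adjoin k {x, y} := by
  have hxE : x ∈ adjoin k {x, y} := subset_adjoin k {x, y} (Set.mem_insert x {y})
  have hyE : y ∈ adjoin k {x, y} :=
    subset_adjoin k {x, y} (Set.mem_insert_of_mem x (Set.mem_singleton y))
  have hA : Algebra.IsAlgebraic (adjoin k {x, y}) Ω :=
    gal_alg hΩ (A := (adjoin k {x, y}).toSubalgebra) hxE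
  have hch : CharZero (adjoin k {x, y}) :=
    charZero_of_injective_algebraMap (algebraMap k (adjoin k {x, y})).injective
  have hc : IsAlgClosure (adjoin k {x, y}) Ω := ⟨inferInstance, hA⟩
  have hn : Normal (adjoin k {x, y}) Ω := IsAlgClosure.normal _ _
  have hg : IsGalois (adjoin k {x, y}) Ω := ⟨⟩
  have h1 : z ∈ Set.range (algebraMap (adjoin k {x, y}) Ω) := by
    rw [InfiniteGalois.mem_range_algebraMap_iff_fixed]
    intro f
    refine h (f.restrictScalars k) ?_ ?_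
    · exact f.commutes ⟨x, hxE⟩
    · exact f.commutes ⟨y, hyE⟩
  obtain ⟨w, hw⟩ := h1
  rw [← hw]
  exact w.2

end Pool.Agent.H12.ON
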