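import Pool.Agent.H12.ON.Lnk

/-! # [H12 ON CNJ] Conjugates over the other point are linked

`L` a field over `k`, `Ω` over `L`; `x₁, y₁, x₂, y₂ ∈ L`; `O` a valuation ring of `L` such that `O` is the only valuation ring of `L` over `k` without `x₁`, and the
only one without `x₂`. `τ : Ω ≃ₐ[k] Ω` fixes `x₂`, `y₂`. Let `V` be over `k` (in `Ω`), `W = V.comap (algebraMap L Ω)`, over `k`.
(1) `x₁ ∈ V ↔ x₂ ∈ V`: if `x₁ ∉ V` then `W = O`, `x₂ ∉ O`; and conversely. (2) With `V' = V.comap τ` (over `k`): `τ x₁ ∈ V ↔ x₁ ∈ V' ↔ x₂ ∈ V' ↔ τ x₂ = x₂ ∈ V ↔ x₁ ∈ V`.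
(3) Let `x₁ ∉ V`; then `W = O` and `W' = V'.comap = O`. `u = x₁^b/x₂^a` is a unit of `O`, so of `V` and of `V'`: `τ u = (τ x₁)^b/x₂^a` is a unit of `V`;
`(x₁/τ x₁)^b = u/τ u` is a unit of `V`, `b ≥ 1`, so `x₁/τ x₁` is one (valuation rings are integrally closed). `y₁/x₁ - ψ(y₂/x₂)` is in the maximal ideal of
`O`, so in those of `V` and `V'`; apply `τ`: `τ y₁/τ x₁ - ψ(y₂/x₂) ∈ m_V`; subtract. -/

namespace Pool.Agent.H12.ON

private theorem cnj_root {K : Type} [Field K] (V : ValuationSubring K) {x : K} {b : ℕ} (hb : 1 ≤ b) (h : x ^ b ∈ V) :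
    x ∈ V := by
  rcases V.mem_or_inv_mem x with h1 | h1
  · exact h1
  · obtain ⟨n, rfl⟩ := Nat.exists_eq_add_of_le' hb
    by_cases hx : x = 0
    · rw [hx]
      exact V.zero_mem
    · have h2 : x = x ^ (n + 1) * x⁻¹ ^ n := by
        rw [inv_pow, pow_succ, mul_comm (x ^ n) x, mul_assoc, mul_inv_cancel₀ (pow_ne_zero n hx), mul_one]
      rw [h2]
      exact V.mul_mem _ _ h (pow_mem h1 n)

theorem cnj {k L Ω : Type} [Field k] [Field L] [Field Ω] [Algebra k L] [Algebra L Ω] [Algebra k Ω]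
    [IsScalarTower k L Ω] {x₁ y₁ x₂ y₂ : L} {O : ValuationSubring L} (h1 : x₁ ∉ O) (h2 : x₂ ∉ O)
    (hO1 : ∀ W : ValuationSubring L, Ov k W → x₁ ∉ W → W = O)
    (hO2 : ∀ W : ValuationSubring L, Ov k W → x₂ ∉ W → W = O) {a b : ℕ} (hb : 1 ≤ b)
    (hab : x₁ ^ b / x₂ ^ a ∈ O) (hba : x₂ ^ a / x₁ ^ b ∈ O) {ψ : Polynomial k}
    (hψ : y₁ / x₁ - Polynomial.aeval (y₂ / x₂) ψ ∈ O.nonunits) (τ : Ω ≃ₐ[k] Ω)
    (hx : τ (algebraMap L Ω x₂) = algebraMap L Ω x₂) (hy : τ (algebraMap L Ω y₂) = algebraMap L Ω y₂) :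
    Link k (algebraMap L Ω x₁, algebraMap L Ω y₁) (τ (algebraMap L Ω x₁), τ (algebraMap L Ω y₁)) := by
  intro V hV
  have hOvL : ∀ V : ValuationSubring Ω, Ov k V → Ov k (V.comap (algebraMap L Ω)) := by
    intro V hV e
    rw [ValuationSubring.mem_comap, ← IsScalarTower.algebraMap_apply]
    exact hV e
  have hcm : ∀ (V : ValuationSubring Ω) (x : L), x ∈ V.comap (algebraMap L Ω) ↔ algebraMap L Ω x ∈ V := fun _ _ => Iff.rfl
  have hW1 : ∀ V : ValuationSubring Ω, Ov k V → algebraMap L Ω x₁ ∉ V → V.comap (algebraMap L Ω) = O :=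
    fun V hV h => hO1 _ (hOvL V hV) h
  have hW2 : ∀ V : ValuationSubring Ω, Ov k V → algebraMap L Ω x₂ ∉ V → V.comap (algebraMap L Ω) = O :=
    fun V hV h => hO2 _ (hOvL V hV) h
  have h12 : ∀ V : ValuationSubring Ω, Ov k V → (algebraMap L Ω x₁ ∈ V ↔ algebraMap L Ω x₂ ∈ V) := by
    intro V hV
    constructor
    · intro h
      by_contra h'
      have h3 := hW2 V hV h'
      exact h1 (h3 ▸ (hcm V x₁).2 h)
    · intro h
      by_contra h'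
      have h3 := hW1 V hV h'
      exact h2 (h3 ▸ (hcm V x₂).2 h)
  have hV' : Ov k (V.comap (τ : Ω →+* Ω)) := by
    intro e
    rw [ValuationSubring.mem_comap]
    have h3 : (τ : Ω →+* Ω) (algebraMap k Ω e) = algebraMap k Ω e := τ.commutes e
    rw [h3]
    exact hV e
  have hm : ∀ x : Ω, x ∈ V.comap (τ : Ω →+* Ω) ↔ τ x ∈ V := fun x => Iff.rfl
  have hnon : ∀ (V : ValuationSubring Ω) (x : L), x ∈ (V.comap (algebraMap L Ω)).nonunits → algebraMap L Ω x ∈ V.nonunits := by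
    intro V x hx
    rw [ValuationSubring.mem_nonunits_iff_or] at hx ⊢
    rcases hx with hx | hx
    · left
      rw [hx, map_zero]
    · right
      rw [hcm, map_inv₀] at hx
      exact hx
  have hnonτ : ∀ x : Ω, x ∈ (V.comap (τ : Ω →+* Ω)).nonunits → τ x ∈ V.nonunits := by
    intro x hx
    rw [ValuationSubring.mem_nonunits_iff_or] at hx ⊢
    rcases hx with hx | hx
    · left
      rw [hx, map_zero]
    · right
      rw [hm, map_inv₀] at hx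
      exact hx
  have hiff : algebraMap L Ω x₁ ∈ V ↔ τ (algebraMap L Ω x₁) ∈ V := by
    rw [← hm, h12 _ hV', hm, hx, h12 V hV]
  refine ⟨hiff, fun hP => ?_⟩
  have hP : algebraMap L Ω x₁ ∉ V := hP
  have e1 := hW1 V hV hP
  have e2 := hW1 _ hV' fun h => hP (hiff.2 ((hm _).1 h))
  have z1 : x₁ ≠ 0 := fun h => h1 (h ▸ O.zero_mem)
  have z2 : x₂ ≠ 0 := fun h => h2 (h ▸ O.zero_mem)
  have A0 : ∀ x : L, x ≠ 0 → algebraMap L Ω x ≠ 0 := fun x h h' => h ((map_eq_zero _).1 h')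
  have a1 := A0 _ z1
  have a2 := A0 _ z2
  have t1 : τ (algebraMap L Ω x₁) ≠ 0 := fun h => a1 ((map_eq_zero τ).1 h)
  have u1 : algebraMap L Ω (x₁ ^ b / x₂ ^ a) ∈ V := (hcm V _).1 (e1 ▸ hab)
  have u2 : algebraMap L Ω (x₂ ^ a / x₁ ^ b) ∈ V := (hcm V _).1 (e1 ▸ hba)
  have u3 : τ (algebraMap L Ω (x₁ ^ b / x₂ ^ a)) ∈ V := (hm _).1 ((hcm _ _).1 (e2 ▸ hab))
  have u4 : τ (algebraMap L Ω (x₂ ^ a / x₁ ^ b)) ∈ V := (hm _).1 ((hcm _ _).1 (e2 ▸ hba))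
  rw [map_div₀, map_pow, map_pow] at u1 u2
  rw [map_div₀, map_pow, map_pow, map_div₀, map_pow, map_pow, hx] at u3 u4
  have v1 : algebraMap L Ω x₁ / τ (algebraMap L Ω x₁) ∈ V := by
    refine cnj_root V hb ?_
    have : (algebraMap L Ω x₁ / τ (algebraMap L Ω x₁)) ^ b = (algebraMap L Ω x₁ ^ b / algebraMap L Ω x₂ ^ a) *
        (algebraMap L Ω x₂ ^ a / τ (algebraMap L Ω x₁) ^ b) := by
      rw [div_pow, div_mul_div_cancel₀ (pow_ne_zero a a2)]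
    rw [this]
    exact V.mul_mem _ _ u1 u4
  have v2 : τ (algebraMap L Ω x₁) / algebraMap L Ω x₁ ∈ V := by
    refine cnj_root V hb ?_
    have : (τ (algebraMap L Ω x₁) / algebraMap L Ω x₁) ^ b = (τ (algebraMap L Ω x₁) ^ b / algebraMap L Ω x₂ ^ a) *
        (algebraMap L Ω x₂ ^ a / algebraMap L Ω x₁ ^ b) := by
      rw [div_pow, div_mul_div_cancel₀ (pow_ne_zero a a2)]
    rw [this]
    exact V.mul_mem _ _ u3 u2
  refine ⟨v1, v2, ?_⟩
  have w1 : algebraMap L Ω (y₁ / x₁ - Polynomial.aeval (y₂ / x₂) ψ) ∈ V.nonunits := hnon V _ (by rw [e1]; exact hψ)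
  have w2 : τ (algebraMap L Ω (y₁ / x₁ - Polynomial.aeval (y₂ / x₂) ψ)) ∈ V.nonunits :=
    hnonτ _ (hnon _ _ (by rw [e2]; exact hψ))
  have f1 : algebraMap L Ω (Polynomial.aeval (y₂ / x₂) ψ) = Polynomial.aeval (algebraMap L Ω (y₂ / x₂)) ψ :=
    (Polynomial.aeval_algebraMap_apply Ω (y₂ / x₂) ψ).symm
  have f2 : τ (Polynomial.aeval (algebraMap L Ω (y₂ / x₂)) ψ) = Polynomial.aeval (algebraMap L Ω (y₂ / x₂)) ψ := by
    have h3 : τ (Polynomial.aeval (algebraMap L Ω (y₂ / x₂)) ψ) = Polynomial.aeval (τ (algebraMap L Ω (y₂ / x₂))) ψ :=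
      (Polynomial.aeval_algHom_apply (τ : Ω →ₐ[k] Ω) (algebraMap L Ω (y₂ / x₂)) ψ).symm
    rw [h3, map_div₀, map_div₀, hx, hy]
  rw [map_sub, f1, map_div₀] at w1
  rw [map_sub, map_sub, f1, f2, map_div₀, map_div₀] at w2
  have h6 := sub_mem w1 w2
  rw [sub_sub_sub_cancel_right] at h6
  exact h6

end Pool.Agent.H12.ON
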