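import Pool.Agent.H12.ON.Def
import Pool.Agent.H82.NS.PlC

/-! # [H12 ON ORD] Two elements outside a place: their values are commensurable

`ord_exists` (H82/NS/PlC.lean): `ord : K → ℤ` for `V`. `ord x = -α`, `ord z = -β` with `α, β ≥ 1` (not in `V`): `x^β/z^α` has `ord = 0`: in `V`, and so its
inverse. -/

namespace Pool.Agent.H12.ON

open Pool.Agent.H82.NS

private theorem ordp {K : Type} [Field K] {ord : K → ℤ}
    (h : ∀ a b : K, a ≠ 0 → b ≠ 0 → ord (a * b) = ord a + ord b) {x : K} (hx : x ≠ 0) (n : ℕ) :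
    ord (x ^ n) = n * ord x := by
  have h1 : ord 1 = 0 := by
    have := h 1 1 one_ne_zero one_ne_zero
    rw [mul_one] at this
    omega
  induction n with
  | zero => simp [h1]
  | succ n ih =>
    rw [pow_succ, h _ _ (pow_ne_zero n hx) hx, ih]
    push_cast
    ring

private theorem ordd {K : Type} [Field K] {ord : K → ℤ}
    (h : ∀ a b : K, a ≠ 0 → b ≠ 0 → ord (a * b) = ord a + ord b) {x z : K} (hx : x ≠ 0) (hz : z ≠ 0) :
    ord (x / z) = ord x - ord z := by
  have := h (x / z) z (div_ne_zero hx hz) hz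
  rw [div_mul_cancel₀ x hz] at this
  omega

theorem ord_ratio {E K : Type} [Field E] [Field K] [Algebra E K] {x z : K} (hK : FF E x)
    {V : ValuationSubring K} (hV : Inf E x V) (hz : z ∉ V) :
    ∃ a b : ℕ, 1 ≤ a ∧ 1 ≤ b ∧ x ^ b / z ^ a ∈ V ∧ z ^ a / x ^ b ∈ V := by
  obtain ⟨ord, hmul, hmem, -⟩ := ord_exists hK hV
  have hxV : x ∉ V := hV.pole
  have hx0 : x ≠ 0 := fun h => hxV (h ▸ V.zero_mem)
  have hz0 : z ≠ 0 := fun h => hz (h ▸ V.zero_mem)
  have hox : ord x < 0 := by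
    by_contra h
    exact hxV ((hmem x hx0).2 (not_lt.1 h))
  have hoz : ord z < 0 := by
    by_contra h
    exact hz ((hmem z hz0).2 (not_lt.1 h))
  refine ⟨(-ord x).toNat, (-ord z).toNat, by omega, by omega, ?_, ?_⟩
  · rw [hmem _ (div_ne_zero (pow_ne_zero _ hx0) (pow_ne_zero _ hz0)),
      ordd hmul (pow_ne_zero _ hx0) (pow_ne_zero _ hz0), ordp hmul hx0, ordp hmul hz0,
      Int.toNat_of_nonneg (by omega), Int.toNat_of_nonneg (by omega)]
    apply le_of_eq
    ring
  · rw [hmem _ (div_ne_zero (pow_ne_zero _ hz0) (pow_ne_zero _ hx0)),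
      ordd hmul (pow_ne_zero _ hz0) (pow_ne_zero _ hx0), ordp hmul hx0, ordp hmul hz0,
      Int.toNat_of_nonneg (by omega), Int.toNat_of_nonneg (by omega)]
    apply le_of_eq
    ring

end Pool.Agent.H12.ON
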