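import Pool.Agent.H12.ON.One
import Pool.Agent.H12.ON.Cnj
import Pool.Agent.H12.ON.Ord

/-! # [H12 ON AFF] Two generic points with a common place are affinely related

Setting of `Cnj`, moreover `L` is algebraic over `k(x₁)` and `Ω` over `L`, `L` finite over `k(x₁)` (`FF k x₁`), two curves without homothety, and both `ψ₁`
(`y₁/x₁ - ψ₁(y₂/x₂)`) and `ψ₂` (`y₂/x₂ - ψ₂(y₁/x₁)`). Write `P₁ = (x₁,y₁)`, `P₂` in `Ω`.
(1) `x₁, x₂` are transcendental over `k` (not in a valuation ring over `k`, `val_alg`); `Ω` is algebraic over `k(x₁)` and over `k(x₂)` (`alg_swap`). `ord_ratio`: `a, b`.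
(2) Every `τ : Ω ≃ₐ[k] Ω` which fixes `P₂` satisfies `τ P₁ ∈ cls k F₁ P₁` (`cnj`; `τ P₁` is a zero of `F₁`), so `τ P₁ = P₁` (`link_eq`). `fixed_mem` (for `P₂`):
`x₁, y₁ ∈ k(x₂,y₂)`. If `V` is over `k` with `x₂ ∈ V` then `x₁ ∈ V` (otherwise `V ∩ L = O` and `x₂ ∉ O`) and `y₁ ∈ V` (`pt_fin`): integral over `k[x₂]`
(`int_of_all`), `nrm` for `F₂`: `x₁ = p(P₂)`, `y₁ = q(P₂)`, and by `red` we may take `m 1 < n` on the supports. In the same way (with `ψ₂`)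
`x₂ = p'(P₁)`, `y₂ = q'(P₁)`.
(3) Degrees. `V` over `k` in `Ω` with `x₁ ∉ V`, then `x₂ ∉ V`. `d = deg p`, `d' = deg p'` (total degrees; `p, p' ≠ 0`). `top_unit`: `x₁/x₂^d` and `x₂/x₁^(d')` are units of
`V`, so `x₁/x₁^(d d')` is one and `d d' = 1` (`x₁ ∉ V`): `d = d' = 1`. `y₁/x₁ ∈ V` (`pt_inf`), so `q(P₂)/x₂ ∈ V` and `deg q ≤ 1` (`top_unit`, if `q ≠ 0`); the same for `q'`.
(4) A polynomial of total degree `≤ 1` is `C w + C a X + C b Y`. This gives `A, w` with `P₂ = A P₁ + w` (from `p', q'`) and `B, v` with `P₁ = B P₂ + v`. `det A ≠ 0`: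
`P₁ = B A P₁ + (…)`, and `1, x₁, y₁` are independent over `k` (`mon_li` with `K = 1`), so `B A = 1`. -/

namespace Pool.Agent.H12.ON

open MvPolynomial IntermediateField

private theorem af_alg {k L Ω : Type} [Field k] [Field L] [Field Ω] [Algebra k L]
    [Algebra L Ω] [Algebra k Ω] [IsScalarTower k L Ω] {x : L} (hL : FiniteDimensional k⟮x⟯ L)
    (hΩ : Algebra.IsAlgebraic L Ω) : Algebra.IsAlgebraic k⟮algebraMap L Ω x⟯ Ω := by
  have h1 : Algebra.IsAlgebraic k⟮x⟯ L := inferInstance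
  have h2 : Algebra.IsAlgebraic k⟮x⟯ Ω := Algebra.IsAlgebraic.trans k⟮x⟯ L Ω
  have hle : k⟮x⟯ ≤ (k⟮algebraMap L Ω x⟯).comap (IsScalarTower.toAlgHom k L Ω) := by
    rw [adjoin_le_iff, Set.singleton_subset_iff]
    exact mem_adjoin_simple_self k (algebraMap L Ω x)
  have hmem : ∀ w : k⟮x⟯, algebraMap L Ω (w : L) ∈ k⟮algebraMap L Ω x⟯ := fun w => hle w.2
  let φ : k⟮x⟯ →+* k⟮algebraMap L Ω x⟯ :=
    ((algebraMap L Ω).comp (algebraMap k⟮x⟯ L)).codRestrict (k⟮algebraMap L Ω x⟯).toSubring hmem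
  constructor
  intro z
  obtain ⟨p, hp, hpz⟩ := h2.isAlgebraic z
  refine ⟨p.map φ, (Polynomial.map_ne_zero_iff φ.injective).2 hp, ?_⟩
  rw [Polynomial.aeval_def, Polynomial.eval₂_map]
  rw [Polynomial.aeval_def] at hpz
  exact hpz

private theorem af_lin {k : Type} [Field k] (p : MvPolynomial (Fin 2) k) (hp : p.totalDegree ≤ 1) :
    ∃ w a b : k, p = C w + C a * X 0 + C b * X 1 := by
  classical
  refine ⟨coeff 0 p, coeff (Finsupp.single 0 1) p, coeff (Finsupp.single 1 1) p, ?_⟩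
  ext m
  rw [coeff_add, coeff_add, coeff_C, coeff_C_mul, coeff_C_mul, coeff_X, coeff_X]
  by_cases h : 1 < m 0 + m 1
  · have h1 : coeff m p = 0 := by
      refine coeff_eq_zero_of_totalDegree_lt ?_
      have h2 : (∑ i ∈ m.support, m i) = m 0 + m 1 := by
        have h3 : (m.sum fun _ e => e) = m 0 + m 1 := by
          rw [Finsupp.sum_fintype _ _ (fun _ => rfl), Fin.sum_univ_two]
        exact h3
      rw [h2]
      exact hp.trans_lt h
    rw [h1, if_neg, if_neg, if_neg]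
    · simp
    · intro h2
      rw [← h2] at h
      simp at h
    · intro h2
      rw [← h2] at h
      simp at h
    · intro h2
      rw [← h2] at h
      simp at h
  · have hm : m = 0 ∨ m = Finsupp.single 0 1 ∨ m = Finsupp.single 1 1 := by
      have h3 : (m 0 = 0 ∧ m 1 = 0) ∨ (m 0 = 1 ∧ m 1 = 0) ∨ (m 0 = 0 ∧ m 1 = 1) := by omega
      rcases h3 with ⟨h4, h5⟩ | ⟨h4, h5⟩ | ⟨h4, h5⟩
      · left
        ext i
        fin_cases i
        · simpa using h4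
        · simpa using h5
      · right
        left
        ext i
        fin_cases i
        · simpa using h4
        · simpa using h5
      · right
        right
        ext i
        fin_cases i
        · simpa using h4
        · simpa using h5
    have e1 : (0 : Fin 2 →₀ ℕ) ≠ Finsupp.single 0 1 := fun h => by simpa using DFunLike.congr_fun h 0
    have e2 : (0 : Fin 2 →₀ ℕ) ≠ Finsupp.single 1 1 := fun h => by simpa using DFunLike.congr_fun h 1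
    have e3 : (Finsupp.single 0 1 : Fin 2 →₀ ℕ) ≠ Finsupp.single 1 1 := fun h => by
      simpa using DFunLike.congr_fun h 0
    rcases hm with rfl | rfl | rfl
    · rw [if_pos rfl, if_neg e1.symm, if_neg e2.symm]
      simp
    · rw [if_neg e1, if_pos rfl, if_neg e3.symm]
      simp
    · rw [if_neg e2, if_neg e3, if_pos rfl]
      simp

private theorem af_ind {k Ω : Type} [Field k] [Field Ω] [Algebra k Ω] {n : ℕ} {F : MvPolynomial (Fin 2) k}
    (hF : Tp k n F) {x y : Ω} (h0 : aeval ![x, y] F = 0) (hx : Transcendental k x) {c a b : k}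
    (h : algebraMap k Ω c + algebraMap k Ω a * x + algebraMap k Ω b * y = 0) : a = 0 ∧ b = 0 := by
  classical
  have hn := hF.n3
  have hbox : box n 1 = {(0, 0), (1, 0), (0, 1)} := by
    ext ⟨i, j⟩
    simp only [box, Finset.mem_filter, Finset.mem_product, Finset.mem_range, Finset.mem_insert, Finset.mem_singleton,
      Prod.mk.injEq]
    omega
  obtain ⟨f, hf⟩ : ∃ f : ℕ × ℕ → k, f = fun u => if u = (0, 0) then c else if u = (1, 0) then a else b := ⟨_, rfl⟩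
  have h1 := mon_li hF h0 hx (K := 1) (a := f) (by
    rw [hbox, Finset.sum_insert (by decide), Finset.sum_insert (by decide), Finset.sum_singleton]
    have g1 : f (0, 0) = c := by rw [hf]; rfl
    have g2 : f (1, 0) = a := by rw [hf]; rfl
    have g3 : f (0, 1) = b := by rw [hf]; rfl
    rw [g1, g2, g3]
    simp only [mon, pow_zero, pow_one, mul_one, one_mul]
    linear_combination h)
  have h2 := h1 (1, 0) (by rw [hbox]; simp)
  have h3 := h1 (0, 1) (by rw [hbox]; simp)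
  have g2 : f (1, 0) = a := by rw [hf]; rfl
  have g3 : f (0, 1) = b := by rw [hf]; rfl
  exact ⟨g2 ▸ h2, g3 ▸ h3⟩

/-- the coordinates of one point are polynomials in the other one -/
private theorem af_pol {k Ω : Type} [Field k] [CharZero k] [Field Ω] [IsAlgClosed Ω] [Algebra k Ω] {n : ℕ}
    {F : MvPolynomial (Fin 2) k} (hF : Cv k Ω n F) {x y z : Ω} (h0 : aeval ![x, y] F = 0)
    (hx : Transcendental k x) (hΩ : Algebra.IsAlgebraic k⟮x⟯ Ω)
    (hfix : ∀ σ : Ω ≃ₐ[k] Ω, σ x = x → σ y = y → σ z = z)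
    (hV : ∀ V : ValuationSubring Ω, Ov k V → x ∈ V → z ∈ V) :
    ∃ p : MvPolynomial (Fin 2) k, z = aeval ![x, y] p ∧ ∀ m ∈ p.support, m 1 < n := by
  obtain ⟨p, hp⟩ := nrm hF h0 hx (fixed_mem hΩ hfix) (int_of_all hV)
  obtain ⟨q, r, h1, _, h3⟩ := red hF.toTp p
  refine ⟨r, ?_, h3⟩
  rw [hp, h1, map_add, map_mul, h0, mul_zero, zero_add]

private theorem af_pow {Ω : Type} [Field Ω] {V : ValuationSubring Ω} {x : Ω} {m : ℕ} (hx : x ∉ V)
    (h : x ^ (m + 1) ∈ V) : False := by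
  have h0 : x ≠ 0 := fun h => hx (h ▸ V.zero_mem)
  have h1 : x⁻¹ ∈ V := (V.mem_or_inv_mem x).resolve_left hx
  apply hx
  have h2 : x = x ^ (m + 1) * x⁻¹ ^ m := by
    rw [pow_succ, inv_pow]
    field_simp
  rw [h2]
  exact V.mul_mem _ _ h (V.toSubring.pow_mem h1 m)

/-- the degrees of the polynomials are at most `1` -/
private theorem af_deg {k Ω : Type} [Field k] [Field Ω] [IsAlgClosed Ω] [Algebra k Ω] {n : ℕ}
    {F₁ F₂ : MvPolynomial (Fin 2) k} (hF₁ : Tp k n F₁) (hF₂ : Tp k n F₂) {x₁ y₁ x₂ y₂ : Ω}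
    (h1 : aeval ![x₁, y₁] F₁ = 0) (h2 : aeval ![x₂, y₂] F₂ = 0) {V : ValuationSubring Ω} (hV : Ov k V)
    (hx1 : x₁ ∉ V) (hx2 : x₂ ∉ V) {p q p' : MvPolynomial (Fin 2) k} (hp : x₁ = aeval ![x₂, y₂] p)
    (hq : y₁ = aeval ![x₂, y₂] q) (hp' : x₂ = aeval ![x₁, y₁] p') (hpn : ∀ m ∈ p.support, m 1 < n)
    (hqn : ∀ m ∈ q.support, m 1 < n) (hpn' : ∀ m ∈ p'.support, m 1 < n) :
    p.totalDegree ≤ 1 ∧ q.totalDegree ≤ 1 := by
  have hx10 : x₁ ≠ 0 := fun h => hx1 (h ▸ V.zero_mem)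
  have hx20 : x₂ ≠ 0 := fun h => hx2 (h ▸ V.zero_mem)
  have hp0 : p ≠ 0 := by
    rintro rfl
    rw [map_zero] at hp
    exact hx10 hp
  have hp0' : p' ≠ 0 := by
    rintro rfl
    rw [map_zero] at hp'
    exact hx20 hp'
  obtain ⟨_, h3, h4⟩ := top_unit hF₂ hV h2 hx2 hp0 hpn
  obtain ⟨_, h5, h6⟩ := top_unit hF₁ hV h1 hx1 hp0' hpn'
  rw [← hp] at h3 h4
  rw [← hp'] at h5 h6
  obtain ⟨d, hd⟩ : ∃ d, d = p.totalDegree := ⟨_, rfl⟩
  obtain ⟨d', hd'⟩ : ∃ d', d' = p'.totalDegree := ⟨_, rfl⟩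
  rw [← hd] at h3 h4 ⊢
  rw [← hd'] at h5 h6
  have h7 : x₁ / x₁ ^ (d' * d) ∈ V := by
    have h8 := V.mul_mem _ _ h3 (V.toSubring.pow_mem h5 d)
    have h9 : x₁ / x₂ ^ d * (x₂ / x₁ ^ d') ^ d = x₁ / x₁ ^ (d' * d) := by
      rw [div_pow, ← pow_mul]
      field_simp
    rw [h9] at h8
    exact h8
  have h10 : x₁ ^ (d' * d) / x₁ ∈ V := by
    have h8 := V.mul_mem _ _ h4 (V.toSubring.pow_mem h6 d)
    have h9 : x₂ ^ d / x₁ * (x₁ ^ d' / x₂) ^ d = x₁ ^ (d' * d) / x₁ := by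
      rw [div_pow, ← pow_mul]
      field_simp
    rw [h9] at h8
    exact h8
  have hdd : d' * d = 1 := by
    rcases Nat.lt_or_ge (d' * d) 1 with h | h
    · exfalso
      have h11 : d' * d = 0 := by omega
      rw [h11, pow_zero, div_one] at h7
      exact hx1 h7
    · rcases Nat.lt_or_ge 1 (d' * d) with h' | h'
      · exfalso
        obtain ⟨m, hm⟩ : ∃ m, d' * d = m + 2 := ⟨d' * d - 2, by omega⟩
        rw [hm, pow_succ, mul_div_assoc, div_self hx10, mul_one] at h10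
        exact af_pow hx1 h10
      · omega
  have hd1 : d = 1 := Nat.eq_one_of_mul_eq_one_left hdd
  refine ⟨hd1.le, ?_⟩
  by_cases hq0 : q = 0
  · rw [hq0, totalDegree_zero]
    exact Nat.zero_le _
  obtain ⟨h11, _, h13⟩ := top_unit hF₂ hV h2 hx2 hq0 hqn
  rw [← hq] at h11 h13
  obtain ⟨h14, -⟩ := pt_inf hF₁ hV h1 hx1
  rw [hd1, pow_one] at h3
  by_contra hcon
  obtain ⟨m, hm⟩ : ∃ m, q.totalDegree = m + 2 := ⟨q.totalDegree - 2, by omega⟩
  rw [hm] at h13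
  have h15 := V.mul_mem _ _ (V.mul_mem _ _ h13 h14) h3
  have h16 : x₂ ^ (m + 2) / y₁ * (y₁ / x₁) * (x₁ / x₂) = x₂ ^ (m + 1) := by
    rw [pow_succ x₂ (m + 1)]
    field_simp
  rw [h16] at h15
  exact af_pow hx2 h15

theorem affine_rel {k L Ω : Type} [Field k] [CharZero k] [Field L] [Field Ω] [IsAlgClosed Ω] [Algebra k L]
    [Algebra L Ω] [Algebra k Ω] [IsScalarTower k L Ω] {n : ℕ} {F₁ F₂ : MvPolynomial (Fin 2) k}
    (hF₁ : Cv k Ω n F₁) (hF₂ : Cv k Ω n F₂) {x₁ y₁ x₂ y₂ : L} (h1 : aeval ![x₁, y₁] F₁ = 0)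
    (h2 : aeval ![x₂, y₂] F₂ = 0) (hL : Pool.Agent.H82.NS.FF k x₁) (hΩ : Algebra.IsAlgebraic L Ω)
    {O : ValuationSubring L} (hO : Ov k O) (hx1 : x₁ ∉ O) (hx2 : x₂ ∉ O)
    (hO1 : ∀ W : ValuationSubring L, Ov k W → x₁ ∉ W → W = O)
    (hO2 : ∀ W : ValuationSubring L, Ov k W → x₂ ∉ W → W = O) {ψ₁ ψ₂ : Polynomial k}
    (hψ₁ : y₁ / x₁ - Polynomial.aeval (y₂ / x₂) ψ₁ ∈ O.nonunits)
    (hψ₂ : y₂ / x₂ - Polynomial.aeval (y₁ / x₁) ψ₂ ∈ O.nonunits) :
    ∃ (A : Matrix (Fin 2) (Fin 2) k) (w : Fin 2 → k), A.det ≠ 0 ∧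
      x₂ = algebraMap k L (A 0 0) * x₁ + algebraMap k L (A 0 1) * y₁ + algebraMap k L (w 0) ∧
      y₂ = algebraMap k L (A 1 0) * x₁ + algebraMap k L (A 1 1) * y₁ + algebraMap k L (w 1) := by
  classical
  have hinj : Function.Injective (algebraMap L Ω) := (algebraMap L Ω).injective
  obtain ⟨X₁, hX₁⟩ : ∃ z, z = algebraMap L Ω x₁ := ⟨_, rfl⟩
  obtain ⟨Y₁, hY₁⟩ : ∃ z, z = algebraMap L Ω y₁ := ⟨_, rfl⟩
  obtain ⟨X₂, hX₂⟩ : ∃ z, z = algebraMap L Ω x₂ := ⟨_, rfl⟩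
  obtain ⟨Y₂, hY₂⟩ : ∃ z, z = algebraMap L Ω y₂ := ⟨_, rfl⟩
  have hev : ∀ (x y : L) (G : MvPolynomial (Fin 2) k),
      aeval ![algebraMap L Ω x, algebraMap L Ω y] G = algebraMap L Ω (aeval ![x, y] G) := by
    intro x y G
    have h3 : (aeval ![algebraMap L Ω x, algebraMap L Ω y] : MvPolynomial (Fin 2) k →ₐ[k] Ω) =
        (IsScalarTower.toAlgHom k L Ω).comp (aeval ![x, y]) := by
      apply MvPolynomial.algHom_ext
      intro i
      rw [AlgHom.comp_apply, aeval_X, aeval_X]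
      fin_cases i <;> rfl
    rw [h3]
    rfl
  have h1' : aeval ![X₁, Y₁] F₁ = 0 := by rw [hX₁, hY₁, hev, h1, map_zero]
  have h2' : aeval ![X₂, Y₂] F₂ = 0 := by rw [hX₂, hY₂, hev, h2, map_zero]
  have ht1 : Transcendental k x₁ := hL.tr
  have ht2 : Transcendental k x₂ := fun h => hx2 (val_alg hO h)
  have hT1 : Transcendental k X₁ := by
    rw [hX₁]
    exact (transcendental_algebraMap_iff hinj).2 ht1
  have hT2 : Transcendental k X₂ := by
    rw [hX₂]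
    exact (transcendental_algebraMap_iff hinj).2 ht2
  have hA1 : Algebra.IsAlgebraic k⟮X₁⟯ Ω := by
    rw [hX₁]
    exact af_alg hL.fin hΩ
  have hA2 : Algebra.IsAlgebraic k⟮X₂⟯ Ω := alg_swap hA1 hT2
  obtain ⟨a, b, ha, hb, hab, hba⟩ := ord_ratio hL ⟨hO, hx1⟩ hx2
  -- the automorphisms
  have hfix1 : ∀ σ : Ω ≃ₐ[k] Ω, σ X₂ = X₂ → σ Y₂ = Y₂ → σ X₁ = X₁ ∧ σ Y₁ = Y₁ := by
    intro σ hx hy
    rw [hX₂] at hx
    rw [hY₂] at hy
    have h3 := cnj (k := k) hx1 hx2 hO1 hO2 hb hab hba hψ₁ σ hx hy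
    rw [← hX₁, ← hY₁] at h3
    have h4 : (σ X₁, σ Y₁) ∈ cls k F₁ (X₁, Y₁) := by
      refine ⟨?_, h3⟩
      have h5 : (aeval ![σ X₁, σ Y₁] : MvPolynomial (Fin 2) k →ₐ[k] Ω) =
          (σ : Ω →ₐ[k] Ω).comp (aeval ![X₁, Y₁]) := by
        apply MvPolynomial.algHom_ext
        intro i
        rw [AlgHom.comp_apply, aeval_X, aeval_X]
        fin_cases i <;> rfl
      show aeval ![σ X₁, σ Y₁] F₁ = 0
      rw [h5, AlgHom.comp_apply, h1', map_zero]
    have h5 := link_eq hF₁ (P := (X₁, Y₁)) h1' hT1 hA1 h4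
    exact ⟨congrArg Prod.fst h5, congrArg Prod.snd h5⟩
  have hfix2 : ∀ σ : Ω ≃ₐ[k] Ω, σ X₁ = X₁ → σ Y₁ = Y₁ → σ X₂ = X₂ ∧ σ Y₂ = Y₂ := by
    intro σ hx hy
    rw [hX₁] at hx
    rw [hY₁] at hy
    have h3 := cnj (k := k) hx2 hx1 hO2 hO1 ha hba hab hψ₂ σ hx hy
    rw [← hX₂, ← hY₂] at h3
    have h4 : (σ X₂, σ Y₂) ∈ cls k F₂ (X₂, Y₂) := by
      refine ⟨?_, h3⟩
      have h5 : (aeval ![σ X₂, σ Y₂] : MvPolynomial (Fin 2) k →ₐ[k] Ω) =
          (σ : Ω →ₐ[k] Ω).comp (aeval ![X₂, Y₂]) := by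
        apply MvPolynomial.algHom_ext
        intro i
        rw [AlgHom.comp_apply, aeval_X, aeval_X]
        fin_cases i <;> rfl
      show aeval ![σ X₂, σ Y₂] F₂ = 0
      rw [h5, AlgHom.comp_apply, h2', map_zero]
    have h5 := link_eq hF₂ (P := (X₂, Y₂)) h2' hT2 hA2 h4
    exact ⟨congrArg Prod.fst h5, congrArg Prod.snd h5⟩
  -- the places
  have hcom : ∀ V : ValuationSubring Ω, Ov k V → Ov k (V.comap (algebraMap L Ω)) := by
    intro V hV e
    rw [ValuationSubring.mem_comap, ← IsScalarTower.algebraMap_apply]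
    exact hV e
  have hV12 : ∀ V : ValuationSubring Ω, Ov k V → X₂ ∈ V → X₁ ∈ V := by
    intro V hV h3
    by_contra h4
    have h5 := hO1 _ (hcom V hV) (by rw [ValuationSubring.mem_comap, ← hX₁]; exact h4)
    apply hx2
    rw [← h5, ValuationSubring.mem_comap, ← hX₂]
    exact h3
  have hV21 : ∀ V : ValuationSubring Ω, Ov k V → X₁ ∈ V → X₂ ∈ V := by
    intro V hV h3
    by_contra h4
    have h5 := hO2 _ (hcom V hV) (by rw [ValuationSubring.mem_comap, ← hX₂]; exact h4)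
    apply hx1
    rw [← h5, ValuationSubring.mem_comap, ← hX₁]
    exact h3
  obtain ⟨p, hp, hpn⟩ := af_pol hF₂ h2' hT2 hA2 (fun σ h3 h4 => (hfix1 σ h3 h4).1) hV12
  obtain ⟨q, hq, hqn⟩ := af_pol hF₂ h2' hT2 hA2 (fun σ h3 h4 => (hfix1 σ h3 h4).2)
    (fun V hV h3 => pt_fin hF₁.toTp hV h1' (hV12 V hV h3))
  obtain ⟨p', hp', hpn'⟩ := af_pol hF₁ h1' hT1 hA1 (fun σ h3 h4 => (hfix2 σ h3 h4).1) hV21
  obtain ⟨q', hq', hqn'⟩ := af_pol hF₁ h1' hT1 hA1 (fun σ h3 h4 => (hfix2 σ h3 h4).2)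
    (fun V hV h3 => pt_fin hF₂.toTp hV h2' (hV21 V hV h3))
  obtain ⟨V, hV, hVx⟩ := exists_inf (k := k) hT1
  have hVx2 : X₂ ∉ V := fun h => hVx (hV12 V hV h)
  obtain ⟨hd1, hd2⟩ := af_deg hF₁.toTp hF₂.toTp h1' h2' hV hVx hVx2 hp hq hp' hpn hqn hpn'
  obtain ⟨hd3, hd4⟩ := af_deg hF₂.toTp hF₁.toTp h2' h1' hV hVx2 hVx hp' hq' hp hpn' hqn' hpn
  obtain ⟨v0, b00, b01, e1⟩ := af_lin p hd1
  obtain ⟨v1, b10, b11, e2⟩ := af_lin q hd2
  obtain ⟨w0, a00, a01, e3⟩ := af_lin p' hd3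
  obtain ⟨w1, a10, a11, e4⟩ := af_lin q' hd4
  have hlin : ∀ (x y : Ω) (w a b : k), aeval ![x, y] (C w + C a * X 0 + C b * X 1 : MvPolynomial (Fin 2) k) =
      algebraMap k Ω w + algebraMap k Ω a * x + algebraMap k Ω b * y := by
    intro x y w a b
    rw [map_add, map_add, map_mul, map_mul, aeval_C, aeval_C, aeval_C, aeval_X, aeval_X]
    rfl
  rw [e1, hlin] at hp
  rw [e2, hlin] at hq
  rw [e3, hlin] at hp'
  rw [e4, hlin] at hq'
  -- the matrix is invertible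
  have hi1 := af_ind hF₁.toTp h1' hT1 (c := v0 + b00 * w0 + b01 * w1) (a := b00 * a00 + b01 * a10 - 1)
    (b := b00 * a01 + b01 * a11) (by
      simp only [map_add, map_mul, map_sub, map_one]
      linear_combination (-1 : Ω) * hp - (algebraMap k Ω b00) * hp' - (algebraMap k Ω b01) * hq')
  have hi2 := af_ind hF₁.toTp h1' hT1 (c := v1 + b10 * w0 + b11 * w1) (a := b10 * a00 + b11 * a10)
    (b := b10 * a01 + b11 * a11 - 1) (by
      simp only [map_add, map_mul, map_sub, map_one]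
      linear_combination (-1 : Ω) * hq - (algebraMap k Ω b10) * hp' - (algebraMap k Ω b11) * hq')
  obtain ⟨i1, i2⟩ := hi1
  obtain ⟨i3, i4⟩ := hi2
  refine ⟨!![a00, a01; a10, a11], ![w0, w1], ?_, ?_, ?_⟩
  · rw [Matrix.det_fin_two_of]
    intro hdet
    have h3 : (b00 * b11 - b01 * b10) * (a00 * a11 - a01 * a10) = 1 := by
      linear_combination (b10 * a01 + b11 * a11) * i1 - (b10 * a00 + b11 * a10) * i2 + i4
    rw [hdet, mul_zero] at h3
    exact zero_ne_one h3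
  · apply hinj
    rw [map_add, map_add, map_mul, map_mul, ← IsScalarTower.algebraMap_apply, ← IsScalarTower.algebraMap_apply,
      ← IsScalarTower.algebraMap_apply, ← hX₁, ← hY₁, ← hX₂]
    show X₂ = algebraMap k Ω a00 * X₁ + algebraMap k Ω a01 * Y₁ + algebraMap k Ω w0
    linear_combination hp'
  · apply hinj
    rw [map_add, map_add, map_mul, map_mul, ← IsScalarTower.algebraMap_apply, ← IsScalarTower.algebraMap_apply,
      ← IsScalarTower.algebraMap_apply, ← hX₁, ← hY₁, ← hY₂]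
    show Y₂ = algebraMap k Ω a10 * X₁ + algebraMap k Ω a11 * Y₁ + algebraMap k Ω w1
    linear_combination hq'

end Pool.Agent.H12.ON
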