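import Pool.Agent.H12.ON.Li

/-! # [H12 ON ALI] A relation between two generic points makes them algebraically dependent

`P = (x₁,y₁)`, `Q = (x₂,y₂)` zeros of `F₁`, `F₂` in the field `M` over `k`, `x₁` transcendental over `k`, `s ≠ 0` on the boxes and `ev2 s P Q = 0`. Suppose `x₂` is
transcendental over `k' = k(x₁,y₁)` (intermediate field of `M/k`). `F₂` over `k'` is `Tp k' n (map F₂)`: `ftop n F₂` is irreducible even over `M` (hypothesis), so over
`k'` (a factorisation over `k'` is one over `M`, same degrees); total degree, leading coefficient are unchanged. `mon_li` over `k'`: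
`∑_v (∑_u s u v mon P u) mon Q v = 0` gives `∑_u s u v mon P u = 0` for all `v ∈ box n K2`, and `mon_li` over `k`: `s u v = 0` for all `u, v`: contradiction. So `x₂` is
algebraic over `k(x₁,y₁)`; `y₁` is algebraic over `k(x₁)` (zero of `F₁(x₁,Y)`, whose coefficient of `Y^n` is a nonzero constant), so `x₂` is algebraic over `k(x₁)`. -/

namespace Pool.Agent.H12.ON

open MvPolynomial IntermediateField

private theorem ali_ftop_map {k M : Type} [CommRing k] [CommRing M] (f : k →+* M) (n : ℕ)
    (F : MvPolynomial (Fin 2) k) : ftop n (MvPolynomial.map f F) = (ftop n F).map f := by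
  unfold ftop
  rw [Polynomial.map_sum]
  refine Finset.sum_congr rfl fun j _ => ?_
  rw [Polynomial.map_monomial, MvPolynomial.coeff_map]

private theorem ali_lead {k : Type} [Field k] {n : ℕ} {F : MvPolynomial (Fin 2) k} (hF : Tp k n F) :
    F.coeff (Finsupp.single 1 n) ≠ 0 := by
  have h1 : (ftop n F).leadingCoeff ≠ 0 := Polynomial.leadingCoeff_ne_zero.2 hF.irr.ne_zero
  unfold Polynomial.leadingCoeff at h1
  have h2 : (ftop n F).coeff n = F.coeff (Finsupp.single 0 (n - n) + Finsupp.single 1 n) := by
    unfold ftop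
    rw [Polynomial.finsetSum_coeff]
    rw [Finset.sum_eq_single n]
    · rw [Polynomial.coeff_monomial, if_pos rfl]
    · intro b _ hb
      rw [Polynomial.coeff_monomial, if_neg hb]
    · intro h
      exact absurd (Finset.mem_range.2 (Nat.lt_succ_self n)) h
  rw [hF.top, h2] at h1
  simpa using h1

private theorem ali_Tp {k M : Type} [Field k] [Field M] [Algebra k M] {n : ℕ} {F : MvPolynomial (Fin 2) k}
    (hF : Tp k n F) (hM : Irreducible ((ftop n F).map (algebraMap k M))) (L : IntermediateField k M) :
    Tp L n (MvPolynomial.map (algebraMap k L) F) where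
  n3 := hF.n3
  deg := by
    refine le_trans ?_ hF.deg
    unfold MvPolynomial.totalDegree
    exact Finset.sup_mono (MvPolynomial.support_map_subset (algebraMap k L) F)
  top := by
    rw [ali_ftop_map, Polynomial.natDegree_map, hF.top]
  irr := by
    rw [ali_ftop_map]
    have h1 : ((ftop n F).map (algebraMap k L)) ≠ 0 :=
      (Polynomial.map_ne_zero_iff (algebraMap k L).injective).2 hF.irr.ne_zero
    have hprim : ((ftop n F).map (algebraMap k L)).IsPrimitive := by
      intro r hr
      have hr0 : r ≠ 0 := by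
        rintro rfl
        rw [map_zero, zero_dvd_iff] at hr
        exact h1 hr
      exact isUnit_iff_ne_zero.2 hr0
    refine hprim.irreducible_of_irreducible_map_of_injective (algebraMap L M).injective ?_
    rw [Polynomial.map_map, ← IsScalarTower.algebraMap_eq]
    exact hM

private theorem ali_y {k M : Type} [Field k] [Field M] [Algebra k M] {n : ℕ} {F : MvPolynomial (Fin 2) k}
    (hF : Tp k n F) {P : M × M} (h1 : aeval ![P.1, P.2] F = 0) : IsAlgebraic k⟮P.1⟯ P.2 := by
  classical
  obtain ⟨p, hp⟩ : ∃ p : Polynomial k⟮P.1⟯, p = ∑ m ∈ F.support, Polynomial.monomial (m 1)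
    (algebraMap k k⟮P.1⟯ (F.coeff m) * (AdjoinSimple.gen k P.1) ^ (m 0)) := ⟨_, rfl⟩
  refine ⟨p, ?_, ?_⟩
  · intro h0
    have h2 : p.coeff n = algebraMap k k⟮P.1⟯ (F.coeff (Finsupp.single 1 n)) := by
      rw [hp, Polynomial.finsetSum_coeff, Finset.sum_eq_single (Finsupp.single 1 n)]
      · rw [Polynomial.coeff_monomial, if_pos (by simp)]
        simp
      · intro m hm hne
        rw [Polynomial.coeff_monomial, if_neg]
        intro h3
        apply hne
        have h4 : m 0 + m 1 ≤ n := by
          have h5 := le_totalDegree hm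
          rw [Finsupp.sum_fintype _ _ (fun _ => rfl), Fin.sum_univ_two] at h5
          exact h5.trans hF.deg
        ext i
        fin_cases i
        · simp
          omega
        · simp
          omega
      · intro hm
        rw [MvPolynomial.notMem_support_iff] at hm
        rw [hm]
        simp
    rw [h0, Polynomial.coeff_zero] at h2
    exact ali_lead hF ((map_eq_zero (algebraMap k k⟮P.1⟯)).1 h2.symm)
  · rw [hp, map_sum]
    rw [MvPolynomial.aeval_def, MvPolynomial.eval₂_eq'] at h1
    rw [← h1]
    refine Finset.sum_congr rfl fun m _ => ?_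
    rw [Polynomial.aeval_monomial, Fin.prod_univ_two, map_mul, map_pow, AdjoinSimple.algebraMap_gen,
      ← IsScalarTower.algebraMap_apply, mul_assoc]
    rfl

theorem ali {k M : Type} [Field k] [Field M] [Algebra k M] {n : ℕ} {F₁ F₂ : MvPolynomial (Fin 2) k}
    (hF₁ : Tp k n F₁) (hF₂ : Tp k n F₂) (hM : Irreducible ((ftop n F₂).map (algebraMap k M)))
    {P Q : M × M} (h1 : aeval ![P.1, P.2] F₁ = 0) (h2 : aeval ![Q.1, Q.2] F₂ = 0)
    (hP : Transcendental k P.1) {K1 K2 : ℕ} {s : ℕ × ℕ → ℕ × ℕ → k}
    (hs : ∃ u ∈ box n K1, ∃ v ∈ box n K2, s u v ≠ 0) (h : ev2 k (box n K1) (box n K2) s P Q = 0) :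
    IsAlgebraic k⟮P.1⟯ Q.1 := by
  classical
  have key : IsAlgebraic (IntermediateField.adjoin k {P.1, P.2}) Q.1 := by
    by_contra htr
    obtain ⟨u, hu, v, hv, hsuv⟩ := hs
    have hx : P.1 ∈ IntermediateField.adjoin k {P.1, P.2} :=
      IntermediateField.subset_adjoin k _ (by simp)
    have hy : P.2 ∈ IntermediateField.adjoin k {P.1, P.2} :=
      IntermediateField.subset_adjoin k _ (by simp)
    obtain ⟨a, ha⟩ : ∃ a : ℕ × ℕ → IntermediateField.adjoin k {P.1, P.2},
        ∀ v, ((a v : IntermediateField.adjoin k {P.1, P.2}) : M) =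
          ∑ u ∈ box n K1, algebraMap k M (s u v) * mon P u := by
      refine ⟨fun v => ⟨∑ u ∈ box n K1, algebraMap k M (s u v) * mon P u, ?_⟩, fun v => rfl⟩
      refine sum_mem fun u _ => mul_mem (IntermediateField.algebraMap_mem _ _) ?_
      exact mul_mem (pow_mem hx _) (pow_mem hy _)
    have h3 : ∀ v ∈ box n K2, a v = 0 := by
      refine mon_li (ali_Tp hF₂ hM (IntermediateField.adjoin k {P.1, P.2})) (x := Q.1) (y := Q.2)
        ?_ htr ?_
      · rw [MvPolynomial.aeval_map_algebraMap]
        exact h2
      · rw [← h]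
        unfold ev2
        rw [Finset.sum_comm]
        refine Finset.sum_congr rfl fun v _ => ?_
        rw [← Finset.sum_mul, ← ha v]
        rfl
    have h4 := mon_li hF₁ h1 hP (K := K1) (a := fun u => s u v) (by
      rw [← ha v, h3 v hv]
      rfl)
    exact hsuv (h4 u hu)
  have hle : (IntermediateField.adjoin k {P.1, P.2}) ≤
      (algebraicClosure k⟮P.1⟯ M).restrictScalars k := by
    rw [IntermediateField.adjoin_le_iff]
    intro z hz
    rcases hz with rfl | hz
    · rw [IntermediateField.coe_restrictScalars]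
      exact (mem_algebraicClosure_iff (F := k⟮P.1⟯)).2
        (isAlgebraic_algebraMap (AdjoinSimple.gen k P.1))
    · rw [Set.mem_singleton_iff.1 hz]
      exact (mem_algebraicClosure_iff (F := k⟮P.1⟯)).2 (ali_y hF₁ h1)
  have h5 : IsAlgebraic ((algebraicClosure k⟮P.1⟯ M).restrictScalars k) Q.1 :=
    IsAlgebraic.tower_top_of_subalgebra_le (A := (IntermediateField.adjoin k {P.1, P.2}).toSubalgebra)
      (B := ((algebraicClosure k⟮P.1⟯ M).restrictScalars k).toSubalgebra) hle key
  have h6 : IsAlgebraic (algebraicClosure k⟮P.1⟯ M) Q.1 := h5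
  exact h6.restrictScalars k⟮P.1⟯

end Pool.Agent.H12.ON
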