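import Pool.Agent.H12.ON.Def

/-! # [H12 ON APX] Expansions form a ring

`Apx ι V t z g`: for each `N`: `z = ∑_{a<N} ι(g_a) t^a + r t^N`, `r ∈ V`. Assume `ι(kk) ⊆ V` and `t ∈ V`. Everything follows from the
definition: for products `(∑_{a<N} ι(g_a) t^a)(∑_{b<N} ι(h_b) t^b) = ∑_{c<N} ι((gh)_c) t^c + t^N (element of V)`
(`PowerSeries.coeff_mul`, antidiagonal; the terms with `a + b ≥ N` are `t^N * t^(a+b-N)`), or use the polynomials `PowerSeries.trunc N g`
and the fact that `trunc N (g h) - trunc N g * trunc N h` is divisible by `X^N`. -/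

namespace Pool.Agent.H12.ON

open Finset

variable {kk Ω : Type} [Field kk] [Field Ω] {ι : kk →+* Ω} {V : ValuationSubring Ω} {t z z' : Ω}
  {g g' : PowerSeries kk}

private theorem Apx.eval_mem (hι : ∀ c, ι c ∈ V) (ht : t ∈ V) (p : Polynomial kk) :
    p.eval₂ ι t ∈ V := by
  rw [Polynomial.eval₂_eq_sum_range]
  exact sum_mem fun i _ => mul_mem (hι _) (pow_mem ht i)

theorem Apx.mem (h : Apx ι V t z g) : z ∈ V := by
  obtain ⟨r, hr, h1⟩ := h 0
  rw [h1]
  simpa using hr

theorem Apx.const (hι : ∀ c, ι c ∈ V) (ht : t ∈ V) (c : kk) : Apx ι V t (ι c) (PowerSeries.C c) := by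
  intro N
  rcases Nat.eq_zero_or_pos N with h | h
  · subst h
    exact ⟨ι c, hι c, by simp⟩
  · refine ⟨0, zero_mem V, ?_⟩
    rw [Finset.sum_eq_single 0]
    · simp
    · intro a _ ha
      simp [PowerSeries.coeff_C, ha]
    · intro h0
      exact absurd (mem_range.2 h) h0

theorem Apx.var (hι : ∀ c, ι c ∈ V) (ht : t ∈ V) : Apx ι V t t PowerSeries.X := by
  intro N
  rcases Nat.lt_or_ge N 2 with h | h
  · interval_cases N
    · exact ⟨t, ht, by simp⟩
    · exact ⟨1, one_mem V, by simp⟩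
  · refine ⟨0, zero_mem V, ?_⟩
    rw [Finset.sum_eq_single 1]
    · simp
    · intro a _ ha
      simp [PowerSeries.coeff_X, ha]
    · intro h0
      exact absurd (mem_range.2 (by omega)) h0

theorem Apx.add (hι : ∀ c, ι c ∈ V) (ht : t ∈ V) (h : Apx ι V t z g) (h' : Apx ι V t z' g') :
    Apx ι V t (z + z') (g + g') := by
  intro N
  obtain ⟨r, hr, h1⟩ := h N
  obtain ⟨r', hr', h1'⟩ := h' N
  refine ⟨r + r', add_mem hr hr', ?_⟩
  simp only [map_add, add_mul, Finset.sum_add_distrib]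
  rw [h1, h1']
  ring

theorem Apx.mul (hι : ∀ c, ι c ∈ V) (ht : t ∈ V) (h : Apx ι V t z g) (h' : Apx ι V t z' g') :
    Apx ι V t (z * z') (g * g') := by
  intro N
  obtain ⟨r, hr, h1⟩ := h N
  obtain ⟨r', hr', h1'⟩ := h' N
  rw [← PowerSeries.eval₂_trunc_eq_sum_range] at h1 h1'
  have hd : (Polynomial.X : Polynomial kk) ^ N ∣
      PowerSeries.trunc N g * PowerSeries.trunc N g' - PowerSeries.trunc N (g * g') := by
    rw [Polynomial.X_pow_dvd_iff]
    intro d hd
    rw [Polynomial.coeff_sub, Polynomial.coeff_mul, PowerSeries.coeff_trunc, if_pos hd,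
      PowerSeries.coeff_mul, sub_eq_zero]
    refine Finset.sum_congr rfl fun x hx => ?_
    have hx' := mem_antidiagonal.1 hx
    rw [PowerSeries.coeff_trunc, PowerSeries.coeff_trunc, if_pos (by omega), if_pos (by omega)]
  obtain ⟨q, hq⟩ := hd
  have h2 : (PowerSeries.trunc N g).eval₂ ι t * (PowerSeries.trunc N g').eval₂ ι t =
      (PowerSeries.trunc N (g * g')).eval₂ ι t + t ^ N * q.eval₂ ι t := by
    have h3 := congrArg (Polynomial.eval₂ ι t) hq
    rw [Polynomial.eval₂_sub, Polynomial.eval₂_mul, Polynomial.eval₂_mul, Polynomial.eval₂_pow,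
      Polynomial.eval₂_X] at h3
    linear_combination h3
  rw [← PowerSeries.eval₂_trunc_eq_sum_range]
  have hA := Apx.eval_mem hι ht (PowerSeries.trunc N g)
  have hB := Apx.eval_mem hι ht (PowerSeries.trunc N g')
  refine ⟨q.eval₂ ι t + (PowerSeries.trunc N g).eval₂ ι t * r' +
    (PowerSeries.trunc N g').eval₂ ι t * r + r * r' * t ^ N, ?_, ?_⟩
  · exact add_mem (add_mem (add_mem (Apx.eval_mem hι ht q) (mul_mem hA hr')) (mul_mem hB hr))
      (mul_mem (mul_mem hr hr') (pow_mem ht N))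
  · rw [h1, h1']
    linear_combination h2

theorem Apx.pow (hι : ∀ c, ι c ∈ V) (ht : t ∈ V) (h : Apx ι V t z g) (j : ℕ) : Apx ι V t (z ^ j) (g ^ j) := by
  induction j with
  | zero =>
    have h1 := Apx.const (t := t) hι ht 1
    rw [map_one, map_one] at h1
    rwa [pow_zero, pow_zero]
  | succ j ih =>
    rw [pow_succ, pow_succ]
    exact Apx.mul hι ht ih h

end Pool.Agent.H12.ON
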