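import Pool.Agent.H12.ON.Pt
import Pool.Agent.H12.ON.Apx

/-! # [H12 ON APY] The expansion of a point of `F` at infinity

`t = x⁻¹ ∈ V.nonunits`, `z = y/x`, `θ = φ(0)`, `z - ι θ ∈ V.nonunits` (so `z ∈ V`). Put `G(t,w) = ∑_m F_m t^(n - m 0 - m 1) w^(m 1)` (sum over the
support of `F`, `F_m` mapped to `Ω`). `G(t,z) = x^(-n) F(x,y) = 0`. Let `N ≥ 1` (`N = 0`: `r = z`), `z₀ = ∑_{a<N} ι(φ_a) t^a ∈ V`. As
`Fser n F φ = 0`, the elements `t` and `z₀` satisfy `G(t,z₀) ∈ t^N V`: with the polynomial `p = trunc N φ` over `kk`, `φ = p + X^N ψ`, so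
`∑_m C(F_m) X^(n-i-j) p^j` is divisible by `X^N` in `kk[[X]]`, so in `kk[X]` (coefficients); evaluate at `t` through `ι`. (Or: `Apx` of `z₀`
with respect to `p`, `Apx.mul`, `Apx.add`: `Apx ι V t (G(t,z₀)) (Fser n F p)`, and `Fser n F p ≡ Fser n F φ = 0 mod X^N`.)
Now `G(t,z) - G(t,z₀) = (z - z₀) U`, `U = ∑_m F_m t^(n-i-j) (z^(j-1) + z^(j-2) z₀ + … + z₀^(j-1))`, and `U - ι(f(1,·)'(θ)) ∈ V.nonunits` since
`t`, `z - ι θ`, `z₀ - ι θ` are; `ι(f'(θ)) ≠ 0` is a unit of `V` (its inverse is in `ι(kk)`). So `U` is a unit and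
`z - z₀ = -G(t,z₀)/U ∈ t^N V`. -/

namespace Pool.Agent.H12.ON

open MvPolynomial Finset

private theorem sj_one (n j : ℕ) :
    ((Finsupp.single 0 (n - j) + Finsupp.single 1 j : Fin 2 →₀ ℕ)) 1 = j := by
  simp

private theorem sj_zero (n j : ℕ) :
    ((Finsupp.single 0 (n - j) + Finsupp.single 1 j : Fin 2 →₀ ℕ)) 0 = n - j := by
  simp

private theorem eq_sj {n : ℕ} {m : Fin 2 →₀ ℕ} (h : m 0 + m 1 = n) :
    Finsupp.single 0 (n - m 1) + Finsupp.single 1 (m 1) = m := by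
  ext i
  fin_cases i
  · simp; omega
  · simp

private theorem dtop {k Ω : Type} [Field k] [Field Ω] [Algebra k Ω] (n : ℕ)
    (F : MvPolynomial (Fin 2) k) (θ : Ω) :
    Polynomial.aeval θ (Polynomial.derivative (ftop n F)) =
      ∑ m ∈ F.support, if m 0 + m 1 = n then
        algebraMap k Ω (F.coeff m) * (((m 1 : ℕ) : Ω) * θ ^ (m 1 - 1)) else 0 := by
  classical
  have hL : Polynomial.aeval θ (Polynomial.derivative (ftop n F)) =
      ∑ j ∈ range (n + 1), algebraMap k Ω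
        (F.coeff (Finsupp.single 0 (n - j) + Finsupp.single 1 j)) * ((j : Ω) * θ ^ (j - 1)) := by
    unfold ftop
    rw [Polynomial.derivative_sum, map_sum]
    refine Finset.sum_congr rfl fun j _ => ?_
    rw [Polynomial.derivative_monomial, Polynomial.aeval_monomial, map_mul, map_natCast, mul_assoc]
  rw [hL, ← Finset.sum_filter]
  let g : (Fin 2 →₀ ℕ) → Ω := fun m => algebraMap k Ω (F.coeff m) * (((m 1 : ℕ) : Ω) * θ ^ (m 1 - 1))
  let sj : ℕ → (Fin 2 →₀ ℕ) := fun j => Finsupp.single 0 (n - j) + Finsupp.single 1 j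
  have h1 : ∑ j ∈ range (n + 1), algebraMap k Ω
        (F.coeff (Finsupp.single 0 (n - j) + Finsupp.single 1 j)) * ((j : Ω) * θ ^ (j - 1)) =
      ∑ m ∈ (range (n + 1)).image sj, g m := by
    rw [Finset.sum_image]
    · refine Finset.sum_congr rfl fun j _ => ?_
      simp only [g, sj, sj_one]
    · intro a _ b _ hab
      have := DFunLike.congr_fun hab 1
      simp only [sj, sj_one] at this
      exact this
  rw [h1]
  symm
  apply Finset.sum_subset
  · intro m hm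
    rw [Finset.mem_filter] at hm
    rw [Finset.mem_image]
    exact ⟨m 1, by rw [Finset.mem_range]; omega, eq_sj hm.2⟩
  · intro m hm hm2
    rw [Finset.mem_image] at hm
    obtain ⟨j, hj, rfl⟩ := hm
    rw [Finset.mem_range] at hj
    have hs : sj j 0 + sj j 1 = n := by
      simp only [sj, sj_one, sj_zero]; omega
    have : F.coeff (sj j) = 0 := by
      by_contra hne
      exact hm2 (Finset.mem_filter.mpr ⟨MvPolynomial.mem_support_iff.mpr hne, hs⟩)
    simp only [this, map_zero, zero_mul]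

private theorem hdm {k : Type} [Field k] {n : ℕ} {F : MvPolynomial (Fin 2) k}
    (hF : F.totalDegree ≤ n) {m : Fin 2 →₀ ℕ} (hm : m ∈ F.support) : m 0 + m 1 ≤ n := by
  have h := MvPolynomial.le_totalDegree hm
  rw [Finsupp.sum_fintype _ _ (fun _ => rfl), Fin.sum_univ_two] at h
  exact h.trans hF

private theorem gz {k Ω : Type} [Field k] [Field Ω] [Algebra k Ω] {n : ℕ}
    {F : MvPolynomial (Fin 2) k} (hF : F.totalDegree ≤ n) {x y : Ω} (hx : x ≠ 0)
    (h0 : aeval ![x, y] F = 0) :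
    ∑ m ∈ F.support, algebraMap k Ω (F.coeff m) * x⁻¹ ^ (n - m 0 - m 1) * (y / x) ^ (m 1) = 0 := by
  have h : (x⁻¹) ^ n * aeval ![x, y] F = 0 := by rw [h0, mul_zero]
  rw [aeval_def, eval₂_eq', Finset.mul_sum] at h
  rw [← h]
  refine Finset.sum_congr rfl fun m hm => ?_
  have hd : m 0 + m 1 ≤ n := hdm hF hm
  rw [Fin.prod_univ_two]
  simp only [Matrix.cons_val_zero, Matrix.cons_val_one]
  obtain ⟨e, he⟩ : ∃ e, n = m 0 + m 1 + e := ⟨n - (m 0 + m 1), by omega⟩
  have : n - m 0 - m 1 = e := by omega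
  rw [this, he, div_pow, inv_pow, inv_pow, pow_add, pow_add]
  field_simp

private theorem gz0 {k kk Ω : Type} [Field k] [Field kk] [Field Ω] [Algebra k kk] [Algebra k Ω]
    {n : ℕ} {F : MvPolynomial (Fin 2) k} (ι : kk →ₐ[k] Ω) {V : ValuationSubring Ω}
    (hι : ∀ c, ι c ∈ V) {t : Ω} (ht : t ∈ V) {φ : PowerSeries kk} (hφ : Fser n F φ = 0) (N : ℕ) :
    ∃ Q ∈ V, ∑ m ∈ F.support, algebraMap k Ω (F.coeff m) * t ^ (n - m 0 - m 1) *
      (∑ a ∈ range N, ι (PowerSeries.coeff a φ) * t ^ a) ^ (m 1) = t ^ N * Q := by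
  classical
  let p : Polynomial kk := PowerSeries.trunc N φ
  let P : Polynomial kk := ∑ m ∈ F.support, Polynomial.C (algebraMap k kk (F.coeff m)) *
    Polynomial.X ^ (n - m 0 - m 1) * p ^ (m 1)
  have hdp : (PowerSeries.X : PowerSeries kk) ^ N ∣ (p : PowerSeries kk) - φ := by
    rw [PowerSeries.X_pow_dvd_iff]
    intro d hd
    rw [map_sub, Polynomial.coeff_coe, PowerSeries.coeff_trunc, if_pos hd, sub_self]
  have hcoe : (P : PowerSeries kk) = ∑ m ∈ F.support, PowerSeries.C (algebraMap k kk (F.coeff m)) *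
      PowerSeries.X ^ (n - m 0 - m 1) * (p : PowerSeries kk) ^ (m 1) := by
    have := map_sum (Polynomial.coeToPowerSeries.ringHom (R := kk))
      (fun m => Polynomial.C (algebraMap k kk (F.coeff m)) *
        Polynomial.X ^ (n - m 0 - m 1) * p ^ (m 1)) F.support
    simp only [Polynomial.coeToPowerSeries.ringHom_apply] at this
    rw [show (P : PowerSeries kk) = ((∑ m ∈ F.support, Polynomial.C (algebraMap k kk (F.coeff m)) *
      Polynomial.X ^ (n - m 0 - m 1) * p ^ (m 1) : Polynomial kk) : PowerSeries kk) from rfl, this]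
    refine Finset.sum_congr rfl fun m _ => ?_
    rw [Polynomial.coe_mul, Polynomial.coe_mul, Polynomial.coe_pow, Polynomial.coe_pow,
      Polynomial.coe_C, Polynomial.coe_X]
  have hdP : (PowerSeries.X : PowerSeries kk) ^ N ∣ (P : PowerSeries kk) := by
    have h1 : (P : PowerSeries kk) = (P : PowerSeries kk) - Fser n F φ := by rw [hφ, sub_zero]
    rw [h1, hcoe]
    unfold Fser
    rw [← Finset.sum_sub_distrib]
    refine Finset.dvd_sum fun m _ => ?_
    rw [← mul_sub]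
    exact Dvd.dvd.mul_left (hdp.trans (sub_dvd_pow_sub_pow _ _ _)) _
  have hdP2 : (Polynomial.X : Polynomial kk) ^ N ∣ P := by
    rw [Polynomial.X_pow_dvd_iff]
    intro d hd
    rw [PowerSeries.X_pow_dvd_iff] at hdP
    have := hdP d hd
    rwa [Polynomial.coeff_coe] at this
  obtain ⟨Q', hQ'⟩ := hdP2
  refine ⟨Polynomial.eval₂ (ι : kk →+* Ω) t Q', ?_, ?_⟩
  · rw [Polynomial.eval₂_eq_sum_range]
    exact sum_mem fun i _ => mul_mem (hι _) (pow_mem ht i)
  · have h1 : Polynomial.eval₂ (ι : kk →+* Ω) t P = t ^ N * Polynomial.eval₂ (ι : kk →+* Ω) t Q' := by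
      rw [hQ', Polynomial.eval₂_mul, Polynomial.eval₂_pow, Polynomial.eval₂_X]
    rw [← h1, Polynomial.eval₂_finset_sum]
    refine Finset.sum_congr rfl fun m _ => ?_
    rw [Polynomial.eval₂_mul, Polynomial.eval₂_mul, Polynomial.eval₂_pow, Polynomial.eval₂_pow,
      Polynomial.eval₂_X, Polynomial.eval₂_C, PowerSeries.eval₂_trunc_eq_sum_range]
    congr 2
    exact (ι.commutes _).symm

private theorem uu {k kk Ω : Type} [Field k] [Field kk] [Field Ω] [Algebra k kk] [Algebra k Ω]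
    {n : ℕ} {F : MvPolynomial (Fin 2) k} (hF : F.totalDegree ≤ n) (ι : kk →ₐ[k] Ω)
    {V : ValuationSubring Ω} (hι : ∀ c, ι c ∈ V) {t z z₀ : Ω} (ht : t ∈ V.nonunits) {θ : kk}
    (h1 : Polynomial.aeval θ (Polynomial.derivative (ftop n F)) ≠ 0)
    (hz : z - ι θ ∈ V.nonunits) (hz₀ : z₀ - ι θ ∈ V.nonunits) :
    ∃ b ∈ V, (∑ m ∈ F.support, algebraMap k Ω (F.coeff m) * t ^ (n - m 0 - m 1) *
      ∑ l ∈ range (m 1), z ^ l * z₀ ^ (m 1 - 1 - l)) * b = 1 := by
  classical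
  have htV : t ∈ V := V.nonunits_subset ht
  have hzV : z ∈ V := by
    have := V.add_mem _ _ (V.nonunits_subset hz) (hι θ); simpa using this
  have hz₀V : z₀ ∈ V := by
    have := V.add_mem _ _ (V.nonunits_subset hz₀) (hι θ); simpa using this
  have hc : ∀ c : k, algebraMap k Ω c ∈ V := fun c => by
    rw [← ι.commutes c]; exact hι _
  let cV : (Fin 2 →₀ ℕ) → V := fun m => ⟨algebraMap k Ω (F.coeff m), hc _⟩
  let tV : V := ⟨t, htV⟩
  let zV : V := ⟨z, hzV⟩
  let z₀V : V := ⟨z₀, hz₀V⟩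
  let θV : V := ⟨ι θ, hι θ⟩
  let UV : V := ∑ m ∈ F.support, cV m * tV ^ (n - m 0 - m 1) *
      ∑ l ∈ range (m 1), zV ^ l * z₀V ^ (m 1 - 1 - l)
  have hUV : V.subtype UV = ∑ m ∈ F.support, algebraMap k Ω (F.coeff m) * t ^ (n - m 0 - m 1) *
      ∑ l ∈ range (m 1), z ^ l * z₀ ^ (m 1 - 1 - l) := by
    simp only [UV, map_sum, map_mul, map_pow]
    rfl
  let dV : V := ⟨ι (Polynomial.aeval θ (Polynomial.derivative (ftop n F))), hι _⟩
  have hdV : dV = ∑ m ∈ F.support, if m 0 + m 1 = n then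
        cV m * (((m 1 : ℕ) : V) * θV ^ (m 1 - 1)) else 0 := by
    apply V.subtype_injective
    rw [map_sum]
    have h2 : V.subtype dV = Polynomial.aeval (ι θ) (Polynomial.derivative (ftop n F)) := by
      show ι _ = _
      rw [Polynomial.aeval_algHom_apply]
    rw [h2, dtop]
    refine Finset.sum_congr rfl fun m _ => ?_
    split_ifs
    · rw [map_mul, map_mul, map_pow, map_natCast]; rfl
    · rw [map_zero]
  have hdu : IsUnit dV := by
    refine IsUnit.of_mul_eq_one ⟨ι (Polynomial.aeval θ (Polynomial.derivative (ftop n F)))⁻¹, hι _⟩ ?_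
    apply Subtype.ext
    show ι _ * ι _ = 1
    rw [← map_mul, mul_inv_cancel₀ h1, map_one]
  have rt : IsLocalRing.residue V tV = 0 := by
    rw [IsLocalRing.residue_eq_zero_iff, ← V.coe_mem_nonunits_iff]; exact ht
  have rz : IsLocalRing.residue V zV = IsLocalRing.residue V θV := by
    rw [← sub_eq_zero, ← map_sub, IsLocalRing.residue_eq_zero_iff, ← V.coe_mem_nonunits_iff]
    exact hz
  have rz₀ : IsLocalRing.residue V z₀V = IsLocalRing.residue V θV := by
    rw [← sub_eq_zero, ← map_sub, IsLocalRing.residue_eq_zero_iff, ← V.coe_mem_nonunits_iff]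
    exact hz₀
  have hres : IsLocalRing.residue V UV = IsLocalRing.residue V dV := by
    rw [hdV]
    simp only [UV, map_sum, map_mul, map_pow, rt, rz, rz₀]
    refine Finset.sum_congr rfl fun m hm => ?_
    have hd : m 0 + m 1 ≤ n := hdm hF hm
    split_ifs with h
    · have h3 : n - m 0 - m 1 = 0 := by omega
      rw [h3, pow_zero, mul_one, map_mul, map_mul, map_pow, map_natCast]
      congr 1
      rw [Finset.sum_congr rfl (g := fun _ => (IsLocalRing.residue V θV) ^ (m 1 - 1))]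
      · rw [Finset.sum_const, Finset.card_range, nsmul_eq_mul]
      · intro l hl
        rw [Finset.mem_range] at hl
        rw [← pow_add]
        congr 1
        omega
    · have h3 : n - m 0 - m 1 ≠ 0 := by omega
      rw [zero_pow h3, mul_zero, zero_mul, map_zero]
  have hUu : IsUnit UV := by
    rw [← IsLocalRing.residue_ne_zero_iff_isUnit, hres, IsLocalRing.residue_ne_zero_iff_isUnit]
    exact hdu
  obtain ⟨b, hb⟩ := hUu.exists_right_inv
  refine ⟨(b : Ω), b.2, ?_⟩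
  rw [← hUV]
  have := congrArg V.subtype hb
  rw [map_mul, map_one] at this
  exact this

private theorem z0n {kk Ω : Type} [Field kk] [Field Ω] (ι : kk →+* Ω) {V : ValuationSubring Ω}
    (hι : ∀ c, ι c ∈ V) {t : Ω} (ht : t ∈ V.nonunits) (φ : PowerSeries kk) {N : ℕ} (hN : 0 < N) :
    (∑ a ∈ range N, ι (PowerSeries.coeff a φ) * t ^ a) - ι (PowerSeries.constantCoeff φ) ∈
      V.nonunits := by
  obtain ⟨M, rfl⟩ : ∃ M, N = M + 1 := ⟨N - 1, by omega⟩
  rw [Finset.sum_range_succ', pow_zero, mul_one, PowerSeries.coeff_zero_eq_constantCoeff_apply,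
    add_sub_cancel_right]
  have h : ∀ s ∈ V, s * t ∈ V.nonunits := by
    intro s hs
    rw [V.mem_nonunits_iff, map_mul]
    exact lt_of_le_of_lt (mul_le_of_le_one_left' ((V.valuation_le_one_iff s).mpr hs))
      (V.mem_nonunits_iff.mp ht)
  have h2 : ∑ a ∈ range M, ι (PowerSeries.coeff (a + 1) φ) * t ^ (a + 1) =
      (∑ a ∈ range M, ι (PowerSeries.coeff (a + 1) φ) * t ^ a) * t := by
    rw [Finset.sum_mul]
    exact Finset.sum_congr rfl fun a _ => by rw [pow_succ]; ring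
  rw [h2]
  exact h _ (sum_mem fun a _ => mul_mem (hι _) (pow_mem (V.nonunits_subset ht) a))

theorem apx_root {k kk Ω : Type} [Field k] [Field kk] [Field Ω] [Algebra k kk] [Algebra k Ω] {n : ℕ}
    {F : MvPolynomial (Fin 2) k} (hF : F.totalDegree ≤ n) (ι : kk →ₐ[k] Ω) {V : ValuationSubring Ω}
    (hι : ∀ c, ι c ∈ V) {x y : Ω} (hx : x ∉ V) (h0 : aeval ![x, y] F = 0) {φ : PowerSeries kk}
    (hφ : Fser n F φ = 0)
    (h1 : Polynomial.aeval (PowerSeries.constantCoeff φ) (Polynomial.derivative (ftop n F)) ≠ 0)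
    (h2 : y / x - ι (PowerSeries.constantCoeff φ) ∈ V.nonunits) :
    Apx (ι : kk →+* Ω) V x⁻¹ (y / x) φ := by
  intro N
  have hx0 : x ≠ 0 := by rintro rfl; exact hx V.zero_mem
  have htV : x⁻¹ ∈ V := (V.mem_or_inv_mem x).resolve_left hx
  have htn : x⁻¹ ∈ V.nonunits := by
    rw [V.mem_nonunits_iff, map_inv₀]
    have h3 : 1 < V.valuation x := by
      rw [← not_le, V.valuation_le_one_iff]; exact hx
    exact inv_lt_one_of_one_lt₀ h3
  have hzV : y / x ∈ V := by
    have := V.add_mem _ _ (V.nonunits_subset h2) (hι (PowerSeries.constantCoeff φ))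
    simpa using this
  rcases Nat.eq_zero_or_pos N with rfl | hN
  · exact ⟨y / x, hzV, by simp⟩
  obtain ⟨Q, hQV, hQ⟩ := gz0 ι hι htV hφ N
  have hG := gz hF hx0 h0
  have hz₀n := z0n (ι : kk →+* Ω) hι htn φ hN
  obtain ⟨b, hbV, hb⟩ := uu hF ι hι htn h1 h2 hz₀n
  have hD : (∑ m ∈ F.support, algebraMap k Ω (F.coeff m) * x⁻¹ ^ (n - m 0 - m 1) *
      ∑ l ∈ range (m 1), (y / x) ^ l *
        (∑ a ∈ range N, (ι : kk →+* Ω) (PowerSeries.coeff a φ) * x⁻¹ ^ a) ^ (m 1 - 1 - l)) *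
      (y / x - ∑ a ∈ range N, (ι : kk →+* Ω) (PowerSeries.coeff a φ) * x⁻¹ ^ a) =
      -(x⁻¹ ^ N * Q) := by
    rw [Finset.sum_mul]
    have h4 : ∀ m : Fin 2 →₀ ℕ, algebraMap k Ω (F.coeff m) * x⁻¹ ^ (n - m 0 - m 1) *
      (∑ l ∈ range (m 1), (y / x) ^ l *
        (∑ a ∈ range N, (ι : kk →+* Ω) (PowerSeries.coeff a φ) * x⁻¹ ^ a) ^ (m 1 - 1 - l)) *
      (y / x - ∑ a ∈ range N, (ι : kk →+* Ω) (PowerSeries.coeff a φ) * x⁻¹ ^ a) =
      algebraMap k Ω (F.coeff m) * x⁻¹ ^ (n - m 0 - m 1) * (y / x) ^ (m 1) -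
      algebraMap k Ω (F.coeff m) * x⁻¹ ^ (n - m 0 - m 1) *
        (∑ a ∈ range N, (ι : kk →+* Ω) (PowerSeries.coeff a φ) * x⁻¹ ^ a) ^ (m 1) := by
      intro m
      rw [mul_assoc, Commute.geom_sum₂_mul (Commute.all _ _), mul_sub]
    rw [Finset.sum_congr rfl fun m _ => h4 m, Finset.sum_sub_distrib, hG, zero_sub]
    exact congrArg Neg.neg hQ
  refine ⟨-(Q * b), neg_mem (mul_mem hQV hbV), ?_⟩
  have h5 : y / x - ∑ a ∈ range N, (ι : kk →+* Ω) (PowerSeries.coeff a φ) * x⁻¹ ^ a =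
      -(x⁻¹ ^ N * Q) * b := by
    rw [← hD]
    have h6 := hb
    calc y / x - ∑ a ∈ range N, (ι : kk →+* Ω) (PowerSeries.coeff a φ) * x⁻¹ ^ a
        = 1 * (y / x - ∑ a ∈ range N, (ι : kk →+* Ω) (PowerSeries.coeff a φ) * x⁻¹ ^ a) := by
          rw [one_mul]
      _ = _ := by
          rw [← h6]
          simp only [RingHom.coe_coe]
          ring
  rw [sub_eq_iff_eq_add'] at h5
  rw [h5]
  ring

end Pool.Agent.H12.ON
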