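import Pool.Agent.H12.ON.Def

/-! # [H12 ON BEZ] Smoothness in algebraic form (Nullstellensatz)

If `1` is not in the ideal `(F, F_x, F_y)` of `k[x,y]`, a maximal ideal `M` contains it, `k[x,y]/M` is a finite extension of `k` (Zariski's lemma,
Mathlib: `finite_of_finite_type_of_isJacobsonRing` / `MvPolynomial` Nullstellensatz) and embeds in the algebraically closed `Ω` over `k`: a common
zero of `F, F_x, F_y` in `Ω`, against `smooth`. (`Ω` is algebraic closed; `IsAlgClosed.lift`.) -/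

namespace Pool.Agent.H12.ON

open MvPolynomial

theorem bez_one {k Ω : Type} [Field k] [Field Ω] [IsAlgClosed Ω] [Algebra k Ω] {F : MvPolynomial (Fin 2) k}
    (h : ∀ a b : Ω, aeval ![a, b] F = 0 →
      aeval ![a, b] (pderiv 0 F) ≠ 0 ∨ aeval ![a, b] (pderiv 1 F) ≠ 0) :
    ∃ A B D : MvPolynomial (Fin 2) k, A * F + B * pderiv 0 F + D * pderiv 1 F = 1 := by
  by_contra hcon
  have h1 : (1 : MvPolynomial (Fin 2) k) ∉ Ideal.span {F, pderiv 0 F, pderiv 1 F} := by
    intro h2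
    rw [Ideal.mem_span_insert] at h2
    obtain ⟨A, z, hz, h3⟩ := h2
    rw [Ideal.mem_span_pair] at hz
    obtain ⟨B, D, h4⟩ := hz
    refine hcon ⟨A, B, D, ?_⟩
    rw [h3, ← h4]
    ring
  obtain ⟨M, hM, hle⟩ := Ideal.exists_le_maximal _ ((Ideal.ne_top_iff_one _).2 h1)
  let _ : Field (MvPolynomial (Fin 2) k ⧸ M) := Ideal.Quotient.field M
  have hfin : Module.Finite k (MvPolynomial (Fin 2) k ⧸ M) :=
    finite_of_finite_type_of_isJacobsonRing k _
  have halg : Algebra.IsAlgebraic k (MvPolynomial (Fin 2) k ⧸ M) := inferInstance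
  let φ : (MvPolynomial (Fin 2) k ⧸ M) →ₐ[k] Ω := IsAlgClosed.lift
  obtain ⟨a, ha⟩ : ∃ a, a = φ (Ideal.Quotient.mk M (X 0)) := ⟨_, rfl⟩
  obtain ⟨b, hb⟩ : ∃ b, b = φ (Ideal.Quotient.mk M (X 1)) := ⟨_, rfl⟩
  have h5 : (aeval ![a, b] : MvPolynomial (Fin 2) k →ₐ[k] Ω) = φ.comp (Ideal.Quotient.mkₐ k M) := by
    ext i
    rw [aeval_X]
    fin_cases i
    · exact ha
    · exact hb
  have h7 : ∀ G ∈ M, aeval ![a, b] G = 0 := by
    intro G hG
    rw [h5]
    change φ (Ideal.Quotient.mk M G) = 0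
    rw [Ideal.Quotient.eq_zero_iff_mem.2 hG, map_zero]
  have hF : F ∈ M := hle (Ideal.subset_span (by simp))
  have h0 : pderiv 0 F ∈ M := hle (Ideal.subset_span (by simp))
  have h1 : pderiv 1 F ∈ M := hle (Ideal.subset_span (by simp))
  rcases h a b (h7 F hF) with h8 | h8
  · exact h8 (h7 _ h0)
  · exact h8 (h7 _ h1)

end Pool.Agent.H12.ON
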