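import Pool.Agent.H12.ON.Cpb
import Pool.Agent.H52.AC.TWO

/-! # [H12 ON CMP] Two exceptional points at the same real number field have comparable size (`n ≥ 4`)

`E` from `cpb`. `K = Subfield.closure {θ₁} = Subfield.closure {θ₂}`, `k := ↥K`, a number field of degree `n` (`θ₁` is a zero of the irreducible `ftop n F₁` of degree `n`, `deh`), `t₁ = ⟨θ₁, _⟩`, `t₂ = ⟨θ₂, _⟩` in `k`: `aeval t_j (ftop n F_j) = 0` (the inclusion is injective),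
`IntermediateField.adjoin ℚ {t_j} = ⊤` (the closure of `θ_j` is `K`), `τ` = the inclusion `k →+* ℝ`, `τ t_j = θ_j`. `cpb` twice: `max(|x_j|,|y_j|) ≤ |x_j|²` and `ExcA k τ n (cA n) x_j (c_j y_j)`. If `|x₁|^(wA n) ≤ |x₂|` then `two_point` (H52/AC/TWO.lean; `3 ≤ n = finrank`, `kap i = ofReal ∘ τ = kap j`,
`HasSum.tsum_eq`; see the proof of `repelS` in H8/AS/Two.lean) gives `False`. So `|x₂| < |x₁|^(wA n)`, and `max₂ ≤ |x₂|² ≤ |x₁|^(2 wA n) ≤ max₁^(2 wA n)`. `C = 2 wA n`. -/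

namespace Pool.Agent.H12.ON

open MvPolynomial

open Pool.Agent.H52.AC Pool.Agent.H8.AW Pool.Agent.H87.SA2 in
private theorem cmp_rep {k : Type} [Field k] [NumberField k] (hk : 3 ≤ Module.finrank ℚ k)
    {τ : k →+* ℝ} {n : ℕ} {x1 y1 x2 y2 : ℤ} (h1 : ExcA k τ n (cA n) x1 y1)
    (h2 : ExcA k τ n (cA n) x2 y2) : |(x2 : ℝ)| ≤ |(x1 : ℝ)| ^ wA n := by
  obtain ⟨d1, b1, F1, C1, i, T1, hz1, hT1, hs1, hk1, hb1⟩ := h1
  obtain ⟨d2, b2, F2, C2, j, T2, hz2, hT2, hs2, hk2, hb2⟩ := h2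
  by_contra hcon
  push Not at hcon
  exact two_point hk C1 C2 (hk1.trans hk2.symm) hz1 hz2 hT1 hT2 hs1.tsum_eq hs2.tsum_eq
    hb1 hb2 hcon.le

private theorem cmp_ftop {n : ℕ} (hn : 2 ≤ n) {F : MvPolynomial (Fin 2) ℤ}
    (h : Irreducible (map (Int.castRingHom ℚ) (homogeneousComponent n F))) :
    ((ftop n F).map (Int.castRingHom ℚ)).natDegree = n ∧
      Irreducible ((ftop n F).map (Int.castRingHom ℚ)) := by
  have h1 : homogeneousComponent n (map (Int.castRingHom ℚ) (homogeneousComponent n F)) =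
      map (Int.castRingHom ℚ) (homogeneousComponent n F) := by
    have h2 : (map (Int.castRingHom ℚ) (homogeneousComponent n F)).IsHomogeneous n :=
      (homogeneousComponent_isHomogeneous n F).map _
    rw [homogeneousComponent_of_mem h2, if_pos rfl]
  have h3 : ftop n (map (Int.castRingHom ℚ) (homogeneousComponent n F)) =
      (ftop n F).map (Int.castRingHom ℚ) := by
    rw [← deh_hom n F]
    unfold ftop
    simp only [Polynomial.map_sum, Polynomial.map_monomial, coeff_map]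
  have h4 := deh (k := ℚ) hn (F := map (Int.castRingHom ℚ) (homogeneousComponent n F)) (by rw [h1]; exact h)
  rw [h3] at h4
  exact h4

private theorem cmp_aeval {F : MvPolynomial (Fin 2) ℤ} {n : ℕ} {θ : ℝ}
    (h : Polynomial.aeval θ (ftop n F) = 0) :
    Polynomial.aeval θ ((ftop n F).map (Int.castRingHom ℚ)) = 0 := by
  have h1 : (Int.castRingHom ℚ) = algebraMap ℤ ℚ := rfl
  rw [h1, Polynomial.aeval_map_algebraMap]
  exact h

private theorem cmp_int {F : MvPolynomial (Fin 2) ℤ} {n : ℕ} (hn : 2 ≤ n) {θ : ℝ}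
    (hi : Irreducible (map (Int.castRingHom ℚ) (homogeneousComponent n F)))
    (h : Polynomial.aeval θ (ftop n F) = 0) :
    IsIntegral ℚ θ ∧ (minpoly ℚ θ).natDegree = n := by
  obtain ⟨h1, h2⟩ := cmp_ftop hn hi
  have h3 := cmp_aeval h
  constructor
  · exact isAlgebraic_iff_isIntegral.1 ⟨_, h2.ne_zero, h3⟩
  · rw [← minpoly.eq_of_irreducible h2 h3, Polynomial.natDegree_mul_C, h1]
    exact inv_ne_zero (Polynomial.leadingCoeff_ne_zero.2 h2.ne_zero)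

private theorem cmp_mem {θ : ℝ} (K : IntermediateField ℚ ℝ) {η : ℝ} (hη : η ∈ K)
    (h : θ ∈ Subfield.closure {η}) : θ ∈ K := by
  have h1 : Subfield.closure {η} ≤ K.toSubfield := by
    rw [Subfield.closure_le]
    rintro x rfl
    exact hη
  exact h1 h

private theorem cmp_top {k : Type} [Field k] [CharZero k] (τ : k →+* ℝ) (t : k)
    (h : ∀ K : IntermediateField ℚ ℝ, τ t ∈ K → ∀ x, τ x ∈ K) :
    IntermediateField.adjoin ℚ {t} = ⊤ := by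
  rw [eq_top_iff]
  intro x _
  have h1 := h ((IntermediateField.adjoin ℚ {t}).map (τ.toRatAlgHom))
    ⟨t, IntermediateField.mem_adjoin_simple_self ℚ t, rfl⟩ x
  obtain ⟨y, hy1, hy2⟩ := h1
  have h2 : y = x := τ.injective hy2
  rw [← h2]
  exact hy1

private theorem cmp_fld (K : IntermediateField ℚ ℝ) (hf : FiniteDimensional ℚ K)
    (h3 : 3 ≤ Module.finrank ℚ K) :
    ∃ (k : Type) (_ : Field k) (_ : NumberField k) (τ : k →+* ℝ), 3 ≤ Module.finrank ℚ k ∧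
      ∀ x, x ∈ K ↔ ∃ y, τ y = x := by
  refine ⟨K, inferInstance, ?_, algebraMap K ℝ, ?_, ?_⟩
  · exact ⟨⟩
  · convert h3
  · intro x
    constructor
    · intro hx
      exact ⟨⟨x, hx⟩, rfl⟩
    · rintro ⟨y, rfl⟩
      exact y.2

private theorem cmp_field {θ₁ θ₂ : ℝ} {n : ℕ} (hn : 3 ≤ n) (g1 : IsIntegral ℚ θ₁)
    (g2 : (minpoly ℚ θ₁).natDegree = n) (hK : Subfield.closure {θ₁} = Subfield.closure {θ₂}) :
    ∃ (k : Type) (_ : Field k) (_ : NumberField k) (τ : k →+* ℝ) (t₁ t₂ : k),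
      3 ≤ Module.finrank ℚ k ∧ τ t₁ = θ₁ ∧ τ t₂ = θ₂ ∧ IntermediateField.adjoin ℚ {t₁} = ⊤ ∧
        IntermediateField.adjoin ℚ {t₂} = ⊤ := by
  have m1 : θ₁ ∈ IntermediateField.adjoin ℚ {θ₁} := IntermediateField.mem_adjoin_simple_self ℚ θ₁
  have m2 : θ₂ ∈ IntermediateField.adjoin ℚ {θ₁} := cmp_mem _ m1 (hK ▸ Subfield.subset_closure rfl)
  obtain ⟨k, _, _, τ, hk, hτ⟩ := cmp_fld (IntermediateField.adjoin ℚ {θ₁})
    (IntermediateField.adjoin.finiteDimensional g1) (by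
      rw [IntermediateField.adjoin.finrank g1, g2]
      exact hn)
  obtain ⟨t₁, ht₁⟩ := (hτ _).1 m1
  obtain ⟨t₂, ht₂⟩ := (hτ _).1 m2
  have key : ∀ K : IntermediateField ℚ ℝ, θ₁ ∈ K → ∀ x, τ x ∈ K := by
    intro K h1 x
    have h2 : IntermediateField.adjoin ℚ {θ₁} ≤ K := IntermediateField.adjoin_simple_le_iff.2 h1
    exact h2 ((hτ _).2 ⟨x, rfl⟩)
  refine ⟨k, _, ‹_›, τ, t₁, t₂, hk, ht₁, ht₂, ?_, ?_⟩
  · refine cmp_top τ t₁ fun K h1 => key K ?_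
    rw [← ht₁]
    exact h1
  · refine cmp_top τ t₂ fun K h1 => key K ?_
    rw [ht₂] at h1
    exact cmp_mem K h1 (hK.symm ▸ Subfield.subset_closure rfl)

private theorem cmp_ev {k : Type} [Field k] {τ : k →+* ℝ} {t : k} {P : Polynomial ℤ}
    (h : Polynomial.aeval (τ t) P = 0) : Polynomial.aeval t P = 0 := by
  have h1 : τ (Polynomial.aeval t P) = Polynomial.aeval (τ t) P := by
    rw [Polynomial.aeval_def, Polynomial.aeval_def, Polynomial.hom_eval₂]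
    congr 1
    exact RingHom.ext_int _ _
  rw [h] at h1
  exact (map_eq_zero τ).1 h1

theorem cmp (n : ℕ) (hn : 4 ≤ n) : ∃ E C : ℕ, ∀ (F₁ F₂ : MvPolynomial (Fin 2) ℤ) (H₁ H₂ : ℕ) (θ₁ θ₂ : ℝ)
    (x₁ y₁ x₂ y₂ : ℤ), F₁.totalDegree ≤ n → F₂.totalDegree ≤ n →
    Irreducible (map (Int.castRingHom ℚ) (homogeneousComponent n F₁)) →
    Irreducible (map (Int.castRingHom ℚ) (homogeneousComponent n F₂)) → 2 ≤ H₁ → 2 ≤ H₂ →
    (∀ m, |F₁.coeff m| ≤ (H₁ : ℤ)) → (∀ m, |F₂.coeff m| ≤ (H₂ : ℤ)) →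
    Polynomial.aeval θ₁ (ftop n F₁) = 0 → Polynomial.aeval θ₂ (ftop n F₂) = 0 →
    Subfield.closure {θ₁} = Subfield.closure {θ₂} → Near θ₁ x₁ y₁ → Near θ₂ x₂ y₂ →
    aeval ![x₁, y₁] F₁ = (0 : ℤ) → aeval ![x₂, y₂] F₂ = (0 : ℤ) → (H₁ : ℤ) ^ E < max |x₁| |y₁| →
    (H₂ : ℤ) ^ E < max |x₂| |y₂| → max |x₂| |y₂| ≤ (max |x₁| |y₁|) ^ C := by
  obtain ⟨E, hE⟩ := cpb n hn
  refine ⟨E, 2 * Pool.Agent.H52.AC.wA n, ?_⟩
  intro F₁ F₂ H₁ H₂ θ₁ θ₂ x₁ y₁ x₂ y₂ d1 d2 i1 i2 hH1 hH2 c1 c2 r1 r2 hK n1 n2 z1 z2 b1 b2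
  obtain ⟨g1, g2⟩ := cmp_int (by omega) i1 r1
  obtain ⟨k, _, _, τ, t₁, t₂, hk, rfl, rfl, a1, a2⟩ := cmp_field (by omega) g1 g2 hK
  obtain ⟨q1, ex1⟩ := hE k F₁ H₁ t₁ τ x₁ y₁ d1 i1 hH1 c1 (cmp_ev r1) a1 n1 z1 b1
  obtain ⟨q2, ex2⟩ := hE k F₂ H₂ t₂ τ x₂ y₂ d2 i2 hH2 c2 (cmp_ev r2) a2 n2 z2 b2
  have h3 := cmp_rep hk ex1 ex2
  have h4 : |x₂| ≤ |x₁| ^ Pool.Agent.H52.AC.wA n := by
    have h5 : ((|x₂| : ℤ) : ℝ) ≤ ((|x₁| ^ Pool.Agent.H52.AC.wA n : ℤ) : ℝ) := by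
      push_cast
      exact h3
    exact_mod_cast h5
  calc max |x₂| |y₂| ≤ |x₂| ^ 2 := q2
    _ ≤ (|x₁| ^ Pool.Agent.H52.AC.wA n) ^ 2 := pow_le_pow_left₀ (abs_nonneg _) h4 2
    _ = |x₁| ^ (2 * Pool.Agent.H52.AC.wA n) := by rw [← pow_mul, mul_comm]
    _ ≤ (max |x₁| |y₁|) ^ (2 * Pool.Agent.H52.AC.wA n) :=
        pow_le_pow_left₀ (abs_nonneg _) (le_max_left _ _) _

end Pool.Agent.H12.ON
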