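import Pool.Agent.H12.ON.Def

/-! # [H12 ON DEH] Dehomogenisation of an irreducible form

`f = homogeneousComponent n F`, irreducible, `n ≥ 2`. `f = ∑_j c_j x^(n-j) y^j`, `ftop n F = ∑_j c_j T^j` (`deh_hom`). (a) `c_n ≠ 0`: otherwise `x ∣ f`, `f = x g`
with `g` a form of degree `n - 1 ≥ 1`, not a unit. So `natDegree = n`. (b) If `ftop n F = g h` with `deg g = a ≥ 1`, `deg h = b ≥ 1`, `a + b = n`, then
`f = (∑ g_i x^(a-i) y^i)(∑ h_j x^(b-j) y^j)`, both factors are nonconstant: contradiction. (Degrees over a field: a factor of degree `0` is a unit.) -/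

namespace Pool.Agent.H12.ON

open MvPolynomial

private theorem sdeg (n j : ℕ) (hj : j ≤ n) :
    (Finsupp.single (0 : Fin 2) (n - j) + Finsupp.single 1 j : Fin 2 →₀ ℕ).degree = n := by
  rw [map_add, Finsupp.degree_single, Finsupp.degree_single]
  omega

theorem deh_hom {k : Type} [CommRing k] (n : ℕ) (F : MvPolynomial (Fin 2) k) :
    ftop n (homogeneousComponent n F) = ftop n F := by
  unfold ftop
  refine Finset.sum_congr rfl fun j hj => ?_
  rw [coeff_homogeneousComponent, if_pos (sdeg n j (by simpa [Nat.lt_succ_iff] using hj))]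

/-- homogenisation -/
private noncomputable def hm {k : Type} [Field k] (a : ℕ) (g : Polynomial k) : MvPolynomial (Fin 2) k :=
  ∑ j ∈ Finset.range (a + 1), monomial (Finsupp.single 0 (a - j) + Finsupp.single 1 j) (g.coeff j)

private theorem hm_hom {k : Type} [Field k] (a : ℕ) (g : Polynomial k) : (hm a g).IsHomogeneous a := by
  refine IsHomogeneous.sum _ _ _ fun j hj => isHomogeneous_monomial _ ?_
  exact sdeg a j (by simpa [Nat.lt_succ_iff] using hj)

/-- dehomogenisation -/
private noncomputable def dh (k : Type) [Field k] : MvPolynomial (Fin 2) k →ₐ[k] Polynomial k :=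
  aeval ![1, Polynomial.X]

private theorem dh_hm {k : Type} [Field k] (a : ℕ) (g : Polynomial k) (hg : g.natDegree ≤ a) :
    dh k (hm a g) = g := by
  unfold hm dh
  rw [map_sum]
  conv_rhs => rw [Polynomial.as_sum_range_C_mul_X_pow' g (Nat.lt_succ_of_le hg)]
  refine Finset.sum_congr rfl fun j _ => ?_
  rw [aeval_monomial, Finsupp.prod_fintype _ _ (by simp), Fin.prod_univ_two]
  simp

private theorem ftop_coeff {k : Type} [Field k] (n : ℕ) (P : MvPolynomial (Fin 2) k) (j : ℕ) (hj : j ≤ n) :
    (ftop n P).coeff j = P.coeff (Finsupp.single 0 (n - j) + Finsupp.single 1 j) := by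
  unfold ftop
  rw [Polynomial.finset_sum_coeff, Finset.sum_eq_single j]
  · simp
  · intro b _ hb
    rw [Polynomial.coeff_monomial, if_neg hb]
  · intro h
    exact absurd (Finset.mem_range.2 (Nat.lt_succ_of_le hj)) h

private theorem ftop_deg {k : Type} [Field k] (n : ℕ) (P : MvPolynomial (Fin 2) k) : (ftop n P).natDegree ≤ n := by
  unfold ftop
  refine Polynomial.natDegree_sum_le_of_forall_le _ _ fun j hj => ?_
  exact (Polynomial.natDegree_monomial_le _).trans (by simpa [Nat.lt_succ_iff] using hj)

private theorem hm_ftop {k : Type} [Field k] {n : ℕ} {P : MvPolynomial (Fin 2) k} (hP : P.IsHomogeneous n) :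
    hm n (ftop n P) = P := by
  ext d
  by_cases hd : d.degree = n
  · have h2 : d 0 + d 1 = n := by
      rw [← hd, Finsupp.degree_eq_sum, Fin.sum_univ_two]
    have h3 : (Finsupp.single 0 (n - d 1) + Finsupp.single 1 (d 1) : Fin 2 →₀ ℕ) = d := by
      ext i
      fin_cases i <;> simp <;> omega
    unfold hm
    rw [coeff_sum, Finset.sum_eq_single (d 1)]
    · rw [h3, coeff_monomial, if_pos rfl, ftop_coeff n P (d 1) (by omega), h3]
    · intro b _ hb
      rw [coeff_monomial, if_neg]
      intro he
      apply hb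
      rw [← he]
      simp
    · intro h
      exact absurd (Finset.mem_range.2 (by omega)) h
  · rw [(hm_hom n (ftop n P)).coeff_eq_zero hd, hP.coeff_eq_zero hd]

/-- a form is the homogenisation of its `ftop` -/
theorem deh_eq {k : Type} [Field k] {n : ℕ} {P : MvPolynomial (Fin 2) k} (hP : P.IsHomogeneous n) :
    P = ∑ j ∈ Finset.range (n + 1),
      monomial (Finsupp.single 0 (n - j) + Finsupp.single 1 j) ((ftop n P).coeff j) :=
  (hm_ftop hP).symm

private theorem dh_ftop {k : Type} [Field k] {n : ℕ} {P : MvPolynomial (Fin 2) k} (hP : P.IsHomogeneous n) :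
    dh k P = ftop n P := by
  conv_lhs => rw [← hm_ftop hP]
  exact dh_hm n _ (ftop_deg n P)

private theorem hm_mul {k : Type} [Field k] (a b : ℕ) (g h : Polynomial k) (hg : g.natDegree ≤ a)
    (hh : h.natDegree ≤ b) : hm a g * hm b h = hm (a + b) (g * h) := by
  have h1 : (hm a g * hm b h).IsHomogeneous (a + b) := (hm_hom a g).mul (hm_hom b h)
  rw [← hm_ftop h1, ← dh_ftop h1, map_mul, dh_hm a g hg, dh_hm b h hh]

private theorem not_unit_of_hom {k : Type} [Field k] {a : ℕ} (ha : 1 ≤ a) {P : MvPolynomial (Fin 2) k}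
    (hP : P.IsHomogeneous a) : ¬ IsUnit P := by
  intro hu
  have h1 : IsUnit (constantCoeff P) := hu.map (constantCoeff : MvPolynomial (Fin 2) k →+* k)
  have h2 : constantCoeff P = 0 := by
    rw [constantCoeff_eq]
    apply hP.coeff_eq_zero
    simp
    omega
  rw [h2] at h1
  exact not_isUnit_zero h1

theorem deh {k : Type} [Field k] {n : ℕ} (hn : 2 ≤ n) {F : MvPolynomial (Fin 2) k}
    (h : Irreducible (homogeneousComponent n F)) : (ftop n F).natDegree = n ∧ Irreducible (ftop n F) := by
  have hf : (homogeneousComponent n F).IsHomogeneous n := homogeneousComponent_isHomogeneous n F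
  have hg : hm n (ftop n F) = homogeneousComponent n F := by
    rw [← deh_hom, hm_ftop hf]
  have hnd : (ftop n F).natDegree = n := by
    by_contra hne
    have hlt : (ftop n F).natDegree ≤ n - 1 := by
      have := ftop_deg n F
      omega
    have h1 : hm 1 (1 : Polynomial k) * hm (n - 1) (ftop n F) = homogeneousComponent n F := by
      rw [hm_mul 1 (n - 1) 1 (ftop n F) (by simp) hlt, one_mul, ← hg]
      congr 1
      omega
    rcases h.isUnit_or_isUnit h1.symm with h2 | h2
    · exact not_unit_of_hom le_rfl (hm_hom 1 _) h2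
    · exact not_unit_of_hom (by omega) (hm_hom (n - 1) _) h2
  refine ⟨hnd, ?_, ?_⟩
  · intro hu
    have := Polynomial.natDegree_eq_zero_of_isUnit hu
    omega
  · intro a b hab
    have hne : ftop n F ≠ 0 := by
      intro h0
      rw [h0] at hnd
      simp at hnd
      omega
    have ha : a ≠ 0 := by
      rintro rfl
      exact hne (by rw [hab, zero_mul])
    have hb : b ≠ 0 := by
      rintro rfl
      exact hne (by rw [hab, mul_zero])
    have hd : a.natDegree + b.natDegree = n := by
      rw [← Polynomial.natDegree_mul ha hb, ← hab, hnd]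
    have h1 : homogeneousComponent n F = hm a.natDegree a * hm b.natDegree b := by
      rw [hm_mul _ _ a b le_rfl le_rfl, hd, ← hab, hg]
    rcases h.isUnit_or_isUnit h1 with h2 | h2
    · left
      have h3 : a.natDegree = 0 := by
        by_contra h4
        exact not_unit_of_hom (Nat.one_le_iff_ne_zero.2 h4) (hm_hom _ _) h2
      rw [Polynomial.eq_C_of_natDegree_eq_zero h3] at ha ⊢
      exact Polynomial.isUnit_C.2 (isUnit_iff_ne_zero.2 (by
        intro h5
        rw [h5] at ha
        simp at ha))
    · right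
      have h3 : b.natDegree = 0 := by
        by_contra h4
        exact not_unit_of_hom (Nat.one_le_iff_ne_zero.2 h4) (hm_hom _ _) h2
      rw [Polynomial.eq_C_of_natDegree_eq_zero h3] at hb ⊢
      exact Polynomial.isUnit_C.2 (isUnit_iff_ne_zero.2 (by
        intro h5
        rw [h5] at hb
        simp at hb))

end Pool.Agent.H12.ON
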