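import Pool.Agent.H12.ON.Nd

/-! # [H12 ON GTR] From `ℂ` to the algebraic numbers

`j : Qb →+* ℂ` (an embedding of the algebraic closure of `ℚ`; `IsAlgClosed.lift` or `IsAlgClosed.splits`). Irreducible over `ℂ` gives irreducible over `Qb`
(`map j` is injective, reflects units: constants). Smooth, no homothety: apply `j` to the points / to the polynomial identity. -/

namespace Pool.Agent.H12.ON

open MvPolynomial Pool.Agent.H82.NS

private theorem unit_of_map {A B : Type} [Field A] [Field B] (j : A →+* B) {a : MvPolynomial (Fin 2) A}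
    (h : IsUnit (map j a)) : IsUnit a := by
  rw [isUnit_iff_eq_C_of_isReduced] at h ⊢
  obtain ⟨r, hr, hm⟩ := h
  have h1 : a = C (coeff 0 a) := by
    apply map_injective j j.injective
    rw [map_C, hm]
    have h2 := congrArg (coeff 0) hm
    rw [coeff_map, coeff_C, if_pos rfl] at h2
    rw [h2]
  refine ⟨coeff 0 a, ?_, h1⟩
  rw [isUnit_iff_ne_zero]
  intro h0
  have h2 := congrArg (coeff 0) hm
  rw [coeff_map, coeff_C, if_pos rfl, h0, map_zero] at h2
  rw [← h2] at hr
  exact not_isUnit_zero hr

private theorem ae_gen {A B : Type} [CommRing A] [CommRing B] [Algebra ℤ A] [Algebra ℤ B] (j : A →+* B)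
    (g : Fin 2 → A) (p : MvPolynomial (Fin 2) ℤ) : j (aeval g p) = aeval (fun i => j (g i)) p := by
  rw [map_aeval, aeval_def]
  have h1 : j.comp (algebraMap ℤ A) = algebraMap ℤ B := RingHom.ext_int _ _
  rw [h1]
  rfl

private theorem ae_map {A B : Type} [CommRing A] [CommRing B] [Algebra ℤ A] [Algebra ℤ B] (j : A →+* B) (a b : A)
    (p : MvPolynomial (Fin 2) ℤ) : j (aeval ![a, b] p) = aeval ![j a, j b] p := by
  rw [ae_gen]
  congr 2
  funext i
  fin_cases i <;> rfl

theorem gtr {n : ℕ} {F : MvPolynomial (Fin 2) ℤ} (h : Good n F) :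
    Irreducible (map (Int.castRingHom Qb) F) ∧
    (∀ a b : Qb, aeval ![a, b] F = 0 → aeval ![a, b] (pderiv 0 F) ≠ 0 ∨ aeval ![a, b] (pderiv 1 F) ≠ 0) ∧
    ∀ (w : Fin 2 → Qb) (z : Qb), z ≠ 0 →
      aeval (fun i => C (w i) + C z * X i : Fin 2 → MvPolynomial (Fin 2) Qb) F =
        C (z ^ n) * aeval (fun i => C (w i) + X i : Fin 2 → MvPolynomial (Fin 2) Qb) F → z = 1 := by
  have halg : Algebra.IsAlgebraic ℚ Qb := AlgebraicClosure.isAlgebraic ℚ
  obtain ⟨j0⟩ : Nonempty (Qb →ₐ[ℚ] ℂ) := ⟨IsAlgClosed.lift⟩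
  obtain ⟨j⟩ : Nonempty (Qb →+* ℂ) := ⟨(j0 : Qb →+* ℂ)⟩
  have hj : map j (map (Int.castRingHom Qb) F) = map (Int.castRingHom ℂ) F := by
    rw [map_map]
    have h1 : j.comp (Int.castRingHom Qb) = Int.castRingHom ℂ := RingHom.ext_int _ _
    rw [h1]
  refine ⟨?_, ?_, ?_⟩
  · have hirr := h.irr
    rw [← hj] at hirr
    constructor
    · intro hu
      exact hirr.not_isUnit (hu.map (map j))
    · intro a b hab
      have h1 : map j (map (Int.castRingHom Qb) F) = map j a * map j b := by rw [hab, map_mul]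
      rcases hirr.isUnit_or_isUnit h1 with h2 | h2
      · exact Or.inl (unit_of_map j h2)
      · exact Or.inr (unit_of_map j h2)
  · intro a b hab
    have h1 := h.smooth (j a) (j b) (by rw [← ae_map, hab, map_zero])
    rcases h1 with h1 | h1
    · left
      intro h2
      apply h1
      rw [← ae_map, h2, map_zero]
    · right
      intro h2
      apply h1
      rw [← ae_map, h2, map_zero]
  · intro w z hz heq
    have key : ∀ g : Fin 2 → MvPolynomial (Fin 2) Qb,
        map j (aeval g F) = aeval (fun i => map j (g i)) F := by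
      intro g
      exact ae_gen (map j) g F
    have h1 := congrArg (map j) heq
    rw [map_mul, key, key, map_C, map_pow] at h1
    have h2 : (fun i => map j (C (w i) + C z * X i : MvPolynomial (Fin 2) Qb)) =
        (fun i => C (j (w i)) + C (j z) * X i : Fin 2 → MvPolynomial (Fin 2) ℂ) := by
      funext i
      rw [map_add, map_mul, map_C, map_C, map_X]
    have h3 : (fun i => map j (C (w i) + X i : MvPolynomial (Fin 2) Qb)) =
        (fun i => C (j (w i)) + X i : Fin 2 → MvPolynomial (Fin 2) ℂ) := by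
      funext i
      rw [map_add, map_C, map_X]
    rw [h2, h3] at h1
    have h4 := h.nohom (fun i => j (w i)) (j z) ((map_ne_zero j).2 hz) h1
    exact j.injective (by rw [h4, map_one])

end Pool.Agent.H12.ON
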