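import Pool.Agent.H12.ON.Tir
import Pool.Agent.H12.ON.Deh
import Pool.Agent.H12.ON.Gtr

/-! # [H12 ON TRF] The class of a sequence of good curves is a good curve over `Q0 H`

`Fh` the class of the `F N`; over `QS`: `Th ℚ (map Fh) = cl (fun N => map (F N))` (`th_of`), over `QbS = Ult Qb`: `Th Qb (map Fh) = cl (fun N => map (F N))`
(`th_map`, `algebraMap QS QbS = germMap _`).
`exists_isu`: the polynomial with the coefficients `cl (coeff m (F N))` for the finitely many `m` with `m 0 + m 1 ≤ n` (they are in `Q0 H`: `Small`, exponent `1`,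
`|coeff| ≤ H N ≤ H N + 2`).
`Tp`: the form `homogeneousComponent n (map Fh)` over `QS` is irreducible by `tir` (`Th` of it is `cl` of the leading forms: coefficients, `th_of`), so
`homogeneousComponent n Fh` is irreducible over `Q0 H` (`map` to `QS` is injective and reflects units), `deh`.
`absi`: `tir` for `R = Qb`. `smooth`: `a = cl a'`, `b = cl b'` (`cl_surj`), `th_eval`, `th_pd`: if all three vanish then for almost all `N` the point
`(a' N, b' N)` is singular on `F N`. `nohom`: `w i = cl (w' i)`, `z = cl z'`; `th_sub` on both sides and `th_inj`: for almost all `N` the identity holds for `F N`,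
`z' N ≠ 0`, so `z' N = 1`. (`aeval` over `Q0 H` or `ℤ` of the polynomial and `aeval` over `QbS` of `map` agree: `aeval_map_algebraMap`.) -/

namespace Pool.Agent.H12.ON

open MvPolynomial Pool.Agent.H82.NS Filter

private theorem map_hc {A B : Type} [CommRing A] [CommRing B] (j : A →+* B) (n : ℕ) (P : MvPolynomial (Fin 2) A) :
    homogeneousComponent n (map j P) = map j (homogeneousComponent n P) := by
  ext m
  rw [coeff_homogeneousComponent, coeff_map, coeff_map, coeff_homogeneousComponent]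
  split_ifs
  · rfl
  · rw [map_zero]

private theorem map_ftop {A B : Type} [CommRing A] [CommRing B] (j : A →+* B) (n : ℕ) (P : MvPolynomial (Fin 2) A) :
    ftop n (map j P) = (ftop n P).map j := by
  unfold ftop
  rw [Polynomial.map_sum]
  refine Finset.sum_congr rfl fun i _ => ?_
  rw [Polynomial.map_monomial, coeff_map]

private theorem unit_of_map {A B : Type} [Field A] [Field B] (j : A →+* B) {a : MvPolynomial (Fin 2) A}
    (h : IsUnit (map j a)) : IsUnit a := by
  rw [isUnit_iff_eq_C_of_isReduced] at h ⊢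
  obtain ⟨r, hr, hm⟩ := h
  have h1 : a = C (coeff 0 a) := by
    apply map_injective j j.injective
    rw [map_C, hm]
    have h2 := congrArg (coeff 0) hm
    rw [coeff_map, coeff_C, if_pos rfl] at h2
    rw [h2]
  refine ⟨coeff 0 a, ?_, h1⟩
  rw [isUnit_iff_ne_zero]
  intro h0
  have h2 := congrArg (coeff 0) hm
  rw [coeff_map, coeff_C, if_pos rfl, h0, map_zero] at h2
  rw [← h2] at hr
  exact not_isUnit_zero hr

private theorem irr_of_map {A B : Type} [Field A] [Field B] (j : A →+* B) {a : MvPolynomial (Fin 2) A}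
    (h : Irreducible (map j a)) : Irreducible a := by
  constructor
  · intro hu
    exact h.not_isUnit (hu.map (MvPolynomial.map j))
  · intro b c hbc
    have h1 : map j a = map j b * map j c := by rw [hbc, map_mul]
    rcases h.isUnit_or_isUnit h1 with h2 | h2
    · exact Or.inl (unit_of_map j h2)
    · exact Or.inr (unit_of_map j h2)

private theorem isu_small {H : ℕ → ℕ} {F : ℕ → MvPolynomial (Fin 2) ℤ}
    (hH : ∀ N m, |(F N).coeff m| ≤ (H N : ℤ)) (m : Fin 2 →₀ ℕ) :
    (cl (fun N => (((F N).coeff m : ℤ) : ℚ)) : QS) ∈ Q0 H := by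
  refine ⟨_, ⟨1, fun N => ?_⟩, rfl⟩
  rw [Rat.num_intCast, Rat.den_intCast, pow_one]
  have h1 := hH N m
  constructor
  · have h2 : (((F N).coeff m).natAbs : ℤ) ≤ (H N : ℤ) := by
      rw [Int.natCast_natAbs]
      exact h1
    have h3 : ((F N).coeff m).natAbs ≤ H N := by exact_mod_cast h2
    omega
  · omega

theorem exists_isu (H : ℕ → ℕ) {n : ℕ} {F : ℕ → MvPolynomial (Fin 2) ℤ} (hF : ∀ N, (F N).totalDegree ≤ n)
    (hH : ∀ N m, |(F N).coeff m| ≤ (H N : ℤ)) : ∃ Fh : MvPolynomial (Fin 2) (Q0 H), IsU H n F Fh := by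
  classical
  let s : Finset (Fin 2 →₀ ℕ) := ((Finset.range (n + 1) ×ˢ Finset.range (n + 1)).filter
    (fun u : ℕ × ℕ => u.1 + u.2 ≤ n)).image (fun u : ℕ × ℕ => Finsupp.single 0 u.1 + Finsupp.single 1 u.2)
  have hs : ∀ m : Fin 2 →₀ ℕ, m ∈ s ↔ m 0 + m 1 ≤ n := by
    intro m
    constructor
    · intro hm
      obtain ⟨u, hu, rfl⟩ := Finset.mem_image.1 hm
      have h1 := (Finset.mem_filter.1 hu).2
      simpa using h1
    · intro hm
      refine Finset.mem_image.2 ⟨(m 0, m 1), Finset.mem_filter.2 ⟨Finset.mem_product.2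
        ⟨Finset.mem_range.2 (by show m 0 < n + 1; omega), Finset.mem_range.2 (by show m 1 < n + 1; omega)⟩, hm⟩, ?_⟩
      ext i
      fin_cases i <;> simp
  let c : (Fin 2 →₀ ℕ) → Q0 H := fun m => ⟨cl (fun N => (((F N).coeff m : ℤ) : ℚ)), isu_small hH m⟩
  have hc : ∀ m, coeff m (∑ m' ∈ s, monomial m' (c m')) = if m ∈ s then c m else 0 := by
    intro m
    rw [coeff_sum]
    simp only [coeff_monomial, Finset.sum_ite_eq']
  refine ⟨∑ m ∈ s, monomial m (c m), ?_, ?_⟩
  · rw [totalDegree]
    refine Finset.sup_le fun m hm => ?_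
    rw [mem_support_iff, hc] at hm
    have h1 : m ∈ s := by
      by_contra h
      rw [if_neg h] at hm
      exact hm rfl
    rw [Finsupp.sum_fintype _ _ (fun _ => rfl), Fin.sum_univ_two]
    exact (hs m).1 h1
  · intro m
    rw [hc]
    by_cases hm : m ∈ s
    · rw [if_pos hm]
    · rw [if_neg hm]
      have h1 : (fun N => (((F N).coeff m : ℤ) : ℚ)) = fun _ => (0 : ℚ) := by
        funext N
        have h2 : (F N).coeff m = 0 := by
          apply coeff_eq_zero_of_totalDegree_lt
          refine lt_of_le_of_lt (hF N) ?_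
          have h3 : ¬ (m 0 + m 1 ≤ n) := fun h => hm ((hs m).2 h)
          have h4 : ∑ i ∈ m.support, m i = m 0 + m 1 := by
            have h5 := Finsupp.sum_fintype m (fun _ e => e) (fun _ => rfl)
            rw [Fin.sum_univ_two] at h5
            exact h5
          rw [h4]
          omega
        rw [h2, Int.cast_zero]
      rw [h1]
      rfl

private theorem th_q {H : ℕ → ℕ} {n : ℕ} {F : ℕ → MvPolynomial (Fin 2) ℤ} (hF : ∀ N, Good n (F N))
    {Fh : MvPolynomial (Fin 2) (Q0 H)} (hU : IsU H n F Fh) :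
    Th ℚ (map (algebraMap (Q0 H) QS) Fh) = cl (fun N => map (Int.castRingHom ℚ) (F N)) := by
  refine th_of (n := n) (fun N => le_trans ?_ (hF N).deg) fun m => ?_
  · unfold totalDegree
    exact Finset.sup_mono (support_map_subset _ _)
  rw [coeff_map]
  refine (hU.2 m).trans ?_
  congr 1

private theorem th_lead {H : ℕ → ℕ} {n : ℕ} {F : ℕ → MvPolynomial (Fin 2) ℤ} (hF : ∀ N, Good n (F N))
    {Fh : MvPolynomial (Fin 2) (Q0 H)} (hU : IsU H n F Fh) :
    Th ℚ (homogeneousComponent n (map (algebraMap (Q0 H) QS) Fh)) =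
      cl (fun N => map (Int.castRingHom ℚ) (homogeneousComponent n (F N))) := by
  have h0 := th_q hF hU
  refine th_of (n := n) (fun N => ?_) fun m => ?_
  · rw [← map_hc]
    exact (homogeneousComponent_isHomogeneous n _).totalDegree_le
  · rw [coeff_homogeneousComponent]
    split_ifs with hm
    · rw [th_coeff h0 m]
      congr 1
      funext N
      rw [coeff_map, coeff_map, coeff_homogeneousComponent, if_pos hm]
    · rw [cl_zero]
      congr 1
      funext N
      rw [coeff_map, coeff_homogeneousComponent, if_neg hm, map_zero]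

private theorem irr_lead {H : ℕ → ℕ} {n : ℕ} {F : ℕ → MvPolynomial (Fin 2) ℤ} (hF : ∀ N, Good n (F N))
    {Fh : MvPolynomial (Fin 2) (Q0 H)} (hU : IsU H n F Fh) :
    Irreducible (homogeneousComponent n (map (algebraMap (Q0 H) QS) Fh)) :=
  tir (th_lead hF hU) fun N => (hF N).lead

private theorem th_qb {H : ℕ → ℕ} {n : ℕ} {F : ℕ → MvPolynomial (Fin 2) ℤ} (hF : ∀ N, Good n (F N))
    {Fh : MvPolynomial (Fin 2) (Q0 H)} (hU : IsU H n F Fh) :
    Th Qb (map (algebraMap (Q0 H) QbS) Fh) = cl (fun N => map (Int.castRingHom Qb) (F N)) := by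
  have h1 := th_map (algebraMap ℚ Qb) (th_q hF hU)
  rw [MvPolynomial.map_map] at h1
  have h2 : (germMap (algebraMap ℚ Qb)).comp (algebraMap (Q0 H) QS) = algebraMap (Q0 H) QbS := rfl
  rw [h2] at h1
  rw [h1]
  congr 1
  funext N
  rw [MvPolynomial.map_map]
  congr 1


private theorem ae_qb {A : Type} [CommRing A] [Algebra Qb A] (g : Fin 2 → A) (p : MvPolynomial (Fin 2) ℤ) :
    aeval g (map (Int.castRingHom Qb) p) = aeval g p := by
  have h : Int.castRingHom Qb = algebraMap ℤ Qb := RingHom.ext_int _ _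
  rw [h]
  exact aeval_map_algebraMap Qb g p

theorem trf {H : ℕ → ℕ} {n : ℕ} (hn : 3 ≤ n) {F : ℕ → MvPolynomial (Fin 2) ℤ} (hF : ∀ N, Good n (F N))
    {Fh : MvPolynomial (Fin 2) (Q0 H)} (hU : IsU H n F Fh) : Cv (Q0 H) QbS n Fh := by
  have hlead : Irreducible (homogeneousComponent n Fh) := by
    have h1 := irr_lead hF hU
    rw [map_hc] at h1
    exact irr_of_map _ h1
  obtain ⟨d1, d2⟩ := deh (by omega) hlead
  have hb := th_qb hF hU
  refine ⟨⟨hn, hU.1, d1, d2⟩, tir hb fun N => (gtr (hF N)).1, ?_, ?_⟩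
  · intro a b hab
    obtain ⟨a', rfl⟩ := cl_surj a
    obtain ⟨b', rfl⟩ := cl_surj b
    by_contra hcon
    push Not at hcon
    obtain ⟨h0, h1⟩ := hcon
    have e : ∀ P : MvPolynomial (Fin 2) (Q0 H), aeval ![cl a', cl b'] P =
        aeval ![cl a', cl b'] (map (algebraMap (Q0 H) QbS) P) := fun P =>
      (aeval_map_algebraMap QbS (![cl a', cl b'] : Fin 2 → QbS) P).symm
    rw [e, th_eval hb, cl_zero, cl_eq] at hab
    rw [e, ← pderiv_map, th_eval (th_pd hb 0), cl_zero, cl_eq] at h0
    rw [e, ← pderiv_map, th_eval (th_pd hb 1), cl_zero, cl_eq] at h1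
    obtain ⟨N, ⟨g1, g2⟩, g3⟩ := ((hab.and h0).and h1).exists
    rw [ae_qb] at g1
    rw [pderiv_map, ae_qb] at g2 g3
    rcases (gtr (hF N)).2.1 _ _ g1 with g | g
    · exact g g2
    · exact g g3
  · intro w z hz heq
    choose w' hw' using fun i => cl_surj (w i)
    obtain ⟨z', rfl⟩ := cl_surj z
    have e : ∀ g : Fin 2 → MvPolynomial (Fin 2) QbS, aeval g Fh =
        aeval g (map (algebraMap (Q0 H) QbS) Fh) := fun g =>
      (aeval_map_algebraMap QbS g Fh).symm
    have hC : ∀ c : ℕ → Qb, Th Qb (C (cl c)) = cl (fun N => C (c N)) := by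
      intro c
      have h3 : Th Qb (C (cl c)) = germMap (C : Qb →+* MvPolynomial (Fin 2) Qb) (cl c) := eval₂Hom_C _ _ _
      rw [h3, germMap_cl]
    have hX : ∀ i : Fin 2, Th Qb (X i) = cl (fun _ => X i) := fun i => eval₂Hom_X' _ _ _
    have hL : ∀ i, Th Qb (C (w i) + C (cl z') * X i) = cl (fun N => C (w' i N) + C (z' N) * X i) := by
      intro i
      rw [map_add, map_mul, hw', hC, hC, hX, cl_mul, cl_add]
    have hR : ∀ i, Th Qb (C (w i) + X i) = cl (fun N => C (w' i N) + X i) := by
      intro i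
      rw [map_add, hw', hC, hX, cl_add]
    have h1 := congrArg (Th Qb) heq
    have hzn : (cl z' : QbS) ^ n = cl (fun N => z' N ^ n) := by
      clear * -
      induction n with
      | zero => simp only [pow_zero]; rfl
      | succ n ih => simp only [pow_succ]; rw [ih, cl_mul]
    rw [map_mul, e, e, th_sub hb hL, th_sub hb hR, hzn, hC, cl_mul, cl_eq] at h1
    have h2 : ∀ᶠ N in UU, z' N ≠ 0 := by
      rw [Ne, cl_zero, cl_eq] at hz
      exact Ultrafilter.eventually_not.2 hz
    rw [cl_one, cl_eq]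
    refine (h1.and h2).mono fun N hN => ?_
    obtain ⟨g1, g2⟩ := hN
    rw [ae_qb, ae_qb] at g1
    exact (gtr (hF N)).2.2 (fun i => w' i N) (z' N) g2 g1

theorem trf_ftop {H : ℕ → ℕ} {n : ℕ} (hn : 3 ≤ n) {F : ℕ → MvPolynomial (Fin 2) ℤ} (hF : ∀ N, Good n (F N))
    {Fh : MvPolynomial (Fin 2) (Q0 H)} (hU : IsU H n F Fh) :
    Irreducible ((ftop n Fh).map (algebraMap (Q0 H) QS)) := by
  rw [← map_ftop]
  exact (deh (by omega) (irr_lead hF hU)).2

end Pool.Agent.H12.ON
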