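import Pool.Agent.H12.ON.Nd
import Pool.Agent.H82.NS.Int

/-! # [H12 ON VRS] The valuation ring `VR H` of the bounded nonstandard real numbers

`rs_cl`: the embedding `QS → RS` on classes. It is strictly monotone (`cl_le`-like lemma `Germ.coe_le`, `Rat.cast_le`) and commutes with `|·|`
(`Germ.abs_def`). `vr_base`: `|c| = algebraMap |c|`, `|c| ∈ Q0 H`. `vr_qs`: immediate from monotonicity. `vr_non`: `z ∈ nonunits ↔ z = 0 ∨ z⁻¹ ∉ VR`, that
is `|z|⁻¹ > r` for all `r ∈ Q0 H`; replace `r` by `r⁻¹` (`Q0 H` is a field, positive elements). -/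

namespace Pool.Agent.H12.ON

open Pool.Agent.H82.NS Filter

theorem rs_cl (f : ℕ → ℚ) : algebraMap QS RS (cl f) = cl (fun N => (f N : ℝ)) := rfl

theorem rs_le (a b : QS) : algebraMap QS RS a ≤ algebraMap QS RS b ↔ a ≤ b := by
  obtain ⟨f, rfl⟩ := cl_surj a
  obtain ⟨g, rfl⟩ := cl_surj b
  rw [rs_cl, rs_cl, cl_le]
  have h : (cl (fun N => (f N : ℝ)) ≤ cl (fun N => (g N : ℝ))) ↔ ∀ᶠ N in UU, (f N : ℝ) ≤ (g N : ℝ) := Germ.coe_le
  rw [h]
  simp only [Rat.cast_le]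

private theorem rs_lt (a b : QS) : algebraMap QS RS a < algebraMap QS RS b ↔ a < b := by
  rw [← not_le, ← not_le, rs_le]

theorem rs_abs (a : QS) : |algebraMap QS RS a| = algebraMap QS RS |a| := by
  rcases le_total 0 a with h | h
  · have h1 : 0 ≤ algebraMap QS RS a := by
      rw [← map_zero (algebraMap QS RS), rs_le]
      exact h
    rw [abs_of_nonneg h, abs_of_nonneg h1]
  · have h1 : algebraMap QS RS a ≤ 0 := by
      rw [← map_zero (algebraMap QS RS), rs_le]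
      exact h
    rw [abs_of_nonpos h, abs_of_nonpos h1, map_neg]

private theorem q0_map (H : ℕ → ℕ) (r : Q0 H) : algebraMap (Q0 H) RS r = algebraMap QS RS (r : QS) := rfl

private theorem mem_vr (H : ℕ → ℕ) (z : RS) : z ∈ VR H ↔ ∃ r : Q0 H, |z| ≤ algebraMap (Q0 H) RS r := Iff.rfl

private theorem mem_v0 (H : ℕ → ℕ) (z : QS) : z ∈ V0 H ↔ ∃ r ∈ Q0 H, |z| ≤ r := Iff.rfl

theorem vr_base (H : ℕ → ℕ) : Ov (Q0 H) (VR H) := by
  intro e
  rw [mem_vr]
  rcases abs_choice (algebraMap (Q0 H) RS e) with h | h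
  · exact ⟨e, h.le⟩
  · refine ⟨-e, ?_⟩
    rw [h, map_neg]

theorem vr_qs (H : ℕ → ℕ) (z : QS) : algebraMap QS RS z ∈ VR H ↔ z ∈ V0 H := by
  rw [mem_vr, mem_v0]
  constructor
  · rintro ⟨r, hr⟩
    rw [rs_abs, q0_map, rs_le] at hr
    exact ⟨r, r.2, hr⟩
  · rintro ⟨r, hr, hz⟩
    refine ⟨⟨r, hr⟩, ?_⟩
    rw [rs_abs, q0_map, rs_le]
    exact hz

private theorem q0_pos (H : ℕ → ℕ) (r : Q0 H) : 0 < algebraMap (Q0 H) RS r ↔ 0 < (r : QS) := by
  rw [q0_map, ← map_zero (algebraMap QS RS), rs_lt]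

theorem vr_non (H : ℕ → ℕ) (z : RS) :
    z ∈ (VR H).nonunits ↔ ∀ r : Q0 H, 0 < (r : QS) → |z| < algebraMap (Q0 H) RS r := by
  rw [ValuationSubring.mem_nonunits_iff_or]
  constructor
  · rintro (h | h) r hr
    · rw [h, abs_zero]
      exact (q0_pos H r).2 hr
    · by_contra hc
      push Not at hc
      apply h
      rw [mem_vr]
      refine ⟨r⁻¹, ?_⟩
      rw [abs_inv, map_inv₀]
      exact inv_anti₀ ((q0_pos H r).2 hr) hc
  · intro h
    by_cases hz : z = 0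
    · exact Or.inl hz
    · refine Or.inr ?_
      rw [mem_vr]
      rintro ⟨r, hr⟩
      have h1 : 0 < |z⁻¹| := abs_pos.2 (inv_ne_zero hz)
      have h2 : 0 < algebraMap (Q0 H) RS r := h1.trans_le hr
      have h3 : 0 < (r : QS) := (q0_pos H r).1 h2
      have h4 : 0 < ((r⁻¹ : Q0 H) : QS) := by
        have : ((r⁻¹ : Q0 H) : QS) = (r : QS)⁻¹ := rfl
        rw [this]
        exact inv_pos.2 h3
      have h5 := h r⁻¹ h4
      rw [abs_inv] at hr
      rw [map_inv₀] at h5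
      have h6 := inv_anti₀ (inv_pos.2 (abs_pos.2 hz)) hr
      rw [inv_inv] at h6
      exact absurd h5 (not_lt.2 h6)

theorem v0_non (H : ℕ → ℕ) (z : QS) :
    z ∈ (V0 H).nonunits ↔ algebraMap QS RS z ∈ (VR H).nonunits := by
  rw [ValuationSubring.mem_nonunits_iff_or, ValuationSubring.mem_nonunits_iff_or, ← map_inv₀, vr_qs, map_eq_zero]

/-- an infinitesimal with a small denominator is zero -/
theorem evz (H : ℕ → ℕ) {z δ : QS} (hδ : δ ∈ Q0 H) (hδ0 : δ ≠ 0) (hz : δ * z ∈ ZS)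
    (h : algebraMap QS RS z ∈ (VR H).nonunits) : z = 0 := by
  rw [vr_non] at h
  have ha : |δ| ∈ Q0 H := by
    rcases abs_choice δ with h1 | h1
    · rw [h1]
      exact hδ
    · rw [h1]
      exact (Q0 H).neg_mem hδ
  have hp : 0 < |δ| := abs_pos.2 hδ0
  have h2 := h ⟨|δ|⁻¹, (Q0 H).inv_mem ha⟩ (inv_pos.2 hp)
  rw [rs_abs, q0_map, rs_lt] at h2
  have h3 : |δ * z| < 1 := by
    rw [abs_mul]
    calc |δ| * |z| < |δ| * |δ|⁻¹ := mul_lt_mul_of_pos_left h2 hp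
      _ = 1 := mul_inv_cancel₀ hp.ne'
  obtain ⟨a, hza⟩ := mem_zs.1 hz
  rw [abs_lt, hza, cl_one, cl_neg] at h3
  obtain ⟨h4, h5⟩ := h3
  have h6 : ∀ᶠ N in UU, (-1 : ℚ) < (a N : ℚ) := Germ.coe_lt.1 h4
  have h7 : ∀ᶠ N in UU, (a N : ℚ) < 1 := Germ.coe_lt.1 h5
  have h8 : δ * z = 0 := by
    rw [hza, cl_zero, cl_eq]
    filter_upwards [h6, h7] with N h9 h10
    have h11 : -1 < a N := by exact_mod_cast h9
    have h12 : a N < 1 := by exact_mod_cast h10
    have h13 : a N = 0 := by omega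
    rw [h13, Int.cast_zero]
  exact (mul_eq_zero.1 h8).resolve_left hδ0

end Pool.Agent.H12.ON
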