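import Pool.Agent.H12.ON.Tht
import Pool.Agent.H12.ON.Vrs

/-! # [H12 ON ZER] Zeros, real zeros at infinity and nearness in the ultrapower

`zer_pt`: `Th ℚ (map Fh) = cl (map (F N))` (`th_of`) and `th_eval` (`aeval` of `Fh` in `QS` is `aeval` of `map Fh`).
`zer_th`: `ftop n Fh = ∑_{j ≤ n} monomial j (coeff ..)`: a finite sum of classes; `algebraMap (Q0 H) RS` of the coefficient is `cl` of the real numbers (`rs_cl`).
`zer_big`: an element `r = cl f` of `Q0 H` has `|f N| ≤ (H N + 2)^C`, and eventually `(H N + 2)^(C+1) ≤ |x N|`, so `|cl x| ≤ r` is impossible.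
`zer_near`: `|y/x - θ|² ≤ 1/|x|`, and `1/|x| < r²` for every positive `r ∈ Q0 H` (`zer_big`: `|x| > r⁻²`); `vr_non`. -/

namespace Pool.Agent.H12.ON

open MvPolynomial Pool.Agent.H82.NS Filter

private theorem zer_lt {f g : ℕ → ℝ} : (cl f : RS) < cl g ↔ ∀ᶠ N in UU, f N < g N := Germ.coe_lt

private theorem zer_neg (f : ℕ → ℝ) : - (cl f : RS) = cl (fun N => - f N) := rfl

private theorem zer_td (G : MvPolynomial (Fin 2) ℤ) :
    (map (Int.castRingHom ℚ) G).totalDegree ≤ G.totalDegree := by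
  unfold totalDegree
  exact Finset.sup_mono (support_map_subset _ _)

/-- a positive rational number with small denominator is not very small -/
private theorem zer_den {q : ℚ} {B : ℕ} (hq : 0 < q) (h : q.den ≤ B) : (1 : ℝ) / B ≤ q := by
  have h1 : (1 : ℚ) / B ≤ q := by
    have h2 : (q.num : ℚ) / q.den = q := Rat.num_div_den q
    have h3 : (1 : ℚ) ≤ q.num := by
      have := Rat.num_pos.2 hq
      exact_mod_cast this
    have h4 : (0 : ℚ) < q.den := by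
      exact_mod_cast q.den_pos
    have h5 : (q.den : ℚ) ≤ B := by
      exact_mod_cast h
    calc (1 : ℚ) / B ≤ 1 / q.den := one_div_le_one_div_of_le h4 h5
      _ ≤ q.num / q.den := div_le_div_of_nonneg_right h3 h4.le
      _ = q := h2
  have h2 : (((1 : ℚ) / B : ℚ) : ℝ) ≤ (q : ℝ) := by
    exact_mod_cast h1
  simpa using h2

private theorem zer_num {q : ℚ} {B : ℕ} (h : q.num.natAbs ≤ B) : q ≤ B := by
  have h1 : q = q.num / q.den := (Rat.num_div_den q).symm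
  have h2 : (1 : ℚ) ≤ q.den := by exact_mod_cast q.den_pos
  have h3 : (q.num : ℚ) ≤ (q.num.natAbs : ℚ) := by
    rw [Nat.cast_natAbs, Int.cast_abs]
    exact le_abs_self _
  have h4 : (0 : ℚ) ≤ (q.num.natAbs : ℚ) := by positivity
  have h5 : ((q.num.natAbs : ℕ) : ℚ) ≤ B := by exact_mod_cast h
  calc q = q.num / q.den := h1
    _ ≤ (q.num.natAbs : ℚ) / q.den := by
        apply div_le_div_of_nonneg_right h3
        positivity
    _ ≤ (q.num.natAbs : ℚ) / 1 := by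
        apply div_le_div_of_nonneg_left h4 (by norm_num) h2
    _ = (q.num.natAbs : ℚ) := by rw [div_one]
    _ ≤ B := h5

theorem zer_pt {H : ℕ → ℕ} {n : ℕ} {F : ℕ → MvPolynomial (Fin 2) ℤ} (hF : ∀ N, (F N).totalDegree ≤ n)
    {Fh : MvPolynomial (Fin 2) (Q0 H)} (hU : IsU H n F Fh) {x y : ℕ → ℤ}
    (h : ∀ N, aeval ![x N, y N] (F N) = (0 : ℤ)) :
    aeval ![(cl (fun N => (x N : ℚ)) : QS), cl (fun N => (y N : ℚ))] Fh = 0 := by
  obtain ⟨-, hc⟩ := hU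
  have h1 : Th ℚ (map (algebraMap (Q0 H) QS) Fh) = cl (fun N => map (Int.castRingHom ℚ) (F N)) := by
    refine th_of (n := n) (fun N => ?_) fun m => ?_
    · exact (zer_td (F N)).trans (hF N)
    · rw [coeff_map]
      have h2 : algebraMap (Q0 H) QS (Fh.coeff m) = ((Fh.coeff m : Q0 H) : QS) := rfl
      rw [h2, hc m]
      refine congrArg cl (funext fun N => ?_)
      rw [coeff_map]
      rfl
  have h2 := th_eval h1 (fun N => (x N : ℚ)) (fun N => (y N : ℚ))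
  rw [aeval_map_algebraMap] at h2
  rw [h2, cl_zero]
  congr 1
  funext N
  have h3 : (aeval ![(x N : ℚ), (y N : ℚ)] (map (Int.castRingHom ℚ) (F N)) : ℚ) =
      Int.castRingHom ℚ (aeval ![x N, y N] (F N)) := by
    rw [aeval_def, eval₂_map, aeval_def, eval₂_comp_left]
    have h4 : (![(x N : ℚ), (y N : ℚ)] : Fin 2 → ℚ) = (Int.castRingHom ℚ) ∘ ![x N, y N] := by
      funext i
      fin_cases i
      · rfl
      · rfl
    rw [h4]
    have h5 : (algebraMap ℚ ℚ).comp (Int.castRingHom ℚ) =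
        (Int.castRingHom ℚ).comp (algebraMap ℤ ℤ) := RingHom.ext_int _ _
    rw [h5]
  rw [h3, h N, map_zero]

theorem zer_th {H : ℕ → ℕ} {n : ℕ} {F : ℕ → MvPolynomial (Fin 2) ℤ}
    {Fh : MvPolynomial (Fin 2) (Q0 H)} (hU : IsU H n F Fh) {θ : ℕ → ℝ}
    (h : ∀ N, Polynomial.aeval (θ N) (ftop n (F N)) = 0) :
    Polynomial.aeval (cl θ : RS) (ftop n Fh) = 0 := by
  obtain ⟨-, hc⟩ := hU
  have h1 : ∀ j, Polynomial.aeval (cl θ : RS) (Polynomial.monomial j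
      (Fh.coeff (Finsupp.single 0 (n - j) + Finsupp.single 1 j))) =
      clHom ℝ (fun N => ((((F N).coeff (Finsupp.single 0 (n - j) + Finsupp.single 1 j) : ℤ) : ℚ) : ℝ) *
        θ N ^ j) := by
    intro j
    rw [Polynomial.aeval_monomial]
    have h2 : algebraMap (Q0 H) RS (Fh.coeff (Finsupp.single 0 (n - j) + Finsupp.single 1 j)) =
        algebraMap QS RS ((Fh.coeff (Finsupp.single 0 (n - j) + Finsupp.single 1 j) : Q0 H) : QS) := rfl
    rw [h2, hc, rs_cl]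
    have h3 : (cl θ : RS) ^ j = clHom ℝ (fun N => θ N ^ j) := by
      rw [← clHom_apply, ← map_pow]
      rfl
    rw [h3]
    rfl
  unfold ftop
  rw [map_sum, Finset.sum_congr rfl fun j _ => h1 j, ← map_sum, clHom_apply, cl_zero]
  congr 1
  funext N
  rw [Finset.sum_apply]
  have h2 := h N
  unfold ftop at h2
  rw [map_sum] at h2
  simp only [Polynomial.aeval_monomial] at h2
  rw [← h2]
  refine Finset.sum_congr rfl fun j _ => ?_
  simp

theorem zer_big {H : ℕ → ℕ} {x : ℕ → ℤ} (h : ∀ C : ℕ, ∀ᶠ N in UU, ((H N + 2 : ℕ) : ℤ) ^ C ≤ |x N|) :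
    (cl (fun N => (x N : ℚ)) : QS) ∉ V0 H := by
  rintro ⟨r, ⟨f, ⟨C, hC⟩, rfl⟩, hr⟩
  rw [abs_le, cl_neg, cl_le, cl_le] at hr
  have h1 : ∀ᶠ N in UU, False := by
    filter_upwards [hr.1, hr.2, h (C + 1)] with N h1 h2 h3
    have h4 : |(x N : ℚ)| ≤ f N := abs_le.2 ⟨h1, h2⟩
    have h5 : f N ≤ (((H N + 2) ^ C : ℕ) : ℚ) := zer_num (hC N).1
    have h6 : (((((H N + 2 : ℕ) : ℤ) ^ (C + 1) : ℤ)) : ℚ) ≤ ((|x N| : ℤ) : ℚ) := by
      exact_mod_cast h3
    rw [Int.cast_abs] at h6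
    have h7 : (((H N + 2) ^ C : ℕ) : ℚ) < (((((H N + 2 : ℕ) : ℤ) ^ (C + 1) : ℤ)) : ℚ) := by
      have h8 : (H N + 2) ^ C < (H N + 2) ^ (C + 1) := Nat.pow_lt_pow_right (by omega) (by omega)
      exact_mod_cast h8
    linarith
  have h2 : ∃ N : ℕ, False := h1.exists
  exact h2.elim fun _ h => h

theorem zer_near {H : ℕ → ℕ} {x y : ℕ → ℤ} {θ : ℕ → ℝ}
    (h : ∀ C : ℕ, ∀ᶠ N in UU, ((H N + 2 : ℕ) : ℤ) ^ C ≤ |x N|) (hn : ∀ N, Near (θ N) (x N) (y N)) :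
    algebraMap QS RS (cl (fun N => (y N : ℚ)) / cl (fun N => (x N : ℚ))) - cl θ ∈ (VR H).nonunits := by
  rw [vr_non]
  rintro ⟨r, ⟨f, ⟨C, hC⟩, rfl⟩⟩ hr
  have hr' : (cl (fun _ => (0 : ℚ)) : QS) < cl f := hr
  have hf : ∀ᶠ N in UU, (0 : ℚ) < f N := by
    have h1 : (cl (fun _ => (0 : ℚ)) : QS) < cl f ↔ ∀ᶠ N in UU, (0 : ℚ) < f N := Germ.coe_lt
    exact h1.1 hr'
  have e1 : algebraMap QS RS (cl (fun N => (y N : ℚ)) / cl (fun N => (x N : ℚ))) - cl θ =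
      cl (fun N => (((y N : ℚ) / (x N : ℚ) : ℚ) : ℝ) - θ N) := by
    have h1 : (cl (fun N => (y N : ℚ)) / cl (fun N => (x N : ℚ)) : QS) =
        cl (fun N => (y N : ℚ) / (x N : ℚ)) := by
      rw [div_eq_mul_inv, cl_inv, cl_mul]
      rfl
    rw [h1, rs_cl]
    rfl
  have e2 : algebraMap (Q0 H) RS ⟨cl f, f, ⟨C, hC⟩, rfl⟩ = cl (fun N => (f N : ℝ)) := rs_cl f
  have key : ∀ᶠ N in UU, |(((y N : ℚ) / (x N : ℚ) : ℚ) : ℝ) - θ N| < (f N : ℝ) := by
    filter_upwards [hf, h (2 * C + 1)] with N h1 h2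
    have h3 : (1 : ℝ) / (((H N + 2) ^ C : ℕ) : ℝ) ≤ f N := zer_den h1 (hC N).2
    have h4 := hn N
    unfold Near at h4
    have h5 : (((H N + 2 : ℕ) : ℝ)) ^ (2 * C + 1) ≤ |(x N : ℝ)| := by
      have h6 : (((((H N + 2 : ℕ) : ℤ) ^ (2 * C + 1) : ℤ)) : ℝ) ≤ ((|x N| : ℤ) : ℝ) := by
        exact_mod_cast h2
      rw [Int.cast_abs] at h6
      push_cast at h6 ⊢
      exact h6
    have hB : (1 : ℝ) < ((H N + 2 : ℕ) : ℝ) := by
      have : 1 < H N + 2 := by omega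
      exact_mod_cast this
    have h6 : (((H N + 2 : ℕ) : ℝ)) ^ (2 * C) < |(x N : ℝ)| := by
      refine lt_of_lt_of_le ?_ h5
      exact pow_lt_pow_right₀ hB (by omega)
    have h7 : 0 < (((H N + 2 : ℕ) : ℝ)) ^ (2 * C) := by positivity
    have h8 : 0 < |(x N : ℝ)| := h7.trans h6
    have hx0 : (x N : ℝ) ≠ 0 := abs_pos.1 h8
    have h9 : ((((y N : ℚ) / (x N : ℚ) : ℚ) : ℝ) - θ N) ^ 2 ≤ 1 / |(x N : ℝ)| := by
      have h10 : ((((y N : ℚ) / (x N : ℚ) : ℚ) : ℝ) - θ N) ^ 2 =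
          ((y N : ℝ) - θ N * x N) ^ 2 / |(x N : ℝ)| ^ 2 := by
        rw [sq_abs]
        push_cast
        field_simp
      rw [h10]
      calc ((y N : ℝ) - θ N * x N) ^ 2 / |(x N : ℝ)| ^ 2 ≤ |(x N : ℝ)| / |(x N : ℝ)| ^ 2 :=
            div_le_div_of_nonneg_right h4 (by positivity)
        _ = 1 / |(x N : ℝ)| := by
            rw [pow_two, div_mul_eq_div_div, div_self h8.ne']
    have h10 : 1 / |(x N : ℝ)| < 1 / (((H N + 2 : ℕ) : ℝ)) ^ (2 * C) :=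
      one_div_lt_one_div_of_lt h7 h6
    have h11 : 1 / (((H N + 2 : ℕ) : ℝ)) ^ (2 * C) ≤ (f N : ℝ) ^ 2 := by
      have h12 : 1 / (((H N + 2 : ℕ) : ℝ)) ^ (2 * C) =
          ((1 : ℝ) / (((H N + 2) ^ C : ℕ) : ℝ)) ^ 2 := by
        rw [div_pow, one_pow, Nat.cast_pow, ← pow_mul, mul_comm]
      rw [h12]
      exact pow_le_pow_left₀ (by positivity) h3 2
    have h13 : (0 : ℝ) < f N := by
      exact_mod_cast h1
    exact abs_lt_of_sq_lt_sq ((h9.trans_lt h10).trans_le h11) h13.le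
  have e3 : algebraMap (Q0 H) RS ⟨cl f, f, ⟨C, hC⟩, rfl⟩ = cl (fun N => (f N : ℝ)) := e2
  rw [e1, e3, abs_lt, zer_neg, zer_lt, zer_lt]
  constructor
  · filter_upwards [key] with N h1
    exact (abs_lt.1 h1).1
  · filter_upwards [key] with N h1
    exact (abs_lt.1 h1).2

end Pool.Agent.H12.ON
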