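import Pool.Agent.H12.ON.Nd
import Pool.Agent.H85.LK.Typ

/-! # [H12 ON CMP] Two exceptional points at the same real number field have comparable size

`typ` (H85/LK/Typ.lean) for both points (the same `E`): `τ₁ : ↥(closure {θ₁}) →+* ℝ`, `τ₂ : ↥(closure {θ₂}) →+* ℝ`, ranges `closure {θ_j}`, `ExcS` for the points `(u_j, a_j x_j)`, `u_j = y_j + x_j^(n+1)`. The fields are equal: rewrite (generalise `closure {θ₂} = K`, `subst`), so both `τ_j : K →+* ℝ` have the range `K`;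
`exists_aut` (H8/AS or its import; used in `sizeS_repel`, H8/AS/Pt.lean) and `ExcS.twist` (H8/AS/Pt.lean): both points have the same type. `NumberField K`, `finrank = n ≥ 3`: `inr_nf` (H85/LK/Inr.lean). `repelS` (H8/AS/Two.lean): `|u₂| ≤ |u₁|^w`, `w = wA (n(n+1))`.
`max(|x₂|,|y₂|) ≤ |u₂|^(2n+3) ≤ |u₁|^(w(2n+3)) ≤ (max(|x₁|,|y₁|))^((2n+3) w (2n+3))`. -/

namespace Pool.Agent.H12.ON.Three

open MvPolynomial Pool.Agent.H85.LK Pool.Agent.H8.AS Pool.Agent.H8.AW Pool.Agent.H52.AC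

theorem cmp (n : ℕ) (hn : 3 ≤ n) : ∃ E C : ℕ, ∀ (F₁ F₂ : MvPolynomial (Fin 2) ℤ) (H₁ H₂ : ℕ) (θ₁ θ₂ : ℝ)
    (x₁ y₁ x₂ y₂ : ℤ), F₁.totalDegree ≤ n → F₂.totalDegree ≤ n →
    Irreducible (map (Int.castRingHom ℚ) (homogeneousComponent n F₁)) →
    Irreducible (map (Int.castRingHom ℚ) (homogeneousComponent n F₂)) → 2 ≤ H₁ → 2 ≤ H₂ →
    (∀ m, |F₁.coeff m| ≤ (H₁ : ℤ)) → (∀ m, |F₂.coeff m| ≤ (H₂ : ℤ)) →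
    Polynomial.aeval θ₁ (ftop n F₁) = 0 → Polynomial.aeval θ₂ (ftop n F₂) = 0 →
    Subfield.closure {θ₁} = Subfield.closure {θ₂} → Near θ₁ x₁ y₁ → Near θ₂ x₂ y₂ →
    aeval ![x₁, y₁] F₁ = (0 : ℤ) → aeval ![x₂, y₂] F₂ = (0 : ℤ) → (H₁ : ℤ) ^ E < max |x₁| |y₁| →
    (H₂ : ℤ) ^ E < max |x₂| |y₂| → max |x₂| |y₂| ≤ (max |x₁| |y₁|) ^ C := by
  obtain ⟨E, hE⟩ := typ n hn
  refine ⟨E, (2 * n + 3) * wA (n * (n + 1)) * (2 * n + 3), ?_⟩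
  intro F₁ F₂ H₁ H₂ θ₁ θ₂ x₁ y₁ x₂ y₂ hd1 hd2 hl1 hl2 hH1 hH2 hc1 hc2 hθ1 hθ2 hcl hn1 hn2 h01 h02
    hb1 hb2
  have h1 := hE F₁ H₁ θ₁ x₁ y₁ hd1 hl1 hH1 hc1 hθ1 hn1 h01 hb1
  have h2 := hE F₂ H₂ θ₂ x₂ y₂ hd2 hl2 hH2 hc2 hθ2 hn2 h02 hb2
  rw [← hcl] at h2
  obtain ⟨hnf, hfr⟩ := inr_nf hn hl1 hθ1
  obtain ⟨τ1, a1, hr1, he1, hlo1, hup1⟩ := h1
  obtain ⟨τ2, a2, hr2, he2, hlo2, hup2⟩ := h2
  obtain ⟨α, hα⟩ := exists_aut (hr2.trans hr1.symm)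
  have he2' := he2.twist α
  rw [← hα] at he2'
  have h3 := repelS (by omega) he1 he2'
  have h4 : |y₂ + x₂ ^ (n + 1)| ≤ |y₁ + x₁ ^ (n + 1)| ^ wA (n * (n + 1)) := by exact_mod_cast h3
  calc max |x₂| |y₂| ≤ |y₂ + x₂ ^ (n + 1)| ^ (2 * n + 3) := hlo2
    _ ≤ (|y₁ + x₁ ^ (n + 1)| ^ wA (n * (n + 1))) ^ (2 * n + 3) :=
        pow_le_pow_left₀ (abs_nonneg _) h4 _
    _ ≤ (((max |x₁| |y₁|) ^ (2 * n + 3)) ^ wA (n * (n + 1))) ^ (2 * n + 3) :=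
        pow_le_pow_left₀ (pow_nonneg (abs_nonneg _) _) (pow_le_pow_left₀ (abs_nonneg _) hup1 _) _
    _ = (max |x₁| |y₁|) ^ ((2 * n + 3) * wA (n * (n + 1)) * (2 * n + 3)) := by
        rw [← pow_mul, ← pow_mul, mul_assoc]

end Pool.Agent.H12.ON.Three
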