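import Pool.Agent.H12.ON.Def

/-! # [H12 ON CNA] Counting, equal weights

`|box n K| = ∑_{j<n} (K + 1 - j) ≥ n (K + 1) - n (n-1)/2` for `K ≥ n`. The number of `(a,b)` with `a + b ≤ 2K` is `(2K+1)(2K+2)/2 = (2K+1)(K+1)`.
`n (2K+1)(K+1) < (n(K+1) - n(n-1)/2)^2` for large `K` as `n ≥ 3` (`2n < n^2`): for example `K = 4 n^2`. -/

namespace Pool.Agent.H12.ON

open Finset

private theorem cna_sum (M : ℕ) : 2 * ∑ i ∈ range M, (M - i) = M * (M + 1) := by
  induction M with
  | zero => simp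
  | succ M ih =>
    rw [sum_range_succ']
    have h : ∑ i ∈ range M, (M + 1 - (i + 1)) = ∑ i ∈ range M, (M - i) :=
      sum_congr rfl fun i _ => by omega
    rw [h, mul_add, ih]
    simp only [Nat.sub_zero]
    ring

private theorem cna_up (K : ℕ) :
    ((range (2 * K + 1) ×ˢ range (2 * K + 1)).filter (fun w => w.1 + w.2 ≤ 2 * K)).card ≤ (2 * K + 1) * (K + 1) := by
  have h1 : ((range (2 * K + 1) ×ˢ range (2 * K + 1)).filter (fun w => w.1 + w.2 ≤ 2 * K)).card ≤
      ∑ i ∈ range (2 * K + 1), (2 * K + 1 - i) := by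
    rw [card_filter, sum_product]
    refine sum_le_sum fun i hi => ?_
    rw [← card_filter]
    refine (card_le_card (t := range (2 * K + 1 - i)) fun j hj => ?_).trans (by rw [card_range])
    rw [mem_filter] at hj
    rw [mem_range]
    have h2 := hj.2
    simp only at h2
    omega
  have h2 := cna_sum (2 * K + 1)
  have h3 : (2 * K + 1) * (2 * K + 1 + 1) = 2 * ((2 * K + 1) * (K + 1)) := by ring
  omega

private theorem cna_lo (n K m : ℕ) (h : m + n = K + 1) : n * m ≤ (box n K).card := by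
  have h1 : (range m ×ˢ range n).card = n * m := by rw [card_product, card_range, card_range, mul_comm]
  rw [← h1]
  refine card_le_card fun u hu => ?_
  rw [mem_product, mem_range, mem_range] at hu
  unfold box
  rw [mem_filter, mem_product, mem_range, mem_range]
  omega

theorem cna (n : ℕ) (hn : 3 ≤ n) : ∃ K : ℕ,
    n * ((range (2 * K + 1) ×ˢ range (2 * K + 1)).filter (fun w => w.1 + w.2 ≤ 2 * K)).card <
      (box n K).card * (box n K).card := by
  refine ⟨4 * n ^ 2, ?_⟩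
  obtain ⟨m, hm⟩ : ∃ m, m + n = 4 * n ^ 2 + 1 := ⟨4 * n ^ 2 + 1 - n, by
    have : n ≤ 4 * n ^ 2 + 1 := by nlinarith
    omega⟩
  have h1 := cna_up (4 * n ^ 2)
  have h2 := cna_lo n (4 * n ^ 2) m hm
  have h3 : (2 * (4 * n ^ 2) + 1) * (4 * n ^ 2 + 1) < n * (m * m) := by
    obtain ⟨t, rfl⟩ : ∃ t, n = t + 3 := ⟨n - 3, by omega⟩
    obtain rfl : m = 4 * t ^ 2 + 23 * t + 34 := by
      have e : 4 * (t + 3) ^ 2 + 1 = 4 * t ^ 2 + 23 * t + 34 + (t + 3) := by ring
      omega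
    have e : (t + 3) * ((4 * t ^ 2 + 23 * t + 34) * (4 * t ^ 2 + 23 * t + 34)) =
        (2 * (4 * (t + 3) ^ 2) + 1) * (4 * (t + 3) ^ 2 + 1) +
          (16 * t ^ 5 + 200 * t ^ 4 + 969 * t ^ 3 + 2227 * t ^ 2 + 2320 * t + 767) := by ring
    rw [e]
    omega
  calc n * ((range (2 * (4 * n ^ 2) + 1) ×ˢ range (2 * (4 * n ^ 2) + 1)).filter
        (fun w => w.1 + w.2 ≤ 2 * (4 * n ^ 2))).card
      ≤ n * ((2 * (4 * n ^ 2) + 1) * (4 * n ^ 2 + 1)) := Nat.mul_le_mul_left _ h1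
    _ < n * (n * (m * m)) := Nat.mul_lt_mul_of_pos_left h3 (by omega)
    _ = n * m * (n * m) := by ring
    _ ≤ (box n (4 * n ^ 2)).card * (box n (4 * n ^ 2)).card := Nat.mul_le_mul h2 h2

end Pool.Agent.H12.ON
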