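import Pool.Agent.H12.ON.Def

/-! # [H12 ON CNB] Counting, general weights

`ρ > 0` real. `K2` large, `K1 = ⌈ρ K2⌉`, `T = K1 + ρ K2 ≤ 2 ρ K2 + 1`, `N > T (1 + 1/ρ)` and `N > T`, `R = {(a,b) ∈ [0,N)² : a + ρ b ≤ T}`. The triangle has
`|R| ≤ (T + 1 + ρ)²/(2ρ)` lattice points (the unit squares `[a,a+1] × [b,b+1]` lie in the triangle `a + ρ b ≤ T + 1 + ρ`; or sum over `b`:
`∑_{b ≤ T/ρ} (T - ρ b + 1)`). `|box n K| ≥ n (K+1) - n(n-1)/2` for `K ≥ n`. So `n |R| ≤ n (2 ρ K2 + 2 + ρ)²/(2 ρ) = 2 n ρ K2² + O(K2)`, and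
`|box n K1| |box n K2| ≥ n² ρ K2² - O(K2)`; as `n ≥ 3`, `2 n < n²`: the inequality holds for large `K2`. For `(a,b) ∈ [0,N)² \ R`: `(K1 - a) + ρ (K2 - b) = T - a - ρ b < 0`.
`K1 + ρ K2 < N`, `K1 + ρ K2 < ρ N`. -/

namespace Pool.Agent.H12.ON

open Finset

private theorem cnb_lo (n K m : ℕ) (h : m + n = K + 1) : n * m ≤ (box n K).card := by
  have h1 : (range m ×ˢ range n).card = n * m := by rw [card_product, card_range, card_range, mul_comm]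
  rw [← h1]
  refine card_le_card fun u hu => ?_
  rw [mem_product, mem_range, mem_range] at hu
  unfold box
  rw [mem_filter, mem_product, mem_range, mem_range]
  omega

private theorem cnb_sum (c ρ : ℝ) (m : ℕ) :
    ∑ b ∈ range m, (c - ρ * (b : ℝ)) = m * c - ρ * (m * (m - 1) / 2) := by
  induction m with
  | zero => simp
  | succ m ih =>
    rw [sum_range_succ, ih]
    push_cast
    ring

private theorem cnb_card {ρ T : ℝ} (hρ : 0 < ρ) (hT : 0 ≤ T) (N : ℕ) :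
    2 * ρ * (((range N ×ˢ range N).filter
      (fun w : ℕ × ℕ => (w.1 : ℝ) + ρ * (w.2 : ℝ) ≤ T)).card : ℝ) ≤
      T ^ 2 + 2 * T + 2 * ρ * T + 2 * ρ := by
  classical
  set B : ℕ := ⌊T / ρ⌋₊ with hB
  have hBle : ρ * (B : ℝ) ≤ T := by
    have h1 : (B : ℝ) ≤ T / ρ := Nat.floor_le (by positivity)
    rw [le_div_iff₀ hρ] at h1
    linarith
  have hsub : (range N ×ˢ range N).filter
      (fun w : ℕ × ℕ => (w.1 : ℝ) + ρ * (w.2 : ℝ) ≤ T) ⊆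
      (range (B + 1)).biUnion (fun b => (range (⌊T - ρ * (b : ℝ)⌋₊ + 1)).image (fun a => (a, b))) := by
    intro w hw
    rw [mem_filter] at hw
    have h1 := hw.2
    have h0 : (0 : ℝ) ≤ (w.1 : ℝ) := Nat.cast_nonneg _
    rw [mem_biUnion]
    refine ⟨w.2, ?_, ?_⟩
    · rw [mem_range, Nat.lt_succ_iff, hB]
      refine Nat.le_floor ?_
      rw [le_div_iff₀ hρ]
      linarith
    · rw [mem_image]
      refine ⟨w.1, ?_, rfl⟩
      rw [mem_range, Nat.lt_succ_iff]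
      refine Nat.le_floor ?_
      linarith
  have hcard : (((range N ×ˢ range N).filter
      (fun w : ℕ × ℕ => (w.1 : ℝ) + ρ * (w.2 : ℝ) ≤ T)).card : ℝ) ≤
      ∑ b ∈ range (B + 1), ((T + 1) - ρ * (b : ℝ)) := by
    have h1 := (card_le_card hsub).trans card_biUnion_le
    have h2 : (((range N ×ˢ range N).filter
      (fun w : ℕ × ℕ => (w.1 : ℝ) + ρ * (w.2 : ℝ) ≤ T)).card : ℝ) ≤
      ((∑ b ∈ range (B + 1),
        ((range (⌊T - ρ * (b : ℝ)⌋₊ + 1)).image (fun a => (a, b))).card : ℕ) : ℝ) := by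
      exact_mod_cast h1
    refine h2.trans ?_
    rw [Nat.cast_sum]
    refine sum_le_sum fun b hb => ?_
    have hbB : (b : ℝ) ≤ (B : ℝ) := by
      have := mem_range.1 hb
      exact_mod_cast (by omega : b ≤ B)
    have h3 : ρ * (b : ℝ) ≤ ρ * (B : ℝ) := mul_le_mul_of_nonneg_left hbB hρ.le
    have h4 : (((range (⌊T - ρ * (b : ℝ)⌋₊ + 1)).image (fun a => (a, b))).card : ℝ) ≤
        ((⌊T - ρ * (b : ℝ)⌋₊ + 1 : ℕ) : ℝ) := by
      have h5 := card_image_le (s := range (⌊T - ρ * (b : ℝ)⌋₊ + 1)) (f := fun a => (a, b))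
      rw [card_range] at h5
      exact_mod_cast h5
    refine h4.trans ?_
    have h6 : ((⌊T - ρ * (b : ℝ)⌋₊ : ℕ) : ℝ) ≤ T - ρ * (b : ℝ) := Nat.floor_le (by linarith)
    push_cast
    linarith
  rw [cnb_sum] at hcard
  have hB0 : (0 : ℝ) ≤ (B : ℝ) := Nat.cast_nonneg _
  have hρB : 0 ≤ ρ * (B : ℝ) := mul_nonneg hρ.le hB0
  have h7 : 2 * ρ * (((range N ×ˢ range N).filter
      (fun w : ℕ × ℕ => (w.1 : ℝ) + ρ * (w.2 : ℝ) ≤ T)).card : ℝ) ≤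
      2 * ρ * (((B + 1 : ℕ) : ℝ) * (T + 1) - ρ * (((B + 1 : ℕ) : ℝ) * (((B + 1 : ℕ) : ℝ) - 1) / 2)) :=
    mul_le_mul_of_nonneg_left hcard (by linarith)
  refine h7.trans ?_
  push_cast
  nlinarith [sq_nonneg (T - ρ * (B : ℝ)), mul_nonneg hρ.le hρB, hBle, hρB]

/-- the final inequality -/
private theorem cnb_fin {n : ℕ} (hn : 3 ≤ n) {ρ k T R b1 b2 k1 : ℝ} (hρ : 0 < ρ) (hk : 1 ≤ k)
    (hD : (n : ℝ) * (n - 1) * (1 + ρ) + 4 + 2 * ρ + (3 + 4 * ρ) / (2 * ρ) < ρ * k)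
    (hT0 : 0 ≤ T) (hT : T ≤ 2 * ρ * k + 1)
    (hR : 2 * ρ * R ≤ T ^ 2 + 2 * T + 2 * ρ * T + 2 * ρ)
    (hk1 : ρ * k ≤ k1) (hb1 : n * (k1 + 1 - n) ≤ b1) (hb2 : n * (k + 1 - n) ≤ b2)
    (h1 : 0 ≤ ρ * k + 1 - n) (h2 : 0 ≤ k + 1 - n) : n * R < b1 * b2 := by
  have hn3 : (3 : ℝ) ≤ n := by exact_mod_cast hn
  have hn0 : (0 : ℝ) < n := by linarith
  have hb1' : n * (ρ * k + 1 - n) ≤ b1 :=
    (mul_le_mul_of_nonneg_left (by linarith) hn0.le).trans hb1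
  have hlow : (n * (ρ * k + 1 - n)) * (n * (k + 1 - n)) ≤ b1 * b2 :=
    mul_le_mul hb1' hb2 (mul_nonneg hn0.le h2) ((mul_nonneg hn0.le h1).trans hb1')
  refine lt_of_lt_of_le ?_ hlow
  have hR2 : 2 * ρ * R ≤ (2 * ρ * k + 1) ^ 2 + 2 * (2 * ρ * k + 1) + 2 * ρ * (2 * ρ * k + 1) + 2 * ρ := by
    have h3 : T ^ 2 ≤ (2 * ρ * k + 1) ^ 2 := pow_le_pow_left₀ hT0 hT 2
    have h4 : 2 * ρ * T ≤ 2 * ρ * (2 * ρ * k + 1) := mul_le_mul_of_nonneg_left hT (by linarith)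
    linarith
  -- multiply the hypothesis on `ρ k` by `2 ρ k`
  have hk0 : 0 < k := by linarith
  have h5 : 2 * ρ * k * ((n : ℝ) * (n - 1) * (1 + ρ) + 4 + 2 * ρ + (3 + 4 * ρ) / (2 * ρ)) <
      2 * ρ * k * (ρ * k) := mul_lt_mul_of_pos_left hD (by positivity)
  have h6 : 2 * ρ * k * ((n : ℝ) * (n - 1) * (1 + ρ) + 4 + 2 * ρ + (3 + 4 * ρ) / (2 * ρ)) =
      (2 * ρ * (n * (n - 1) * (1 + ρ)) + 8 * ρ + 4 * ρ ^ 2) * k + (3 + 4 * ρ) * k := by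
    field_simp
    ring
  rw [h6] at h5
  have h7 : (3 + 4 * ρ) * 1 ≤ (3 + 4 * ρ) * k := mul_le_mul_of_nonneg_left hk (by linarith)
  have h8 : 2 * ρ * k * (ρ * k) ≤ (n - 2) * (2 * ρ * k * (ρ * k)) := by
    have h9 : 0 ≤ 2 * ρ * k * (ρ * k) := by positivity
    nlinarith
  have h10 : 2 * ρ * R < 2 * ρ * (n * ((ρ * k + 1 - n) * (k + 1 - n))) := by
    have h11 : 2 * ρ * (n * ((ρ * k + 1 - n) * (k + 1 - n))) =
        n * (2 * ρ * k * (ρ * k)) - (2 * ρ * (n * (n - 1) * (1 + ρ))) * k + 2 * ρ * n * (n - 1) ^ 2 := by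
      ring
    have h12 : 0 ≤ 2 * ρ * n * ((n : ℝ) - 1) ^ 2 := by positivity
    rw [h11]
    nlinarith
  have h13 : R < n * ((ρ * k + 1 - n) * (k + 1 - n)) := lt_of_mul_lt_mul_left h10 (by positivity)
  calc (n : ℝ) * R < n * (n * ((ρ * k + 1 - n) * (k + 1 - n))) := mul_lt_mul_of_pos_left h13 hn0
    _ = (n * (ρ * k + 1 - n)) * (n * (k + 1 - n)) := by ring

theorem cnb (n : ℕ) (hn : 3 ≤ n) {ρ : ℝ} (hρ : 0 < ρ) : ∃ (K1 K2 N : ℕ) (R : Finset (ℕ × ℕ)),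
    R ⊆ range N ×ˢ range N ∧ n * R.card < (box n K1).card * (box n K2).card ∧
    (∀ w ∈ (range N ×ˢ range N) \ R, ((K1 : ℝ) - w.1) + ρ * ((K2 : ℝ) - w.2) < 0) ∧
    (K1 : ℝ) - N + ρ * K2 < 0 ∧ (K1 : ℝ) + ρ * ((K2 : ℝ) - N) < 0 := by
  classical
  set D : ℝ := (n : ℝ) * (n - 1) * (1 + ρ) + 4 + 2 * ρ + (3 + 4 * ρ) / (2 * ρ) with hD
  set K2 : ℕ := ⌈(D + 1) / ρ⌉₊ + n with hK2
  set K1 : ℕ := ⌈ρ * (K2 : ℝ)⌉₊ with hK1
  set T : ℝ := (K1 : ℝ) + ρ * (K2 : ℝ) with hT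
  set N : ℕ := ⌊T⌋₊ + ⌊T / ρ⌋₊ + 1 with hN
  have hn3 : (3 : ℝ) ≤ n := by exact_mod_cast hn
  have hDpos : (n : ℝ) ≤ D := by
    have h1 : 0 ≤ (3 + 4 * ρ) / (2 * ρ) := by positivity
    have h2 : (n : ℝ) * (n - 1) ≤ (n : ℝ) * (n - 1) * (1 + ρ) := by
      have h3 : 0 ≤ (n : ℝ) * (n - 1) * ρ := mul_nonneg (mul_nonneg (by linarith) (by linarith)) hρ.le
      linarith
    have h4 : (n : ℝ) ≤ (n : ℝ) * (n - 1) := by nlinarith
    rw [hD]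
    linarith
  have hk2 : (D + 1) / ρ + n ≤ (K2 : ℝ) := by
    rw [hK2]
    push_cast
    linarith [Nat.le_ceil ((D + 1) / ρ)]
  have hk2n : (n : ℝ) ≤ (K2 : ℝ) := by
    have : 0 ≤ (D + 1) / ρ := div_nonneg (by linarith) hρ.le
    linarith
  have hDk : D + 1 ≤ ρ * (K2 : ℝ) := by
    have h1 : (D + 1) / ρ ≤ (K2 : ℝ) := by linarith
    rw [div_le_iff₀ hρ] at h1
    linarith
  have hk1 : ρ * (K2 : ℝ) ≤ (K1 : ℝ) := Nat.le_ceil _
  have hk1' : (K1 : ℝ) < ρ * (K2 : ℝ) + 1 := Nat.ceil_lt_add_one (by positivity)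
  have hT0 : 0 ≤ T := by rw [hT]; positivity
  have hTN : T < (N : ℝ) := by
    have h1 := Nat.lt_floor_add_one T
    have h2 : (0 : ℝ) ≤ ((⌊T / ρ⌋₊ : ℕ) : ℝ) := Nat.cast_nonneg _
    rw [hN]
    push_cast
    linarith
  have hTN' : T < ρ * (N : ℝ) := by
    have h1 := Nat.lt_floor_add_one (T / ρ)
    have h2 : (0 : ℝ) ≤ ((⌊T⌋₊ : ℕ) : ℝ) := Nat.cast_nonneg _
    have h3 : T / ρ < (N : ℝ) := by
      rw [hN]
      push_cast
      linarith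
    rw [div_lt_iff₀ hρ] at h3
    linarith
  refine ⟨K1, K2, N, (range N ×ˢ range N).filter
      (fun w : ℕ × ℕ => (w.1 : ℝ) + ρ * (w.2 : ℝ) ≤ T), filter_subset _ _, ?_, ?_, ?_, ?_⟩
  · have hKn : n ≤ K2 := by exact_mod_cast hk2n
    have hK1n : n ≤ K1 := by
      have h1 : (n : ℝ) ≤ (K1 : ℝ) := by linarith
      exact_mod_cast h1
    have hl1 := cnb_lo n K1 (K1 + 1 - n) (by omega)
    have hl2 := cnb_lo n K2 (K2 + 1 - n) (by omega)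
    have hl1' : (n : ℝ) * ((K1 : ℝ) + 1 - n) ≤ ((box n K1).card : ℝ) := by
      have h1 : (((K1 + 1 - n : ℕ)) : ℝ) = (K1 : ℝ) + 1 - n := by
        rw [Nat.cast_sub (by omega)]
        push_cast
        ring
      rw [← h1]
      exact_mod_cast hl1
    have hl2' : (n : ℝ) * ((K2 : ℝ) + 1 - n) ≤ ((box n K2).card : ℝ) := by
      have h1 : (((K2 + 1 - n : ℕ)) : ℝ) = (K2 : ℝ) + 1 - n := by
        rw [Nat.cast_sub (by omega)]
        push_cast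
        ring
      rw [← h1]
      exact_mod_cast hl2
    have key := cnb_fin (n := n) hn (ρ := ρ) (k := (K2 : ℝ)) (T := T)
      (R := (((range N ×ˢ range N).filter
        (fun w : ℕ × ℕ => (w.1 : ℝ) + ρ * (w.2 : ℝ) ≤ T)).card : ℝ))
      (b1 := ((box n K1).card : ℝ)) (b2 := ((box n K2).card : ℝ)) (k1 := (K1 : ℝ)) hρ
      (by linarith) (by linarith) hT0 (by linarith) (cnb_card hρ hT0 N) hk1 hl1' hl2'
      (by linarith) (by linarith)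
    exact_mod_cast key
  · intro w hw
    rw [mem_sdiff, mem_filter] at hw
    have h1 : ¬ ((w.1 : ℝ) + ρ * (w.2 : ℝ) ≤ T) := fun h => hw.2 ⟨hw.1, h⟩
    push Not at h1
    rw [hT] at h1
    linarith
  · rw [hT] at hTN
    linarith
  · rw [hT] at hTN'
    linarith

end Pool.Agent.H12.ON
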