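import Mathlib

/-! # [H12 ON COP] Two plane curves without common component have finitely many common points

`F` irreducible, `F ∤ G` in `Ω[x,y]`. Gauss: pass to `Ω[x][y]` (`MvPolynomial.finSuccEquiv` or `Polynomial (Polynomial Ω)`): if `F` has positive
degree in `y` it is irreducible and primitive, so irreducible over `Ω(x)`, and `F ∤ G` there: there are `A, B ∈ Ω[x][y]` and `R ∈ Ω[x]`,
`R ≠ 0`, with `A F + B G = R(x)`. So the common zeros have finitely many `x`. The same with `x` and `y` exchanged (if `F` has degree zero in `y`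
it is `c (x - a)` up to a unit or a polynomial in `x` only: finitely many `x` as well). So finitely many `(x,y)`. Search the pool for an
existing version (`grep -rln Finite` with `resultant` in H8, H15, H34, H72, H97: for example the lemma on common zeros of coprime
polynomials) and adapt it if it is closer than a proof from scratch. `elim` is used separately. -/

namespace Pool.Agent.H12.ON

open MvPolynomial

/-- polynomials in `x` only -/
private theorem eq_C_poly {Ω : Type} [Field Ω] (R : Polynomial Ω) :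
    Polynomial.Bivariate.equivMvPolynomial Ω (Polynomial.C R) =
      Polynomial.aeval (X 0 : MvPolynomial (Fin 2) Ω) R := by
  induction R using Polynomial.induction_on' with
  | add p q hp hq => rw [map_add, map_add, map_add, hp, hq]
  | monomial n a =>
    rw [← Polynomial.C_mul_X_pow_eq_monomial, map_mul, map_mul, map_pow, map_pow,
      Polynomial.Bivariate.equivMvPolynomial_C_C, Polynomial.Bivariate.equivMvPolynomial_C_X, map_mul,
      Polynomial.aeval_C, map_pow, Polynomial.aeval_X]
    rfl

/-- denominators -/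
private theorem clear_den {Ω : Type} [Field Ω] (p : Polynomial (FractionRing (Polynomial Ω))) :
    ∃ (b : Polynomial Ω) (q : Polynomial (Polynomial Ω)), b ≠ 0 ∧
      q.map (algebraMap (Polynomial Ω) (FractionRing (Polynomial Ω))) =
        Polynomial.C (algebraMap (Polynomial Ω) (FractionRing (Polynomial Ω)) b) * p := by
  obtain ⟨b, hb, hmap⟩ := IsLocalization.integerNormalization_spec
    (nonZeroDivisors (Polynomial Ω)) p
  refine ⟨b, IsLocalization.integerNormalization (nonZeroDivisors (Polynomial Ω)) p,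
    nonZeroDivisors.ne_zero hb, ?_⟩
  rw [hmap, ← Polynomial.smul_eq_C_mul, algebraMap_smul]

private theorem elim_biv {Ω : Type} [Field Ω] {f g : Polynomial (Polynomial Ω)} (hf : Irreducible f)
    (hg : ¬ f ∣ g) : ∃ (A B : Polynomial (Polynomial Ω)) (R : Polynomial Ω), R ≠ 0 ∧
      A * f + B * g = Polynomial.C R := by
  rcases Nat.eq_zero_or_pos f.natDegree with h0 | h0
  · obtain ⟨r, hr⟩ := Polynomial.natDegree_eq_zero.1 h0
    refine ⟨1, 0, r, ?_, ?_⟩
    · rintro rfl
      exact hf.ne_zero (by rw [← hr, map_zero])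
    · rw [hr]
      ring
  · have hprim : f.IsPrimitive := hf.isPrimitive h0.ne'
    have hinj : Function.Injective (algebraMap (Polynomial Ω) (FractionRing (Polynomial Ω))) :=
      IsFractionRing.injective _ _
    have h1 : Irreducible (f.map (algebraMap (Polynomial Ω) (FractionRing (Polynomial Ω)))) :=
      (hprim.irreducible_iff_irreducible_map_fraction_map).1 hf
    have h2 : ¬ f.map (algebraMap (Polynomial Ω) (FractionRing (Polynomial Ω))) ∣
        g.map (algebraMap (Polynomial Ω) (FractionRing (Polynomial Ω))) := fun h3 =>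
      hg (hprim.dvd_of_fraction_map_dvd_fraction_map h3)
    obtain ⟨a, b, hab⟩ := (h1.coprime_iff_not_dvd).2 h2
    obtain ⟨r, A, hr, hA⟩ := clear_den a
    obtain ⟨r', B, hr', hB⟩ := clear_den b
    refine ⟨Polynomial.C r' * A, Polynomial.C r * B, r * r', mul_ne_zero hr hr', ?_⟩
    apply Polynomial.map_injective _ hinj
    rw [Polynomial.map_add, Polynomial.map_mul, Polynomial.map_mul, Polynomial.map_mul, Polynomial.map_mul,
      Polynomial.map_C, Polynomial.map_C, Polynomial.map_C, hA, hB, map_mul, Polynomial.C_mul]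
    linear_combination (Polynomial.C (algebraMap (Polynomial Ω) (FractionRing (Polynomial Ω)) r) *
      Polynomial.C (algebraMap (Polynomial Ω) (FractionRing (Polynomial Ω)) r')) * hab

/-- elimination: `R(x)` in the ideal of `F` and `G` -/
theorem elim {Ω : Type} [Field Ω] {F G : MvPolynomial (Fin 2) Ω} (hF : Irreducible F) (hG : ¬ F ∣ G) :
    ∃ (A B : MvPolynomial (Fin 2) Ω) (R : Polynomial Ω), R ≠ 0 ∧
      A * F + B * G = Polynomial.aeval (X 0 : MvPolynomial (Fin 2) Ω) R := by
  obtain ⟨e, he⟩ : ∃ e : Polynomial (Polynomial Ω) ≃ₐ[Ω] MvPolynomial (Fin 2) Ω,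
    e = Polynomial.Bivariate.equivMvPolynomial Ω := ⟨_, rfl⟩
  have h1 : Irreducible (e.symm F) := (MulEquiv.irreducible_iff e.symm).2 hF
  have h2 : ¬ e.symm F ∣ e.symm G := fun h => hG ((map_dvd_iff e.symm).1 h)
  obtain ⟨A, B, R, hR, h3⟩ := elim_biv h1 h2
  refine ⟨e A, e B, R, hR, ?_⟩
  have h4 := congrArg e h3
  rw [map_add, map_mul, map_mul, AlgEquiv.apply_symm_apply, AlgEquiv.apply_symm_apply] at h4
  rw [h4, he, eq_C_poly]

private theorem zero_x {Ω : Type} [Field Ω] {F G : MvPolynomial (Fin 2) Ω} (hF : Irreducible F)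
    (hG : ¬ F ∣ G) : ∃ S : Finset Ω, ∀ x y : Ω, aeval ![x, y] F = 0 → aeval ![x, y] G = 0 → x ∈ S := by
  classical
  obtain ⟨A, B, R, hR, h⟩ := elim hF hG
  refine ⟨R.roots.toFinset, fun x y h1 h2 => ?_⟩
  have h3 := congrArg (aeval ![x, y]) h
  rw [map_add, map_mul, map_mul, h1, h2, mul_zero, mul_zero, add_zero,
    ← Polynomial.aeval_algHom_apply, aeval_X] at h3
  rw [Multiset.mem_toFinset, Polynomial.mem_roots hR, Polynomial.IsRoot.def]
  rw [Polynomial.coe_aeval_eq_eval] at h3
  exact h3.symm

theorem fin_common {Ω : Type} [Field Ω] {F G : MvPolynomial (Fin 2) Ω} (hF : Irreducible F) (hG : ¬ F ∣ G) :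
    {P : Ω × Ω | aeval ![P.1, P.2] F = 0 ∧ aeval ![P.1, P.2] G = 0}.Finite := by
  classical
  obtain ⟨S, hS⟩ := zero_x hF hG
  obtain ⟨e, he⟩ : ∃ e : MvPolynomial (Fin 2) Ω ≃ₐ[Ω] MvPolynomial (Fin 2) Ω,
    e = renameEquiv Ω (Equiv.swap (0 : Fin 2) 1) := ⟨_, rfl⟩
  have h1 : Irreducible (e F) := (MulEquiv.irreducible_iff e).2 hF
  have h2 : ¬ e F ∣ e G := fun h => hG ((map_dvd_iff e).1 h)
  obtain ⟨S', hS'⟩ := zero_x h1 h2
  have h3 : ∀ (x y : Ω) (H : MvPolynomial (Fin 2) Ω), aeval ![y, x] (e H) = aeval ![x, y] H := by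
    intro x y H
    rw [he, renameEquiv_apply, aeval_rename]
    congr 2
    funext i
    fin_cases i <;> rfl
  refine (S ×ˢ S').finite_toSet.subset ?_
  rintro ⟨x, y⟩ ⟨h4, h5⟩
  rw [Finset.mem_coe, Finset.mem_product]
  exact ⟨hS x y h4 h5, hS' y x (by rw [h3]; exact h4) (by rw [h3]; exact h5)⟩

end Pool.Agent.H12.ON
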