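import Mathlib

/-! # [H12 ON MIP] Relatively algebraically closed fields keep minimal polynomials

`k ⊆ M ⊆ Ω`, characteristic zero, every element of `M` algebraic over `k` is in `k`. For `ω ∈ Ω` algebraic over `k` the minimal polynomial over `M` divides the one
over `k`; its roots (in an algebraic closure) are roots of `minpoly k ω`, so its coefficients (symmetric functions) are algebraic over `k`, in `M`, so in `k`: it
is the image of a monic polynomial over `k` with zero `ω`, which is divisible by `minpoly k ω`: they are equal. (`Polynomial.Splits`, `coeff_eq_esymm_roots`, or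
`IsIntegrallyClosedIn`.) `mip_mem`: `θ₁, θ₂ ∈ Ω` algebraic over `k`, `θ₂` of the same degree over `M` as over `k` (automatic by `mip`), `θ₁ ∈ M(θ₂)`: then
`θ₁ ∈ k(θ₂)`. Proof: `k(θ₁,θ₂) = k(ω)` (primitive element), `[k(ω):k] = deg minpoly k ω = deg minpoly M ω = [M(ω):M] = [M(θ₂):M] = [k(θ₂):k]`. -/

namespace Pool.Agent.H12.ON

open IntermediateField

theorem mip {k M Ω : Type} [Field k] [CharZero k] [Field M] [Field Ω] [Algebra k M] [Algebra M Ω]
    [Algebra k Ω] [IsScalarTower k M Ω] (h : ∀ z : M, IsAlgebraic k z → z ∈ (algebraMap k M).range) {ω : Ω}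
    (hω : IsAlgebraic k ω) : (minpoly k ω).map (algebraMap k M) = minpoly M ω := by
  have hi : IsIntegral k ω := hω.isIntegral
  have hiM : IsIntegral M ω := hi.tower_top
  have hd : minpoly M ω ∣ (minpoly k ω).map (algebraMap k M) :=
    minpoly.dvd_map_of_isScalarTower k M ω
  have hl := integralClosure.mem_lifts_of_monic_of_dvd_map M (minpoly.monic hi) (minpoly.monic hiM) hd
  have hl2 : minpoly M ω ∈ Polynomial.lifts (algebraMap k M) := by
    rw [Polynomial.lifts_iff_coeff_lifts] at hl ⊢
    intro j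
    obtain ⟨c, hc⟩ := hl j
    obtain ⟨b, hb⟩ := h (minpoly M ω |>.coeff j) (by
      rw [← hc]
      exact c.2.isAlgebraic)
    exact ⟨b, hb⟩
  obtain ⟨g, hg, hgd, hgm⟩ := Polynomial.lifts_and_natDegree_eq_and_monic hl2 (minpoly.monic hiM)
  have hg0 : Polynomial.aeval ω g = 0 := by
    have := minpoly.aeval M ω
    rw [← hg, Polynomial.aeval_map_algebraMap] at this
    exact this
  have hdg : minpoly k ω ∣ g := minpoly.dvd k ω hg0
  have hle : g.natDegree ≤ (minpoly k ω).natDegree := by
    rw [hgd]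
    have h3 := Polynomial.natDegree_le_of_dvd hd
      ((minpoly.monic hi).map (algebraMap k M)).ne_zero
    rwa [Polynomial.natDegree_map] at h3
  have heq : g = minpoly k ω :=
    Polynomial.eq_of_monic_of_dvd_of_natDegree_le (minpoly.monic hi) hgm hdg hle
  rw [← heq, hg]

theorem mip_mem {k M Ω : Type} [Field k] [CharZero k] [Field M] [Field Ω] [Algebra k M] [Algebra M Ω]
    [Algebra k Ω] [IsScalarTower k M Ω] (h : ∀ z : M, IsAlgebraic k z → z ∈ (algebraMap k M).range)
    {θ₁ θ₂ : Ω} (h1 : IsAlgebraic k θ₁) (h2 : IsAlgebraic k θ₂) (h12 : θ₁ ∈ M⟮θ₂⟯) : θ₁ ∈ k⟮θ₂⟯ := by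
  let E : IntermediateField k Ω := IntermediateField.adjoin k {θ₁, θ₂}
  have hint : ∀ x ∈ ({θ₁, θ₂} : Set Ω), IsIntegral k x := by
    rintro x (rfl | rfl)
    · exact h1.isIntegral
    · exact h2.isIntegral
  haveI : FiniteDimensional k E := IntermediateField.finiteDimensional_adjoin hint
  have hE1 : θ₁ ∈ E := IntermediateField.subset_adjoin k _ (Set.mem_insert _ _)
  have hE2 : θ₂ ∈ E := IntermediateField.subset_adjoin k _ (Set.mem_insert_of_mem _ rfl)
  obtain ⟨α, hα⟩ := Field.exists_primitive_element k E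
  have hdeg : (minpoly k α).natDegree = Module.finrank k E :=
    (Field.primitive_element_iff_minpoly_natDegree_eq k α).mp hα
  have hmα : minpoly k (α : Ω) = minpoly k α :=
    minpoly.algebraMap_eq (A := k) (B := E) (B' := Ω) (algebraMap E Ω).injective α
  have hαa : IsAlgebraic k (α : Ω) := by
    have := (Algebra.IsAlgebraic.isAlgebraic (R := k) α).algHom E.val
    exact this
  have hEM : E ≤ (M⟮θ₂⟯).restrictScalars k := by
    rw [IntermediateField.adjoin_le_iff]
    rintro x (rfl | rfl)
    · exact h12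
    · exact IntermediateField.mem_adjoin_simple_self M x
  have hαM : (α : Ω) ∈ M⟮θ₂⟯ := hEM α.2
  have hi2 : IsIntegral M θ₂ := h2.isIntegral.tower_top
  haveI : FiniteDimensional M M⟮θ₂⟯ := IntermediateField.adjoin.finiteDimensional hi2
  have hle : (minpoly M (α : Ω)).natDegree ≤ Module.finrank M M⟮θ₂⟯ := by
    have h3 := minpoly.natDegree_le (A := M) (⟨(α : Ω), hαM⟩ : M⟮θ₂⟯)
    have h4 : minpoly M (α : Ω) = minpoly M (⟨(α : Ω), hαM⟩ : M⟮θ₂⟯) :=
      minpoly.algebraMap_eq (A := M) (B := M⟮θ₂⟯) (B' := Ω) (algebraMap M⟮θ₂⟯ Ω).injective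
        (⟨(α : Ω), hαM⟩ : M⟮θ₂⟯)
    rw [h4]
    exact h3
  have hfr : Module.finrank k E ≤ Module.finrank k k⟮θ₂⟯ := by
    rw [IntermediateField.adjoin.finrank hi2, ← mip h hαa, ← mip h h2, Polynomial.natDegree_map,
      Polynomial.natDegree_map, hmα, hdeg] at hle
    rw [IntermediateField.adjoin.finrank h2.isIntegral]
    exact hle
  have hsub : k⟮θ₂⟯ ≤ E := by
    rw [IntermediateField.adjoin_simple_le_iff]
    exact hE2
  rw [IntermediateField.eq_of_le_of_finrank_le hsub hfr]
  exact hE1

end Pool.Agent.H12.ON
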