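import Pool.Agent.H12.ON.Nd
import Pool.Agent.H12.ON.Mip
import Pool.Agent.H82.NS.Q0alg

/-! # [H12 ON PSI] `θ₁ = ψ(θ₂)` with `ψ` over `Q0 H`

For each `N` the real number `θ₂ N` is algebraic of degree `≤ n` and `θ₁ N ∈ ℚ(θ₂ N)` (the closures as subfields of `ℝ` are equal): `θ₁ N = ∑_{i<n} c_i(N) (θ₂ N)^i`,
`c_i(N) ∈ ℚ`. So `cl θ₁ = ∑_{i<n} cl(c_i) (cl θ₂)^i` with `cl (c_i) ∈ QS`: `cl θ₁ ∈ QS⟮cl θ₂⟯`. Both are algebraic over `Q0 H` (zeros of `ftop n Fh`, given as hypothesis). `Q0 H`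
is algebraically closed in `QS` (`q0_alg`): `mip_mem` gives `cl θ₁ ∈ (Q0 H)⟮cl θ₂⟯`, that is `ψ(cl θ₂)` for a polynomial `ψ` over `Q0 H` (algebraic element:
`IntermediateField.adjoin_simple_toSubalgebra_of_integral`, `Algebra.adjoin_singleton_eq_range_aeval`). -/

namespace Pool.Agent.H12.ON

open Pool.Agent.H82.NS Filter

private theorem mem_adj {t s : ℝ} (hs : s ∈ Subfield.closure {t}) :
    s ∈ IntermediateField.adjoin ℚ {t} := by
  have h : Subfield.closure {t} ≤ (IntermediateField.adjoin ℚ {t}).toSubfield := by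
    rw [Subfield.closure_le]
    rintro x rfl
    exact IntermediateField.mem_adjoin_simple_self ℚ x
  exact h hs

private theorem one_real {n : ℕ} {t s : ℝ} (hn : ∃ p : Polynomial ℚ, p ≠ 0 ∧ p.natDegree ≤ n ∧
    Polynomial.aeval t p = 0) (hs : s ∈ Subfield.closure {t}) :
    ∃ c : ℕ → ℚ, s = ∑ i ∈ Finset.range n, (c i : ℝ) * t ^ i := by
  obtain ⟨p, hp0, hpn, hpt⟩ := hn
  have halg : IsAlgebraic ℚ t := ⟨p, hp0, hpt⟩
  have hint : IsIntegral ℚ t := halg.isIntegral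
  have h1 := mem_adj hs
  have h2 : s ∈ (IntermediateField.adjoin ℚ {t}).toSubalgebra := h1
  rw [IntermediateField.adjoin_simple_toSubalgebra_of_isAlgebraic halg,
    Algebra.adjoin_singleton_eq_range_aeval] at h2
  obtain ⟨q, hq⟩ := h2
  have hm := minpoly.monic hint
  let r := q %ₘ minpoly ℚ t
  have hr : Polynomial.aeval t r = s := by
    have h3 : r + minpoly ℚ t * (q /ₘ minpoly ℚ t) = q := Polynomial.modByMonic_add_div q (minpoly ℚ t)
    have h4 := congrArg (Polynomial.aeval t) h3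
    rw [map_add, map_mul, minpoly.aeval, zero_mul, add_zero] at h4
    rw [h4]
    exact hq
  have hd : (minpoly ℚ t).natDegree ≤ n :=
    (Polynomial.natDegree_le_of_dvd (minpoly.dvd ℚ t hpt) hp0).trans hpn
  have hlt : r.natDegree < n :=
    lt_of_lt_of_le (Polynomial.natDegree_modByMonic_lt q hm (minpoly.ne_one ℚ t)) hd
  refine ⟨fun i => r.coeff i, ?_⟩
  rw [← hr, Polynomial.aeval_eq_sum_range' hlt]
  refine Finset.sum_congr rfl fun i _ => ?_
  rw [Algebra.smul_def]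
  rfl

private theorem cl_pow {R : Type} [Field R] (f : ℕ → R) (i : ℕ) :
    (cl f) ^ i = cl (fun N => f N ^ i) := by
  induction i with
  | zero => simp only [pow_zero]; exact cl_one
  | succ i ih => rw [pow_succ, ih, cl_mul]; simp only [pow_succ]

private theorem cl_sum {R : Type} [Field R] (f : ℕ → ℕ → R) (s : Finset ℕ) :
    cl (fun N => ∑ i ∈ s, f i N) = ∑ i ∈ s, cl (f i) := by
  classical
  induction s using Finset.induction_on with
  | empty => simp only [Finset.sum_empty]; exact cl_zero.symm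
  | insert a s ha ih => simp only [Finset.sum_insert ha]; rw [← ih, cl_add]

theorem psi (H : ℕ → ℕ) (n : ℕ) {θ₁ θ₂ : ℕ → ℝ} (h1 : IsAlgebraic (Q0 H) (cl θ₁ : RS))
    (h2 : IsAlgebraic (Q0 H) (cl θ₂ : RS)) (hn : ∀ N, ∃ p : Polynomial ℚ, p ≠ 0 ∧ p.natDegree ≤ n ∧
      Polynomial.aeval (θ₂ N) p = 0) (h : ∀ N, θ₁ N ∈ Subfield.closure {θ₂ N}) :
    ∃ ψ : Polynomial (Q0 H), (cl θ₁ : RS) = Polynomial.aeval (cl θ₂ : RS) ψ := by
  have hc : ∀ N, ∃ c : ℕ → ℚ, θ₁ N = ∑ i ∈ Finset.range n, (c i : ℝ) * (θ₂ N) ^ i := fun N =>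
    one_real (hn N) (h N)
  choose c hc using hc
  have h3 : (cl θ₁ : RS) = ∑ i ∈ Finset.range n,
      algebraMap QS RS (cl (fun N => c N i)) * (cl θ₂ : RS) ^ i := by
    have h4 : θ₁ = fun N => ∑ i ∈ Finset.range n, (c N i : ℝ) * (θ₂ N) ^ i := funext hc
    have h5 : (cl θ₁ : RS) = ∑ i ∈ Finset.range n, cl (fun N => (c N i : ℝ) * (θ₂ N) ^ i) := by
      rw [h4]
      exact cl_sum (fun i N => (c N i : ℝ) * (θ₂ N) ^ i) (Finset.range n)
    rw [h5]
    refine Finset.sum_congr rfl fun i _ => ?_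
    rw [cl_pow, ← cl_mul]
    rfl
  have h6 : (cl θ₁ : RS) ∈ IntermediateField.adjoin QS {(cl θ₂ : RS)} := by
    rw [h3]
    exact sum_mem fun i _ => mul_mem (IntermediateField.algebraMap_mem _ _)
      (pow_mem (IntermediateField.mem_adjoin_simple_self QS _) i)
  haveI tw : @IsScalarTower (Q0 H) QS RS Algebra.toSMul Algebra.toSMul Algebra.toSMul :=
    IsScalarTower.of_algebraMap_eq (R := Q0 H) (S := QS) (A := RS) (fun _ => rfl)
  have h7 : (cl θ₁ : RS) ∈ IntermediateField.adjoin (Q0 H) {(cl θ₂ : RS)} :=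
    mip_mem (k := Q0 H) (M := QS) (Ω := RS) (fun z hz => ⟨⟨z, q0_alg H z hz⟩, rfl⟩) h1 h2 h6
  have h8 : (cl θ₁ : RS) ∈ (IntermediateField.adjoin (Q0 H) {(cl θ₂ : RS)}).toSubalgebra := h7
  rw [IntermediateField.adjoin_simple_toSubalgebra_of_isAlgebraic h2,
    Algebra.adjoin_singleton_eq_range_aeval] at h8
  obtain ⟨ψ, hψ⟩ := h8
  exact ⟨ψ, hψ.symm⟩

end Pool.Agent.H12.ON
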