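import Pool.Agent.H12.ON.Def

/-! # [H12 ON RES] The conditions over `Ω'` hold over a smaller field `Ω`

`Ω ⊆ Ω'` over `k`. `absi`: a factorisation over `Ω` is one over `Ω'`; `map` is injective and reflects units (constants). `smooth`, `nohom`: apply
`algebraMap Ω Ω'`. -/

namespace Pool.Agent.H12.ON

open MvPolynomial

private theorem res_unit {A B : Type} [Field A] [Field B] (f : A →+* B) {a : MvPolynomial (Fin 2) A}
    (h : IsUnit (map f a)) : IsUnit a := by
  rw [isUnit_iff_eq_C_of_isReduced] at h ⊢
  obtain ⟨r, hr, h1⟩ := h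
  have h2 : ∀ m, f (coeff m a) = coeff m (C r : MvPolynomial (Fin 2) B) := by
    intro m
    rw [← h1, coeff_map]
  refine ⟨coeff 0 a, ?_, ?_⟩
  · rw [isUnit_iff_ne_zero]
    intro h3
    have h4 := h2 0
    rw [h3, map_zero, coeff_zero_C] at h4
    exact hr.ne_zero h4.symm
  · ext m
    rw [coeff_C]
    by_cases h3 : 0 = m
    · rw [if_pos h3, ← h3]
    · rw [if_neg h3]
      have h4 := h2 m
      rw [coeff_C, if_neg h3] at h4
      exact (map_eq_zero f).1 h4

theorem res {k Ω Ω' : Type} [Field k] [Field Ω] [Field Ω'] [Algebra k Ω] [Algebra k Ω'] [Algebra Ω Ω']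
    [IsScalarTower k Ω Ω'] {n : ℕ} {F : MvPolynomial (Fin 2) k} (h : Cv k Ω' n F) : Cv k Ω n F := by
  refine { toTp := h.toTp, absi := ?_, smooth := ?_, nohom := ?_ }
  · have h1 : map (algebraMap k Ω') F = map (algebraMap Ω Ω') (map (algebraMap k Ω) F) := by
      rw [map_map, ← IsScalarTower.algebraMap_eq k Ω Ω']
    have h2 := h.absi
    rw [h1] at h2
    constructor
    · intro h3
      exact h2.not_isUnit (h3.map _)
    · intro a b hab
      rcases h2.isUnit_or_isUnit (by rw [hab, map_mul]) with h3 | h3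
      · exact Or.inl (res_unit _ h3)
      · exact Or.inr (res_unit _ h3)
  · intro a b hab
    have h1 : ∀ q : MvPolynomial (Fin 2) k, aeval ![algebraMap Ω Ω' a, algebraMap Ω Ω' b] q =
        algebraMap Ω Ω' (aeval ![a, b] q) := by
      intro q
      rw [← aeval_algebraMap_apply]
      congr 1
      congr 1
      funext i
      fin_cases i <;> rfl
    rcases h.smooth (algebraMap Ω Ω' a) (algebraMap Ω Ω' b) (by rw [h1, hab, map_zero]) with h2 | h2
    · left
      intro h3
      exact h2 (by rw [h1, h3, map_zero])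
    · right
      intro h3
      exact h2 (by rw [h1, h3, map_zero])
  · intro w z hz hF
    have h1 : ∀ q : Fin 2 → MvPolynomial (Fin 2) Ω, mapAlgHom (IsScalarTower.toAlgHom k Ω Ω') (aeval q F) =
        aeval (fun i => mapAlgHom (IsScalarTower.toAlgHom k Ω Ω') (q i)) F := fun q =>
      comp_aeval_apply _ _ _
    have h2 := congrArg (mapAlgHom (IsScalarTower.toAlgHom k Ω Ω')) hF
    rw [map_mul, h1, h1] at h2
    simp only [map_add, map_mul, mapAlgHom_apply, map_C, map_X] at h2
    have h3 := h.nohom (fun i => algebraMap Ω Ω' (w i)) (algebraMap Ω Ω' z)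
      ((map_ne_zero _).2 hz) (by
        rw [← map_pow]
        exact h2)
    exact (algebraMap Ω Ω').injective (by rw [h3, map_one])

end Pool.Agent.H12.ON
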