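import Pool.Agent.H12.ON.Nd
import Pool.Agent.H82.NS.Int
import Pool.Agent.H82.NS.Ri
import Pool.Agent.H82.NS.PlB

/-! # [H12 ON UNI] Only one place at infinity (Runge)

`O = (V0 H).comap (algebraMap L QS)` is over `Q0 H` and does not contain `x`. Let `W` be another one. `ri` (H82/NS/Ri.lean) for `V0 := O`, `V1 := W`:
`g ∈ O`, integral over `(Q0 H)[x]`, transcendental over `Q0 H`. In `QS` the element `g` is integral over `Algebra.adjoin (Q0 H) {(x : QS)}` (map the monic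
polynomial; `adjoin` in `L` maps into `adjoin` in `QS`). `int_small`: `δ ∈ Q0 H ∩ ZS`, `δ ≠ 0`, `δ g ∈ ZS`. `|g| ≤ r ∈ Q0 H` (`g ∈ O`), so `|δ g| ≤ |δ| r ∈ Q0 H`
and `δ g ∈ Q0 H` (`zs_small`), `g ∈ Q0 H`: not transcendental. -/

namespace Pool.Agent.H12.ON

open Pool.Agent.H82.NS Filter IntermediateField

private theorem abs_q0 (H : ℕ → ℕ) {z : QS} (hz : z ∈ Q0 H) : |z| ∈ Q0 H := by
  rcases abs_choice z with h | h
  · rw [h]
    exact hz
  · rw [h]
    exact (Q0 H).neg_mem hz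

private theorem int_map {E K M : Type} [Field E] [Field K] [Field M] [Algebra E K] [Algebra E M] (φ : K →ₐ[E] M)
    {x g : K} (h : IsIntegral (Algebra.adjoin E {x}) g) : IsIntegral (Algebra.adjoin E {φ x}) (φ g) := by
  obtain ⟨p, hp, hpg⟩ := h
  have h1 : ∀ z : Algebra.adjoin E {x}, φ z ∈ Algebra.adjoin E {φ x} := by
    intro z
    have h2 : φ z ∈ (Algebra.adjoin E {x}).map φ := ⟨z, z.2, rfl⟩
    rw [AlgHom.map_adjoin, Set.image_singleton] at h2
    exact h2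
  refine ⟨p.map (((φ : K →+* M).comp (Algebra.adjoin E {x}).subtype).codRestrict (Algebra.adjoin E {φ x}) h1),
    hp.map _, ?_⟩
  rw [Polynomial.eval₂_map]
  have h3 := congrArg φ hpg
  rw [map_zero] at h3
  rw [← h3]
  have h4 := Polynomial.hom_eval₂ p (algebraMap (Algebra.adjoin E {x}) K) (φ : K →+* M) g
  refine Eq.trans ?_ h4.symm
  rfl

theorem uni (H : ℕ → ℕ) (L : IntermediateField (Q0 H) QS) (x : L) (hx : (x : QS) ∈ ZS)
    (hxV : (x : QS) ∉ V0 H) (hK : FF (Q0 H) x) (W : ValuationSubring L) (hW : Ov (Q0 H) W) (hxW : x ∉ W) :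
    W = (V0 H).comap (algebraMap L QS) := by
  by_contra hne
  have h0 : Inf (Q0 H) x ((V0 H).comap (algebraMap L QS)) := by
    refine ⟨fun e => ?_, hxV⟩
    rw [ValuationSubring.mem_comap]
    exact ⟨|(e : QS)|, abs_q0 H e.2, le_rfl⟩
  obtain ⟨g, hg, hgi, hgt⟩ := ri x hK ((V0 H).comap (algebraMap L QS)) W h0 ⟨hW, hxW⟩ (Ne.symm hne)
  obtain ⟨δ, d1, d2, d3, d4⟩ := int_small H (x : QS) (g : QS) hx (int_map L.val hgi)
  obtain ⟨r, hr, hgr⟩ : ∃ r ∈ Q0 H, |(g : QS)| ≤ r := hg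
  have h1 : δ * (g : QS) ∈ Q0 H := by
    refine zs_small H _ (|δ| * r) d4 ((Q0 H).mul_mem (abs_q0 H d1) hr) ?_
    rw [abs_mul]
    exact mul_le_mul_of_nonneg_left hgr (abs_nonneg _)
  have h2 : (g : QS) ∈ Q0 H := by
    have h3 : (g : QS) = δ⁻¹ * (δ * (g : QS)) := by
      rw [inv_mul_cancel_left₀ d3]
    rw [h3]
    exact (Q0 H).mul_mem ((Q0 H).inv_mem d1) h1
  apply hgt
  have h3 : g = algebraMap (Q0 H) L ⟨(g : QS), h2⟩ := Subtype.ext rfl
  rw [h3]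
  exact isAlgebraic_algebraMap _

end Pool.Agent.H12.ON
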