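import Pool.Agent.H12.ON.Dep
import Pool.Agent.H12.ON.Uni
import Pool.Agent.H12.ON.Psi
import Pool.Agent.H12.ON.Trf
import Pool.Agent.H12.ON.Res
import Pool.Agent.H12.ON.Aff
import Pool.Agent.H82.NS.Tra

/-! # [H12 ON COR] THE NONSTANDARD THEOREM: two exceptional points are affinely related over `Q0 H`

`k = Q0 H`, `X₁, Y₁, X₂, Y₂` the classes in `QS` (in `ZS`). `trf`: `Cv k QbS n Fh_j`; `trf_ftop`. `zer_pt`, `zer_th`, `zer_big`, `zer_near` for both points. The `cl θ_j` are algebraic over `k`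
(zeros of `ftop n Fh_j ≠ 0`); `psi` in both directions (`Subfield.closure {θ₁ N} = Subfield.closure {θ₂ N}`; `θ_j N` is a zero of `ftop n (F_j N)`, not zero, of degree `≤ n`): `cl θ₁ = ψ₁(cl θ₂)`,
`cl θ₂ = ψ₂(cl θ₁)`. `dep`: `X₂` algebraic over `k(X₁)`, and by symmetry `X₁` over `k(X₂)`.
`L = adjoin k {X₁,Y₁,X₂,Y₂}` in `QS`. `X_j` is transcendental over `k` (not in `V0 H`, which contains the elements algebraic over `k`; `val_alg`); `Y_j` is algebraic over `k(X_j)`: `FF k X₁`, `FF k X₂`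
(`L` is finitely generated and algebraic over `k(X₁)`, so finite). `O = (V0 H).comap (algebraMap L QS)`: over `k`, without `X₁`, `X₂`; `uni` for `X₁` and for `X₂`: `hO1`, `hO2` of `affine_rel`.
`hψ₁`: in `RS`, `Y₁/X₁ ≡ cl θ₁ = ψ₁(cl θ₂) ≡ ψ₁(Y₂/X₂)` modulo the maximal ideal of `VR H` (polynomials with coefficients in `k` respect congruences of elements of `VR H`), then `v0_non`, `comap`. The same for `ψ₂`.
`Ω` = an algebraic closure of `L` embedded in `QbS` (`alg_closed_ult`: take `Ω = algebraicClosure L QbS` as an intermediate field of `QbS/L`, or `AlgebraicClosure L` with `IsAlgClosed.lift`); `res`: `Cv k Ω n Fh_j`.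
`affine_rel` gives `A`, `w` in `L`; map to `QS`. -/

namespace Pool.Agent.H12.ON

open MvPolynomial Pool.Agent.H82.NS Filter IntermediateField

private theorem co_lead {k : Type} [Field k] {n : ℕ} {F : MvPolynomial (Fin 2) k} (hF : Tp k n F) :
    F.coeff (Finsupp.single 1 n) ≠ 0 := by
  have h1 : (ftop n F).leadingCoeff ≠ 0 := Polynomial.leadingCoeff_ne_zero.2 hF.irr.ne_zero
  unfold Polynomial.leadingCoeff at h1
  have h2 : (ftop n F).coeff n = F.coeff (Finsupp.single 0 (n - n) + Finsupp.single 1 n) := by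
    unfold ftop
    rw [Polynomial.finsetSum_coeff]
    rw [Finset.sum_eq_single n]
    · rw [Polynomial.coeff_monomial, if_pos rfl]
    · intro b _ hb
      rw [Polynomial.coeff_monomial, if_neg hb]
    · intro h
      exact absurd (Finset.mem_range.2 (Nat.lt_succ_self n)) h
  rw [hF.top, h2] at h1
  simpa using h1

private theorem co_y {k M : Type} [Field k] [Field M] [Algebra k M] {n : ℕ} {F : MvPolynomial (Fin 2) k}
    (hF : Tp k n F) {x y : M} (h1 : aeval ![x, y] F = 0) : IsAlgebraic k⟮x⟯ y := by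
  classical
  obtain ⟨p, hp⟩ : ∃ p : Polynomial k⟮x⟯, p = ∑ m ∈ F.support, Polynomial.monomial (m 1)
    (algebraMap k k⟮x⟯ (F.coeff m) * (AdjoinSimple.gen k x) ^ (m 0)) := ⟨_, rfl⟩
  refine ⟨p, ?_, ?_⟩
  · intro h0
    have h2 : p.coeff n = algebraMap k k⟮x⟯ (F.coeff (Finsupp.single 1 n)) := by
      rw [hp, Polynomial.finsetSum_coeff, Finset.sum_eq_single (Finsupp.single 1 n)]
      · rw [Polynomial.coeff_monomial, if_pos (by simp)]
        simp
      · intro m hm hne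
        rw [Polynomial.coeff_monomial, if_neg]
        intro h3
        apply hne
        have h4 : m 0 + m 1 ≤ n := by
          have h5 := le_totalDegree hm
          rw [Finsupp.sum_fintype _ _ (fun _ => rfl), Fin.sum_univ_two] at h5
          exact h5.trans hF.deg
        ext i
        fin_cases i
        · simp
          omega
        · simp
          omega
      · intro hm
        rw [MvPolynomial.notMem_support_iff] at hm
        rw [hm]
        simp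
    rw [h0, Polynomial.coeff_zero] at h2
    exact co_lead hF ((map_eq_zero (algebraMap k k⟮x⟯)).1 h2.symm)
  · rw [hp, map_sum]
    rw [MvPolynomial.aeval_def, MvPolynomial.eval₂_eq'] at h1
    rw [← h1]
    refine Finset.sum_congr rfl fun m _ => ?_
    rw [Polynomial.aeval_monomial, Fin.prod_univ_two, map_mul, map_pow, AdjoinSimple.algebraMap_gen,
      ← IsScalarTower.algebraMap_apply, mul_assoc]
    rfl

/-- algebraicity over a simple extension in a subfield -/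
private theorem co_sub {k M : Type} [Field k] [Field M] [Algebra k M] {L : IntermediateField k M} {x z : L}
    (h : IsAlgebraic k⟮(x : M)⟯ (z : M)) : IsAlgebraic k⟮x⟯ z := by
  have hE : k⟮(x : M)⟯ = (k⟮x⟯).map L.val := by
    rw [IntermediateField.adjoin_map, Set.image_singleton]
    rfl
  have hex : ∀ c : k⟮(x : M)⟯, ∃ d : k⟮x⟯, ((d : L) : M) = c := by
    intro c
    have h1 : (c : M) ∈ (k⟮x⟯).map L.val := hE ▸ c.2
    obtain ⟨d, hd, hdc⟩ := h1
    exact ⟨⟨d, hd⟩, hdc⟩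
  choose φ hφ using hex
  have hinj : ∀ a b : k⟮x⟯, ((a : L) : M) = ((b : L) : M) → a = b := fun a b hab =>
    Subtype.ext (Subtype.ext hab)
  let Φ : k⟮(x : M)⟯ →+* k⟮x⟯ :=
    { toFun := φ
      map_one' := hinj _ _ (by rw [hφ]; rfl)
      map_zero' := hinj _ _ (by rw [hφ]; rfl)
      map_mul' := fun a b => hinj _ _ (by
        rw [hφ]
        show (a : M) * (b : M) = ((φ a : L) : M) * ((φ b : L) : M)
        rw [hφ, hφ])
      map_add' := fun a b => hinj _ _ (by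
        rw [hφ]
        show (a : M) + (b : M) = ((φ a : L) : M) + ((φ b : L) : M)
        rw [hφ, hφ]) }
  obtain ⟨p, hp, hpz⟩ := h
  refine ⟨p.map Φ, (Polynomial.map_ne_zero_iff Φ.injective).2 hp, ?_⟩
  apply Subtype.ext
  rw [Polynomial.aeval_def, Polynomial.eval₂_map]
  rw [Polynomial.aeval_def] at hpz
  have h2 := Polynomial.hom_eval₂ p ((algebraMap k⟮x⟯ L).comp Φ) (L.val : L →+* M) z
  have h3 : ((L.val : L →+* M).comp ((algebraMap k⟮x⟯ L).comp Φ)) = algebraMap k⟮(x : M)⟯ M := by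
    refine RingHom.ext fun c => ?_
    exact hφ c
  rw [h3] at h2
  exact h2.trans hpz

private theorem co_ff {k M : Type} [Field k] [Field M] [Algebra k M] {n : ℕ} {F₁ F₂ : MvPolynomial (Fin 2) k}
    (hF₁ : Tp k n F₁) (hF₂ : Tp k n F₂) {X₁ Y₁ X₂ Y₂ : M} (h1 : aeval ![X₁, Y₁] F₁ = 0)
    (h2 : aeval ![X₂, Y₂] F₂ = 0) (ht : Transcendental k X₁) (hd : IsAlgebraic k⟮X₁⟯ X₂)
    {L : IntermediateField k M} (hL : L = IntermediateField.adjoin k {X₁, Y₁, X₂, Y₂}) {x : L}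
    (hx : (x : M) = X₁) : FF k x := by
  subst hx
  have hs : ∀ z ∈ ({(x : M), Y₁, X₂, Y₂} : Set M), z ∈ L := by
    intro z hz
    rw [hL]
    exact IntermediateField.subset_adjoin k _ hz
  obtain ⟨y₁, hy₁⟩ : ∃ y : L, (y : M) = Y₁ := ⟨⟨Y₁, hs _ (by simp)⟩, rfl⟩
  obtain ⟨x₂, hx₂⟩ : ∃ y : L, (y : M) = X₂ := ⟨⟨X₂, hs _ (by simp)⟩, rfl⟩
  obtain ⟨y₂, hy₂⟩ : ∃ y : L, (y : M) = Y₂ := ⟨⟨Y₂, hs _ (by simp)⟩, rfl⟩
  subst hy₁ hx₂ hy₂
  have hev : ∀ (a b : L) (G : MvPolynomial (Fin 2) k), aeval ![(a : M), (b : M)] G = ((aeval ![a, b] G : L) : M) := by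
    intro a b G
    have h3 : (aeval ![(a : M), (b : M)] : MvPolynomial (Fin 2) k →ₐ[k] M) = L.val.comp (aeval ![a, b]) := by
      apply MvPolynomial.algHom_ext
      intro i
      rw [AlgHom.comp_apply, aeval_X, aeval_X]
      fin_cases i <;> rfl
    rw [h3]
    rfl
  rw [hev] at h1 h2
  have h1' : aeval ![x, y₁] F₁ = 0 := Subtype.ext h1
  have h2' : aeval ![x₂, y₂] F₂ = 0 := Subtype.ext h2
  have a1 : IsAlgebraic k⟮x⟯ y₁ := co_y hF₁ h1'
  have a2 : IsAlgebraic k⟮x⟯ x₂ := co_sub hd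
  have a3 : IsAlgebraic k⟮x⟯ y₂ := by
    have h4 : IsAlgebraic k⟮x₂⟯ y₂ := co_y hF₂ h2'
    have hle : k⟮x₂⟯ ≤ (algebraicClosure k⟮x⟯ L).restrictScalars k := by
      rw [IntermediateField.adjoin_le_iff, Set.singleton_subset_iff]
      exact (mem_algebraicClosure_iff (F := k⟮x⟯)).2 a2
    have h5 : IsAlgebraic ((algebraicClosure k⟮x⟯ L).restrictScalars k) y₂ :=
      IsAlgebraic.tower_top_of_subalgebra_le (A := (k⟮x₂⟯).toSubalgebra)
        (B := ((algebraicClosure k⟮x⟯ L).restrictScalars k).toSubalgebra) hle h4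
    have h6 : IsAlgebraic (algebraicClosure k⟮x⟯ L) y₂ := h5
    exact h6.restrictScalars k⟮x⟯
  refine ⟨fun h => ht (h.algHom L.val), ?_⟩
  have htop : IntermediateField.adjoin k⟮x⟯ ({y₁, x₂, y₂} : Set L) = ⊤ := by
    rw [eq_top_iff]
    intro z _
    have h3 : IntermediateField.adjoin k {(x : M), (y₁ : M), (x₂ : M), (y₂ : M)} ≤
        ((IntermediateField.adjoin k⟮x⟯ ({y₁, x₂, y₂} : Set L)).restrictScalars k).map L.val := by
      rw [IntermediateField.adjoin_le_iff]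
      intro w hw
      have hsub : ∀ v ∈ ({y₁, x₂, y₂} : Set L), v ∈ IntermediateField.adjoin k⟮x⟯ ({y₁, x₂, y₂} : Set L) :=
        fun v hv => IntermediateField.subset_adjoin _ _ hv
      rcases hw with rfl | rfl | rfl | rfl
      · exact ⟨x, (IntermediateField.adjoin k⟮x⟯ ({y₁, x₂, y₂} : Set L)).algebraMap_mem
          (AdjoinSimple.gen k x), rfl⟩
      · exact ⟨y₁, hsub _ (by simp), rfl⟩
      · exact ⟨x₂, hsub _ (by simp), rfl⟩
      · exact ⟨y₂, hsub _ (by simp), rfl⟩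
    obtain ⟨v, hv, hvz⟩ := h3 (hL.le z.2)
    have h4 : v = z := Subtype.ext hvz
    rw [← h4]
    exact hv
  have hfin : FiniteDimensional k⟮x⟯ (IntermediateField.adjoin k⟮x⟯ ({y₁, x₂, y₂} : Set L)) := by
    have : Finite ({y₁, x₂, y₂} : Set L) := Set.toFinite _
    refine IntermediateField.finiteDimensional_adjoin fun v hv => ?_
    rcases hv with rfl | rfl | rfl
    · exact a1.isIntegral
    · exact a2.isIntegral
    · exact a3.isIntegral
  rw [htop] at hfin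
  exact Module.Finite.equiv (IntermediateField.topEquiv (F := k⟮x⟯) (E := L)).toLinearEquiv

private theorem co_map {k M : Type} [CommRing k] [CommRing M] (f : k →+* M) (n : ℕ)
    (F : MvPolynomial (Fin 2) k) : ftop n (MvPolynomial.map f F) = (ftop n F).map f := by
  unfold ftop
  rw [Polynomial.map_sum]
  refine Finset.sum_congr rfl fun j _ => ?_
  rw [Polynomial.map_monomial, MvPolynomial.coeff_map]


private theorem co_pol {n : ℕ} (hn : 3 ≤ n) {F : MvPolynomial (Fin 2) ℤ} (hF : Good n F) {θ : ℝ}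
    (hθ : Polynomial.aeval θ (ftop n F) = 0) :
    ∃ p : Polynomial ℚ, p ≠ 0 ∧ p.natDegree ≤ n ∧ Polynomial.aeval θ p = 0 := by
  have h1 : homogeneousComponent n (map (Int.castRingHom ℚ) F) = map (Int.castRingHom ℚ) (homogeneousComponent n F) := by
    ext m
    rw [coeff_homogeneousComponent, coeff_map, coeff_map, coeff_homogeneousComponent]
    split_ifs
    · rfl
    · rw [map_zero]
  have h2 := deh (k := ℚ) (n := n) (by omega) (F := map (Int.castRingHom ℚ) F) (by rw [h1]; exact hF.lead)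
  refine ⟨_, h2.2.ne_zero, h2.1.le, ?_⟩
  rw [co_map]
  exact (Polynomial.aeval_map_algebraMap ℚ θ (ftop n F)).trans hθ

private theorem co_cong {k Ω : Type} [Field k] [Field Ω] [Algebra k Ω] {V : ValuationSubring Ω} (hV : Ov k V)
    {u v : Ω} (hu : u ∈ V) (hv : v ∈ V) (h : u - v ∈ V.nonunits) (ψ : Polynomial k) :
    Polynomial.aeval u ψ - Polynomial.aeval v ψ ∈ V.nonunits := by
  rw [ValuationSubring.mem_nonunits_iff] at h ⊢
  have hu' : V.valuation u ≤ 1 := (V.valuation_le_one_iff u).2 hu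
  have hv' : V.valuation v ≤ 1 := (V.valuation_le_one_iff v).2 hv
  induction ψ using Polynomial.induction_on' with
  | add p q hp hq =>
    rw [map_add, map_add, add_sub_add_comm]
    exact V.valuation.map_add_lt hp hq
  | monomial m a =>
    rw [Polynomial.aeval_monomial, Polynomial.aeval_monomial, ← mul_sub, map_mul]
    have ha : V.valuation (algebraMap k Ω a) ≤ 1 := (V.valuation_le_one_iff _).2 (hV a)
    have hm : V.valuation (u ^ m - v ^ m) < 1 := by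
      induction m with
      | zero => rw [pow_zero, pow_zero, sub_self, map_zero]; exact zero_lt_one
      | succ m ih =>
        have e : u ^ (m + 1) - v ^ (m + 1) = u * (u ^ m - v ^ m) + (u - v) * v ^ m := by ring
        rw [e]
        refine V.valuation.map_add_lt ?_ ?_
        · rw [map_mul]
          exact mul_lt_one_of_nonneg_of_lt_one_right hu' zero_le ih
        · rw [map_mul, map_pow]
          exact mul_lt_one_of_nonneg_of_lt_one_left zero_le h (pow_le_one' hv' m)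
    exact mul_lt_one_of_nonneg_of_lt_one_right ha zero_le hm

private theorem co_non {K M : Type} [Field K] [Field M] [Algebra K M] (V : ValuationSubring M) (z : K) :
    z ∈ (V.comap (algebraMap K M)).nonunits ↔ algebraMap K M z ∈ V.nonunits := by
  rw [ValuationSubring.mem_nonunits_iff_or, ValuationSubring.mem_nonunits_iff_or, ValuationSubring.mem_comap,
    map_inv₀, map_eq_zero]

private theorem co_base (H : ℕ → ℕ) : Ov (Q0 H) (V0 H) := by
  intro e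
  have h : ((|(e : QS)|) : QS) ∈ Q0 H := by
    rcases abs_choice (e : QS) with h | h
    · rw [h]
      exact e.2
    · rw [h]
      exact (Q0 H).neg_mem e.2
  exact ⟨|(e : QS)|, h, le_rfl⟩

private theorem co_psi (H : ℕ → ℕ) {a b : QS} {t u : RS} (ha : algebraMap QS RS a - t ∈ (VR H).nonunits)
    (hb : algebraMap QS RS b - u ∈ (VR H).nonunits) (hu : IsAlgebraic (Q0 H) u) {ψ : Polynomial (Q0 H)}
    (h : t = Polynomial.aeval u ψ) : a - Polynomial.aeval b ψ ∈ (V0 H).nonunits := by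
  rw [v0_non]
  have h1 : u ∈ VR H := val_alg (vr_base H) hu
  have h2 : algebraMap QS RS b ∈ VR H := by
    have h3 : algebraMap QS RS b = (algebraMap QS RS b - u) + u := by ring
    rw [h3]
    exact (VR H).add_mem _ _ (ValuationSubring.nonunits_subset hb) h1
  have h3 := co_cong (vr_base H) h1 h2 (by
    rw [ValuationSubring.mem_nonunits_iff] at hb ⊢
    rw [← Valuation.map_neg, neg_sub]
    exact hb) ψ
  have tw : @IsScalarTower (Q0 H) QS RS Algebra.toSMul Algebra.toSMul Algebra.toSMul :=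
    IsScalarTower.of_algebraMap_eq (R := Q0 H) (S := QS) (A := RS) (fun _ => rfl)
  have h4 : algebraMap QS RS (a - Polynomial.aeval b ψ) = (algebraMap QS RS a - t) +
      (Polynomial.aeval u ψ - Polynomial.aeval (algebraMap QS RS b) ψ) := by
    rw [map_sub, h, Polynomial.aeval_algebraMap_apply]
    ring
  rw [h4]
  rw [ValuationSubring.mem_nonunits_iff] at ha h3 ⊢
  exact (VR H).valuation.map_add_lt ha h3

theorem core {H : ℕ → ℕ} {n : ℕ} (hn : 3 ≤ n) {F₁ F₂ : ℕ → MvPolynomial (Fin 2) ℤ}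
    (hF₁ : ∀ N, Good n (F₁ N)) (hF₂ : ∀ N, Good n (F₂ N)) {Fh₁ Fh₂ : MvPolynomial (Fin 2) (Q0 H)}
    (hU₁ : IsU H n F₁ Fh₁) (hU₂ : IsU H n F₂ Fh₂) {x₁ y₁ x₂ y₂ : ℕ → ℤ}
    (h1 : ∀ N, aeval ![x₁ N, y₁ N] (F₁ N) = (0 : ℤ)) (h2 : ∀ N, aeval ![x₂ N, y₂ N] (F₂ N) = (0 : ℤ))
    (hb₁ : ∀ C : ℕ, ∀ᶠ N in UU, ((H N + 2 : ℕ) : ℤ) ^ C ≤ |x₁ N|)
    (hb₂ : ∀ C : ℕ, ∀ᶠ N in UU, ((H N + 2 : ℕ) : ℤ) ^ C ≤ |x₂ N|) {θ₁ θ₂ : ℕ → ℝ}
    (hθ₁ : ∀ N, Polynomial.aeval (θ₁ N) (ftop n (F₁ N)) = 0)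
    (hθ₂ : ∀ N, Polynomial.aeval (θ₂ N) (ftop n (F₂ N)) = 0)
    (hθ : ∀ N, Subfield.closure {θ₁ N} = Subfield.closure {θ₂ N})
    (hn₁ : ∀ N, Near (θ₁ N) (x₁ N) (y₁ N)) (hn₂ : ∀ N, Near (θ₂ N) (x₂ N) (y₂ N)) {C : ℕ} (hC : 1 ≤ C)
    (h21 : ∀ N, 2 ≤ |x₁ N|) (h22 : ∀ N, 2 ≤ |x₂ N|) (h12 : ∀ N, |x₁ N| ≤ |x₂ N| ^ C)
    (h12' : ∀ N, |x₂ N| ≤ |x₁ N| ^ C) :
    ∃ (A : Matrix (Fin 2) (Fin 2) (Q0 H)) (w : Fin 2 → Q0 H), A.det ≠ 0 ∧
      (cl (fun N => (x₂ N : ℚ)) : QS) = (A 0 0 : QS) * cl (fun N => (x₁ N : ℚ)) +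
        (A 0 1 : QS) * cl (fun N => (y₁ N : ℚ)) + (w 0 : QS) ∧
      (cl (fun N => (y₂ N : ℚ)) : QS) = (A 1 0 : QS) * cl (fun N => (x₁ N : ℚ)) +
        (A 1 1 : QS) * cl (fun N => (y₁ N : ℚ)) + (w 1 : QS) := by
  obtain ⟨X₁, hX₁⟩ : ∃ z : QS, z = cl (fun N => (x₁ N : ℚ)) := ⟨_, rfl⟩
  obtain ⟨Y₁, hY₁⟩ : ∃ z : QS, z = cl (fun N => (y₁ N : ℚ)) := ⟨_, rfl⟩
  obtain ⟨X₂, hX₂⟩ : ∃ z : QS, z = cl (fun N => (x₂ N : ℚ)) := ⟨_, rfl⟩
  obtain ⟨Y₂, hY₂⟩ : ∃ z : QS, z = cl (fun N => (y₂ N : ℚ)) := ⟨_, rfl⟩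
  have c1 : Cv (Q0 H) QbS n Fh₁ := trf hn hF₁ hU₁
  have c2 : Cv (Q0 H) QbS n Fh₂ := trf hn hF₂ hU₂
  have z1 := zer_pt (fun N => (hF₁ N).deg) hU₁ h1
  have z2 := zer_pt (fun N => (hF₂ N).deg) hU₂ h2
  have t1 : Polynomial.aeval (cl θ₁ : RS) (ftop n Fh₁) = 0 := zer_th hU₁ hθ₁
  have t2 : Polynomial.aeval (cl θ₂ : RS) (ftop n Fh₂) = 0 := zer_th hU₂ hθ₂
  have b1 := zer_big hb₁
  have b2 := zer_big hb₂
  have n1 := zer_near hb₁ hn₁
  have n2 := zer_near hb₂ hn₂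
  have alg1 : IsAlgebraic (Q0 H) (cl θ₁ : RS) := ⟨ftop n Fh₁, c1.irr.ne_zero, t1⟩
  have alg2 : IsAlgebraic (Q0 H) (cl θ₂ : RS) := ⟨ftop n Fh₂, c2.irr.ne_zero, t2⟩
  obtain ⟨ψ₁, p1⟩ := psi H n alg1 alg2 (fun N => co_pol hn (hF₂ N) (hθ₂ N)) (fun N => by
    rw [← hθ N]
    exact Subfield.subset_closure rfl)
  obtain ⟨ψ₂, p2⟩ := psi H n alg2 alg1 (fun N => co_pol hn (hF₁ N) (hθ₁ N)) (fun N => by
    rw [hθ N]
    exact Subfield.subset_closure rfl)
  have d1 := dep c1.toTp c2.toTp (trf_ftop hn hF₂ hU₂) z1 z2 b1 b2 t1 t2 n1 n2 p2 hC h21 h22 h12 h12'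
  have d2 := dep c2.toTp c1.toTp (trf_ftop hn hF₁ hU₁) z2 z1 b2 b1 t2 t1 n2 n1 p1 hC h22 h21 h12' h12
  have s1 := co_psi H n1 n2 alg2 p1
  have s2 := co_psi H n2 n1 alg1 p2
  have zs1 : X₁ ∈ ZS := hX₁ ▸ mem_zs.2 ⟨x₁, rfl⟩
  have zs2 : X₂ ∈ ZS := hX₂ ▸ mem_zs.2 ⟨x₂, rfl⟩
  rw [← hX₁, ← hY₁] at z1
  rw [← hX₂, ← hY₂] at z2
  rw [← hX₁] at b1
  rw [← hX₂] at b2
  rw [← hX₁, ← hX₂] at d1 d2
  rw [← hX₁, ← hY₁, ← hX₂, ← hY₂] at s1 s2
  rw [← hX₁, ← hY₁, ← hX₂, ← hY₂]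
  have tr1 : Transcendental (Q0 H) X₁ := fun h => b1 (val_alg (co_base H) h)
  have tr2 : Transcendental (Q0 H) X₂ := fun h => b2 (val_alg (co_base H) h)
  obtain ⟨L, hL⟩ : ∃ L : IntermediateField (Q0 H) QS, L = IntermediateField.adjoin (Q0 H) {X₁, Y₁, X₂, Y₂} :=
    ⟨_, rfl⟩
  have hL' : L = IntermediateField.adjoin (Q0 H) {X₂, Y₂, X₁, Y₁} := by
    rw [hL]
    congr 1
    ext z
    simp only [Set.mem_insert_iff, Set.mem_singleton_iff]
    tauto
  have hs : ∀ z ∈ ({X₁, Y₁, X₂, Y₂} : Set QS), z ∈ L := by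
    intro z hz
    rw [hL]
    exact IntermediateField.subset_adjoin _ _ hz
  obtain ⟨a₁, ha₁⟩ : ∃ y : L, (y : QS) = X₁ := ⟨⟨X₁, hs _ (by simp)⟩, rfl⟩
  obtain ⟨e₁, he₁⟩ : ∃ y : L, (y : QS) = Y₁ := ⟨⟨Y₁, hs _ (by simp)⟩, rfl⟩
  obtain ⟨a₂, ha₂⟩ : ∃ y : L, (y : QS) = X₂ := ⟨⟨X₂, hs _ (by simp)⟩, rfl⟩
  obtain ⟨e₂, he₂⟩ : ∃ y : L, (y : QS) = Y₂ := ⟨⟨Y₂, hs _ (by simp)⟩, rfl⟩
  have f1 : FF (Q0 H) a₁ := co_ff c1.toTp c2.toTp z1 z2 tr1 d1 hL ha₁
  have f2 : FF (Q0 H) a₂ := co_ff c2.toTp c1.toTp z2 z1 tr2 d2 hL' ha₂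
  have hev : ∀ (a b : L) (G : MvPolynomial (Fin 2) (Q0 H)), aeval ![(a : QS), (b : QS)] G = ((aeval ![a, b] G : L) : QS) := by
    intro a b G
    have h3 : (aeval ![(a : QS), (b : QS)] : MvPolynomial (Fin 2) (Q0 H) →ₐ[Q0 H] QS) = L.val.comp (aeval ![a, b]) := by
      apply MvPolynomial.algHom_ext
      intro i
      rw [AlgHom.comp_apply, aeval_X, aeval_X]
      fin_cases i <;> rfl
    rw [h3]
    rfl
  have w1 : aeval ![a₁, e₁] Fh₁ = 0 := by
    apply Subtype.ext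
    rw [← hev, ha₁, he₁, z1]
    rfl
  have w2 : aeval ![a₂, e₂] Fh₂ = 0 := by
    apply Subtype.ext
    rw [← hev, ha₂, he₂, z2]
    rfl
  have hac := alg_closed_ult
  obtain ⟨Ω, hΩ⟩ : ∃ Ω : IntermediateField L QbS, Ω = algebraicClosure L QbS := ⟨_, rfl⟩
  have hcl : IsAlgClosed Ω := by
    rw [hΩ]
    have h2 : IsAlgClosure L (algebraicClosure L QbS) := inferInstance
    exact h2.isAlgClosed
  have hal : Algebra.IsAlgebraic L Ω := by
    rw [hΩ]
    have h2 : IsAlgClosure L (algebraicClosure L QbS) := inferInstance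
    exact h2.isAlgebraic
  let algΩ : Algebra (Q0 H) Ω := ((algebraMap L Ω).comp (algebraMap (Q0 H) L)).toAlgebra
  have tw1 : IsScalarTower (Q0 H) L Ω := IsScalarTower.of_algebraMap_eq fun _ => rfl
  have tw2 : @IsScalarTower (Q0 H) Ω QbS Algebra.toSMul Algebra.toSMul Algebra.toSMul :=
    IsScalarTower.of_algebraMap_eq (R := Q0 H) (S := Ω) (A := QbS) fun _ => rfl
  have r1 : Cv (Q0 H) Ω n Fh₁ := res (Ω' := QbS) c1
  have r2 : Cv (Q0 H) Ω n Fh₂ := res (Ω' := QbS) c2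
  have hO : Ov (Q0 H) ((V0 H).comap (algebraMap L QS)) := by
    intro e
    rw [ValuationSubring.mem_comap]
    exact co_base H e
  have hx1 : a₁ ∉ (V0 H).comap (algebraMap L QS) := by
    rw [ValuationSubring.mem_comap]
    intro h
    exact b1 (ha₁ ▸ h)
  have hx2 : a₂ ∉ (V0 H).comap (algebraMap L QS) := by
    rw [ValuationSubring.mem_comap]
    intro h
    exact b2 (ha₂ ▸ h)
  have hO1 : ∀ W : ValuationSubring L, Ov (Q0 H) W → a₁ ∉ W → W = (V0 H).comap (algebraMap L QS) :=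
    fun W hW hn => uni H L a₁ (ha₁.symm ▸ zs1) (ha₁.symm ▸ b1) f1 W hW hn
  have hO2 : ∀ W : ValuationSubring L, Ov (Q0 H) W → a₂ ∉ W → W = (V0 H).comap (algebraMap L QS) :=
    fun W hW hn => uni H L a₂ (ha₂.symm ▸ zs2) (ha₂.symm ▸ b2) f2 W hW hn
  have q1 : e₁ / a₁ - Polynomial.aeval (e₂ / a₂) ψ₁ ∈ ((V0 H).comap (algebraMap L QS)).nonunits := by
    rw [co_non, map_sub, ← Polynomial.aeval_algebraMap_apply, map_div₀, map_div₀]
    rw [← ha₁, ← he₁, ← ha₂, ← he₂] at s1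
    exact s1
  have q2 : e₂ / a₂ - Polynomial.aeval (e₁ / a₁) ψ₂ ∈ ((V0 H).comap (algebraMap L QS)).nonunits := by
    rw [co_non, map_sub, ← Polynomial.aeval_algebraMap_apply, map_div₀, map_div₀]
    rw [← ha₁, ← he₁, ← ha₂, ← he₂] at s2
    exact s2
  obtain ⟨A, w, hA, g1, g2⟩ := affine_rel (Ω := Ω) r1 r2 w1 w2 f1 hal hO hx1 hx2 hO1 hO2 q1 q2
  refine ⟨A, w, hA, ?_, ?_⟩
  · have h3 := congrArg (fun z : L => (z : QS)) g1
    rw [← ha₁, ← he₁, ← ha₂]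
    exact h3
  · have h3 := congrArg (fun z : L => (z : QS)) g2
    rw [← ha₁, ← he₁, ← he₂]
    exact h3

end Pool.Agent.H12.ON
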