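import Pool.Agent.H12.ON.Nd
import Pool.Agent.H12.ON.Deh
import Pool.Agent.H34.AC.RedR

/-! # [H12 ON CPA] A curve with irreducible leading form as a `CrvA` with known embeddings

`c = coeff of y^n` (not zero: the leading form is irreducible, `n ≥ 4`), `F' = Fa n c F` = the array of `c^(n-1) F(x, y/c)`, monic in `y` of degree `n`, total degree `≤ n`, `|F' i j| ≤ H^n`.
Proof: follow `red_raw` (H34/AC/RedR.lean, lines 255-330) with `D := n` and this array in place of `Ft …` and `B = H^n`: `FQ n F'` is irreducible (`F` is irreducible over `ℚ`: a factorisation of `F` gives one of the irreducible leading form;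
`F'` comes from `F` by the invertible substitution `y ↦ y/c` and a constant; `FQ` is the polynomial in `ℚ[X][X]`), `fI_bd`, `fI_monic`, `fI_sqf`, `disc_bd`, `exists_pdata_bd`, and a bound `bR n (H^n) ≤ H^C` (as `bR_le`; any `C` depending on `n`).
The embeddings: the split `fI n F'` at `t = 0`: `∑_j F'(n-j,j) Z^j = ∏_i (Z - x_i(0))`, `x_i = Q.pd.x i`, and `F'(n-j,j) = c^(n-1-j) coeff(n-j,j)`, so `x_i(0)/c` is a zero of `ftop n F` (constant coefficients of the identity `pd.split`; `tq e q` maps `X` to `(q X)^e`, constant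
coefficient `0`). `k = ℚ(θ)`, `θ` a zero of the irreducible `ftop n F` (`deh`): there is exactly one embedding `kap i : k → ℂ` with `θ ↦ x_i(0)/c`. `gal`: two ring homomorphisms `k → ℂ` which agree at `θ` are equal: `σ(kap i θ) = σ(x_i(0)/c) = x_j(0)/c = kap j θ`
(`σ` is defined on the algebraic numbers `AA`, which contain `kap i (k)`). `rot`: `rescale ζ` does not change the constant coefficient. -/

namespace Pool.Agent.H12.ON

open MvPolynomial Pool.Agent.H8.AW Pool.Agent.H87.SA2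

/-- the array of `c^(n-1) F(x, y/c)`, `c` the coefficient of `y^n` -/
noncomputable def Fa (n : ℕ) (F : MvPolynomial (Fin 2) ℤ) : ℕ → ℕ → ℤ := fun i j =>
  if j < n then (F.coeff (Finsupp.single 1 n)) ^ (n - 1 - j) * F.coeff (Finsupp.single 0 i + Finsupp.single 1 j)
  else if j = n ∧ i = 0 then 1 else 0

private theorem ftop_coeff {k : Type} [CommRing k] (n : ℕ) (F : MvPolynomial (Fin 2) k) (j : ℕ) :
    (ftop n F).coeff j =
      if j < n + 1 then F.coeff (Finsupp.single 0 (n - j) + Finsupp.single 1 j) else 0 := by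
  unfold ftop
  rw [Polynomial.finsetSum_coeff]
  simp only [Polynomial.coeff_monomial]
  rw [Finset.sum_ite_eq' (Finset.range (n + 1)) j]
  simp only [Finset.mem_range]

private theorem ftop_map {k l : Type} [CommRing k] [CommRing l] (f : k →+* l) (n : ℕ)
    (F : MvPolynomial (Fin 2) k) : ftop n (map f F) = (ftop n F).map f := by
  ext j
  rw [Polynomial.coeff_map, ftop_coeff, ftop_coeff]
  split_ifs
  · rw [coeff_map]
  · rw [map_zero]

private theorem hc_map {k l : Type} [CommRing k] [CommRing l] (f : k →+* l) (n : ℕ)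
    (F : MvPolynomial (Fin 2) k) :
    homogeneousComponent n (map f F) = map f (homogeneousComponent n F) := by
  ext m
  rw [coeff_homogeneousComponent, coeff_map, coeff_map, coeff_homogeneousComponent]
  split_ifs
  · rfl
  · rw [map_zero]

private theorem fa_mul {n : ℕ} (hn : 1 ≤ n) (F : MvPolynomial (Fin 2) ℤ) (i j : ℕ) (hij : i + j ≤ n) :
    Fa n F i j * (F.coeff (Finsupp.single 1 n)) ^ j = (F.coeff (Finsupp.single 1 n)) ^ (n - 1) *
      F.coeff (Finsupp.single 0 i + Finsupp.single 1 j) := by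
  unfold Fa
  split_ifs with h1 h2
  · rw [mul_right_comm, ← pow_add]
    congr 2
    omega
  · obtain ⟨rfl, rfl⟩ := h2
    rw [Finsupp.single_zero, zero_add, one_mul, ← pow_succ]
    congr 1
    omega
  · omega

/-- the value as a double sum -/
private theorem vl_sum {n : ℕ} {F : MvPolynomial (Fin 2) ℤ} (hF : F.totalDegree ≤ n) {S : Type*}
    [CommRing S] (x y : S) : H34.AC.vl F x y =
      ∑ i ∈ Finset.range (n + 1), ∑ j ∈ Finset.range (n + 1 - i),
        ((F.coeff (Finsupp.single 0 i + Finsupp.single 1 j) : ℤ) : S) * (x ^ i * y ^ j) := by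
  rw [H34.AC.vl_eq, Finset.sum_sigma']
  symm
  have h2 : ∀ p : (_ : ℕ) × ℕ, (Finsupp.single 0 p.1 + Finsupp.single 1 p.2 : Fin 2 →₀ ℕ) 0 = p.1 := by
    intro p; simp
  have h3 : ∀ p : (_ : ℕ) × ℕ, (Finsupp.single 0 p.1 + Finsupp.single 1 p.2 : Fin 2 →₀ ℕ) 1 = p.2 := by
    intro p; simp
  refine Finset.sum_bij_ne_zero (fun p _ _ => (Finsupp.single 0 p.1 + Finsupp.single 1 p.2 : Fin 2 →₀ ℕ)) ?_ ?_ ?_ ?_
  · intro p hp hne
    rw [mem_support_iff]
    intro h0
    apply hne
    rw [h0, Int.cast_zero, zero_mul]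
  · rintro ⟨a, b⟩ _ _ ⟨c, d⟩ _ _ hab
    have e1 : a = c := by simpa using congrArg (fun m => m 0) hab
    have e2 : b = d := by simpa using congrArg (fun m => m 1) hab
    subst e1 e2
    rfl
  · intro m hm hne
    have h1 := H34.AC.two_mem hF hm
    have h4 : (Finsupp.single 0 (m 0) + Finsupp.single 1 (m 1) : Fin 2 →₀ ℕ) = m := by
      ext i
      fin_cases i
      · simp
      · simp
    refine ⟨⟨m 0, m 1⟩, ?_, ?_, h4⟩
    · rw [Finset.mem_sigma, Finset.mem_range, Finset.mem_range]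
      constructor <;> dsimp only <;> omega
    · dsimp only
      rw [h4]
      exact hne
  · intro p hp hne
    rw [h2, h3]

private theorem fa_evs {n : ℕ} (hn : 1 ≤ n) {F : MvPolynomial (Fin 2) ℤ} (hF : F.totalDegree ≤ n) {S : Type*}
    [CommRing S] (x y : S) : H72.ES.ev n (H72.ES.cst S (Fa n F)) x ((F.coeff (Finsupp.single 1 n) : ℤ) * y) =
      ((F.coeff (Finsupp.single 1 n) : ℤ) : S) ^ (n - 1) * H34.AC.vl F x y := by
  rw [vl_sum hF, H72.ES.ev, Finset.mul_sum]
  refine Finset.sum_congr rfl fun i hi => ?_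
  rw [Finset.mul_sum]
  refine Finset.sum_congr rfl fun j hj => ?_
  rw [Finset.mem_range] at hi hj
  have h1 := fa_mul hn F i j (by omega)
  have h2 := congrArg (fun z : ℤ => (z : S)) h1
  simp only [Int.cast_mul, Int.cast_pow] at h2
  rw [H72.ES.cst, mul_pow]
  calc _ = (((Fa n F i j : ℤ) : S) * ((F.coeff (Finsupp.single 1 n) : ℤ) : S) ^ j) * (x ^ i * y ^ j) := by ring
    _ = _ := by rw [h2]; ring

/-- the array and the polynomial -/
theorem fa_ev {n : ℕ} (hn : 4 ≤ n) {F : MvPolynomial (Fin 2) ℤ} (hF : F.totalDegree ≤ n) {x y : ℤ}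
    (h : aeval ![x, y] F = (0 : ℤ)) :
    Pool.Agent.H72.ES.ev n (Fa n F) x (F.coeff (Finsupp.single 1 n) * y) = 0 := by
  have h1 := fa_evs (by omega : 1 ≤ n) hF x y
  have h2 : H34.AC.vl F x y = 0 := h
  rw [h2, mul_zero] at h1
  rw [← h1]
  rfl

/-! ### Irreducibility -/

private theorem hcm {a b : ℕ} {A B : MvPolynomial (Fin 2) ℚ} (hA : A.totalDegree ≤ a) (hB : B.totalDegree ≤ b) :
    homogeneousComponent (a + b) (A * B) = homogeneousComponent a A * homogeneousComponent b B := by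
  have key : ∀ {a : ℕ} {A : MvPolynomial (Fin 2) ℚ}, A.totalDegree ≤ a →
      ∑ i ∈ Finset.range (a + 1), homogeneousComponent i A = A := by
    intro a A hA
    conv_rhs => rw [← sum_homogeneousComponent A]
    symm
    refine Finset.sum_subset (Finset.range_mono (by omega)) fun i _ hi => ?_
    rw [Finset.mem_range] at hi
    exact homogeneousComponent_eq_zero _ _ (by omega)
  conv_lhs => rw [← key hA, ← key hB]
  rw [Finset.sum_mul_sum, map_sum, Finset.sum_eq_single a]
  · rw [map_sum, Finset.sum_eq_single b]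
    · rw [homogeneousComponent_of_mem
        ((homogeneousComponent_isHomogeneous a A).mul (homogeneousComponent_isHomogeneous b B)), if_pos rfl]
    · intro j hj hne
      rw [homogeneousComponent_of_mem
        ((homogeneousComponent_isHomogeneous a A).mul (homogeneousComponent_isHomogeneous j B)), if_neg (by omega)]
    · intro h
      exact absurd (Finset.mem_range.2 (by omega)) h
  · intro i hi hne
    rw [map_sum]
    refine Finset.sum_eq_zero fun j hj => ?_
    rw [Finset.mem_range] at hi hj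
    rw [homogeneousComponent_of_mem
      ((homogeneousComponent_isHomogeneous i A).mul (homogeneousComponent_isHomogeneous j B)), if_neg (by omega)]
  · intro h
    exact absurd (Finset.mem_range.2 (by omega)) h

private theorem irr_of_lead {n : ℕ} (hn : 1 ≤ n) {P : MvPolynomial (Fin 2) ℚ} (hP : P.totalDegree ≤ n)
    (h : Irreducible (homogeneousComponent n P)) : Irreducible P := by
  have hnu : ∀ {a : ℕ} {Q : MvPolynomial (Fin 2) ℚ}, 1 ≤ a → ¬ IsUnit (homogeneousComponent a Q) := by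
    intro a Q ha hu
    have h1 : IsUnit (constantCoeff (homogeneousComponent a Q)) := hu.map constantCoeff
    have h2 : constantCoeff (homogeneousComponent a Q) = 0 := by
      rw [constantCoeff_eq]
      apply (homogeneousComponent_isHomogeneous a Q).coeff_eq_zero
      simp
      omega
    rw [h2] at h1
    exact not_isUnit_zero h1
  have hP0 : P ≠ 0 := by
    rintro rfl
    rw [map_zero] at h
    exact not_irreducible_zero h
  have hdeg : P.totalDegree = n := by
    by_contra hne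
    rw [homogeneousComponent_eq_zero _ _ (by omega)] at h
    exact not_irreducible_zero h
  have hu : ∀ {Q : MvPolynomial (Fin 2) ℚ}, Q ≠ 0 → Q.totalDegree = 0 → IsUnit Q := by
    intro Q hQ0 hQ
    rw [totalDegree_eq_zero_iff_eq_C] at hQ
    rw [hQ]
    refine (isUnit_iff_ne_zero.2 ?_).map C
    intro h0
    rw [h0, map_zero] at hQ
    exact hQ0 hQ
  refine ⟨?_, ?_⟩
  · intro hu
    obtain ⟨Q, hQ⟩ := hu.exists_right_inv
    have hQ0 : Q ≠ 0 := by
      rintro rfl
      rw [mul_zero] at hQ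
      exact zero_ne_one hQ
    have h1 := totalDegree_mul_of_isDomain hP0 hQ0
    rw [hQ, hdeg, totalDegree_one] at h1
    omega
  · intro A B hAB
    have hA0 : A ≠ 0 := by
      rintro rfl
      exact hP0 (by rw [hAB, zero_mul])
    have hB0 : B ≠ 0 := by
      rintro rfl
      exact hP0 (by rw [hAB, mul_zero])
    have h1 := totalDegree_mul_of_isDomain hA0 hB0
    rw [← hAB, hdeg] at h1
    have h2 := hcm (le_refl A.totalDegree) (le_refl B.totalDegree)
    rw [← hAB, ← h1] at h2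
    rcases h.isUnit_or_isUnit h2 with h3 | h3
    · left
      apply hu hA0
      by_contra h4
      exact hnu (by omega) h3
    · right
      apply hu hB0
      by_contra h4
      exact hnu (by omega) h3

/-- the isomorphism -/
private theorem exists_iso' (a : ℚ) (ha : a ≠ 0) :
    ∃ Φ : MvPolynomial (Fin 2) ℚ ≃+* Polynomial (Polynomial ℚ),
      Φ (X 0) = Polynomial.C Polynomial.X ∧
      Φ (X 1) = Polynomial.C (Polynomial.C a⁻¹) * Polynomial.X := by
  obtain ⟨f, hf⟩ : ∃ f : MvPolynomial (Fin 2) ℚ →+* Polynomial (Polynomial ℚ),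
      f = eval₂Hom ((Polynomial.C : Polynomial ℚ →+* Polynomial (Polynomial ℚ)).comp (Polynomial.C : ℚ →+* Polynomial ℚ))
        ![Polynomial.C Polynomial.X, Polynomial.C (Polynomial.C a⁻¹) * Polynomial.X] := ⟨_, rfl⟩
  obtain ⟨g0, hg0⟩ : ∃ g0 : Polynomial ℚ →+* MvPolynomial (Fin 2) ℚ,
      g0 = Polynomial.eval₂RingHom C (X 0) := ⟨_, rfl⟩
  obtain ⟨g, hg⟩ : ∃ g : Polynomial (Polynomial ℚ) →+* MvPolynomial (Fin 2) ℚ,
      g = Polynomial.eval₂RingHom g0 (C a * X 1) := ⟨_, rfl⟩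
  have hf0 : f (X 0) = Polynomial.C Polynomial.X := by
    rw [hf, coe_eval₂Hom, eval₂_X]
    rfl
  have hf1 : f (X 1) = Polynomial.C (Polynomial.C a⁻¹) * Polynomial.X := by
    rw [hf, coe_eval₂Hom, eval₂_X]
    rfl
  have hfC : ∀ r, f (C r) = Polynomial.C (Polynomial.C r) := by
    intro r
    rw [hf, coe_eval₂Hom, eval₂_C]
    rfl
  have hgX : g Polynomial.X = C a * X 1 := by
    rw [hg, Polynomial.coe_eval₂RingHom, Polynomial.eval₂_X]
  have hgCX : g (Polynomial.C Polynomial.X) = X 0 := by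
    rw [hg, Polynomial.coe_eval₂RingHom, Polynomial.eval₂_C, hg0, Polynomial.coe_eval₂RingHom, Polynomial.eval₂_X]
  have hgCC : ∀ r, g (Polynomial.C (Polynomial.C r)) = C r := by
    intro r
    rw [hg, Polynomial.coe_eval₂RingHom, Polynomial.eval₂_C, hg0, Polynomial.coe_eval₂RingHom, Polynomial.eval₂_C]
  have h1 : f.comp g = RingHom.id _ := by
    refine Polynomial.ringHom_ext' ?_ ?_
    · refine Polynomial.ringHom_ext ?_ ?_
      · intro r
        rw [RingHom.comp_apply, RingHom.comp_apply, hgCC, hfC]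
        rfl
      · rw [RingHom.comp_apply, RingHom.comp_apply, hgCX, hf0]
        rfl
    · rw [RingHom.comp_apply, hgX, map_mul, hf1, hfC, ← mul_assoc, ← Polynomial.C_mul, ← Polynomial.C_mul,
        mul_inv_cancel₀ ha, Polynomial.C_1, Polynomial.C_1, one_mul]
      rfl
  have h2 : g.comp f = RingHom.id _ := by
    refine ringHom_ext ?_ ?_
    · intro r
      rw [RingHom.comp_apply, hfC, hgCC]
      rfl
    · intro i
      fin_cases i
      · change g (f (X 0)) = X 0
        rw [hf0, hgCX]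
      · change g (f (X 1)) = X 1
        rw [hf1, map_mul, hgCC, hgX, ← mul_assoc, ← C_mul, inv_mul_cancel₀ ha, C_1, one_mul]
  exact ⟨RingEquiv.ofRingHom f g h1 h2, hf0, hf1⟩

private theorem fa_irr {n : ℕ} (hn : 1 ≤ n) {F : MvPolynomial (Fin 2) ℤ} (hF : F.totalDegree ≤ n)
    (hc : F.coeff (Finsupp.single 1 n) ≠ 0) (hirr : Irreducible (map (Int.castRingHom ℚ) F)) :
    Irreducible (FQ n (Fa n F)) := by
  obtain ⟨c, hcd⟩ : ∃ c, c = F.coeff (Finsupp.single 1 n) := ⟨_, rfl⟩
  rw [← hcd] at hc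
  have haQ : (c : ℚ) ≠ 0 := by exact_mod_cast hc
  obtain ⟨Φ, h0, h1⟩ := exists_iso' (c : ℚ) haQ
  have h2 : Φ (map (Int.castRingHom ℚ) F) =
      H34.AC.vl F (Polynomial.C Polynomial.X : Polynomial (Polynomial ℚ))
        (Polynomial.C (Polynomial.C (c : ℚ)⁻¹) * Polynomial.X) := by
    have h3 := H34.AC.vl_hom (Φ : MvPolynomial (Fin 2) ℚ →+* Polynomial (Polynomial ℚ)) F (X 0) (X 1)
    rw [RingHom.coe_coe] at h3
    have h4 : map (Int.castRingHom ℚ) F = H34.AC.vl F (X 0 : MvPolynomial (Fin 2) ℚ) (X 1) := by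
      have h5 : (map (Int.castRingHom ℚ) : MvPolynomial (Fin 2) ℤ →+* _) =
          eval₂Hom (Int.castRingHom (MvPolynomial (Fin 2) ℚ)) ![X 0, X 1] := by
        refine ringHom_ext (fun r => ?_) (fun i => ?_)
        · simp
        · rw [map_X, coe_eval₂Hom, eval₂_X]
          fin_cases i <;> rfl
      rw [h5]
      rfl
    rw [h4, h3, h0, h1]
  have h6 : ((c : ℤ) : Polynomial (Polynomial ℚ)) = Polynomial.C (Polynomial.C (c : ℚ)) := by simp
  have h3 : FQ n (Fa n F) = ((c : ℤ) : Polynomial (Polynomial ℚ)) ^ (n - 1) * Φ (map (Int.castRingHom ℚ) F) := by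
    rw [h2, hcd, ← fa_evs hn hF, H34.AC.FQ_ev, ← hcd]
    congr 1
    rw [h6, ← mul_assoc, ← Polynomial.C_mul, ← Polynomial.C_mul, mul_inv_cancel₀ haQ, Polynomial.C_1,
      Polynomial.C_1, one_mul]
  rw [h3]
  have h4 : IsUnit (((c : ℤ) : Polynomial (Polynomial ℚ)) ^ (n - 1)) := by
    apply IsUnit.pow
    rw [h6]
    exact (isUnit_iff_ne_zero.2 haQ).map (Polynomial.C.comp Polynomial.C)
  rw [irreducible_isUnit_mul h4, MulEquiv.irreducible_iff]
  exact hirr

/-! ### The leading form -/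

private theorem lead_q {n : ℕ} (hn : 2 ≤ n) {F : MvPolynomial (Fin 2) ℤ}
    (h : Irreducible (map (Int.castRingHom ℚ) (homogeneousComponent n F))) :
    F.coeff (Finsupp.single 1 n) ≠ 0 ∧ Irreducible ((ftop n F).map (Int.castRingHom ℚ)) := by
  rw [← hc_map] at h
  obtain ⟨hdeg, hirr⟩ := deh hn h
  rw [ftop_map] at hdeg hirr
  refine ⟨?_, hirr⟩
  intro h0
  have h1 : ((ftop n F).map (Int.castRingHom ℚ)).leadingCoeff ≠ 0 :=
    Polynomial.leadingCoeff_ne_zero.2 hirr.ne_zero
  rw [Polynomial.leadingCoeff, hdeg, Polynomial.coeff_map, ftop_coeff, if_pos (by omega), Nat.sub_self,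
    Finsupp.single_zero, zero_add, h0, map_zero] at h1
  exact h1 rfl

/-- the constant coefficients of the expansions -/
private theorem root0 {n : ℕ} (hn : 1 ≤ n) {F : MvPolynomial (Fin 2) ℤ}
    (hc : F.coeff (Finsupp.single 1 n) ≠ 0) (pd : PData (fI n (Fa n F)) n) (i : Fin n) :
    Polynomial.aeval (PowerSeries.constantCoeff (pd.x i) / ((F.coeff (Finsupp.single 1 n) : ℤ) : ℂ)) (ftop n F) = 0 := by
  obtain ⟨c, hcd⟩ : ∃ c, c = F.coeff (Finsupp.single 1 n) := ⟨_, rfl⟩
  rw [← hcd] at hc ⊢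
  have hcC : ((c : ℤ) : ℂ) ≠ 0 := by exact_mod_cast hc
  obtain ⟨z, hz⟩ : ∃ z, z = PowerSeries.constantCoeff (pd.x i) := ⟨_, rfl⟩
  rw [← hz]
  obtain ⟨w, hw⟩ : ∃ w, w = z / (c : ℂ) := ⟨_, rfl⟩
  have hzw : z = w * c := by rw [hw, div_mul_cancel₀ _ hcC]
  rw [← hw]
  have h1 := congrArg (fun p => (p.map (PowerSeries.constantCoeff : PowerSeries ℂ →+* ℂ)).eval z) pd.split
  rw [Polynomial.map_prod, Polynomial.eval_prod, Finset.prod_eq_zero (Finset.mem_univ i) (by
    rw [Polynomial.map_sub, Polynomial.map_X, Polynomial.map_C, Polynomial.eval_sub, Polynomial.eval_X,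
      Polynomial.eval_C, hz, sub_self]), Polynomial.map_map] at h1
  have h2 : (PowerSeries.constantCoeff : PowerSeries ℂ →+* ℂ).comp (tq pd.e pd.q) =
      (Int.castRingHom ℂ).comp (Polynomial.evalRingHom (0 : ℤ)) := by
    apply Polynomial.ringHom_ext
    · intro a
      simp [tq]
    · have he := pd.e_pos
      simp [tq, zero_pow (by omega : pd.e ≠ 0)]
  rw [h2] at h1
  have h3 : ((fI n (Fa n F)).map ((Int.castRingHom ℂ).comp (Polynomial.evalRingHom (0 : ℤ)))).eval z =
      ∑ j ∈ Finset.range (n + 1), ((Fa n F (n - j) j : ℤ) : ℂ) * z ^ j := by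
    rw [fI, Polynomial.map_sum, Polynomial.eval_finsetSum]
    refine Finset.sum_congr rfl fun j hj => ?_
    rw [Finset.mem_range] at hj
    rw [Polynomial.map_mul, Polynomial.map_pow, Polynomial.map_C, Polynomial.map_X, Polynomial.eval_mul,
      Polynomial.eval_pow, Polynomial.eval_C, Polynomial.eval_X]
    congr 1
    rw [RingHom.comp_apply, Polynomial.coe_evalRingHom, Polynomial.eval_finsetSum, Finset.sum_eq_single (n - j)]
    · rw [show n - (n - j) - j = 0 by omega, pow_zero, mul_one, Polynomial.eval_C]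
      rfl
    · intro i' hi' hne
      rw [Finset.mem_range] at hi'
      rw [Polynomial.eval_mul, Polynomial.eval_pow, Polynomial.eval_X, zero_pow (by omega), mul_zero]
    · intro h
      exact absurd (Finset.mem_range.2 (by omega)) h
  rw [h3] at h1
  have h4 : ∀ j ∈ Finset.range (n + 1), ((Fa n F (n - j) j : ℤ) : ℂ) * z ^ j =
      (c : ℂ) ^ (n - 1) * ((((ftop n F).coeff j : ℤ) : ℂ) * w ^ j) := by
    intro j hj
    rw [Finset.mem_range] at hj
    have h5 := fa_mul hn F (n - j) j (by omega)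
    rw [← hcd] at h5
    have h6 := congrArg (fun z : ℤ => (z : ℂ)) h5
    simp only [Int.cast_mul, Int.cast_pow] at h6
    rw [ftop_coeff, if_pos hj, hzw, mul_pow]
    linear_combination w ^ j * h6
  rw [Finset.sum_congr rfl h4, ← Finset.mul_sum] at h1
  have h7 := (mul_eq_zero.1 h1).resolve_left (pow_ne_zero _ hcC)
  rw [Polynomial.aeval_eq_sum_range' (n := n + 1)]
  · rw [← h7]
    refine Finset.sum_congr rfl fun j _ => ?_
    rw [zsmul_eq_mul]
  · refine Nat.lt_succ_of_le ?_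
    rw [Polynomial.natDegree_le_iff_coeff_eq_zero]
    intro j hj
    rw [ftop_coeff, if_neg (by omega)]

/-- `θ` and `w` are zeros of the same irreducible polynomial -/
private theorem exists_emb (k : Type) [Field k] [NumberField k] {p : Polynomial ℤ}
    (hirr : Irreducible (p.map (Int.castRingHom ℚ))) {θ : k} (hθ : Polynomial.aeval θ p = 0) {w : ℂ}
    (hw : Polynomial.aeval w p = 0) : ∃ g : k →+* ℂ, g θ = w := by
  have h0 : ∀ {L : Type} [Field L] [CharZero L] (z : L), Polynomial.aeval z p = 0 →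
      Polynomial.aeval z (p.map (Int.castRingHom ℚ)) = 0 := by
    intro L _ _ z hz
    rw [Polynomial.aeval_def, Polynomial.eval₂_map]
    rw [Polynomial.aeval_def] at hz
    rw [← hz]
    congr 1
    exact RingHom.ext_int _ _
  have h1 := minpoly.eq_of_irreducible hirr (h0 θ hθ)
  have h2 : w ∈ (minpoly ℚ θ).rootSet ℂ := by
    rw [Polynomial.mem_rootSet]
    refine ⟨minpoly.ne_zero (Algebra.IsIntegral.isIntegral θ), ?_⟩
    rw [← h1, map_mul, h0 w hw, zero_mul]
  rw [← NumberField.Embeddings.range_eval_eq_rootSet_minpoly k ℂ θ] at h2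
  obtain ⟨g, hg⟩ := h2
  exact ⟨g, hg⟩

private theorem emb_uniq (k : Type) [Field k] [NumberField k] {θ : k}
    (h : IntermediateField.adjoin ℚ {θ} = ⊤) {f g : k →+* ℂ} (hfg : f θ = g θ) : f = g := by
  ext z
  have hz : z ∈ IntermediateField.adjoin ℚ {θ} := by
    rw [h]
    trivial
  induction hz using IntermediateField.adjoin_induction with
  | mem x hx =>
    rw [Set.mem_singleton_iff.1 hx]
    exact hfg
  | algebraMap x => rw [eq_ratCast, map_ratCast, map_ratCast]
  | add x y _ _ hx hy => rw [map_add, map_add, hx, hy]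
  | inv x _ hx => rw [map_inv₀, map_inv₀, hx]
  | mul x y _ _ hx hy => rw [map_mul, map_mul, hx, hy]

private theorem exists_kp (k : Type) [Field k] [NumberField k] {n : ℕ} (hn : 2 ≤ n) {F : MvPolynomial (Fin 2) ℤ}
    {θ : k} (hirr : Irreducible ((ftop n F).map (Int.castRingHom ℚ)))
    (hc : F.coeff (Finsupp.single 1 n) ≠ 0) (hθ : Polynomial.aeval θ (ftop n F) = 0)
    (htop : IntermediateField.adjoin ℚ {θ} = ⊤) (pd : PData (fI n (Fa n F)) n) :
    ∃ kp : Kap k pd, ∀ i, kp.kap i θ * ((F.coeff (Finsupp.single 1 n) : ℤ) : ℂ) =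
      PowerSeries.constantCoeff (pd.x i) := by
  have hcC : ((F.coeff (Finsupp.single 1 n) : ℤ) : ℂ) ≠ 0 := by exact_mod_cast hc
  have h1 : ∀ i : Fin n, ∃ g : k →+* ℂ, g θ * ((F.coeff (Finsupp.single 1 n) : ℤ) : ℂ) =
      PowerSeries.constantCoeff (pd.x i) := by
    intro i
    obtain ⟨g, hg⟩ := exists_emb k hirr hθ (root0 (by omega) hc pd i)
    exact ⟨g, by rw [hg, div_mul_cancel₀ _ hcC]⟩
  choose kap hkap using h1
  have hAA : ∀ (i : Fin n) (z : k), kap i z ∈ AA := by
    intro i z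
    rw [mem_algebraicClosure_iff]
    have h2 : IsIntegral ℚ z := Algebra.IsIntegral.isIntegral z
    exact (h2.map ((kap i).toRatAlgHom)).isAlgebraic
  refine ⟨⟨kap, ?_, ?_⟩, hkap⟩
  · intro σ i j hσ z a ha
    obtain ⟨κ, hκ⟩ : ∃ κ : k →+* AA, ∀ z, ((κ z : AA) : ℂ) = kap i z :=
      ⟨(kap i).codRestrict AA.toSubfield.toSubring (hAA i), fun z => rfl⟩
    have h2 : σ.comp κ = kap j := by
      apply emb_uniq k htop
      have h3 := hσ 0 (κ θ * ((F.coeff (Finsupp.single 1 n) : ℤ) : AA)) (by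
        rw [PowerSeries.coeff_zero_eq_constantCoeff_apply, ← hkap i, ← hκ θ]
        push_cast
        rfl)
      rw [PowerSeries.coeff_zero_eq_constantCoeff_apply, ← hkap j, map_mul, map_intCast] at h3
      exact mul_right_cancel₀ hcC h3
    have h3 : a = κ z := Subtype.ext (ha.trans (hκ z).symm)
    rw [h3]
    exact congrArg (fun f : k →+* ℂ => f z) h2
  · intro ζ i j hζ h
    apply emb_uniq k htop
    apply mul_right_cancel₀ hcC
    rw [hkap i, hkap j, ← h, ← PowerSeries.coeff_zero_eq_constantCoeff_apply,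
      ← PowerSeries.coeff_zero_eq_constantCoeff_apply, PowerSeries.coeff_rescale, pow_zero, one_mul]

/-! ### The bound -/

private theorem fa_le {n H : ℕ} (hH1 : 1 ≤ H) {F : MvPolynomial (Fin 2) ℤ}
    (hH : ∀ m, |F.coeff m| ≤ (H : ℤ)) (i j : ℕ) :
    |Fa n F i j| ≤ ((2 ^ n * H ^ H34.AC.NR n : ℕ) : ℤ) := by
  have hHZ : (1 : ℤ) ≤ (H : ℤ) := by exact_mod_cast hH1
  have h0 : ∀ m ≤ n, (H : ℤ) ^ m ≤ ((2 ^ n * H ^ H34.AC.NR n : ℕ) : ℤ) := by
    intro m hm
    have h1 : H ^ m ≤ H ^ H34.AC.NR n := by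
      refine Nat.pow_le_pow_right hH1 (hm.trans ?_)
      unfold H34.AC.NR
      exact Nat.le_mul_of_pos_right n (Nat.succ_pos n)
    have h2 : H ^ m ≤ 2 ^ n * H ^ H34.AC.NR n :=
      h1.trans (Nat.le_mul_of_pos_left _ (by positivity))
    exact_mod_cast h2
  unfold Fa
  split_ifs with hj h2
  · rw [abs_mul, abs_pow]
    calc |F.coeff (Finsupp.single 1 n)| ^ (n - 1 - j) * |F.coeff (Finsupp.single 0 i + Finsupp.single 1 j)|
        ≤ (H : ℤ) ^ (n - 1 - j) * (H : ℤ) :=
          mul_le_mul (pow_le_pow_left₀ (abs_nonneg _) (hH _) _) (hH _) (abs_nonneg _) (by positivity)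
      _ = (H : ℤ) ^ (n - 1 - j + 1) := (pow_succ _ _).symm
      _ ≤ _ := h0 _ (by omega)
  · rw [abs_one]
    have := h0 0 (Nat.zero_le _)
    rwa [pow_zero] at this
  · rw [abs_zero]
    exact Int.natCast_nonneg _

theorem cpa (n : ℕ) (hn : 4 ≤ n) : ∃ C : ℕ, ∀ (k : Type) [Field k] [NumberField k]
    (F : MvPolynomial (Fin 2) ℤ) (H : ℕ) (θ : k), F.totalDegree ≤ n →
    Irreducible (map (Int.castRingHom ℚ) (homogeneousComponent n F)) → 2 ≤ H →
    (∀ m, |F.coeff m| ≤ (H : ℤ)) → Polynomial.aeval θ (ftop n F) = 0 →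
    IntermediateField.adjoin ℚ {θ} = ⊤ →
    F.coeff (Finsupp.single 1 n) ≠ 0 ∧ ∃ (b : ℕ) (Q : CrvA k n n b (Fa n F)), b ≤ H ^ C ∧
      ∀ i, Q.kp.kap i θ * ((F.coeff (Finsupp.single 1 n) : ℤ) : ℂ) =
        PowerSeries.constantCoeff (Q.pd.x i) := by
  obtain ⟨C, hC⟩ : ∃ C, C = H34.AC.cR n := ⟨_, rfl⟩
  refine ⟨C, ?_⟩
  intro k _ _ F H θ hF hlead hH2 hH hθ htop
  obtain ⟨hc, hirr1⟩ := lead_q (by omega : 2 ≤ n) hlead
  refine ⟨hc, ?_⟩
  have hH1 : 1 ≤ H := by omega
  have hdegQ : (map (Int.castRingHom ℚ) F).totalDegree ≤ n := by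
    refine le_trans ?_ hF
    unfold totalDegree
    exact Finset.sup_mono (support_map_subset _ _)
  have hirrF : Irreducible (map (Int.castRingHom ℚ) F) :=
    irr_of_lead (by omega) hdegQ (by rw [hc_map]; exact hlead)
  have hFirr : Irreducible (FQ n (Fa n F)) := fa_irr (by omega) hF hc hirrF
  have hF'1 : Fa n F 0 n = 1 := by
    unfold Fa
    rw [if_neg (lt_irrefl n), if_pos ⟨rfl, rfl⟩]
  obtain ⟨B, hB⟩ : ∃ B, B = 2 ^ n * H ^ H34.AC.NR n := ⟨_, rfl⟩
  have hB1 : 1 ≤ B := by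
    rw [hB]
    exact Nat.mul_pos Nat.one_le_two_pow (Nat.one_le_pow _ _ hH1)
  have hle : ∀ i j, |Fa n F i j| ≤ (B : ℤ) := by
    intro i j
    rw [hB]
    exact fa_le hH1 hH i j
  have hbd := H34.AC.fI_bd (d := n) hle
  obtain ⟨hmon, hdeg⟩ := H34.AC.fI_monic hF'1
  have hsq := H34.AC.fI_sqf hF'1 hFirr
  obtain ⟨b1, b2, c, hc0, hbez, hcdeg, hcle⟩ := H97.XC.disc_bd hmon hdeg (by omega) hbd hB1 hsq
  obtain ⟨pd, hpe, hpq, hpR, _⟩ := H97.XC.exists_pdata_bd (fI n (Fa n F)) hmon
    (s := H97.XC.sz n n) hdeg (by omega) hbd hB1 b1 b2 c hc0 hbez (by unfold H97.XC.sz; gcongr)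
  have hnR : n ≤ H34.AC.NR n := by
    unfold H34.AC.NR
    exact Nat.le_mul_of_pos_right n (Nat.succ_pos n)
  have hbR := H34.AC.bR_le hH2 (by omega : 1 ≤ n) hnR
  rw [← hB, ← hC] at hbR
  have hCCb : H97.XC.CC n n B (H97.XC.sz n n) ≤ H34.AC.bR n B := by unfold H34.AC.bR; omega
  have hhcb : H97.XC.hc n n B ≤ H34.AC.bR n B := by unfold H34.AC.bR; omega
  have hBb : B ≤ H34.AC.bR n B := by unfold H34.AC.bR; omega
  have h2b : 2 ≤ H34.AC.bR n B := by unfold H34.AC.bR; omega
  obtain ⟨b, hb⟩ : ∃ b, b = H34.AC.bR n B := ⟨_, rfl⟩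
  rw [← hb] at hbR hCCb hhcb hBb h2b
  obtain ⟨kp, hkp⟩ := exists_kp k (by omega) hirr1 hc hθ htop pd
  refine ⟨b, ⟨hn, le_rfl, h2b, hF'1, fun i j => (hle i j).trans (by exact_mod_cast hBb), hFirr, pd, hpe,
    ?_, ?_, kp, ⟨b1, b2, c, hc0, hbez, hcdeg, fun i => (hcle i).trans (by exact_mod_cast hhcb)⟩⟩, hbR, hkp⟩
  · have h1 : pd.q ≤ H97.XC.CC n n B (H97.XC.sz n n) := by exact_mod_cast hpq
    exact h1.trans hCCb
  · exact hpR.trans (by exact_mod_cast hCCb)

end Pool.Agent.H12.ON
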