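import Mathlib

/-! # [H12 ON SEP] Separation of the zeros of an irreducible integer polynomial

`p ∈ ℤ[X]` of degree `n`, irreducible over `ℚ`, coefficients `≤ B`, `z ≠ w` two complex zeros: `1 ≤ |z - w| B^C` with `C` depending only on `n`.
`p`, `p'` are coprime over `ℚ` (characteristic zero), so their resultant `R` is a nonzero integer. Over `ℂ`, `R = a^(n') ∏ p'(r)` over the zeros `r` of `p`, all `|r| ≤ B^2`, so `|p'(r)| ≤ B^C` for all zeros and hence
`|p'(z)| ≥ B^(-C')`. From `p(z) = p(w) = 0`, `z ≠ w`: `p'(z) = ∑ a_k ∑_(i<k) (z^i - w^i) z^(k-1-i)`, so `|p'(z)| ≤ |z - w| B^(C'')`. -/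

namespace Pool.Agent.H12.ON

open Polynomial

private lemma nat_le_bpow (B : ℕ) (hB : 2 ≤ B) (k : ℕ) : (k : ℝ) ≤ (B : ℝ) ^ k := by
  have h1 : k < 2 ^ k := Nat.lt_two_pow_self
  have h2 : 2 ^ k ≤ B ^ k := Nat.pow_le_pow_left hB k
  have h3 : k ≤ B ^ k := (h1.le.trans h2)
  exact_mod_cast h3

private lemma pow_sub_pow_le (z w : ℂ) (M : ℝ) (hM : 0 ≤ M) (hz : ‖z‖ ≤ M) (hw : ‖w‖ ≤ M)
    (k : ℕ) : ‖z ^ k - w ^ k‖ ≤ ‖z - w‖ * (k * M ^ (k - 1)) := by
  have h : z ^ k - w ^ k = (z - w) * ∑ i ∈ Finset.range k, z ^ i * w ^ (k - 1 - i) := by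
    rw [mul_comm]; exact (Commute.geom_sum₂_mul (Commute.all z w) k).symm
  rw [h, norm_mul]
  refine mul_le_mul_of_nonneg_left ?_ (norm_nonneg _)
  refine (norm_sum_le _ _).trans ?_
  have : ∀ i ∈ Finset.range k, ‖z ^ i * w ^ (k - 1 - i)‖ ≤ M ^ (k - 1) := by
    intro i hi
    rw [Finset.mem_range] at hi
    rw [norm_mul, norm_pow, norm_pow]
    calc ‖z‖ ^ i * ‖w‖ ^ (k - 1 - i) ≤ M ^ i * M ^ (k - 1 - i) := by gcongr
      _ = M ^ (k - 1) := by rw [← pow_add]; congr 1; omega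
  refine (Finset.sum_le_sum this).trans ?_
  simp

private lemma root_norm_le (p : ℤ[X]) (B : ℕ) (hB : 2 ≤ B) (hp0 : p ≠ 0)
    (hc : ∀ i, |p.coeff i| ≤ (B : ℤ)) (z : ℂ) (hz : aeval z p = 0) : ‖z‖ ≤ (B : ℝ) ^ 2 := by
  have hinj : Function.Injective (Int.castRingHom ℂ) := Int.cast_injective
  have hpc : p.map (Int.castRingHom ℂ) ≠ 0 := (Polynomial.map_ne_zero_iff hinj).2 hp0
  have hroot : (p.map (Int.castRingHom ℂ)).IsRoot z := by
    rw [IsRoot.def, eval_map]; exact hz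
  have h1 := IsRoot.norm_lt_cauchyBound hpc hroot
  have hl : (1 : NNReal) ≤ ‖(p.map (Int.castRingHom ℂ)).leadingCoeff‖₊ := by
    rw [leadingCoeff_map_of_injective hinj]
    rw [← NNReal.coe_le_coe, coe_nnnorm, NNReal.coe_one]
    change (1 : ℝ) ≤ ‖((p.leadingCoeff : ℤ) : ℂ)‖
    rw [Complex.norm_intCast]
    have : (1 : ℤ) ≤ |p.leadingCoeff| := Int.one_le_abs (leadingCoeff_ne_zero.2 hp0)
    exact_mod_cast this
  have hs : (Finset.sup (Finset.range (p.map (Int.castRingHom ℂ)).natDegree)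
      (fun i => ‖(p.map (Int.castRingHom ℂ)).coeff i‖₊)) ≤ (B : NNReal) := by
    refine Finset.sup_le ?_
    intro i _
    rw [coeff_map]
    rw [← NNReal.coe_le_coe, coe_nnnorm, NNReal.coe_natCast]
    change ‖((p.coeff i : ℤ) : ℂ)‖ ≤ (B : ℝ)
    rw [Complex.norm_intCast]
    exact_mod_cast hc i
  have h2 : cauchyBound (p.map (Int.castRingHom ℂ)) ≤ (B : NNReal) + 1 := by
    unfold cauchyBound
    gcongr
    calc _ ≤ (B : NNReal) / ‖(p.map (Int.castRingHom ℂ)).leadingCoeff‖₊ := by gcongr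
      _ ≤ (B : NNReal) := div_le_self (by positivity) hl
  have h3 : ‖z‖ ≤ (B : ℝ) + 1 := by
    have := h1.le.trans h2
    exact_mod_cast this
  have hB' : (2 : ℝ) ≤ B := by exact_mod_cast hB
  nlinarith

private lemma aeval_sum (p : ℤ[X]) (z : ℂ) :
    aeval z p = ∑ k ∈ Finset.range (p.natDegree + 1), (p.coeff k : ℂ) * z ^ k := by
  rw [aeval_eq_sum_range]
  refine Finset.sum_congr rfl fun k _ => ?_
  simp

private lemma aeval_der_sum (p : ℤ[X]) (z : ℂ) :
    aeval z (derivative p) = ∑ k ∈ Finset.range (p.natDegree + 1),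
      (p.coeff k : ℂ) * (k * z ^ (k - 1)) := by
  have : derivative p = ∑ k ∈ Finset.range (p.natDegree + 1),
      C (p.coeff k) * (C (k : ℤ) * X ^ (k - 1)) := by
    conv_lhs => rw [p.as_sum_range_C_mul_X_pow]
    rw [derivative_sum]
    refine Finset.sum_congr rfl fun k _ => ?_
    rw [derivative_C_mul_X_pow, C_mul, mul_assoc]
  rw [this, map_sum]
  refine Finset.sum_congr rfl fun k _ => ?_
  simp

private lemma der_bd (n : ℕ) (p : ℤ[X]) (B : ℕ) (hn : p.natDegree = n) (hB : 2 ≤ B)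
    (hc : ∀ i, |p.coeff i| ≤ (B : ℤ)) (z : ℂ) (hz : ‖z‖ ≤ (B : ℝ) ^ 2) :
    ‖aeval z (derivative p)‖ ≤ (B : ℝ) ^ (4 * n + 2) := by
  have hB1 : (1 : ℝ) ≤ B := by exact_mod_cast (by omega : 1 ≤ B)
  rw [aeval_der_sum, hn]
  refine (norm_sum_le _ _).trans ?_
  have hh : ∀ k ∈ Finset.range (n + 1), ‖(p.coeff k : ℂ) * (k * z ^ (k - 1))‖ ≤
      (B : ℝ) ^ (3 * n + 1) := by
    intro k hk
    rw [Finset.mem_range] at hk
    rw [norm_mul, norm_mul, norm_pow, Complex.norm_intCast, Complex.norm_natCast]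
    have h1 : |(p.coeff k : ℝ)| ≤ B := by exact_mod_cast hc k
    have h2 : (k : ℝ) ≤ (B : ℝ) ^ n :=
      (nat_le_bpow B hB k).trans (pow_le_pow_right₀ hB1 (by omega))
    have h3 : ‖z‖ ^ (k - 1) ≤ (B : ℝ) ^ (2 * n) := by
      calc ‖z‖ ^ (k - 1) ≤ ((B : ℝ) ^ 2) ^ (k - 1) := by gcongr
        _ = (B : ℝ) ^ (2 * (k - 1)) := by rw [← pow_mul]
        _ ≤ (B : ℝ) ^ (2 * n) := pow_le_pow_right₀ hB1 (by omega)
    calc |(p.coeff k : ℝ)| * (k * ‖z‖ ^ (k - 1)) ≤ B * ((B : ℝ) ^ n * (B : ℝ) ^ (2 * n)) := by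
          gcongr
      _ = (B : ℝ) ^ (3 * n + 1) := by ring
  refine (Finset.sum_le_sum hh).trans ?_
  rw [Finset.sum_const, Finset.card_range, nsmul_eq_mul]
  have h4 : ((n + 1 : ℕ) : ℝ) ≤ (B : ℝ) ^ (n + 1) := nat_le_bpow B hB (n + 1)
  calc ((n + 1 : ℕ) : ℝ) * (B : ℝ) ^ (3 * n + 1) ≤ (B : ℝ) ^ (n + 1) * (B : ℝ) ^ (3 * n + 1) := by
        gcongr
    _ = (B : ℝ) ^ (4 * n + 2) := by rw [← pow_add]; congr 1; omega

private lemma der_sep (n : ℕ) (p : ℤ[X]) (B : ℕ) (hn : p.natDegree = n) (hB : 2 ≤ B)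
    (hc : ∀ i, |p.coeff i| ≤ (B : ℤ)) (z w : ℂ) (hz : ‖z‖ ≤ (B : ℝ) ^ 2)
    (hw : ‖w‖ ≤ (B : ℝ) ^ 2) (hpz : aeval z p = 0) (hpw : aeval w p = 0) (hne : z ≠ w) :
    ‖aeval z (derivative p)‖ ≤ ‖z - w‖ * (B : ℝ) ^ (5 * n + 2) := by
  have hB1 : (1 : ℝ) ≤ B := by exact_mod_cast (by omega : 1 ≤ B)
  -- the divided difference vanishes
  have hdd : ∑ k ∈ Finset.range (n + 1), (p.coeff k : ℂ) *
      (∑ i ∈ Finset.range k, w ^ i * z ^ (k - 1 - i)) = 0 := by
    have h1 : (w - z) * ∑ k ∈ Finset.range (n + 1), (p.coeff k : ℂ) *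
        (∑ i ∈ Finset.range k, w ^ i * z ^ (k - 1 - i)) = 0 := by
      have h2 : aeval w p - aeval z p = 0 := by rw [hpz, hpw, sub_zero]
      rw [aeval_sum, aeval_sum, hn, ← Finset.sum_sub_distrib] at h2
      rw [← h2, Finset.mul_sum]
      refine Finset.sum_congr rfl fun k _ => ?_
      have h : w ^ k - z ^ k = (w - z) * ∑ i ∈ Finset.range k, w ^ i * z ^ (k - 1 - i) := by
        rw [mul_comm]; exact (Commute.geom_sum₂_mul (Commute.all w z) k).symm
      rw [← mul_sub, h]; ring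
    rcases mul_eq_zero.1 h1 with h | h
    · exact absurd (sub_eq_zero.1 h).symm hne
    · exact h
  have hder : aeval z (derivative p) = ∑ k ∈ Finset.range (n + 1), (p.coeff k : ℂ) *
      (∑ i ∈ Finset.range k, (z ^ i - w ^ i) * z ^ (k - 1 - i)) := by
    have : aeval z (derivative p) = aeval z (derivative p) - 0 := by rw [sub_zero]
    rw [this, ← hdd, aeval_der_sum, hn, ← Finset.sum_sub_distrib]
    refine Finset.sum_congr rfl fun k _ => ?_
    rw [← mul_sub]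
    congr 1
    have h5 : (k : ℂ) * z ^ (k - 1) = ∑ i ∈ Finset.range k, z ^ i * z ^ (k - 1 - i) := by
      have : ∀ i ∈ Finset.range k, z ^ i * z ^ (k - 1 - i) = z ^ (k - 1) := by
        intro i hi
        rw [Finset.mem_range] at hi
        rw [← pow_add]; congr 1; omega
      rw [Finset.sum_congr rfl this]; simp
    rw [h5, ← Finset.sum_sub_distrib]
    refine Finset.sum_congr rfl fun i _ => ?_
    ring
  rw [hder]
  refine (norm_sum_le _ _).trans ?_
  have hh : ∀ k ∈ Finset.range (n + 1), ‖(p.coeff k : ℂ) *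
      (∑ i ∈ Finset.range k, (z ^ i - w ^ i) * z ^ (k - 1 - i))‖ ≤
      ‖z - w‖ * (B : ℝ) ^ (4 * n + 1) := by
    intro k hk
    rw [Finset.mem_range] at hk
    rw [norm_mul, Complex.norm_intCast]
    have h1 : |(p.coeff k : ℝ)| ≤ B := by exact_mod_cast hc k
    have hkn : (k : ℝ) ≤ (B : ℝ) ^ n :=
      (nat_le_bpow B hB k).trans (pow_le_pow_right₀ hB1 (by omega))
    have h2 : ‖∑ i ∈ Finset.range k, (z ^ i - w ^ i) * z ^ (k - 1 - i)‖ ≤
        k * (‖z - w‖ * ((B : ℝ) ^ n * (B : ℝ) ^ (2 * n))) := by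
      refine (norm_sum_le _ _).trans ?_
      have h3 : ∀ i ∈ Finset.range k, ‖(z ^ i - w ^ i) * z ^ (k - 1 - i)‖ ≤
          ‖z - w‖ * ((B : ℝ) ^ n * (B : ℝ) ^ (2 * n)) := by
        intro i hi
        rw [Finset.mem_range] at hi
        rw [norm_mul, norm_pow]
        have h4 := pow_sub_pow_le z w ((B : ℝ) ^ 2) (by positivity) hz hw i
        have h5 : (i : ℝ) ≤ (B : ℝ) ^ n :=
          (nat_le_bpow B hB i).trans (pow_le_pow_right₀ hB1 (by omega))
        calc ‖z ^ i - w ^ i‖ * ‖z‖ ^ (k - 1 - i)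
            ≤ (‖z - w‖ * (i * ((B : ℝ) ^ 2) ^ (i - 1))) * ((B : ℝ) ^ 2) ^ (k - 1 - i) := by
              gcongr
          _ = ‖z - w‖ * (i * (B : ℝ) ^ (2 * (i - 1) + 2 * (k - 1 - i))) := by
              rw [pow_add, pow_mul, pow_mul]; ring
          _ ≤ ‖z - w‖ * ((B : ℝ) ^ n * (B : ℝ) ^ (2 * n)) := by
              have h6 : (B : ℝ) ^ (2 * (i - 1) + 2 * (k - 1 - i)) ≤ (B : ℝ) ^ (2 * n) :=
                pow_le_pow_right₀ hB1 (by omega)
              gcongr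
      refine (Finset.sum_le_sum h3).trans ?_
      rw [Finset.sum_const, Finset.card_range, nsmul_eq_mul]
    calc |(p.coeff k : ℝ)| * ‖∑ i ∈ Finset.range k, (z ^ i - w ^ i) * z ^ (k - 1 - i)‖
        ≤ B * ((B : ℝ) ^ n * (‖z - w‖ * ((B : ℝ) ^ n * (B : ℝ) ^ (2 * n)))) := by
          refine mul_le_mul h1 (h2.trans ?_) (norm_nonneg _) (by positivity)
          gcongr
      _ = ‖z - w‖ * (B : ℝ) ^ (4 * n + 1) := by ring
  refine (Finset.sum_le_sum hh).trans ?_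
  rw [Finset.sum_const, Finset.card_range, nsmul_eq_mul]
  have h4 : ((n + 1 : ℕ) : ℝ) ≤ (B : ℝ) ^ (n + 1) := nat_le_bpow B hB (n + 1)
  calc ((n + 1 : ℕ) : ℝ) * (‖z - w‖ * (B : ℝ) ^ (4 * n + 1))
      ≤ (B : ℝ) ^ (n + 1) * (‖z - w‖ * (B : ℝ) ^ (4 * n + 1)) := by gcongr
    _ = ‖z - w‖ * (B : ℝ) ^ (5 * n + 2) := by ring

private lemma prod_bd (s : Multiset ℂ) (f : ℂ → ℂ) (D : ℝ) (hD : 0 ≤ D)
    (h : ∀ x ∈ s, ‖f x‖ ≤ D) : ‖(s.map f).prod‖ ≤ D ^ s.card := by
  induction s using Multiset.induction_on with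
  | empty => simp
  | cons a t ih =>
    rw [Multiset.map_cons, Multiset.prod_cons, norm_mul, Multiset.card_cons, pow_succ, mul_comm]
    have h1 := ih (fun x hx => h x (Multiset.mem_cons_of_mem hx))
    have h2 := h a (Multiset.mem_cons_self a t)
    exact mul_le_mul h1 h2 (norm_nonneg _) (pow_nonneg hD _)

/-- the derivative is not small at a zero -/
theorem sep_der_low (n : ℕ) : ∃ C : ℕ, ∀ (p : Polynomial ℤ) (B : ℕ), p.natDegree = n → 2 ≤ B →
    Irreducible (p.map (Int.castRingHom ℚ)) → (∀ i, |p.coeff i| ≤ (B : ℤ)) → ∀ z : ℂ,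
    Polynomial.aeval z p = 0 →
    1 ≤ (B : ℝ) ^ C * ‖Polynomial.aeval z (Polynomial.derivative p)‖ := by
  refine ⟨n + (4 * n + 2) * n, ?_⟩
  intro p B hn hB hirr hc z hpz
  have hB1 : (1 : ℝ) ≤ B := by exact_mod_cast (by omega : 1 ≤ B)
  have hp0 : p ≠ 0 := by
    rintro rfl
    simp at hirr
  have hinjQ : Function.Injective (Int.castRingHom ℚ) := Int.cast_injective
  have hinjC : Function.Injective (Int.castRingHom ℂ) := Int.cast_injective
  set f := p.map (Int.castRingHom ℂ) with hf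
  have hf0 : f ≠ 0 := (Polynomial.map_ne_zero_iff hinjC).2 hp0
  -- the resultant is a nonzero integer
  set R := resultant p (derivative p) with hR
  have hR0 : R ≠ 0 := by
    intro h0
    have h1 : resultant (p.map (Int.castRingHom ℚ)) (derivative (p.map (Int.castRingHom ℚ))) = 0 := by
      have h2 := resultant_map_map p (derivative p) p.natDegree (derivative p).natDegree
        (Int.castRingHom ℚ)
      rw [← hR, h0, map_zero] at h2
      rw [derivative_map, natDegree_map_eq_of_injective hinjQ, natDegree_map_eq_of_injective hinjQ]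
      exact h2
    rw [resultant_eq_zero_iff] at h1
    exact h1.2 hirr.separable
  have hR1 : (1 : ℝ) ≤ ‖((R : ℤ) : ℂ)‖ := by
    rw [Complex.norm_intCast]
    have : (1 : ℤ) ≤ |R| := Int.one_le_abs hR0
    exact_mod_cast this
  have hRC : ((R : ℤ) : ℂ) = f.leadingCoeff ^ (derivative p).natDegree *
      (f.roots.map (eval · ((derivative p).map (Int.castRingHom ℂ)))).prod := by
    have h2 := resultant_map_map p (derivative p) p.natDegree (derivative p).natDegree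
        (Int.castRingHom ℂ)
    have h3 := resultant_eq_prod_eval f ((derivative p).map (Int.castRingHom ℂ))
      (derivative p).natDegree natDegree_map_le (IsAlgClosed.splits f)
    rw [hf, natDegree_map_eq_of_injective hinjC] at h3
    rw [← hf] at h2 h3
    rw [h2] at h3
    exact h3
  have hev : ∀ r : ℂ, eval r ((derivative p).map (Int.castRingHom ℂ)) =
      aeval r (derivative p) := by
    intro r; rw [eval_map]; rfl
  have hzr : z ∈ f.roots := by
    rw [mem_roots hf0, IsRoot.def, hf, eval_map]; exact hpz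
  have hroots : ∀ r ∈ f.roots, ‖r‖ ≤ (B : ℝ) ^ 2 := by
    intro r hr
    rw [mem_roots hf0, IsRoot.def, hf, eval_map] at hr
    exact root_norm_le p B hB hp0 hc r hr
  obtain ⟨t, ht⟩ := Multiset.exists_cons_of_mem hzr
  have htc : t.card ≤ n := by
    have h1 : Multiset.card f.roots ≤ f.natDegree := card_roots' f
    rw [ht, Multiset.card_cons, hf, natDegree_map_eq_of_injective hinjC, hn] at h1
    omega
  have htb : ‖(t.map (eval · ((derivative p).map (Int.castRingHom ℂ)))).prod‖ ≤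
      ((B : ℝ) ^ (4 * n + 2)) ^ t.card := by
    refine prod_bd t _ _ (by positivity) ?_
    intro r hr
    rw [hev]
    refine der_bd n p B hn hB hc r (hroots r ?_)
    rw [ht]; exact Multiset.mem_cons_of_mem hr
  have htb' : ‖(t.map (eval · ((derivative p).map (Int.castRingHom ℂ)))).prod‖ ≤
      (B : ℝ) ^ ((4 * n + 2) * n) := by
    refine htb.trans ?_
    rw [← pow_mul]
    exact pow_le_pow_right₀ hB1 (Nat.mul_le_mul_left _ htc)
  have hlb : ‖f.leadingCoeff ^ (derivative p).natDegree‖ ≤ (B : ℝ) ^ n := by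
    rw [norm_pow, hf, leadingCoeff_map_of_injective hinjC]
    have h1 : ‖(Int.castRingHom ℂ) p.leadingCoeff‖ ≤ (B : ℝ) := by
      have : ‖((p.leadingCoeff : ℤ) : ℂ)‖ ≤ (B : ℝ) := by
        rw [Complex.norm_intCast]
        exact_mod_cast hc _
      exact this
    have h2 : (derivative p).natDegree ≤ n := by
      rw [← hn]; exact (natDegree_derivative_le p).trans (Nat.sub_le _ _)
    calc ‖(Int.castRingHom ℂ) p.leadingCoeff‖ ^ (derivative p).natDegree
        ≤ (B : ℝ) ^ (derivative p).natDegree := by gcongr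
      _ ≤ (B : ℝ) ^ n := pow_le_pow_right₀ hB1 h2
  rw [hRC, ht, Multiset.map_cons, Multiset.prod_cons, norm_mul, norm_mul, hev] at hR1
  calc (1 : ℝ) ≤ _ := hR1
    _ ≤ (B : ℝ) ^ n * (‖aeval z (derivative p)‖ * (B : ℝ) ^ ((4 * n + 2) * n)) := by
        gcongr
    _ = (B : ℝ) ^ (n + (4 * n + 2) * n) * ‖aeval z (derivative p)‖ := by
        rw [pow_add]; ring

theorem root_sep (n : ℕ) : ∃ C : ℕ, ∀ (p : Polynomial ℤ) (B : ℕ), p.natDegree = n → 2 ≤ B →
    Irreducible (p.map (Int.castRingHom ℚ)) → (∀ i, |p.coeff i| ≤ (B : ℤ)) → ∀ z w : ℂ,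
    Polynomial.aeval z p = 0 → Polynomial.aeval w p = 0 → z ≠ w → 1 ≤ ‖z - w‖ * (B : ℝ) ^ C := by
  obtain ⟨C, hC⟩ := sep_der_low n
  refine ⟨C + (5 * n + 2), ?_⟩
  intro p B hn hB hirr hc z w hpz hpw hne
  have hp0 : p ≠ 0 := by
    rintro rfl
    simp at hirr
  have hzn : ‖z‖ ≤ (B : ℝ) ^ 2 := root_norm_le p B hB hp0 hc z hpz
  have hwn : ‖w‖ ≤ (B : ℝ) ^ 2 := root_norm_le p B hB hp0 hc w hpw
  have hder := der_sep n p B hn hB hc z w hzn hwn hpz hpw hne
  calc (1 : ℝ) ≤ (B : ℝ) ^ C * ‖aeval z (derivative p)‖ := hC p B hn hB hirr hc z hpz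
    _ ≤ (B : ℝ) ^ C * (‖z - w‖ * (B : ℝ) ^ (5 * n + 2)) := by gcongr
    _ = ‖z - w‖ * (B : ℝ) ^ (C + (5 * n + 2)) := by
        rw [pow_add]; ring

end Pool.Agent.H12.ON
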