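import Pool.Agent.H12.ON.Cpa
import Pool.Agent.H12.ON.Sep
import Pool.Agent.H8.AW.Pt
import Pool.Agent.H8.AW.Win
import Pool.Agent.H52.AC.PTF

/-! # [H12 ON CPB] A large integer zero near `τ(θ)` is exceptional of type `τ`

`c = coeff of y^n`, `Q : CrvA k n n b (Fa n F)`, `b ≤ H^C` (`cpa`). `F(x,y) = 0` and `max(|x|,|y|) > H^E` with large `E`: `|y| ≤ (n+1)^2 H |x|` (`c ≠ 0`), so `|x| > H^(E-C')`, in particular `|x| ≥ b^(cA n)`. Choose `T` with `(q T)^e x = 1` as in the proof of `CrvS.exc`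
(H8/AS/Pt.lean): `R ‖T‖ < 1`, more precisely `‖T‖ ≤ |x|^(-1/n!)`. `Q.branch` (`fa_ev`): `i` with `evT T (x_i) = c y/x`. `‖evT T x_i - x_i(0)‖ ≤ ∑_{m ≥ 1} R^(m+1) ‖T‖^m ≤ 2 R² ‖T‖` (`pd.growth`); `|c y/x - c τ(θ)| ≤ |c| |x|^(-1/2)` (`Near`, `(y - θ x)² ≤ |x|`). So `x_i(0)/c` and `τ(θ)` are two
zeros of `ftop n F` (`cpa`: `x_i(0)/c = kap i θ`) with `‖x_i(0)/c - τ(θ)‖ ≤ 2 b² ‖T‖ + |x|^(-1/2) < H^(-C'')`: equal by `root_sep` (for `ftop n F`, irreducible over `ℚ` by `deh` of degree `n`). So `kap i θ = τ(θ)` and `kap i = ofReal ∘ τ` (`k = ℚ(θ)`). This is `ExcA k τ n (cA n) x (c y)` (`HasSum` from convergence). -/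

namespace Pool.Agent.H12.ON

open MvPolynomial Pool.Agent.H8.AW Pool.Agent.H87.SA2

private theorem cpb_ftop_coeff {k : Type} [CommRing k] (n : ℕ) (F : MvPolynomial (Fin 2) k) (j : ℕ) :
    (ftop n F).coeff j =
      if j < n + 1 then F.coeff (Finsupp.single 0 (n - j) + Finsupp.single 1 j) else 0 := by
  unfold ftop
  rw [Polynomial.finsetSum_coeff]
  simp only [Polynomial.coeff_monomial]
  rw [Finset.sum_ite_eq' (Finset.range (n + 1)) j]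
  simp only [Finset.mem_range]

private theorem cpb_ftop_natDegree {k : Type} [CommRing k] (n : ℕ) (F : MvPolynomial (Fin 2) k) :
    (ftop n F).natDegree ≤ n := by
  rw [Polynomial.natDegree_le_iff_coeff_eq_zero]
  intro j hj
  rw [cpb_ftop_coeff, if_neg (by omega)]

private theorem cpb_ftop_map {k l : Type} [CommRing k] [CommRing l] (f : k →+* l) (n : ℕ)
    (F : MvPolynomial (Fin 2) k) : ftop n (map f F) = (ftop n F).map f := by
  ext j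
  rw [Polynomial.coeff_map, cpb_ftop_coeff, cpb_ftop_coeff]
  split_ifs
  · rw [coeff_map]
  · rw [map_zero]

private theorem cpb_hc_map {k l : Type} [CommRing k] [CommRing l] (f : k →+* l) (n : ℕ)
    (F : MvPolynomial (Fin 2) k) :
    homogeneousComponent n (map f F) = map f (homogeneousComponent n F) := by
  ext m
  rw [coeff_homogeneousComponent, coeff_map, coeff_map, coeff_homogeneousComponent]
  split_ifs
  · rfl
  · rw [map_zero]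

private theorem cpb_ftop_bd {n H : ℕ} {F : MvPolynomial (Fin 2) ℤ}
    (hH : ∀ m, |F.coeff m| ≤ (H : ℤ)) (j : ℕ) : |(ftop n F).coeff j| ≤ (H : ℤ) := by
  rw [cpb_ftop_coeff]
  split_ifs
  · exact hH _
  · rw [abs_zero]
    positivity

/-- the zeros of an integer polynomial -/
private theorem cpb_root_bd {p : Polynomial ℤ} {H : ℕ} (hp : p ≠ 0) (hH : ∀ i, |p.coeff i| ≤ (H : ℤ)) {t : ℝ}
    (ht : Polynomial.aeval t p = 0) : |t| ≤ (H : ℝ) + 1 := by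
  have hinj : Function.Injective (algebraMap ℤ ℝ) := by
    rw [show algebraMap ℤ ℝ = Int.castRingHom ℝ from rfl]
    exact (Int.castRingHom ℝ).injective_int
  have hne : p.map (algebraMap ℤ ℝ) ≠ 0 := (Polynomial.map_ne_zero_iff hinj).2 hp
  have hroot : (p.map (algebraMap ℤ ℝ)).IsRoot t := by
    rw [Polynomial.IsRoot, Polynomial.eval_map_algebraMap]
    exact ht
  have h2 : ‖t‖ < ((Polynomial.cauchyBound (p.map (algebraMap ℤ ℝ)) : NNReal) : ℝ) := by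
    have h := hroot.norm_lt_cauchyBound hne
    rw [← NNReal.coe_lt_coe, coe_nnnorm] at h
    exact h
  have hl : p.leadingCoeff ≠ 0 := Polynomial.leadingCoeff_ne_zero.2 hp
  have hl1 : (1 : ℝ) ≤ ‖((p.leadingCoeff : ℤ) : ℝ)‖ := by
    rw [Real.norm_eq_abs, ← Int.cast_abs]
    exact_mod_cast Int.one_le_abs hl
  have h3 : Polynomial.cauchyBound (p.map (algebraMap ℤ ℝ)) ≤ (H : NNReal) + 1 := by
    unfold Polynomial.cauchyBound
    have hl2 : (p.map (algebraMap ℤ ℝ)).leadingCoeff = ((p.leadingCoeff : ℤ) : ℝ) := by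
      rw [Polynomial.leadingCoeff_map_of_injective hinj]
      simp
    rw [hl2]
    gcongr
    have h4 : (Finset.sup (Finset.range (p.map (algebraMap ℤ ℝ)).natDegree) fun i =>
        ‖(p.map (algebraMap ℤ ℝ)).coeff i‖₊) ≤ (H : NNReal) := by
      refine Finset.sup_le fun i _ => ?_
      rw [Polynomial.coeff_map]
      have h3 : ‖((algebraMap ℤ ℝ) (p.coeff i))‖ ≤ (H : ℝ) := by
        rw [algebraMap_int_eq, eq_intCast, Real.norm_eq_abs, ← Int.cast_abs]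
        exact_mod_cast hH i
      exact_mod_cast h3
    refine (div_le_self (zero_le) ?_).trans h4
    rw [← NNReal.coe_le_coe, coe_nnnorm, NNReal.coe_one]
    exact hl1
  have h4 : ((Polynomial.cauchyBound (p.map (algebraMap ℤ ℝ)) : NNReal) : ℝ) ≤ (H : ℝ) + 1 := by
    exact_mod_cast h3
  rw [Real.norm_eq_abs] at h2
  linarith

/-- the value at a small number is near the constant coefficient -/
private theorem cpb_evT {T : ℂ} {a : PowerSeries ℂ} {R : ℝ} (hR : 0 ≤ R)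
    (h : ∀ m, ‖PowerSeries.coeff m a‖ ≤ R ^ (m + 1)) (hT : R * ‖T‖ ≤ 1 / 2) :
    ‖evT T a - PowerSeries.constantCoeff a‖ ≤ 2 * R ^ 2 * ‖T‖ := by
  have h1 : HasSum (fun m : ℕ => PowerSeries.coeff m a * T ^ m) (evT T a) :=
    (CvT_of hR h (by linarith)).hasSum
  have h2 := (hasSum_nat_add_iff' 1).2 h1
  rw [Finset.sum_range_one, pow_zero, mul_one, PowerSeries.coeff_zero_eq_constantCoeff_apply] at h2
  have h3 : HasSum (fun m : ℕ => R ^ 2 * ‖T‖ * (R * ‖T‖) ^ m) (R ^ 2 * ‖T‖ * (1 - R * ‖T‖)⁻¹) :=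
    (hasSum_geometric_of_lt_one (by positivity) (by linarith)).mul_left _
  have h4 : ‖evT T a - PowerSeries.constantCoeff a‖ ≤ R ^ 2 * ‖T‖ * (1 - R * ‖T‖)⁻¹ := by
    refine h2.norm_le_of_bounded h3 fun m => ?_
    rw [norm_mul, norm_pow]
    calc ‖PowerSeries.coeff (m + 1) a‖ * ‖T‖ ^ (m + 1) ≤ R ^ (m + 1 + 1) * ‖T‖ ^ (m + 1) :=
          mul_le_mul_of_nonneg_right (h _) (by positivity)
      _ = R ^ 2 * ‖T‖ * (R * ‖T‖) ^ m := by rw [mul_pow]; ring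
  refine h4.trans ?_
  have h5 : (1 - R * ‖T‖)⁻¹ ≤ 2 := by
    rw [inv_le_comm₀ (by linarith) (by norm_num)]
    linarith
  have h6 : 0 ≤ R ^ 2 * ‖T‖ := by positivity
  nlinarith

/-- two embeddings which agree at a generator -/
private theorem cpb_ext {k : Type} [Field k] [NumberField k] {θ : k}
    (hk : IntermediateField.adjoin ℚ {θ} = ⊤) {f g : k →+* ℂ} (h : f θ = g θ) : f = g := by
  have h1 : f.toRatAlgHom = g.toRatAlgHom := by
    refine AlgHom.ext fun z => ?_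
    have hz : z ∈ IntermediateField.adjoin ℚ {θ} := by
      rw [hk]
      exact IntermediateField.mem_top
    refine IntermediateField.adjoin_induction ℚ (p := fun z _ => f.toRatAlgHom z = g.toRatAlgHom z)
      ?_ ?_ ?_ ?_ ?_ hz
    · intro x hx
      rw [Set.mem_singleton_iff] at hx
      subst hx
      exact h
    · intro x
      rw [AlgHom.commutes, AlgHom.commutes]
    · intro x y _ _ hx hy
      rw [map_add, map_add, hx, hy]
    · intro x _ hx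
      rw [map_inv₀, map_inv₀, hx]
    · intro x y _ _ hx hy
      rw [map_mul, map_mul, hx, hy]
  refine RingHom.ext fun z => ?_
  exact congrArg (fun φ : k →ₐ[ℚ] ℂ => φ z) h1

private theorem cpb_root {k K : Type} [Field k] [Field K] (f : k →+* K) {p : Polynomial ℤ} {θ : k}
    (h : Polynomial.aeval θ p = 0) : Polynomial.aeval (f θ) p = 0 := by
  rw [Polynomial.aeval_def] at h ⊢
  have h1 := congrArg f h
  rw [Polynomial.hom_eval₂, map_zero] at h1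
  rwa [RingHom.ext_int (f.comp (algebraMap ℤ k)) (algebraMap ℤ K)] at h1

theorem cpb (n : ℕ) (hn : 4 ≤ n) : ∃ E : ℕ, ∀ (k : Type) [Field k] [NumberField k]
    (F : MvPolynomial (Fin 2) ℤ) (H : ℕ) (θ : k) (τ : k →+* ℝ) (x y : ℤ), F.totalDegree ≤ n →
    Irreducible (map (Int.castRingHom ℚ) (homogeneousComponent n F)) → 2 ≤ H →
    (∀ m, |F.coeff m| ≤ (H : ℤ)) → Polynomial.aeval θ (ftop n F) = 0 →
    IntermediateField.adjoin ℚ {θ} = ⊤ → Near (τ θ) x y → aeval ![x, y] F = (0 : ℤ) →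
    (H : ℤ) ^ E < max |x| |y| →
    max |x| |y| ≤ |x| ^ 2 ∧
      ExcA k τ n (Pool.Agent.H52.AC.cA n) x (F.coeff (Finsupp.single 1 n) * y) := by
  obtain ⟨C₁, hC₁⟩ := cpa n hn
  obtain ⟨C₂, hC₂⟩ := root_sep n
  refine ⟨C₁ * Pool.Agent.H52.AC.cA n + (2 * C₁ + C₂ + 3) * n.factorial + 2 * (C₂ + 2) + 4, ?_⟩
  intro k _ _ F H θ τ x y hdeg hirr hH hc hθ hk hnear hF hbig
  obtain ⟨hc0, b, Q, hb, hkap⟩ := hC₁ k F H θ hdeg hirr hH hc hθ hk
  have hHr : (2 : ℝ) ≤ H := by exact_mod_cast hH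
  have hH1 : (1 : ℝ) ≤ H := by linarith
  -- the polynomial
  have hp : (ftop n F).coeff n = F.coeff (Finsupp.single 1 n) := by
    rw [cpb_ftop_coeff, if_pos (by omega), Nat.sub_self, Finsupp.single_zero, zero_add]
  have hp0 : ftop n F ≠ 0 := by
    intro h
    rw [h, Polynomial.coeff_zero] at hp
    exact hc0 hp.symm
  have hpn : (ftop n F).natDegree = n :=
    le_antisymm (cpb_ftop_natDegree n F)
      (Polynomial.le_natDegree_of_ne_zero (by rw [hp]; exact hc0))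
  have hpirr : Irreducible ((ftop n F).map (Int.castRingHom ℚ)) := by
    rw [← cpb_ftop_map]
    exact (deh (by omega) (by rw [cpb_hc_map]; exact hirr)).2
  have ht : |τ θ| ≤ (H : ℝ) + 1 := cpb_root_bd hp0 (cpb_ftop_bd hc) (cpb_root τ hθ)
  have hns : ((y : ℝ) - τ θ * x) ^ 2 ≤ |(x : ℝ)| := hnear
  have hbigR : (H : ℝ) ^ (C₁ * Pool.Agent.H52.AC.cA n + (2 * C₁ + C₂ + 3) * n.factorial +
      2 * (C₂ + 2) + 4) < max |(x : ℝ)| |(y : ℝ)| := by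
    exact_mod_cast hbig
  have hx0 : x ≠ 0 := by
    rintro rfl
    rw [Int.cast_zero, mul_zero, sub_zero, abs_zero] at hns
    have h2 : (y : ℝ) = 0 := by nlinarith [sq_nonneg (y : ℝ)]
    rw [h2, Int.cast_zero, abs_zero, max_self] at hbigR
    have h3 : (0 : ℝ) ≤ (H : ℝ) ^ (C₁ * Pool.Agent.H52.AC.cA n + (2 * C₁ + C₂ + 3) * n.factorial +
      2 * (C₂ + 2) + 4) := by positivity
    linarith
  have hx1 : (1 : ℝ) ≤ |(x : ℝ)| := by
    rw [← Int.cast_abs]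
    exact_mod_cast Int.one_le_abs hx0
  have hd : |(y : ℝ) - τ θ * x| ≤ |(x : ℝ)| := by
    refine abs_le_of_sq_le_sq ?_ (abs_nonneg _)
    nlinarith
  have hy : |(y : ℝ)| ≤ ((H : ℝ) + 2) * |(x : ℝ)| := by
    have h1 : |(y : ℝ)| ≤ |(y : ℝ) - τ θ * x| + |τ θ * x| := by
      have := abs_add_le ((y : ℝ) - τ θ * x) (τ θ * x)
      rwa [sub_add_cancel] at this
    rw [abs_mul] at h1
    have h2 : |τ θ| * |(x : ℝ)| ≤ ((H : ℝ) + 1) * |(x : ℝ)| :=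
      mul_le_mul_of_nonneg_right ht (abs_nonneg _)
    have h3 : ((H : ℝ) + 2) * |(x : ℝ)| = ((H : ℝ) + 1) * |(x : ℝ)| + |(x : ℝ)| := by ring
    linarith
  have hmax : max |(x : ℝ)| |(y : ℝ)| ≤ (H : ℝ) ^ 2 * |(x : ℝ)| := by
    apply max_le
    · have h1 : (1 : ℝ) ≤ (H : ℝ) ^ 2 := one_le_pow₀ hH1
      nlinarith
    · exact hy.trans (mul_le_mul_of_nonneg_right (by nlinarith) (abs_nonneg _))
  have hpw : ∀ m : ℕ, m ≤ C₁ * Pool.Agent.H52.AC.cA n + (2 * C₁ + C₂ + 3) * n.factorial +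
      2 * (C₂ + 2) + 2 → (H : ℝ) ^ m < |(x : ℝ)| := by
    intro m hm
    have h1 : (H : ℝ) ^ 2 * (H : ℝ) ^ m ≤ (H : ℝ) ^ (C₁ * Pool.Agent.H52.AC.cA n +
        (2 * C₁ + C₂ + 3) * n.factorial + 2 * (C₂ + 2) + 4) := by
      rw [← pow_add]
      exact pow_le_pow_right₀ hH1 (by omega)
    exact lt_of_mul_lt_mul_left (lt_of_le_of_lt h1 (lt_of_lt_of_le hbigR hmax)) (by positivity)
  refine ⟨?_, ?_⟩
  · have h1 : max |(x : ℝ)| |(y : ℝ)| ≤ |(x : ℝ)| ^ 2 := by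
      refine hmax.trans ?_
      rw [pow_two |(x : ℝ)|]
      exact mul_le_mul_of_nonneg_right (hpw 2 (by omega)).le (abs_nonneg _)
    exact_mod_cast h1
  -- the threshold
  have hbR : (b : ℝ) ≤ (H : ℝ) ^ C₁ := by exact_mod_cast hb
  have hbx : (b : ℝ) ^ Pool.Agent.H52.AC.cA n ≤ |(x : ℝ)| := by
    calc (b : ℝ) ^ Pool.Agent.H52.AC.cA n ≤ ((H : ℝ) ^ C₁) ^ Pool.Agent.H52.AC.cA n :=
          pow_le_pow_left₀ (Nat.cast_nonneg _) hbR _
      _ = (H : ℝ) ^ (C₁ * Pool.Agent.H52.AC.cA n) := (pow_mul _ _ _).symm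
      _ ≤ |(x : ℝ)| := (hpw _ (by omega)).le
  -- the parameter
  have hxC : (x : ℂ) ≠ 0 := by exact_mod_cast hx0
  have he : 0 < Q.pd.e := Q.pd.e_pos
  have hq0 : (Q.pd.q : ℂ) ≠ 0 := by
    have := Q.pd.q_pos
    exact_mod_cast (by omega : Q.pd.q ≠ 0)
  obtain ⟨S, hS⟩ := IsAlgClosed.exists_pow_nat_eq (1 / (x : ℂ)) he
  set T : ℂ := S / (Q.pd.q : ℂ) with hTdef
  have hqT : (Q.pd.q : ℂ) * T = S := by rw [hTdef]; field_simp
  have hTx : ((Q.pd.q : ℂ) * T) ^ Q.pd.e * (x : ℂ) = 1 := by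
    rw [hqT, hS]
    field_simp
  have hSn : ‖S‖ ≤ 1 / (H : ℝ) ^ (2 * C₁ + C₂ + 3) := by
    by_contra hcon
    push Not at hcon
    have h1 : (1 / (H : ℝ) ^ (2 * C₁ + C₂ + 3)) ^ Q.pd.e ≤ ‖S‖ ^ Q.pd.e :=
      pow_le_pow_left₀ (by positivity) hcon.le _
    rw [← norm_pow, hS, norm_div, norm_one, Complex.norm_intCast, one_div_pow] at h1
    rw [one_div_le_one_div (by positivity) (by linarith), ← pow_mul] at h1
    have h2 := hpw ((2 * C₁ + C₂ + 3) * Q.pd.e) (by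
      have h3 : Q.pd.e ≤ n.factorial := Q.e_le
      have h4 : (2 * C₁ + C₂ + 3) * Q.pd.e ≤ (2 * C₁ + C₂ + 3) * n.factorial :=
        Nat.mul_le_mul_left _ h3
      omega)
    linarith
  have hTn : ‖T‖ ≤ ‖S‖ := by
    rw [hTdef, norm_div, Complex.norm_natCast]
    have h1 : (1 : ℝ) ≤ Q.pd.q := by exact_mod_cast Q.pd.q_pos
    exact div_le_self (norm_nonneg _) h1
  have hA1 : (1 : ℝ) ≤ (H : ℝ) ^ C₁ := one_le_pow₀ hH1
  have hB1 : (1 : ℝ) ≤ (H : ℝ) ^ C₂ := one_le_pow₀ hH1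
  have hTM : 8 * (((H : ℝ) ^ C₁) ^ 2 * (H : ℝ) ^ C₂ * ‖T‖) ≤ 1 := by
    have h1 : (H : ℝ) ^ (2 * C₁ + C₂ + 3) * ‖T‖ ≤ 1 := by
      have h2 := hTn.trans hSn
      rwa [le_div_iff₀ (by positivity), mul_comm] at h2
    have h3 : (H : ℝ) ^ (2 * C₁ + C₂ + 3) = (H : ℝ) ^ 3 * (((H : ℝ) ^ C₁) ^ 2 * (H : ℝ) ^ C₂) := by
      ring
    have h4 : (8 : ℝ) ≤ (H : ℝ) ^ 3 := by
      calc (8 : ℝ) = 2 ^ 3 := by norm_num
        _ ≤ (H : ℝ) ^ 3 := pow_le_pow_left₀ (by norm_num) hHr 3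
    calc 8 * (((H : ℝ) ^ C₁) ^ 2 * (H : ℝ) ^ C₂ * ‖T‖) ≤
        (H : ℝ) ^ 3 * (((H : ℝ) ^ C₁) ^ 2 * (H : ℝ) ^ C₂ * ‖T‖) :=
          mul_le_mul_of_nonneg_right h4 (by positivity)
      _ = (H : ℝ) ^ (2 * C₁ + C₂ + 3) * ‖T‖ := by rw [h3]; ring
      _ ≤ 1 := h1
  have hR0 : 0 ≤ Q.pd.R := by linarith [Q.pd.R_ge]
  have hRA : Q.pd.R ≤ (H : ℝ) ^ C₁ := Q.R_le.trans hbR
  have hT2 : Q.pd.R * ‖T‖ ≤ 1 / 2 := by
    have h1 : Q.pd.R * ‖T‖ ≤ (H : ℝ) ^ C₁ * ‖T‖ :=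
      mul_le_mul_of_nonneg_right hRA (norm_nonneg _)
    have h2 : (H : ℝ) ^ C₁ * ‖T‖ ≤ ((H : ℝ) ^ C₁) ^ 2 * (H : ℝ) ^ C₂ * ‖T‖ := by
      refine mul_le_mul_of_nonneg_right ?_ (norm_nonneg _)
      calc (H : ℝ) ^ C₁ = (H : ℝ) ^ C₁ * 1 * 1 := by ring
        _ ≤ (H : ℝ) ^ C₁ * (H : ℝ) ^ C₁ * (H : ℝ) ^ C₂ := by gcongr
        _ = ((H : ℝ) ^ C₁) ^ 2 * (H : ℝ) ^ C₂ := by ring
    linarith
  have hT : Q.pd.R * ‖T‖ < 1 := by linarith
  have hz := fa_ev hn hdeg hF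
  obtain ⟨i, hi⟩ := Q.branch hz hx0 hT hTx
  -- the embedding
  have hcR : (1 : ℝ) ≤ ‖((F.coeff (Finsupp.single 1 n) : ℤ) : ℂ)‖ := by
    rw [Complex.norm_intCast, ← Int.cast_abs]
    exact_mod_cast Int.one_le_abs hc0
  have hsep : ‖Q.kp.kap i θ - ((τ θ : ℝ) : ℂ)‖ * (H : ℝ) ^ C₂ < 1 := by
    set c : ℂ := ((F.coeff (Finsupp.single 1 n) : ℤ) : ℂ) with hcdef
    have h1 : (Q.kp.kap i θ - ((τ θ : ℝ) : ℂ)) * c =
        -(evT T (Q.pd.x i) - PowerSeries.constantCoeff (Q.pd.x i)) +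
          c * ((((y : ℝ) - τ θ * x : ℝ) : ℂ) / (x : ℂ)) := by
      rw [sub_mul, hkap i, hi]
      push_cast
      rw [← hcdef]
      field_simp
      ring
    have h2 := cpb_evT hR0 (Q.pd.growth i) hT2
    have h3 : ‖Q.kp.kap i θ - ((τ θ : ℝ) : ℂ)‖ * ‖c‖ ≤
        2 * Q.pd.R ^ 2 * ‖T‖ + ‖c‖ * (|(y : ℝ) - τ θ * x| / |(x : ℝ)|) := by
      rw [← norm_mul, h1]
      refine (norm_add_le _ _).trans ?_
      rw [norm_neg, norm_mul, norm_div, Complex.norm_real, Real.norm_eq_abs, Complex.norm_intCast x]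
      exact add_le_add h2 le_rfl
    have h4 : ‖Q.kp.kap i θ - ((τ θ : ℝ) : ℂ)‖ ≤
        2 * Q.pd.R ^ 2 * ‖T‖ + |(y : ℝ) - τ θ * x| / |(x : ℝ)| := by
      by_contra hcon
      push Not at hcon
      have h5 : (2 * Q.pd.R ^ 2 * ‖T‖ + |(y : ℝ) - τ θ * x| / |(x : ℝ)|) * ‖c‖ <
          ‖Q.kp.kap i θ - ((τ θ : ℝ) : ℂ)‖ * ‖c‖ := mul_lt_mul_of_pos_right hcon (by linarith)
      have h6 : 2 * Q.pd.R ^ 2 * ‖T‖ ≤ 2 * Q.pd.R ^ 2 * ‖T‖ * ‖c‖ :=
        le_mul_of_one_le_right (by positivity) hcR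
      nlinarith
    have h5 : 2 * Q.pd.R ^ 2 * ‖T‖ * (H : ℝ) ^ C₂ ≤ 1 / 4 := by
      calc 2 * Q.pd.R ^ 2 * ‖T‖ * (H : ℝ) ^ C₂ ≤ 2 * ((H : ℝ) ^ C₁) ^ 2 * ‖T‖ * (H : ℝ) ^ C₂ := by
            gcongr
        _ = 1 / 4 * (8 * (((H : ℝ) ^ C₁) ^ 2 * (H : ℝ) ^ C₂ * ‖T‖)) := by ring
        _ ≤ 1 / 4 * 1 := by linarith
        _ = 1 / 4 := by ring
    have h6 : |(y : ℝ) - τ θ * x| / |(x : ℝ)| * (H : ℝ) ^ C₂ ≤ 1 / 2 := by
      have h7 : (H : ℝ) ^ (C₂ + 2) * |(y : ℝ) - τ θ * x| ≤ |(x : ℝ)| := by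
        have h8 : ((H : ℝ) ^ (C₂ + 2)) ^ 2 < |(x : ℝ)| := by
          rw [← pow_mul]
          exact hpw _ (by omega)
        refine le_of_abs_le (abs_le_of_sq_le_sq ?_ (abs_nonneg _))
        rw [mul_pow, sq_abs, pow_two |(x : ℝ)|]
        exact mul_le_mul h8.le hns (sq_nonneg _) (abs_nonneg _)
      have h9 : 2 * ((H : ℝ) ^ C₂ * |(y : ℝ) - τ θ * x|) ≤ |(x : ℝ)| := by
        refine le_trans ?_ h7
        have h10 : (H : ℝ) ^ (C₂ + 2) = (H : ℝ) ^ 2 * (H : ℝ) ^ C₂ := by ring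
        rw [h10, mul_assoc]
        refine mul_le_mul_of_nonneg_right (by nlinarith) (by positivity)
      rw [div_mul_eq_mul_div, div_le_iff₀ (by linarith)]
      linarith
    have h7 := mul_le_mul_of_nonneg_right h4 (le_trans zero_le_one hB1)
    rw [add_mul] at h7
    linarith
  have hkt : Q.kp.kap i θ = ((τ θ : ℝ) : ℂ) := by
    by_contra hne
    have h1 := hC₂ (ftop n F) H hpn hH hpirr (cpb_ftop_bd hc) (Q.kp.kap i θ) ((τ θ : ℝ) : ℂ)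
      (cpb_root _ hθ) (cpb_root (Complex.ofRealHom.comp τ) hθ) hne
    linarith
  refine ⟨n, b, Fa n F, Q, i, T, hz, hTx, ?_, cpb_ext hk hkt, hbx⟩
  rw [← hi]
  exact (CvT_of hR0 (Q.pd.growth i) hT).hasSum

end Pool.Agent.H12.ON
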