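import Mathlib

/-! # [H12 ON] THEOREM ONE (MP_821da1_nt): definitions

Full proof: think 1261. `k` is a field of characteristic zero, `Ω` an algebraically closed field over `k`.
`ftop n F` = `f(1,T)`, `f` the part of degree `n` of `F`. `Tp k n F`: `F` has degree `n ≥ 3` and `f(1,T)` is irreducible of degree `n`
over `k`. `Cv k Ω n F`: moreover `F` is irreducible over `Ω`, smooth and without homothety.
`Link k P Q`: the points `P`, `Q` behave in the same way at all valuation rings of `Ω` over `k`.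
`Apx ι V t z g`: the element `z` has the expansion `g(t)` in `V`.
`box n K`: the exponents `(i,j)`, `j < n`, `i + j ≤ K`; `mon P u` = `x^i y^j`; `ev2` = a polynomial in two points, degrees in `box`. -/

namespace Pool.Agent.H12.ON

open MvPolynomial Finset

/-- `f(1,T)`, `f` the homogeneous part of degree `n` of `F` -/
noncomputable def ftop {k : Type} [CommRing k] (n : ℕ) (F : MvPolynomial (Fin 2) k) : Polynomial k :=
  ∑ j ∈ range (n + 1), Polynomial.monomial j (F.coeff (Finsupp.single 0 (n - j) + Finsupp.single 1 j))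

/-- `F` has degree `n ≥ 3` and `f(1,T)` is irreducible of degree `n` -/
structure Tp (k : Type) [Field k] (n : ℕ) (F : MvPolynomial (Fin 2) k) : Prop where
  n3 : 3 ≤ n
  deg : F.totalDegree ≤ n
  top : (ftop n F).natDegree = n
  irr : Irreducible (ftop n F)

/-- the curves of THEOREM ONE over `k`; the geometric conditions are over `Ω` -/
structure Cv (k Ω : Type) [Field k] [Field Ω] [Algebra k Ω] (n : ℕ) (F : MvPolynomial (Fin 2) k) : Prop
    extends Tp k n F where
  absi : Irreducible (map (algebraMap k Ω) F)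
  smooth : ∀ a b : Ω, aeval ![a, b] F = 0 →
    aeval ![a, b] (pderiv 0 F) ≠ 0 ∨ aeval ![a, b] (pderiv 1 F) ≠ 0
  nohom : ∀ (w : Fin 2 → Ω) (z : Ω), z ≠ 0 →
    aeval (fun i => C (w i) + C z * X i : Fin 2 → MvPolynomial (Fin 2) Ω) F =
      C (z ^ n) * aeval (fun i => C (w i) + X i : Fin 2 → MvPolynomial (Fin 2) Ω) F → z = 1

/-- `V` is a valuation ring over `k` -/
def Ov (k : Type) {Ω : Type} [Field k] [Field Ω] [Algebra k Ω] (V : ValuationSubring Ω) : Prop :=
  ∀ e : k, algebraMap k Ω e ∈ V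

/-- linked points: the same behaviour at all valuation rings over `k` -/
def Link (k : Type) {Ω : Type} [Field k] [Field Ω] [Algebra k Ω] (P Q : Ω × Ω) : Prop :=
  ∀ V : ValuationSubring Ω, Ov k V → (P.1 ∈ V ↔ Q.1 ∈ V) ∧
    (P.1 ∉ V → P.1 / Q.1 ∈ V ∧ Q.1 / P.1 ∈ V ∧ P.2 / P.1 - Q.2 / Q.1 ∈ V.nonunits)

/-- the points of `F` linked with `P` -/
def cls (k : Type) {Ω : Type} [Field k] [Field Ω] [Algebra k Ω] (F : MvPolynomial (Fin 2) k) (P : Ω × Ω) :
    Set (Ω × Ω) := {Q | aeval ![Q.1, Q.2] F = 0 ∧ Link k P Q}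

/-- the element `z` has the expansion `g(t)` in `V` -/
def Apx {kk Ω : Type} [Field kk] [Field Ω] (ι : kk →+* Ω) (V : ValuationSubring Ω) (t z : Ω)
    (g : PowerSeries kk) : Prop :=
  ∀ N : ℕ, ∃ r ∈ V, z = ∑ a ∈ range N, ι (PowerSeries.coeff a g) * t ^ a + r * t ^ N

/-- `X^n F(1/X, φ/X)` -/
noncomputable def Fser {k kk : Type} [Field k] [Field kk] [Algebra k kk] (n : ℕ)
    (F : MvPolynomial (Fin 2) k) (φ : PowerSeries kk) : PowerSeries kk :=
  ∑ m ∈ F.support, PowerSeries.C (algebraMap k kk (F.coeff m)) * PowerSeries.X ^ (n - m 0 - m 1) * φ ^ (m 1)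

/-- the exponents `(i,j)` with `j < n` and `i + j ≤ K` -/
def box (n K : ℕ) : Finset (ℕ × ℕ) := (range (K + 1) ×ˢ range n).filter (fun u => u.1 + u.2 ≤ K)

/-- `x^i y^j` -/
def mon {Ω : Type} [Field Ω] (P : Ω × Ω) (u : ℕ × ℕ) : Ω := P.1 ^ u.1 * P.2 ^ u.2

/-- the value of a polynomial in two points -/
noncomputable def ev2 (k : Type) {Ω : Type} [Field k] [Field Ω] [Algebra k Ω] (I J : Finset (ℕ × ℕ))
    (s : ℕ × ℕ → ℕ × ℕ → k) (P Q : Ω × Ω) : Ω :=
  ∑ u ∈ I, ∑ v ∈ J, algebraMap k Ω (s u v) * mon P u * mon Q v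

/-- the coefficients of `x^(-K) x^i y^j` as a power series in `1/x`, for `y/x = φ(1/x)` -/
noncomputable def cc {kk : Type} [Field kk] (K : ℕ) (φ : PowerSeries kk) (u : ℕ × ℕ) (a : ℕ) : kk :=
  PowerSeries.coeff a (PowerSeries.X ^ (K - u.1 - u.2) * φ ^ u.2)

/-- the coefficient of `t₁^a t₂^b` of `s` -/
noncomputable def c2 {k kk : Type} [Field k] [Field kk] [Algebra k kk] (I J : Finset (ℕ × ℕ)) (K1 K2 : ℕ)
    (φ ψ : PowerSeries kk) (s : ℕ × ℕ → ℕ × ℕ → k) (a b : ℕ) : kk :=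
  ∑ u ∈ I, ∑ v ∈ J, algebraMap k kk (s u v) * cc K1 φ u a * cc K2 ψ v b

end Pool.Agent.H12.ON
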