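import Pool.Agent.H12.ON.Pt

/-! # [H12 ON DEG] Degrees modulo `F` and orders at infinity

`topc d p` = `∑_{j ≤ d} coeff(d-j, j) p T^j` is `ftop d p`.
* `red`: division by `F` in `y` which does not raise the total degree. `F = c y^n + F'`, `c ∈ k` nonzero, the monomials of `F'` have `m 1 < n`
  and `m 0 + m 1 ≤ n`. A monomial `x^i y^j` with `j ≥ n` equals `c⁻¹ x^i y^(j-n) F - c⁻¹ x^i y^(j-n) F'`, and the second term has total degree
  `≤ i + j` and smaller `y`-degree. Induction on the `y`-degree (for monomials, then linear combination).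
* `top_le`: `p(x,y) / x^d ∈ V` for `d ≥ totalDegree p` (`x⁻¹, y/x ∈ V`).
* `top_res`: more precisely `p(x,y)/x^d - f_d(1,θ) ∈ V.nonunits`, `f_d(1,T) = ftop d p`, when `y/x - θ ∈ V.nonunits` (`top_dec` for `p`, `n := d`).
* `top_unit`: `q ≠ 0` with `m 1 < n` on the support, `d = totalDegree q`: `ftop d q` is a nonzero polynomial (some monomial of total degree `d`)
  of degree `< n`; `θ` is a root of the irreducible polynomial `ftop n F` of degree `n` (the `θ` of `pt_inf`), so `ftop d q (θ) ≠ 0`, it is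
  algebraic over `k`, a unit of `V` (`val_unit`). So `q(x,y)/x^d` is a unit of `V`. -/

namespace Pool.Agent.H12.ON

open MvPolynomial Finset

private theorem fs2 (m : Fin 2 →₀ ℕ) : Finsupp.single 0 (m 0) + Finsupp.single 1 (m 1) = m := by
  ext i
  fin_cases i <;> simp

private theorem sum2 (m : Fin 2 →₀ ℕ) : (m.sum fun _ e => e) = m 0 + m 1 := by
  rw [Finsupp.sum_fintype _ _ (fun _ => rfl), Fin.sum_univ_two]

private theorem le2 {k : Type} [CommRing k] {p : MvPolynomial (Fin 2) k} {m : Fin 2 →₀ ℕ} (hm : m ∈ p.support) :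
    m 0 + m 1 ≤ p.totalDegree := by
  rw [← sum2 m]
  exact le_totalDegree hm

private theorem ftop_coeff {k : Type} [CommRing k] (n : ℕ) (F : MvPolynomial (Fin 2) k) {j : ℕ} (hj : j ≤ n) :
    (ftop n F).coeff j = F.coeff (Finsupp.single 0 (n - j) + Finsupp.single 1 j) := by
  unfold ftop
  rw [Polynomial.finsetSum_coeff]
  rw [Finset.sum_eq_single j]
  · rw [Polynomial.coeff_monomial, if_pos rfl]
  · intro b _ hb
    rw [Polynomial.coeff_monomial, if_neg hb]
  · intro h
    exact absurd (mem_range.2 (Nat.lt_succ_of_le hj)) h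

private theorem ftop_coeff' {k : Type} [CommRing k] (n : ℕ) (F : MvPolynomial (Fin 2) k) {j : ℕ} (hj : n < j) :
    (ftop n F).coeff j = 0 := by
  unfold ftop
  rw [Polynomial.finsetSum_coeff]
  refine Finset.sum_eq_zero (fun b hb => ?_)
  rw [Polynomial.coeff_monomial, if_neg]
  have := mem_range.1 hb
  omega

private theorem lead_ne {k : Type} [Field k] {n : ℕ} {F : MvPolynomial (Fin 2) k} (hF : Tp k n F) :
    F.coeff (Finsupp.single 1 n) ≠ 0 := by
  have h1 : (ftop n F).leadingCoeff ≠ 0 := Polynomial.leadingCoeff_ne_zero.2 hF.irr.ne_zero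
  unfold Polynomial.leadingCoeff at h1
  rw [hF.top, ftop_coeff n F le_rfl] at h1
  simpa using h1

private noncomputable def SD {k : Type} [Field k] (n D : ℕ) (F : MvPolynomial (Fin 2) k) : Submodule k (MvPolynomial (Fin 2) k) :=
  ((Ideal.span {F}).restrictScalars k) ⊔ restrictSupport k {m : Fin 2 →₀ ℕ | m 1 < n ∧ m 0 + m 1 ≤ D}

private theorem mono_mem {k : Type} [Field k] {n : ℕ} {F : MvPolynomial (Fin 2) k} (hF : Tp k n F) (D : ℕ) :
    ∀ (N : ℕ) (m : Fin 2 →₀ ℕ) (a : k), m 1 ≤ N → m 0 + m 1 ≤ D → monomial m a ∈ SD n D F := by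
  intro N
  induction N using Nat.strong_induction_on with
  | _ N ih =>
    intro m a hN hD
    by_cases hlt : m 1 < n
    · refine Submodule.mem_sup_right ?_
      rw [mem_restrictSupport_iff]
      intro m' hm'
      have h1 := support_monomial_subset (Finset.mem_coe.1 hm')
      rw [Finset.mem_singleton] at h1
      subst h1
      exact ⟨hlt, hD⟩
    · push Not at hlt
      have hc := lead_ne hF
      obtain ⟨c, hcd⟩ : ∃ c, c = F.coeff (Finsupp.single 1 n) := ⟨_, rfl⟩
      rw [← hcd] at hc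
      obtain ⟨m', hm'⟩ : ∃ m' : Fin 2 →₀ ℕ, m' = m - Finsupp.single 1 n := ⟨_, rfl⟩
      have hmm : m' + Finsupp.single 1 n = m := by
        rw [hm']
        ext i
        fin_cases i <;> simp
        omega
      have hm0 : m' 0 = m 0 := by
        rw [← hmm]
        simp
      have hm1 : m' 1 + n = m 1 := by
        rw [← hmm]
        simp
      have hsplit : monomial m a = monomial m' (a * c⁻¹) * F -
          ∑ u ∈ F.support.erase (Finsupp.single 1 n), monomial (m' + u) (a * c⁻¹ * F.coeff u) := by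
        obtain ⟨G, hG⟩ : ∃ G, G = ∑ u ∈ F.support.erase (Finsupp.single 1 n), monomial u (F.coeff u) := ⟨_, rfl⟩
        have hFs : monomial (Finsupp.single 1 n) c + G = F := by
          have hmem : Finsupp.single 1 n ∈ F.support := by
            rw [mem_support_iff, ← hcd]
            exact hc
          rw [hcd, hG, Finset.add_sum_erase _ (fun u => monomial u (F.coeff u)) hmem]
          exact F.as_sum.symm
        have e1 : ∀ u ∈ (F.support.erase (Finsupp.single 1 n)), monomial (m' + u) (a * c⁻¹ * F.coeff u) =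
            monomial m' (a * c⁻¹) * monomial u (F.coeff u) := by
          intro u _
          rw [monomial_mul]
        have e2 : monomial m a = monomial m' (a * c⁻¹) * monomial (Finsupp.single 1 n) c := by
          rw [monomial_mul, hmm, mul_assoc, inv_mul_cancel₀ hc, mul_one]
        have e3 : monomial (Finsupp.single 1 n) c = F - G := by
          rw [eq_sub_iff_add_eq]
          exact hFs
        rw [Finset.sum_congr rfl e1, ← Finset.mul_sum, ← hG, e2, e3]
        ring
      rw [hsplit]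
      refine Submodule.sub_mem _ (Submodule.mem_sup_left ?_) (Submodule.sum_mem _ (fun u hu => ?_))
      · rw [Submodule.restrictScalars_mem]
        exact Ideal.mul_mem_left _ _ (Ideal.subset_span rfl)
      · have hu1 := (Finset.mem_erase.1 hu).1
        have hu2 := le2 (Finset.mem_erase.1 hu).2
        have hu3 := hF.deg
        have hu4 : u 1 < n := by
          by_contra h
          push Not at h
          have h0 : u 0 = 0 := by omega
          have h1 : u 1 = n := by omega
          apply hu1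
          rw [← fs2 u, h0, h1]
          simp
        have hv1 : (m' + u) 1 = m' 1 + u 1 := rfl
        have hv0 : (m' + u) 0 = m' 0 + u 0 := rfl
        exact ih ((m' + u) 1) (by omega) (m' + u) _ le_rfl (by omega)

theorem red {k : Type} [Field k] {n : ℕ} {F : MvPolynomial (Fin 2) k} (hF : Tp k n F)
    (p : MvPolynomial (Fin 2) k) : ∃ q r : MvPolynomial (Fin 2) k,
      p = q * F + r ∧ r.totalDegree ≤ p.totalDegree ∧ ∀ m ∈ r.support, m 1 < n := by
  have h1 : p ∈ SD n p.totalDegree F := by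
    rw [p.as_sum]
    rw [← p.as_sum]
    have : (∑ u ∈ p.support, monomial u (p.coeff u)) ∈ SD n p.totalDegree F :=
      Submodule.sum_mem _ (fun u hu => mono_mem hF _ (u 1) u _ le_rfl (le2 hu))
    rwa [← p.as_sum] at this
  obtain ⟨a, ha, r, hr, hsum⟩ := Submodule.mem_sup.1 h1
  obtain ⟨q, rfl⟩ := Ideal.mem_span_singleton'.1 ha
  rw [mem_restrictSupport_iff] at hr
  refine ⟨q, r, hsum.symm, ?_, fun m hm => (hr (Finset.mem_coe.2 hm)).1⟩
  unfold totalDegree
  refine Finset.sup_le (fun m hm => ?_)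
  rw [sum2]
  exact (hr (Finset.mem_coe.2 hm)).2

private theorem aeval_mem {k Ω : Type} [Field k] [Field Ω] [Algebra k Ω] {V : ValuationSubring Ω} (hV : Ov k V)
    (f : Polynomial k) {z w : Ω} (hz : z ∈ V) (hw : w ∈ V) (hzw : z - w ∈ V.nonunits) :
    Polynomial.aeval z f ∈ V ∧ Polynomial.aeval z f - Polynomial.aeval w f ∈ V.nonunits := by
  obtain ⟨g, hg⟩ : ∃ g : Polynomial V, g = f.map ((algebraMap k Ω).codRestrict V.toSubring hV) := ⟨_, rfl⟩
  have he : ∀ (u : Ω) (hu : u ∈ V), ((g.eval (⟨u, hu⟩ : V) : V) : Ω) = Polynomial.aeval u f := by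
    intro u hu
    rw [hg, Polynomial.eval_map, Polynomial.aeval_def]
    have := Polynomial.hom_eval₂ f ((algebraMap k Ω).codRestrict V.toSubring hV) V.subtype (⟨u, hu⟩ : V)
    exact this
  have hd := Polynomial.sub_dvd_eval_sub (⟨z, hz⟩ : V) ⟨w, hw⟩ g
  have hm : (⟨z, hz⟩ : V) - ⟨w, hw⟩ ∈ IsLocalRing.maximalIdeal V := by
    rw [← ValuationSubring.coe_mem_nonunits_iff]
    exact hzw
  have hm2 := Ideal.mem_of_dvd _ hd hm
  rw [← ValuationSubring.coe_mem_nonunits_iff] at hm2
  constructor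
  · rw [← he z hz]
    exact (g.eval (⟨z, hz⟩ : V)).2
  · rw [← he z hz, ← he w hw]
    exact hm2

private theorem non_add {Ω : Type} [Field Ω] {V : ValuationSubring Ω} {a b : Ω} (ha : a ∈ V.nonunits)
    (hb : b ∈ V.nonunits) : a + b ∈ V.nonunits := by
  rw [ValuationSubring.mem_nonunits_iff_exists_mem_maximalIdeal] at ha hb ⊢
  obtain ⟨h1, h2⟩ := ha
  obtain ⟨h3, h4⟩ := hb
  exact ⟨V.add_mem _ _ h1 h3, Ideal.add_mem _ h2 h4⟩

private theorem non_mul {Ω : Type} [Field Ω] {V : ValuationSubring Ω} {a b : Ω} (ha : a ∈ V.nonunits)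
    (hb : b ∈ V) : a * b ∈ V.nonunits := by
  rw [ValuationSubring.mem_nonunits_iff_exists_mem_maximalIdeal] at ha ⊢
  obtain ⟨h1, h2⟩ := ha
  exact ⟨V.mul_mem _ _ h1 hb, Ideal.mul_mem_right (⟨b, hb⟩ : V) _ h2⟩

private theorem non_mem {Ω : Type} [Field Ω] {V : ValuationSubring Ω} {a : Ω} (ha : a ∈ V.nonunits) : a ∈ V := by
  rw [ValuationSubring.mem_nonunits_iff_exists_mem_maximalIdeal] at ha
  exact ha.1

theorem top_res {k Ω : Type} [Field k] [Field Ω] [Algebra k Ω] {V : ValuationSubring Ω} (hV : Ov k V)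
    {x y θ : Ω} (hx : x ∉ V) (hθ : IsAlgebraic k θ) (hy : y / x - θ ∈ V.nonunits) {d : ℕ}
    {p : MvPolynomial (Fin 2) k} (hp : p.totalDegree ≤ d) :
    aeval ![x, y] p / x ^ d ∈ V ∧ aeval ![x, y] p / x ^ d - Polynomial.aeval θ (ftop d p) ∈ V.nonunits := by
  have hx0 : x ≠ 0 := by
    rintro rfl
    exact hx V.zero_mem
  have hθV : θ ∈ V := val_alg hV hθ
  have hzV : y / x ∈ V := by
    have := V.add_mem _ _ (non_mem hy) hθV
    rwa [sub_add_cancel] at this
  have hxn : x⁻¹ ∈ V.nonunits := V.inv_mem_nonunits_iff.2 (Or.inr hx)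
  have hxi : x⁻¹ ∈ V := non_mem hxn
  obtain ⟨W, hW, hdec⟩ := top_dec (k := k) (Ω := Ω) hp (x := x) (y := y) hx0
  have hWV := hW V hV hxi hzV
  have h1 : aeval ![x, y] p / x ^ d = Polynomial.aeval (y / x) (ftop d p) + x⁻¹ * W := by
    rw [hdec, mul_div_cancel_left₀ _ (pow_ne_zero d hx0)]
  obtain ⟨h2, h3⟩ := aeval_mem hV (ftop d p) hzV hθV hy
  rw [h1]
  refine ⟨V.add_mem _ _ h2 (V.mul_mem _ _ hxi hWV), ?_⟩
  rw [show Polynomial.aeval (y / x) (ftop d p) + x⁻¹ * W - Polynomial.aeval θ (ftop d p) =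
    (Polynomial.aeval (y / x) (ftop d p) - Polynomial.aeval θ (ftop d p)) + x⁻¹ * W by ring]
  exact non_add h3 (non_mul hxn hWV)

theorem top_unit {k Ω : Type} [Field k] [Field Ω] [IsAlgClosed Ω] [Algebra k Ω] {n : ℕ}
    {F : MvPolynomial (Fin 2) k} (hF : Tp k n F) {V : ValuationSubring Ω} (hV : Ov k V) {x y : Ω}
    (h0 : aeval ![x, y] F = 0) (hx : x ∉ V) {q : MvPolynomial (Fin 2) k} (hq : q ≠ 0)
    (hqn : ∀ m ∈ q.support, m 1 < n) :
    aeval ![x, y] q ≠ 0 ∧ aeval ![x, y] q / x ^ q.totalDegree ∈ V ∧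
      x ^ q.totalDegree / aeval ![x, y] q ∈ V := by
  obtain ⟨_, θ, hθ0, hθ⟩ := pt_inf hF hV h0 hx
  have hθa : IsAlgebraic k θ := ⟨ftop n F, hF.irr.ne_zero, hθ0⟩
  obtain ⟨h1, h2⟩ := top_res hV hx hθa hθ (le_refl q.totalDegree)
  -- the top part of `q` is nonzero of degree `< n`
  obtain ⟨m, hm, hmd⟩ : ∃ m ∈ q.support, m 0 + m 1 = q.totalDegree := by
    obtain ⟨m, hm, hmd⟩ := Finset.exists_mem_eq_sup q.support (support_nonempty.2 hq) (fun s => s.sum fun _ e => e)
    refine ⟨m, hm, ?_⟩
    rw [← sum2 m]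
    exact hmd.symm
  have hc : (ftop q.totalDegree q).coeff (m 1) ≠ 0 := by
    rw [ftop_coeff _ _ (by omega), show q.totalDegree - m 1 = m 0 by omega, fs2]
    exact mem_support_iff.1 hm
  have hne : ftop q.totalDegree q ≠ 0 := by
    intro h
    rw [h] at hc
    exact hc (Polynomial.coeff_zero _)
  have hdeg : (ftop q.totalDegree q).natDegree < n := by
    by_contra h
    push Not at h
    have h3 : (ftop q.totalDegree q).leadingCoeff ≠ 0 := Polynomial.leadingCoeff_ne_zero.2 hne
    unfold Polynomial.leadingCoeff at h3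
    obtain ⟨j, hj⟩ : ∃ j, j = (ftop q.totalDegree q).natDegree := ⟨_, rfl⟩
    rw [← hj] at h h3
    by_cases hjd : j ≤ q.totalDegree
    · rw [ftop_coeff _ _ hjd] at h3
      have h4 := hqn _ (mem_support_iff.2 h3)
      simp at h4
      omega
    · push Not at hjd
      exact h3 (ftop_coeff' _ _ hjd)
  have hval : Polynomial.aeval θ (ftop q.totalDegree q) ≠ 0 := by
    intro h
    have h3 := minpoly.degree_le_of_ne_zero k θ hne h
    rw [← minpoly.eq_of_irreducible hF.irr hθ0, Polynomial.degree_mul_C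
      (inv_ne_zero (Polynomial.leadingCoeff_ne_zero.2 hF.irr.ne_zero)),
      Polynomial.degree_eq_natDegree hF.irr.ne_zero, Polynomial.degree_eq_natDegree hne, hF.top] at h3
    have h4 : n ≤ (ftop q.totalDegree q).natDegree := by exact_mod_cast h3
    omega
  have halg : IsAlgebraic k (Polynomial.aeval θ (ftop q.totalDegree q)) := by
    have hi := hθa.isIntegral
    have : IsIntegral k (Polynomial.aeval θ (ftop q.totalDegree q)) :=
      IsIntegral.of_mem_of_fg _ hi.fg_adjoin_singleton _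
        (Polynomial.aeval_mem_adjoin_singleton k θ)
    exact this.isAlgebraic
  have hnon : aeval ![x, y] q / x ^ q.totalDegree ∉ V.nonunits := by
    intro h
    apply val_unit hV halg hval
    have h3 : -(aeval ![x, y] q / x ^ q.totalDegree - Polynomial.aeval θ (ftop q.totalDegree q)) ∈ V.nonunits := by
      have := non_mul h2 (V.neg_mem _ V.one_mem)
      rwa [mul_neg, mul_one] at this
    have h4 := non_add h h3
    rwa [show aeval ![x, y] q / x ^ q.totalDegree +
      -(aeval ![x, y] q / x ^ q.totalDegree - Polynomial.aeval θ (ftop q.totalDegree q)) =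
      Polynomial.aeval θ (ftop q.totalDegree q) by ring] at h4
  rw [V.mem_nonunits_iff_or] at hnon
  push Not at hnon
  obtain ⟨hn1, hn2⟩ := hnon
  refine ⟨?_, h1, ?_⟩
  · intro h
    rw [h, zero_div] at hn1
    exact hn1 rfl
  · rwa [inv_div] at hn2

end Pool.Agent.H12.ON
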