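import Pool.Agent.H12.ON.Apx

/-! # [H12 ON EXP] The expansion of a polynomial in two points

`t = P.1⁻¹`, `t' = Q.1⁻¹` in `V` (valuation ring, `P.1, Q.1 ∉ V`), `z = P.2/P.1`, `z' = Q.2/Q.1`. For `u ∈ box n K1` (`u.1 + u.2 ≤ K1`):
`mon P u = P.1^K1 * (t^(K1 - u.1 - u.2) z^(u.2))`, and `Apx ι V t (t^(K1-u.1-u.2) z^(u.2)) (X^(K1-u.1-u.2) φ^(u.2))` (Apx.pow, Apx.var, Apx.mul):
`= ∑_{a<N} ι(cc K1 φ u a) t^a + r_u t^N`. The same for `Q`. Multiply, multiply by `s u v`, sum: the product of the two main parts gives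
`∑_{a,b<N} ι(c2 … a b) t^a t'^b` (`ι` is `k`-linear: `ι (algebraMap k kk c) = algebraMap k Ω c`); the rest is in `t^N V + t'^N V`. -/

namespace Pool.Agent.H12.ON

open Finset

/-- one point -/
private theorem exp1 {kk Ω : Type} [Field kk] [Field Ω] (ι : kk →+* Ω) {V : ValuationSubring Ω}
    (hι : ∀ c, ι c ∈ V) {P : Ω × Ω} (hP : P.1 ∉ V) {φ : PowerSeries kk}
    (h1 : Apx ι V P.1⁻¹ (P.2 / P.1) φ) (n K N : ℕ) (u : ℕ × ℕ) (hu : u ∈ box n K) :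
    ∃ r ∈ V, mon P u = P.1 ^ K * (∑ a ∈ range N, ι (cc K φ u a) * P.1⁻¹ ^ a + r * P.1⁻¹ ^ N) := by
  have ht : P.1⁻¹ ∈ V := (V.mem_or_inv_mem P.1).resolve_left hP
  have hP0 : P.1 ≠ 0 := by
    intro h
    exact hP (h ▸ V.zero_mem)
  have hu2 : u.1 + u.2 ≤ K := (mem_filter.1 hu).2
  have h2 : Apx ι V P.1⁻¹ (P.1⁻¹ ^ (K - u.1 - u.2) * (P.2 / P.1) ^ u.2)
      (PowerSeries.X ^ (K - u.1 - u.2) * φ ^ u.2) :=
    Apx.mul hι ht (Apx.pow hι ht (Apx.var hι ht) _) (Apx.pow hι ht h1 _)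
  obtain ⟨r, hr, h3⟩ := h2 N
  refine ⟨r, hr, ?_⟩
  have h4 : mon P u = P.1 ^ K * (P.1⁻¹ ^ (K - u.1 - u.2) * (P.2 / P.1) ^ u.2) := by
    have h5 : P.1 ^ K = P.1 ^ (K - u.1 - u.2) * P.1 ^ u.1 * P.1 ^ u.2 := by
      rw [← pow_add, ← pow_add]
      congr 1
      omega
    have h6 : P.1 ^ (K - u.1 - u.2) ≠ 0 := pow_ne_zero _ hP0
    have h7 : P.1 ^ u.2 ≠ 0 := pow_ne_zero _ hP0
    unfold mon
    rw [h5, inv_pow, div_pow]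
    field_simp
  rw [h4, h3]
  rfl

theorem exp2 {k kk Ω : Type} [Field k] [Field kk] [Field Ω] [Algebra k kk] [Algebra k Ω] (ι : kk →ₐ[k] Ω)
    {V : ValuationSubring Ω} (hι : ∀ c, ι c ∈ V) {P Q : Ω × Ω} (hP : P.1 ∉ V) (hQ : Q.1 ∉ V)
    {φ ψ : PowerSeries kk} (h1 : Apx (ι : kk →+* Ω) V P.1⁻¹ (P.2 / P.1) φ)
    (h2 : Apx (ι : kk →+* Ω) V Q.1⁻¹ (Q.2 / Q.1) ψ) (n K1 K2 N : ℕ) (s : ℕ × ℕ → ℕ × ℕ → k) :
    ∃ r r' : Ω, r ∈ V ∧ r' ∈ V ∧ ev2 k (box n K1) (box n K2) s P Q =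
      P.1 ^ K1 * Q.1 ^ K2 * (∑ w ∈ range N ×ˢ range N,
        ι (c2 (box n K1) (box n K2) K1 K2 φ ψ s w.1 w.2) * P.1⁻¹ ^ w.1 * Q.1⁻¹ ^ w.2 +
        r * P.1⁻¹ ^ N + r' * Q.1⁻¹ ^ N) := by
  classical
  have ht : P.1⁻¹ ∈ V := (V.mem_or_inv_mem P.1).resolve_left hP
  have ht' : Q.1⁻¹ ∈ V := (V.mem_or_inv_mem Q.1).resolve_left hQ
  have e1 : ∀ u : ℕ × ℕ, ∃ r ∈ V, u ∈ box n K1 →
      mon P u = P.1 ^ K1 * (∑ a ∈ range N, ι (cc K1 φ u a) * P.1⁻¹ ^ a + r * P.1⁻¹ ^ N) := by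
    intro u
    by_cases hu : u ∈ box n K1
    · obtain ⟨r, hr, h⟩ := exp1 (ι : kk →+* Ω) hι hP h1 n K1 N u hu
      exact ⟨r, hr, fun _ => h⟩
    · exact ⟨0, V.zero_mem, fun h => absurd h hu⟩
  have e2 : ∀ u : ℕ × ℕ, ∃ r ∈ V, u ∈ box n K2 →
      mon Q u = Q.1 ^ K2 * (∑ a ∈ range N, ι (cc K2 ψ u a) * Q.1⁻¹ ^ a + r * Q.1⁻¹ ^ N) := by
    intro u
    by_cases hu : u ∈ box n K2
    · obtain ⟨r, hr, h⟩ := exp1 (ι : kk →+* Ω) hι hQ h2 n K2 N u hu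
      exact ⟨r, hr, fun _ => h⟩
    · exact ⟨0, V.zero_mem, fun h => absurd h hu⟩
  choose r hr hPu using e1
  choose r' hr' hQv using e2
  obtain ⟨A, hA⟩ : ∃ A : ℕ × ℕ → Ω, ∀ u, A u = ∑ a ∈ range N, ι (cc K1 φ u a) * P.1⁻¹ ^ a :=
    ⟨_, fun _ => rfl⟩
  obtain ⟨B, hB⟩ : ∃ B : ℕ × ℕ → Ω, ∀ v, B v = ∑ a ∈ range N, ι (cc K2 ψ v a) * Q.1⁻¹ ^ a :=
    ⟨_, fun _ => rfl⟩
  have hAV : ∀ u, A u ∈ V := by
    intro u
    rw [hA]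
    exact sum_mem fun a _ => mul_mem (hι _) (pow_mem ht _)
  have hBV : ∀ v, B v ∈ V := by
    intro v
    rw [hB]
    exact sum_mem fun a _ => mul_mem (hι _) (pow_mem ht' _)
  have hs : ∀ u v, algebraMap k Ω (s u v) ∈ V := by
    intro u v
    rw [← ι.commutes]
    exact hι _
  refine ⟨∑ u ∈ box n K1, ∑ v ∈ box n K2, algebraMap k Ω (s u v) * r u * (B v + r' v * Q.1⁻¹ ^ N),
    ∑ u ∈ box n K1, ∑ v ∈ box n K2, algebraMap k Ω (s u v) * A u * r' v, ?_, ?_, ?_⟩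
  · exact sum_mem fun u _ => sum_mem fun v _ => mul_mem (mul_mem (hs u v) (hr u))
      (add_mem (hBV v) (mul_mem (hr' v) (pow_mem ht' _)))
  · exact sum_mem fun u _ => sum_mem fun v _ => mul_mem (mul_mem (hs u v) (hAV u)) (hr' v)
  · have hmain : ∑ w ∈ range N ×ˢ range N,
        ι (c2 (box n K1) (box n K2) K1 K2 φ ψ s w.1 w.2) * P.1⁻¹ ^ w.1 * Q.1⁻¹ ^ w.2 =
        ∑ u ∈ box n K1, ∑ v ∈ box n K2, algebraMap k Ω (s u v) * A u * B v := by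
      have h3 : ∀ w : ℕ × ℕ, ι (c2 (box n K1) (box n K2) K1 K2 φ ψ s w.1 w.2) * P.1⁻¹ ^ w.1 * Q.1⁻¹ ^ w.2 =
          ∑ u ∈ box n K1, ∑ v ∈ box n K2, algebraMap k Ω (s u v) *
            ((ι (cc K1 φ u w.1) * P.1⁻¹ ^ w.1) * (ι (cc K2 ψ v w.2) * Q.1⁻¹ ^ w.2)) := by
        intro w
        unfold c2
        rw [map_sum, sum_mul, sum_mul]
        refine sum_congr rfl fun u _ => ?_
        rw [map_sum, sum_mul, sum_mul]
        refine sum_congr rfl fun v _ => ?_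
        rw [map_mul, map_mul, ι.commutes]
        ring
      rw [sum_congr rfl fun w _ => h3 w, sum_comm]
      refine sum_congr rfl fun u _ => ?_
      rw [sum_comm]
      refine sum_congr rfl fun v _ => ?_
      rw [← mul_sum, sum_product, hA, hB, mul_assoc, sum_mul_sum]
    rw [hmain]
    have h4 : ev2 k (box n K1) (box n K2) s P Q = ∑ u ∈ box n K1, ∑ v ∈ box n K2,
        P.1 ^ K1 * Q.1 ^ K2 * (algebraMap k Ω (s u v) * A u * B v +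
          algebraMap k Ω (s u v) * r u * (B v + r' v * Q.1⁻¹ ^ N) * P.1⁻¹ ^ N +
          algebraMap k Ω (s u v) * A u * r' v * Q.1⁻¹ ^ N) := by
      unfold ev2
      refine sum_congr rfl fun u hu => sum_congr rfl fun v hv => ?_
      rw [hPu u hu, hQv v hv, ← hA, ← hB]
      ring
    rw [h4]
    simp only [← mul_sum, sum_add_distrib, ← sum_mul]

end Pool.Agent.H12.ON
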