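import Pool.Agent.H12.ON.Def

/-! # [H12 ON HEN] The formal branch at infinity (Hensel's lemma)

`G(w) = ∑_m C(F_m) X^(n - m 0 - m 1) w^(m 1)`, a polynomial in `w` with coefficients in `kk[[X]]`; `Fser n F φ = G(φ)`. Modulo `X` it is
`f(1,w)` (only the terms with `m 0 + m 1 = n` remain; `m 0 + m 1 ≤ n` on the support), so `G(θ) ≡ 0` and `G'(θ)` is a unit modulo `X`.
Hensel's lemma in `kk[[X]]` (complete local ring with maximal ideal `(X)`: search Mathlib for `HenselianLocalRing`/`IsAdicComplete` for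
`PowerSeries`; or by hand: construct `φ` by recursion on the coefficients, `φ_(N+1) = φ_N + c X^N` with
`G(φ_N + c X^N) ≡ G(φ_N) + c G'(θ) X^N mod X^(N+1)`). -/

namespace Pool.Agent.H12.ON

open MvPolynomial Finset

/-- one step of Hensel's lemma -/
private theorem hen_step {kk : Type} [Field kk] (G : Polynomial (PowerSeries kk)) (θ : kk)
    (h1 : PowerSeries.constantCoeff (G.derivative.eval (PowerSeries.C θ)) ≠ 0) (N : ℕ) (φ : PowerSeries kk)
    (hφ : PowerSeries.constantCoeff φ = θ) (hN : PowerSeries.X ^ (N + 1) ∣ G.eval φ) :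
    ∃ φ' : PowerSeries kk, (PowerSeries.constantCoeff φ' = θ ∧ PowerSeries.X ^ (N + 1 + 1) ∣ G.eval φ') ∧
      PowerSeries.X ^ (N + 1) ∣ φ' - φ := by
  obtain ⟨q, hq⟩ := hN
  have h2 : PowerSeries.constantCoeff (G.derivative.eval φ) = PowerSeries.constantCoeff (G.derivative.eval (PowerSeries.C θ)) := by
    rw [← Polynomial.eval₂_at_apply, ← Polynomial.eval₂_at_apply, hφ, PowerSeries.constantCoeff_C]
  let d := PowerSeries.constantCoeff (G.derivative.eval (PowerSeries.C θ))
  let c : kk := - (PowerSeries.constantCoeff q / d)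
  obtain ⟨e, he⟩ := Polynomial.binomExpansion G φ (PowerSeries.C c * PowerSeries.X ^ (N + 1))
  refine ⟨φ + PowerSeries.C c * PowerSeries.X ^ (N + 1), ⟨?_, ?_⟩, ?_⟩
  · rw [map_add, map_mul, map_pow, PowerSeries.constantCoeff_X, zero_pow (Nat.succ_ne_zero N), mul_zero, add_zero, hφ]
  · have h3 : PowerSeries.X ∣ q + G.derivative.eval φ * PowerSeries.C c := by
      rw [PowerSeries.X_dvd_iff, map_add, map_mul, h2, PowerSeries.constantCoeff_C]
      show PowerSeries.constantCoeff q + d * (- (PowerSeries.constantCoeff q / d)) = 0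
      have hd : d ≠ 0 := h1
      field_simp
      ring
    obtain ⟨r, hr⟩ := h3
    rw [he, hq]
    refine ⟨r + e * PowerSeries.C c ^ 2 * PowerSeries.X ^ N, ?_⟩
    have h4 : PowerSeries.X ^ (N + 1) * q + G.derivative.eval φ * (PowerSeries.C c * PowerSeries.X ^ (N + 1)) =
        PowerSeries.X ^ (N + 1) * (q + G.derivative.eval φ * PowerSeries.C c) := by ring
    rw [h4, hr]
    ring
  · rw [add_sub_cancel_left]
    exact Dvd.intro_left _ rfl

/-- Hensel's lemma for power series -/
private theorem hen_ps {kk : Type} [Field kk] (G : Polynomial (PowerSeries kk)) (θ : kk)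
    (h0 : PowerSeries.constantCoeff (G.eval (PowerSeries.C θ)) = 0)
    (h1 : PowerSeries.constantCoeff (G.derivative.eval (PowerSeries.C θ)) ≠ 0) :
    ∃ φ : PowerSeries kk, PowerSeries.constantCoeff φ = θ ∧ G.eval φ = 0 := by
  classical
  let Y : ℕ → Type := fun N => {φ : PowerSeries kk // PowerSeries.constantCoeff φ = θ ∧ PowerSeries.X ^ (N + 1) ∣ G.eval φ}
  have hY : ∀ (N : ℕ) (y : Y N), ∃ y' : Y (N + 1), PowerSeries.X ^ (N + 1) ∣ y'.1 - y.1 := by
    rintro N ⟨φ, h2, h3⟩
    obtain ⟨φ', h4, h5⟩ := hen_step G θ h1 N φ h2 h3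
    exact ⟨⟨φ', h4⟩, h5⟩
  choose nx hnx using hY
  have hz : PowerSeries.constantCoeff (PowerSeries.C θ : PowerSeries kk) = θ ∧
      PowerSeries.X ^ (0 + 1) ∣ G.eval (PowerSeries.C θ) := by
    refine ⟨PowerSeries.constantCoeff_C θ, ?_⟩
    rw [zero_add, pow_one, PowerSeries.X_dvd_iff]
    exact h0
  let sq : (N : ℕ) → Y N := fun N => Nat.rec (motive := Y) ⟨PowerSeries.C θ, hz⟩ (fun N y => nx N y) N
  have hs : ∀ N, PowerSeries.X ^ (N + 1) ∣ (sq (N + 1)).1 - (sq N).1 := fun N => hnx N (sq N)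
  have hs' : ∀ N M, N ≤ M → PowerSeries.X ^ (N + 1) ∣ (sq M).1 - (sq N).1 := by
    intro N M hNM
    induction M, hNM using Nat.le_induction with
    | base => rw [sub_self]; exact dvd_zero _
    | succ M hM ih =>
      have h2 := (pow_dvd_pow PowerSeries.X (Nat.succ_le_succ hM)).trans (hs M)
      have h3 := dvd_add h2 ih
      rwa [sub_add_sub_cancel] at h3
  let φ : PowerSeries kk := PowerSeries.mk fun N => PowerSeries.coeff N (sq N).1
  have hφ : ∀ N, PowerSeries.X ^ (N + 1) ∣ φ - (sq N).1 := by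
    intro N
    rw [PowerSeries.X_pow_dvd_iff]
    intro m hm
    have h2 := PowerSeries.X_pow_dvd_iff.1 (hs' m N (by omega)) m (Nat.lt_succ_self m)
    rw [map_sub, PowerSeries.coeff_mk, ← neg_sub, ← map_sub, h2, neg_zero]
  refine ⟨φ, ?_, ?_⟩
  · rw [← PowerSeries.coeff_zero_eq_constantCoeff_apply, PowerSeries.coeff_mk, PowerSeries.coeff_zero_eq_constantCoeff_apply]
    exact (sq 0).2.1
  · ext N
    have h2 : PowerSeries.X ^ (N + 1) ∣ G.eval φ := by
      have h3 := (hφ N).trans (Polynomial.sub_dvd_eval_sub φ (sq N).1 G)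
      have h4 := dvd_add h3 (sq N).2.2
      rwa [sub_add_cancel] at h4
    rw [PowerSeries.X_pow_dvd_iff.1 h2 N (Nat.lt_succ_self N), map_zero]

/-- the polynomial `G` -/
private noncomputable def Gp {k : Type} (kk : Type) [Field k] [Field kk] [Algebra k kk] (n : ℕ) (F : MvPolynomial (Fin 2) k) :
    Polynomial (PowerSeries kk) :=
  ∑ m ∈ F.support, Polynomial.C (PowerSeries.C (algebraMap k kk (F.coeff m)) * PowerSeries.X ^ (n - m 0 - m 1)) *
    Polynomial.X ^ (m 1)

private theorem gp_eval {k kk : Type} [Field k] [Field kk] [Algebra k kk] (n : ℕ) (F : MvPolynomial (Fin 2) k)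
    (φ : PowerSeries kk) : (Gp kk n F).eval φ = Fser n F φ := by
  unfold Gp Fser
  rw [Polynomial.eval_finsetSum]
  exact Finset.sum_congr rfl fun m _ => by
    rw [Polynomial.eval_mul, Polynomial.eval_C, Polynomial.eval_pow, Polynomial.eval_X]

private theorem gp_map {k kk : Type} [Field k] [Field kk] [Algebra k kk] {n : ℕ} {F : MvPolynomial (Fin 2) k}
    (hF : F.totalDegree ≤ n) :
    (Gp kk n F).map (PowerSeries.constantCoeff (R := kk)) = (ftop n F).map (algebraMap k kk) := by
  classical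
  unfold Gp ftop
  rw [Polynomial.map_sum, Polynomial.map_sum]
  let g : ℕ → Fin 2 →₀ ℕ := fun j => Finsupp.single 0 (n - j) + Finsupp.single 1 j
  have g0 : ∀ j, g j 0 = n - j := fun j => by simp [g]
  have g1 : ∀ j, g j 1 = j := fun j => by simp [g]
  have hg : Function.Injective g := fun a b h => by rw [← g1 a, ← g1 b, h]
  have hR : ∑ j ∈ range (n + 1), (Polynomial.monomial j (F.coeff (Finsupp.single 0 (n - j) + Finsupp.single 1 j))).map
      (algebraMap k kk) = ∑ m ∈ (range (n + 1)).image g, Polynomial.C (algebraMap k kk (F.coeff m)) * Polynomial.X ^ (m 1) := by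
    rw [Finset.sum_image fun a _ b _ h => hg h]
    refine Finset.sum_congr rfl fun j _ => ?_
    rw [Polynomial.map_monomial, ← Polynomial.C_mul_X_pow_eq_monomial, g1]
  rw [hR]
  have hL : ∀ m ∈ F.support, (Polynomial.C (PowerSeries.C (algebraMap k kk (F.coeff m)) * PowerSeries.X ^ (n - m 0 - m 1)) *
      Polynomial.X ^ (m 1)).map (PowerSeries.constantCoeff (R := kk)) =
      if m ∈ (range (n + 1)).image g then Polynomial.C (algebraMap k kk (F.coeff m)) * Polynomial.X ^ (m 1) else 0 := by
    intro m hm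
    have h2 : m 0 + m 1 ≤ n := by
      have h3 := MvPolynomial.le_totalDegree hm
      rw [Finsupp.sum_fintype _ _ (fun _ => rfl), Fin.sum_univ_two] at h3
      exact h3.trans hF
    rw [Polynomial.map_mul, Polynomial.map_pow, Polynomial.map_X, Polynomial.map_C, map_mul, map_pow, PowerSeries.constantCoeff_X,
      PowerSeries.constantCoeff_C]
    split_ifs with h4
    · obtain ⟨j, hj, rfl⟩ := Finset.mem_image.1 h4
      have hj' := Finset.mem_range.1 hj
      have h5 : n - (g j) 0 - (g j) 1 = 0 := by rw [g0, g1]; omega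
      rw [h5, pow_zero, mul_one]
    · have h5 : n - m 0 - m 1 ≠ 0 := by
        intro h6
        apply h4
        refine Finset.mem_image.2 ⟨m 1, Finset.mem_range.2 (by omega), ?_⟩
        ext i
        fin_cases i
        · show g (m 1) 0 = m 0
          rw [g0]
          omega
        · exact g1 _
      rw [zero_pow h5, mul_zero, map_zero, zero_mul]
  rw [Finset.sum_congr rfl hL, Finset.sum_ite_mem]
  refine Finset.sum_subset Finset.inter_subset_right ?_
  intro m hm hm'
  have h2 : m ∉ F.support := fun h => hm' (Finset.mem_inter.2 ⟨h, hm⟩)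
  rw [MvPolynomial.notMem_support_iff.1 h2, map_zero, map_zero, zero_mul]

theorem formal_root {k kk : Type} [Field k] [Field kk] [Algebra k kk] {n : ℕ} {F : MvPolynomial (Fin 2) k}
    (hF : F.totalDegree ≤ n) {θ : kk} (h0 : Polynomial.aeval θ (ftop n F) = 0)
    (h1 : Polynomial.aeval θ (Polynomial.derivative (ftop n F)) ≠ 0) :
    ∃ φ : PowerSeries kk, PowerSeries.constantCoeff φ = θ ∧ Fser n F φ = 0 := by
  have key : ∀ p : Polynomial (PowerSeries kk), PowerSeries.constantCoeff (p.eval (PowerSeries.C θ)) =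
      (p.map (PowerSeries.constantCoeff (R := kk))).eval θ := by
    intro p
    rw [Polynomial.eval_map, ← Polynomial.eval₂_at_apply, PowerSeries.constantCoeff_C]
  obtain ⟨φ, h2, h3⟩ := hen_ps (Gp kk n F) θ
    (by rw [key, gp_map hF, Polynomial.eval_map_algebraMap, h0])
    (by rw [key, ← Polynomial.derivative_map, gp_map hF, Polynomial.derivative_map, Polynomial.eval_map_algebraMap]; exact h1)
  exact ⟨φ, h2, by rw [← gp_eval]; exact h3⟩

end Pool.Agent.H12.ON
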