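import Pool.Agent.H12.ON.Def

/-! # [H12 ON LIN] Linear algebra: an `s` with prescribed vanishing

The map `s ↦ (c2 I J K1 K2 φ ψ s r.1 r.2)_{r ∈ R}` is `k`-linear from the space of functions `I × J → k` (dimension `|I| |J|`; extend by
zero) to `R → kk` (dimension `|R| [kk : k]`). If `[kk:k] |R| < |I| |J|` it has a nonzero element in the kernel
(`LinearMap.exists_ne_zero_of_finrank_lt` or `LinearMap.ker_ne_bot_of_finrank_lt`). -/

namespace Pool.Agent.H12.ON

open Finset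

theorem exists_van {k kk : Type} [Field k] [Field kk] [Algebra k kk] [FiniteDimensional k kk]
    (I J : Finset (ℕ × ℕ)) (K1 K2 : ℕ) (φ ψ : PowerSeries kk) (R : Finset (ℕ × ℕ))
    (h : Module.finrank k kk * R.card < I.card * J.card) :
    ∃ s : ℕ × ℕ → ℕ × ℕ → k, (∃ u ∈ I, ∃ v ∈ J, s u v ≠ 0) ∧ ∀ r ∈ R, c2 I J K1 K2 φ ψ s r.1 r.2 = 0 := by
  classical
  let L : ((I × J) → k) →ₗ[k] (R → kk) := LinearMap.pi fun r => ∑ u : I, ∑ v : J,
    (LinearMap.proj (u, v) : ((I × J) → k) →ₗ[k] k).smulRight (cc K1 φ u r.1.1 * cc K2 ψ v r.1.2)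
  have hL : ∀ f r, L f r = ∑ u : I, ∑ v : J, f (u, v) • (cc K1 φ u r.1.1 * cc K2 ψ v r.1.2) := by
    intro f r
    simp [L, LinearMap.sum_apply]
  have hd1 : Module.finrank k ((I × J) → k) = I.card * J.card := by
    rw [Module.finrank_fintype_fun_eq_card, Fintype.card_prod, Fintype.card_coe, Fintype.card_coe]
  have hd2 : Module.finrank k (R → kk) = Module.finrank k kk * R.card := by
    rw [Module.finrank_pi_fintype, Finset.sum_const, Finset.card_univ, Fintype.card_coe, smul_eq_mul, mul_comm]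
  have hlt : Module.finrank k (R → kk) < Module.finrank k ((I × J) → k) := by
    rw [hd1, hd2]
    exact h
  have hker := LinearMap.ker_ne_bot_of_finrank_lt (f := L) hlt
  obtain ⟨f, hf, hf0⟩ := (Submodule.ne_bot_iff _).1 hker
  rw [LinearMap.mem_ker] at hf
  obtain ⟨x, hx⟩ := Function.ne_iff.1 hf0
  obtain ⟨s, hs⟩ : ∃ s : ℕ × ℕ → ℕ × ℕ → k, ∀ (u : I) (v : J), s u v = f (u, v) := by
    refine ⟨fun u v => if hu : u ∈ I then if hv : v ∈ J then f (⟨u, hu⟩, ⟨v, hv⟩) else 0 else 0, fun u v => ?_⟩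
    simp only [u.2, v.2, dite_true]
  refine ⟨s, ⟨x.1, x.1.2, x.2, x.2.2, ?_⟩, fun r hr => ?_⟩
  · rw [hs]
    exact hx
  · have h1 : L f ⟨r, hr⟩ = 0 := by
      rw [hf]
      rfl
    rw [hL] at h1
    rw [← h1]
    unfold c2
    rw [← Finset.sum_coe_sort I]
    refine Finset.sum_congr rfl fun u _ => ?_
    rw [← Finset.sum_coe_sort J]
    refine Finset.sum_congr rfl fun v _ => ?_
    rw [hs, Algebra.smul_def, mul_assoc]

end Pool.Agent.H12.ON
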