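import Pool.Agent.H12.ON.Nd

/-! # [H12 ON RHO] The ratio of the logarithms

`ρ N = log (b N)/log (a N) ∈ [1/C, C]` (`a N, b N ≥ 2`, `b N ≤ (a N)^C`, `a N ≤ (b N)^C`). The interval is compact: the ultrafilter limit `ρ` exists
(`isCompact_Icc.ultrafilter_le_nhds` for `Ultrafilter.map`). Let `p + ρ q < 0` (`p, q ∈ ℤ`), `δ = -(p + ρ q)/2 > 0`. For almost all `N`: `p + ρ(N) q < -δ`, so
`a^p b^q = exp((p + ρ(N) q) log a) ≤ exp(-δ log a)`, and `(a^p b^q)^M ≤ a^(-1)` for `M ≥ 1/δ`. -/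

namespace Pool.Agent.H12.ON

open Pool.Agent.H82.NS Filter

theorem rho {a b : ℕ → ℝ} {C : ℕ} (hC : 1 ≤ C) (ha : ∀ N, 2 ≤ a N) (hb : ∀ N, 2 ≤ b N)
    (hab : ∀ N, a N ≤ b N ^ C) (hba : ∀ N, b N ≤ a N ^ C) : ∃ ρ : ℝ, 1 / (C : ℝ) ≤ ρ ∧ ρ ≤ C ∧
      ∀ p q : ℤ, (p : ℝ) + ρ * q < 0 → ∃ M : ℕ, 1 ≤ M ∧
        ∀ᶠ N in UU, (a N ^ p * b N ^ q) ^ M ≤ (a N)⁻¹ := by
  have hC' : (0 : ℝ) < C := by exact_mod_cast hC
  have la : ∀ N, 0 < Real.log (a N) := fun N => Real.log_pos (by linarith [ha N])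
  have lb : ∀ N, 0 < Real.log (b N) := fun N => Real.log_pos (by linarith [hb N])
  have l1 : ∀ N, Real.log (a N) ≤ C * Real.log (b N) := by
    intro N
    rw [← Real.log_pow]
    exact Real.log_le_log (by linarith [ha N]) (hab N)
  have l2 : ∀ N, Real.log (b N) ≤ C * Real.log (a N) := by
    intro N
    rw [← Real.log_pow]
    exact Real.log_le_log (by linarith [hb N]) (hba N)
  set f : ℕ → ℝ := fun N => Real.log (b N) / Real.log (a N) with hf
  have hmem : ∀ N, f N ∈ Set.Icc (1 / (C : ℝ)) C := by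
    intro N
    constructor
    · rw [hf]
      show 1 / (C : ℝ) ≤ Real.log (b N) / Real.log (a N)
      rw [div_le_div_iff₀ hC' (la N), one_mul, mul_comm]
      exact l1 N
    · show Real.log (b N) / Real.log (a N) ≤ C
      rw [div_le_iff₀ (la N)]
      exact l2 N
  have hU : (((hyperfilter ℕ : Ultrafilter ℕ).map f : Ultrafilter ℝ) : Filter ℝ) ≤ 𝓟 (Set.Icc (1 / (C : ℝ)) C) := by
    rw [le_principal_iff, Ultrafilter.coe_map]
    exact Filter.mem_map.2 (Filter.univ_mem' hmem)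
  obtain ⟨ρ, hρ, hlim⟩ := isCompact_Icc.ultrafilter_le_nhds _ hU
  have hlim' : Tendsto f UU (nhds ρ) := hlim
  refine ⟨ρ, hρ.1, hρ.2, fun p q hpq => ?_⟩
  have h1 : Tendsto (fun N => (p : ℝ) + f N * q) UU (nhds ((p : ℝ) + ρ * q)) :=
    (hlim'.mul_const _).const_add _
  set δ : ℝ := -((p : ℝ) + ρ * q) / 2 with hδ
  have hδ0 : 0 < δ := by
    rw [hδ]
    linarith
  have h2 : ∀ᶠ N in UU, (p : ℝ) + f N * q < -δ := by
    refine h1.eventually_lt_const ?_
    rw [hδ]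
    linarith
  obtain ⟨M, hM⟩ := exists_nat_ge (1 / δ)
  refine ⟨M + 1, by omega, ?_⟩
  filter_upwards [h2] with N hN
  have a0 : 0 < a N := by linarith [ha N]
  have b0 : 0 < b N := by linarith [hb N]
  have e1 : a N ^ p * b N ^ q = Real.exp (((p : ℝ) + f N * q) * Real.log (a N)) := by
    have e2 : ((p : ℝ) + f N * q) * Real.log (a N) = Real.log (a N) * p + Real.log (b N) * q := by
      show ((p : ℝ) + Real.log (b N) / Real.log (a N) * q) * Real.log (a N) = _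
      have := (la N).ne'
      field_simp
    rw [e2, Real.exp_add, ← Real.rpow_def_of_pos a0, ← Real.rpow_def_of_pos b0, Real.rpow_intCast, Real.rpow_intCast]
  rw [e1, ← Real.exp_nat_mul]
  have e3 : (a N)⁻¹ = Real.exp (-Real.log (a N)) := by
    rw [Real.exp_neg, Real.exp_log a0]
  rw [e3, Real.exp_le_exp, ← mul_assoc, neg_eq_neg_one_mul]
  refine mul_le_mul_of_nonneg_right ?_ (la N).le
  have h4 : 1 ≤ M * δ := by
    rw [div_le_iff₀ hδ0] at hM
    exact hM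
  push_cast
  nlinarith

end Pool.Agent.H12.ON
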