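import Pool.Agent.H12.ON.Zer
import Pool.Agent.H12.ON.Rho
import Pool.Agent.H12.ON.Cnb
import Pool.Agent.H12.ON.Ali
import Pool.Agent.H12.ON.Hen
import Pool.Agent.H12.ON.Apy
import Pool.Agent.H12.ON.Lin
import Pool.Agent.H12.ON.Exp

/-! # [H12 ON DEP] TWO EXCEPTIONAL POINTS ARE ALGEBRAICALLY DEPENDENT

`k = Q0 H`, `X₁ = cl x₁` etc. in `QS`. `kk = AdjoinRoot (ftop n Fh₁)` (field, `[kk:k] = n`), `ι : kk →ₐ[k] RS`, `root ↦ cl θ₁` (`hθ₁`), injective; `ι(kk) ⊆ VR H` (`val_alg`, `vr_base`).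
`θ = root`, `θ' = ψ(root) ∈ kk`, `ι θ' = cl θ₂` (`hψ`), so `ftop n Fh₂ (θ') = 0` (injectivity). `formal_root` for `Fh₁, θ` and `Fh₂, θ'` (simple zeros: irreducible,
characteristic zero): `φ₁, φ₂`. `rho` with `a N = |x₁ N|`, `b N = |x₂ N|`: `ρ`. `cnb`: `K1, K2, N₀, R`. `exists_van`: `s ≠ 0` with `c2 … = 0` on `R`.
In `RS`: `P = (X₁, Y₁)`, `Q = (X₂, Y₂)` (images), `X₁, X₂ ∉ VR H` (`vr_qs`), `apx_root` twice, `exp2` with `N = N₀`:
`e = ev2 s P Q = X₁^K1 X₂^K2 (∑_{w ∉ R} c_w X₁^(-w.1) X₂^(-w.2) + r X₁^(-N₀) + r' X₂^(-N₀))`, `c_w, r, r' ∈ VR H`. Every term is `c X₁^p X₂^q` with integers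
`p + ρ q < 0` (`cnb`) and `c ∈ VR H`; by `rho` `(|X₁|^p |X₂|^q)^M ≤ |X₁|^(-1)` (class of the inequality of real numbers), so `|term|^M ≤ |c|^M/|X₁| < r₀^M` for all
positive `r₀ ∈ Q0 H` (`|X₁|` is larger than all elements of `Q0 H`): the term is in `(VR H).nonunits` (`vr_non`), and so is `e`.
`e` is the image of `e₀ = ev2 s (X₁,Y₁) (X₂,Y₂) ∈ QS`; the coefficients `s u v ∈ Q0 H` have a common denominator `δ ∈ Q0 H ∩ ZS`, `δ ≠ 0` (`exists_den` with `x = 0` or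
directly: each element of `Q0 H` is a quotient of two elements of `Q0 H ∩ ZS`), the monomials are in `ZS`: `δ e₀ ∈ ZS`. `evz`: `e₀ = 0`. `ali`. -/

namespace Pool.Agent.H12.ON

open MvPolynomial Pool.Agent.H82.NS Filter IntermediateField

private theorem dep_le {H : ℕ → ℕ} {u v : RS} (hv : v ∈ (VR H).nonunits) (h : |u| ≤ |v|) :
    u ∈ (VR H).nonunits := by
  rw [vr_non] at hv ⊢
  exact fun r hr => h.trans_lt (hv r hr)

private theorem dep_pow {H : ℕ → ℕ} {u : RS} {M : ℕ} (h : u ^ M ∈ (VR H).nonunits) :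
    u ∈ (VR H).nonunits := by
  rw [ValuationSubring.mem_nonunits_iff] at h ⊢
  rw [map_pow] at h
  by_contra hc
  rw [not_lt] at hc
  exact absurd h (not_lt.2 (one_le_pow₀ hc))

private theorem dep_mul {H : ℕ → ℕ} {c u : RS} (hc : c ∈ VR H) (hu : u ∈ (VR H).nonunits) :
    c * u ∈ (VR H).nonunits := by
  rw [ValuationSubring.mem_nonunits_iff] at hu ⊢
  rw [← ValuationSubring.valuation_le_one_iff] at hc
  rw [map_mul]
  exact (mul_le_of_le_one_left' hc).trans_lt hu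

private theorem dep_add {H : ℕ → ℕ} {c u : RS} (hc : c ∈ (VR H).nonunits)
    (hu : u ∈ (VR H).nonunits) : c + u ∈ (VR H).nonunits := by
  rw [ValuationSubring.mem_nonunits_iff] at hu hc ⊢
  exact (VR H).valuation.map_add_lt hc hu

private theorem dep_zero {H : ℕ → ℕ} : (0 : RS) ∈ (VR H).nonunits := by
  rw [ValuationSubring.mem_nonunits_iff, map_zero]
  exact zero_lt_one

private theorem dep_sum {H : ℕ → ℕ} {α : Type} (s : Finset α) (f : α → RS)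
    (h : ∀ i ∈ s, f i ∈ (VR H).nonunits) : ∑ i ∈ s, f i ∈ (VR H).nonunits := by
  classical
  induction s using Finset.induction_on with
  | empty =>
    rw [Finset.sum_empty]
    exact dep_zero
  | insert a s ha ih =>
    rw [Finset.sum_insert ha]
    exact dep_add (h a (Finset.mem_insert_self a s))
      (ih fun i hi => h i (Finset.mem_insert_of_mem hi))

private theorem dep_clpow (f : ℕ → ℝ) (K : ℕ) : (cl f : RS) ^ K = cl (fun N => f N ^ K) := by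
  have h1 : (cl f : RS) ^ K = clHom ℝ (f ^ K) := by
    rw [map_pow, clHom_apply]
  rw [h1]
  rfl

/-- the monomials as classes -/
private theorem dep_cl (x₁ x₂ : ℕ → ℤ) (K1 K2 a b : ℕ) :
    (algebraMap QS RS (cl (fun N => (x₁ N : ℚ)))) ^ K1 *
      (algebraMap QS RS (cl (fun N => (x₂ N : ℚ)))) ^ K2 *
      (algebraMap QS RS (cl (fun N => (x₁ N : ℚ))))⁻¹ ^ a *
      (algebraMap QS RS (cl (fun N => (x₂ N : ℚ))))⁻¹ ^ b =
      cl (fun N => (x₁ N : ℝ) ^ K1 * (x₂ N : ℝ) ^ K2 * ((x₁ N : ℝ)⁻¹) ^ a *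
        ((x₂ N : ℝ)⁻¹) ^ b) := by
  have h1 : ∀ x : ℕ → ℤ, algebraMap QS RS (cl (fun N => (x N : ℚ))) =
      cl (fun N => (x N : ℝ)) := by
    intro x
    rw [rs_cl]
    refine congrArg cl (funext fun N => ?_)
    simp
  rw [h1, h1, cl_inv, cl_inv, dep_clpow, dep_clpow, dep_clpow, dep_clpow, cl_mul, cl_mul, cl_mul]

private theorem dep_abs {f g : ℕ → ℝ} (h : ∀ᶠ N in UU, |f N| ≤ |g N|) :
    |(cl f : RS)| ≤ |(cl g : RS)| := by
  have h1 : ∀ f : ℕ → ℝ, |(cl f : RS)| = cl (fun N => |f N|) := fun f => Germ.abs_def _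
  rw [h1, h1]
  exact Germ.coe_le.2 h

private theorem dep_z {H : ℕ → ℕ} {x₁ x₂ : ℕ → ℤ}
    (hx₁ : algebraMap QS RS (cl (fun N => (x₁ N : ℚ))) ∉ VR H) (h21 : ∀ N, 2 ≤ |x₁ N|)
    (h22 : ∀ N, 2 ≤ |x₂ N|) {ρ : ℝ}
    (hρ : ∀ p q : ℤ, (p : ℝ) + ρ * q < 0 → ∃ M : ℕ, 1 ≤ M ∧
        ∀ᶠ N in UU, (|(x₁ N : ℝ)| ^ p * |(x₂ N : ℝ)| ^ q) ^ M ≤ (|(x₁ N : ℝ)|)⁻¹)
    {K1 K2 a b : ℕ} (h : ((K1 : ℝ) - a) + ρ * ((K2 : ℝ) - b) < 0) :
    (algebraMap QS RS (cl (fun N => (x₁ N : ℚ)))) ^ K1 *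
      (algebraMap QS RS (cl (fun N => (x₂ N : ℚ)))) ^ K2 *
      (algebraMap QS RS (cl (fun N => (x₁ N : ℚ))))⁻¹ ^ a *
      (algebraMap QS RS (cl (fun N => (x₂ N : ℚ))))⁻¹ ^ b ∈ (VR H).nonunits := by
  obtain ⟨M, hM, h1⟩ := hρ ((K1 : ℤ) - a) ((K2 : ℤ) - b) (by push_cast; exact h)
  have h2 : (algebraMap QS RS (cl (fun N => (x₁ N : ℚ))))⁻¹ ∈ (VR H).nonunits :=
    (VR H).inv_mem_nonunits_iff.2 (Or.inr hx₁)
  have h3 := dep_cl x₁ x₂ 0 0 1 0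
  simp only [pow_zero, one_mul, mul_one, pow_one] at h3
  rw [h3] at h2
  rw [dep_cl]
  refine dep_pow (M := M) (dep_le h2 ?_)
  rw [dep_clpow]
  apply dep_abs
  filter_upwards [h1] with N h4
  have e1 : (0 : ℝ) < |(x₁ N : ℝ)| := by
    have h5 : (0 : ℤ) < |x₁ N| := lt_of_lt_of_le (by norm_num) (h21 N)
    exact_mod_cast h5
  have e2 : (0 : ℝ) < |(x₂ N : ℝ)| := by
    have h5 : (0 : ℤ) < |x₂ N| := lt_of_lt_of_le (by norm_num) (h22 N)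
    exact_mod_cast h5
  rw [abs_pow, abs_mul, abs_mul, abs_mul, abs_pow, abs_pow, abs_pow, abs_pow, abs_inv, abs_inv]
  have h5 : |(x₁ N : ℝ)| ^ K1 * |(x₂ N : ℝ)| ^ K2 * |(x₁ N : ℝ)|⁻¹ ^ a * |(x₂ N : ℝ)|⁻¹ ^ b =
      |(x₁ N : ℝ)| ^ ((K1 : ℤ) - a) * |(x₂ N : ℝ)| ^ ((K2 : ℤ) - b) := by
    rw [zpow_sub₀ e1.ne', zpow_sub₀ e2.ne', zpow_natCast, zpow_natCast, zpow_natCast, zpow_natCast,
      inv_pow, inv_pow]
    field_simp
  rw [h5]
  exact h4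

/-- elements with a small denominator -/
private def DD (H : ℕ → ℕ) (c : QS) : Prop := ∃ δ : QS, δ ∈ Q0 H ∧ δ ∈ ZS ∧ δ ≠ 0 ∧ δ * c ∈ ZS

private theorem dd_base {H : ℕ → ℕ} (r : Q0 H) : DD H (r : QS) :=
  exists_den H 0 _ ZS.zero_mem ((Algebra.adjoin (Q0 H) {(0 : QS)}).algebraMap_mem r)

private theorem dd_mul {H : ℕ → ℕ} {c u : QS} (hc : DD H c) (hu : u ∈ ZS) : DD H (c * u) := by
  obtain ⟨δ, h1, h2, h3, h4⟩ := hc
  exact ⟨δ, h1, h2, h3, by rw [← mul_assoc]; exact ZS.mul_mem h4 hu⟩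

private theorem dd_add {H : ℕ → ℕ} {c u : QS} (hc : DD H c) (hu : DD H u) : DD H (c + u) := by
  obtain ⟨δ, h1, h2, h3, h4⟩ := hc
  obtain ⟨δ', h1', h2', h3', h4'⟩ := hu
  refine ⟨δ * δ', (Q0 H).mul_mem h1 h1', ZS.mul_mem h2 h2', mul_ne_zero h3 h3', ?_⟩
  have h5 : δ * δ' * (c + u) = δ' * (δ * c) + δ * (δ' * u) := by ring
  rw [h5]
  exact ZS.add_mem (ZS.mul_mem h2' h4) (ZS.mul_mem h2 h4')

private theorem dd_zero {H : ℕ → ℕ} : DD H 0 :=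
  ⟨1, (Q0 H).one_mem, ZS.one_mem, one_ne_zero, by rw [mul_zero]; exact ZS.zero_mem⟩

private theorem dd_sum {H : ℕ → ℕ} {α : Type} (s : Finset α) (f : α → QS)
    (h : ∀ i ∈ s, DD H (f i)) : DD H (∑ i ∈ s, f i) := by
  classical
  induction s using Finset.induction_on with
  | empty =>
    rw [Finset.sum_empty]
    exact dd_zero
  | insert a s ha ih =>
    rw [Finset.sum_insert ha]
    exact dd_add (h a (Finset.mem_insert_self a s))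
      (ih fun i hi => h i (Finset.mem_insert_of_mem hi))

private theorem dep_zs (x : ℕ → ℤ) : (cl (fun N => (x N : ℚ)) : QS) ∈ ZS := mem_zs.2 ⟨x, rfl⟩

/-- evaluation in `QS` and `RS` -/
private theorem dep_ev {H : ℕ → ℕ} (F : MvPolynomial (Fin 2) (Q0 H)) (X Y : QS) :
    aeval ![algebraMap QS RS X, algebraMap QS RS Y] F = algebraMap QS RS (aeval ![X, Y] F) := by
  rw [aeval_def, aeval_def, eval₂_comp_left]
  have h1 : (algebraMap QS RS) ∘ ![X, Y] = ![algebraMap QS RS X, algebraMap QS RS Y] := by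
    funext i
    fin_cases i
    · rfl
    · rfl
  rw [h1]
  rfl

private theorem dep_ev2 {H : ℕ → ℕ} (I J : Finset (ℕ × ℕ)) (s : ℕ × ℕ → ℕ × ℕ → Q0 H)
    (P Q : QS × QS) : ev2 (Q0 H) I J s (algebraMap QS RS P.1, algebraMap QS RS P.2)
      (algebraMap QS RS Q.1, algebraMap QS RS Q.2) = algebraMap QS RS (ev2 (Q0 H) I J s P Q) := by
  unfold ev2 mon
  rw [map_sum]
  refine Finset.sum_congr rfl fun u _ => ?_
  rw [map_sum]
  refine Finset.sum_congr rfl fun v _ => ?_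
  rw [map_mul, map_mul, map_mul, map_mul, map_pow, map_pow, map_pow, map_pow]
  rfl

theorem dep {H : ℕ → ℕ} {n : ℕ} {Fh₁ Fh₂ : MvPolynomial (Fin 2) (Q0 H)} (hF₁ : Tp (Q0 H) n Fh₁)
    (hF₂ : Tp (Q0 H) n Fh₂) (hM : Irreducible ((ftop n Fh₂).map (algebraMap (Q0 H) QS)))
    {x₁ y₁ x₂ y₂ : ℕ → ℤ}
    (h1 : aeval ![(cl (fun N => (x₁ N : ℚ)) : QS), cl (fun N => (y₁ N : ℚ))] Fh₁ = 0)
    (h2 : aeval ![(cl (fun N => (x₂ N : ℚ)) : QS), cl (fun N => (y₂ N : ℚ))] Fh₂ = 0)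
    (hx₁ : (cl (fun N => (x₁ N : ℚ)) : QS) ∉ V0 H) (hx₂ : (cl (fun N => (x₂ N : ℚ)) : QS) ∉ V0 H)
    {θ₁ θ₂ : ℕ → ℝ} (hθ₁ : Polynomial.aeval (cl θ₁ : RS) (ftop n Fh₁) = 0)
    (hθ₂ : Polynomial.aeval (cl θ₂ : RS) (ftop n Fh₂) = 0)
    (hn₁ : algebraMap QS RS (cl (fun N => (y₁ N : ℚ)) / cl (fun N => (x₁ N : ℚ))) - cl θ₁ ∈ (VR H).nonunits)
    (hn₂ : algebraMap QS RS (cl (fun N => (y₂ N : ℚ)) / cl (fun N => (x₂ N : ℚ))) - cl θ₂ ∈ (VR H).nonunits)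
    {ψ : Polynomial (Q0 H)} (hψ : (cl θ₂ : RS) = Polynomial.aeval (cl θ₁ : RS) ψ) {C : ℕ} (hC : 1 ≤ C)
    (h21 : ∀ N, 2 ≤ |x₁ N|) (h22 : ∀ N, 2 ≤ |x₂ N|) (h12 : ∀ N, |x₁ N| ≤ |x₂ N| ^ C)
    (h12' : ∀ N, |x₂ N| ≤ |x₁ N| ^ C) :
    IsAlgebraic (Q0 H)⟮(cl (fun N => (x₁ N : ℚ)) : QS)⟯ (cl (fun N => (x₂ N : ℚ)) : QS) := by
  classical
  haveI : Fact (Irreducible (ftop n Fh₁)) := ⟨hF₁.irr⟩
  haveI : CharZero (Q0 H) := by
    refine ⟨fun a b hab => ?_⟩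
    have h3 := congrArg (fun z : Q0 H => (z : QS)) hab
    simpa using h3
  obtain ⟨ι, hιr⟩ : ∃ ι : AdjoinRoot (ftop n Fh₁) →ₐ[Q0 H] RS,
      ι (AdjoinRoot.root (ftop n Fh₁)) = cl θ₁ :=
    ⟨AdjoinRoot.liftAlgHom (ftop n Fh₁) (Algebra.ofId (Q0 H) RS) (cl θ₁) hθ₁,
      AdjoinRoot.liftAlgHom_root _ _ _ _⟩
  haveI : FiniteDimensional (Q0 H) (AdjoinRoot (ftop n Fh₁)) :=
    (AdjoinRoot.powerBasis hF₁.irr.ne_zero).finite
  have hfr : Module.finrank (Q0 H) (AdjoinRoot (ftop n Fh₁)) = n := by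
    rw [(AdjoinRoot.powerBasis hF₁.irr.ne_zero).finrank, AdjoinRoot.powerBasis_dim, hF₁.top]
  have hι : ∀ c, ι c ∈ VR H := by
    intro c
    refine val_alg (vr_base H) ?_
    have h3 : IsAlgebraic (Q0 H) c := Algebra.IsAlgebraic.isAlgebraic c
    exact h3.algHom ι
  have hinj : Function.Injective ι := ι.toRingHom.injective
  -- the two roots
  have ha1 : Polynomial.aeval (AdjoinRoot.root (ftop n Fh₁)) (ftop n Fh₁) = 0 :=
    AdjoinRoot.eval₂_root _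
  have hι' : ι (Polynomial.aeval (AdjoinRoot.root (ftop n Fh₁)) ψ) = cl θ₂ := by
    rw [hψ, ← hιr, Polynomial.aeval_algHom_apply]
  have ha2 : Polynomial.aeval (Polynomial.aeval (AdjoinRoot.root (ftop n Fh₁)) ψ)
      (ftop n Fh₂) = 0 := by
    apply hinj
    rw [map_zero, ← Polynomial.aeval_algHom_apply, hι']
    exact hθ₂
  have hb1 := hF₁.irr.separable.aeval_derivative_ne_zero ha1
  have hb2 := hF₂.irr.separable.aeval_derivative_ne_zero ha2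
  obtain ⟨φ₁, hc1, hd1⟩ := formal_root hF₁.deg ha1 hb1
  obtain ⟨φ₂, hc2, hd2⟩ := formal_root hF₂.deg ha2 hb2
  -- the ratio
  have g21 : ∀ N, (2 : ℝ) ≤ |(x₁ N : ℝ)| := fun N => by exact_mod_cast h21 N
  have g22 : ∀ N, (2 : ℝ) ≤ |(x₂ N : ℝ)| := fun N => by exact_mod_cast h22 N
  have g12 : ∀ N, |(x₁ N : ℝ)| ≤ |(x₂ N : ℝ)| ^ C := fun N => by exact_mod_cast h12 N
  have g12' : ∀ N, |(x₂ N : ℝ)| ≤ |(x₁ N : ℝ)| ^ C := fun N => by exact_mod_cast h12' N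
  obtain ⟨ρ, hρ1, -, hρ⟩ := rho hC g21 g22 g12 g12'
  have hρ0 : 0 < ρ := lt_of_lt_of_le (by
    have h3 : (0 : ℝ) < C := by
      have : 0 < C := hC
      exact_mod_cast this
    positivity) hρ1
  obtain ⟨K1, K2, N₀, R, hR, hcard, hneg, hneg1, hneg2⟩ := cnb n hF₁.n3 hρ0
  obtain ⟨s, hs, hvan⟩ := exists_van (k := Q0 H) (box n K1) (box n K2) K1 K2 φ₁ φ₂ R
    (by rw [hfr]; exact hcard)
  -- the points
  have hP : algebraMap QS RS (cl (fun N => (x₁ N : ℚ))) ∉ VR H := by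
    rw [vr_qs]
    exact hx₁
  have hQ : algebraMap QS RS (cl (fun N => (x₂ N : ℚ))) ∉ VR H := by
    rw [vr_qs]
    exact hx₂
  have f1 : Apx (ι : AdjoinRoot (ftop n Fh₁) →+* RS) (VR H)
      (algebraMap QS RS (cl (fun N => (x₁ N : ℚ))))⁻¹
      (algebraMap QS RS (cl (fun N => (y₁ N : ℚ))) / algebraMap QS RS (cl (fun N => (x₁ N : ℚ))))
      φ₁ := by
    refine apx_root hF₁.deg ι hι hP ?_ hd1 (by rw [hc1]; exact hb1) ?_
    · rw [dep_ev, h1, map_zero]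
    · rw [hc1, hιr, ← map_div₀]
      exact hn₁
  have f2 : Apx (ι : AdjoinRoot (ftop n Fh₁) →+* RS) (VR H)
      (algebraMap QS RS (cl (fun N => (x₂ N : ℚ))))⁻¹
      (algebraMap QS RS (cl (fun N => (y₂ N : ℚ))) / algebraMap QS RS (cl (fun N => (x₂ N : ℚ))))
      φ₂ := by
    refine apx_root hF₂.deg ι hι hQ ?_ hd2 (by rw [hc2]; exact hb2) ?_
    · rw [dep_ev, h2, map_zero]
    · rw [hc2, hι', ← map_div₀]
      exact hn₂
  obtain ⟨r, r', hr, hr', he⟩ := exp2 ι hι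
    (P := (algebraMap QS RS (cl (fun N => (x₁ N : ℚ))), algebraMap QS RS (cl (fun N => (y₁ N : ℚ)))))
    (Q := (algebraMap QS RS (cl (fun N => (x₂ N : ℚ))), algebraMap QS RS (cl (fun N => (y₂ N : ℚ)))))
    hP hQ f1 f2 n K1 K2 N₀ s
  have hz : ∀ {a b : ℕ}, ((K1 : ℝ) - a) + ρ * ((K2 : ℝ) - b) < 0 → _ :=
    fun {a b} h => dep_z (a := a) (b := b) hP h21 h22 hρ h
  have hnon : algebraMap QS RS (ev2 (Q0 H) (box n K1) (box n K2) s
      (cl (fun N => (x₁ N : ℚ)), cl (fun N => (y₁ N : ℚ)))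
      (cl (fun N => (x₂ N : ℚ)), cl (fun N => (y₂ N : ℚ)))) ∈ (VR H).nonunits := by
    rw [← dep_ev2, he, mul_add, mul_add, Finset.mul_sum]
    refine dep_add (dep_add (dep_sum _ _ fun w hw => ?_) ?_) ?_
    · by_cases hwR : w ∈ R
      · rw [hvan w hwR, map_zero, zero_mul, zero_mul, mul_zero]
        exact dep_zero
      · have h3 := dep_mul (hι (c2 (box n K1) (box n K2) K1 K2 φ₁ φ₂ s w.1 w.2))
          (hz (hneg w (Finset.mem_sdiff.2 ⟨hw, hwR⟩)))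
        convert h3 using 1
        ring
    · have h3 := dep_mul hr (hz (a := N₀) (b := 0) (by
        rw [Nat.cast_zero, sub_zero]
        exact hneg1))
      convert h3 using 1
      ring
    · have h3 := dep_mul hr' (hz (a := 0) (b := N₀) (by
        rw [Nat.cast_zero, sub_zero]
        exact hneg2))
      convert h3 using 1
      ring
  -- a small denominator
  have hden : DD H (ev2 (Q0 H) (box n K1) (box n K2) s
      (cl (fun N => (x₁ N : ℚ)), cl (fun N => (y₁ N : ℚ)))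
      (cl (fun N => (x₂ N : ℚ)), cl (fun N => (y₂ N : ℚ)))) := by
    unfold ev2 mon
    refine dd_sum _ _ fun u _ => dd_sum _ _ fun v _ => ?_
    refine dd_mul (dd_mul (dd_base (s u v)) ?_) ?_
    · exact ZS.mul_mem (ZS.pow_mem (dep_zs x₁) _) (ZS.pow_mem (dep_zs y₁) _)
    · exact ZS.mul_mem (ZS.pow_mem (dep_zs x₂) _) (ZS.pow_mem (dep_zs y₂) _)
  obtain ⟨δ, hδ1, -, hδ3, hδ4⟩ := hden
  have hzero := evz H hδ1 hδ3 hδ4 hnon
  refine ali hF₁ hF₂ hM (P := (cl (fun N => (x₁ N : ℚ)), cl (fun N => (y₁ N : ℚ))))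
    (Q := (cl (fun N => (x₂ N : ℚ)), cl (fun N => (y₂ N : ℚ)))) h1 h2 ?_ hs hzero
  intro h3
  apply hP
  obtain ⟨q, hq, hq0⟩ := h3
  refine val_alg (vr_base H) ⟨q, hq, ?_⟩
  have h4 : Polynomial.aeval (algebraMap QS RS (cl (fun N => (x₁ N : ℚ)))) q =
      algebraMap QS RS (Polynomial.aeval (cl (fun N => (x₁ N : ℚ)) : QS) q) := by
    rw [Polynomial.aeval_def, Polynomial.aeval_def, Polynomial.hom_eval₂]
    rfl
  rw [h4]
  exact (congrArg (algebraMap QS RS) hq0).trans (map_zero _)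

end Pool.Agent.H12.ON
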