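import Pool.Agent.H12.ON.Pt

/-! # [H12 ON DIF] Differences of values at two neighbouring points at infinity

`(x,y)`, `(x',y')` with `x, x' ∉ V`, `x'/x - 1 ∈ m`, `y/x - θ ∈ m`, `y'/x' - θ ∈ m` (`m = V.nonunits`), `θ` algebraic over `k` (in `V`).
For a polynomial `p` of total degree `≤ d`, `d ≥ 1`, `g = ftop d p`:
`p(x,y) - p(x',y') = (x - x') A + (y - y') B` with `A/x^(d-1) - (d g(θ) - θ g'(θ)) ∈ m` and `B/x^(d-1) - g'(θ) ∈ m`.
For a monomial `c X^i Y^j`, `i + j ≤ d`: `x^i y^j - x'^i y'^j = (x^i - x'^i) y^j + x'^i (y^j - y'^j)`, so `A = c (∑_{a<i} x^a x'^(i-1-a)) y^j`,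
`B = c x'^i ∑_{b<j} y^b y'^(j-1-b)` (Mathlib: `Commute.geom_sum₂_mul`, `geom_sum₂_mul`); divided by `x^(d-1)` they are
`x^(i+j-d) (i c θ^j + m)` and `x^(i+j-d) (j c θ^(j-1) + m)`: in `m` if `i + j < d`, and for `i + j = d` the sums over the monomials are
`∑ (d-j) c_j θ^j = d g(θ) - θ g'(θ)` and `∑ j c_j θ^(j-1) = g'(θ)`. Sum over the support of `p` (`MvPolynomial.induction_on'` or finite sums). -/

namespace Pool.Agent.H12.ON

open MvPolynomial

private theorem dif_nadd {Ω : Type} [Field Ω] {V : ValuationSubring Ω} {a b : Ω}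
    (ha : a ∈ V.nonunits) (hb : b ∈ V.nonunits) : a + b ∈ V.nonunits := by
  rw [ValuationSubring.mem_nonunits_iff] at *
  exact Valuation.map_add_lt _ ha hb

private theorem dif_nmul {Ω : Type} [Field Ω] {V : ValuationSubring Ω} {a b : Ω}
    (ha : a ∈ V) (hb : b ∈ V.nonunits) : a * b ∈ V.nonunits := by
  rw [ValuationSubring.mem_nonunits_iff] at *
  rw [map_mul]
  rw [← ValuationSubring.valuation_le_one_iff] at ha
  exact mul_lt_one_of_nonneg_of_lt_one_right ha zero_le hb

private theorem dif_nzero {Ω : Type} [Field Ω] {V : ValuationSubring Ω} : (0 : Ω) ∈ V.nonunits := by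
  rw [ValuationSubring.mem_nonunits_iff, map_zero]
  exact zero_lt_one

/-- congruence modulo the maximal ideal -/
private def DifC {Ω : Type} [Field Ω] (V : ValuationSubring Ω) (a b : Ω) : Prop :=
  a ∈ V ∧ b ∈ V ∧ a - b ∈ V.nonunits

private theorem DifC.refl {Ω : Type} [Field Ω] {V : ValuationSubring Ω} {a : Ω} (ha : a ∈ V) :
    DifC V a a := ⟨ha, ha, by rw [sub_self]; exact dif_nzero⟩

private theorem DifC.mul {Ω : Type} [Field Ω] {V : ValuationSubring Ω} {a b c d : Ω}
    (h : DifC V a b) (h' : DifC V c d) : DifC V (a * c) (b * d) := by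
  refine ⟨V.mul_mem _ _ h.1 h'.1, V.mul_mem _ _ h.2.1 h'.2.1, ?_⟩
  have h1 : a * c - b * d = a * (c - d) + d * (a - b) := by ring
  rw [h1]
  exact dif_nadd (dif_nmul h.1 h'.2.2) (dif_nmul h'.2.1 h.2.2)

private theorem DifC.add {Ω : Type} [Field Ω] {V : ValuationSubring Ω} {a b c d : Ω}
    (h : DifC V a b) (h' : DifC V c d) : DifC V (a + c) (b + d) := by
  refine ⟨V.add_mem _ _ h.1 h'.1, V.add_mem _ _ h.2.1 h'.2.1, ?_⟩
  have h1 : a + c - (b + d) = (a - b) + (c - d) := by ring
  rw [h1]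
  exact dif_nadd h.2.2 h'.2.2

private theorem DifC.pow {Ω : Type} [Field Ω] {V : ValuationSubring Ω} {a b : Ω}
    (h : DifC V a b) (n : ℕ) : DifC V (a ^ n) (b ^ n) := by
  induction n with
  | zero =>
    rw [pow_zero, pow_zero]
    exact DifC.refl V.one_mem
  | succ n ih =>
    rw [pow_succ, pow_succ]
    exact ih.mul h

private theorem DifC.sum {Ω : Type} [Field Ω] {V : ValuationSubring Ω} {f g : ℕ → Ω} (n : ℕ)
    (h : ∀ i < n, DifC V (f i) (g i)) :
    DifC V (∑ i ∈ Finset.range n, f i) (∑ i ∈ Finset.range n, g i) := by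
  induction n with
  | zero =>
    rw [Finset.sum_range_zero, Finset.sum_range_zero]
    exact DifC.refl V.zero_mem
  | succ n ih =>
    rw [Finset.sum_range_succ, Finset.sum_range_succ]
    exact (ih fun i hi => h i (by omega)).add (h n (by omega))

private theorem ftop_add {k : Type} [CommRing k] (d : ℕ) (p q : MvPolynomial (Fin 2) k) :
    ftop d (p + q) = ftop d p + ftop d q := by
  unfold ftop
  rw [← Finset.sum_add_distrib]
  refine Finset.sum_congr rfl fun j _ => ?_
  rw [coeff_add, map_add]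

private theorem ftop_zero {k : Type} [CommRing k] (d : ℕ) : ftop d (0 : MvPolynomial (Fin 2) k) = 0 := by
  unfold ftop
  refine Finset.sum_eq_zero fun j _ => ?_
  rw [coeff_zero, map_zero]

private theorem ftop_mon {k : Type} [CommRing k] (d : ℕ) (m : Fin 2 →₀ ℕ) (hm : m 0 + m 1 ≤ d) (c : k) :
    ftop d (monomial m c) = if m 0 + m 1 = d then Polynomial.monomial (m 1) c else 0 := by
  unfold ftop
  rw [Finset.sum_eq_single (m 1)]
  · rw [coeff_monomial]
    by_cases h : m 0 + m 1 = d
    · rw [if_pos h, if_pos]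
      ext i
      fin_cases i
      · simp
        omega
      · simp
    · rw [if_neg h, if_neg, map_zero]
      intro h1
      have h2 := DFunLike.congr_fun h1 0
      simp at h2
      omega
  · intro j _ hj
    rw [coeff_monomial, if_neg, map_zero]
    intro h1
    have h2 := DFunLike.congr_fun h1 1
    simp at h2
    exact hj h2.symm
  · intro h
    rw [Finset.mem_range] at h
    omega

private theorem dif_mon {k Ω : Type} [Field k] [Field Ω] [Algebra k Ω] {V : ValuationSubring Ω} (hV : Ov k V)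
    {x y x' y' θ : Ω} (hx : x ∉ V) (hθ : IsAlgebraic k θ) (hxx : x' / x - 1 ∈ V.nonunits)
    (hy : y / x - θ ∈ V.nonunits) (hy' : y' / x' - θ ∈ V.nonunits) {d : ℕ} (hd : 1 ≤ d)
    (m : Fin 2 →₀ ℕ) (hm : m 0 + m 1 ≤ d) (c : k) : ∃ A B : Ω,
      aeval ![x, y] (monomial m c) - aeval ![x', y'] (monomial m c) = (x - x') * A + (y - y') * B ∧
      A / x ^ (d - 1) - ((d : Ω) * Polynomial.aeval θ (ftop d (monomial m c)) -
        θ * Polynomial.aeval θ (Polynomial.derivative (ftop d (monomial m c)))) ∈ V.nonunits ∧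
      B / x ^ (d - 1) - Polynomial.aeval θ (Polynomial.derivative (ftop d (monomial m c))) ∈ V.nonunits := by
  have hx0 : x ≠ 0 := fun h => hx (h ▸ V.zero_mem)
  have ht : x⁻¹ ∈ V.nonunits := V.inv_mem_nonunits_iff.2 (Or.inr hx)
  have hθV : θ ∈ V := val_alg hV hθ
  have hnV : ∀ a : Ω, a ∈ V.nonunits → a ∈ V := fun a ha => V.nonunits_subset ha
  obtain ⟨u, hu⟩ : ∃ u, u = x' / x := ⟨_, rfl⟩
  obtain ⟨z, hz⟩ : ∃ z, z = y / x := ⟨_, rfl⟩
  obtain ⟨z', hz'⟩ : ∃ z', z' = y' / x' := ⟨_, rfl⟩
  rw [← hu] at hxx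
  rw [← hz] at hy
  rw [← hz'] at hy'
  have huC : DifC V u 1 := by
    refine ⟨?_, V.one_mem, hxx⟩
    have := V.add_mem _ _ (hnV _ hxx) V.one_mem
    rwa [sub_add_cancel] at this
  have hzC : DifC V z θ := by
    refine ⟨?_, hθV, hy⟩
    have := V.add_mem _ _ (hnV _ hy) hθV
    rwa [sub_add_cancel] at this
  have hzC' : DifC V z' θ := by
    refine ⟨?_, hθV, hy'⟩
    have := V.add_mem _ _ (hnV _ hy') hθV
    rwa [sub_add_cancel] at this
  have hu0 : u ≠ 0 := by
    rintro rfl
    rw [zero_sub] at hxx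
    rw [ValuationSubring.mem_nonunits_iff, Valuation.map_neg, map_one] at hxx
    exact lt_irrefl _ hxx
  have hx' : x' = u * x := by rw [hu, div_mul_cancel₀ _ hx0]
  have hx'0 : x' ≠ 0 := by rw [hx']; exact mul_ne_zero hu0 hx0
  have hyz : y = z * x := by rw [hz, div_mul_cancel₀ _ hx0]
  have hyz' : y' = z' * (u * x) := by rw [hz', ← hx', div_mul_cancel₀ _ hx'0]
  have hcV : algebraMap k Ω c ∈ V := hV c
  obtain ⟨i, hi⟩ : ∃ i, i = m 0 := ⟨_, rfl⟩
  obtain ⟨j, hj⟩ : ∃ j, j = m 1 := ⟨_, rfl⟩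
  rw [← hi, ← hj] at hm
  have hev : ∀ a b : Ω, aeval ![a, b] (monomial m c) = algebraMap k Ω c * (a ^ i * b ^ j) := by
    intro a b
    rw [aeval_monomial, Finsupp.prod_fintype _ _ (fun _ => pow_zero _), Fin.prod_univ_two, hi, hj]
    rfl
  rw [hev, hev, ftop_mon d m (by omega) c, ← hi, ← hj]
  refine ⟨algebraMap k Ω c * ((∑ a ∈ Finset.range i, x ^ a * x' ^ (i - 1 - a)) * y ^ j),
    algebraMap k Ω c * (x' ^ i * ∑ b ∈ Finset.range j, y ^ b * y' ^ (j - 1 - b)), ?_, ?_⟩
  · have h1 := geom_sum₂_mul x x' i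
    have h2 := geom_sum₂_mul y y' j
    linear_combination (-(algebraMap k Ω c) * y ^ j) * h1 - algebraMap k Ω c * x' ^ i * h2
  have hA : algebraMap k Ω c * ((∑ a ∈ Finset.range i, x ^ a * x' ^ (i - 1 - a)) * y ^ j) / x ^ (d - 1) =
      (x⁻¹) ^ (d - i - j) * (algebraMap k Ω c * ((∑ a ∈ Finset.range i, u ^ (i - 1 - a)) * z ^ j)) := by
    rcases Nat.eq_zero_or_pos i with h0 | h0
    · rw [h0]
      simp
    · have h1 : ∑ a ∈ Finset.range i, x ^ a * x' ^ (i - 1 - a) =
          x ^ (i - 1) * ∑ a ∈ Finset.range i, u ^ (i - 1 - a) := by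
        rw [Finset.mul_sum]
        refine Finset.sum_congr rfl fun a ha => ?_
        rw [Finset.mem_range] at ha
        rw [hx', mul_pow]
        have h2 : x ^ (i - 1) = x ^ a * x ^ (i - 1 - a) := by
          rw [← pow_add]
          congr 1
          omega
        rw [h2]
        ring
      have h3 : x ^ (d - 1) = x ^ (i - 1) * x ^ j * x ^ (d - i - j) := by
        rw [← pow_add, ← pow_add]
        congr 1
        omega
      rw [h1, hyz, mul_pow, h3, inv_pow]
      have := pow_ne_zero (i - 1) hx0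
      have := pow_ne_zero j hx0
      have := pow_ne_zero (d - i - j) hx0
      field_simp
  have hB : algebraMap k Ω c * (x' ^ i * ∑ b ∈ Finset.range j, y ^ b * y' ^ (j - 1 - b)) / x ^ (d - 1) =
      (x⁻¹) ^ (d - i - j) *
        (algebraMap k Ω c * (u ^ i * ∑ b ∈ Finset.range j, z ^ b * (z' * u) ^ (j - 1 - b))) := by
    rcases Nat.eq_zero_or_pos j with h0 | h0
    · rw [h0]
      simp
    · have h1 : ∑ b ∈ Finset.range j, y ^ b * y' ^ (j - 1 - b) =
          x ^ (j - 1) * ∑ b ∈ Finset.range j, z ^ b * (z' * u) ^ (j - 1 - b) := by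
        rw [Finset.mul_sum]
        refine Finset.sum_congr rfl fun b hb => ?_
        rw [Finset.mem_range] at hb
        rw [hyz, hyz', ← mul_assoc, mul_pow, mul_pow (z' * u)]
        have h2 : x ^ (j - 1) = x ^ b * x ^ (j - 1 - b) := by
          rw [← pow_add]
          congr 1
          omega
        rw [h2]
        ring
      have h3 : x ^ (d - 1) = x ^ i * x ^ (j - 1) * x ^ (d - i - j) := by
        rw [← pow_add, ← pow_add]
        congr 1
        omega
      rw [h1, hx', mul_pow, h3, inv_pow]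
      have := pow_ne_zero i hx0
      have := pow_ne_zero (j - 1) hx0
      have := pow_ne_zero (d - i - j) hx0
      field_simp
  have hAC : DifC V (algebraMap k Ω c * ((∑ a ∈ Finset.range i, u ^ (i - 1 - a)) * z ^ j))
      (algebraMap k Ω c * ((i : Ω) * θ ^ j)) := by
    refine (DifC.refl hcV).mul (DifC.mul ?_ (hzC.pow j))
    have h1 := DifC.sum (f := fun a => u ^ (i - 1 - a)) (g := fun _ => (1 : Ω)) i (fun a _ => by
      have := huC.pow (i - 1 - a)
      rwa [one_pow] at this)
    have h2 : ∑ a ∈ Finset.range i, (1 : Ω) = (i : Ω) := by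
      rw [Finset.sum_const, Finset.card_range, nsmul_eq_mul, mul_one]
    rw [h2] at h1
    exact h1
  have hBC : DifC V (algebraMap k Ω c * (u ^ i * ∑ b ∈ Finset.range j, z ^ b * (z' * u) ^ (j - 1 - b)))
      (algebraMap k Ω c * ((j : Ω) * θ ^ (j - 1))) := by
    refine (DifC.refl hcV).mul ?_
    have h0 := huC.pow i
    rw [one_pow] at h0
    have h1 := DifC.sum (f := fun b => z ^ b * (z' * u) ^ (j - 1 - b)) (g := fun _ => θ ^ (j - 1)) j
      (fun b hb => by
        have h3 := (hzC.pow b).mul ((hzC'.mul huC).pow (j - 1 - b))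
        rw [mul_one, ← pow_add] at h3
        have h4 : b + (j - 1 - b) = j - 1 := by omega
        rwa [h4] at h3)
    have h2 : ∑ b ∈ Finset.range j, θ ^ (j - 1) = (j : Ω) * θ ^ (j - 1) := by
      rw [Finset.sum_const, Finset.card_range, nsmul_eq_mul]
    rw [h2] at h1
    have h3 := h0.mul h1
    rw [one_mul] at h3
    exact h3
  rw [hA, hB]
  by_cases hd' : i + j = d
  · rw [if_pos hd']
    have h1 : d - i - j = 0 := by omega
    rw [h1, pow_zero, one_mul, one_mul, Polynomial.derivative_monomial, Polynomial.aeval_monomial,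
      Polynomial.aeval_monomial]
    have hdd : (d : Ω) = (i : Ω) + (j : Ω) := by rw [← hd', Nat.cast_add]
    constructor
    · have h2 : (d : Ω) * (algebraMap k Ω c * θ ^ j) - θ * (algebraMap k Ω (c * (j : k)) * θ ^ (j - 1)) =
          algebraMap k Ω c * ((i : Ω) * θ ^ j) := by
        rw [map_mul, map_natCast, hdd]
        rcases Nat.eq_zero_or_pos j with h0 | h0
        · rw [h0]
          simp
          ring
        · have h3 : θ ^ j = θ * θ ^ (j - 1) := by
            rw [← pow_succ']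
            congr 1
            omega
          rw [h3]
          ring
      rw [h2]
      exact hAC.2.2
    · have h2 : algebraMap k Ω (c * (j : k)) * θ ^ (j - 1) = algebraMap k Ω c * ((j : Ω) * θ ^ (j - 1)) := by
        rw [map_mul, map_natCast, mul_assoc]
      rw [h2]
      exact hBC.2.2
  · rw [if_neg hd']
    have h1 : d - i - j = (d - i - j - 1) + 1 := by omega
    have h2 : (x⁻¹) ^ (d - i - j) ∈ V.nonunits := by
      rw [h1, pow_succ]
      exact dif_nmul (V.toSubring.pow_mem (hnV _ ht) _) ht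
    simp only [map_zero, mul_zero, sub_zero]
    constructor
    · rw [mul_comm]
      exact dif_nmul hAC.1 h2
    · rw [mul_comm]
      exact dif_nmul hBC.1 h2

theorem dif {k Ω : Type} [Field k] [Field Ω] [Algebra k Ω] {V : ValuationSubring Ω} (hV : Ov k V)
    {x y x' y' θ : Ω} (hx : x ∉ V) (hθ : IsAlgebraic k θ) (hxx : x' / x - 1 ∈ V.nonunits)
    (hy : y / x - θ ∈ V.nonunits) (hy' : y' / x' - θ ∈ V.nonunits) {d : ℕ} (hd : 1 ≤ d)
    {p : MvPolynomial (Fin 2) k} (hp : p.totalDegree ≤ d) : ∃ A B : Ω,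
      aeval ![x, y] p - aeval ![x', y'] p = (x - x') * A + (y - y') * B ∧
      A / x ^ (d - 1) - ((d : Ω) * Polynomial.aeval θ (ftop d p) -
        θ * Polynomial.aeval θ (Polynomial.derivative (ftop d p))) ∈ V.nonunits ∧
      B / x ^ (d - 1) - Polynomial.aeval θ (Polynomial.derivative (ftop d p)) ∈ V.nonunits := by
  have hdeg : ∀ m ∈ p.support, m 0 + m 1 ≤ d := by
    intro m hm
    have h1 := le_totalDegree hm
    rw [Finsupp.sum_fintype _ _ (fun _ => rfl), Fin.sum_univ_two] at h1
    exact h1.trans hp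
  rw [← support_sum_monomial_coeff p]
  refine Finset.sum_induction (fun m => monomial m (p.coeff m)) (fun q => ∃ A B : Ω,
      aeval ![x, y] q - aeval ![x', y'] q = (x - x') * A + (y - y') * B ∧
      A / x ^ (d - 1) - ((d : Ω) * Polynomial.aeval θ (ftop d q) -
        θ * Polynomial.aeval θ (Polynomial.derivative (ftop d q))) ∈ V.nonunits ∧
      B / x ^ (d - 1) - Polynomial.aeval θ (Polynomial.derivative (ftop d q)) ∈ V.nonunits) ?_ ?_ ?_
  · rintro q q' ⟨A, B, h1, h2, h3⟩ ⟨A', B', h1', h2', h3'⟩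
    refine ⟨A + A', B + B', ?_, ?_, ?_⟩
    · rw [map_add, map_add]
      linear_combination h1 + h1'
    · have h4 := dif_nadd h2 h2'
      rw [ftop_add, map_add, map_add, map_add, add_div]
      have h5 : ∀ a b e f g h i j : Ω, a + b - (e * (f + g) - h * (i + j)) =
          (a - (e * f - h * i)) + (b - (e * g - h * j)) := by
        intros
        ring
      rw [h5]
      exact h4
    · have h4 := dif_nadd h3 h3'
      rw [ftop_add, map_add, map_add, add_div]
      have h5 : ∀ a b e f : Ω, a + b - (e + f) = (a - e) + (b - f) := by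
        intros
        ring
      rw [h5]
      exact h4
  · refine ⟨0, 0, ?_, ?_, ?_⟩
    · simp
    · rw [ftop_zero]
      simp only [map_zero, mul_zero, sub_zero, zero_div]
      exact dif_nzero
    · rw [ftop_zero]
      simp only [map_zero, sub_zero, zero_div]
      exact dif_nzero
  · intro m hm
    exact dif_mon hV hx hθ hxx hy hy' hd m (hdeg m hm) _

end Pool.Agent.H12.ON
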