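import Pool.Agent.H12.ON.Def
import Pool.Agent.H82.NS.Def

/-! # [H12 ON ND] Definitions of the nonstandard part

`Good n F` = the curves of THEOREM ONE. `RS` = ultrapower of `ℝ`, an algebra over `QS` and `Q0 H`; `VR H` = the elements of `RS` bounded by an
element of `Q0 H` (a valuation ring over `Q0 H`). `IsU H n F Fh`: `Fh` is the class of the sequence `F` of integer polynomials.
`Near θ x y`: the point is near the real point at infinity `θ`. -/

namespace Pool.Agent.H12.ON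

open MvPolynomial Pool.Agent.H82.NS Filter

/-- the curves of THEOREM ONE -/
structure Good (n : ℕ) (F : MvPolynomial (Fin 2) ℤ) : Prop where
  deg : F.totalDegree ≤ n
  lead : Irreducible (map (Int.castRingHom ℚ) (homogeneousComponent n F))
  irr : Irreducible (map (Int.castRingHom ℂ) F)
  smooth : ∀ a b : ℂ, aeval ![a, b] F = 0 →
    aeval ![a, b] (pderiv 0 F) ≠ 0 ∨ aeval ![a, b] (pderiv 1 F) ≠ 0
  nohom : ∀ (w : Fin 2 → ℂ) (z : ℂ), z ≠ 0 →
    aeval (fun i => C (w i) + C z * X i : Fin 2 → MvPolynomial (Fin 2) ℂ) F =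
      C (z ^ n) * aeval (fun i => C (w i) + X i : Fin 2 → MvPolynomial (Fin 2) ℂ) F → z = 1

/-- the ultrapower of the real numbers -/
abbrev RS : Type := Ult ℝ

noncomputable instance instAlgQSRS : Algebra QS RS := (germMap (Rat.castHom ℝ)).toAlgebra

noncomputable instance instAlgQ0RS (H : ℕ → ℕ) : Algebra (Q0 H) RS :=
  ((algebraMap QS RS).comp (Q0 H).subtype).toAlgebra

instance instTowQ0RS (H : ℕ → ℕ) : IsScalarTower (Q0 H) QS RS :=
  IsScalarTower.of_algebraMap_eq (R := Q0 H) (S := QS) (A := RS) (fun _ => rfl)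

/-- the elements of `RS` bounded by an element of `Q0 H` -/
noncomputable def VR (H : ℕ → ℕ) : ValuationSubring RS where
  carrier := {z | ∃ r : Q0 H, |z| ≤ algebraMap (Q0 H) RS r}
  one_mem' := ⟨1, by rw [map_one, abs_one]⟩
  zero_mem' := ⟨0, by rw [map_zero, abs_zero]⟩
  mul_mem' := by
    rintro a b ⟨r, har⟩ ⟨s, hbs⟩
    refine ⟨r * s, ?_⟩
    rw [abs_mul, map_mul]
    exact mul_le_mul har hbs (abs_nonneg _) ((abs_nonneg _).trans har)
  add_mem' := by
    rintro a b ⟨r, har⟩ ⟨s, hbs⟩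
    refine ⟨r + s, ?_⟩
    rw [map_add]
    exact (abs_add_le _ _).trans (add_le_add har hbs)
  neg_mem' := by
    rintro a ⟨r, har⟩
    exact ⟨r, by rwa [abs_neg]⟩
  mem_or_inv_mem' := by
    intro a
    rcases le_total |a| 1 with h | h
    · exact Or.inl ⟨1, by rwa [map_one]⟩
    · refine Or.inr ⟨1, ?_⟩
      rw [abs_inv, map_one]
      exact inv_le_one_of_one_le₀ h

/-- `Fh` is the class of the sequence `F` -/
def IsU (H : ℕ → ℕ) (n : ℕ) (F : ℕ → MvPolynomial (Fin 2) ℤ) (Fh : MvPolynomial (Fin 2) (Q0 H)) : Prop :=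
  Fh.totalDegree ≤ n ∧ ∀ m, ((Fh.coeff m : Q0 H) : QS) = cl (fun N => (((F N).coeff m : ℤ) : ℚ))

/-- the point `(x,y)` is near the point `θ` at infinity -/
def Near (θ : ℝ) (x y : ℤ) : Prop := ((y : ℝ) - θ * x) ^ 2 ≤ |(x : ℝ)|

/-- height at most `B` -/
def Ht (B : ℕ) (q : ℚ) : Prop := q.num.natAbs ≤ B ∧ q.den ≤ B

/-- `(G,Q)` is the image of `(F,P)` under an affine map of height at most `B` -/
def Rel (B : ℕ) (F G : MvPolynomial (Fin 2) ℤ) (P Q : Fin 2 → ℤ) : Prop :=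
  ∃ (A : Matrix (Fin 2) (Fin 2) ℚ) (w : Fin 2 → ℚ) (c : ℚ), A.det ≠ 0 ∧ c ≠ 0 ∧
    (∀ i j, Ht B (A i j)) ∧ (∀ i, Ht B (w i)) ∧ Ht B c ∧
    (∀ i, (Q i : ℚ) = ∑ j, A i j * P j + w i) ∧
    aeval (fun i => ∑ j, C (A i j) * X j + C (w i) : Fin 2 → MvPolynomial (Fin 2) ℚ) G =
      C c * map (Int.castRingHom ℚ) F

end Pool.Agent.H12.ON
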