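import Pool.Agent.H12.ON.Fse
import Pool.Agent.H12.ON.Nd

/-! # [H12 ON FDI] The affine map keeps the direction `θ`

`B = H^E₀`; all entries of `A`, `w` have absolute value `≤ B` and denominators `≤ B` (`Ht`). `|θ|, |θ'| ≤ n H` (`root_le`). Let `u = A 0 0 + A 0 1 θ`, `A 1 0 + A 1 1 θ = θ' u`.
(1) `|u| ≥ H^(-C₁)`: `det A (1,θ)ᵗ = adj A (u, θ' u)ᵗ`, first row: `det A = A 1 1 u - A 0 1 θ' u = u (A 1 1 - A 0 1 θ')`, `|det A| ≥ B^(-4)` (a nonzero rational number with a denominator `≤ B^4`), `|A 1 1 - A 0 1 θ'| ≤ B (1 + n H)`.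
(2) `y_j = θ x_j + e_j`, `|e_j| ≤ |x_j|^(1/2)` (`Near`). From the two equations `x₂ = u x₁ + A 0 1 e₁ + w 0`, `y₂ = θ' u x₁ + A 1 1 e₁ + w 1`, so
`u x₁ (θ' - θ) = e₂ - (A 1 1 - θ A 0 1) e₁ - (w 1 - θ w 0)`. `|x₂| ≤ B (1 + n H) |x₁| + B |x₁|^(1/2) + B ≤ H^(C₂) |x₁|` for `|x₁| ≥ 1`, so the right side is at most `H^(C₃) |x₁|^(1/2)` in absolute value.
Hence `|θ' - θ| ≤ H^(C₁+C₃) |x₁|^(-1/2)`. If `θ' ≠ θ` then `|θ' - θ| ≥ H^(-C)` (`root_sep_real`): `|x₁| ≤ H^(2(C₁+C₃+C))`: contradiction for `E = 2(C₁+C₃+C)`. -/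

namespace Pool.Agent.H12.ON

private theorem fdi_ht_abs {B : ℕ} {q : ℚ} (h : Ht B q) : |(q : ℝ)| ≤ (B : ℝ) := by
  have h1 : |q| ≤ (B : ℚ) := by
    have h2 : (q.num.natAbs : ℚ) ≤ (B : ℚ) := by exact_mod_cast h.1
    have h3 : (1 : ℚ) ≤ (q.den : ℚ) := by exact_mod_cast q.pos
    have h4 : |q| * q.den = (q.num.natAbs : ℚ) := by
      have h5 : q * q.den = q.num := Rat.mul_den_eq_num q
      rw [Nat.cast_natAbs, Int.cast_abs, ← h5, abs_mul, Nat.abs_cast]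
    have h5 : |q| * 1 ≤ |q| * q.den := mul_le_mul_of_nonneg_left h3 (abs_nonneg q)
    linarith
  exact_mod_cast h1

private theorem fdi_det {B : ℕ} {a b c d : ℚ} (ha : Ht B a) (hb : Ht B b) (hc : Ht B c)
    (hd : Ht B d) (h : a * d - b * c ≠ 0) : (1 : ℝ) ≤ (B : ℝ) ^ 4 * |((a * d - b * c : ℚ) : ℝ)| := by
  have key : (1 : ℚ) ≤ (B : ℚ) ^ 4 * |a * d - b * c| := by
    have e1 : (a * d - b * c) * ((a.den : ℚ) * d.den * (b.den * c.den)) =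
        ((a.num * d.num * (b.den * c.den) - b.num * c.num * (a.den * d.den) : ℤ) : ℚ) := by
      have ea : a * a.den = a.num := Rat.mul_den_eq_num a
      have eb : b * b.den = b.num := Rat.mul_den_eq_num b
      have ec : c * c.den = c.num := Rat.mul_den_eq_num c
      have ed : d * d.den = d.num := Rat.mul_den_eq_num d
      push_cast
      rw [← ea, ← eb, ← ec, ← ed]
      ring
    have hpos : (0 : ℚ) < (a.den : ℚ) * d.den * (b.den * c.den) := by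
      have ha' : (0 : ℚ) < a.den := by exact_mod_cast a.pos
      have hb' : (0 : ℚ) < b.den := by exact_mod_cast b.pos
      have hc' : (0 : ℚ) < c.den := by exact_mod_cast c.pos
      have hd' : (0 : ℚ) < d.den := by exact_mod_cast d.pos
      positivity
    have hne : (a.num * d.num * (b.den * c.den) - b.num * c.num * (a.den * d.den) : ℤ) ≠ 0 := by
      intro h0
      rw [h0, Int.cast_zero] at e1
      exact (mul_ne_zero h hpos.ne') e1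
    have h1 : (1 : ℚ) ≤ |(a * d - b * c) * ((a.den : ℚ) * d.den * (b.den * c.den))| := by
      rw [e1]
      exact_mod_cast Int.one_le_abs hne
    rw [abs_mul, abs_of_pos hpos] at h1
    have h2 : (a.den : ℚ) * d.den * (b.den * c.den) ≤ (B : ℚ) ^ 4 := by
      have h3 : a.den * d.den * (b.den * c.den) ≤ B * B * (B * B) :=
        Nat.mul_le_mul (Nat.mul_le_mul ha.2 hd.2) (Nat.mul_le_mul hb.2 hc.2)
      have h4 : ((a.den * d.den * (b.den * c.den) : ℕ) : ℚ) ≤ ((B * B * (B * B) : ℕ) : ℚ) := by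
        exact_mod_cast h3
      push_cast at h4
      calc (a.den : ℚ) * d.den * (b.den * c.den) ≤ B * B * (B * B) := h4
        _ = (B : ℚ) ^ 4 := by ring
    calc (1 : ℚ) ≤ |a * d - b * c| * ((a.den : ℚ) * d.den * (b.den * c.den)) := h1
      _ ≤ |a * d - b * c| * (B : ℚ) ^ 4 := mul_le_mul_of_nonneg_left h2 (abs_nonneg _)
      _ = (B : ℚ) ^ 4 * |a * d - b * c| := mul_comm _ _
  exact_mod_cast key

/-- the estimate -/
private theorem fdi_core {B K R θ θ' a b c d p q x₁ y₁ x₂ y₂ s : ℝ} (hB : 1 ≤ B) (hK : 0 ≤ K)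
    (hR : 0 ≤ R) (hθ : |θ| ≤ K) (hθ' : |θ'| ≤ K) (ha : |a| ≤ B) (hb : |b| ≤ B) (hd : |d| ≤ B)
    (hp : |p| ≤ B) (hq : |q| ≤ B) (h : c + d * θ = θ' * (a + b * θ)) (hs : 1 ≤ s)
    (hs2 : s ^ 2 = |x₁|) (he1 : (y₁ - θ * x₁) ^ 2 ≤ |x₁|) (he2 : (y₂ - θ * x₂) ^ 2 ≤ |x₂|)
    (hx : x₂ = a * x₁ + b * y₁ + p) (hy : y₂ = c * x₁ + d * y₁ + q)
    (hdet : 1 ≤ B ^ 4 * |a * d - b * c|) (hsep : 1 ≤ R * |θ - θ'|) :
    s ≤ 3 * B ^ 6 * (3 + K) ^ 2 * R := by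
  obtain ⟨e₁, hE1⟩ : ∃ e, e = y₁ - θ * x₁ := ⟨_, rfl⟩
  obtain ⟨e₂, hE2⟩ : ∃ e, e = y₂ - θ * x₂ := ⟨_, rfl⟩
  obtain ⟨u, hu⟩ : ∃ u, u = a + b * θ := ⟨_, rfl⟩
  have hs0 : 0 ≤ s := by linarith
  have hB0 : 0 ≤ B := by linarith
  have hbθ : ∀ t r z : ℝ, |t| ≤ B → |r| ≤ B → |z| ≤ K → |t + r * z| ≤ B * (1 + K) := by
    intro t r z ht hr hz
    calc |t + r * z| ≤ |t| + |r * z| := abs_add_le _ _
      _ = |t| + |r| * |z| := by rw [abs_mul]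
      _ ≤ B + B * K := add_le_add ht (mul_le_mul hr hz (abs_nonneg _) hB0)
      _ = B * (1 + K) := by ring
  have hu' : |u| ≤ B * (1 + K) := by rw [hu]; exact hbθ a b θ ha hb hθ
  have hnb : |-b| ≤ B := by rw [abs_neg]; exact hb
  have hnp : |-p| ≤ B := by rw [abs_neg]; exact hp
  have h1 : |d + -b * θ'| ≤ B * (1 + K) := hbθ d (-b) θ' hd hnb hθ'
  have h2 : |d + -b * θ| ≤ B * (1 + K) := hbθ d (-b) θ hd hnb hθ
  have h3 : |q + -p * θ| ≤ B * (1 + K) := hbθ q (-p) θ hq hnp hθ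
  -- lower bound for `u`
  have hdu : a * d - b * c = u * (d + -b * θ') := by
    have hc : c = θ' * (a + b * θ) - d * θ := by linarith
    rw [hu, hc]
    ring
  have hu1 : 1 ≤ B ^ 5 * (1 + K) * |u| := by
    rw [hdu, abs_mul] at hdet
    calc (1 : ℝ) ≤ B ^ 4 * (|u| * |d + -b * θ'|) := hdet
      _ ≤ B ^ 4 * (|u| * (B * (1 + K))) := by
        refine mul_le_mul_of_nonneg_left ?_ (by positivity)
        exact mul_le_mul_of_nonneg_left h1 (abs_nonneg _)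
      _ = B ^ 5 * (1 + K) * |u| := by ring
  -- the errors
  have he1' : |e₁| ≤ s := by
    rw [hE1]
    refine abs_le_of_sq_le_sq ?_ hs0
    rw [hs2]
    exact he1
  have hx2 : x₂ = u * x₁ + b * e₁ + p := by
    rw [hx, hu, hE1]
    ring
  have hss : s ≤ s ^ 2 := by nlinarith
  have h1s : 1 ≤ s ^ 2 := by nlinarith
  have hx2' : |x₂| ≤ B * (3 + K) * s ^ 2 := by
    have k1 : |x₂| ≤ |u| * |x₁| + |b| * |e₁| + |p| := by
      rw [hx2]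
      calc |u * x₁ + b * e₁ + p| ≤ |u * x₁ + b * e₁| + |p| := abs_add_le _ _
        _ ≤ |u * x₁| + |b * e₁| + |p| := by linarith [abs_add_le (u * x₁) (b * e₁)]
        _ = |u| * |x₁| + |b| * |e₁| + |p| := by rw [abs_mul, abs_mul]
    have k2 : |u| * |x₁| ≤ B * (1 + K) * s ^ 2 := by
      rw [hs2]
      exact mul_le_mul_of_nonneg_right hu' (abs_nonneg _)
    have k3 : |b| * |e₁| ≤ B * s ^ 2 :=
      mul_le_mul hb (le_trans he1' hss) (abs_nonneg _) hB0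
    have k4 : |p| ≤ B * s ^ 2 := by nlinarith
    calc |x₂| ≤ B * (1 + K) * s ^ 2 + B * s ^ 2 + B * s ^ 2 := by linarith
      _ = B * (3 + K) * s ^ 2 := by ring
  have hL1 : 1 ≤ B * (3 + K) := by nlinarith
  have he2' : |e₂| ≤ B * (3 + K) * s := by
    rw [hE2]
    refine abs_le_of_sq_le_sq ?_ (by positivity)
    calc (y₂ - θ * x₂) ^ 2 ≤ |x₂| := he2
      _ ≤ B * (3 + K) * s ^ 2 := hx2'
      _ ≤ (B * (3 + K)) ^ 2 * s ^ 2 := by
        refine mul_le_mul_of_nonneg_right ?_ (by positivity)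
        nlinarith
      _ = (B * (3 + K) * s) ^ 2 := by ring
  -- the main identity
  have hid : u * x₁ * (θ' - θ) = e₂ - (d + -b * θ) * e₁ - (q + -p * θ) := by
    have hc : c = θ' * (a + b * θ) - d * θ := by linarith
    rw [hE2, hy, hx, hE1, hu, hc]
    ring
  have hmain : |u| * s ^ 2 * |θ - θ'| ≤ 3 * (B * (3 + K)) * s := by
    have k1 : |u * x₁ * (θ' - θ)| = |u| * s ^ 2 * |θ - θ'| := by
      rw [abs_mul, abs_mul, hs2, abs_sub_comm]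
    rw [← k1, hid]
    have k2 : |e₂ - (d + -b * θ) * e₁ - (q + -p * θ)| ≤
        |e₂| + |d + -b * θ| * |e₁| + |q + -p * θ| := by
      calc |e₂ - (d + -b * θ) * e₁ - (q + -p * θ)|
          ≤ |e₂ - (d + -b * θ) * e₁| + |q + -p * θ| := abs_sub _ _
        _ ≤ |e₂| + |(d + -b * θ) * e₁| + |q + -p * θ| := by
          linarith [abs_sub e₂ ((d + -b * θ) * e₁)]
        _ = |e₂| + |d + -b * θ| * |e₁| + |q + -p * θ| := by rw [abs_mul]
    have k3 : |d + -b * θ| * |e₁| ≤ B * (3 + K) * s := by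
      refine mul_le_mul (le_trans h2 ?_) he1' (abs_nonneg _) (by positivity)
      nlinarith
    have k4 : |q + -p * θ| ≤ B * (3 + K) * s := by
      calc |q + -p * θ| ≤ B * (1 + K) := h3
        _ ≤ B * (3 + K) * 1 := by nlinarith
        _ ≤ B * (3 + K) * s := mul_le_mul_of_nonneg_left hs (by positivity)
    linarith
  have hmain' : |u| * s * |θ - θ'| ≤ 3 * (B * (3 + K)) := by
    have hs1 : 0 < s := by linarith
    refine le_of_mul_le_mul_right ?_ hs1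
    calc |u| * s * |θ - θ'| * s = |u| * s ^ 2 * |θ - θ'| := by ring
      _ ≤ 3 * (B * (3 + K)) * s := hmain
  calc s = 1 * 1 * s := by ring
    _ ≤ (B ^ 5 * (1 + K) * |u|) * (R * |θ - θ'|) * s := by
      refine mul_le_mul_of_nonneg_right ?_ hs0
      exact mul_le_mul hu1 hsep zero_le_one (by positivity)
    _ = B ^ 5 * (1 + K) * R * (|u| * s * |θ - θ'|) := by ring
    _ ≤ B ^ 5 * (1 + K) * R * (3 * (B * (3 + K))) :=
      mul_le_mul_of_nonneg_left hmain' (by positivity)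
    _ = 3 * B ^ 6 * ((1 + K) * (3 + K)) * R := by ring
    _ ≤ 3 * B ^ 6 * (3 + K) ^ 2 * R := by
      refine mul_le_mul_of_nonneg_right ?_ hR
      refine mul_le_mul_of_nonneg_left ?_ (by positivity)
      nlinarith

theorem dir_eq (n E₀ : ℕ) (hn : 1 ≤ n) : ∃ E : ℕ, ∀ (g : Polynomial ℤ) (H : ℕ) (θ θ' : ℝ)
    (A : Matrix (Fin 2) (Fin 2) ℚ) (w : Fin 2 → ℚ) (x₁ y₁ x₂ y₂ : ℤ),
    Irreducible (g.map (Int.castRingHom ℚ)) → g.natDegree = n → 2 ≤ H → (∀ i, |g.coeff i| ≤ (H : ℤ)) →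
    Polynomial.aeval θ g = 0 → Polynomial.aeval θ' g = 0 → A.det ≠ 0 → (∀ i j, Ht (H ^ E₀) (A i j)) →
    (∀ i, Ht (H ^ E₀) (w i)) → (A 1 0 : ℝ) + A 1 1 * θ = θ' * (A 0 0 + A 0 1 * θ) → Near θ x₁ y₁ →
    Near θ x₂ y₂ → (x₂ : ℚ) = A 0 0 * x₁ + A 0 1 * y₁ + w 0 → (y₂ : ℚ) = A 1 0 * x₁ + A 1 1 * y₁ + w 1 →
    (H : ℤ) ^ E < |x₁| → θ' = θ := by
  obtain ⟨C, hC⟩ := root_sep_real n
  refine ⟨2 * (2 + 6 * E₀ + 2 * (n + 3) + C), ?_⟩
  intro g H θ θ' A w x₁ y₁ x₂ y₂ hirr hdeg hH hc hθ hθ' hA hHA hHw hdir hN1 hN2 hx hy hbig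
  by_contra hne
  have hH1 : 1 ≤ H := by omega
  have hHr : (2 : ℝ) ≤ (H : ℝ) := by exact_mod_cast hH
  have hHr1 : (1 : ℝ) ≤ (H : ℝ) := by linarith
  have hroot : ∀ t : ℝ, Polynomial.aeval t g = 0 → |t| ≤ (n : ℝ) * H := by
    intro t ht
    have h1 : Polynomial.aeval ((t : ℝ) : ℂ) g = 0 := by
      have h2 := Polynomial.aeval_algebraMap_apply ℂ t g
      rw [ht, map_zero] at h2
      exact h2
    have h2 := root_le hH1 hdeg hn hc h1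
    rwa [Complex.norm_real, Real.norm_eq_abs] at h2
  have hBcast : ((H ^ E₀ : ℕ) : ℝ) = (H : ℝ) ^ E₀ := by push_cast; rfl
  have habs : ∀ q : ℚ, Ht (H ^ E₀) q → |(q : ℝ)| ≤ (H : ℝ) ^ E₀ := by
    intro q hq
    have h1 := fdi_ht_abs hq
    rwa [hBcast] at h1
  have hdet : (1 : ℝ) ≤ ((H : ℝ) ^ E₀) ^ 4 *
      |(A 0 0 : ℝ) * (A 1 1 : ℝ) - (A 0 1 : ℝ) * (A 1 0 : ℝ)| := by
    have h1 := fdi_det (hHA 0 0) (hHA 0 1) (hHA 1 0) (hHA 1 1) (by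
      rw [← Matrix.det_fin_two]
      exact hA)
    rw [hBcast] at h1
    push_cast at h1
    exact h1
  have hsep := hC g H hirr hdeg hH hc θ θ' hθ hθ' (fun h => hne h.symm)
  have hX1 : (1 : ℝ) ≤ |(x₁ : ℝ)| := by
    have h1 : (1 : ℤ) ≤ |x₁| := by
      have h2 : (0 : ℤ) < (H : ℤ) ^ (2 * (2 + 6 * E₀ + 2 * (n + 3) + C)) := by positivity
      omega
    exact_mod_cast h1
  have hs := fdi_core (B := (H : ℝ) ^ E₀) (K := (n : ℝ) * H) (R := (H : ℝ) ^ C)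
    (s := Real.sqrt |(x₁ : ℝ)|) (one_le_pow₀ hHr1) (by positivity) (by positivity)
    (hroot θ hθ) (hroot θ' hθ') (habs _ (hHA 0 0)) (habs _ (hHA 0 1)) (habs _ (hHA 1 1))
    (habs _ (hHw 0)) (habs _ (hHw 1)) hdir (Real.one_le_sqrt.2 hX1) (Real.sq_sqrt (abs_nonneg _))
    hN1 hN2 (by exact_mod_cast congrArg (fun t : ℚ => (t : ℝ)) hx)
    (by exact_mod_cast congrArg (fun t : ℚ => (t : ℝ)) hy) hdet hsep
  -- the powers of `H`
  have h3 : (3 : ℝ) ≤ (H : ℝ) ^ 2 := by nlinarith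
  have h4 : (3 : ℝ) + (n : ℝ) * H ≤ (H : ℝ) ^ (n + 3) := by
    have k1 : (n : ℝ) ≤ (H : ℝ) ^ n := by
      have k2 : n ≤ H ^ n := (Nat.lt_pow_self (by omega)).le
      exact_mod_cast k2
    have k3 : (1 : ℝ) ≤ (n : ℝ) := by exact_mod_cast hn
    have k4 : (3 : ℝ) + (n : ℝ) * H ≤ 4 * ((n : ℝ) * H) := by nlinarith
    have k5 : (n : ℝ) * H ≤ (H : ℝ) ^ n * H := mul_le_mul_of_nonneg_right k1 (by linarith)
    have k6 : (4 : ℝ) ≤ (H : ℝ) ^ 2 := by nlinarith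
    calc (3 : ℝ) + (n : ℝ) * H ≤ 4 * ((n : ℝ) * H) := k4
      _ ≤ (H : ℝ) ^ 2 * ((H : ℝ) ^ n * H) := mul_le_mul k6 k5 (by positivity) (by positivity)
      _ = (H : ℝ) ^ (n + 3) := by ring
  have h5 : Real.sqrt |(x₁ : ℝ)| ≤ (H : ℝ) ^ (2 + 6 * E₀ + 2 * (n + 3) + C) := by
    calc Real.sqrt |(x₁ : ℝ)| ≤ 3 * ((H : ℝ) ^ E₀) ^ 6 * (3 + (n : ℝ) * H) ^ 2 * (H : ℝ) ^ C := hs
      _ ≤ (H : ℝ) ^ 2 * ((H : ℝ) ^ E₀) ^ 6 * ((H : ℝ) ^ (n + 3)) ^ 2 * (H : ℝ) ^ C := by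
        gcongr
      _ = (H : ℝ) ^ (2 + 6 * E₀ + 2 * (n + 3) + C) := by
        rw [← pow_mul, ← pow_mul, ← pow_add, ← pow_add, ← pow_add]
        congr 1
        ring
  have h6 : |(x₁ : ℝ)| ≤ (H : ℝ) ^ (2 * (2 + 6 * E₀ + 2 * (n + 3) + C)) := by
    have k1 : |(x₁ : ℝ)| = (Real.sqrt |(x₁ : ℝ)|) ^ 2 := (Real.sq_sqrt (abs_nonneg _)).symm
    rw [k1, Nat.mul_comm 2, pow_mul]
    exact pow_le_pow_left₀ (Real.sqrt_nonneg _) h5 2
  have h7 : |x₁| ≤ (H : ℤ) ^ (2 * (2 + 6 * E₀ + 2 * (n + 3) + C)) := by exact_mod_cast h6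
  omega

end Pool.Agent.H12.ON
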