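import Pool.Agent.H12.ON.Fcp
import Pool.Agent.H12.ON.Deh

/-! # [H12 ON FIR] Smooth with irreducible leading form implies absolutely irreducible

`f` = leading form (degree `n ≥ 3`), irreducible over `ℚ`. Over `ℂ` let `F = A B`, both not units (not constants); `a = deg A ≥ 1`, `b = deg B ≥ 1`, `a + b = deg F = n` (`totalDegree_mul_of_isDomain`; `deg F = n` because `f ≠ 0`),
`f = A_a B_b` over `ℂ`. The forms `A_a`, `B_b` have no common zero `(u,v) ≠ (0,0)`: there `f`, `∂_x f`, `∂_y f` would vanish (product rule). `f(0,1) ≠ 0` (`deh`: `ftop n F` has degree `n`, its leading coefficient is the coefficient of `y^n`),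
so `u ≠ 0` (if `u = 0`: `f(0,v) = v^n f(0,1) ≠ 0`), and by homogeneity `t = v/u` is a common zero of `f(1,T) = ftop n F` and of its derivative `(∂_y f)(1,T)`; but `ftop n F` is irreducible over `ℚ` (`deh`), so separable
(`Irreducible.separable`), so it has no common zero with its derivative in `ℂ`. By `fcp` `A` and `B` have a common zero `(u,v)` in `ℂ²`, which is a zero of `F`, `∂_x F`, `∂_y F` (product rule): against `hs`.
`F` is not a unit: its degree is `n`. -/

namespace Pool.Agent.H12.ON

open MvPolynomial

private theorem ev_form {n : ℕ} {P : MvPolynomial (Fin 2) ℂ} (hP : P.IsHomogeneous n) (u v : ℂ) :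
    aeval ![u, v] P = ∑ j ∈ Finset.range (n + 1), (ftop n P).coeff j * (u ^ (n - j) * v ^ j) := by
  conv_lhs => rw [deh_eq hP]
  rw [map_sum]
  refine Finset.sum_congr rfl fun j _ => ?_
  rw [aeval_monomial, Finsupp.prod_fintype _ _ (by simp), Fin.prod_univ_two]
  simp

private theorem ev_dform {n : ℕ} {P : MvPolynomial (Fin 2) ℂ} (hP : P.IsHomogeneous n) (u v : ℂ) :
    aeval ![u, v] (pderiv 1 P) =
      ∑ j ∈ Finset.range (n + 1), (ftop n P).coeff j * j * (u ^ (n - j) * v ^ (j - 1)) := by
  conv_lhs => rw [deh_eq hP]
  rw [map_sum, map_sum]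
  refine Finset.sum_congr rfl fun j _ => ?_
  rw [pderiv_monomial, aeval_monomial, Finsupp.prod_fintype _ _ (by simp), Fin.prod_univ_two]
  simp

private theorem ftop_eval {n : ℕ} {P : MvPolynomial (Fin 2) ℂ} (t : ℂ) :
    (ftop n P).eval t = ∑ j ∈ Finset.range (n + 1), (ftop n P).coeff j * t ^ j := by
  refine Polynomial.eval_eq_sum_range' ?_ t
  unfold ftop
  refine Nat.lt_succ_of_le (Polynomial.natDegree_sum_le_of_forall_le _ _ fun j hj => ?_)
  exact (Polynomial.natDegree_monomial_le _).trans (by simpa [Nat.lt_succ_iff] using hj)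

private theorem ftop_deval {n : ℕ} {P : MvPolynomial (Fin 2) ℂ} (hdeg : (ftop n P).natDegree ≤ n) (t : ℂ) :
    (Polynomial.derivative (ftop n P)).eval t =
      ∑ j ∈ Finset.range (n + 1), (ftop n P).coeff j * j * t ^ (j - 1) := by
  conv_lhs => rw [Polynomial.as_sum_range' (ftop n P) (n + 1) (Nat.lt_succ_of_le hdeg)]
  rw [map_sum, Polynomial.eval_finset_sum]
  refine Finset.sum_congr rfl fun j _ => ?_
  rw [Polynomial.derivative_monomial, Polynomial.eval_monomial]

theorem irr_of_smooth {n : ℕ} (hn : 3 ≤ n) {F : MvPolynomial (Fin 2) ℤ} (hd : F.totalDegree ≤ n)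
    (hl : Irreducible (map (Int.castRingHom ℚ) (homogeneousComponent n F)))
    (hs : ∀ a b : ℂ, aeval ![a, b] F = 0 →
      aeval ![a, b] (pderiv 0 F) ≠ 0 ∨ aeval ![a, b] (pderiv 1 F) ≠ 0) :
    Irreducible (map (Int.castRingHom ℂ) F) := by
  set G : MvPolynomial (Fin 2) ℂ := map (Int.castRingHom ℂ) F with hG
  set Q : MvPolynomial (Fin 2) ℚ := map (Int.castRingHom ℚ) F with hQ
  -- the evaluation
  have hev : ∀ (P : MvPolynomial (Fin 2) ℤ) (a b : ℂ),
      aeval ![a, b] (map (Int.castRingHom ℂ) P) = aeval ![a, b] P := fun P a b =>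
    aeval_map_algebraMap ℂ ![a, b] P
  -- the leading form
  have hl' : Irreducible (homogeneousComponent n Q) := by
    have h1 : map (Int.castRingHom ℚ) (homogeneousComponent n F) = homogeneousComponent n Q := by
      ext d
      rw [coeff_map, coeff_homogeneousComponent, coeff_homogeneousComponent, hQ, coeff_map]
      split_ifs
      · rfl
      · exact map_zero _
    rwa [h1] at hl
  obtain ⟨hdeg, hirr⟩ := deh (by omega) hl'
  have hfG : ftop n G = (ftop n Q).map (algebraMap ℚ ℂ) := by
    unfold ftop
    rw [Polynomial.map_sum]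
    refine Finset.sum_congr rfl fun j _ => ?_
    rw [Polynomial.map_monomial, hG, hQ, coeff_map, coeff_map]
    simp
  have hdG : (ftop n G).natDegree = n := by
    rw [hfG, Polynomial.natDegree_map, hdeg]
  have hsep : (ftop n G).Separable := by
    rw [hfG]
    exact hirr.separable.map
  set f : MvPolynomial (Fin 2) ℂ := homogeneousComponent n G with hf
  have hfh : f.IsHomogeneous n := homogeneousComponent_isHomogeneous n G
  have hft : ftop n f = ftop n G := deh_hom n G
  have hcn : (ftop n f).coeff n ≠ 0 := by
    rw [hft]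
    intro h0
    have h1 : (ftop n G).leadingCoeff = 0 := by
      rw [Polynomial.leadingCoeff, hdG, h0]
    rw [Polynomial.leadingCoeff_eq_zero] at h1
    rw [h1] at hdG
    simp at hdG
    omega
  -- no singular zero of the leading form
  have hnz : ∀ u v : ℂ, aeval ![u, v] f = 0 → aeval ![u, v] (pderiv 1 f) = 0 → u = 0 ∧ v = 0 := by
    intro u v h1 h2
    rw [ev_form hfh] at h1
    rw [ev_dform hfh] at h2
    by_cases hu : u = 0
    · refine ⟨hu, ?_⟩
      rw [Finset.sum_eq_single n] at h1
      · rw [Nat.sub_self, pow_zero, one_mul] at h1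
        exact pow_eq_zero_iff (by omega) |>.1 ((mul_eq_zero.1 h1).resolve_left hcn)
      · intro j hj hjn
        rw [hu, zero_pow, zero_mul, mul_zero]
        have := Finset.mem_range.1 hj
        omega
      · intro h
        exact absurd (Finset.mem_range.2 (Nat.lt_succ_self n)) h
    · exfalso
      obtain ⟨t, rfl⟩ : ∃ t, v = u * t := ⟨v / u, by field_simp⟩
      have h3 : (ftop n f).eval t = 0 := by
        have h4 : u ^ n * (ftop n f).eval t = 0 := by
          rw [ftop_eval, Finset.mul_sum, ← h1]
          refine Finset.sum_congr rfl fun j hj => ?_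
          have hj' : j ≤ n := by simpa [Nat.lt_succ_iff] using hj
          rw [mul_pow]
          have h5 : u ^ n = u ^ (n - j) * u ^ j := by
            rw [← pow_add]
            congr 1
            omega
          rw [h5]
          ring
        exact (mul_eq_zero.1 h4).resolve_left (pow_ne_zero _ hu)
      have h3' : (Polynomial.derivative (ftop n f)).eval t = 0 := by
        have h4 : u ^ (n - 1) * (Polynomial.derivative (ftop n f)).eval t = 0 := by
          rw [ftop_deval (by rw [hft, hdG]), Finset.mul_sum, ← h2]
          refine Finset.sum_congr rfl fun j hj => ?_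
          have hj' : j ≤ n := by simpa [Nat.lt_succ_iff] using hj
          rcases Nat.eq_zero_or_pos j with h0 | h0
          · subst h0
            simp
          · rw [mul_pow]
            have h5 : u ^ (n - 1) = u ^ (n - j) * u ^ (j - 1) := by
              rw [← pow_add]
              congr 1
              omega
            rw [h5]
            ring
        exact (mul_eq_zero.1 h4).resolve_left (pow_ne_zero _ hu)
      rw [hft] at h3 h3'
      have h6 := hsep.aeval_derivative_ne_zero (x := t) (by rw [Polynomial.coe_aeval_eq_eval]; exact h3)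
      rw [Polynomial.coe_aeval_eq_eval] at h6
      exact h6 h3'
  -- the degree
  have hf0 : f ≠ 0 := by
    intro h0
    apply hcn
    rw [h0]
    unfold ftop
    simp
  have hG0 : G ≠ 0 := by
    intro h0
    apply hf0
    rw [hf, h0, map_zero]
  have htd : G.totalDegree = n := by
    apply le_antisymm
    · have h1 : G.totalDegree ≤ F.totalDegree := by
        unfold totalDegree
        exact Finset.sup_mono (support_map_subset (Int.castRingHom ℂ) F)
      exact h1.trans hd
    · by_contra h0
      exact hf0 (homogeneousComponent_eq_zero _ _ (by omega))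
  have hdeg0 : ∀ P : MvPolynomial (Fin 2) ℂ, P ≠ 0 → P.totalDegree = 0 → IsUnit P := by
    intro P hP h0
    rw [isUnit_iff_totalDegree_of_isReduced]
    refine ⟨isUnit_iff_ne_zero.2 fun h1 => hP ?_, h0⟩
    rw [totalDegree_eq_zero_iff_eq_C.1 h0, h1, C_0]
  refine ⟨fun hu => ?_, fun A B hAB => ?_⟩
  · have h1 : G.totalDegree = 0 := (isUnit_iff_totalDegree_of_isReduced.1 hu).2
    have h2 : n = 0 := htd.symm.trans h1
    clear_value G
    omega
  · by_contra hno
    rw [not_or] at hno
    have hA0 : A ≠ 0 := by
      rintro rfl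
      exact hG0 (by rw [hAB, zero_mul])
    have hB0 : B ≠ 0 := by
      rintro rfl
      exact hG0 (by rw [hAB, mul_zero])
    have hab : A.totalDegree + B.totalDegree = n := by
      rw [← totalDegree_mul_of_isDomain hA0 hB0, ← hAB, htd]
    have ha : 1 ≤ A.totalDegree := by
      by_contra h0
      exact hno.1 (hdeg0 A hA0 (by omega))
    have hb : 1 ≤ B.totalDegree := by
      by_contra h0
      exact hno.2 (hdeg0 B hB0 (by omega))
    have htop : f = homogeneousComponent A.totalDegree A * homogeneousComponent B.totalDegree B := by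
      rw [← fcp_top le_rfl le_rfl, hab, ← hAB]
    obtain ⟨u, v, hA, hB⟩ := fcp ha hb (A := A) (B := B) le_rfl le_rfl (fun u v h1 h2 => by
      refine hnz u v ?_ ?_
      · rw [htop, map_mul, h1, zero_mul]
      · rw [htop, pderiv_mul, map_add, map_mul, map_mul, h1, h2, mul_zero, zero_mul, add_zero])
    have h1 : aeval ![u, v] F = 0 := by
      rw [← hev, ← hG, hAB, map_mul, hA, zero_mul]
    have h2 : ∀ i : Fin 2, aeval ![u, v] (pderiv i F) = 0 := by
      intro i
      rw [← hev, ← pderiv_map, ← hG, hAB, pderiv_mul, map_add, map_mul, map_mul, hA, hB, mul_zero, zero_mul,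
        add_zero]
    rcases hs u v h1 with h3 | h3
    · exact h3 (h2 0)
    · exact h3 (h2 1)

end Pool.Agent.H12.ON
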