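import Pool.Agent.H12.ON.Fsh

/-! # [H12 ON FNO] No homothety, if the second part is not `w · grad f`

`f`, `g` = the parts of degree `n`, `n - 1` of `G`, which are those of `F` (`F - G` has total degree `≤ n - 2`). `shift_comp` over `ℂ` (for `map (Int.castRingHom ℂ) F`; `aeval` of `F` is
`aeval` of the mapped polynomial, `aeval_map_algebraMap`; `n = m + 1`) on both sides of `e`: `z^(n-1) (g + w · grad f) = z^n (g + w · grad f)` (right side: `shift_comp` with `1` in place of `z`).
If `z ≠ 1` then `g + w · grad f = 0` over `ℂ`, `g = (-w) · grad f`. Let `π : ℂ → ℚ` be `ℚ`-linear with `π 1 = 1` (`LinearMap.exists_leftInverse_of_injective`, or a `ℚ`-linear left inverse of `algebraMap ℚ ℂ`);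
compare coefficients: `coeff m g = ∑ -w_i coeff m (∂_i f)` with rational (integer) `coeff m g`, `coeff m (∂_i f)`, and apply `π`: `coeff m g = ∑ π(-w_i) coeff m (∂_i f)`. So
`g = ∑ C (π(-w_i)) ∂_i f` over `ℚ`, against `hgen`. -/

namespace Pool.Agent.H12.ON

open MvPolynomial

private theorem hc_map {R S : Type} [CommRing R] [CommRing S] (φ : R →+* S) (j : ℕ) (P : MvPolynomial (Fin 2) R) :
    homogeneousComponent j (map φ P) = map φ (homogeneousComponent j P) := by
  ext d
  rw [coeff_homogeneousComponent, coeff_map, coeff_map, coeff_homogeneousComponent]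
  split_ifs
  · rfl
  · rw [map_zero]

theorem nohom_of {n : ℕ} (hn : 3 ≤ n) {G F : MvPolynomial (Fin 2) ℤ} (hG : G.totalDegree ≤ n)
    (hgen : ∀ w : Fin 2 → ℚ, map (Int.castRingHom ℚ) (homogeneousComponent (n - 1) G) ≠
      ∑ i, C (w i) * pderiv i (map (Int.castRingHom ℚ) (homogeneousComponent n G)))
    (h : (F - G).totalDegree ≤ n - 2) (w : Fin 2 → ℂ) (z : ℂ) (hz : z ≠ 0)
    (e : aeval (fun i => C (w i) + C z * X i : Fin 2 → MvPolynomial (Fin 2) ℂ) F =
      C (z ^ n) * aeval (fun i => C (w i) + X i : Fin 2 → MvPolynomial (Fin 2) ℂ) F) : z = 1 := by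
  obtain ⟨m, rfl⟩ : ∃ m, n = m + 1 := ⟨n - 1, by omega⟩
  rw [Nat.add_sub_cancel] at hgen
  by_contra hz1
  obtain ⟨f, hf⟩ : ∃ f, f = homogeneousComponent (m + 1) G := ⟨_, rfl⟩
  obtain ⟨g, hg⟩ : ∃ g, g = homogeneousComponent m G := ⟨_, rfl⟩
  have hFf : homogeneousComponent (m + 1) F = f := by
    have h1 : homogeneousComponent (m + 1) (F - G) = 0 := homogeneousComponent_eq_zero _ _ (by omega)
    rw [map_sub, sub_eq_zero] at h1
    rw [h1, hf]
  have hFg : homogeneousComponent m F = g := by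
    have h1 : homogeneousComponent m (F - G) = 0 := homogeneousComponent_eq_zero _ _ (by omega)
    rw [map_sub, sub_eq_zero] at h1
    rw [h1, hg]
  have hFd : F.totalDegree ≤ m + 1 := by
    have h1 : F = (F - G) + G := by ring
    rw [h1]
    exact (totalDegree_add _ _).trans (max_le (by omega) hG)
  obtain ⟨FC, hFC⟩ : ∃ FC, FC = map (Int.castRingHom ℂ) F := ⟨_, rfl⟩
  have hFCd : FC.totalDegree ≤ m + 1 := by
    rw [hFC]
    exact (Finset.sup_mono (support_map_subset _ _)).trans hFd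
  have hev : ∀ x : Fin 2 → MvPolynomial (Fin 2) ℂ, aeval x F = aeval x FC := by
    intro x
    rw [hFC]
    exact (aeval_map_algebraMap ℂ x F).symm
  have e1 := shift_comp hFCd w z
  have e2 := shift_comp hFCd w 1
  rw [map_one] at e2
  simp only [one_mul, one_pow, map_one] at e2
  rw [hev, hev] at e
  rw [e, homogeneousComponent_C_mul, e2] at e1
  obtain ⟨h, hh⟩ : ∃ h, h = homogeneousComponent m FC + ∑ i, C (w i) * pderiv i (homogeneousComponent (m + 1) FC) :=
    ⟨_, rfl⟩
  rw [← hh] at e1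
  have h0 : h = 0 := by
    have h2 : C (z ^ m * (z - 1)) * h = 0 := by
      have h3 : (C (z ^ m * (z - 1)) : MvPolynomial (Fin 2) ℂ) = C (z ^ (m + 1)) - C (z ^ m) := by
        rw [← C_sub]
        congr 1
        ring
      rw [h3, sub_mul, e1, sub_self]
    rcases mul_eq_zero.1 h2 with h4 | h4
    · rw [C_eq_zero] at h4
      rcases mul_eq_zero.1 h4 with h5 | h5
      · exact absurd h5 (pow_ne_zero _ hz)
      · exact absurd (sub_eq_zero.1 h5) hz1
    · exact h4
  obtain ⟨π, hπ⟩ := LinearMap.exists_leftInverse_of_injective (Algebra.linearMap ℚ ℂ)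
    (LinearMap.ker_eq_bot.2 (algebraMap ℚ ℂ).injective)
  have hπ1 : ∀ a : ℤ, π (a : ℂ) = a := by
    intro a
    have h1 := congrArg (fun l : ℚ →ₗ[ℚ] ℚ => l (a : ℚ)) hπ
    simpa using h1
  have hπ2 : ∀ (a : ℤ) (c : ℂ), π (c * (a : ℂ)) = π c * a := by
    intro a c
    have h1 : c * (a : ℂ) = (a : ℚ) • c := by
      rw [Algebra.smul_def, mul_comm]
      simp
    rw [h1, map_smul, smul_eq_mul, mul_comm]
  refine hgen (fun i => π (- w i)) ?_
  rw [← hg, ← hf]
  ext d
  rw [hFC, hc_map, hc_map, hFf, hFg] at hh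
  have h1 := congrArg (coeff d) hh
  rw [h0, coeff_zero, coeff_add, coeff_map, coeff_sum] at h1
  rw [coeff_map, coeff_sum]
  have h2 : ((coeff d g : ℤ) : ℂ) = ∑ i, (- w i) * ((coeff d (pderiv i f) : ℤ) : ℂ) := by
    have h3 : ∀ i, coeff d (C (w i) * pderiv i (map (Int.castRingHom ℂ) f)) =
        w i * ((coeff d (pderiv i f) : ℤ) : ℂ) := by
      intro i
      rw [coeff_C_mul, pderiv_map, coeff_map]
      rfl
    simp only [h3] at h1
    simp only [neg_mul, Finset.sum_neg_distrib]
    exact eq_neg_of_add_eq_zero_left h1.symm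
  have h4 := congrArg π h2
  rw [hπ1, map_sum] at h4
  change ((coeff d g : ℤ) : ℚ) = _
  rw [h4]
  refine Finset.sum_congr rfl fun i _ => ?_
  rw [hπ2, coeff_C_mul, pderiv_map, coeff_map]
  rfl

end Pool.Agent.H12.ON
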