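import Pool.Agent.H12.ON.Fsh

/-! # [H12 ON FSC] An affine map between two curves with the same two top parts is the identity

* `scal`: `b θ² + (a - d) θ - c = 0`; the polynomial `b T² + (a - d) T - c` vanishes at the zero `θ` of the irreducible `g` of degree `n ≥ 3`, so it is `0`
  (`th_li` in One.lean is the same argument).
* `grad_ne`: `f` irreducible, homogeneous of degree `n ≥ 2`, `∑ w_i ∂_i f = 0`: `w = 0`. Otherwise let `w 1 ≠ 0` (the case `w 0 ≠ 0` is the same):
  `∂_1 f = -(w_0/w_1) ∂_0 f`, by Euler `n f = x ∂_0 f + y ∂_1 f = (x - (w_0/w_1) y) ∂_0 f`; so `∂_0 f` is a unit (a constant), and `f` has degree `1`.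
* `top_two`: `f`, `g` the parts of degree `n`, `n - 1` of `G`; those of `F₁`, `F₂` are the same (`homogeneousComponent` of `F₁ - G`, which has total degree `≤ n - 2`, is `0`).
  `shift_top`, `shift_comp` (with `z = l`, `n = m + 1`): `l^n f = c f`, so `c = l^n`; `l^(n-1) (g + w · grad f) = c g = l^n g`, so `w · grad f = (l - 1) g`.
  If `l ≠ 1` then `g = (w/(l-1)) · grad f`, against `hgen`. So `l = 1`, `c = 1`, `w · grad f = 0`, `w = 0` by `grad_ne`. (`f ≠ 0`, irreducible.) -/

namespace Pool.Agent.H12.ON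

open MvPolynomial

theorem scal {n : ℕ} (hn : 3 ≤ n) {g : Polynomial ℚ} (hg : Irreducible g) (hd : g.natDegree = n) {θ : ℝ}
    (hθ : Polynomial.aeval θ g = 0) {a b c d : ℚ} (h : (c : ℝ) + d * θ = θ * (a + b * θ)) :
    b = 0 ∧ c = 0 ∧ a = d := by
  obtain ⟨p, hp⟩ : ∃ p : Polynomial ℚ, p = Polynomial.C c + Polynomial.C (d - a) * Polynomial.X +
      Polynomial.C (-b) * Polynomial.X ^ 2 := ⟨_, rfl⟩
  have h1 : Polynomial.aeval θ p = 0 := by
    rw [hp]
    simp only [map_add, map_mul, Polynomial.aeval_C, Polynomial.aeval_X, map_pow, eq_ratCast, Rat.cast_sub,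
      Rat.cast_neg]
    linear_combination h
  have h2 : g ∣ p := by
    by_contra hd
    obtain ⟨u, v, huv⟩ := (hg.coprime_iff_not_dvd).2 hd
    have h3 := congrArg (Polynomial.aeval θ) huv
    rw [map_add, map_mul, map_mul, hθ, h1, mul_zero, mul_zero, add_zero, map_one] at h3
    exact zero_ne_one h3
  have h3 : p.natDegree < g.natDegree := by
    rw [hd]
    refine lt_of_le_of_lt ?_ (show 2 < n from hn)
    rw [hp]
    compute_degree
  have h4 := Polynomial.eq_zero_of_dvd_of_natDegree_lt h2 h3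
  have h5 : p.coeff 0 = c := by rw [hp]; simp
  have h6 : p.coeff 1 = d - a := by rw [hp]; simp [Polynomial.coeff_C]
  have h7 : p.coeff 2 = -b := by rw [hp]; simp
  rw [h4, Polynomial.coeff_zero] at h5 h6 h7
  exact ⟨by linarith, h5.symm, by linarith⟩

private theorem not_unit {k : Type} [Field k] {n : ℕ} (hn : 1 ≤ n) {q : MvPolynomial (Fin 2) k}
    (hq : q.IsHomogeneous n) : ¬ IsUnit q := by
  intro hu
  have h1 : q ≠ 0 := hu.ne_zero
  have h2 := hq.totalDegree h1
  have h3 := (MvPolynomial.isUnit_iff_totalDegree_of_isReduced.1 hu).2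
  omega

private theorem grad_aux {k : Type} [Field k] [CharZero k] {n : ℕ} (hn : 2 ≤ n) {f : MvPolynomial (Fin 2) k}
    (hf : Irreducible f) {l q : MvPolynomial (Fin 2) k} (hl : l.IsHomogeneous 1)
    (hq : q.IsHomogeneous (n - 1)) {a : k} (ha : a ≠ 0) (h : C (n * a) * f = l * q) : False := by
  have hna : (n : k) * a ≠ 0 := mul_ne_zero (Nat.cast_ne_zero.2 (by omega)) ha
  have h1 : f = l * (C (n * a)⁻¹ * q) := by
    rw [← mul_assoc, mul_comm l, mul_assoc, ← h, ← mul_assoc, ← C_mul, inv_mul_cancel₀ hna, C_1, one_mul]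
  rcases hf.isUnit_or_isUnit h1 with h2 | h2
  · exact not_unit le_rfl hl h2
  · have h3 : (C (n * a)⁻¹ * q).IsHomogeneous (0 + (n - 1)) := (isHomogeneous_C _ _).mul hq
    exact not_unit (by omega) h3 h2

theorem grad_ne {k : Type} [Field k] [CharZero k] {n : ℕ} (hn : 2 ≤ n) {f : MvPolynomial (Fin 2) k}
    (hf : Irreducible f) (hh : f.IsHomogeneous n) {w : Fin 2 → k} (h : ∑ i, C (w i) * pderiv i f = 0) :
    w = 0 := by
  have he := hh.sum_X_mul_pderiv
  rw [Fin.sum_univ_two] at he h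
  have h0 := hh.pderiv (i := 0)
  have h1 := hh.pderiv (i := 1)
  have hl : (C (w 1) * X 0 - C (w 0) * X 1 : MvPolynomial (Fin 2) k).IsHomogeneous 1 := by
    have a1 : (C (w 1) * X 0 : MvPolynomial (Fin 2) k).IsHomogeneous (0 + 1) :=
      (isHomogeneous_C _ _).mul (isHomogeneous_X _ _)
    have a2 : (C (w 0) * X 1 : MvPolynomial (Fin 2) k).IsHomogeneous (0 + 1) :=
      (isHomogeneous_C _ _).mul (isHomogeneous_X _ _)
    exact a1.sub a2
  by_contra hw
  have hw' : w 0 ≠ 0 ∨ w 1 ≠ 0 := by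
    by_contra h2
    push Not at h2
    exact hw (funext fun i => by fin_cases i; exacts [h2.1, h2.2])
  rcases hw' with hw' | hw'
  · refine grad_aux hn hf hl h1 (neg_ne_zero.2 hw') ?_
    rw [C_mul, C_neg, map_natCast]
    linear_combination (C (w 0)) * he - X 0 * h
  · refine grad_aux hn hf hl h0 hw' ?_
    rw [C_mul, map_natCast]
    linear_combination (-C (w 1)) * he + X 1 * h

theorem top_two {n : ℕ} (hn : 3 ≤ n) {G F₁ F₂ : MvPolynomial (Fin 2) ℚ} (hG : G.totalDegree ≤ n)
    (hirr : Irreducible (homogeneousComponent n G))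
    (hgen : ∀ w : Fin 2 → ℚ, homogeneousComponent (n - 1) G ≠
      ∑ i, C (w i) * pderiv i (homogeneousComponent n G))
    (h1 : (F₁ - G).totalDegree ≤ n - 2) (h2 : (F₂ - G).totalDegree ≤ n - 2) {l c : ℚ} {w : Fin 2 → ℚ}
    (hl : l ≠ 0) (h : aeval (fun i => C (w i) + C l * X i : Fin 2 → MvPolynomial (Fin 2) ℚ) F₂ = C c * F₁) :
    l = 1 ∧ w = 0 ∧ c = 1 := by
  obtain ⟨m, rfl⟩ : ∃ m, n = m + 1 := ⟨n - 1, by omega⟩
  rw [show m + 1 - 1 = m by omega] at hgen
  have hd : ∀ {F : MvPolynomial (Fin 2) ℚ}, (F - G).totalDegree ≤ m + 1 - 2 → F.totalDegree ≤ m + 1 ∧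
      homogeneousComponent (m + 1) F = homogeneousComponent (m + 1) G ∧
      homogeneousComponent m F = homogeneousComponent m G := by
    intro F hF
    have e : F = (F - G) + G := by ring
    refine ⟨?_, ?_, ?_⟩
    · rw [e]
      exact (totalDegree_add _ _).trans (max_le (hF.trans (by omega)) hG)
    · conv_lhs => rw [e]
      rw [map_add, homogeneousComponent_eq_zero _ _ (by omega), zero_add]
    · conv_lhs => rw [e]
      rw [map_add, homogeneousComponent_eq_zero _ _ (by omega), zero_add]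
  obtain ⟨-, h12, h13⟩ := hd h1
  obtain ⟨h21, h22, h23⟩ := hd h2
  have hf0 := hirr.ne_zero
  have e1 := shift_top h21 w l
  rw [h, homogeneousComponent_C_mul, h12, h22] at e1
  have e2 := shift_comp h21 w l
  rw [h, homogeneousComponent_C_mul, h13, h22, h23] at e2
  have hc : c = l ^ (m + 1) := by
    have := mul_right_cancel₀ hf0 e1
    exact C_injective _ _ this
  have hlm : (C (l ^ m) : MvPolynomial (Fin 2) ℚ) ≠ 0 := by
    rw [Ne, C_eq_zero]
    exact pow_ne_zero _ hl
  have e3 : C l * homogeneousComponent m G = homogeneousComponent m G +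
      ∑ i, C (w i) * pderiv i (homogeneousComponent (m + 1) G) := by
    refine mul_left_cancel₀ hlm ?_
    rw [← e2, hc, pow_succ, C_mul, mul_assoc]
  have hl1 : l = 1 := by
    by_contra hne
    have hne' : l - 1 ≠ 0 := sub_ne_zero.2 hne
    refine hgen (fun i => w i / (l - 1)) ?_
    have e4 : C (l - 1) * homogeneousComponent m G =
        ∑ i, C (w i) * pderiv i (homogeneousComponent (m + 1) G) := by
      rw [C_sub, C_1]
      linear_combination e3
    have h5 : (C (l - 1) : MvPolynomial (Fin 2) ℚ) ≠ 0 := by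
      rw [Ne, C_eq_zero]
      exact hne'
    refine mul_left_cancel₀ h5 ?_
    rw [e4, Finset.mul_sum]
    refine Finset.sum_congr rfl fun i _ => ?_
    rw [← mul_assoc, ← C_mul, mul_div_cancel₀ _ hne']
  subst hl1
  refine ⟨rfl, ?_, by rw [hc, one_pow]⟩
  refine grad_ne (by omega) hirr (homogeneousComponent_isHomogeneous _ _) ?_
  rw [C_1, one_mul] at e3
  exact (left_eq_add.1 e3)

end Pool.Agent.H12.ON
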