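import Pool.Agent.H12.ON.Pai
import Pool.Agent.H12.ON.Fsc
import Pool.Agent.H12.ON.Fno
import Pool.Agent.H12.ON.Fir
import Pool.Agent.H12.ON.Fdi
import Pool.Agent.H12.ON.Deh

/-! # [H12 ON FAM] COROLLARY: in the family `G + L`, `deg L ≤ n - 2`, at most `n` integer points are exceptional

Two exceptional pairs near the same real zero `θ` of `f(1,T)` are related by an affine map (`pair`, `cmp`); it maps `(1,θ)` to a multiple of
`(1,θ')`, `θ'` a zero of `f(1,T)`, and `θ' = θ` because both points are near `θ` (`dir_eq`). So it is a homothety (`scal`), and the second part of `G`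
excludes it (`top_two`). -/

namespace Pool.Agent.H12.ON

open MvPolynomial

/-- the complex affine curve `F = 0` is smooth -/
def Smooth (F : MvPolynomial (Fin 2) ℤ) : Prop :=
  ∀ a b : ℂ, aeval ![a, b] F = 0 → aeval ![a, b] (pderiv 0 F) ≠ 0 ∨ aeval ![a, b] (pderiv 1 F) ≠ 0

private theorem fam_hc {n : ℕ} (hn : 3 ≤ n) {G F : MvPolynomial (Fin 2) ℤ} (h : (F - G).totalDegree ≤ n - 2) :
    homogeneousComponent n F = homogeneousComponent n G := by
  have h1 : homogeneousComponent n (F - G) = 0 := homogeneousComponent_eq_zero _ _ (by omega)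
  rw [map_sub] at h1
  exact sub_eq_zero.1 h1

private theorem fam_ftop {n : ℕ} (hn : 3 ≤ n) {G F : MvPolynomial (Fin 2) ℤ} (h : (F - G).totalDegree ≤ n - 2) :
    ftop n F = ftop n G := by
  rw [← deh_hom n F, ← deh_hom n G, fam_hc hn h]

private theorem fam_deg {n : ℕ} (hn : 3 ≤ n) {G F : MvPolynomial (Fin 2) ℤ} (hG : G.totalDegree ≤ n)
    (h : (F - G).totalDegree ≤ n - 2) : F.totalDegree ≤ n := by
  have h1 : F = (F - G) + G := by ring
  rw [h1]
  refine (totalDegree_add _ _).trans (max_le (by omega) hG)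

private theorem fam_tdmap (F : MvPolynomial (Fin 2) ℤ) :
    (map (Int.castRingHom ℚ) F).totalDegree ≤ F.totalDegree :=
  Finset.sup_mono (support_map_subset _ _)

private theorem fam_hcmap {k l : Type} [CommRing k] [CommRing l] (f : k →+* l) (n : ℕ)
    (F : MvPolynomial (Fin 2) k) :
    homogeneousComponent n (map f F) = map f (homogeneousComponent n F) := by
  ext m
  rw [coeff_homogeneousComponent, coeff_map, coeff_map, coeff_homogeneousComponent]
  split_ifs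
  · rfl
  · rw [map_zero]

/-- smooth curves with irreducible leading form are good -/
theorem good_of {n : ℕ} (hn : 3 ≤ n) {G F : MvPolynomial (Fin 2) ℤ} (hG : G.totalDegree ≤ n)
    (hl : Irreducible (map (Int.castRingHom ℚ) (homogeneousComponent n G)))
    (hgen : ∀ w : Fin 2 → ℚ, map (Int.castRingHom ℚ) (homogeneousComponent (n - 1) G) ≠
      ∑ i, C (w i) * pderiv i (map (Int.castRingHom ℚ) (homogeneousComponent n G)))
    (h : (F - G).totalDegree ≤ n - 2) (hs : Smooth F) : Good n F := by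
  have hl' : Irreducible (map (Int.castRingHom ℚ) (homogeneousComponent n F)) := by
    rw [fam_hc hn h]
    exact hl
  exact ⟨fam_deg hn hG h, hl', irr_of_smooth hn (fam_deg hn hG h) hl' hs, hs,
    fun w z hz e => nohom_of hn hG hgen h w z hz e⟩

/-! ### The part of degree `n` on a line -/

private theorem fam_ftop_coeff (n : ℕ) (F : MvPolynomial (Fin 2) ℤ) (j : ℕ) :
    (ftop n F).coeff j =
      if j < n + 1 then F.coeff (Finsupp.single 0 (n - j) + Finsupp.single 1 j) else 0 := by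
  unfold ftop
  rw [Polynomial.finsetSum_coeff]
  simp only [Polynomial.coeff_monomial]
  rw [Finset.sum_ite_eq' (Finset.range (n + 1)) j]
  simp only [Finset.mem_range]

private theorem fam_ftop_deg (n : ℕ) (F : MvPolynomial (Fin 2) ℤ) : (ftop n F).natDegree ≤ n := by
  rw [Polynomial.natDegree_le_iff_coeff_eq_zero]
  intro j hj
  rw [fam_ftop_coeff, if_neg (by omega)]

private theorem fam_ftop_map (n : ℕ) (F : MvPolynomial (Fin 2) ℤ) :
    ftop n (map (Int.castRingHom ℚ) F) = (ftop n F).map (Int.castRingHom ℚ) := by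
  unfold ftop
  rw [Polynomial.map_sum]
  refine Finset.sum_congr rfl fun j _ => ?_
  rw [Polynomial.map_monomial, coeff_map]

private theorem top_sum {K : Type} [CommRing K] (n : ℕ) (F : MvPolynomial (Fin 2) ℤ) (φ : ℕ → ℕ → K) :
    ∑ m ∈ F.support.filter (fun m => m 0 + m 1 = n), ((F.coeff m : ℤ) : K) * φ (m 0) (m 1) =
      ∑ j ∈ Finset.range (n + 1), (((ftop n F).coeff j : ℤ) : K) * φ (n - j) j := by
  symm
  have h1 : ∀ j ∈ Finset.range (n + 1), (((ftop n F).coeff j : ℤ) : K) * φ (n - j) j =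
      ((F.coeff (Finsupp.single 0 (n - j) + Finsupp.single 1 j) : ℤ) : K) * φ (n - j) j := by
    intro j hj
    rw [fam_ftop_coeff, if_pos (Finset.mem_range.1 hj)]
  rw [Finset.sum_congr rfl h1]
  have h2 : ∀ j, (Finsupp.single 0 (n - j) + Finsupp.single 1 j : Fin 2 →₀ ℕ) 0 = n - j := by
    intro j; simp
  have h3 : ∀ j, (Finsupp.single 0 (n - j) + Finsupp.single 1 j : Fin 2 →₀ ℕ) 1 = j := by
    intro j; simp
  refine Finset.sum_bij_ne_zero (fun j _ _ => Finsupp.single 0 (n - j) + Finsupp.single 1 j) ?_ ?_ ?_ ?_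
  · intro j hj hne
    rw [Finset.mem_filter, mem_support_iff, h2, h3]
    refine ⟨fun h0 => hne (by rw [h0, Int.cast_zero, zero_mul]), ?_⟩
    have := Finset.mem_range.1 hj
    omega
  · intro a _ _ b _ _ hab
    have := congrArg (fun m => m 1) hab
    simpa using this
  · intro m hm hne
    rw [Finset.mem_filter] at hm
    have h4 : (Finsupp.single 0 (n - m 1) + Finsupp.single 1 (m 1) : Fin 2 →₀ ℕ) = m := by
      ext i
      fin_cases i
      · have := hm.2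
        simp
        omega
      · simp
    refine ⟨m 1, Finset.mem_range.2 (by have := hm.2; omega), ?_, h4⟩
    rw [h4]
    have h5 : n - m 1 = m 0 := by have := hm.2; omega
    rw [h5]
    exact hne
  · intro j hj hne
    rw [h2, h3]

private theorem line_coeff {n : ℕ} {F : MvPolynomial (Fin 2) ℤ} (hF : F.totalDegree ≤ n) (u w : Fin 2 → ℝ) :
    (aeval (fun i => Polynomial.C (w i) + Polynomial.C (u i) * Polynomial.X : Fin 2 → Polynomial ℝ) F).coeff n =
      ∑ j ∈ Finset.range (n + 1), (((ftop n F).coeff j : ℤ) : ℝ) * (u 0 ^ (n - j) * u 1 ^ j) := by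
  have hdeg : ∀ i, (Polynomial.C (w i) + Polynomial.C (u i) * Polynomial.X : Polynomial ℝ).natDegree ≤ 1 := by
    intro i
    compute_degree
  have hco : ∀ i, (Polynomial.C (w i) + Polynomial.C (u i) * Polynomial.X : Polynomial ℝ).coeff 1 = u i := by
    intro i
    simp [Polynomial.coeff_C]
  have hp : ∀ i (e : ℕ), ((Polynomial.C (w i) + Polynomial.C (u i) * Polynomial.X : Polynomial ℝ) ^ e).natDegree ≤ e := by
    intro i e
    refine Polynomial.natDegree_pow_le.trans ?_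
    have := hdeg i
    calc e * _ ≤ e * 1 := Nat.mul_le_mul_left _ this
      _ = e := mul_one _
  have hpc : ∀ i (e : ℕ), ((Polynomial.C (w i) + Polynomial.C (u i) * Polynomial.X : Polynomial ℝ) ^ e).coeff e =
      u i ^ e := by
    intro i e
    have h1 := Polynomial.coeff_pow_of_natDegree_le (m := e) (hdeg i)
    rw [mul_one, hco] at h1
    exact h1
  rw [aeval_def, eval₂_eq']
  simp only [Fin.prod_univ_two]
  rw [Polynomial.finsetSum_coeff, ← Finset.sum_filter_add_sum_filter_not F.support (fun m => m 0 + m 1 = n),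
    ← top_sum n F (fun a b => u 0 ^ a * u 1 ^ b)]
  have h0 : ∑ m ∈ F.support.filter (fun m => ¬ (m 0 + m 1 = n)), (algebraMap ℤ (Polynomial ℝ) (F.coeff m) *
      ((Polynomial.C (w 0) + Polynomial.C (u 0) * Polynomial.X) ^ m 0 *
        (Polynomial.C (w 1) + Polynomial.C (u 1) * Polynomial.X) ^ m 1)).coeff n = 0 := by
    refine Finset.sum_eq_zero fun m hm => ?_
    rw [Finset.mem_filter] at hm
    have h1 := le_totalDegree hm.1
    rw [Finsupp.sum_fintype _ _ (fun _ => rfl), Fin.sum_univ_two] at h1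
    have h2 : m 0 + m 1 < n := lt_of_le_of_ne (h1.trans hF) hm.2
    rw [eq_intCast, ← Polynomial.C_eq_intCast, Polynomial.coeff_C_mul]
    rw [Polynomial.coeff_eq_zero_of_natDegree_lt, mul_zero]
    refine lt_of_le_of_lt Polynomial.natDegree_mul_le ?_
    have h3 := hp 0 (m 0)
    have h4 := hp 1 (m 1)
    omega
  rw [h0, add_zero]
  refine Finset.sum_congr rfl fun m hm => ?_
  rw [Finset.mem_filter] at hm
  rw [eq_intCast, ← Polynomial.C_eq_intCast, Polynomial.coeff_C_mul]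
  have h5 := Polynomial.coeff_mul_add_eq_of_natDegree_le (hp 0 (m 0)) (hp 1 (m 1))
  rw [hm.2, hpc, hpc] at h5
  rw [h5]

private theorem fam_hom {n : ℕ} (g : Polynomial ℤ) (hg : g.natDegree ≤ n) (u v : ℝ) (hu : u ≠ 0) :
    ∑ j ∈ Finset.range (n + 1), ((g.coeff j : ℤ) : ℝ) * (u ^ (n - j) * v ^ j) =
      u ^ n * Polynomial.aeval (v / u) g := by
  have h1 : (g.map (Int.castRingHom ℝ)).natDegree < n + 1 :=
    lt_of_le_of_lt Polynomial.natDegree_map_le (by omega)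
  have h0 : Polynomial.aeval (v / u) g = (g.map (Int.castRingHom ℝ)).eval (v / u) := by
    rw [Polynomial.eval_map, Polynomial.aeval_def]
    rfl
  rw [h0, Polynomial.eval_eq_sum_range' h1, Finset.mul_sum]
  refine Finset.sum_congr rfl fun j hj => ?_
  have h2 : j ≤ n := by
    have := Finset.mem_range.1 hj
    omega
  rw [Polynomial.coeff_map, eq_intCast, div_pow]
  have h3 : u ^ n = u ^ (n - j) * u ^ j := by
    rw [← pow_add]
    congr 1
    omega
  rw [h3]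
  field_simp

/-! ### Two exceptional pairs at the same real zero -/

private theorem fam_line {F₁ F₂ : MvPolynomial (Fin 2) ℤ} {A : Matrix (Fin 2) (Fin 2) ℚ} {w : Fin 2 → ℚ} {c : ℚ}
    (h : aeval (fun i => ∑ j, C (A i j) * X j + C (w i) : Fin 2 → MvPolynomial (Fin 2) ℚ) F₂ =
      C c * map (Int.castRingHom ℚ) F₁) (θ : ℝ) :
    aeval (fun i => Polynomial.C ((w i : ℝ)) + Polynomial.C ((A i 0 : ℝ) + A i 1 * θ) * Polynomial.X :
      Fin 2 → Polynomial ℝ) F₂ =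
      Polynomial.C (c : ℝ) * aeval (fun i => Polynomial.C ((0 : ℝ)) + Polynomial.C ((![1, θ] : Fin 2 → ℝ) i) *
        Polynomial.X : Fin 2 → Polynomial ℝ) F₁ := by
  have hC : ∀ q : ℚ, algebraMap ℚ (Polynomial ℝ) q = Polynomial.C (q : ℝ) := fun q => by
    rw [IsScalarTower.algebraMap_apply ℚ ℝ (Polynomial ℝ), Polynomial.algebraMap_eq, eq_ratCast]
  obtain ⟨ψ, hψ⟩ : ∃ ψ : MvPolynomial (Fin 2) ℚ →ₐ[ℚ] Polynomial ℝ,
      ψ = aeval (fun j => Polynomial.C ((![1, θ] : Fin 2 → ℝ) j) * Polynomial.X) := ⟨_, rfl⟩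
  have h1 := congrArg ψ h
  have h2 : ∀ (g : Fin 2 → MvPolynomial (Fin 2) ℚ) (F : MvPolynomial (Fin 2) ℤ),
      ψ (aeval g F) = aeval (fun i => ψ (g i)) F := by
    intro g F
    have h3 : ((ψ.restrictScalars ℤ).comp (aeval g) : MvPolynomial (Fin 2) ℤ →ₐ[ℤ] Polynomial ℝ) =
        aeval (fun i => ψ (g i)) := by
      rw [comp_aeval]
      rfl
    exact DFunLike.congr_fun h3 F
  rw [h2, map_mul] at h1
  have h4 : ψ (C c) = Polynomial.C (c : ℝ) := by
    rw [hψ, aeval_C, hC]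
  have h5 : ψ (map (Int.castRingHom ℚ) F₁) = aeval (fun i => Polynomial.C ((0 : ℝ)) +
      Polynomial.C ((![1, θ] : Fin 2 → ℝ) i) * Polynomial.X : Fin 2 → Polynomial ℝ) F₁ := by
    rw [hψ]
    have h6 := aeval_map_algebraMap (R := ℤ) ℚ
      (fun j => Polynomial.C ((![1, θ] : Fin 2 → ℝ) j) * Polynomial.X : Fin 2 → Polynomial ℝ) F₁
    rw [← algebraMap_int_eq ℚ, h6]
    congr 2
    funext i
    rw [map_zero, zero_add]
  rw [h4, h5] at h1
  rw [← h1]
  congr 2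
  funext i
  have h7 : ψ (∑ j, C (A i j) * X j + C (w i)) = Polynomial.C (A i 0 : ℝ) * (Polynomial.C 1 * Polynomial.X) +
      Polynomial.C (A i 1 : ℝ) * (Polynomial.C θ * Polynomial.X) + Polynomial.C (w i : ℝ) := by
    rw [Fin.sum_univ_two, map_add, map_add, map_mul, map_mul, hψ, aeval_C, aeval_C, aeval_C, aeval_X, aeval_X, hC,
      hC, hC]
    rfl
  rw [h7, Polynomial.C_add, Polynomial.C_mul, Polynomial.C_1]
  ring

/-- the image of the direction `θ` is a direction at infinity -/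
private theorem fam_dir {n : ℕ} (hn : 2 ≤ n) {F₁ F₂ : MvPolynomial (Fin 2) ℤ} (h1 : F₁.totalDegree ≤ n)
    (h2 : F₂.totalDegree ≤ n) (hf : ftop n F₁ = ftop n F₂) (hl : (ftop n F₂).coeff n ≠ 0)
    {A : Matrix (Fin 2) (Fin 2) ℚ} {w : Fin 2 → ℚ} {c : ℚ} (hA : A.det ≠ 0)
    (h : aeval (fun i => ∑ j, C (A i j) * X j + C (w i) : Fin 2 → MvPolynomial (Fin 2) ℚ) F₂ =
      C c * map (Int.castRingHom ℚ) F₁) {θ : ℝ} (hθ : Polynomial.aeval θ (ftop n F₂) = 0) :
    ∃ θ' : ℝ, Polynomial.aeval θ' (ftop n F₂) = 0 ∧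
      (A 1 0 : ℝ) + A 1 1 * θ = θ' * (A 0 0 + A 0 1 * θ) := by
  have e1 := congrArg (fun p => Polynomial.coeff p n) (fam_line h θ)
  simp only [Polynomial.coeff_C_mul] at e1
  rw [line_coeff h2 (fun i => (A i 0 : ℝ) + A i 1 * θ) (fun i => (w i : ℝ)),
    line_coeff h1 (![1, θ] : Fin 2 → ℝ) (fun _ => (0 : ℝ)), hf] at e1
  have e2 := fam_hom (n := n) (ftop n F₂) (fam_ftop_deg n F₂) 1 θ one_ne_zero
  rw [div_one, hθ, mul_zero] at e2
  have e3 : ∑ j ∈ Finset.range (n + 1), (((ftop n F₂).coeff j : ℤ) : ℝ) *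
      ((![1, θ] : Fin 2 → ℝ) 0 ^ (n - j) * (![1, θ] : Fin 2 → ℝ) 1 ^ j) = 0 := by
    simpa only [Matrix.cons_val_zero, Matrix.cons_val_one] using e2
  rw [e3, mul_zero] at e1
  have hdet : (A 0 0 : ℝ) * A 1 1 - A 0 1 * A 1 0 ≠ 0 := by
    rw [Matrix.det_fin_two] at hA
    exact_mod_cast hA
  by_cases hu : (A 0 0 : ℝ) + A 0 1 * θ = 0
  · exfalso
    simp only [hu] at e1
    rw [Finset.sum_eq_single n] at e1
    · rw [Nat.sub_self, pow_zero, one_mul] at e1
      rcases mul_eq_zero.1 e1 with h3 | h3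
      · exact hl (by exact_mod_cast h3)
      · have h4 : (A 1 0 : ℝ) + A 1 1 * θ = 0 := (pow_eq_zero_iff (by omega)).1 h3
        refine hdet ?_
        have h5 : (A 1 1 : ℝ) * (A 0 0 + A 0 1 * θ) - A 0 1 * (A 1 0 + A 1 1 * θ) = 0 := by
          rw [hu, h4]
          ring
        linear_combination h5
    · intro j hj hjn
      have h3 : n - j ≠ 0 := by
        have := Finset.mem_range.1 hj
        omega
      rw [zero_pow h3, zero_mul, mul_zero]
    · intro h3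
      exact absurd (Finset.mem_range.2 (Nat.lt_succ_self n)) h3
  · refine ⟨((A 1 0 : ℝ) + A 1 1 * θ) / (A 0 0 + A 0 1 * θ), ?_, ?_⟩
    · have e4 := fam_hom (n := n) (ftop n F₂) (fam_ftop_deg n F₂) ((A 0 0 : ℝ) + A 0 1 * θ)
        ((A 1 0 : ℝ) + A 1 1 * θ) hu
      rw [e1] at e4
      rcases mul_eq_zero.1 e4.symm with h3 | h3
      · exact absurd h3 (pow_ne_zero _ hu)
      · exact h3
    · rw [div_mul_cancel₀ _ hu]

private theorem uniq (n : ℕ) (hn : 4 ≤ n) : ∃ E : ℕ, ∀ G : MvPolynomial (Fin 2) ℤ, G.totalDegree ≤ n →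
    Irreducible (map (Int.castRingHom ℚ) (homogeneousComponent n G)) →
    (∀ w : Fin 2 → ℚ, map (Int.castRingHom ℚ) (homogeneousComponent (n - 1) G) ≠
      ∑ i, C (w i) * pderiv i (map (Int.castRingHom ℚ) (homogeneousComponent n G))) →
    ∀ (F₁ F₂ : MvPolynomial (Fin 2) ℤ) (H₁ H₂ : ℕ) (θ : ℝ) (x₁ y₁ x₂ y₂ : ℤ),
    Good n F₁ → Good n F₂ → (F₁ - G).totalDegree ≤ n - 2 → (F₂ - G).totalDegree ≤ n - 2 → 2 ≤ H₁ → H₁ ≤ H₂ →
    (∀ m, |F₁.coeff m| ≤ (H₁ : ℤ)) → (∀ m, |F₂.coeff m| ≤ (H₂ : ℤ)) →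
    Polynomial.aeval θ (ftop n G) = 0 → Near θ x₁ y₁ → Near θ x₂ y₂ →
    aeval ![x₁, y₁] F₁ = (0 : ℤ) → aeval ![x₂, y₂] F₂ = (0 : ℤ) → (H₁ : ℤ) ^ E < max |x₁| |y₁| →
    (H₂ : ℤ) ^ E < max |x₂| |y₂| → F₁ = F₂ ∧ x₁ = x₂ ∧ y₁ = y₂ := by
  have hn3 : 3 ≤ n := by omega
  obtain ⟨E1, hE1⟩ := near_exists n hn3
  obtain ⟨E2, hE2⟩ := pair n hn
  obtain ⟨E3, C3, hE3⟩ := cmp n hn
  obtain ⟨E4, hE4⟩ := dir_eq n E2 (by omega)
  refine ⟨E1 + E2 + E3 + 2 * (E4 * C3), ?_⟩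
  intro G hG hirr hgen F₁ F₂ H₁ H₂ θ x₁ y₁ x₂ y₂ hg1 hg2 hd1 hd2 hH1 hH12 hc1 hc2 hθ hn1 hn2 hz1 hz2 hb1 hb2
  have hH2 : 2 ≤ H₂ := hH1.trans hH12
  have hpow : ∀ {h : ℕ} {a b : ℕ} {z : ℤ}, 2 ≤ h → a ≤ b → (h : ℤ) ^ b < z → (h : ℤ) ^ a < z := by
    intro h a b z hh hab hz
    have hh1 : (1 : ℤ) ≤ (h : ℤ) := by exact_mod_cast (by omega : 1 ≤ h)
    exact lt_of_le_of_lt (pow_le_pow_right₀ hh1 hab) hz
  have hf1 : ftop n F₁ = ftop n G := fam_ftop hn3 hd1
  have hf2 : ftop n F₂ = ftop n G := fam_ftop hn3 hd2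
  have hR := hE2 F₁ F₂ H₁ H₂ θ θ x₁ y₁ x₂ y₂ hg1 hg2 hH1 hH12 hc1 hc2 (hf1 ▸ hθ) (hf2 ▸ hθ) rfl hn1 hn2 hz1 hz2
    (hpow hH1 (by omega) hb1) (hpow hH2 (by omega) hb2)
  obtain ⟨A, w, c, hdet, hc0, hAh, hwh, _, hP, he⟩ := hR
  have hl1 : Irreducible (map (Int.castRingHom ℚ) (homogeneousComponent n F₁)) := hg1.lead
  have hl2 : Irreducible (map (Int.castRingHom ℚ) (homogeneousComponent n F₂)) := hg2.lead
  have hcmp := hE3 F₁ F₂ H₁ H₂ θ θ x₁ y₁ x₂ y₂ hg1.deg hg2.deg hl1 hl2 hH1 hH2 hc1 hc2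
    (hf1 ▸ hθ) (hf2 ▸ hθ) rfl hn1 hn2 hz1 hz2 (hpow hH1 (by omega) hb1) (hpow hH2 (by omega) hb2)
  obtain ⟨hx2, hmx, -⟩ := hE1 F₁ H₁ hg1.deg hl1 hH1 hc1 x₁ y₁ hz1 (hpow hH1 (by omega) hb1)
  -- `x₁` is larger than every fixed power of `H₂`
  have hxbig : (H₂ : ℤ) ^ E4 < |x₁| := by
    by_contra hcon
    push Not at hcon
    have h1 : max |x₂| |y₂| ≤ ((H₂ : ℤ) ^ E4) ^ (2 * C3) := by
      refine hcmp.trans ?_
      rw [pow_mul]
      refine pow_le_pow_left₀ (le_trans (abs_nonneg _) (le_max_left _ _)) (hmx.trans ?_) _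
      exact pow_le_pow_left₀ (abs_nonneg _) hcon 2
    rw [← pow_mul] at h1
    have h2 := hpow hH2 (show E4 * (2 * C3) ≤ E1 + E2 + E3 + 2 * (E4 * C3) by
      have : E4 * (2 * C3) = 2 * (E4 * C3) := by ring
      omega) hb2
    omega
  -- the polynomial `f(1,T)`
  have hirr' : Irreducible (homogeneousComponent n (map (Int.castRingHom ℚ) G)) := by
    rw [fam_hcmap]
    exact hirr
  obtain ⟨hdegQ, hirrQ⟩ := deh (by omega : 2 ≤ n) hirr'
  rw [fam_ftop_map] at hdegQ hirrQ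
  have hinj : Function.Injective (Int.castRingHom ℚ) := Int.cast_injective
  have hdeg : (ftop n G).natDegree = n := by
    rw [Polynomial.natDegree_map_eq_of_injective hinj] at hdegQ
    exact hdegQ
  have hlead : (ftop n F₂).coeff n ≠ 0 := by
    rw [hf2]
    intro h0
    have h1 : (ftop n G).leadingCoeff = 0 := by
      rw [Polynomial.leadingCoeff, hdeg]
      exact h0
    have h2 := Polynomial.leadingCoeff_eq_zero.1 h1
    rw [h2, Polynomial.map_zero] at hirrQ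
    exact hirrQ.ne_zero rfl
  have hcoef : ∀ i, |(ftop n G).coeff i| ≤ (H₂ : ℤ) := by
    intro i
    rw [← hf2, fam_ftop_coeff]
    split_ifs
    · exact hc2 _
    · rw [abs_zero]
      positivity
  obtain ⟨θ', hθ'1, hθ'2⟩ := fam_dir (by omega : 2 ≤ n) hg1.deg hg2.deg (hf1.trans hf2.symm) hlead hdet he
    (hf2 ▸ hθ)
  rw [hf2] at hθ'1
  have hP0 : (x₂ : ℚ) = A 0 0 * x₁ + A 0 1 * y₁ + w 0 := by
    have h1 := hP 0
    rw [Fin.sum_univ_two] at h1
    simpa using h1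
  have hP1 : (y₂ : ℚ) = A 1 0 * x₁ + A 1 1 * y₁ + w 1 := by
    have h1 := hP 1
    rw [Fin.sum_univ_two] at h1
    simpa using h1
  have hθθ : θ' = θ := hE4 (ftop n G) H₂ θ θ' A w x₁ y₁ x₂ y₂ hirrQ hdeg hH2 hcoef hθ hθ'1 hdet hAh hwh hθ'2 hn1 hn2
    hP0 hP1 hxbig
  rw [hθθ] at hθ'2
  have hθQ : Polynomial.aeval θ ((ftop n G).map (Int.castRingHom ℚ)) = 0 := by
    have h1 := Polynomial.aeval_map_algebraMap ℚ θ (ftop n G)
    rw [algebraMap_int_eq] at h1
    rw [h1]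
    exact hθ
  obtain ⟨hA01, hA10, hA11⟩ := scal hn3 hirrQ hdegQ hθQ hθ'2
  have hA0 : A 0 0 ≠ 0 := by
    intro h0
    apply hdet
    rw [Matrix.det_fin_two, h0, hA01]
    ring
  have hmap : ∀ {F : MvPolynomial (Fin 2) ℤ}, (F - G).totalDegree ≤ n - 2 →
      (map (Int.castRingHom ℚ) F - map (Int.castRingHom ℚ) G).totalDegree ≤ n - 2 := by
    intro F hF
    rw [← map_sub]
    exact (fam_tdmap _).trans hF
  have he' : aeval (fun i => C (w i) + C (A 0 0) * X i : Fin 2 → MvPolynomial (Fin 2) ℚ)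
      (map (Int.castRingHom ℚ) F₂) = C c * map (Int.castRingHom ℚ) F₁ := by
    rw [← he, ← algebraMap_int_eq ℚ, aeval_map_algebraMap]
    congr 2
    funext i
    fin_cases i
    · simp [Fin.sum_univ_two, hA01]
      ring
    · simp [Fin.sum_univ_two, hA10, hA11]
      ring
  obtain ⟨ha1, hw0, hc1'⟩ := top_two hn3 ((fam_tdmap _).trans hG) hirr' (by
    intro v
    rw [fam_hcmap, fam_hcmap]
    exact hgen v) (hmap hd1) (hmap hd2) hA0 he'
  have hFF : map (Int.castRingHom ℚ) F₂ = map (Int.castRingHom ℚ) F₁ := by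
    rw [ha1, hw0, hc1', C_1, one_mul] at he'
    rw [← he']
    have h1 : (fun i => C ((0 : Fin 2 → ℚ) i) + 1 * X i : Fin 2 → MvPolynomial (Fin 2) ℚ) = X := by
      funext i
      rw [Pi.zero_apply, C_0, zero_add, one_mul]
    rw [h1, aeval_X_left_apply]
  refine ⟨(map_injective _ hinj hFF).symm, ?_, ?_⟩
  · rw [hA01, ha1, hw0] at hP0
    simp at hP0
    exact_mod_cast hP0.symm
  · rw [hA10, ← hA11, ha1, hw0] at hP1
    simp at hP1
    exact_mod_cast hP1.symm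

theorem family (n : ℕ) (hn : 4 ≤ n) : ∃ E : ℕ, ∀ G : MvPolynomial (Fin 2) ℤ, G.totalDegree ≤ n →
    Irreducible (map (Int.castRingHom ℚ) (homogeneousComponent n G)) →
    (∀ w : Fin 2 → ℚ, map (Int.castRingHom ℚ) (homogeneousComponent (n - 1) G) ≠
      ∑ i, C (w i) * pderiv i (map (Int.castRingHom ℚ) (homogeneousComponent n G))) →
    {p : MvPolynomial (Fin 2) ℤ × (Fin 2 → ℤ) | (p.1 - G).totalDegree ≤ n - 2 ∧ Smooth p.1 ∧
      eval p.2 p.1 = 0 ∧ ∃ H : ℕ, 2 ≤ H ∧ (∀ m, |p.1.coeff m| ≤ (H : ℤ)) ∧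
        ∃ i, (H : ℤ) ^ E < |p.2 i|}.encard ≤ n := by
  classical
  have hn3 : 3 ≤ n := by omega
  obtain ⟨E1, hE1⟩ := near_exists n hn3
  obtain ⟨E2, hE2⟩ := uniq n hn
  refine ⟨E1 + E2, ?_⟩
  intro G hG hirr hgen
  have hpow : ∀ {h : ℕ} {a b : ℕ} {z : ℤ}, 2 ≤ h → a ≤ b → (h : ℤ) ^ b < z → (h : ℤ) ^ a < z := by
    intro h a b z hh hab hz
    have hh1 : (1 : ℤ) ≤ (h : ℤ) := by exact_mod_cast (by omega : 1 ≤ h)
    exact lt_of_le_of_lt (pow_le_pow_right₀ hh1 hab) hz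
  set S : Set (MvPolynomial (Fin 2) ℤ × (Fin 2 → ℤ)) := {p | (p.1 - G).totalDegree ≤ n - 2 ∧ Smooth p.1 ∧
      eval p.2 p.1 = 0 ∧ ∃ H : ℕ, 2 ≤ H ∧ (∀ m, |p.1.coeff m| ≤ (H : ℤ)) ∧
        ∃ i, (H : ℤ) ^ (E1 + E2) < |p.2 i|} with hS
  -- the data of an element
  have key : ∀ p ∈ S, ∃ (θ : ℝ) (H : ℕ), Polynomial.aeval θ (ftop n G) = 0 ∧ Near θ (p.2 0) (p.2 1) ∧ Good n p.1 ∧
      (p.1 - G).totalDegree ≤ n - 2 ∧ 2 ≤ H ∧ (∀ m, |p.1.coeff m| ≤ (H : ℤ)) ∧
      aeval ![p.2 0, p.2 1] p.1 = (0 : ℤ) ∧ (H : ℤ) ^ E2 < max |p.2 0| |p.2 1| := by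
    rintro ⟨F, P⟩ ⟨h1, h2, h3, H, h4, h5, i, h6⟩
    have h7 := good_of hn3 hG hirr hgen h1 h2
    have h8 : (H : ℤ) ^ (E1 + E2) < max |P 0| |P 1| := by
      refine lt_of_lt_of_le h6 ?_
      fin_cases i
      · exact le_max_left _ _
      · exact le_max_right _ _
    have h9 : aeval ![P 0, P 1] F = (0 : ℤ) := by
      have h10 : (![P 0, P 1] : Fin 2 → ℤ) = P := by
        funext j
        fin_cases j <;> rfl
      have h13 : aeval P F = eval P F := by
        rw [← coe_aeval_eq_eval]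
        rfl
      rw [h10, h13]
      exact h3
    obtain ⟨-, -, θ, h11, h12⟩ := hE1 F H h7.deg h7.lead h4 h5 (P 0) (P 1) h9 (hpow h4 (by omega) h8)
    rw [fam_ftop hn3 h1] at h11
    exact ⟨θ, H, h11, h12, h7, h1, h4, h5, h9, hpow h4 (by omega) h8⟩
  choose! th Hh k1 k2 k3 k4 k5 k6 k7 k8 using key
  have hinjR : Function.Injective (Int.castRingHom ℝ) := Int.cast_injective
  have hg0 : (ftop n G) ≠ 0 := by
    have hirr' : Irreducible (homogeneousComponent n (map (Int.castRingHom ℚ) G)) := by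
      rw [fam_hcmap]
      exact hirr
    obtain ⟨-, hirrQ⟩ := deh (by omega : 2 ≤ n) hirr'
    rw [fam_ftop_map] at hirrQ
    intro h0
    rw [h0, Polynomial.map_zero] at hirrQ
    exact hirrQ.ne_zero rfl
  set R : Finset ℝ := ((ftop n G).map (Int.castRingHom ℝ)).roots.toFinset with hR
  have hmaps : Set.MapsTo th S (R : Set ℝ) := by
    intro p hp
    rw [hR, Finset.mem_coe, Multiset.mem_toFinset, Polynomial.mem_roots
      ((Polynomial.map_ne_zero_iff hinjR).2 hg0), Polynomial.IsRoot.def, Polynomial.eval_map]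
    exact k1 p hp
  have hinj : Set.InjOn th S := by
    intro p hp q hq hpq
    rcases le_total (Hh p) (Hh q) with h | h
    · obtain ⟨e1, e2, e3⟩ := hE2 G hG hirr hgen p.1 q.1 (Hh p) (Hh q) (th q) (p.2 0) (p.2 1) (q.2 0) (q.2 1) (k3 p hp)
        (k3 q hq) (k4 p hp) (k4 q hq) (k5 p hp) h (k6 p hp) (k6 q hq) (k1 q hq) (hpq ▸ k2 p hp) (k2 q hq) (k7 p hp)
        (k7 q hq) (k8 p hp) (k8 q hq)
      refine Prod.ext e1 ?_
      funext i
      fin_cases i
      · exact e2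
      · exact e3
    · obtain ⟨e1, e2, e3⟩ := hE2 G hG hirr hgen q.1 p.1 (Hh q) (Hh p) (th p) (q.2 0) (q.2 1) (p.2 0) (p.2 1) (k3 q hq)
        (k3 p hp) (k4 q hq) (k4 p hp) (k5 q hq) h (k6 q hq) (k6 p hp) (k1 p hp) (hpq ▸ k2 q hq) (k2 p hp) (k7 q hq)
        (k7 p hp) (k8 q hq) (k8 p hp)
      refine Prod.ext e1.symm ?_
      funext i
      fin_cases i
      · exact e2.symm
      · exact e3.symm
  have h1 := Set.encard_le_encard_of_injOn hmaps hinj
  refine h1.trans ?_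
  rw [Set.encard_coe_eq_coe_finsetCard]
  have h2 : R.card ≤ n := by
    refine (Multiset.toFinset_card_le _).trans ((Polynomial.card_roots' _).trans ?_)
    exact Polynomial.natDegree_map_le.trans (fam_ftop_deg n G)
  exact_mod_cast h2

end Pool.Agent.H12.ON
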