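import Pool.Agent.H12.ON.Def

/-! # [H12 ON FCP] Two curves without a common point at infinity meet in the plane

`A`, `B` of total degrees `a, b ≥ 1` over `ℂ` whose leading forms have no common zero except the origin. Then `A`, `B` have a common zero in `ℂ²`.
By the Nullstellensatz (`MvPolynomial.vanishingIdeal_zeroLocus_eq_radical`, or `Ideal.exists_le_maximal` and `isMaximal_iff_eq_vanishingIdeal_singleton`) it is enough that
`1 ∉ (A, B)`. Suppose `1 = U A + V B`; choose `U`, `V` such that `d = max(deg U + a, deg V + b)` (with `U ≠ 0`, `V ≠ 0`; if `U = 0` then `V B = 1`, `B` would be a unit, a constant, and similarly for `V = 0`) is minimal.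
`d ≥ a ≥ 1`, so the part of degree `d` of `U A + V B` is zero: `U_(d-a) A_a + V_(d-b) B_b = 0` (`homogeneousComponent` of a product at the sum of the degrees is the product of the top components). The forms
`A_a`, `B_b` are coprime (a common factor which is not a unit is, up to a constant, a product of forms or at least has a nontrivial zero: `fcp_coprime` below), so
`B_b ∣ U_(d-a)`, `U_(d-a) = B_b W` (`W` may be taken homogeneous of degree `d - a - b`: take the homogeneous component of `W`), `V_(d-b) = -A_a W`. Replace `U` by `U - W B`, `V` by `V + W A`: the identity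
`U A + V B = 1` stays and the degrees fall. (An infinite descent: induction on `d`.)
`fcp_coprime`: if `p` divides both forms and `p` is irreducible: `p` is homogeneous (a factor of a form is a form: Mathlib has `MvPolynomial.IsHomogeneous` lemmas for divisors, or argue with lowest and highest parts) of degree `≥ 1`, and a form
of positive degree in two variables over `ℂ` has a zero `≠ (0,0)`: `p(1,T)` has a zero or is constant, in which case `p = c x^e`, zero `(0,1)`. -/

namespace Pool.Agent.H12.ON

open MvPolynomial

/-- the grading map `P ↦ P(xT, yT)` -/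
private noncomputable def gr : MvPolynomial (Fin 2) ℂ →ₐ[ℂ] Polynomial (MvPolynomial (Fin 2) ℂ) :=
  aeval (fun i => Polynomial.C (X i) * Polynomial.X)

private theorem gr_mono (m : Fin 2 →₀ ℕ) (c : ℂ) :
    gr (monomial m c) = Polynomial.C (monomial m c) * Polynomial.X ^ m.degree := by
  unfold gr
  rw [aeval_monomial, monomial_eq, Finsupp.prod_fintype _ _ (by simp), Finsupp.prod_fintype _ _ (by simp),
    Fin.prod_univ_two, Fin.prod_univ_two, Finsupp.degree_eq_sum, Fin.sum_univ_two, mul_pow, mul_pow, pow_add,
    Polynomial.algebraMap_apply, MvPolynomial.algebraMap_eq, map_mul, map_mul, map_pow, map_pow]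
  ring

private theorem gr_coeff (P : MvPolynomial (Fin 2) ℂ) (e : ℕ) :
    (gr P).coeff e = homogeneousComponent e P := by
  induction P using MvPolynomial.induction_on' with
  | monomial m c =>
    rw [gr_mono, Polynomial.coeff_C_mul, Polynomial.coeff_X_pow]
    ext d
    rw [coeff_homogeneousComponent]
    by_cases h1 : e = m.degree
    · rw [if_pos h1, mul_one]
      by_cases h2 : d.degree = e
      · rw [if_pos h2]
      · rw [if_neg h2, coeff_monomial, if_neg]
        rintro rfl
        exact h2 h1.symm
    · rw [if_neg h1, mul_zero, coeff_zero]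
      by_cases h2 : d.degree = e
      · rw [if_pos h2, coeff_monomial, if_neg]
        rintro rfl
        exact h1 h2.symm
      · rw [if_neg h2]
  | add p q hp hq => rw [map_add, Polynomial.coeff_add, hp, hq, map_add]

private theorem gr_hom {P : MvPolynomial (Fin 2) ℂ} {k : ℕ} (hP : P.IsHomogeneous k) :
    gr P = Polynomial.C P * Polynomial.X ^ k := by
  ext1 e
  rw [gr_coeff, Polynomial.coeff_C_mul, Polynomial.coeff_X_pow,
    homogeneousComponent_of_mem ((mem_homogeneousSubmodule k P).2 hP)]
  by_cases h : e = k
  · rw [if_pos h, if_pos h, mul_one]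
  · rw [if_neg h, if_neg h, mul_zero]

private theorem gr_deg {P : MvPolynomial (Fin 2) ℂ} {k : ℕ} (hP : ∀ e, k < e → homogeneousComponent e P = 0) :
    (gr P).natDegree ≤ k := by
  rw [Polynomial.natDegree_le_iff_coeff_eq_zero]
  intro e he
  rw [gr_coeff]
  exact hP e he

private theorem gr_zero {P : MvPolynomial (Fin 2) ℂ} (hP : ∀ e, homogeneousComponent e P = 0) : P = 0 := by
  rw [← sum_homogeneousComponent P]
  exact Finset.sum_eq_zero fun e _ => hP e

private theorem hc_mul {w B : MvPolynomial (Fin 2) ℂ} {k : ℕ} (hw : w.IsHomogeneous k) (j : ℕ) :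
    homogeneousComponent (j + k) (w * B) = w * homogeneousComponent j B := by
  rw [← gr_coeff, map_mul, gr_hom hw, mul_right_comm, Polynomial.coeff_mul_X_pow, Polynomial.coeff_C_mul, gr_coeff]

/-- the top part of a product -/
theorem fcp_top {a b : ℕ} {A B : MvPolynomial (Fin 2) ℂ} (hA : A.totalDegree ≤ a) (hB : B.totalDegree ≤ b) :
    homogeneousComponent (a + b) (A * B) = homogeneousComponent a A * homogeneousComponent b B := by
  have h1 : (gr A).natDegree ≤ a := gr_deg fun e he => homogeneousComponent_eq_zero _ _ (by omega)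
  have h2 : (gr B).natDegree ≤ b := gr_deg fun e he => homogeneousComponent_eq_zero _ _ (by omega)
  have h3 := Polynomial.coeff_mul_add_eq_of_natDegree_le h1 h2
  rw [← map_mul, gr_coeff, gr_coeff, gr_coeff] at h3
  exact h3

private theorem low {a b d : ℕ} {U w B : MvPolynomial (Fin 2) ℂ} (hB : B.totalDegree ≤ b)
    (hU : ∀ e, d + 1 ≤ e + a → homogeneousComponent e U = 0)
    (hw : (a + b ≤ d ∧ w.IsHomogeneous (d - a - b)) ∨ w = 0)
    (hu : a ≤ d → homogeneousComponent (d - a) U = w * homogeneousComponent b B) :
    ∀ e, d ≤ e + a → homogeneousComponent e (U - w * B) = 0 := by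
  intro e he
  rcases Nat.lt_or_ge d (e + a) with h1 | h1
  · rw [map_sub, hU e h1, zero_sub, neg_eq_zero]
    rcases hw with ⟨h2, h3⟩ | rfl
    · have h4 : e = (e - (d - a - b)) + (d - a - b) := by omega
      rw [h4, hc_mul h3, homogeneousComponent_eq_zero, mul_zero]
      omega
    · rw [zero_mul, map_zero]
  · have h2 : e = d - a := by omega
    subst h2
    rw [map_sub, hu (by omega)]
    rcases hw with ⟨h2, h3⟩ | rfl
    · have h4 : d - a = b + (d - a - b) := by omega
      rw [h4, hc_mul h3, sub_self]
    · rw [zero_mul, zero_mul, map_zero, sub_zero]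

private theorem unit_of_zeros {p : MvPolynomial (Fin 2) ℂ}
    (hp : ∀ u v : ℂ, aeval ![u, v] p = 0 → u = 0 ∧ v = 0) : IsUnit p := by
  have key : ∀ i : Fin 2, ∃ r : ℕ, p ∣ (X i : MvPolynomial (Fin 2) ℂ) ^ r := by
    intro i
    have h1 : (X i : MvPolynomial (Fin 2) ℂ) ∈
        vanishingIdeal ℂ (zeroLocus ℂ (Ideal.span {p})) := by
      rw [mem_vanishingIdeal_iff]
      intro x hx
      rw [mem_zeroLocus_iff] at hx
      have h2 := hx p (Ideal.subset_span rfl)
      have h3 : x = ![x 0, x 1] := by
        ext j
        fin_cases j <;> rfl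
      rw [h3] at h2
      have h4 := hp _ _ h2
      rw [aeval_X]
      fin_cases i
      · exact h4.1
      · exact h4.2
    rw [vanishingIdeal_zeroLocus_eq_radical] at h1
    obtain ⟨r, hr⟩ := h1
    exact ⟨r, Ideal.mem_span_singleton.1 hr⟩
  obtain ⟨r, hr⟩ := key 0
  obtain ⟨s, hs⟩ := key 1
  obtain ⟨i, _, hi⟩ := (dvd_prime_pow (X_prime (R := ℂ) (σ := Fin 2) (i := 0)) r).1 hr
  rcases Nat.eq_zero_or_pos i with h0 | h0
  · rw [h0, pow_zero] at hi
    exact hi.isUnit_iff.2 isUnit_one
  · exfalso
    have h1 : (X 0 : MvPolynomial (Fin 2) ℂ) ∣ X 1 ^ s :=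
      (dvd_pow_self _ (by omega)).trans (hi.symm.dvd.trans hs)
    have h2 := (X_prime (R := ℂ) (σ := Fin 2) (i := 0)).dvd_of_dvd_pow h1
    rw [X_dvd_X] at h2
    exact absurd h2 (by decide)

private theorem not_unit_of_hom' {a : ℕ} (ha : 1 ≤ a) {P : MvPolynomial (Fin 2) ℂ}
    (hP : P.IsHomogeneous a) : ¬ IsUnit P := by
  intro hu
  have h1 : IsUnit (constantCoeff P) := hu.map (constantCoeff : MvPolynomial (Fin 2) ℂ →+* ℂ)
  have h2 : constantCoeff P = 0 := by
    rw [constantCoeff_eq]
    apply hP.coeff_eq_zero
    simp
    omega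
  rw [h2] at h1
  exact not_isUnit_zero h1

private theorem descent {a b : ℕ} (ha : 1 ≤ a) (hb : 1 ≤ b) {A B : MvPolynomial (Fin 2) ℂ}
    (hA : A.totalDegree ≤ a) (hB : B.totalDegree ≤ b)
    (hrel : IsRelPrime (homogeneousComponent a A) (homogeneousComponent b B))
    (hβ : homogeneousComponent b B ≠ 0) :
    ∀ (d : ℕ) (U V : MvPolynomial (Fin 2) ℂ), (∀ e, d ≤ e + a → homogeneousComponent e U = 0) →
      (∀ e, d ≤ e + b → homogeneousComponent e V = 0) → U * A + V * B ≠ 1 := by
  intro d
  induction d with
  | zero =>
    intro U V hU hV h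
    rw [gr_zero (fun e => hU e (Nat.zero_le _)), gr_zero (fun e => hV e (Nat.zero_le _))] at h
    simp at h
  | succ d ih =>
    intro U V hU hV h
    -- the coefficient of degree `d` of a product
    have hco : ∀ (c : ℕ) (W D : MvPolynomial (Fin 2) ℂ), D.totalDegree ≤ c →
        (∀ e, d + 1 ≤ e + c → homogeneousComponent e W = 0) →
        homogeneousComponent d (W * D) =
          (if c ≤ d then homogeneousComponent (d - c) W else 0) * homogeneousComponent c D := by
      intro c W D hD hW
      split_ifs with hc
      · have h1 : (gr W).natDegree ≤ d - c := gr_deg fun e he => hW e (by omega)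
        have h2 : (gr D).natDegree ≤ c := gr_deg fun e he => homogeneousComponent_eq_zero _ _ (by omega)
        have h3 := Polynomial.coeff_mul_add_eq_of_natDegree_le h1 h2
        rw [← map_mul, gr_coeff, gr_coeff, gr_coeff, show d - c + c = d by omega] at h3
        exact h3
      · rw [gr_zero (fun e => hW e (by omega)), zero_mul, map_zero, zero_mul]
    set u : MvPolynomial (Fin 2) ℂ := if a ≤ d then homogeneousComponent (d - a) U else 0 with hu
    set v : MvPolynomial (Fin 2) ℂ := if b ≤ d then homogeneousComponent (d - b) V else 0 with hv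
    have h0 : u * homogeneousComponent a A + v * homogeneousComponent b B = 0 := by
      have h1 : homogeneousComponent d (U * A + V * B) = homogeneousComponent d 1 := by rw [h]
      rw [map_add, hco a U A hA hU, hco b V B hB hV] at h1
      rcases Nat.eq_zero_or_pos d with hd | hd
      · rw [hu, hv, if_neg (by omega), if_neg (by omega), zero_mul, zero_mul, add_zero]
      · rw [hu, hv, h1]
        apply homogeneousComponent_eq_zero
        rw [totalDegree_one]
        exact hd
    have hdv : homogeneousComponent b B ∣ u := by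
      refine hrel.symm.dvd_of_dvd_mul_right (y := u) ⟨-v, ?_⟩
      linear_combination h0
    obtain ⟨w0, hw0⟩ := hdv
    set w : MvPolynomial (Fin 2) ℂ := if a + b ≤ d then homogeneousComponent (d - a - b) w0 else 0 with hw
    have hwh : (a + b ≤ d ∧ w.IsHomogeneous (d - a - b)) ∨ w = 0 := by
      by_cases h1 : a + b ≤ d
      · left
        refine ⟨h1, ?_⟩
        rw [hw, if_pos h1]
        exact homogeneousComponent_isHomogeneous _ _
      · right
        rw [hw, if_neg h1]
    have huw : u = w * homogeneousComponent b B := by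
      by_cases h1 : a ≤ d
      · have h2 : u = homogeneousComponent (d - a) U := by rw [hu, if_pos h1]
        have h3 : homogeneousComponent (d - a) u = u := by
          rw [h2]
          exact homogeneousComponent_eq_self (homogeneousComponent_isHomogeneous _ _)
        by_cases h4 : a + b ≤ d
        · have h5 : d - a = (d - a - b) + b := by omega
          rw [hw0, h5, hc_mul (homogeneousComponent_isHomogeneous b B)] at h3
          rw [hw, if_pos h4, hw0, mul_comm (homogeneousComponent (d - a - b) w0), h3]
        · have h5 : homogeneousComponent (d - a) (homogeneousComponent b B * w0) = 0 := by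
            rw [← gr_coeff, map_mul, gr_hom (homogeneousComponent_isHomogeneous b B), mul_right_comm,
              Polynomial.coeff_mul_X_pow', if_neg (by omega)]
          rw [hw0, h5] at h3
          rw [hw, if_neg h4, zero_mul, hw0, ← h3]
      · rw [hu, hw, if_neg h1, if_neg (by omega), zero_mul]
    have hvw : v = (-w) * homogeneousComponent a A := by
      have h1 : (v - (-w) * homogeneousComponent a A) * homogeneousComponent b B = 0 := by
        rw [huw] at h0
        linear_combination h0
      exact sub_eq_zero.1 ((mul_eq_zero.1 h1).resolve_right hβ)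
    refine ih (U - w * B) (V - (-w) * A) ?_ ?_ ?_
    · refine low hB hU hwh fun h1 => ?_
      rw [← huw, hu, if_pos h1]
    · refine low hA hV ?_ fun h1 => ?_
      · rcases hwh with ⟨h1, h2⟩ | h1
        · left
          refine ⟨by omega, ?_⟩
          rw [show d - b - a = d - a - b by omega]
          exact h2.neg
        · right
          rw [h1, neg_zero]
      · rw [← hvw, hv, if_pos h1]
    · linear_combination h

theorem fcp {a b : ℕ} (ha : 1 ≤ a) (hb : 1 ≤ b) {A B : MvPolynomial (Fin 2) ℂ} (hA : A.totalDegree ≤ a)
    (hB : B.totalDegree ≤ b) (h : ∀ u v : ℂ, aeval ![u, v] (homogeneousComponent a A) = 0 →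
      aeval ![u, v] (homogeneousComponent b B) = 0 → u = 0 ∧ v = 0) :
    ∃ u v : ℂ, aeval ![u, v] A = 0 ∧ aeval ![u, v] B = 0 := by
  by_contra hno
  have hrel : IsRelPrime (homogeneousComponent a A) (homogeneousComponent b B) := by
    intro p hp1 hp2
    refine unit_of_zeros fun u v huv => h u v ?_ ?_
    · obtain ⟨q, hq⟩ := hp1
      rw [hq, map_mul, huv, zero_mul]
    · obtain ⟨q, hq⟩ := hp2
      rw [hq, map_mul, huv, zero_mul]
  have hβ : homogeneousComponent b B ≠ 0 := by
    intro h0
    refine not_unit_of_hom' ha (homogeneousComponent_isHomogeneous a A) (unit_of_zeros fun u v huv => h u v huv ?_)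
    rw [h0, map_zero]
  have hZ : zeroLocus ℂ (Ideal.span ({A, B} : Set (MvPolynomial (Fin 2) ℂ))) = ∅ := by
    rw [Set.eq_empty_iff_forall_notMem]
    intro x hx
    rw [mem_zeroLocus_iff] at hx
    have h3 : x = ![x 0, x 1] := by
      ext j
      fin_cases j <;> rfl
    rw [h3] at hx
    exact hno ⟨x 0, x 1, hx A (Ideal.subset_span (by simp)), hx B (Ideal.subset_span (by simp))⟩
  have h1 : (1 : MvPolynomial (Fin 2) ℂ) ∈ Ideal.span ({A, B} : Set (MvPolynomial (Fin 2) ℂ)) := by
    have h2 := vanishingIdeal_zeroLocus_eq_radical (K := ℂ) (Ideal.span ({A, B} : Set (MvPolynomial (Fin 2) ℂ)))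
    rw [hZ, vanishingIdeal_empty] at h2
    rw [← Ideal.eq_top_iff_one]
    exact Ideal.radical_eq_top.1 h2.symm
  obtain ⟨U, V, hUV⟩ := Ideal.mem_span_pair.1 h1
  exact descent ha hb hA hB hrel hβ (U.totalDegree + V.totalDegree + a + b + 1) U V
    (fun e he => homogeneousComponent_eq_zero _ _ (by omega))
    (fun e he => homogeneousComponent_eq_zero _ _ (by omega)) hUV

end Pool.Agent.H12.ON
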