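import Pool.Agent.H12.ON.Deg

/-! # [H12 ON LI] The monomials `x^i y^j`, `j < n`, are independent over `k`

`q = ∑_{u ∈ box} a_u X^(u.1) Y^(u.2)` (monomials of `MvPolynomial (Fin 2) k`): if some `a_u ≠ 0` then `q ≠ 0` and all monomials of its support
have `m 1 < n`. Let `Ω' = AlgebraicClosure Ω`, `x` is transcendental over `k` also in `Ω'`, `V` a valuation ring of `Ω'` over `k` without `x`
(`exists_inf`). `top_unit` (for the images of `x, y` in `Ω'`): `q(x,y) ≠ 0` in `Ω'`, so in `Ω`. `gen_zero`: the same for a polynomial of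
any shape: `q(x,y) = 0` implies `F ∣ q` (`red`: `q = g F + r`, `r(x,y) = 0`, so `r = 0` by the first part). -/

namespace Pool.Agent.H12.ON

open MvPolynomial Finset

private theorem li_ne {k Ω : Type} [Field k] [Field Ω] [Algebra k Ω] {n : ℕ} {F : MvPolynomial (Fin 2) k}
    (hF : Tp k n F) {x y : Ω} (h0 : aeval ![x, y] F = 0) (hx : Transcendental k x)
    {q : MvPolynomial (Fin 2) k} (hq : q ≠ 0) (hqn : ∀ m ∈ q.support, m 1 < n) :
    aeval ![x, y] q ≠ 0 := by
  have hv : (![algebraMap Ω (AlgebraicClosure Ω) x, algebraMap Ω (AlgebraicClosure Ω) y] :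
      Fin 2 → AlgebraicClosure Ω) = fun i => algebraMap Ω (AlgebraicClosure Ω) (![x, y] i) := by
    funext i
    fin_cases i <;> rfl
  have he : ∀ p : MvPolynomial (Fin 2) k,
      aeval ![algebraMap Ω (AlgebraicClosure Ω) x, algebraMap Ω (AlgebraicClosure Ω) y] p =
        algebraMap Ω (AlgebraicClosure Ω) (aeval ![x, y] p) := by
    intro p
    rw [hv]
    exact MvPolynomial.aeval_algebraMap_apply _ _ _
  have hx' : Transcendental k (algebraMap Ω (AlgebraicClosure Ω) x) :=
    (transcendental_algebraMap_iff (algebraMap Ω (AlgebraicClosure Ω)).injective).2 hx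
  obtain ⟨V, hV, hxV⟩ := exists_inf hx'
  have h1 := (top_unit hF hV (by rw [he, h0, map_zero]) hxV hq hqn).1
  intro h2
  apply h1
  rw [he, h2, map_zero]

private noncomputable def li_e (u : ℕ × ℕ) : Fin 2 →₀ ℕ := Finsupp.single 0 u.1 + Finsupp.single 1 u.2

private theorem li_e0 (u : ℕ × ℕ) : li_e u 0 = u.1 := by
  simp [li_e]

private theorem li_e1 (u : ℕ × ℕ) : li_e u 1 = u.2 := by
  simp [li_e]

private theorem li_inj {u v : ℕ × ℕ} (h : li_e u = li_e v) : u = v := by
  ext
  · rw [← li_e0, h, li_e0]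
  · rw [← li_e1, h, li_e1]

theorem mon_li {k Ω : Type} [Field k] [Field Ω] [Algebra k Ω] {n : ℕ} {F : MvPolynomial (Fin 2) k}
    (hF : Tp k n F) {x y : Ω} (h0 : aeval ![x, y] F = 0) (hx : Transcendental k x) {K : ℕ} {a : ℕ × ℕ → k}
    (h : ∑ u ∈ box n K, algebraMap k Ω (a u) * mon (x, y) u = 0) : ∀ u ∈ box n K, a u = 0 := by
  classical
  intro v hv
  by_contra hav
  obtain ⟨q, hq⟩ : ∃ q : MvPolynomial (Fin 2) k, q = ∑ u ∈ box n K, monomial (li_e u) (a u) := ⟨_, rfl⟩
  have hco : ∀ m, coeff m q = ∑ u ∈ box n K, if li_e u = m then a u else 0 := by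
    intro m
    rw [hq, MvPolynomial.coeff_sum]
    exact Finset.sum_congr rfl fun u _ => MvPolynomial.coeff_monomial _ _ _
  have hcv : coeff (li_e v) q = a v := by
    rw [hco, Finset.sum_eq_single v]
    · rw [if_pos rfl]
    · intro u _ huv
      rw [if_neg]
      exact fun h1 => huv (li_inj h1)
    · intro h1
      exact absurd hv h1
  have hq0 : q ≠ 0 := by
    intro h1
    rw [h1, MvPolynomial.coeff_zero] at hcv
    exact hav hcv.symm
  refine li_ne hF h0 hx hq0 ?_ ?_
  · intro m hm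
    rw [MvPolynomial.mem_support_iff, hco] at hm
    obtain ⟨u, hu, hne⟩ := Finset.exists_ne_zero_of_sum_ne_zero hm
    have h1 : li_e u = m := by
      by_contra h1
      exact hne (if_neg h1)
    rw [← h1, li_e1]
    have h2 := (Finset.mem_filter.1 hu).1
    exact Finset.mem_range.1 (Finset.mem_product.1 h2).2
  · rw [hq, map_sum, ← h]
    refine Finset.sum_congr rfl fun u _ => ?_
    rw [aeval_monomial]
    congr 1
    rw [Finsupp.prod_fintype _ _ (fun i => pow_zero _), Fin.prod_univ_two, li_e0, li_e1]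
    rfl

theorem gen_zero {k Ω : Type} [Field k] [Field Ω] [Algebra k Ω] {n : ℕ} {F : MvPolynomial (Fin 2) k}
    (hF : Tp k n F) {x y : Ω} (h0 : aeval ![x, y] F = 0) (hx : Transcendental k x)
    {q : MvPolynomial (Fin 2) k} (hq : aeval ![x, y] q = 0) : F ∣ q := by
  obtain ⟨g, r, hqr, _, hr⟩ := red hF q
  have h1 : aeval ![x, y] r = 0 := by
    rw [hqr, map_add, map_mul, h0, mul_zero, zero_add] at hq
    exact hq
  have h2 : r = 0 := by
    by_contra h3
    exact li_ne hF h0 hx h3 hr h1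
  rw [hqr, h2, add_zero]
  exact Dvd.intro_left g rfl

end Pool.Agent.H12.ON
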