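import Pool.Agent.H12.ON.Szero
import Pool.Agent.H12.ON.Li
import Pool.Agent.H12.ON.Cop

/-! # [H12 ON FIN] The class of a generic point is finite

`s`, `K` from `exists_s0`. Put `G = ∑_{v ∈ box} (∑_{u ∈ box} s u v * mon P u) X^(v.1) Y^(v.2) ∈ Ω[X,Y]`; all `Q ∈ cls k F P` are zeros of `G`
(`ev2 = aeval ![Q.1,Q.2] G`). `G ≠ 0`: for `u, v` with `s u v ≠ 0` the coefficient of `X^(v.1) Y^(v.2)` is not zero by `mon_li`. The `Y`-degree of `G`
is `< n`, the one of `F_Ω = map F` is `n` (the coefficient of `Y^n` is not zero), so `F_Ω ∤ G` (degree in the variable `1` is additive: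
`MvPolynomial.degreeOf_mul_eq` or in `Ω[X][Y]`). `F_Ω` is irreducible: `fin_common`. -/

namespace Pool.Agent.H12.ON

open MvPolynomial Finset

/-- exponents -/
private noncomputable def ex (v : ℕ × ℕ) : Fin 2 →₀ ℕ := Finsupp.single 0 v.1 + Finsupp.single 1 v.2

private theorem ex_zero (v : ℕ × ℕ) : ex v 0 = v.1 := by
  unfold ex
  rw [Finsupp.add_apply, Finsupp.single_eq_same, Finsupp.single_eq_of_ne (by decide), add_zero]

private theorem ex_one (v : ℕ × ℕ) : ex v 1 = v.2 := by
  unfold ex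
  rw [Finsupp.add_apply, Finsupp.single_eq_same, Finsupp.single_eq_of_ne (by decide), zero_add]

private theorem ex_inj {v w : ℕ × ℕ} (h : ex v = ex w) : v = w := by
  refine Prod.ext ?_ ?_
  · rw [← ex_zero v, h, ex_zero]
  · rw [← ex_one v, h, ex_one]

private theorem aeval_ex {Ω : Type} [Field Ω] (c : Ω) (v : ℕ × ℕ) (Q : Ω × Ω) :
    aeval ![Q.1, Q.2] (monomial (ex v) c) = c * mon Q v := by
  have h1 : ∀ (i : Fin 2) (a : ℕ), ((Finsupp.single i a).prod fun x j => (![Q.1, Q.2] : Fin 2 → Ω) x ^ j) =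
      (![Q.1, Q.2] : Fin 2 → Ω) i ^ a := fun i a => Finsupp.prod_single_index (pow_zero _)
  have h2 : ((ex v).prod fun x j => (![Q.1, Q.2] : Fin 2 → Ω) x ^ j) = mon Q v := by
    unfold ex
    rw [Finsupp.prod_add_index' (fun _ => pow_zero _) (fun _ _ _ => pow_add _ _ _), h1, h1]
    rfl
  rw [aeval_monomial]
  exact congrArg (c * ·) h2

theorem cls_finite {k Ω : Type} [Field k] [CharZero k] [Field Ω] [IsAlgClosed Ω] [Algebra k Ω] {n : ℕ}
    {F : MvPolynomial (Fin 2) k} (hF : Cv k Ω n F) {P : Ω × Ω} (h0 : aeval ![P.1, P.2] F = 0)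
    (hP : Transcendental k P.1) : (cls k F P).Finite := by
  classical
  obtain ⟨K, s, ⟨u₀, hu₀, v₀, hv₀, hs⟩, hz⟩ := exists_s0 (Ω := Ω) hF.toTp
  obtain ⟨c, hc⟩ : ∃ c : ℕ × ℕ → Ω, ∀ v, c v = ∑ u ∈ box n K, algebraMap k Ω (s u v) * mon P u :=
    ⟨_, fun _ => rfl⟩
  obtain ⟨G, hG⟩ : ∃ G : MvPolynomial (Fin 2) Ω, G = ∑ v ∈ box n K, monomial (ex v) (c v) := ⟨_, rfl⟩
  -- the values of `G`
  have hGv : ∀ Q : Ω × Ω, aeval ![Q.1, Q.2] G = ev2 k (box n K) (box n K) s P Q := by
    intro Q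
    rw [hG, map_sum]
    unfold ev2
    rw [sum_comm]
    refine sum_congr rfl fun v _ => ?_
    rw [aeval_ex, hc, sum_mul]
  -- the coefficients of `G`
  have hGc : ∀ m, coeff m G = ∑ v ∈ box n K, if ex v = m then c v else 0 := by
    intro m
    rw [hG, coeff_sum]
    exact sum_congr rfl fun v _ => coeff_monomial _ _ _
  have hc0 : c v₀ ≠ 0 := by
    intro h1
    rw [hc] at h1
    have h2 := mon_li hF.toTp (x := P.1) (y := P.2) h0 hP (K := K) (a := fun u => s u v₀) h1 u₀ hu₀
    exact hs h2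
  have hG0 : G ≠ 0 := by
    intro h1
    have h2 := hGc (ex v₀)
    rw [h1, coeff_zero, sum_eq_single v₀ (fun v _ hv => if_neg fun h3 => hv (ex_inj h3))
      (fun h3 => absurd hv₀ h3), if_pos rfl] at h2
    exact hc0 h2.symm
  have hn : 0 < n := by
    have := hF.toTp.n3
    omega
  have hGd : degreeOf 1 G < n := by
    rw [degreeOf_lt_iff hn]
    intro m hm
    rw [mem_support_iff, hGc] at hm
    obtain ⟨v, hv, h1⟩ := exists_ne_zero_of_sum_ne_zero hm
    have h2 : ex v = m := by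
      by_contra h3
      exact h1 (if_neg h3)
    rw [← h2, ex_one]
    have h3 := (mem_filter.1 hv).1
    exact mem_range.1 (mem_product.1 h3).2
  -- the degree of `F`
  have hFd : n ≤ degreeOf 1 (map (algebraMap k Ω) F) := by
    have h1 : (ftop n F).coeff n ≠ 0 := by
      have h2 : ftop n F ≠ 0 := by
        intro h3
        have h4 := hF.toTp.top
        rw [h3, Polynomial.natDegree_zero] at h4
        omega
      have h3 := Polynomial.leadingCoeff_ne_zero.2 h2
      unfold Polynomial.leadingCoeff at h3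
      rw [hF.toTp.top] at h3
      exact h3
    have h2 : (ftop n F).coeff n = F.coeff (ex (0, n)) := by
      unfold ftop
      rw [Polynomial.finsetSum_coeff, sum_eq_single n]
      · rw [Polynomial.coeff_monomial, if_pos rfl, Nat.sub_self]
        rfl
      · intro j _ hj
        rw [Polynomial.coeff_monomial, if_neg hj]
      · intro h3
        exact absurd (mem_range.2 (Nat.lt_succ_self n)) h3
    rw [h2] at h1
    have h3 : ex (0, n) ∈ (map (algebraMap k Ω) F).support := by
      rw [mem_support_iff, coeff_map]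
      intro h4
      exact h1 ((map_eq_zero _).1 h4)
    have h4 := monomial_le_degreeOf 1 h3
    rw [ex_one] at h4
    exact h4
  have hnd : ¬ map (algebraMap k Ω) F ∣ G := by
    rintro ⟨H, hH⟩
    have hF0 : map (algebraMap k Ω) F ≠ 0 := hF.absi.ne_zero
    have hH0 : H ≠ 0 := by
      rintro rfl
      exact hG0 (by rw [hH, mul_zero])
    have h1 := degreeOf_mul_eq (n := (1 : Fin 2)) hF0 hH0
    rw [← hH] at h1
    omega
  refine (fin_common hF.absi hnd).subset ?_
  rintro Q ⟨h1, h2⟩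
  refine ⟨?_, ?_⟩
  · rw [aeval_map_algebraMap]
    exact h1
  · rw [hGv]
    exact hz P Q h0 h1 hP h2

end Pool.Agent.H12.ON
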