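import Pool.Agent.H12.ON.Def
import Pool.Agent.H12.ON.Sep

/-! # [H12 ON FSE] Separation of the real zeros of an irreducible integer polynomial

* `root_le`: leading coefficient `c`, `|c| ≥ 1`; if `|θ| ≥ 1` then `|θ|^n ≤ |c| |θ|^n = |∑_(i<n) c_i θ^i| ≤ n H |θ|^(n-1)`.
* `deriv_low`: `sep_der_low` of `Sep.lean`.
* `root_sep_real`: `root_sep` of `Sep.lean` for real zeros. -/

namespace Pool.Agent.H12.ON

theorem root_le {n H : ℕ} (hH : 1 ≤ H) {g : Polynomial ℤ} (hd : g.natDegree = n) (hn : 1 ≤ n)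
    (hc : ∀ i, |g.coeff i| ≤ (H : ℤ)) {θ : ℂ} (hθ : Polynomial.aeval θ g = 0) : ‖θ‖ ≤ n * H := by
  have hH1 : (1 : ℝ) ≤ H := by exact_mod_cast hH
  have hn1 : (1 : ℝ) ≤ n := by exact_mod_cast hn
  by_cases h1 : ‖θ‖ ≤ 1
  · exact h1.trans (by nlinarith)
  · push Not at h1
    have hg0 : g ≠ 0 := by
      rintro rfl
      simp at hd
      omega
    have hsum : (g.coeff n : ℂ) * θ ^ n = - ∑ i ∈ Finset.range n, (g.coeff i : ℂ) * θ ^ i := by
      rw [Polynomial.aeval_eq_sum_range, hd, Finset.sum_range_succ] at hθ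
      have h2 : ∀ i ∈ Finset.range n, g.coeff i • θ ^ i = (g.coeff i : ℂ) * θ ^ i := by
        intro i _; simp
      rw [Finset.sum_congr rfl h2] at hθ
      have h3 : g.coeff n • θ ^ n = (g.coeff n : ℂ) * θ ^ n := by simp
      rw [h3] at hθ
      linear_combination hθ
    have hlc : (1 : ℝ) ≤ ‖(g.coeff n : ℂ)‖ := by
      rw [Complex.norm_intCast]
      have h4 : g.coeff n ≠ 0 := by
        rw [← hd]; exact Polynomial.leadingCoeff_ne_zero.2 hg0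
      have : (1 : ℤ) ≤ |g.coeff n| := Int.one_le_abs h4
      exact_mod_cast this
    have hb : ‖∑ i ∈ Finset.range n, (g.coeff i : ℂ) * θ ^ i‖ ≤ n * (H * ‖θ‖ ^ (n - 1)) := by
      refine (norm_sum_le _ _).trans ?_
      have : ∀ i ∈ Finset.range n, ‖(g.coeff i : ℂ) * θ ^ i‖ ≤ H * ‖θ‖ ^ (n - 1) := by
        intro i hi
        rw [Finset.mem_range] at hi
        rw [norm_mul, norm_pow, Complex.norm_intCast]
        have h5 : |(g.coeff i : ℝ)| ≤ H := by exact_mod_cast hc i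
        have h6 : ‖θ‖ ^ i ≤ ‖θ‖ ^ (n - 1) := pow_le_pow_right₀ h1.le (by omega)
        gcongr
      refine (Finset.sum_le_sum this).trans ?_
      rw [Finset.sum_const, Finset.card_range, nsmul_eq_mul]
    have hpos : 0 < ‖θ‖ ^ (n - 1) := by positivity
    have hk : ‖θ‖ * ‖θ‖ ^ (n - 1) ≤ (n * H) * ‖θ‖ ^ (n - 1) := by
      calc ‖θ‖ * ‖θ‖ ^ (n - 1) = 1 * ‖θ‖ ^ n := by
            rw [← pow_succ', one_mul]; congr 1; omega
        _ ≤ ‖(g.coeff n : ℂ)‖ * ‖θ‖ ^ n := by gcongr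
        _ = ‖(g.coeff n : ℂ) * θ ^ n‖ := by rw [norm_mul, norm_pow]
        _ ≤ n * (H * ‖θ‖ ^ (n - 1)) := by rw [hsum, norm_neg]; exact hb
        _ = (n * H) * ‖θ‖ ^ (n - 1) := by ring
    exact le_of_mul_le_mul_right hk hpos

theorem deriv_low (n : ℕ) : ∃ C : ℕ, ∀ (g : Polynomial ℤ) (H : ℕ),
    Irreducible (g.map (Int.castRingHom ℚ)) → g.natDegree = n → 2 ≤ H → (∀ i, |g.coeff i| ≤ (H : ℤ)) →
    ∀ θ : ℂ, Polynomial.aeval θ g = 0 →
      1 ≤ (H : ℝ) ^ C * ‖Polynomial.aeval θ (Polynomial.derivative g)‖ := by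
  obtain ⟨C, hC⟩ := sep_der_low n
  exact ⟨C, fun g H hirr hd hH hc θ hθ => hC g H hd hH hirr hc θ hθ⟩

/-- for complex zeros: `root_sep` of `Sep.lean` -/
theorem root_sep_real (n : ℕ) : ∃ C : ℕ, ∀ (g : Polynomial ℤ) (H : ℕ),
    Irreducible (g.map (Int.castRingHom ℚ)) → g.natDegree = n → 2 ≤ H → (∀ i, |g.coeff i| ≤ (H : ℤ)) →
    ∀ θ θ' : ℝ, Polynomial.aeval θ g = 0 → Polynomial.aeval θ' g = 0 → θ ≠ θ' →
      1 ≤ (H : ℝ) ^ C * |θ - θ'| := by
  obtain ⟨C, hC⟩ := root_sep n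
  refine ⟨C, fun g H hirr hd hH hc θ θ' hθ hθ' hne => ?_⟩
  have h1 : ∀ t : ℝ, Polynomial.aeval t g = 0 → Polynomial.aeval (t : ℂ) g = 0 := by
    intro t ht
    have := Polynomial.aeval_algebraMap_apply ℂ t g
    rw [ht, map_zero] at this
    exact this
  have h2 := hC g H hd hH hirr hc θ θ' (h1 θ hθ) (h1 θ' hθ') (by exact_mod_cast hne)
  have h3 : ‖(θ : ℂ) - (θ' : ℂ)‖ = |θ - θ'| := by
    rw [← Complex.ofReal_sub, Complex.norm_real, Real.norm_eq_abs]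
  rw [h3, mul_comm] at h2
  exact h2

end Pool.Agent.H12.ON
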