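import Pool.Agent.H12.ON.Def

/-! # [H12 ON FSH] The two top parts of `F(w + z X)`

`F` of degree `≤ m + 1` over a commutative ring: the part of degree `m + 1` of `F(w + z X)` is `z^(m+1) f`, the part of degree `m` is
`z^m (g + w · grad f)`, `f`, `g` the parts of degree `m + 1`, `m` of `F`. Both sides are additive in `F`, so by induction on `F` as a sum of monomials it is enough to
take `F = c x^a y^b`, `a + b ≤ m + 1` (the monomials of the support of `F`; write `F` as the sum of its monomials and use `homogeneousComponent` as a linear map).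
`(w_0 + z x)^a (w_1 + z y)^b`: its part of degree `a + b` is `z^(a+b) x^a y^b`, its part of degree `a + b - 1` is
`z^(a+b-1) (a w_0 x^(a-1) y^b + b w_1 x^a y^(b-1))` (induction on `a`, `b`), all other parts have degree `< a + b - 1`. A convenient way: for every `p` say that
`(p, q, u)` is a `d`-jet of `P` if `P - q - u` has total degree `< d - 1`, `q` homogeneous of degree `d`, `u` homogeneous of degree `d - 1`; jets multiply. -/

namespace Pool.Agent.H12.ON

open MvPolynomial

private theorem deg_sub {d : Fin 2 →₀ ℕ} {i : Fin 2} (hi : i ∈ d.support) :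
    (d - Finsupp.single i 1).degree + 1 = d.degree := by
  have h1 : Finsupp.single i 1 ≤ d := by
    rw [Finsupp.single_le_iff]
    exact Nat.one_le_iff_ne_zero.2 (Finsupp.mem_support_iff.1 hi)
  have h2 : d - Finsupp.single i 1 + Finsupp.single i 1 = d := tsub_add_cancel_of_le h1
  have h3 : (d - Finsupp.single i 1 + Finsupp.single i 1).degree =
      (d - Finsupp.single i 1).degree + 1 := by
    rw [map_add, Finsupp.degree_single]
  rw [← h3, h2]

private theorem hc_succ_mul_X {R : Type} [CommRing R] (n : ℕ) (P : MvPolynomial (Fin 2) R) (i : Fin 2) :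
    homogeneousComponent (n + 1) (P * X i) = homogeneousComponent n P * X i := by
  ext d
  rw [coeff_homogeneousComponent, coeff_mul_X', coeff_mul_X']
  by_cases hi : i ∈ d.support
  · rw [if_pos hi, if_pos hi, coeff_homogeneousComponent]
    have h := deg_sub hi
    by_cases hd : d.degree = n + 1
    · rw [if_pos hd, if_pos (by omega)]
    · rw [if_neg hd, if_neg (by omega)]
  · rw [if_neg hi, if_neg hi, ite_self]

private theorem hc_zero_mul_X {R : Type} [CommRing R] (P : MvPolynomial (Fin 2) R) (i : Fin 2) :
    homogeneousComponent 0 (P * X i) = 0 := by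
  ext d
  rw [coeff_homogeneousComponent, coeff_mul_X', coeff_zero]
  by_cases hi : i ∈ d.support
  · have h := deg_sub hi
    rw [if_neg (by omega)]
  · rw [if_neg hi, ite_self]

private noncomputable def L {R : Type} [CommRing R] (w : Fin 2 → R) (z : R) (i : Fin 2) : MvPolynomial (Fin 2) R :=
  C (w i) + C z * X i

private theorem hc_succ_L {R : Type} [CommRing R] (w : Fin 2 → R) (z : R) (n : ℕ)
    (P : MvPolynomial (Fin 2) R) (i : Fin 2) :
    homogeneousComponent (n + 1) (P * L w z i) =
      C (w i) * homogeneousComponent (n + 1) P + C z * (homogeneousComponent n P * X i) := by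
  have h : P * L w z i = C (w i) * P + C z * (P * X i) := by
    unfold L
    ring
  rw [h, map_add, homogeneousComponent_C_mul, homogeneousComponent_C_mul, hc_succ_mul_X]

private theorem hc_zero_L {R : Type} [CommRing R] (w : Fin 2 → R) (z : R)
    (P : MvPolynomial (Fin 2) R) (i : Fin 2) :
    homogeneousComponent 0 (P * L w z i) = C (w i) * homogeneousComponent 0 P := by
  have h : P * L w z i = C (w i) * P + C z * (P * X i) := by
    unfold L
    ring
  rw [h, map_add, homogeneousComponent_C_mul, homogeneousComponent_C_mul, hc_zero_mul_X, mul_zero,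
    add_zero]

private structure Jet {R : Type} [CommRing R] (w : Fin 2 → R) (z : R) (e : ℕ)
    (P : MvPolynomial (Fin 2) R) : Prop where
  hom : P.IsHomogeneous e
  hi : ∀ n, e < n → homogeneousComponent n (aeval (L w z) P) = 0
  top : homogeneousComponent e (aeval (L w z) P) = C (z ^ e) * P
  sub : ∀ k, e = k + 1 → homogeneousComponent k (aeval (L w z) P) =
    C (z ^ k) * ∑ j, C (w j) * pderiv j P

private theorem jet_C {R : Type} [CommRing R] (w : Fin 2 → R) (z : R) (c : R) : Jet w z 0 (C c) := by
  refine ⟨isHomogeneous_C _ _, fun n hn => ?_, ?_, fun k hk => by omega⟩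
  · rw [aeval_C]
    exact (homogeneousComponent_of_mem (isHomogeneous_C (Fin 2) c)).trans (if_neg (by omega))
  · rw [aeval_C, pow_zero, C_1, one_mul]
    exact (homogeneousComponent_of_mem (isHomogeneous_C (Fin 2) c)).trans (if_pos rfl)

private theorem jet_X {R : Type} [CommRing R] {w : Fin 2 → R} {z : R} {e : ℕ}
    {P : MvPolynomial (Fin 2) R} (h : Jet w z e P) (i : Fin 2) : Jet w z (e + 1) (P * X i) := by
  have hm : aeval (L w z) (P * X i) = aeval (L w z) P * L w z i := by
    rw [map_mul, aeval_X]
  refine ⟨h.hom.mul (isHomogeneous_X R i), fun n hn => ?_, ?_, fun k hk => ?_⟩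
  · obtain ⟨n, rfl⟩ : ∃ n', n = n' + 1 := ⟨n - 1, by omega⟩
    rw [hm, hc_succ_L, h.hi _ (by omega), h.hi _ (by omega)]
    simp
  · rw [hm, hc_succ_L, h.hi _ (by omega), h.top, pow_succ, C_mul]
    ring
  · obtain rfl : e = k := by omega
    have hd : ∑ j, C (w j) * pderiv j (P * X i) = (∑ j, C (w j) * pderiv j P) * X i + C (w i) * P := by
      have h1 : ∀ j, C (w j) * pderiv j (P * X i) =
          C (w j) * pderiv j P * X i + (if i = j then C (w j) * P else 0) := by
        intro j
        rw [Derivation.leibniz, pderiv_X, smul_eq_mul, smul_eq_mul]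
        by_cases hij : i = j
        · subst hij
          rw [if_pos rfl, Pi.single_eq_same]
          ring
        · rw [if_neg hij, Pi.single_eq_of_ne hij]
          ring
      rw [Finset.sum_congr rfl fun j _ => h1 j, Finset.sum_add_distrib, Finset.sum_ite_eq,
        if_pos (Finset.mem_univ _), Finset.sum_mul]
    rcases Nat.eq_zero_or_pos e with rfl | he
    · obtain ⟨c, hc⟩ : ∃ c, P = C c := ⟨coeff 0 P, by
        have h2 := h.hom.totalDegree_le
        exact totalDegree_eq_zero_iff_eq_C.1 (Nat.le_zero.1 h2)⟩
      rw [hm, hc_zero_L, h.top, hd]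
      have h3 : ∀ j, pderiv j P = 0 := fun j => by rw [hc, pderiv_C]
      simp only [h3, mul_zero, Finset.sum_const_zero, zero_mul, zero_add, pow_zero, C_1, one_mul]
    · obtain ⟨k, rfl⟩ : ∃ k, e = k + 1 := ⟨e - 1, by omega⟩
      rw [hm, hc_succ_L, h.top, h.sub k rfl, hd, pow_succ, C_mul]
      ring

private theorem jet_mon {R : Type} [CommRing R] (w : Fin 2 → R) (z : R) (c : R) (d : Fin 2 →₀ ℕ) :
    Jet w z d.degree (monomial d c) := by
  have h1 : ∀ a b : ℕ, Jet w z (a + b) (C c * X 0 ^ a * X 1 ^ b) := by
    intro a b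
    induction b with
    | zero =>
      rw [pow_zero, mul_one, add_zero]
      induction a with
      | zero =>
        rw [pow_zero, mul_one]
        exact jet_C w z c
      | succ a ih =>
        rw [pow_succ, ← mul_assoc]
        exact jet_X ih 0
    | succ b ih =>
      rw [pow_succ, ← mul_assoc, ← add_assoc]
      exact jet_X ih 1
  have h2 : monomial d c = C c * X 0 ^ d 0 * X 1 ^ d 1 := by
    rw [monomial_eq, Finsupp.prod_fintype _ _ (fun i => pow_zero _), Fin.prod_univ_two, mul_assoc]
  have h3 : d.degree = d 0 + d 1 := by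
    rw [Finsupp.degree_eq_sum, Fin.sum_univ_two]
  rw [h2, h3]
  exact h1 _ _

private theorem deg_le {R : Type} [CommRing R] {n : ℕ} {F : MvPolynomial (Fin 2) R}
    (hF : F.totalDegree ≤ n) {d : Fin 2 →₀ ℕ} (hd : d ∈ F.support) : d.degree ≤ n := by
  have h := (le_totalDegree hd).trans hF
  rwa [Finsupp.degree_eq_sum, ← Finsupp.sum_fintype d (fun _ a => a) (fun _ => rfl)]

theorem shift_top {R : Type} [CommRing R] {m : ℕ} {F : MvPolynomial (Fin 2) R} (hF : F.totalDegree ≤ m + 1)
    (w : Fin 2 → R) (z : R) :
    homogeneousComponent (m + 1) (aeval (fun i => C (w i) + C z * X i : Fin 2 → MvPolynomial (Fin 2) R) F) =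
      C (z ^ (m + 1)) * homogeneousComponent (m + 1) F := by
  change homogeneousComponent (m + 1) (aeval (L w z) F) = _
  conv_lhs => rw [F.as_sum]
  conv_rhs => rw [F.as_sum]
  rw [map_sum, map_sum, map_sum, Finset.mul_sum]
  refine Finset.sum_congr rfl fun d hd => ?_
  have h1 := jet_mon w z (coeff d F) d
  have h2 := deg_le hF hd
  rcases h2.lt_or_eq with h3 | h3
  · rw [h1.hi _ h3, homogeneousComponent_of_mem h1.hom, if_neg (by omega), mul_zero]
  · rw [← h3, h1.top, homogeneousComponent_of_mem h1.hom, if_pos rfl]

theorem shift_comp {R : Type} [CommRing R] {m : ℕ} {F : MvPolynomial (Fin 2) R} (hF : F.totalDegree ≤ m + 1)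
    (w : Fin 2 → R) (z : R) :
    homogeneousComponent m (aeval (fun i => C (w i) + C z * X i : Fin 2 → MvPolynomial (Fin 2) R) F) =
      C (z ^ m) * (homogeneousComponent m F + ∑ i, C (w i) * pderiv i (homogeneousComponent (m + 1) F)) := by
  change homogeneousComponent m (aeval (L w z) F) = _
  have key : ∀ d ∈ F.support, homogeneousComponent m (aeval (L w z) (monomial d (coeff d F))) =
      C (z ^ m) * (homogeneousComponent m (monomial d (coeff d F)) +
        ∑ i, C (w i) * pderiv i (homogeneousComponent (m + 1) (monomial d (coeff d F)))) := by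
    intro d hd
    have h1 := jet_mon w z (coeff d F) d
    have h2 := deg_le hF hd
    rw [homogeneousComponent_of_mem h1.hom, homogeneousComponent_of_mem h1.hom]
    rcases h2.lt_or_eq with h3 | h3
    · have h4 : ¬ (m + 1 = d.degree) := by omega
      rw [if_neg h4]
      have h5 : ∑ i, C (w i) * pderiv i (0 : MvPolynomial (Fin 2) R) = 0 := by
        simp
      rw [h5, add_zero]
      rcases (Nat.lt_succ_iff.1 h3).lt_or_eq with h6 | h6
      · rw [h1.hi _ h6, if_neg (by omega), mul_zero]
      · rw [if_pos h6.symm, ← h6, h1.top]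
    · rw [if_neg (by omega), if_pos h3.symm, zero_add]
      exact h1.sub m h3
  calc homogeneousComponent m (aeval (L w z) F)
      = homogeneousComponent m (aeval (L w z) (∑ d ∈ F.support, monomial d (coeff d F))) := by
        rw [← F.as_sum]
    _ = ∑ d ∈ F.support, homogeneousComponent m (aeval (L w z) (monomial d (coeff d F))) := by
        rw [map_sum, map_sum]
    _ = ∑ d ∈ F.support, C (z ^ m) * (homogeneousComponent m (monomial d (coeff d F)) +
        ∑ i, C (w i) * pderiv i (homogeneousComponent (m + 1) (monomial d (coeff d F)))) :=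
        Finset.sum_congr rfl key
    _ = C (z ^ m) * (homogeneousComponent m (∑ d ∈ F.support, monomial d (coeff d F)) +
        ∑ i, C (w i) * pderiv i (homogeneousComponent (m + 1) (∑ d ∈ F.support, monomial d (coeff d F)))) := by
        rw [← Finset.mul_sum, Finset.sum_add_distrib, map_sum, Finset.sum_comm]
        congr 2
        refine Finset.sum_congr rfl fun i _ => ?_
        rw [map_sum, map_sum, Finset.mul_sum]
    _ = _ := by rw [← F.as_sum]

end Pool.Agent.H12.ON
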