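import Pool.Agent.H12.ON.Cop
import Pool.Agent.H12.ON.Def

/-! # [H12 ON GEN] Polynomials with algebraic coefficients which vanish at a generic point

`kb = algebraicClosure k Ω` (intermediate field). `G = map G₀`, `G₀ ∈ kb[X,Y]`, `F_kb = map F` is irreducible over `kb` (it is over `Ω`: a
factorisation over `kb` is one over `Ω`; nonunits stay nonunits). If `F_kb ∣ G₀` then `F_Ω ∣ G`. Otherwise `elim` over `kb`: `A F_kb + B G₀ = R(X)`,
`R ≠ 0`; evaluate at `(x,y)`: `R(x) = 0`, so `x` is algebraic over `kb`, so over `k`: contradiction. -/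

namespace Pool.Agent.H12.ON

open MvPolynomial

private theorem irr_of_map {K L : Type} [Field K] [Field L] (f : K →+* L) {p : MvPolynomial (Fin 2) K}
    (h : Irreducible (map f p)) : Irreducible p := by
  have hu : ∀ q : MvPolynomial (Fin 2) K, IsUnit (map f q) → IsUnit q := by
    intro q hq
    obtain ⟨r, hr, hqr⟩ := isUnit_iff_eq_C_of_isReduced.1 hq
    refine isUnit_iff_eq_C_of_isReduced.2 ⟨q.coeff 0, ?_, ?_⟩
    · have h1 := congrArg (coeff 0) hqr
      rw [coeff_map, coeff_zero_C] at h1
      rw [isUnit_iff_ne_zero]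
      intro h2
      rw [h2, map_zero] at h1
      exact hr.ne_zero h1.symm
    · apply map_injective f f.injective
      rw [hqr, map_C]
      congr 1
      have h1 := congrArg (coeff 0) hqr
      rw [coeff_map, coeff_zero_C] at h1
      exact h1.symm
  constructor
  · intro h1
    exact h.not_isUnit (h1.map (map f))
  · intro a b hab
    rcases h.isUnit_or_isUnit (by rw [hab, map_mul] : map f p = map f a * map f b) with h1 | h1
    · exact Or.inl (hu a h1)
    · exact Or.inr (hu b h1)

theorem gen_dvd {k Ω : Type} [Field k] [Field Ω] [Algebra k Ω] {F : MvPolynomial (Fin 2) k}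
    (hF : Irreducible (map (algebraMap k Ω) F)) {x y : Ω} (h0 : aeval ![x, y] F = 0)
    (hx : Transcendental k x) {G : MvPolynomial (Fin 2) Ω} (hG : ∀ m, IsAlgebraic k (G.coeff m))
    (h : aeval ![x, y] G = 0) : map (algebraMap k Ω) F ∣ G := by
  classical
  have hmm : map (algebraMap k Ω) F =
      map (algebraMap (algebraicClosure k Ω) Ω) (map (algebraMap k (algebraicClosure k Ω)) F) := by
    rw [map_map]
    rfl
  have hcs : (G.coeffs : Set Ω) ⊆ Set.range (algebraMap (algebraicClosure k Ω) Ω) := by
    intro c hc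
    obtain ⟨m, -, rfl⟩ := (mem_coeffs_iff (p := G)).1 (Finset.mem_coe.1 hc)
    exact ⟨⟨G.coeff m, mem_algebraicClosure_iff.2 (hG m)⟩, rfl⟩
  obtain ⟨G0, hG0⟩ := mem_range_map_iff_coeffs_subset.2 hcs
  rw [hmm] at hF ⊢
  by_cases hd : map (algebraMap k (algebraicClosure k Ω)) F ∣ G0
  · rw [← hG0]
    exact _root_.map_dvd (map (algebraMap (algebraicClosure k Ω) Ω)) hd
  · exfalso
    obtain ⟨A, B, R, hR, hABR⟩ := elim (irr_of_map _ hF) hd
    have h1 := congrArg (aeval (R := algebraicClosure k Ω) ![x, y]) hABR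
    have h2 : aeval (R := algebraicClosure k Ω) ![x, y] (map (algebraMap k (algebraicClosure k Ω)) F) = 0 := by
      rw [aeval_map_algebraMap]
      exact h0
    have h3 : aeval (R := algebraicClosure k Ω) ![x, y] G0 = 0 := by
      rw [← hG0] at h
      rwa [aeval_map_algebraMap] at h
    rw [map_add, map_mul, map_mul, h2, h3, mul_zero, mul_zero, add_zero,
      ← Polynomial.aeval_algHom_apply, aeval_X] at h1
    have h4 : IsAlgebraic (algebraicClosure k Ω) x := ⟨R, hR, h1.symm⟩
    exact hx (h4.restrictScalars k)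

end Pool.Agent.H12.ON
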