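import Pool.Agent.H12.ON.Hen
import Pool.Agent.H12.ON.Apy
import Pool.Agent.H12.ON.Val

/-! # [H12 ON GEX] The expansion `y = θ x + γ₀ + γ₁/x + …`, the same for all points with residue `θ`

`θ ∈ Ω` a zero of `ftop n F` (irreducible, separable). `kk = AdjoinRoot (ftop n F)`, `ι : kk →ₐ[k] Ω` with `root ↦ θ`; `formal_root` in `kk` gives
`φ`; `γ j = ι (coeff (j+1) φ)`, algebraic over `k` (in the image of a finite extension). For a zero `(x,y)` with `x ∉ V`, `y/x - θ ∈ m`: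
`apx_root` with `N = M + 1`: `y/x = θ + ∑_{a=1}^{M} ι(φ_a) x^(-a) + r x^(-(M+1))`; multiply by `x`. `ι(kk) ⊆ V`: `val_alg`. -/

namespace Pool.Agent.H12.ON

open MvPolynomial Finset

theorem gex {k Ω : Type} [Field k] [CharZero k] [Field Ω] [Algebra k Ω] {n : ℕ}
    {F : MvPolynomial (Fin 2) k} (hF : Tp k n F) {θ : Ω} (hθ : Polynomial.aeval θ (ftop n F) = 0) :
    ∃ γ : ℕ → Ω, (∀ j, IsAlgebraic k (γ j)) ∧ ∀ V : ValuationSubring Ω, Ov k V → ∀ x y : Ω,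
      aeval ![x, y] F = 0 → x ∉ V → y / x - θ ∈ V.nonunits → ∀ M : ℕ, ∃ r ∈ V,
        y = θ * x + ∑ j ∈ range M, γ j * x⁻¹ ^ j + r * x⁻¹ ^ M := by
  classical
  have hirr : Fact (Irreducible (ftop n F)) := ⟨hF.irr⟩
  have hf0 : ftop n F ≠ 0 := hF.irr.ne_zero
  let kk : Type := AdjoinRoot (ftop n F)
  let ι : kk →ₐ[k] Ω := AdjoinRoot.liftAlgHom (ftop n F) (Algebra.ofId k Ω) θ hθ
  let θ₀ : kk := AdjoinRoot.root (ftop n F)
  have hιθ : ι θ₀ = θ := AdjoinRoot.liftAlgHom_root _ _ _ _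
  have h0 : Polynomial.aeval θ₀ (ftop n F) = 0 := by
    rw [AdjoinRoot.aeval_eq, AdjoinRoot.mk_self]
  have hsep : (ftop n F).Separable := hF.irr.separable
  have h1 : Polynomial.aeval θ₀ (Polynomial.derivative (ftop n F)) ≠ 0 :=
    hsep.aeval_derivative_ne_zero h0
  obtain ⟨φ, hφ0, hφ⟩ := formal_root hF.deg h0 h1
  haveI : FiniteDimensional k kk := (AdjoinRoot.powerBasis hf0).finite
  have halg : ∀ c : kk, IsAlgebraic k (ι c) := fun c =>
    (Algebra.IsAlgebraic.isAlgebraic (R := k) c).algHom ι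
  refine ⟨fun j => ι (PowerSeries.coeff (j + 1) φ), fun j => halg _, ?_⟩
  intro V hV x y hxy hx hr M
  have hx0 : x ≠ 0 := by rintro rfl; exact hx V.zero_mem
  have hA := apx_root hF.deg ι (V := V) (fun c => val_alg hV (halg c)) hx hxy hφ
    (by rw [hφ0]; exact h1) (by rw [hφ0, hιθ]; exact hr)
  obtain ⟨r, hrV, hr2⟩ := hA (M + 1)
  refine ⟨r, hrV, ?_⟩
  rw [Finset.sum_range_succ'] at hr2
  have h3 : y = (y / x) * x := by field_simp
  rw [h3, hr2, PowerSeries.coeff_zero_eq_constantCoeff_apply, hφ0]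
  have h4 : (∑ j ∈ range M, (ι : kk →+* Ω) (PowerSeries.coeff (j + 1) φ) * x⁻¹ ^ (j + 1)) * x =
      ∑ j ∈ range M, ι (PowerSeries.coeff (j + 1) φ) * x⁻¹ ^ j := by
    rw [Finset.sum_mul]
    refine Finset.sum_congr rfl fun j _ => ?_
    rw [pow_succ, mul_assoc, mul_assoc, inv_mul_cancel₀ hx0, mul_one]
    rfl
  have h5 : x⁻¹ ^ (M + 1) * x = x⁻¹ ^ M := by
    rw [pow_succ, mul_assoc, inv_mul_cancel₀ hx0, mul_one]
  have h6 : (ι : kk →+* Ω) θ₀ = θ := hιθ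
  rw [add_mul, add_mul, h4, pow_zero, mul_one, h6, mul_assoc, h5]
  ring

end Pool.Agent.H12.ON
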