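import Pool.Agent.H12.ON.Def

/-! # [H12 ON TRL] Translation

`F_w = F(X + w)`. Its total degree is `≤ n` and its part of degree `n` is the one of `F`: `(X + C a)^i (Y + C b)^j - X^i Y^j` has total degree
`< i + j` (or `= 0`), so `F_w - F` has total degree `< n` (`n ≥ 1`) and `ftop n F_w = ftop n F`.
`trl_irr`: the translation is an automorphism of `Ω[X,Y]`. `trl_eval`: evaluation. -/

namespace Pool.Agent.H12.ON

open MvPolynomial

/-- `F(X + w)` -/
noncomputable def tr {k : Type} [Field k] (w : Fin 2 → k) (F : MvPolynomial (Fin 2) k) : MvPolynomial (Fin 2) k :=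
  aeval (fun i => X i + C (w i)) F

private def LtD {k : Type} [Field k] (d : ℕ) (p : MvPolynomial (Fin 2) k) : Prop :=
  ∀ m ∈ p.support, m 0 + m 1 < d

private def LeD {k : Type} [Field k] (d : ℕ) (p : MvPolynomial (Fin 2) k) : Prop :=
  ∀ m ∈ p.support, m 0 + m 1 ≤ d

private theorem ltD_add {k : Type} [Field k] {d : ℕ} {p q : MvPolynomial (Fin 2) k}
    (hp : LtD d p) (hq : LtD d q) : LtD d (p + q) := by
  classical
  intro m hm
  rcases Finset.mem_union.mp (MvPolynomial.support_add hm) with h | h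
  · exact hp m h
  · exact hq m h

private theorem mulD {k : Type} [Field k] {p q : MvPolynomial (Fin 2) k} {m : Fin 2 →₀ ℕ}
    (hm : m ∈ (p * q).support) : ∃ a ∈ p.support, ∃ b ∈ q.support,
      m 0 + m 1 = (a 0 + a 1) + (b 0 + b 1) := by
  classical
  obtain ⟨a, ha, b, hb, hab⟩ := Finset.mem_add.mp (MvPolynomial.support_mul p q hm)
  refine ⟨a, ha, b, hb, ?_⟩
  rw [← hab, Finsupp.add_apply, Finsupp.add_apply]
  omega

private theorem leD_mul {k : Type} [Field k] {d e : ℕ} {p q : MvPolynomial (Fin 2) k}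
    (hp : LeD d p) (hq : LeD e q) : LeD (d + e) (p * q) := by
  intro m hm
  obtain ⟨a, ha, b, hb, h⟩ := mulD hm
  have := hp a ha
  have := hq b hb
  omega

private theorem leD_ltD_mul {k : Type} [Field k] {d e : ℕ} {p q : MvPolynomial (Fin 2) k}
    (hp : LeD d p) (hq : LtD e q) : LtD (d + e) (p * q) := by
  intro m hm
  obtain ⟨a, ha, b, hb, h⟩ := mulD hm
  have := hp a ha
  have := hq b hb
  omega

private theorem ltD_leD_mul {k : Type} [Field k] {d e : ℕ} {p q : MvPolynomial (Fin 2) k}
    (hp : LtD d p) (hq : LeD e q) : LtD (d + e) (p * q) := by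
  intro m hm
  obtain ⟨a, ha, b, hb, h⟩ := mulD hm
  have := hp a ha
  have := hq b hb
  omega

private theorem ltD_leD {k : Type} [Field k] {d : ℕ} {p : MvPolynomial (Fin 2) k}
    (hp : LtD d p) : LeD d p := fun m hm => (hp m hm).le

private def GD {k : Type} [Field k] (w : Fin 2 → k) (d : ℕ) (p : MvPolynomial (Fin 2) k) : Prop :=
  LeD d p ∧ LtD d (tr w p - p)

private theorem gd_mul {k : Type} [Field k] {w : Fin 2 → k} {d e : ℕ} {p q : MvPolynomial (Fin 2) k}
    (hp : GD w d p) (hq : GD w e q) : GD w (d + e) (p * q) := by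
  refine ⟨leD_mul hp.1 hq.1, ?_⟩
  have h : tr w (p * q) - p * q = p * (tr w q - q) + (tr w p - p) * q +
      (tr w p - p) * (tr w q - q) := by
    have : tr w (p * q) = tr w p * tr w q := by unfold tr; exact map_mul _ _ _
    rw [this]; ring
  rw [h]
  exact ltD_add (ltD_add (leD_ltD_mul hp.1 hq.2) (ltD_leD_mul hp.2 hq.1))
    (ltD_leD_mul hp.2 (ltD_leD hq.2))

private theorem gd_C {k : Type} [Field k] (w : Fin 2 → k) (c : k) :
    GD w 0 (C c : MvPolynomial (Fin 2) k) := by
  constructor
  · intro m hm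
    have h : m = 0 := by
      by_contra hne
      rw [MvPolynomial.mem_support_iff, MvPolynomial.coeff_C, if_neg (Ne.symm hne)] at hm
      exact hm rfl
    rw [h]; simp
  · have h : tr w (C c : MvPolynomial (Fin 2) k) - C c = 0 := by
      unfold tr
      rw [MvPolynomial.aeval_C]
      exact sub_self _
    rw [h]
    intro m hm
    simp at hm

private theorem gd_X {k : Type} [Field k] (w : Fin 2 → k) (i : Fin 2) :
    GD w 1 (X i : MvPolynomial (Fin 2) k) := by
  constructor
  · intro m hm
    rw [MvPolynomial.support_X, Finset.mem_singleton] at hm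
    rw [hm]
    fin_cases i <;> simp
  · have h : tr w (X i : MvPolynomial (Fin 2) k) - X i = C (w i) := by
      unfold tr
      rw [MvPolynomial.aeval_X]
      ring
    rw [h]
    intro m hm
    have := (gd_C w (w i)).1 m hm
    omega

private theorem gd_pow {k : Type} [Field k] {w : Fin 2 → k} {d : ℕ} {p : MvPolynomial (Fin 2) k}
    (hp : GD w d p) (j : ℕ) : GD w (j * d) (p ^ j) := by
  induction j with
  | zero =>
    rw [pow_zero, zero_mul]
    exact gd_C w 1
  | succ j ih =>
    rw [pow_succ, Nat.succ_mul]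
    exact gd_mul ih hp

private theorem gd_mon {k : Type} [Field k] (w : Fin 2 → k) (m : Fin 2 →₀ ℕ) (c : k) :
    GD w (m 0 + m 1) (monomial m c : MvPolynomial (Fin 2) k) := by
  have h : (monomial m c : MvPolynomial (Fin 2) k) = C c * X 0 ^ (m 0) * X 1 ^ (m 1) := by
    rw [MvPolynomial.monomial_eq, Finsupp.prod_fintype _ _ (fun _ => pow_zero _), Fin.prod_univ_two,
      mul_assoc]
  rw [h]
  have := gd_mul (gd_mul (gd_C w c) (gd_pow (gd_X w 0) (m 0))) (gd_pow (gd_X w 1) (m 1))
  rwa [zero_add, mul_one, mul_one] at this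

private theorem hdm' {k : Type} [Field k] {n : ℕ} {F : MvPolynomial (Fin 2) k}
    (hF : F.totalDegree ≤ n) {m : Fin 2 →₀ ℕ} (hm : m ∈ F.support) : m 0 + m 1 ≤ n := by
  have h := MvPolynomial.le_totalDegree hm
  rw [Finsupp.sum_fintype _ _ (fun _ => rfl), Fin.sum_univ_two] at h
  exact h.trans hF

private theorem ltD_tr {k : Type} [Field k] {n : ℕ} {F : MvPolynomial (Fin 2) k}
    (hF : F.totalDegree ≤ n) (w : Fin 2 → k) : LtD n (tr w F - F) := by
  classical
  have h : tr w F - F = ∑ m ∈ F.support, (tr w (monomial m (F.coeff m)) - monomial m (F.coeff m)) := by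
    rw [Finset.sum_sub_distrib, ← MvPolynomial.as_sum F]
    congr 1
    unfold tr
    rw [← map_sum, ← MvPolynomial.as_sum F]
  rw [h]
  intro m hm
  obtain ⟨a, ha, hma⟩ := Finset.mem_biUnion.mp (MvPolynomial.support_sum hm)
  have h1 := (gd_mon w a (F.coeff a)).2 m hma
  have h2 := hdm' hF ha
  omega

private theorem td_of_le {k : Type} [Field k] {n : ℕ} {p : MvPolynomial (Fin 2) k} (hp : LeD n p) :
    p.totalDegree ≤ n := by
  unfold MvPolynomial.totalDegree
  refine Finset.sup_le fun m hm => ?_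
  rw [Finsupp.sum_fintype _ _ (fun _ => rfl), Fin.sum_univ_two]
  exact hp m hm

theorem trl_ftop {k : Type} [Field k] {n : ℕ} (hn : 1 ≤ n) {F : MvPolynomial (Fin 2) k}
    (hF : F.totalDegree ≤ n) (w : Fin 2 → k) :
    (tr w F).totalDegree ≤ n ∧ ftop n (tr w F) = ftop n F := by
  have h := ltD_tr hF w
  constructor
  · have h2 : tr w F = F + (tr w F - F) := by ring
    rw [h2]
    exact (MvPolynomial.totalDegree_add _ _).trans (max_le hF (td_of_le (ltD_leD h)))
  · unfold ftop
    refine Finset.sum_congr rfl fun j hj => ?_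
    rw [Finset.mem_range] at hj
    congr 1
    by_contra hne
    have h3 : (Finsupp.single 0 (n - j) + Finsupp.single 1 j : Fin 2 →₀ ℕ) ∈ (tr w F - F).support := by
      rw [MvPolynomial.mem_support_iff, MvPolynomial.coeff_sub]
      exact sub_ne_zero.mpr hne
    have h4 := h _ h3
    simp at h4
    omega

theorem trl_tp {k : Type} [Field k] {n : ℕ} {F : MvPolynomial (Fin 2) k} (hF : Tp k n F) (w : Fin 2 → k) :
    Tp k n (tr w F) := by
  obtain ⟨h1, h2⟩ := trl_ftop (by have := hF.n3; omega : 1 ≤ n) hF.deg w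
  exact ⟨hF.n3, h1, by rw [h2]; exact hF.top, by rw [h2]; exact hF.irr⟩

theorem trl_eval {k Ω : Type} [Field k] [Field Ω] [Algebra k Ω] (w : Fin 2 → k)
    (F : MvPolynomial (Fin 2) k) (x y : Ω) :
    aeval ![x, y] (tr w F) = aeval ![x + algebraMap k Ω (w 0), y + algebraMap k Ω (w 1)] F := by
  unfold tr
  rw [MvPolynomial.comp_aeval_apply]
  congr 1
  congr 1
  funext i
  fin_cases i <;> simp

theorem trl_irr {k Ω : Type} [Field k] [Field Ω] [Algebra k Ω] (w : Fin 2 → k)
    {F : MvPolynomial (Fin 2) k} (hF : Irreducible (map (algebraMap k Ω) F)) :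
    Irreducible (map (algebraMap k Ω) (tr w F)) := by
  have h1 : map (algebraMap k Ω) (tr w F) =
      aeval (fun i => X i + C (algebraMap k Ω (w i)) : Fin 2 → MvPolynomial (Fin 2) Ω)
        (map (algebraMap k Ω) F) := by
    have h2 : (map (algebraMap k Ω)).comp
        (aeval (fun i => X i + C (w i)) : MvPolynomial (Fin 2) k →ₐ[k] MvPolynomial (Fin 2) k).toRingHom =
        (aeval (fun i => X i + C (algebraMap k Ω (w i))) :
          MvPolynomial (Fin 2) Ω →ₐ[Ω] MvPolynomial (Fin 2) Ω).toRingHom.comp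
          (map (algebraMap k Ω)) := by
      apply MvPolynomial.ringHom_ext <;> intro i <;> simp
    exact RingHom.congr_fun h2 F
  rw [h1]
  let e : MvPolynomial (Fin 2) Ω ≃ₐ[Ω] MvPolynomial (Fin 2) Ω :=
    AlgEquiv.ofAlgHom (aeval (fun i => X i + C (algebraMap k Ω (w i))))
      (aeval (fun i => X i - C (algebraMap k Ω (w i))))
      (by
        apply MvPolynomial.algHom_ext
        intro i
        simp)
      (by
        apply MvPolynomial.algHom_ext
        intro i
        simp)
  exact (MulEquiv.irreducible_iff e.toMulEquiv).mpr hF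

end Pool.Agent.H12.ON
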