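import Pool.Agent.H12.ON.Gen
import Pool.Agent.H12.ON.Trl

/-! # [H12 ON HMT] A generic point and its image under a homothety

* `not_line`: `(x,y)` generic on `F(w + ·)` (that is `F(w + (x,y)) = 0`, `x` transcendental): `y ≠ c x` for `c` algebraic: otherwise
  `G = Y - C c X` vanishes at `(x,y)`, `gen_dvd` for `tr w F` (`trl_irr`, `trl_eval`): `map (tr w F) ∣ G`, but the total degree of `tr w F` is
  `n ≥ 3` (`ftop` has degree `n`, so it is not zero) and the one of `G ≠ 0` is `1`.
* `homot`: `F(w + (x,y)) = 0` and `F(w + ζ (x,y)) = 0`, `ζ ≠ 0` algebraic: `G = F(w + ζ X) = aeval (fun i => C (w i) + C ζ * X i) F ∈ Ω[X,Y]` has algebraic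
  coefficients and vanishes at `(x,y)`; `gen_dvd`: `map (tr w F) ∣ G`; total degrees: `n` and `≤ n`, `G ≠ 0` (its part of degree `n` is
  `ζ^n f`, not zero), so `G = C c * map (tr w F)`, and comparing the coefficients of degree `n` (`trl_ftop`): `c = ζ^n`.
  `map (tr w F) = aeval (fun i => C (w i) + X i) F`. `nohom`: `ζ = 1`. -/

namespace Pool.Agent.H12.ON

open MvPolynomial

private theorem coeff_sc {Ω : Type} [Field Ω] (ζ : Ω) (p : MvPolynomial (Fin 2) Ω) (m : Fin 2 →₀ ℕ) :
    (aeval (fun i => C ζ * X i : Fin 2 → MvPolynomial (Fin 2) Ω) p).coeff m =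
      ζ ^ (m 0 + m 1) * p.coeff m := by
  classical
  have h : ∀ s : Fin 2 →₀ ℕ, ∀ a : Ω,
      aeval (fun i => C ζ * X i : Fin 2 → MvPolynomial (Fin 2) Ω) (monomial s a) =
        monomial s (ζ ^ (s 0 + s 1) * a) := by
    intro s a
    have e1 : ∀ b : Ω, (monomial s b : MvPolynomial (Fin 2) Ω) = C b * (X 0 ^ (s 0) * X 1 ^ (s 1)) := by
      intro b
      rw [monomial_eq, Finsupp.prod_fintype _ _ (fun _ => pow_zero _), Fin.prod_univ_two]
    rw [e1, e1, map_mul, map_mul, map_pow, map_pow, aeval_X, aeval_X, aeval_C, C_mul, C_pow]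
    change C a * _ = _
    ring
  induction p using MvPolynomial.induction_on' with
  | monomial u a =>
    rw [h, coeff_monomial, coeff_monomial]
    by_cases hu : u = m
    · rw [if_pos hu, if_pos hu, hu]
    · rw [if_neg hu, if_neg hu, mul_zero]
  | add p q hp hq =>
    rw [map_add, coeff_add, coeff_add, hp, hq, mul_add]

private theorem top_coeff {k Ω : Type} [Field k] [Field Ω] [Algebra k Ω] {n : ℕ}
    {F : MvPolynomial (Fin 2) k} (hF : Tp k n F) (w : Fin 2 → k) :
    (map (algebraMap k Ω) (tr w F)).coeff (Finsupp.single 1 n) ≠ 0 := by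
  have h := (trl_tp hF w).top
  have h1 : (ftop n (tr w F)).coeff n = (tr w F).coeff (Finsupp.single 0 (n - n) + Finsupp.single 1 n) := by
    unfold ftop
    rw [Polynomial.finsetSum_coeff, Finset.sum_eq_single n]
    · rw [Polynomial.coeff_monomial, if_pos rfl]
    · intro j _ hj
      rw [Polynomial.coeff_monomial, if_neg hj]
    · intro hn
      exact absurd (Finset.mem_range.2 (Nat.lt_succ_self n)) hn
  rw [Nat.sub_self, Finsupp.single_zero, zero_add] at h1
  rw [coeff_map, Ne, map_eq_zero, ← h1]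
  intro h2
  have h3 : (ftop n (tr w F)).leadingCoeff = 0 := by
    rw [Polynomial.leadingCoeff, h]
    exact h2
  exact (trl_tp hF w).irr.ne_zero (Polynomial.leadingCoeff_eq_zero.1 h3)

private theorem deg_ge {Ω : Type} [Field Ω] {n : ℕ} {P : MvPolynomial (Fin 2) Ω}
    (h : P.coeff (Finsupp.single 1 n) ≠ 0) : n ≤ P.totalDegree := by
  have h1 := le_totalDegree (mem_support_iff.2 h)
  rwa [Finsupp.sum_single_index rfl] at h1

theorem not_line {k Ω : Type} [Field k] [CharZero k] [Field Ω] [Algebra k Ω] {n : ℕ}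
    {F : MvPolynomial (Fin 2) k} (hF : Cv k Ω n F) (w : Fin 2 → k) {x y c : Ω} (hx : Transcendental k x)
    (h0 : aeval ![x + algebraMap k Ω (w 0), y + algebraMap k Ω (w 1)] F = 0) (hc : IsAlgebraic k c) :
    y ≠ c * x := by
  classical
  intro hy
  rw [← trl_eval] at h0
  obtain ⟨G, hG⟩ : ∃ G : MvPolynomial (Fin 2) Ω, G = X 1 - C c * X 0 := ⟨_, rfl⟩
  have h1 : ∀ m, IsAlgebraic k (G.coeff m) := by
    intro m
    rw [hG, coeff_sub, coeff_C_mul, coeff_X, coeff_X]
    refine IsAlgebraic.sub ?_ (hc.mul ?_)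
    · split_ifs
      · exact isAlgebraic_one
      · exact isAlgebraic_zero
    · split_ifs
      · exact isAlgebraic_one
      · exact isAlgebraic_zero
  have h2 : aeval ![x, y] G = 0 := by
    rw [hG, map_sub, map_mul, aeval_X, aeval_X, aeval_C, hy]
    simp
  have h3 := gen_dvd (trl_irr w hF.absi) h0 hx h1 h2
  have hG0 : G ≠ 0 := by
    intro h4
    have h5 := congrArg (coeff (Finsupp.single 1 1)) h4
    rw [hG, coeff_sub, coeff_C_mul, coeff_X, coeff_X, if_pos rfl, if_neg, mul_zero, sub_zero, coeff_zero] at h5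
    · exact one_ne_zero h5
    · intro h6
      have h7 := DFunLike.congr_fun h6 (0 : Fin 2)
      simp at h7
  have h4 := totalDegree_le_of_dvd_of_isDomain h3 hG0
  have h5 := deg_ge (top_coeff (Ω := Ω) hF.toTp w)
  have h6 : G.totalDegree ≤ 1 := by
    rw [hG]
    refine (totalDegree_sub _ _).trans (max_le ?_ ?_)
    · rw [totalDegree_X]
    · refine (totalDegree_mul _ _).trans ?_
      rw [totalDegree_C, totalDegree_X]
  have h7 := hF.n3
  omega

theorem homot {k Ω : Type} [Field k] [CharZero k] [Field Ω] [Algebra k Ω] {n : ℕ}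
    {F : MvPolynomial (Fin 2) k} (hF : Cv k Ω n F) (w : Fin 2 → k) {x y ζ : Ω} (hx : Transcendental k x)
    (h0 : aeval ![x + algebraMap k Ω (w 0), y + algebraMap k Ω (w 1)] F = 0) (hζ : IsAlgebraic k ζ)
    (hζ0 : ζ ≠ 0) (h1 : aeval ![ζ * x + algebraMap k Ω (w 0), ζ * y + algebraMap k Ω (w 1)] F = 0) :
    ζ = 1 := by
  classical
  rw [← trl_eval] at h0 h1
  obtain ⟨P, hP⟩ : ∃ P : MvPolynomial (Fin 2) Ω, P = map (algebraMap k Ω) (tr w F) := ⟨_, rfl⟩
  obtain ⟨G, hG⟩ : ∃ G : MvPolynomial (Fin 2) Ω,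
    G = aeval (fun i => C ζ * X i : Fin 2 → MvPolynomial (Fin 2) Ω) P := ⟨_, rfl⟩
  have hGc : ∀ m, G.coeff m = ζ ^ (m 0 + m 1) * P.coeff m := fun m => by
    rw [hG, coeff_sc]
  have h2 : ∀ m, IsAlgebraic k (G.coeff m) := by
    intro m
    rw [hGc, hP, coeff_map]
    exact (hζ.pow _).mul (isAlgebraic_algebraMap _)
  have h3 : aeval ![x, y] G = 0 := by
    rw [hG, comp_aeval_apply, hP]
    rw [aeval_map_algebraMap, ← h1]
    congr 1
    congr 1
    funext i
    fin_cases i <;> simp
  have h4 : P ∣ G := by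
    rw [hP]
    exact gen_dvd (trl_irr w hF.absi) h0 hx h2 h3
  have htop : P.coeff (Finsupp.single 1 n) ≠ 0 := by
    rw [hP]
    exact top_coeff hF.toTp w
  have hsupp : G.support = P.support := by
    ext m
    rw [mem_support_iff, mem_support_iff, hGc]
    constructor
    · intro h5 h6
      exact h5 (by rw [h6, mul_zero])
    · intro h5
      exact mul_ne_zero (pow_ne_zero _ hζ0) h5
  have hP0 : P ≠ 0 := by
    intro h5
    exact htop (by rw [h5, coeff_zero])
  obtain ⟨Q, hQ⟩ := h4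
  have hQ0 : Q ≠ 0 := by
    intro h5
    rw [h5, mul_zero] at hQ
    have h6 : P.support = ∅ := by rw [← hsupp, hQ, support_zero]
    exact hP0 (support_eq_empty.1 h6)
  have hdeg : Q.totalDegree = 0 := by
    have h5 := totalDegree_mul_of_isDomain hP0 hQ0
    rw [← hQ] at h5
    have h6 : G.totalDegree = P.totalDegree := by
      unfold totalDegree
      rw [hsupp]
    omega
  rw [totalDegree_eq_zero_iff_eq_C] at hdeg
  obtain ⟨c, hc⟩ : ∃ c : Ω, Q = C c := ⟨_, hdeg⟩
  have hcn : c = ζ ^ n := by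
    have h5 := hGc (Finsupp.single 1 n)
    rw [hQ, hc, mul_comm P, coeff_C_mul] at h5
    have h6 := mul_right_cancel₀ htop h5
    rw [h6]
    congr 1
    simp
  have hPw : P = aeval (fun i => C (algebraMap k Ω (w i)) + X i : Fin 2 → MvPolynomial (Fin 2) Ω) F := by
    rw [hP]
    unfold tr
    have h5 : (map (algebraMap k Ω)).comp
        (aeval (fun i => X i + C (w i)) : MvPolynomial (Fin 2) k →ₐ[k] MvPolynomial (Fin 2) k).toRingHom =
        (aeval (fun i => C (algebraMap k Ω (w i)) + X i) :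
          MvPolynomial (Fin 2) k →ₐ[k] MvPolynomial (Fin 2) Ω).toRingHom := by
      apply ringHom_ext
      · intro r
        simp [IsScalarTower.algebraMap_apply k Ω (MvPolynomial (Fin 2) Ω)]
      · intro i
        simp [add_comm]
    exact RingHom.congr_fun h5 F
  refine hF.nohom (fun i => algebraMap k Ω (w i)) ζ hζ0 ?_
  have h5 : aeval (fun i => C (algebraMap k Ω (w i)) + C ζ * X i : Fin 2 → MvPolynomial (Fin 2) Ω) F = G := by
    rw [hG, hPw]
    have h6 : ((aeval (fun i => C ζ * X i) : MvPolynomial (Fin 2) Ω →ₐ[Ω] MvPolynomial (Fin 2) Ω).toRingHom).comp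
        (aeval (fun i => C (algebraMap k Ω (w i)) + X i) :
          MvPolynomial (Fin 2) k →ₐ[k] MvPolynomial (Fin 2) Ω).toRingHom =
        (aeval (fun i => C (algebraMap k Ω (w i)) + C ζ * X i) :
          MvPolynomial (Fin 2) k →ₐ[k] MvPolynomial (Fin 2) Ω).toRingHom := by
      apply ringHom_ext
      · intro r
        simp [IsScalarTower.algebraMap_apply k Ω (MvPolynomial (Fin 2) Ω)]
      · intro i
        simp
    exact (RingHom.congr_fun h6 F).symm
  rw [h5, ← hPw, hQ, hc, hcn, mul_comm]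

end Pool.Agent.H12.ON
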