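import Pool.Agent.H12.ON.Pt

/-! # [H12 ON LNK] Linked points: an equivalence relation, invariant under automorphisms

Directly from the definition. `symm`: `P.1 ∉ V ↔ Q.1 ∉ V`. `trans`: `P.1/R.1 = (P.1/Q.1)(Q.1/R.1)` (if `P.1 ∉ V` then `Q.1, R.1 ∉ V`, so they are
not zero); `V.nonunits` is closed under addition (maximal ideal: `ValuationSubring.mem_nonunits_iff_exists_mem_maximalIdeal` or the valuation).
`map`: for `σ : Ω ≃ₐ[k] Ω` and `V` consider `V.comap σ` (again over `k`). `tr`: `P.1` transcendental, linked with `Q`: `Q.1` transcendental: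
otherwise `Q.1` is in all `V` over `k` (`val_alg`) and so is `P.1`, which contradicts `exists_inf`. `cls_eq`: from symm and trans.
`theta`: at a `V` with `P.1 ∉ V` linked zeros have the same residue `θ`. -/

namespace Pool.Agent.H12.ON

open MvPolynomial

variable {k Ω : Type} [Field k] [Field Ω] [Algebra k Ω]

theorem Link.rfl (P : Ω × Ω) : Link k P P := by
  intro V _
  refine ⟨Iff.rfl, fun hP => ?_⟩
  have h0 : P.1 ≠ 0 := fun h => hP (h ▸ V.zero_mem)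
  rw [div_self h0, sub_self]
  exact ⟨V.one_mem, V.one_mem, V.nonunits.zero_mem⟩

theorem Link.symm {P Q : Ω × Ω} (h : Link k P Q) : Link k Q P := by
  intro V hV
  obtain ⟨h1, h2⟩ := h V hV
  refine ⟨h1.symm, fun hQ => ?_⟩
  obtain ⟨h3, h4, h5⟩ := h2 (fun hP => hQ (h1.1 hP))
  refine ⟨h4, h3, ?_⟩
  rw [← neg_sub]
  exact V.nonunits.neg_mem h5

theorem Link.trans {P Q R : Ω × Ω} (h : Link k P Q) (h' : Link k Q R) : Link k P R := by
  intro V hV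
  obtain ⟨h1, h2⟩ := h V hV
  obtain ⟨h1', h2'⟩ := h' V hV
  refine ⟨h1.trans h1', fun hP => ?_⟩
  obtain ⟨h3, h4, h5⟩ := h2 hP
  have hQ : Q.1 ∉ V := fun hQ => hP (h1.2 hQ)
  obtain ⟨h3', h4', h5'⟩ := h2' hQ
  have h0 : Q.1 ≠ 0 := fun h => hQ (h ▸ V.zero_mem)
  refine ⟨?_, ?_, ?_⟩
  · rw [← div_mul_div_cancel₀ h0]
    exact V.mul_mem _ _ h3 h3'
  · rw [← div_mul_div_cancel₀ h0]
    exact V.mul_mem _ _ h4' h4
  · rw [← sub_add_sub_cancel (P.2 / P.1) (Q.2 / Q.1)]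
    exact V.nonunits.add_mem h5 h5'

theorem Link.map {P Q : Ω × Ω} (h : Link k P Q) (σ : Ω ≃ₐ[k] Ω) :
    Link k (σ P.1, σ P.2) (σ Q.1, σ Q.2) := by
  intro V hV
  have hV' : Ov k (V.comap (σ : Ω →+* Ω)) := by
    intro e
    rw [ValuationSubring.mem_comap]
    have h1 : (σ : Ω →+* Ω) (algebraMap k Ω e) = algebraMap k Ω e := σ.commutes e
    rw [h1]
    exact hV e
  have hm : ∀ x : Ω, x ∈ V.comap (σ : Ω →+* Ω) ↔ σ x ∈ V := fun x => Iff.rfl
  have hn : ∀ x : Ω, x ∈ (V.comap (σ : Ω →+* Ω)).nonunits → σ x ∈ V.nonunits := by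
    intro x hx
    rw [ValuationSubring.mem_nonunits_iff_or] at hx ⊢
    rcases hx with hx | hx
    · left
      rw [hx, map_zero]
    · right
      rw [hm, map_inv₀] at hx
      exact hx
  obtain ⟨h1, h2⟩ := h _ hV'
  refine ⟨h1, fun hP => ?_⟩
  obtain ⟨h3, h4, h5⟩ := h2 hP
  have h6 := hn _ h5
  rw [hm, map_div₀] at h3 h4
  rw [map_sub, map_div₀, map_div₀] at h6
  exact ⟨h3, h4, h6⟩

theorem Link.tr {P Q : Ω × Ω} (h : Link k P Q) (hP : Transcendental k P.1) : Transcendental k Q.1 := by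
  intro hQ
  refine hP (all_alg (k := k) fun V hV => (h V hV).1.2 (val_alg hV hQ))

theorem cls_eq {F : MvPolynomial (Fin 2) k} {P Q : Ω × Ω} (hQ : Q ∈ cls k F P) : cls k F Q = cls k F P := by
  obtain ⟨_, hQ⟩ := hQ
  ext R
  exact ⟨fun hR => ⟨hR.1, hQ.trans hR.2⟩, fun hR => ⟨hR.1, hQ.symm.trans hR.2⟩⟩

theorem Link.theta {P Q : Ω × Ω} (h : Link k P Q) {V : ValuationSubring Ω} (hV : Ov k V) (hP : P.1 ∉ V)
    {θ : Ω} (hθ : P.2 / P.1 - θ ∈ V.nonunits) : Q.1 ∉ V ∧ Q.2 / Q.1 - θ ∈ V.nonunits := by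
  obtain ⟨h1, h2⟩ := h V hV
  obtain ⟨_, _, h5⟩ := h2 hP
  refine ⟨fun hQ => hP (h1.2 hQ), ?_⟩
  have h6 : Q.2 / Q.1 - θ = (P.2 / P.1 - θ) - (P.2 / P.1 - Q.2 / Q.1) := by ring
  rw [h6]
  exact sub_mem hθ h5

end Pool.Agent.H12.ON
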