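import Pool.Agent.H12.ON.Dif
import Pool.Agent.H12.ON.Deg
import Pool.Agent.H12.ON.Lnk

/-! # [H12 ON INJ] A nonconstant polynomial which is constant on the class of `P` has degree at least the number of elements

`V` over `k` with `P.1 ∉ V` (`exists_inf`), `θ` of `pt_inf` for `P`; for all `Q ∈ S`: `Q.1 ∉ V`, `Q.2/Q.1 - θ ∈ m` (`Link.theta`), `Q.1/P.1` is a unit.
`d = totalDegree q ≥ 1`, `g = ftop d q`, `g(θ) ≠ 0` (as in `top_unit`: `g ≠ 0` has degree `< n`, `θ` is a zero of the irreducible `ftop n F` of degree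
`n`). Let `ρ(Q)` be the residue of `Q.1/P.1` in the residue field of `V`. (1) `ρ(Q)^d = 1`: `q(Q)/Q.1^d ≡ g(θ) ≡ q(P)/P.1^d` (`top_res`) and
`q(Q) = q(P)`, `g(θ)` a unit. (2) `ρ` is injective on `S`: let `ρ(Q) = ρ(Q')`, `(x,y) = Q`, `(x',y') = Q'`, so `x'/x - 1 ∈ m`. `dif` for `F` (degree `n`) and
for `q` (degree `d`): `0 = (x-x') A_F + (y-y') B_F`, `B_F/x^(n-1) ≡ f'(θ) ≠ 0` (irreducible, characteristic zero: separable), a unit;
`A_F/x^(n-1) ≡ n f(θ) - θ f'(θ) = -θ f'(θ)`; so `y - y' = -(x-x') A_F/B_F`, `A_F/B_F ≡ -θ`. `0 = (x-x') A_q + (y-y') B_q = (x-x') (A_q - B_q A_F/B_F)` and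
`(A_q - B_q A_F/B_F)/x^(d-1) ≡ d g(θ) - θ g'(θ) + θ g'(θ) = d g(θ) ≠ 0`: so `x = x'`, then `y = y'`.
So `|S|` is at most the number of zeros of `T^d - 1` in the residue field (`Polynomial.card_roots'`, `card_nthRoots`). -/

namespace Pool.Agent.H12.ON

open MvPolynomial

private theorem alg_aeval {k Ω : Type} [Field k] [Field Ω] [Algebra k Ω] {θ : Ω} (hθ : IsAlgebraic k θ)
    (p : Polynomial k) : IsAlgebraic k (Polynomial.aeval θ p) := by
  have h := hθ.isIntegral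
  refine IsIntegral.isAlgebraic ?_
  induction p using Polynomial.induction_on' with
  | add p q hp hq =>
    rw [map_add]
    exact hp.add hq
  | monomial n a =>
    rw [Polynomial.aeval_monomial]
    exact isIntegral_algebraMap.mul (h.pow n)

private theorem mulV {Ω : Type} [Field Ω] {V : ValuationSubring Ω} {r z : Ω} (hr : r ∈ V) (hz : z ∈ V.nonunits) :
    r * z ∈ V.nonunits := by
  rw [V.mem_nonunits_iff] at hz ⊢
  rw [map_mul]
  have h1 := (V.valuation_le_one_iff r).2 hr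
  exact mul_lt_one_of_nonneg_of_lt_one_right h1 zero_le' hz

private theorem mulVr {Ω : Type} [Field Ω] {V : ValuationSubring Ω} {r z : Ω} (hr : r ∈ V) (hz : z ∈ V.nonunits) :
    z * r ∈ V.nonunits := by
  rw [mul_comm]
  exact mulV hr hz

private theorem mcg {Ω : Type} [Field Ω] {V : ValuationSubring Ω} {a a0 b b0 : Ω} (ha : a - a0 ∈ V.nonunits)
    (hb : b - b0 ∈ V.nonunits) (h1 : a ∈ V) (h2 : b0 ∈ V) : a * b - a0 * b0 ∈ V.nonunits := by
  have h3 : a * b - a0 * b0 = a * (b - b0) + (a - a0) * b0 := by ring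
  rw [h3]
  exact V.nonunits.add_mem (mulV h1 hb) (mulVr h2 ha)

private theorem mem_of_sub {Ω : Type} [Field Ω] {V : ValuationSubring Ω} {a a0 : Ω} (ha : a - a0 ∈ V.nonunits)
    (h0 : a0 ∈ V) : a ∈ V := by
  have h1 : a = (a - a0) + a0 := by ring
  rw [h1]
  exact V.add_mem _ _ (V.nonunits_subset ha) h0

private theorem ne_zero_of_sub {Ω : Type} [Field Ω] {V : ValuationSubring Ω} {a a0 : Ω} (ha : a - a0 ∈ V.nonunits)
    (h0 : a0 ∉ V.nonunits) : a ≠ 0 := by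
  rintro rfl
  rw [zero_sub] at ha
  apply h0
  rw [← neg_neg a0]
  exact V.nonunits.neg_mem ha

theorem inj_card {k Ω : Type} [Field k] [CharZero k] [Field Ω] [IsAlgClosed Ω] [Algebra k Ω] {n : ℕ}
    {F : MvPolynomial (Fin 2) k} (hF : Tp k n F) {P : Ω × Ω} (h0 : aeval ![P.1, P.2] F = 0)
    (hP : Transcendental k P.1) {S : Finset (Ω × Ω)} (hS : ∀ Q ∈ S, Q ∈ cls k F P)
    {q : MvPolynomial (Fin 2) k} (hq : ∀ m ∈ q.support, m 1 < n) (h1 : 1 ≤ q.totalDegree)
    (hinv : ∀ Q ∈ S, aeval ![Q.1, Q.2] q = aeval ![P.1, P.2] q) : S.card ≤ q.totalDegree := by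
  classical
  obtain ⟨V, hV, hPV⟩ := exists_inf (k := k) hP
  obtain ⟨-, θ, hθ0, hθP⟩ := pt_inf hF hV h0 hPV
  have hf0 : ftop n F ≠ 0 := hF.irr.ne_zero
  have hθa : IsAlgebraic k θ := ⟨ftop n F, hf0, hθ0⟩
  have hθV : θ ∈ V := val_alg hV hθa
  have hq0 : q ≠ 0 := by
    rintro rfl
    rw [totalDegree_zero] at h1
    omega
  obtain ⟨d, hd⟩ : ∃ d, d = q.totalDegree := ⟨_, rfl⟩
  have hgV : Polynomial.aeval θ (ftop d q) ∈ V := val_alg hV (alg_aeval hθa _)
  -- the points of the class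
  have hQ : ∀ Q ∈ S, Q.1 ∉ V ∧ Q.2 / Q.1 - θ ∈ V.nonunits := fun Q h => (hS Q h).2.theta hV hPV hθP
  have hrat : ∀ Q ∈ S, P.1 / Q.1 ∈ V ∧ Q.1 / P.1 ∈ V := fun Q h =>
    ⟨(((hS Q h).2 V hV).2 hPV).1, (((hS Q h).2 V hV).2 hPV).2.1⟩
  have hne : ∀ x : Ω, x ∉ V → x ≠ 0 := fun x hx h => hx (h ▸ V.zero_mem)
  have hP0 := hne _ hPV
  -- the value of the top part is a unit
  obtain ⟨u1, u2, u3⟩ := top_unit hF hV h0 hPV hq0 hq
  rw [← hd] at u2 u3
  have hPt := (top_res hV hPV hθa hθP (p := q) hd.ge).2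
  have hunit : aeval ![P.1, P.2] q / P.1 ^ d ∉ V.nonunits := by
    rw [V.mem_nonunits_iff_or, inv_div]
    rintro (h2 | h2)
    · exact div_ne_zero u1 (pow_ne_zero _ hP0) h2
    · exact h2 u3
  have hg0 : Polynomial.aeval θ (ftop d q) ≠ 0 := by
    intro h2
    rw [h2, sub_zero] at hPt
    exact hunit hPt
  -- the derivative of the top part of `F`
  have hsep : (ftop n F).Separable := hF.irr.separable
  have hf' := hsep.aeval_derivative_ne_zero hθ0
  have hf'V : Polynomial.aeval θ (Polynomial.derivative (ftop n F)) ∈ V := val_alg hV (alg_aeval hθa _)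
  have hg'V : Polynomial.aeval θ (Polynomial.derivative (ftop d q)) ∈ V := val_alg hV (alg_aeval hθa _)
  have hdV : (d : Ω) ∈ V := natCast_mem V d
  have hnV : (n : Ω) ∈ V := natCast_mem V n
  have hd0 : (d : Ω) ≠ 0 := by
    haveI : CharZero Ω := charZero_of_injective_algebraMap (algebraMap k Ω).injective
    exact Nat.cast_ne_zero.2 (by omega)
  -- powers
  have hpow : ∀ Q ∈ S, (Q.1 / P.1) ^ d - 1 ∈ V.nonunits := by
    intro Q h
    obtain ⟨hQV, hQθ⟩ := hQ Q h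
    have hQ0 := hne _ hQV
    have h2 := (top_res hV hQV hθa hQθ (p := q) hd.ge).2
    obtain ⟨v1, v2, v3⟩ := top_unit hF hV (hS Q h).1 hQV hq0 hq
    rw [← hd] at v2 v3
    rw [hinv Q h] at h2 v1 v2 v3
    have h3 : (Q.1 / P.1) ^ d - 1 = Q.1 ^ d / aeval ![P.1, P.2] q *
        ((aeval ![P.1, P.2] q / P.1 ^ d - Polynomial.aeval θ (ftop d q)) -
          (aeval ![P.1, P.2] q / Q.1 ^ d - Polynomial.aeval θ (ftop d q))) := by
      have hP1 : P.1 ^ d ≠ 0 := pow_ne_zero _ hP0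
      have hQ1 : Q.1 ^ d ≠ 0 := pow_ne_zero _ hQ0
      rw [div_pow, sub_sub_sub_cancel_right, mul_sub, div_mul_div_comm, div_mul_div_comm,
        mul_comm (aeval ![P.1, P.2] q) (P.1 ^ d), mul_comm (aeval ![P.1, P.2] q) (Q.1 ^ d),
        mul_div_mul_right _ _ v1, div_self (mul_ne_zero hQ1 v1)]
    rw [h3]
    exact mulV v3 (sub_mem hPt h2)
  -- injectivity
  have hinj : ∀ Q ∈ S, ∀ R ∈ S, Q.1 / P.1 - R.1 / P.1 ∈ V.nonunits → Q = R := by
    intro Q hQS R hRS h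
    obtain ⟨hQV, hQθ⟩ := hQ Q hQS
    obtain ⟨hRV, hRθ⟩ := hQ R hRS
    have hQ0 := hne _ hQV
    have h2 : R.1 / Q.1 - 1 ∈ V.nonunits := by
      have h3 : R.1 / Q.1 - 1 = -(P.1 / Q.1 * (Q.1 / P.1 - R.1 / P.1)) := by
        field_simp
        ring
      rw [h3]
      exact V.nonunits.neg_mem (mulV (hrat Q hQS).1 h)
    obtain ⟨AF, BF, e1, e2, e3⟩ := dif hV hQV hθa h2 hQθ hRθ (d := n) (by have := hF.n3; omega) hF.deg
    obtain ⟨Aq, Bq, e4, e5, e6⟩ := dif hV hQV hθa h2 hQθ hRθ (d := d) (by omega) (p := q) hd.ge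
    rw [(hS Q hQS).1, (hS R hRS).1, sub_zero] at e1
    rw [hinv Q hQS, hinv R hRS, sub_self] at e4
    rw [hθ0, mul_zero, zero_sub] at e2
    have a1 : Aq / Q.1 ^ (d - 1) ∈ V := mem_of_sub e5 (V.toSubring.sub_mem (V.mul_mem _ _ hdV hgV) (V.mul_mem _ _ hθV hg'V))
    have a2 : AF / Q.1 ^ (n - 1) ∈ V := mem_of_sub e2 (V.toSubring.neg_mem (V.mul_mem _ _ hθV hf'V))
    have c1 := mcg e5 e3 a1 hf'V
    have c2 := mcg e2 e6 a2 hg'V
    have c3 := sub_mem c1 c2
    have c4 : Aq / Q.1 ^ (d - 1) * (BF / Q.1 ^ (n - 1)) - AF / Q.1 ^ (n - 1) * (Bq / Q.1 ^ (d - 1)) -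
        (d : Ω) * Polynomial.aeval θ (ftop d q) * Polynomial.aeval θ (Polynomial.derivative (ftop n F)) ∈ V.nonunits := by
      refine (congrArg (fun z => z ∈ V.nonunits) ?_).mp c3
      ring
    have c5 : (d : Ω) * Polynomial.aeval θ (ftop d q) * Polynomial.aeval θ (Polynomial.derivative (ftop n F)) ∉
        V.nonunits := by
      refine val_unit hV ?_ (mul_ne_zero (mul_ne_zero hd0 hg0) hf')
      have h4 : (d : Ω) * Polynomial.aeval θ (ftop d q) * Polynomial.aeval θ (Polynomial.derivative (ftop n F)) =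
          Polynomial.aeval θ ((d : Polynomial k) * ftop d q * Polynomial.derivative (ftop n F)) := by
        rw [map_mul, map_mul, map_natCast]
      rw [h4]
      exact alg_aeval hθa _
    have c6 := ne_zero_of_sub c4 c5
    have c7 := ne_zero_of_sub e3 (val_unit hV (alg_aeval hθa _) hf')
    have hBF : BF ≠ 0 := by
      rintro rfl
      exact c7 (zero_div _)
    have c8 : Aq * BF - AF * Bq ≠ 0 := by
      intro h4
      apply c6
      have h5 : Aq / Q.1 ^ (d - 1) * (BF / Q.1 ^ (n - 1)) - AF / Q.1 ^ (n - 1) * (Bq / Q.1 ^ (d - 1)) =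
          (Aq * BF - AF * Bq) / (Q.1 ^ (d - 1) * Q.1 ^ (n - 1)) := by
        field_simp
      rw [h5, h4, zero_div]
    have hx : Q.1 = R.1 := by
      have h4 : (Q.1 - R.1) * (Aq * BF - AF * Bq) = 0 := by
        linear_combination (-BF) * e4 + Bq * e1
      exact sub_eq_zero.1 ((mul_eq_zero.1 h4).resolve_right c8)
    have hy : Q.2 = R.2 := by
      rw [hx, sub_self, zero_mul, zero_add] at e1
      exact sub_eq_zero.1 ((mul_eq_zero.1 e1.symm).resolve_right hBF)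
    exact Prod.ext hx hy
  -- the residues
  obtain ⟨ρ, hρ⟩ : ∃ ρ : Ω × Ω → IsLocalRing.ResidueField V, ρ = fun Q =>
      if h : Q.1 / P.1 ∈ V then IsLocalRing.residue V ⟨Q.1 / P.1, h⟩ else 0 := ⟨_, rfl⟩
  have hρv : ∀ Q (h : Q ∈ S), ρ Q = IsLocalRing.residue V ⟨Q.1 / P.1, (hrat Q h).2⟩ := by
    intro Q h
    rw [hρ]
    exact dif_pos (hrat Q h).2
  have hres : ∀ a b : V, IsLocalRing.residue V a = IsLocalRing.residue V b ↔ (a : Ω) - b ∈ V.nonunits := by
    intro a b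
    rw [← sub_eq_zero, ← map_sub, IsLocalRing.residue_eq_zero_iff, ← V.coe_mem_nonunits_iff]
    rfl
  have hρinj : Set.InjOn ρ S := by
    intro Q h R h' he
    rw [hρv Q h, hρv R h', hres] at he
    exact hinj Q h R h' he
  rw [← hd, ← Finset.card_image_of_injOn hρinj]
  have hsub : S.image ρ ⊆ (Polynomial.nthRoots d (1 : IsLocalRing.ResidueField V)).toFinset := by
    intro z hz
    obtain ⟨Q, h, rfl⟩ := Finset.mem_image.1 hz
    rw [Multiset.mem_toFinset, Polynomial.mem_nthRoots (by omega), hρv Q h, ← map_pow,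
      ← map_one (IsLocalRing.residue V), hres]
    exact hpow Q h
  exact (Finset.card_le_card hsub).trans ((Multiset.toFinset_card_le _).trans (Polynomial.card_nthRoots _ _))

end Pool.Agent.H12.ON
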