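import Pool.Agent.H12.ON.Pai

/-! # [H12 ON MAI] THEOREM ONE

`E = max(E₁, E₂)`, `E₁` from `near_exists`, `E₂` from `pair`. For a subfield `K` of `ℝ` let `Exc K` be the set of `(F, H, θ, x, y)` with `Good n F`, `2 ≤ H`, coefficients `≤ H`, `F(x,y) = 0`, `H^E < max(|x|,|y|)`, `θ` a real zero of `ftop n F`, `Near θ x y`, `Subfield.closure {θ} = K`. If it is
not empty choose an element with minimal `H` (`Nat.find`), `FK K = F`, `PK K = ![x,y]`; otherwise anything. Let `F`, `H`, `P` be given with `¬ ∀ i, |P i| ≤ H^E`. Then `H^E < max(|P 0|,|P 1|)`; `near_exists`: `θ`; `K = closure {θ}`: `Exc K` is not empty, `(F_K, H_K, θ_K, P_K)` has `H_K ≤ H`, and `pair`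
(with `E₂ ≤ E`; `H^(E₂) ≤ H^E` by `Rel.mono`) gives `Rel (H^E) F_K F P_K P`. -/

namespace Pool.Agent.H12.ON

open MvPolynomial

/-- an exceptional point of a curve of height at most `H`, for the subfield `K` -/
private def Exc (n E : ℕ) (K : Subfield ℝ) (H : ℕ) (G : MvPolynomial (Fin 2) ℤ) (R : Fin 2 → ℤ) : Prop :=
  Good n G ∧ 2 ≤ H ∧ (∀ m, |G.coeff m| ≤ (H : ℤ)) ∧ ∃ (θ : ℝ) (x y : ℤ), R = ![x, y] ∧
    aeval ![x, y] G = (0 : ℤ) ∧ (H : ℤ) ^ E < max |x| |y| ∧ Polynomial.aeval θ (ftop n G) = 0 ∧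
    Near θ x y ∧ Subfield.closure {θ} = K

private theorem exc_min (n E : ℕ) (K : Subfield ℝ) : ∃ (G : MvPolynomial (Fin 2) ℤ) (R : Fin 2 → ℤ),
    ∀ (H : ℕ) (F : MvPolynomial (Fin 2) ℤ) (P : Fin 2 → ℤ), Exc n E K H F P →
      ∃ H₀ ≤ H, Exc n E K H₀ G R := by
  classical
  by_cases h : ∃ H, ∃ F P, Exc n E K H F P
  · obtain ⟨F, P, hFP⟩ := Nat.find_spec h
    exact ⟨F, P, fun H F' P' h' => ⟨Nat.find h, Nat.find_min' h ⟨F', P', h'⟩, hFP⟩⟩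
  · exact ⟨0, 0, fun H F' P' h' => absurd ⟨H, F', P', h'⟩ h⟩

theorem main (n : ℕ) (hn : 4 ≤ n) : ∃ (E : ℕ) (FK : Subfield ℝ → MvPolynomial (Fin 2) ℤ)
    (PK : Subfield ℝ → Fin 2 → ℤ), ∀ (F : MvPolynomial (Fin 2) ℤ) (H : ℕ), Good n F → 2 ≤ H →
    (∀ m, |F.coeff m| ≤ (H : ℤ)) → ∀ P : Fin 2 → ℤ, eval P F = 0 → (∀ i, |P i| ≤ (H : ℤ) ^ E) ∨
      ∃ θ : ℝ, Polynomial.aeval θ (ftop n F) = 0 ∧
        Rel (H ^ E) (FK (Subfield.closure {θ})) F (PK (Subfield.closure {θ})) P := by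
  obtain ⟨E₁, h₁⟩ := near_exists n (by omega)
  obtain ⟨E₂, h₂⟩ := pair n (by omega)
  choose FK PK hFK using exc_min n (max E₁ E₂)
  refine ⟨max E₁ E₂, FK, PK, fun F H hF hH hc P hP => ?_⟩
  by_cases hb : ∀ i, |P i| ≤ (H : ℤ) ^ (max E₁ E₂)
  · exact Or.inl hb
  right
  have hbig : (H : ℤ) ^ (max E₁ E₂) < max |P 0| |P 1| := by
    by_contra hcon
    push Not at hcon
    apply hb
    intro i
    fin_cases i
    · exact (le_max_left _ _).trans hcon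
    · exact (le_max_right _ _).trans hcon
  have hPe : P = ![P 0, P 1] := by
    funext i
    fin_cases i <;> rfl
  have hz : aeval ![P 0, P 1] F = (0 : ℤ) := by
    rw [← hPe, ← hP]
    exact congrArg (fun g : MvPolynomial (Fin 2) ℤ →+* ℤ => g F) (MvPolynomial.coe_aeval_eq_eval P)
  have hpow : ∀ (K : ℕ) (e : ℕ), 2 ≤ K → e ≤ max E₁ E₂ → (K : ℤ) ^ e ≤ (K : ℤ) ^ (max E₁ E₂) := by
    intro K e hK he
    refine pow_le_pow_right₀ ?_ he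
    have : (2 : ℤ) ≤ K := by exact_mod_cast hK
    linarith
  obtain ⟨_, _, θ, hθ, hnear⟩ := h₁ F H hF.deg hF.lead hH hc (P 0) (P 1) hz
    (lt_of_le_of_lt (hpow H E₁ hH (le_max_left _ _)) hbig)
  refine ⟨θ, hθ, ?_⟩
  obtain ⟨H₀, hH₀, hG, hH₀2, hGc, θ₀, x, y, hR, hGz, hGb, hGθ, hGn, hK⟩ :=
    hFK (Subfield.closure {θ}) H F P ⟨hF, hH, hc, θ, P 0, P 1, hPe, hz, hbig, hθ, hnear, rfl⟩
  have hrel := h₂ _ F H₀ H θ₀ θ x y (P 0) (P 1) hG hF hH₀2 hH₀ hGc hc hGθ hθ hK hGn hnear hGz hz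
    (lt_of_le_of_lt (hpow H₀ E₂ hH₀2 (le_max_right _ _)) hGb)
    (lt_of_le_of_lt (hpow H E₂ hH (le_max_right _ _)) hbig)
  rw [← hR, ← hPe] at hrel
  exact hrel.mono (Nat.pow_le_pow_right (by omega) (le_max_right _ _))

end Pool.Agent.H12.ON
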