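import Pool.Agent.H12.ON.Nd
import Pool.Agent.H12.ON.Deh
import Pool.Agent.H4.AR.ResL

/-! # [H12 ON NEA] Every large integer zero is near a real point at infinity

Direct proof. `f(1,T) = ftop n F` over `ℤ`, irreducible over `ℚ` of degree `n` (`Deh`), leading coefficient `c`, `|c| ≥ 1`. `F(x,y) = 0`: `|y| ≤ (n+1)^2 H max(|x|,1)`, so `|x| ≥ max(|x|,|y|)/((n+1)^2 H)`, in
particular `max(|x|,|y|) ≤ |x|²`. `z = y/x`, `|z| ≤ (n+1)^2 H`, `|f(1,z)| ≤ H^C/|x|`. The `n` complex zeros `θ_i` of `f(1,T)` are simple, `|θ_i| ≤ 2H`, `|θ_i - θ_j| ≥ H^(-C)` (discriminant: a nonzero integer;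
or resultant of `f, f'`). Let `θ_i` be the nearest zero: `|z - θ_j| ≥ H^(-C)/2` for `j ≠ i`, so `|z - θ_i| ≤ |f(1,z)| (2 H^C)^(n-1) ≤ H^(C')/|x|`, and `θ_i` is real (`z` is real; otherwise its conjugate is equally near
and `|θ_i - conj θ_i| ≤ 2 H^(C')/|x| < H^(-C)`). `(y - θ x)² = x² (z - θ)² ≤ H^(2C') ≤ |x|`.
The library has estimates of this kind (H15/SC, H15/FX, H45/SU, H97, H8/AW: zeros of integer polynomials, separation of roots); use them if they fit.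
Another proof (nonstandard, short): if the claim is false for every `E = N`, take sequences; in `Ult ℂ` with the valuation ring `{|z| ≤ r, r ∈ Q0 H}` `pt_inf` and `apx_root` give `θ` with `y - θ x` bounded by an element
of `Q0 H`; `θ` is real since `θ - conj θ` is algebraic over `Q0 H` and infinitesimal. -/

namespace Pool.Agent.H12.ON

open MvPolynomial

/-! ### Polynomial bounds -/

private def PB (g : ℕ → ℝ) : Prop := ∃ E : ℕ, ∀ H : ℕ, 2 ≤ H → 0 ≤ g H ∧ g H ≤ (H : ℝ) ^ E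

private theorem PB.const (c : ℕ) : PB (fun _ => (c : ℝ)) := by
  refine ⟨c, fun H hH => ⟨Nat.cast_nonneg _, ?_⟩⟩
  have h1 : c < 2 ^ c := Nat.lt_two_pow_self
  have h2 : 2 ^ c ≤ H ^ c := Nat.pow_le_pow_left hH c
  have h3 : c ≤ H ^ c := by omega
  show (c : ℝ) ≤ (H : ℝ) ^ c
  exact_mod_cast h3

private theorem PB.ident : PB (fun H => (H : ℝ)) :=
  ⟨1, fun H _ => ⟨Nat.cast_nonneg _, by rw [pow_one]⟩⟩

private theorem PB.add {f g : ℕ → ℝ} (hf : PB f) (hg : PB g) : PB (fun H => f H + g H) := by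
  obtain ⟨a, ha⟩ := hf
  obtain ⟨b, hb⟩ := hg
  refine ⟨a + b + 1, fun H hH => ⟨add_nonneg (ha H hH).1 (hb H hH).1, ?_⟩⟩
  have hH2 : (2 : ℝ) ≤ H := by exact_mod_cast hH
  have hH1 : (1 : ℝ) ≤ H := by linarith
  have h1 : (H : ℝ) ^ a ≤ (H : ℝ) ^ (a + b) := pow_le_pow_right₀ hH1 (by omega)
  have h2 : (H : ℝ) ^ b ≤ (H : ℝ) ^ (a + b) := pow_le_pow_right₀ hH1 (by omega)
  have h3 : 2 * (H : ℝ) ^ (a + b) ≤ (H : ℝ) ^ (a + b + 1) := by
    rw [pow_succ, mul_comm]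
    exact mul_le_mul_of_nonneg_left hH2 (by positivity)
  have := (ha H hH).2
  have := (hb H hH).2
  show f H + g H ≤ (H : ℝ) ^ (a + b + 1)
  linarith

private theorem PB.mul {f g : ℕ → ℝ} (hf : PB f) (hg : PB g) : PB (fun H => f H * g H) := by
  obtain ⟨a, ha⟩ := hf
  obtain ⟨b, hb⟩ := hg
  refine ⟨a + b, fun H hH => ⟨mul_nonneg (ha H hH).1 (hb H hH).1, ?_⟩⟩
  show f H * g H ≤ (H : ℝ) ^ (a + b)
  rw [pow_add]
  exact mul_le_mul (ha H hH).2 (hb H hH).2 (hb H hH).1 (by positivity)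

private theorem PB.pow {f : ℕ → ℝ} (hf : PB f) (k : ℕ) : PB (fun H => f H ^ k) := by
  obtain ⟨a, ha⟩ := hf
  refine ⟨a * k, fun H hH => ⟨pow_nonneg (ha H hH).1 _, ?_⟩⟩
  show f H ^ k ≤ (H : ℝ) ^ (a * k)
  rw [pow_mul]
  exact pow_le_pow_left₀ (ha H hH).1 (ha H hH).2 k

/-! ### Newton's method for a real zero -/

private theorem newt_pos (p : Polynomial ℝ) (z b δ : ℝ) (hδ : 0 ≤ δ)
    (h0 : 2 * |p.eval z| ≤ b * δ)
    (hder : ∀ s, |s - z| ≤ δ → |p.derivative.eval s - p.derivative.eval z| ≤ b / 2)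
    (hb' : b ≤ p.derivative.eval z) : ∃ θ, |θ - z| ≤ δ ∧ p.eval θ = 0 := by
  have hd : ∀ s ∈ Set.Icc (z - δ) (z + δ), b / 2 ≤ p.derivative.eval s := by
    intro s hs
    have h1 : |s - z| ≤ δ := by
      rw [abs_le]
      constructor <;> linarith [hs.1, hs.2]
    have h2 := (abs_le.1 (hder s h1)).1
    linarith
  have hmv := (convex_Icc (z - δ) (z + δ)).mul_sub_le_image_sub_of_le_deriv
    (f := fun s => p.eval s) p.continuous.continuousOn p.differentiable.differentiableOn (C := b / 2) (by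
      intro s hs
      rw [Polynomial.deriv]
      exact hd s (interior_subset hs))
  have h1 := hmv z ⟨by linarith, by linarith⟩ (z + δ) ⟨by linarith, by linarith⟩ (by linarith)
  have h2 := hmv (z - δ) ⟨by linarith, by linarith⟩ z ⟨by linarith, by linarith⟩ (by linarith)
  have h3 := abs_le.1 (le_refl |p.eval z|)
  have h5 : p.eval (z - δ) ≤ 0 := by nlinarith [h3.1, h3.2]
  have h6 : 0 ≤ p.eval (z + δ) := by nlinarith [h3.1, h3.2]
  obtain ⟨θ, hθ, hθ0⟩ := intermediate_value_Icc (f := fun s => p.eval s)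
    (by linarith : z - δ ≤ z + δ) p.continuous.continuousOn ⟨h5, h6⟩
  refine ⟨θ, ?_, hθ0⟩
  rw [abs_le]
  constructor <;> linarith [hθ.1, hθ.2]

private theorem newt (p : Polynomial ℝ) (z b δ : ℝ) (hδ : 0 ≤ δ)
    (h0 : 2 * |p.eval z| ≤ b * δ)
    (hder : ∀ s, |s - z| ≤ δ → |p.derivative.eval s - p.derivative.eval z| ≤ b / 2)
    (hb' : b ≤ |p.derivative.eval z|) : ∃ θ, |θ - z| ≤ δ ∧ p.eval θ = 0 := by
  rcases le_total 0 (p.derivative.eval z) with h | h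
  · rw [abs_of_nonneg h] at hb'
    exact newt_pos p z b δ hδ h0 hder hb'
  · rw [abs_of_nonpos h] at hb'
    obtain ⟨θ, h1, h2⟩ := newt_pos (-p) z b δ hδ (by
        rw [Polynomial.eval_neg, abs_neg]
        exact h0) (by
        intro s hs
        rw [Polynomial.derivative_neg, Polynomial.eval_neg, Polynomial.eval_neg]
        have h3 := hder s hs
        rw [abs_sub_comm] at h3
        have h4 : -Polynomial.eval s (Polynomial.derivative p) - -Polynomial.eval z (Polynomial.derivative p) =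
          Polynomial.eval z (Polynomial.derivative p) - Polynomial.eval s (Polynomial.derivative p) := by ring
        rw [h4]
        exact h3) (by
        rw [Polynomial.derivative_neg, Polynomial.eval_neg]
        exact hb')
    refine ⟨θ, h1, ?_⟩
    rw [Polynomial.eval_neg, neg_eq_zero] at h2
    exact h2

/-! ### The polynomial `ftop n F` -/

private theorem ftop_coeff {k : Type} [CommRing k] (n : ℕ) (F : MvPolynomial (Fin 2) k) (j : ℕ) :
    (ftop n F).coeff j =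
      if j < n + 1 then F.coeff (Finsupp.single 0 (n - j) + Finsupp.single 1 j) else 0 := by
  unfold ftop
  rw [Polynomial.finsetSum_coeff]
  simp only [Polynomial.coeff_monomial]
  rw [Finset.sum_ite_eq' (Finset.range (n + 1)) j]
  simp only [Finset.mem_range]

private theorem ftop_natDegree {k : Type} [CommRing k] (n : ℕ) (F : MvPolynomial (Fin 2) k) :
    (ftop n F).natDegree ≤ n := by
  rw [Polynomial.natDegree_le_iff_coeff_eq_zero]
  intro j hj
  rw [ftop_coeff, if_neg (by omega)]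

private theorem ftop_map {k l : Type} [CommRing k] [CommRing l] (f : k →+* l) (n : ℕ)
    (F : MvPolynomial (Fin 2) k) : ftop n (map f F) = (ftop n F).map f := by
  ext j
  rw [Polynomial.coeff_map, ftop_coeff, ftop_coeff]
  split_ifs
  · rw [coeff_map]
  · rw [map_zero]

private theorem hc_map {k l : Type} [CommRing k] [CommRing l] (f : k →+* l) (n : ℕ)
    (F : MvPolynomial (Fin 2) k) :
    homogeneousComponent n (map f F) = map f (homogeneousComponent n F) := by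
  ext m
  rw [coeff_homogeneousComponent, coeff_map, coeff_map, coeff_homogeneousComponent]
  split_ifs
  · rfl
  · rw [map_zero]

/-- decomposition of the value -/
private theorem val_split (n : ℕ) (F : MvPolynomial (Fin 2) ℤ) (x y : ℤ) :
    aeval ![x, y] F = (∑ j ∈ Finset.range (n + 1), (ftop n F).coeff j * (x ^ (n - j) * y ^ j)) +
      ∑ m ∈ F.support.filter (fun m => ¬ (m 0 + m 1 = n)), F.coeff m * (x ^ (m 0) * y ^ (m 1)) := by
  rw [aeval_def, eval₂_eq']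
  simp only [Fin.prod_univ_two, Matrix.cons_val_zero, Matrix.cons_val_one, algebraMap_int_eq, eq_intCast, Int.cast_id]
  rw [← Finset.sum_filter_add_sum_filter_not F.support (fun m => m 0 + m 1 = n)]
  congr 1
  symm
  have h1 : ∀ j ∈ Finset.range (n + 1), (ftop n F).coeff j * (x ^ (n - j) * y ^ j) =
      F.coeff (Finsupp.single 0 (n - j) + Finsupp.single 1 j) * (x ^ (n - j) * y ^ j) := by
    intro j hj
    rw [ftop_coeff, if_pos (Finset.mem_range.1 hj)]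
  rw [Finset.sum_congr rfl h1]
  have h2 : ∀ j, (Finsupp.single 0 (n - j) + Finsupp.single 1 j : Fin 2 →₀ ℕ) 0 = n - j := by
    intro j; simp
  have h3 : ∀ j, (Finsupp.single 0 (n - j) + Finsupp.single 1 j : Fin 2 →₀ ℕ) 1 = j := by
    intro j; simp
  refine Finset.sum_bij_ne_zero (fun j _ _ => Finsupp.single 0 (n - j) + Finsupp.single 1 j) ?_ ?_ ?_ ?_
  · intro j hj hne
    rw [Finset.mem_filter, mem_support_iff, h2, h3]
    refine ⟨fun h0 => hne (by rw [h0, zero_mul]), ?_⟩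
    have := Finset.mem_range.1 hj
    omega
  · intro a _ _ b _ _ hab
    have := congrArg (fun m => m 1) hab
    simpa using this
  · intro m hm hne
    rw [Finset.mem_filter] at hm
    have h4 : (Finsupp.single 0 (n - m 1) + Finsupp.single 1 (m 1) : Fin 2 →₀ ℕ) = m := by
      ext i
      fin_cases i
      · have := hm.2
        simp
        omega
      · simp
    refine ⟨m 1, Finset.mem_range.2 (by have := hm.2; omega), ?_, h4⟩
    rw [h4]
    have h5 : n - m 1 = m 0 := by have := hm.2; omega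
    rw [h5]
    exact hne
  · intro j hj hne
    rw [h2, h3]


private theorem tot_le {n : ℕ} {F : MvPolynomial (Fin 2) ℤ} (hF : F.totalDegree ≤ n) {m : Fin 2 →₀ ℕ}
    (hm : m ∈ F.support) : m 0 + m 1 ≤ n := by
  have h1 := le_totalDegree hm
  rw [Finsupp.sum_fintype _ _ (fun _ => rfl), Fin.sum_univ_two] at h1
  exact h1.trans hF

private theorem supp_card {n : ℕ} {F : MvPolynomial (Fin 2) ℤ} (hF : F.totalDegree ≤ n) :
    F.support.card ≤ (n + 1) ^ 2 := by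
  have h1 : (Finset.range (n + 1) ×ˢ Finset.range (n + 1)).card = (n + 1) ^ 2 := by
    rw [Finset.card_product, Finset.card_range, sq]
  rw [← h1]
  refine Finset.card_le_card_of_injOn (fun m => (m 0, m 1)) ?_ ?_
  · intro m hm
    have h2 := tot_le hF hm
    have h3 : m 0 < n + 1 := by omega
    have h4 : m 1 < n + 1 := by omega
    simp only [Finset.coe_product, Finset.coe_range, Set.mem_prod, Set.mem_Iio]
    exact ⟨h3, h4⟩
  · intro a _ b _ hab
    have h2 := congrArg Prod.fst hab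
    have h3 := congrArg Prod.snd hab
    ext i
    fin_cases i
    · exact h2
    · exact h3

private theorem rest_le {n H : ℕ} {F : MvPolynomial (Fin 2) ℤ} (hF : F.totalDegree ≤ n)
    (hH : ∀ m, |F.coeff m| ≤ (H : ℤ)) {x y : ℤ} {X : ℝ} (hX : 1 ≤ X) (hx : |(x : ℝ)| ≤ X)
    (hy : |(y : ℝ)| ≤ X) :
    |((∑ m ∈ F.support.filter (fun m => ¬ (m 0 + m 1 = n)), F.coeff m * (x ^ (m 0) * y ^ (m 1)) : ℤ) : ℝ)| ≤
      ((n + 1) ^ 2 : ℕ) * H * X ^ (n - 1) := by
  push_cast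
  have hX0 : 0 ≤ X := by linarith
  have h1 : ∀ m ∈ F.support.filter (fun m => ¬ (m 0 + m 1 = n)),
      |((F.coeff m : ℤ) : ℝ) * ((x : ℝ) ^ (m 0) * (y : ℝ) ^ (m 1))| ≤ H * X ^ (n - 1) := by
    intro m hm
    rw [Finset.mem_filter] at hm
    have h2 := tot_le hF hm.1
    have h3 := hm.2
    rw [abs_mul, abs_mul, abs_pow, abs_pow]
    have h4 : |((F.coeff m : ℤ) : ℝ)| ≤ H := by
      have := hH m
      have h5 : ((|F.coeff m| : ℤ) : ℝ) ≤ ((H : ℤ) : ℝ) := by exact_mod_cast this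
      rw [Int.cast_abs] at h5
      exact_mod_cast h5
    have h5 : |(x : ℝ)| ^ (m 0) * |(y : ℝ)| ^ (m 1) ≤ X ^ (m 0) * X ^ (m 1) :=
      mul_le_mul (pow_le_pow_left₀ (abs_nonneg _) hx _) (pow_le_pow_left₀ (abs_nonneg _) hy _)
        (by positivity) (by positivity)
    have h6 : X ^ (m 0) * X ^ (m 1) ≤ X ^ (n - 1) := by
      rw [← pow_add]
      exact pow_le_pow_right₀ hX (by omega)
    exact mul_le_mul h4 (h5.trans h6) (by positivity) (Nat.cast_nonneg _)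
  refine (Finset.abs_sum_le_sum_abs _ _).trans ((Finset.sum_le_sum h1).trans ?_)
  rw [Finset.sum_const, nsmul_eq_mul, mul_assoc]
  refine mul_le_mul_of_nonneg_right ?_ (by positivity)
  exact_mod_cast (Finset.card_filter_le _ _).trans (supp_card hF)

private theorem ftop_bd {n H : ℕ} {F : MvPolynomial (Fin 2) ℤ}
    (hH : ∀ m, |F.coeff m| ≤ (H : ℤ)) (j : ℕ) : |(ftop n F).coeff j| ≤ (H : ℤ) := by
  rw [ftop_coeff]
  split_ifs
  · exact hH _
  · rw [abs_zero]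
    positivity

/-- evaluation of integer polynomials, dehomogenised -/
private theorem hom_eval {K : Type} [Field K] (n : ℕ) (g : Polynomial ℤ) (hg : g.natDegree ≤ n) (u v : K)
    (hv : v ≠ 0) : ∑ j ∈ Finset.range (n + 1), ((g.coeff j : ℤ) : K) * u ^ j * v ^ (n - j) =
      v ^ n * (g.map (Int.castRingHom K)).eval (u / v) := by
  have h1 : (g.map (Int.castRingHom K)).natDegree < n + 1 :=
    lt_of_le_of_lt Polynomial.natDegree_map_le (by omega)
  rw [Polynomial.eval_eq_sum_range' h1, Finset.mul_sum]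
  refine Finset.sum_congr rfl fun j hj => ?_
  have h2 : j ≤ n := by
    have := Finset.mem_range.1 hj
    omega
  rw [Polynomial.coeff_map, eq_intCast, div_pow]
  have h3 : v ^ n = v ^ (n - j) * v ^ j := by
    rw [← pow_add]
    congr 1
    omega
  rw [h3]
  field_simp

/-- the first step: `x` is not small -/
private theorem stepA {n H : ℕ} (hn : 3 ≤ n) (hH2 : 2 ≤ H) {c : ℕ → ℤ} (hc : ∀ j, |c j| ≤ (H : ℤ))
    (hcn : c n ≠ 0) {x y : ℤ} {X : ℝ} (hX : X = max |(x : ℝ)| |(y : ℝ)|)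
    (hXZ : ((n + (n + 1) ^ 2 : ℕ) : ℝ) * H < X)
    (hf : |((∑ j ∈ Finset.range (n + 1), c j * (x ^ (n - j) * y ^ j) : ℤ) : ℝ)| ≤
      ((n + 1) ^ 2 : ℕ) * H * X ^ (n - 1)) :
    x ≠ 0 ∧ X ≤ ((n + (n + 1) ^ 2 : ℕ) : ℝ) * H * |(x : ℝ)| := by
  have hHr : (2 : ℝ) ≤ H := by exact_mod_cast hH2
  have hnr : (3 : ℝ) ≤ n := by exact_mod_cast hn
  have hZ1 : (1 : ℝ) ≤ ((n + (n + 1) ^ 2 : ℕ) : ℝ) * H := by
    push_cast
    nlinarith
  have hX1 : 1 < X := by linarith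
  have hx : |(x : ℝ)| ≤ X := hX ▸ le_max_left _ _
  have hy : |(y : ℝ)| ≤ X := hX ▸ le_max_right _ _
  rcases le_total |(y : ℝ)| |(x : ℝ)| with h | h
  · rw [max_eq_left h] at hX
    refine ⟨?_, ?_⟩
    · rintro rfl
      rw [hX] at hX1
      simp at hX1
      linarith
    · rw [← hX]
      nlinarith
  · rw [max_eq_right h] at hX
    have hX0 : 0 < X := by linarith
    have hcn1 : (1 : ℝ) ≤ |((c n : ℤ) : ℝ)| := by
      have := Int.one_le_abs hcn
      exact_mod_cast this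
    have hcr : ∀ j, |((c j : ℤ) : ℝ)| ≤ H := by
      intro j
      have h5 : ((|c j| : ℤ) : ℝ) ≤ ((H : ℤ) : ℝ) := by exact_mod_cast hc j
      rw [Int.cast_abs] at h5
      exact_mod_cast h5
    rw [Finset.sum_range_succ] at hf
    push_cast at hf
    have h1 : |∑ j ∈ Finset.range n, ((c j : ℤ) : ℝ) * ((x : ℝ) ^ (n - j) * (y : ℝ) ^ j)| ≤
        n * (H * (|(x : ℝ)| * X ^ (n - 1))) := by
      have h2 : ∀ j ∈ Finset.range n, |((c j : ℤ) : ℝ) * ((x : ℝ) ^ (n - j) * (y : ℝ) ^ j)| ≤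
          H * (|(x : ℝ)| * X ^ (n - 1)) := by
        intro j hj
        have hj' := Finset.mem_range.1 hj
        rw [abs_mul, abs_mul, abs_pow, abs_pow]
        refine mul_le_mul (hcr j) ?_ (by positivity) (Nat.cast_nonneg _)
        have h3 : |(x : ℝ)| ^ (n - j) = |(x : ℝ)| * |(x : ℝ)| ^ (n - j - 1) := by
          rw [← pow_succ']
          congr 1
          omega
        have h4 : X ^ (n - 1) = X ^ (n - j - 1) * X ^ j := by
          rw [← pow_add]
          congr 1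
          omega
        rw [h3, h4, mul_assoc]
        refine mul_le_mul_of_nonneg_left ?_ (abs_nonneg _)
        exact mul_le_mul (pow_le_pow_left₀ (abs_nonneg _) hx _) (pow_le_pow_left₀ (abs_nonneg _) hy _)
          (by positivity) (by positivity)
      refine (Finset.abs_sum_le_sum_abs _ _).trans ((Finset.sum_le_sum h2).trans ?_)
      rw [Finset.sum_const, Finset.card_range, nsmul_eq_mul]
    have h2 : X ^ n ≤ |((c n : ℤ) : ℝ) * ((x : ℝ) ^ (n - n) * (y : ℝ) ^ n)| := by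
      rw [Nat.sub_self, pow_zero, one_mul, abs_mul, abs_pow, ← hX]
      have : 0 ≤ X ^ n := by positivity
      nlinarith
    have h3 : |((c n : ℤ) : ℝ) * ((x : ℝ) ^ (n - n) * (y : ℝ) ^ n)| ≤
        ((n + 1) ^ 2 : ℕ) * H * X ^ (n - 1) + n * (H * (|(x : ℝ)| * X ^ (n - 1))) := by
      set s := ∑ j ∈ Finset.range n, ((c j : ℤ) : ℝ) * ((x : ℝ) ^ (n - j) * (y : ℝ) ^ j)
      set t := ((c n : ℤ) : ℝ) * ((x : ℝ) ^ (n - n) * (y : ℝ) ^ n)
      have h4 : |t| ≤ |s + t| + |s| := by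
        have h5 : t = (s + t) - s := by ring
        calc |t| = |(s + t) - s| := by rw [← h5]
          _ ≤ |s + t| + |s| := abs_sub _ _
      push_cast
      linarith
    have h4 : X ^ n = X ^ (n - 1) * X := by
      rw [← pow_succ]
      congr 1
      omega
    have h5 : X ^ (n - 1) * X ≤ X ^ (n - 1) * (((n + 1) ^ 2 : ℕ) * H + n * (H * |(x : ℝ)|)) := by
      rw [← h4]
      refine h2.trans (h3.trans (le_of_eq ?_))
      ring
    have h6 : X ≤ ((n + 1) ^ 2 : ℕ) * H + n * (H * |(x : ℝ)|) :=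
      le_of_mul_le_mul_left h5 (by positivity)
    have hx0 : x ≠ 0 := by
      rintro rfl
      simp only [Int.cast_zero, abs_zero, mul_zero, add_zero] at h6
      push_cast at h6 hXZ
      nlinarith
    refine ⟨hx0, h6.trans ?_⟩
    have hx1 : (1 : ℝ) ≤ |(x : ℝ)| := by
      have := Int.one_le_abs hx0
      exact_mod_cast this
    push_cast
    have h7 : 0 ≤ ((n : ℝ) + 1) ^ 2 * H := by positivity
    nlinarith


private theorem der_coeff {n H : ℕ} (p : Polynomial ℤ) (hp : p.natDegree ≤ n)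
    (hH : ∀ j, |p.coeff j| ≤ (H : ℤ)) (j : ℕ) : |p.derivative.coeff j| ≤ ((n * H : ℕ) : ℤ) := by
  rw [Polynomial.coeff_derivative]
  by_cases hj : j + 1 ≤ n
  · rw [abs_mul]
    have h1 : |((j : ℤ) + 1)| ≤ n := by
      rw [abs_of_nonneg (by positivity)]
      exact_mod_cast hj
    have h2 := mul_le_mul (hH (j + 1)) h1 (abs_nonneg _) (by positivity)
    push_cast
    rw [mul_comm (n : ℤ)]
    exact h2
  · rw [Polynomial.coeff_eq_zero_of_natDegree_lt (by omega), zero_mul, abs_zero]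
    positivity

private theorem der_deg {n : ℕ} (p : Polynomial ℤ) (hp : p.natDegree ≤ n) : p.derivative.natDegree ≤ n :=
  (Polynomial.natDegree_derivative_le p).trans (by omega)

/-- the variation of the derivative -/
private theorem var_der {n H : ℕ} (p : Polynomial ℤ) (hp : p.natDegree ≤ n)
    (hH : ∀ j, |p.coeff j| ≤ (H : ℤ)) {Z s z : ℝ} (hZ : 1 ≤ Z) (hs : |s| ≤ Z + 1) (hz : |z| ≤ Z + 1) :
    |(p.map (Int.castRingHom ℝ)).derivative.eval s - (p.map (Int.castRingHom ℝ)).derivative.eval z| ≤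
      ((n + 1 : ℕ) : ℝ) * (((n * H : ℕ) : ℝ) * (n * (Z + 1) ^ n)) * |s - z| := by
  have hd := der_deg p hp
  have h1 : (p.derivative.map (Int.castRingHom ℝ)).natDegree < n + 1 :=
    lt_of_le_of_lt Polynomial.natDegree_map_le (by omega)
  rw [Polynomial.derivative_map, Polynomial.eval_eq_sum_range' h1, Polynomial.eval_eq_sum_range' h1,
    ← Finset.sum_sub_distrib]
  have h2 : ∀ j ∈ Finset.range (n + 1),
      |(p.derivative.map (Int.castRingHom ℝ)).coeff j * s ^ j -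
        (p.derivative.map (Int.castRingHom ℝ)).coeff j * z ^ j| ≤
      ((n * H : ℕ) : ℝ) * (n * (Z + 1) ^ n) * |s - z| := by
    intro j hj
    have hj' := Finset.mem_range.1 hj
    rw [← mul_sub, abs_mul, Polynomial.coeff_map, eq_intCast]
    have h3 : |((p.derivative.coeff j : ℤ) : ℝ)| ≤ ((n * H : ℕ) : ℝ) := by
      have h5 : ((|p.derivative.coeff j| : ℤ) : ℝ) ≤ (((n * H : ℕ) : ℤ) : ℝ) := by
        exact_mod_cast der_coeff p hp hH j
      rw [Int.cast_abs] at h5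
      exact_mod_cast h5
    have h4 : |s ^ j - z ^ j| ≤ (n * (Z + 1) ^ n) * |s - z| := by
      refine (abs_pow_sub_pow_le s z j).trans ?_
      have h6 : max |s| |z| ^ (j - 1) ≤ (Z + 1) ^ n :=
        (pow_le_pow_left₀ (le_max_of_le_left (abs_nonneg _)) (max_le hs hz) _).trans
          (pow_le_pow_right₀ (by linarith) (by omega))
      have h7 : (j : ℝ) ≤ n := by exact_mod_cast (by omega : j ≤ n)
      have h8 : (j : ℝ) * max |s| |z| ^ (j - 1) ≤ n * (Z + 1) ^ n :=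
        mul_le_mul h7 h6 (pow_nonneg (le_max_of_le_left (abs_nonneg _)) _) (Nat.cast_nonneg _)
      calc |s - z| * (j : ℝ) * max |s| |z| ^ (j - 1) = ((j : ℝ) * max |s| |z| ^ (j - 1)) * |s - z| := by ring
        _ ≤ (n * (Z + 1) ^ n) * |s - z| := mul_le_mul_of_nonneg_right h8 (abs_nonneg _)
    calc |((p.derivative.coeff j : ℤ) : ℝ)| * |s ^ j - z ^ j|
        ≤ ((n * H : ℕ) : ℝ) * ((n * (Z + 1) ^ n) * |s - z|) :=
          mul_le_mul h3 h4 (abs_nonneg _) (Nat.cast_nonneg _)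
      _ = ((n * H : ℕ) : ℝ) * (n * (Z + 1) ^ n) * |s - z| := by ring
  refine (Finset.abs_sum_le_sum_abs _ _).trans ((Finset.sum_le_sum h2).trans (le_of_eq ?_))
  rw [Finset.sum_const, Finset.card_range, nsmul_eq_mul]
  ring

private theorem sum_le_M {n : ℕ} {A : Fin n → ℤ} {B z Z : ℝ} (hB : 0 ≤ B) (hA : ∀ i, |((A i : ℤ) : ℝ)| ≤ B)
    (hZ : 1 ≤ Z) (hz : |z| ≤ Z) : |∑ i : Fin n, ((A i : ℤ) : ℝ) * z ^ (i : ℕ)| ≤ n * B * Z ^ (n - 1) := by
  have h2 : ∀ i ∈ (Finset.univ : Finset (Fin n)), |((A i : ℤ) : ℝ) * z ^ (i : ℕ)| ≤ B * Z ^ (n - 1) := by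
    intro i _
    have hi := i.2
    rw [abs_mul, abs_pow]
    exact mul_le_mul (hA i) ((pow_le_pow_left₀ (abs_nonneg _) hz _).trans
      (pow_le_pow_right₀ hZ (by omega))) (by positivity) hB
  refine (Finset.abs_sum_le_sum_abs _ _).trans ((Finset.sum_le_sum h2).trans (le_of_eq ?_))
  rw [Finset.sum_const, Finset.card_univ, Fintype.card_fin, nsmul_eq_mul]
  ring

private theorem bez {n : ℕ} (hn : 1 ≤ n) : ∃ c : ℕ, 1 ≤ c ∧ ∀ (p : Polynomial ℤ) (H : ℕ), 1 ≤ H →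
    p.natDegree ≤ n → p.coeff n ≠ 0 → (∀ j, |p.coeff j| ≤ (H : ℤ)) →
    (p.map (Int.castRingHom ℂ)).Separable → ∀ (x y : ℤ) (Z : ℝ), 1 ≤ Z → x ≠ 0 → |(y : ℝ) / x| ≤ Z →
    1 ≤ (n * ((c * (n * H) : ℝ) ^ c) * Z ^ (n - 1)) *
      (|(p.map (Int.castRingHom ℝ)).eval ((y : ℝ) / x)| +
        |(p.map (Int.castRingHom ℝ)).derivative.eval ((y : ℝ) / x)|) := by
  obtain ⟨c, hc, hres⟩ := H4AR.res_forms n hn
  refine ⟨c, hc, ?_⟩
  intro p H hH hp hpn hpH hsep x y Z hZ hx hz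
  have hd := der_deg p hp
  have hzero : ∀ z w : ℂ, ∑ i : Fin (n + 1), ((p.coeff i : ℤ) : ℂ) * z ^ (i : ℕ) * w ^ (n - i) = 0 →
      ∑ i : Fin (n + 1), ((p.derivative.coeff i : ℤ) : ℂ) * z ^ (i : ℕ) * w ^ (n - i) = 0 →
      z = 0 ∧ w = 0 := by
    intro z w h1 h2
    rw [Fin.sum_univ_eq_sum_range (fun i => ((p.coeff i : ℤ) : ℂ) * z ^ i * w ^ (n - i))] at h1
    rw [Fin.sum_univ_eq_sum_range (fun i => ((p.derivative.coeff i : ℤ) : ℂ) * z ^ i * w ^ (n - i))] at h2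
    by_cases hw : w = 0
    · refine ⟨?_, hw⟩
      rw [hw, Finset.sum_range_succ, Finset.sum_eq_zero, zero_add, Nat.sub_self, pow_zero, mul_one] at h1
      · rcases mul_eq_zero.1 h1 with h3 | h3
        · exact absurd (by exact_mod_cast h3) hpn
        · exact pow_eq_zero_iff (by omega) |>.1 h3
      · intro i hi
        have := Finset.mem_range.1 hi
        rw [zero_pow (by omega), mul_zero]
    · exfalso
      rw [hom_eval n p hp z w hw] at h1
      rw [hom_eval n p.derivative hd z w hw] at h2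
      have hwn : w ^ n ≠ 0 := pow_ne_zero _ hw
      have h3 := (mul_eq_zero.1 h1).resolve_left hwn
      have h4 := (mul_eq_zero.1 h2).resolve_left hwn
      obtain ⟨a, b, hab⟩ := hsep
      have h5 := congrArg (Polynomial.eval (z / w)) hab
      rw [Polynomial.eval_add, Polynomial.eval_mul, Polynomial.eval_mul, Polynomial.derivative_map, h3, h4,
        mul_zero, mul_zero, add_zero, Polynomial.eval_one] at h5
      exact zero_ne_one h5
  obtain ⟨R, A, B, A', B', hR, -, -, hA', hB', hid⟩ := hres (fun i => p.coeff i)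
    (fun i => p.derivative.coeff i) (n * H) (Nat.mul_pos hn hH) (fun i => by
      have h1 := hpH i
      have h2 : (H : ℤ) ≤ ((n * H : ℕ) : ℤ) := by
        exact_mod_cast Nat.le_mul_of_pos_left H hn
      exact h1.trans h2) (fun i => der_coeff p hp hpH i) hzero
  have hid2 := (hid y x).2
  have hxr : (x : ℝ) ≠ 0 := by exact_mod_cast hx
  have hidr : (R : ℝ) * (x : ℝ) ^ (2 * n - 1) =
      (∑ i : Fin n, ((A' i : ℤ) : ℝ) * (y : ℝ) ^ (i : ℕ) * (x : ℝ) ^ (n - 1 - i)) *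
        (∑ i : Fin (n + 1), ((p.coeff i : ℤ) : ℝ) * (y : ℝ) ^ (i : ℕ) * (x : ℝ) ^ (n - i)) +
      (∑ i : Fin n, ((B' i : ℤ) : ℝ) * (y : ℝ) ^ (i : ℕ) * (x : ℝ) ^ (n - 1 - i)) *
        (∑ i : Fin (n + 1), ((p.derivative.coeff i : ℤ) : ℝ) * (y : ℝ) ^ (i : ℕ) * (x : ℝ) ^ (n - i)) := by
    exact_mod_cast hid2
  rw [Fin.sum_univ_eq_sum_range (fun i => ((p.coeff i : ℤ) : ℝ) * (y : ℝ) ^ i * (x : ℝ) ^ (n - i)),
    Fin.sum_univ_eq_sum_range (fun i => ((p.derivative.coeff i : ℤ) : ℝ) * (y : ℝ) ^ i * (x : ℝ) ^ (n - i)),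
    hom_eval n p hp _ _ hxr, hom_eval n p.derivative hd _ _ hxr] at hidr
  have hA2 : ∀ A : Fin n → ℤ, ∑ i : Fin n, ((A i : ℤ) : ℝ) * (y : ℝ) ^ (i : ℕ) * (x : ℝ) ^ (n - 1 - i) =
      (x : ℝ) ^ (n - 1) * ∑ i : Fin n, ((A i : ℤ) : ℝ) * ((y : ℝ) / x) ^ (i : ℕ) := by
    intro A
    rw [Finset.mul_sum]
    refine Finset.sum_congr rfl fun i _ => ?_
    have hi := i.2
    rw [div_pow]
    have h3 : (x : ℝ) ^ (n - 1) = (x : ℝ) ^ (n - 1 - (i : ℕ)) * (x : ℝ) ^ (i : ℕ) := by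
      rw [← pow_add]
      congr 1
      omega
    rw [h3]
    field_simp
  rw [hA2, hA2, ← Polynomial.derivative_map] at hidr
  set P := (p.map (Int.castRingHom ℝ)).eval ((y : ℝ) / x) with hP
  set P' := (p.map (Int.castRingHom ℝ)).derivative.eval ((y : ℝ) / x) with hP'
  set a := ∑ i : Fin n, ((A' i : ℤ) : ℝ) * ((y : ℝ) / x) ^ (i : ℕ) with ha
  set b := ∑ i : Fin n, ((B' i : ℤ) : ℝ) * ((y : ℝ) / x) ^ (i : ℕ) with hb
  have hRe : (R : ℝ) = a * P + b * P' := by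
    have h3 : (x : ℝ) ^ (2 * n - 1) = (x : ℝ) ^ (n - 1) * (x : ℝ) ^ n := by
      rw [← pow_add]
      congr 1
      omega
    have h4 : (R : ℝ) * (x : ℝ) ^ (2 * n - 1) = (a * P + b * P') * (x : ℝ) ^ (2 * n - 1) := by
      rw [hidr, h3]
      ring
    exact mul_right_cancel₀ (pow_ne_zero _ hxr) h4
  have hbd : ∀ k : ℤ, |k| ≤ ((c : ℤ) * (n * H : ℕ)) ^ c → |((k : ℤ) : ℝ)| ≤ (c * (n * H) : ℝ) ^ c := by
    intro k hk
    have h5 : ((|k| : ℤ) : ℝ) ≤ ((((c : ℤ) * (n * H : ℕ)) ^ c : ℤ) : ℝ) := by exact_mod_cast hk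
    rw [Int.cast_abs] at h5
    push_cast at h5
    exact h5
  have hB0 : (0 : ℝ) ≤ (c * (n * H) : ℝ) ^ c := by positivity
  have ha1 : |a| ≤ n * (c * (n * H) : ℝ) ^ c * Z ^ (n - 1) :=
    sum_le_M hB0 (fun i => hbd _ (hA' i)) hZ hz
  have hb1 : |b| ≤ n * (c * (n * H) : ℝ) ^ c * Z ^ (n - 1) :=
    sum_le_M hB0 (fun i => hbd _ (hB' i)) hZ hz
  have hR1 : (1 : ℝ) ≤ |(R : ℝ)| := by
    have := Int.one_le_abs hR
    exact_mod_cast this
  rw [hRe] at hR1
  refine hR1.trans ((abs_add_le _ _).trans ?_)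
  rw [abs_mul, abs_mul, mul_add]
  exact add_le_add (mul_le_mul_of_nonneg_right ha1 (abs_nonneg _))
    (mul_le_mul_of_nonneg_right hb1 (abs_nonneg _))


/-- the analytic core: a real zero near `y/x` -/
private theorem core {n H : ℕ} (p : Polynomial ℤ) (hp : p.natDegree ≤ n)
    (hH : ∀ j, |p.coeff j| ≤ (H : ℤ)) {x y : ℤ} (hx : x ≠ 0) {Z M P1 P3 : ℝ} (hZ : 1 ≤ Z) (hM : 0 < M)
    (hP1 : 0 ≤ P1) (hP3 : P3 = ((n + 1 : ℕ) : ℝ) * (((n * H : ℕ) : ℝ) * (n * (Z + 1) ^ n)))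
    (hz : |(y : ℝ) / x| ≤ Z) (hp1 : |(p.map (Int.castRingHom ℝ)).eval ((y : ℝ) / x)| ≤ P1 / |(x : ℝ)|)
    (hbez : 1 ≤ M * (|(p.map (Int.castRingHom ℝ)).eval ((y : ℝ) / x)| +
        |(p.map (Int.castRingHom ℝ)).derivative.eval ((y : ℝ) / x)|))
    (h1 : 4 * M * P1 ≤ |(x : ℝ)|) (h2 : 16 * M ^ 2 * P1 * P3 ≤ |(x : ℝ)|)
    (h3 : 16 * M ^ 2 * P1 ^ 2 ≤ |(x : ℝ)|) :
    ∃ θ : ℝ, (p.map (Int.castRingHom ℝ)).eval θ = 0 ∧ ((y : ℝ) - θ * x) ^ 2 ≤ |(x : ℝ)| := by
  have hxr : (x : ℝ) ≠ 0 := by exact_mod_cast hx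
  have hxp : 0 < |(x : ℝ)| := abs_pos.2 hxr
  set z := (y : ℝ) / x with hzdef
  have hP30 : 0 ≤ P3 := by
    rw [hP3]
    positivity
  have h4 : M * |(p.map (Int.castRingHom ℝ)).eval z| ≤ 1 / 4 := by
    refine (mul_le_mul_of_nonneg_left hp1 hM.le).trans ?_
    rw [← mul_div_assoc, div_le_iff₀ hxp]
    linarith
  have h5 : 1 / (2 * M) ≤ |(p.map (Int.castRingHom ℝ)).derivative.eval z| := by
    rw [div_le_iff₀ (by positivity)]
    nlinarith
  have hδ0 : 0 ≤ 4 * M * P1 / |(x : ℝ)| := by positivity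
  have hδ1 : 4 * M * P1 / |(x : ℝ)| ≤ 1 := by
    rw [div_le_one hxp]
    exact h1
  obtain ⟨θ, hθ, hθ0⟩ := newt (p.map (Int.castRingHom ℝ)) z (1 / (2 * M)) (4 * M * P1 / |(x : ℝ)|) hδ0 (by
      have h6 : 1 / (2 * M) * (4 * M * P1 / |(x : ℝ)|) = 2 * (P1 / |(x : ℝ)|) := by
        field_simp
        ring
      rw [h6]
      linarith) (by
      intro s hs
      have hs1 : |s| ≤ Z + 1 := by
        have h7 : s = z + (s - z) := by ring
        calc |s| = |z + (s - z)| := by rw [← h7]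
          _ ≤ |z| + |s - z| := abs_add_le _ _
          _ ≤ Z + 1 := by linarith
      refine (var_der p hp hH hZ hs1 (by linarith)).trans ?_
      rw [← hP3]
      refine (mul_le_mul_of_nonneg_left hs hP30).trans ?_
      have h8 : 1 / (2 * M) / 2 = 1 / (4 * M) := by
        field_simp
        ring
      rw [h8, ← mul_div_assoc, div_le_div_iff₀ hxp (by positivity)]
      nlinarith) h5
  refine ⟨θ, hθ0, ?_⟩
  have h9 : (y : ℝ) - θ * x = -((θ - z) * x) := by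
    rw [hzdef]
    field_simp
    ring
  rw [h9, neg_sq, mul_pow, ← sq_abs (θ - z), ← sq_abs (x : ℝ)]
  have h10 : |θ - z| * |(x : ℝ)| ≤ 4 * M * P1 := by
    have := mul_le_mul_of_nonneg_right hθ (abs_nonneg (x : ℝ))
    rwa [div_mul_cancel₀ _ hxp.ne'] at this
  calc |θ - z| ^ 2 * |(x : ℝ)| ^ 2 = (|θ - z| * |(x : ℝ)|) ^ 2 := by ring
    _ ≤ (4 * M * P1) ^ 2 := pow_le_pow_left₀ (by positivity) h10 2
    _ = 16 * M ^ 2 * P1 ^ 2 := by ring
    _ ≤ |(x : ℝ)| := h3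

theorem near_exists (n : ℕ) (hn : 3 ≤ n) : ∃ E : ℕ, ∀ (F : MvPolynomial (Fin 2) ℤ) (H : ℕ),
    F.totalDegree ≤ n → Irreducible (map (Int.castRingHom ℚ) (homogeneousComponent n F)) → 2 ≤ H →
    (∀ m, |F.coeff m| ≤ (H : ℤ)) → ∀ x y : ℤ, aeval ![x, y] F = (0 : ℤ) → (H : ℤ) ^ E < max |x| |y| →
    2 ≤ |x| ∧ max |x| |y| ≤ |x| ^ 2 ∧ ∃ θ : ℝ, Polynomial.aeval θ (ftop n F) = 0 ∧ Near θ x y := by
  obtain ⟨c, hc, hbez⟩ := bez (n := n) (by omega)
  -- the constants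
  let Z : ℕ → ℝ := fun H => ((n + (n + 1) ^ 2 : ℕ) : ℝ) * H
  let M : ℕ → ℝ := fun H => (n : ℝ) * ((c : ℝ) * ((n : ℝ) * H)) ^ c * Z H ^ (n - 1)
  let P1 : ℕ → ℝ := fun H => (((n + 1) ^ 2 : ℕ) : ℝ) * H * Z H ^ (n - 1)
  let P3 : ℕ → ℝ := fun H => ((n + 1 : ℕ) : ℝ) * (((n : ℝ) * H) * ((n : ℝ) * (Z H + ((1 : ℕ) : ℝ)) ^ n))
  let L : ℕ → ℝ := fun H => ((4 : ℕ) : ℝ) * M H * P1 H + ((16 : ℕ) : ℝ) * M H ^ 2 * P1 H * P3 H +
    ((16 : ℕ) : ℝ) * M H ^ 2 * P1 H ^ 2 + Z H + ((2 : ℕ) : ℝ)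
  have pZ : PB Z := (PB.const _).mul PB.ident
  have pM : PB M := ((PB.const n).mul (((PB.const c).mul ((PB.const n).mul PB.ident)).pow c)).mul (pZ.pow _)
  have pP1 : PB P1 := ((PB.const _).mul PB.ident).mul (pZ.pow _)
  have pP3 : PB P3 := (PB.const _).mul (((PB.const n).mul PB.ident).mul
    ((PB.const n).mul ((pZ.add (PB.const 1)).pow n)))
  have pL : PB L := ((((((PB.const 4).mul pM).mul pP1).add
    ((((PB.const 16).mul (pM.pow 2)).mul pP1).mul pP3)).add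
    (((PB.const 16).mul (pM.pow 2)).mul (pP1.pow 2))).add pZ).add (PB.const 2)
  obtain ⟨E, hE⟩ := pZ.mul pL
  refine ⟨E, ?_⟩
  intro F H hF hirr hH hFH x y hF0 hXE
  have hHr : (2 : ℝ) ≤ H := by exact_mod_cast hH
  have hnr : (3 : ℝ) ≤ n := by exact_mod_cast hn
  set X : ℝ := max |(x : ℝ)| |(y : ℝ)| with hXdef
  have hXE' : (H : ℝ) ^ E < X := by
    have h1 : (((H : ℤ) ^ E : ℤ) : ℝ) < ((max |x| |y| : ℤ) : ℝ) := by exact_mod_cast hXE
    rw [Int.cast_max, Int.cast_abs, Int.cast_abs] at h1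
    push_cast at h1
    exact h1
  have hZ1 : 1 ≤ Z H := by
    show (1 : ℝ) ≤ ((n + (n + 1) ^ 2 : ℕ) : ℝ) * H
    push_cast
    nlinarith
  have hM0 : 0 < M H := by
    show (0 : ℝ) < (n : ℝ) * ((c : ℝ) * ((n : ℝ) * H)) ^ c * Z H ^ (n - 1)
    have h1 : (1 : ℝ) ≤ c := by exact_mod_cast hc
    have : 0 < Z H := by linarith
    positivity
  have hP10 : 0 ≤ P1 H := by
    show (0 : ℝ) ≤ (((n + 1) ^ 2 : ℕ) : ℝ) * H * Z H ^ (n - 1)
    have : 0 < Z H := by linarith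
    positivity
  have hP30 : 0 ≤ P3 H := by
    show (0 : ℝ) ≤ ((n + 1 : ℕ) : ℝ) * (((n : ℝ) * H) * ((n : ℝ) * (Z H + ((1 : ℕ) : ℝ)) ^ n))
    have : 0 < Z H := by linarith
    positivity
  have hL : L H = 4 * M H * P1 H + 16 * M H ^ 2 * P1 H * P3 H + 16 * M H ^ 2 * P1 H ^ 2 + Z H + 2 := by
    show ((4 : ℕ) : ℝ) * M H * P1 H + ((16 : ℕ) : ℝ) * M H ^ 2 * P1 H * P3 H +
      ((16 : ℕ) : ℝ) * M H ^ 2 * P1 H ^ 2 + Z H + ((2 : ℕ) : ℝ) = _
    norm_num
  have hZL : Z H * L H < X := lt_of_le_of_lt (hE H hH).2 hXE'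
  have a1 : 0 ≤ 4 * M H * P1 H := by positivity
  have a2 : 0 ≤ 16 * M H ^ 2 * P1 H * P3 H := by positivity
  have a3 : 0 ≤ 16 * M H ^ 2 * P1 H ^ 2 := by positivity
  have hL1 : 1 ≤ L H := by
    rw [hL]
    linarith
  have hZX : Z H < X := by nlinarith
  have hX1 : 1 ≤ X := by linarith
  -- the polynomial
  have hirr2 : Irreducible (homogeneousComponent n (map (Int.castRingHom ℚ) F)) := by
    rw [hc_map]
    exact hirr
  obtain ⟨hdeg, hirr3⟩ := deh (by omega) hirr2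
  rw [ftop_map] at hdeg hirr3
  have hpn : (ftop n F).coeff n ≠ 0 := by
    intro h0
    have h1 : ((ftop n F).map (Int.castRingHom ℚ)).coeff n ≠ 0 := by
      have h2 : ((ftop n F).map (Int.castRingHom ℚ)).leadingCoeff ≠ 0 :=
        Polynomial.leadingCoeff_ne_zero.2 hirr3.ne_zero
      rwa [Polynomial.leadingCoeff, hdeg] at h2
    rw [Polynomial.coeff_map, h0, map_zero] at h1
    exact h1 rfl
  have hsep : ((ftop n F).map (Int.castRingHom ℂ)).Separable := by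
    have h1 := (hirr3.separable).map (f := algebraMap ℚ ℂ)
    rw [Polynomial.map_map] at h1
    have h2 : (algebraMap ℚ ℂ).comp (Int.castRingHom ℚ) = Int.castRingHom ℂ := RingHom.ext_int _ _
    rwa [h2] at h1
  -- the values
  have hval := val_split n F x y
  rw [hF0] at hval
  have hxX : |(x : ℝ)| ≤ X := le_max_left _ _
  have hyX : |(y : ℝ)| ≤ X := le_max_right _ _
  have hrest := rest_le hF hFH hX1 hxX hyX
  have hf : |((∑ j ∈ Finset.range (n + 1), (ftop n F).coeff j * (x ^ (n - j) * y ^ j) : ℤ) : ℝ)| ≤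
      ((n + 1) ^ 2 : ℕ) * H * X ^ (n - 1) := by
    have h1 : (∑ j ∈ Finset.range (n + 1), (ftop n F).coeff j * (x ^ (n - j) * y ^ j) : ℤ) =
        -∑ m ∈ F.support.filter (fun m => ¬ (m 0 + m 1 = n)), F.coeff m * (x ^ (m 0) * y ^ (m 1)) := by
      linarith
    rw [h1, Int.cast_neg, abs_neg]
    exact hrest
  obtain ⟨hx0, hXx⟩ := stepA hn hH (ftop_bd hFH) hpn hXdef hZX hf
  have hxr : (x : ℝ) ≠ 0 := by exact_mod_cast hx0
  have hxp : 0 < |(x : ℝ)| := abs_pos.2 hxr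
  have hxL : L H < |(x : ℝ)| := by
    have h1 : Z H * L H < Z H * |(x : ℝ)| := lt_of_lt_of_le hZL hXx
    exact lt_of_mul_lt_mul_left h1 (by linarith)
  rw [hL] at hxL
  have hz : |(y : ℝ) / x| ≤ Z H := by
    rw [abs_div, div_le_iff₀ hxp]
    exact hyX.trans hXx
  have hp1 : |((ftop n F).map (Int.castRingHom ℝ)).eval ((y : ℝ) / x)| ≤ P1 H / |(x : ℝ)| := by
    have h1 := hom_eval n (ftop n F) (ftop_natDegree n F) (y : ℝ) (x : ℝ) hxr
    have h2 : ((∑ j ∈ Finset.range (n + 1), (ftop n F).coeff j * (x ^ (n - j) * y ^ j) : ℤ) : ℝ) =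
        ∑ j ∈ Finset.range (n + 1), (((ftop n F).coeff j : ℤ) : ℝ) * (y : ℝ) ^ j * (x : ℝ) ^ (n - j) := by
      push_cast
      exact Finset.sum_congr rfl fun j _ => by ring
    rw [h2, h1, abs_mul, abs_pow] at hf
    rw [le_div_iff₀ hxp]
    have h3 : X ^ (n - 1) ≤ (Z H * |(x : ℝ)|) ^ (n - 1) := pow_le_pow_left₀ (by linarith) hXx _
    have h4 : |(x : ℝ)| ^ n = |(x : ℝ)| ^ (n - 1) * |(x : ℝ)| := by
      rw [← pow_succ]
      congr 1
      omega
    have h5 : |(x : ℝ)| ^ (n - 1) * (|((ftop n F).map (Int.castRingHom ℝ)).eval ((y : ℝ) / x)| * |(x : ℝ)|) ≤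
        |(x : ℝ)| ^ (n - 1) * P1 H := by
      calc |(x : ℝ)| ^ (n - 1) * (|((ftop n F).map (Int.castRingHom ℝ)).eval ((y : ℝ) / x)| * |(x : ℝ)|)
          = |(x : ℝ)| ^ n * |((ftop n F).map (Int.castRingHom ℝ)).eval ((y : ℝ) / x)| := by
            rw [h4]
            ring
        _ ≤ ((n + 1) ^ 2 : ℕ) * H * X ^ (n - 1) := hf
        _ ≤ ((n + 1) ^ 2 : ℕ) * H * (Z H * |(x : ℝ)|) ^ (n - 1) :=
            mul_le_mul_of_nonneg_left h3 (by positivity)
        _ = |(x : ℝ)| ^ (n - 1) * P1 H := by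
            rw [mul_pow]
            show _ = |(x : ℝ)| ^ (n - 1) * ((((n + 1) ^ 2 : ℕ) : ℝ) * H * Z H ^ (n - 1))
            ring
    exact le_of_mul_le_mul_left h5 (by positivity)
  have hb := hbez (ftop n F) H (by omega) (ftop_natDegree n F) hpn (ftop_bd hFH) hsep x y (Z H) hZ1 hx0 hz
  obtain ⟨θ, hθ0, hθ⟩ := core (ftop n F) (ftop_natDegree n F) (ftop_bd hFH) hx0 (Z := Z H) (M := M H)
    (P1 := P1 H) (P3 := P3 H) hZ1 hM0 hP10 (by
      show ((n + 1 : ℕ) : ℝ) * (((n : ℝ) * H) * ((n : ℝ) * (Z H + ((1 : ℕ) : ℝ)) ^ n)) = _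
      push_cast
      ring) hz hp1 hb (by linarith) (by linarith) (by linarith)
  have hx2 : (2 : ℝ) ≤ |(x : ℝ)| := by linarith
  refine ⟨?_, ?_, θ, ?_, hθ⟩
  · have h1 : ((2 : ℤ) : ℝ) ≤ ((|x| : ℤ) : ℝ) := by
      rw [Int.cast_abs]
      exact_mod_cast hx2
    exact_mod_cast h1
  · have h1 : ((max |x| |y| : ℤ) : ℝ) ≤ ((|x| ^ 2 : ℤ) : ℝ) := by
      rw [Int.cast_max, Int.cast_pow, Int.cast_abs, Int.cast_abs]
      refine hXx.trans ?_
      have h2 : Z H ≤ |(x : ℝ)| := by linarith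
      exact (mul_le_mul_of_nonneg_right h2 (abs_nonneg _)).trans (le_of_eq (sq _).symm)
    exact_mod_cast h1
  · rw [← Polynomial.eval_map_algebraMap]
    exact hθ0

end Pool.Agent.H12.ON
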