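import Pool.Agent.H12.ON.Val

/-! # [H12 ON PT] A point of `F` at a valuation ring

`F = ∑ F_m x^(m 0) y^(m 1)`, total degree `≤ n`, the coefficient `c` of `y^n` is the leading coefficient of `ftop n F`, a nonzero element of `k`
(so a unit of `V`).
* `top_dec`: `x^(-n) F(x,y) = f(1,z) + x^(-1) W`, `z = y/x`: if `x ≠ 0`, `t = x⁻¹`: `F(x,y) = x^n (f(1,z) + t * W)`, where
  `W = ∑_{m ∈ support, m 0 + m 1 < n} F_m t^(n - 1 - m 0 - m 1) z^(m 1)` (sum over the support, split into `m 0 + m 1 = n` and `< n`;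
  the part with `m 0 + m 1 = n` is `ftop`: re-index by `m 1`; a finsupp on `Fin 2` is `single 0 (m 0) + single 1 (m 1)`). If `t, z ∈ V` and
  `V` is over `k` then `W ∈ V`.
* `pt_fin`: `x ∈ V`: `F(x,y) = 0` and `c y^n = -(sum of the terms with m 1 < n)`: `y` is a root of a monic polynomial with coefficients in `V`.
* `pt_inf`: `x ∉ V`, `t = x⁻¹ ∈ V.nonunits`. First `z ∈ V`: otherwise `z⁻¹ ∈ V.nonunits`; divide `x^(-n) F(x,y) = 0` by `z^n`: all terms but
  `c` are in `V.nonunits` (`t^(n-i-j) z^(j-n)`, `j < n`): contradiction. Then by `top_dec` `f(1,z) = -t W ∈ V.nonunits`. `Ω` is algebraically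
  closed: `f(1,T) = c ∏ (T - θ_i)`, so `∏ (z - θ_i) ∈ V.nonunits` and some factor `z - θ_i` is (the `θ_i` are algebraic over `k`, in `V` by
  `val_alg`; the maximal ideal is prime). -/

namespace Pool.Agent.H12.ON

open MvPolynomial Finset

private theorem aev {k Ω : Type} [Field k] [Field Ω] [Algebra k Ω] (F : MvPolynomial (Fin 2) k) (x y : Ω) :
    aeval ![x, y] F = ∑ m ∈ F.support, algebraMap k Ω (F.coeff m) * (x ^ m 0 * y ^ m 1) := by
  rw [aeval_def, eval₂_eq']
  refine sum_congr rfl fun m _ => ?_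
  rw [Fin.prod_univ_two]
  rfl

private theorem dg {k : Type} [Field k] {n : ℕ} {F : MvPolynomial (Fin 2) k} (hF : F.totalDegree ≤ n)
    {m : Fin 2 →₀ ℕ} (hm : m ∈ F.support) : m 0 + m 1 ≤ n := by
  have h := (MvPolynomial.le_totalDegree hm).trans hF
  rw [Finsupp.sum_fintype _ _ (fun _ => rfl), Fin.sum_univ_two] at h
  exact h

private theorem ftop_ev {k Ω : Type} [Field k] [Field Ω] [Algebra k Ω] (n : ℕ) (F : MvPolynomial (Fin 2) k)
    (z : Ω) : Polynomial.aeval z (ftop n F) =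
      ∑ m ∈ F.support.filter (fun m => m 0 + m 1 = n), algebraMap k Ω (F.coeff m) * z ^ m 1 := by
  unfold ftop
  rw [map_sum]
  simp only [Polynomial.aeval_monomial]
  obtain ⟨e, he⟩ : ∃ e : ℕ → (Fin 2 →₀ ℕ), e = fun j => Finsupp.single 0 (n - j) + Finsupp.single 1 j :=
    ⟨_, rfl⟩
  have he0 : ∀ j, e j 0 = n - j := by intro j; simp [he]
  have he1 : ∀ j, e j 1 = j := by intro j; simp [he]
  have hinj : Set.InjOn e (range (n + 1) : Set ℕ) := by
    intro a _ b _ h
    rw [← he1 a, ← he1 b, h]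
  have hsub : F.support.filter (fun m => m 0 + m 1 = n) ⊆ (range (n + 1)).image e := by
    intro m hm
    rw [mem_filter] at hm
    rw [mem_image]
    refine ⟨m 1, mem_range.2 (by omega), ?_⟩
    ext i
    fin_cases i
    · have := he0 (m 1)
      have h2 := hm.2
      simp only [Fin.zero_eta]
      rw [this]
      omega
    · exact he1 (m 1)
  rw [sum_subset hsub, sum_image hinj]
  · refine sum_congr rfl fun j _ => ?_
    rw [he1, he]
  · intro m hm hm2
    rw [mem_image] at hm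
    obtain ⟨j, hj, rfl⟩ := hm
    have h3 : e j ∉ F.support := by
      intro h4
      apply hm2
      rw [mem_filter]
      refine ⟨h4, ?_⟩
      rw [he0, he1]
      have := mem_range.1 hj
      omega
    rw [notMem_support_iff.1 h3, map_zero, zero_mul]

private theorem kV {k Ω : Type} [Field k] [Field Ω] [Algebra k Ω] {V : ValuationSubring Ω} (hV : Ov k V)
    {c : k} (hc : c ≠ 0) : V.valuation (algebraMap k Ω c) = 1 := by
  refine le_antisymm ((V.valuation_le_one_iff _).2 (hV c)) ?_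
  have h1 := (V.valuation_le_one_iff _).2 (hV c⁻¹)
  rw [map_inv₀, map_inv₀] at h1
  have h2 : V.valuation (algebraMap k Ω c) ≠ 0 := by
    rw [Valuation.ne_zero_iff]
    exact (map_ne_zero _).2 hc
  exact (inv_le_one₀ (zero_lt_iff.2 h2)).1 h1

private theorem lead {k : Type} [Field k] {n : ℕ} {F : MvPolynomial (Fin 2) k} (hF : Tp k n F) :
    F.coeff (Finsupp.single 1 n) ≠ 0 := by
  have h1 : (ftop n F).coeff n = F.coeff (Finsupp.single 1 n) := by
    unfold ftop
    rw [Polynomial.finsetSum_coeff]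
    rw [sum_eq_single n]
    · rw [Polynomial.coeff_monomial, if_pos rfl, Nat.sub_self, Finsupp.single_zero, zero_add]
    · intro b _ hb
      rw [Polynomial.coeff_monomial, if_neg hb]
    · intro h
      exact absurd (mem_range.2 (Nat.lt_succ_self n)) h
  rw [← h1]
  have h2 : (ftop n F).leadingCoeff ≠ 0 := Polynomial.leadingCoeff_ne_zero.2 hF.irr.ne_zero
  rw [Polynomial.leadingCoeff, hF.top] at h2
  exact h2

private theorem noz {k Ω : Type} [Field k] [Field Ω] [Algebra k Ω] {n : ℕ} {F : MvPolynomial (Fin 2) k}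
    (hF : Tp k n F) {V : ValuationSubring Ω} (hV : Ov k V) {z : Ω} (a : (Fin 2 →₀ ℕ) → Ω)
    (ha : ∀ m ∈ F.support, a m ∈ V) (ha1 : a (Finsupp.single 1 n) = 1)
    (h : ∑ m ∈ F.support, algebraMap k Ω (F.coeff m) * (a m * z ^ m 1) = 0) : z ∈ V := by
  by_contra hz
  have hz0 : z ≠ 0 := by
    rintro rfl
    exact hz V.zero_mem
  have hw : V.valuation z⁻¹ < 1 := by
    rw [map_inv₀]
    have h1 : 1 < V.valuation z := by
      rw [← not_le, V.valuation_le_one_iff]
      exact hz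
    exact inv_lt_one_of_one_lt₀ h1
  obtain ⟨e, he⟩ : ∃ e : Fin 2 →₀ ℕ, e = Finsupp.single 1 n := ⟨_, rfl⟩
  have hes : e ∈ F.support := by
    rw [he]
    exact mem_support_iff.2 (lead hF)
  have h2 : ∑ m ∈ F.support, algebraMap k Ω (F.coeff m) * (a m * z⁻¹ ^ (n - m 1)) = 0 := by
    have h3 : ∑ m ∈ F.support, algebraMap k Ω (F.coeff m) * (a m * z⁻¹ ^ (n - m 1)) =
        z⁻¹ ^ n * ∑ m ∈ F.support, algebraMap k Ω (F.coeff m) * (a m * z ^ m 1) := by
      rw [mul_sum]
      refine sum_congr rfl fun m hm => ?_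
      have h4 := dg hF.deg hm
      have h5 : z⁻¹ ^ n = z⁻¹ ^ (n - m 1) * z⁻¹ ^ m 1 := by
        rw [← pow_add]
        congr 1
        omega
      have h6 : z⁻¹ ^ m 1 * z ^ m 1 = 1 := by
        rw [← mul_pow, inv_mul_cancel₀ hz0, one_pow]
      rw [h5]
      linear_combination (-(algebraMap k Ω (F.coeff m) * a m * z⁻¹ ^ (n - m 1))) * h6
    rw [h3, h, mul_zero]
  rw [← add_sum_erase _ _ hes] at h2
  have h7 : V.valuation (∑ m ∈ F.support.erase e, algebraMap k Ω (F.coeff m) * (a m * z⁻¹ ^ (n - m 1))) < 1 := by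
    refine Valuation.map_sum_lt _ one_ne_zero fun m hm => ?_
    obtain ⟨hm1, hm2⟩ := mem_erase.1 hm
    have h4 := dg hF.deg hm2
    have h8 : m 1 < n := by
      by_contra h9
      apply hm1
      rw [he]
      ext i
      fin_cases i
      · simp only [Fin.zero_eta]
        rw [Finsupp.single_eq_of_ne (by decide)]
        omega
      · simp only [Fin.mk_one]
        rw [Finsupp.single_eq_same]
        omega
    rw [map_mul, map_mul, map_pow]
    have h9 := (V.valuation_le_one_iff _).2 (hV (F.coeff m))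
    have h10 := (V.valuation_le_one_iff _).2 (ha m hm2)
    have h11 : V.valuation z⁻¹ ^ (n - m 1) < 1 := pow_lt_one₀ zero_le hw (by omega)
    calc V.valuation (algebraMap k Ω (F.coeff m)) * (V.valuation (a m) * V.valuation z⁻¹ ^ (n - m 1))
        ≤ 1 * (1 * V.valuation z⁻¹ ^ (n - m 1)) := mul_le_mul' h9 (mul_le_mul' h10 le_rfl)
      _ < 1 := by rw [one_mul, one_mul]; exact h11
  have h12 : algebraMap k Ω (F.coeff e) * (a e * z⁻¹ ^ (n - e 1)) = algebraMap k Ω (F.coeff e) := by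
    have h13 : e 1 = n := by rw [he, Finsupp.single_eq_same]
    rw [h13, Nat.sub_self, pow_zero, he, ha1, mul_one, mul_one]
  rw [h12] at h2
  have h14 : V.valuation (algebraMap k Ω (F.coeff e)) < 1 := by
    rw [eq_neg_of_add_eq_zero_left h2, Valuation.map_neg]
    exact h7
  rw [kV hV (by rw [he]; exact lead hF)] at h14
  exact lt_irrefl _ h14

theorem top_dec {k Ω : Type} [Field k] [Field Ω] [Algebra k Ω] {n : ℕ} {F : MvPolynomial (Fin 2) k}
    (hF : F.totalDegree ≤ n) {x y : Ω} (hx : x ≠ 0) : ∃ W : Ω,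
    (∀ V : ValuationSubring Ω, Ov k V → x⁻¹ ∈ V → y / x ∈ V → W ∈ V) ∧
    aeval ![x, y] F = x ^ n * (Polynomial.aeval (y / x) (ftop n F) + x⁻¹ * W) := by
  refine ⟨∑ m ∈ F.support.filter (fun m => ¬ (m 0 + m 1 = n)),
    algebraMap k Ω (F.coeff m) * (x⁻¹ ^ (n - 1 - m 0 - m 1) * (y / x) ^ m 1), ?_, ?_⟩
  · intro V hV h1 h2
    exact V.toSubring.sum_mem fun m _ => V.mul_mem _ _ (hV _) (V.mul_mem _ _ (pow_mem h1 _) (pow_mem h2 _))
  · rw [aev, ftop_ev, mul_add, mul_sum, mul_sum, mul_sum,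
      ← sum_filter_add_sum_filter_not F.support (fun m => m 0 + m 1 = n)]
    have hy : y = x * (y / x) := by rw [mul_div_cancel₀ _ hx]
    have hxx : x * x⁻¹ = 1 := mul_inv_cancel₀ hx
    obtain ⟨z, hz⟩ : ∃ z, z = y / x := ⟨_, rfl⟩
    rw [← hz] at hy ⊢
    congr 1
    · refine sum_congr rfl fun m hm => ?_
      rw [mem_filter] at hm
      rw [hy, mul_pow, ← hm.2, pow_add]
      ring
    · refine sum_congr rfl fun m hm => ?_
      rw [mem_filter] at hm
      have h3 := dg hF hm.1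
      obtain ⟨r, hr⟩ : ∃ r, n = m 0 + m 1 + (r + 1) := ⟨n - 1 - m 0 - m 1, by omega⟩
      have h4 : n - 1 - m 0 - m 1 = r := by omega
      have h5 : x ^ (r + 1) * (x⁻¹ * x⁻¹ ^ r) = 1 := by
        rw [← pow_succ', ← mul_pow, hxx, one_pow]
      rw [h4, hy, mul_pow, hr, pow_add x (m 0 + m 1), pow_add]
      linear_combination (-(algebraMap k Ω (F.coeff m) * x ^ m 0 * x ^ m 1 * z ^ m 1)) * h5

theorem pt_fin {k Ω : Type} [Field k] [Field Ω] [Algebra k Ω] {n : ℕ} {F : MvPolynomial (Fin 2) k}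
    (hF : Tp k n F) {V : ValuationSubring Ω} (hV : Ov k V) {x y : Ω} (h0 : aeval ![x, y] F = 0)
    (hx : x ∈ V) : y ∈ V := by
  rw [aev] at h0
  refine noz hF hV (fun m => x ^ m 0) (fun m _ => pow_mem hx _) ?_ h0
  rw [Finsupp.single_eq_of_ne (by decide), pow_zero]

private theorem mfac {Ω : Type} [Field Ω] (V : ValuationSubring Ω) (z : Ω) (s : Multiset Ω)
    (h : V.valuation (s.map (fun a => z - a)).prod < 1) : ∃ a ∈ s, V.valuation (z - a) < 1 := by
  induction s using Multiset.induction_on with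
  | empty =>
    rw [Multiset.map_zero, Multiset.prod_zero, map_one] at h
    exact absurd h (lt_irrefl _)
  | cons b s ih =>
    rw [Multiset.map_cons, Multiset.prod_cons, map_mul] at h
    by_cases h1 : V.valuation (z - b) < 1
    · exact ⟨b, Multiset.mem_cons_self _ _, h1⟩
    · obtain ⟨a, ha, h2⟩ := ih (by
        by_contra h3
        rw [not_lt] at h1 h3
        exact absurd h (not_lt.2 (one_le_mul h1 h3)))
      exact ⟨a, Multiset.mem_cons_of_mem ha, h2⟩

theorem pt_inf {k Ω : Type} [Field k] [Field Ω] [IsAlgClosed Ω] [Algebra k Ω] {n : ℕ}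
    {F : MvPolynomial (Fin 2) k} (hF : Tp k n F) {V : ValuationSubring Ω} (hV : Ov k V) {x y : Ω}
    (h0 : aeval ![x, y] F = 0) (hx : x ∉ V) :
    y / x ∈ V ∧ ∃ θ : Ω, Polynomial.aeval θ (ftop n F) = 0 ∧ y / x - θ ∈ V.nonunits := by
  have hx0 : x ≠ 0 := by
    rintro rfl
    exact hx V.zero_mem
  have ht : x⁻¹ ∈ V := (V.mem_or_inv_mem x).resolve_left hx
  have htv : V.valuation x⁻¹ < 1 := by
    rw [map_inv₀]
    have h1 : 1 < V.valuation x := by
      rw [← not_le, V.valuation_le_one_iff]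
      exact hx
    exact inv_lt_one_of_one_lt₀ h1
  have hz : y / x ∈ V := by
    refine noz hF hV (fun m => x⁻¹ ^ (n - m 0 - m 1)) (fun m _ => pow_mem ht _) ?_ ?_
    · have h1 : (Finsupp.single 1 n : Fin 2 →₀ ℕ) 0 = 0 := Finsupp.single_eq_of_ne (by decide)
      have h2 : (Finsupp.single 1 n : Fin 2 →₀ ℕ) 1 = n := Finsupp.single_eq_same
      rw [h1, h2, Nat.sub_zero, Nat.sub_self, pow_zero]
    · have h3 : ∑ m ∈ F.support, algebraMap k Ω (F.coeff m) * (x⁻¹ ^ (n - m 0 - m 1) * (y / x) ^ m 1) =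
          x⁻¹ ^ n * ∑ m ∈ F.support, algebraMap k Ω (F.coeff m) * (x ^ m 0 * y ^ m 1) := by
        rw [mul_sum]
        refine sum_congr rfl fun m hm => ?_
        have h4 := dg hF.deg hm
        have h5 : x⁻¹ ^ n = x⁻¹ ^ (n - m 0 - m 1) * (x⁻¹ ^ m 0 * x⁻¹ ^ m 1) := by
          rw [← pow_add, ← pow_add]
          congr 1
          omega
        have h6 : x⁻¹ ^ m 0 * x ^ m 0 = 1 := by
          rw [← mul_pow, inv_mul_cancel₀ hx0, one_pow]
        rw [h5, div_eq_mul_inv, mul_pow]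
        linear_combination (-(algebraMap k Ω (F.coeff m) * x⁻¹ ^ (n - m 0 - m 1) * x⁻¹ ^ m 1 * y ^ m 1)) * h6
      rw [h3, ← aev, h0, mul_zero]
  refine ⟨hz, ?_⟩
  obtain ⟨W, hW, h1⟩ := top_dec (k := k) hF.deg (y := y) hx0
  rw [h0] at h1
  have h2 : Polynomial.aeval (y / x) (ftop n F) + x⁻¹ * W = 0 := by
    rcases mul_eq_zero.1 h1.symm with h | h
    · exact absurd h (pow_ne_zero _ hx0)
    · exact h
  have h3 : V.valuation (Polynomial.aeval (y / x) (ftop n F)) < 1 := by
    rw [eq_neg_of_add_eq_zero_left h2, Valuation.map_neg, map_mul]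
    have h4 := (V.valuation_le_one_iff _).2 (hW V hV ht hz)
    calc V.valuation x⁻¹ * V.valuation W ≤ V.valuation x⁻¹ * 1 := mul_le_mul' le_rfl h4
      _ < 1 := by rw [mul_one]; exact htv
  have hs := IsAlgClosed.splits ((ftop n F).map (algebraMap k Ω))
  have h5 := hs.eq_prod_roots
  have h6 : Polynomial.aeval (y / x) (ftop n F) = algebraMap k Ω ((ftop n F).leadingCoeff) *
      ((((ftop n F).map (algebraMap k Ω)).roots).map (fun a => y / x - a)).prod := by
    have h6' := congrArg (Polynomial.eval (y / x)) h5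
    rw [Polynomial.eval_mul, Polynomial.eval_C, Polynomial.leadingCoeff_map,
      Polynomial.eval_multiset_prod, Multiset.map_map] at h6'
    rw [Polynomial.aeval_def, ← Polynomial.eval_map, h6']
    congr 2
    refine Multiset.map_congr rfl fun a _ => ?_
    simp
  rw [h6, map_mul, kV hV (Polynomial.leadingCoeff_ne_zero.2 hF.irr.ne_zero), one_mul] at h3
  obtain ⟨θ, hθ, h7⟩ := mfac V (y / x) _ h3
  refine ⟨θ, ?_, V.mem_nonunits_iff.2 h7⟩
  have h8 := (Polynomial.mem_roots'.1 hθ).2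
  rw [Polynomial.IsRoot.def, Polynomial.eval_map, ← Polynomial.aeval_def] at h8
  exact h8

end Pool.Agent.H12.ON
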