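import Pool.Agent.H12.ON.Def

/-! # [H12 ON SWP] Exchange of the two variables

`F' = rename (Equiv.swap 0 1) F`. The coefficients of `ftop n F'` are those of `ftop n F` in reverse order; `ftop n F` is irreducible of degree
`n ≥ 3`, so `f(1,0) ≠ 0` and the reverse polynomial (`Polynomial.reverse`) is again irreducible of degree `n`.
`swp_eval`: `aeval ![y, x] F' = aeval ![x, y] F`; `swp_pd`: `aeval ![y, x] (pderiv 1 F') = aeval ![x, y] (pderiv 0 F)`. -/

namespace Pool.Agent.H12.ON

open MvPolynomial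

private theorem swp_coeff {k : Type} [Field k] {n : ℕ} (F : MvPolynomial (Fin 2) k) (j : ℕ) :
    (ftop n F).coeff j =
      if j ≤ n then F.coeff (Finsupp.single 0 (n - j) + Finsupp.single 1 j) else 0 := by
  unfold ftop
  rw [Polynomial.finset_sum_coeff]
  simp only [Polynomial.coeff_monomial]
  rw [Finset.sum_ite_eq' (Finset.range (n + 1)) j]
  simp only [Finset.mem_range, Nat.lt_succ_iff]

private theorem swp_ftop {k : Type} [Field k] {n : ℕ} (F : MvPolynomial (Fin 2) k) :
    ftop n (rename (Equiv.swap (0 : Fin 2) 1) F) = (ftop n F).reflect n := by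
  ext j
  rw [Polynomial.coeff_reflect, swp_coeff]
  by_cases hj : j ≤ n
  · rw [if_pos hj, Polynomial.revAt_le hj, swp_coeff, if_pos (Nat.sub_le n j), Nat.sub_sub_self hj]
    have h1 : (Finsupp.single (0 : Fin 2) (n - j) + Finsupp.single 1 j : Fin 2 →₀ ℕ) =
        Finsupp.mapDomain (Equiv.swap (0 : Fin 2) 1)
          (Finsupp.single 0 j + Finsupp.single 1 (n - j)) := by
      rw [Finsupp.mapDomain_add, Finsupp.mapDomain_single, Finsupp.mapDomain_single,
        Equiv.swap_apply_left, Equiv.swap_apply_right, add_comm]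
    rw [h1, coeff_rename_mapDomain _ (Equiv.swap (0 : Fin 2) 1).injective]
  · rw [if_neg hj, Polynomial.revAt_eq_self_of_lt (by omega), swp_coeff, if_neg hj]

private theorem swp_c0 {k : Type} [Field k] {f : Polynomial k} (hf : Irreducible f)
    (hn : 2 ≤ f.natDegree) : f.coeff 0 ≠ 0 := by
  intro h0
  obtain ⟨g, hg⟩ := Polynomial.X_dvd_iff.2 h0
  rcases hf.isUnit_or_isUnit hg with h | h
  · exact Polynomial.not_isUnit_X h
  · have h1 := Polynomial.natDegree_eq_zero_of_isUnit h
    have h2 : f.natDegree = 1 := by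
      rw [hg, Polynomial.natDegree_mul Polynomial.X_ne_zero h.ne_zero, h1,
        Polynomial.natDegree_X]
    omega

private theorem swp_tr {k : Type} [Field k] {f : Polynomial k} (h0 : f.coeff 0 ≠ 0) :
    f.reverse.natDegree = f.natDegree := by
  rw [Polynomial.reverse_natDegree, Polynomial.natTrailingDegree_eq_zero_of_constantCoeff_ne_zero h0,
    Nat.sub_zero]

private theorem swp_rr {k : Type} [Field k] {f : Polynomial k} (h0 : f.coeff 0 ≠ 0) :
    f.reverse.reverse = f := by
  have h1 := swp_tr h0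
  conv_lhs => rw [Polynomial.reverse, h1, Polynomial.reverse, Polynomial.reflect_reflect]

private theorem swp_un {k : Type} [Field k] {a : Polynomial k} (h0 : a.coeff 0 ≠ 0)
    (h : IsUnit a.reverse) : IsUnit a := by
  have h1 := Polynomial.natDegree_eq_zero_of_isUnit h
  rw [swp_tr h0] at h1
  rw [Polynomial.eq_C_of_natDegree_eq_zero h1]
  exact Polynomial.isUnit_C.2 (isUnit_iff_ne_zero.2 h0)

private theorem swp_irr {k : Type} [Field k] {f : Polynomial k} (hf : Irreducible f)
    (hn : 2 ≤ f.natDegree) : Irreducible f.reverse := by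
  have h0 := swp_c0 hf hn
  refine ⟨fun h => ?_, fun a b hab => ?_⟩
  · have h1 := Polynomial.natDegree_eq_zero_of_isUnit h
    rw [swp_tr h0] at h1
    omega
  · have h1 : f = a.reverse * b.reverse := by
      rw [← Polynomial.reverse_mul_of_domain, ← hab, swp_rr h0]
    have h2 : a.coeff 0 * b.coeff 0 ≠ 0 := by
      rw [← Polynomial.mul_coeff_zero, ← hab, Polynomial.coeff_zero_reverse]
      exact Polynomial.leadingCoeff_ne_zero.2 hf.ne_zero
    rcases hf.isUnit_or_isUnit h1 with h | h
    · exact Or.inl (swp_un (left_ne_zero_of_mul h2) h)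
    · exact Or.inr (swp_un (right_ne_zero_of_mul h2) h)

theorem swp_tp {k : Type} [Field k] {n : ℕ} {F : MvPolynomial (Fin 2) k} (hF : Tp k n F) :
    Tp k n (rename (Equiv.swap (0 : Fin 2) 1) F) := by
  have h1 : ftop n (rename (Equiv.swap (0 : Fin 2) 1) F) = (ftop n F).reverse := by
    rw [swp_ftop, Polynomial.reverse, hF.top]
  have h2 : 2 ≤ (ftop n F).natDegree := by
    rw [hF.top]
    exact le_trans (by norm_num) hF.n3
  refine ⟨hF.n3, (totalDegree_rename_le _ _).trans hF.deg, ?_, ?_⟩
  · rw [h1, swp_tr (swp_c0 hF.irr h2), hF.top]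
  · rw [h1]
    exact swp_irr hF.irr h2

theorem swp_eval {k Ω : Type} [Field k] [Field Ω] [Algebra k Ω] (F : MvPolynomial (Fin 2) k) (x y : Ω) :
    aeval ![y, x] (rename (Equiv.swap (0 : Fin 2) 1) F) = aeval ![x, y] F := by
  rw [aeval_rename]
  congr 1
  congr 1
  funext i
  fin_cases i
  · rfl
  · rfl

theorem swp_pd {k Ω : Type} [Field k] [Field Ω] [Algebra k Ω] (F : MvPolynomial (Fin 2) k) (x y : Ω) :
    aeval ![y, x] (pderiv 1 (rename (Equiv.swap (0 : Fin 2) 1) F)) = aeval ![x, y] (pderiv 0 F) := by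
  have h1 : pderiv 1 (rename (Equiv.swap (0 : Fin 2) 1) F) =
      rename (Equiv.swap (0 : Fin 2) 1) (pderiv 0 F) := by
    have h2 := pderiv_rename (Equiv.swap (0 : Fin 2) 1).injective 0 F
    rwa [Equiv.swap_apply_left] at h2
  rw [h1, swp_eval]

end Pool.Agent.H12.ON
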