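import Pool.Agent.H12.ON.Trd
import Pool.Agent.H12.ON.Swp
import Pool.Agent.H12.ON.Bez
import Pool.Agent.H12.ON.Pt

/-! # [H12 ON NRM] `k[x,y]` is integrally closed in `k(x,y)` for a smooth curve

`z ∈ k(x,y)` integral over `k[x]`. `F_y z ∈ k[x,y]` (`fy_mul`). `F_x z ∈ k[x,y]`: `fy_mul` for `rename (swap) F` and the point `(y,x)` (`Swp`):
`y` is transcendental over `k` (if `y` were algebraic so would be `x`, a zero of the polynomial `F(X,y)`, whose coefficient of `X^n` is a
nonzero element of `k`: `ftop (0) ≠ 0`), `z` is integral over `k[y]`: `x` is integral over `k[y]` (`pt_fin` for the exchanged curve and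
`int_of_all`, or directly), transitivity. `bez_one`: `z = (A F + B F_x + D F_y) z = B (F_x z) + D (F_y z) ∈ k[x,y]`. -/

namespace Pool.Agent.H12.ON

open MvPolynomial IntermediateField

/-- `y` is integral over `k[x]` -/
private theorem nrm_int {k Ω : Type} [Field k] [Field Ω] [Algebra k Ω] {n : ℕ} {F : MvPolynomial (Fin 2) k}
    (hF : Tp k n F) {x y : Ω} (h0 : aeval ![x, y] F = 0) : IsIntegral (Algebra.adjoin k {x}) y :=
  int_of_all fun _ hV hx => pt_fin hF hV h0 hx

/-- transitivity -/
private theorem nrm_trans {k Ω : Type} [Field k] [Field Ω] [Algebra k Ω] {x y z : Ω}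
    (hx : IsIntegral (Algebra.adjoin k {y}) x) (hz : IsIntegral (Algebra.adjoin k {x}) z) :
    IsIntegral (Algebra.adjoin k {y}) z := by
  have hk : ∀ c : k, algebraMap k Ω c ∈ integralClosure (Algebra.adjoin k {y}) Ω := fun c =>
    (integralClosure (Algebra.adjoin k {y}) Ω).algebraMap_mem (algebraMap k (Algebra.adjoin k {y}) c)
  have hle : ∀ w : Algebra.adjoin k {x}, (w : Ω) ∈ integralClosure (Algebra.adjoin k {y}) Ω := by
    intro w
    have h1 : Algebra.adjoin k {x} ≤ (integralClosure (Algebra.adjoin k {y}) Ω).restrictScalars k := by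
      rw [Algebra.adjoin_le_iff, Set.singleton_subset_iff]
      exact hx
    exact h1 w.2
  let ι : Algebra.adjoin k {x} →+* integralClosure (Algebra.adjoin k {y}) Ω :=
    (Subring.subtype (Algebra.adjoin k {x}).toSubring).codRestrict
      (integralClosure (Algebra.adjoin k {y}) Ω).toSubring hle
  have h2 : IsIntegral (integralClosure (Algebra.adjoin k {y}) Ω) z :=
    hz.map_of_comp_eq ι (RingHom.id Ω) (RingHom.ext fun w => rfl)
  exact isIntegral_trans (A := integralClosure (Algebra.adjoin k {y}) Ω) z h2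

theorem nrm {k Ω : Type} [Field k] [CharZero k] [Field Ω] [IsAlgClosed Ω] [Algebra k Ω] {n : ℕ}
    {F : MvPolynomial (Fin 2) k} (hF : Cv k Ω n F) {x y z : Ω} (h0 : aeval ![x, y] F = 0)
    (hx : Transcendental k x) (hz : z ∈ adjoin k {x, y}) (hi : IsIntegral (Algebra.adjoin k {x}) z) :
    ∃ p : MvPolynomial (Fin 2) k, z = aeval ![x, y] p := by
  have hF' := swp_tp hF.toTp
  have h0' : aeval ![y, x] (rename (Equiv.swap (0 : Fin 2) 1) F) = 0 := by
    rw [swp_eval, h0]
  have hxy : IsIntegral (Algebra.adjoin k {y}) x := nrm_int hF' h0'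
  have hzy : IsIntegral (Algebra.adjoin k {y}) z := nrm_trans hxy hi
  have hy : Transcendental k y := fun hal =>
    hx (all_alg fun V hV => pt_fin hF' hV h0' (val_alg hV hal))
  obtain ⟨p1, hp1⟩ := fy_mul hF.toTp h0 hx hz hi
  have hz' : z ∈ adjoin k {y, x} := by
    rw [Set.pair_comm]
    exact hz
  obtain ⟨p2, hp2⟩ := fy_mul hF' h0' hy hz' hzy
  rw [swp_pd] at hp2
  obtain ⟨A, B, D, hABD⟩ := bez_one hF.smooth
  refine ⟨B * rename (Equiv.swap (0 : Fin 2) 1) p2 + D * p1, ?_⟩
  have h5 := congrArg (aeval ![x, y]) hABD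
  rw [map_add, map_add, map_mul, map_mul, map_mul, map_one, h0, mul_zero, zero_add] at h5
  have h6 : aeval ![x, y] (rename (Equiv.swap (0 : Fin 2) 1) p2) = aeval ![y, x] p2 := swp_eval p2 y x
  rw [map_add, map_mul, map_mul, h6, ← hp1, ← hp2]
  linear_combination (-z) * h5

end Pool.Agent.H12.ON
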