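import Mathlib

/-! # [H12 ON NWT] Newton's identities

`N = |S|`, the power sums of the `g i` of order `1 ≤ m < N` vanish, characteristic zero: the elementary symmetric functions of order
`1 ≤ m < N` vanish (Newton's identities, Mathlib `MvPolynomial.mul_esymm_eq_sum` or `Multiset`/`Finset` version), so
`∏_{i ∈ S} (T - g i) = T^N + c` and `(g i)^N = -c` for all `i`. -/

namespace Pool.Agent.H12.ON

open Finset

theorem nwt {Ω α : Type} [Field Ω] [CharZero Ω] (S : Finset α) (g : α → Ω)
    (h : ∀ m : ℕ, 1 ≤ m → m < S.card → ∑ i ∈ S, g i ^ m = 0) :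
    ∀ i ∈ S, ∀ j ∈ S, g i ^ S.card = g j ^ S.card := by
  classical
  let f : S → Ω := fun i => g i.1
  have hps : ∀ m : ℕ, 1 ≤ m → m < S.card → MvPolynomial.aeval f (MvPolynomial.psum S Ω m) = 0 := by
    intro m h1 h2
    rw [MvPolynomial.psum, map_sum, ← h m h1 h2, ← Finset.sum_coe_sort S]
    refine Finset.sum_congr rfl fun i _ => ?_
    rw [map_pow, MvPolynomial.aeval_X]
  have hes : ∀ m : ℕ, 1 ≤ m → m < S.card → MvPolynomial.aeval f (MvPolynomial.esymm S Ω m) = 0 := by
    intro m h1 h2
    have e1 := congrArg (MvPolynomial.aeval f) (MvPolynomial.mul_esymm_eq_sum S Ω m)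
    rw [map_mul, map_natCast, map_mul, map_sum] at e1
    have e2 : ∑ a ∈ antidiagonal m with a.1 < m, MvPolynomial.aeval f
        ((-1) ^ a.1 * MvPolynomial.esymm S Ω a.1 * MvPolynomial.psum S Ω a.2) = 0 := by
      refine Finset.sum_eq_zero fun a ha => ?_
      rw [Finset.mem_filter, HasAntidiagonal.mem_antidiagonal] at ha
      rw [map_mul, hps a.2 (by omega) (by omega), mul_zero]
    rw [e2, mul_zero] at e1
    rcases mul_eq_zero.1 e1 with e3 | e3
    · exact absurd (Nat.cast_eq_zero.1 e3) (by omega)
    · exact e3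
  have hN : Multiset.card ((Finset.univ : Finset S).val.map f) = S.card := by
    rw [Multiset.card_map]
    exact (Finset.card_univ).trans (Fintype.card_coe S)
  have hkey : ∀ i ∈ S, g i ^ S.card =
      -((-1) ^ S.card * ((Finset.univ : Finset S).val.map f).esymm S.card) := by
    intro i hi
    have hpos : 0 < S.card := Finset.card_pos.2 ⟨i, hi⟩
    have e1 := congrArg (Polynomial.eval (g i))
      (Multiset.prod_X_sub_X_eq_sum_esymm ((Finset.univ : Finset S).val.map f))
    rw [hN, Polynomial.eval_finsetSum] at e1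
    have e2 : Polynomial.eval (g i)
        ((((Finset.univ : Finset S).val.map f).map fun t => Polynomial.X - Polynomial.C t).prod) = 0 := by
      rw [Polynomial.eval_multiset_prod]
      refine Multiset.prod_eq_zero ?_
      rw [Multiset.mem_map]
      refine ⟨Polynomial.X - Polynomial.C (g i), ?_, by simp⟩
      rw [Multiset.mem_map]
      refine ⟨g i, ?_, rfl⟩
      rw [Multiset.mem_map]
      exact ⟨⟨i, hi⟩, Finset.mem_univ _, rfl⟩
    rw [e2, Finset.sum_range_succ] at e1
    have e3 : ∑ x ∈ Finset.range S.card, Polynomial.eval (g i) ((-1) ^ x *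
        (Polynomial.C (((Finset.univ : Finset S).val.map f).esymm x) * Polynomial.X ^ (S.card - x))) =
        g i ^ S.card := by
      rw [← Finset.sum_range_add_sum_Ico _ (Nat.one_le_iff_ne_zero.2 hpos.ne'), Finset.sum_range_one]
      have e4 : ∑ x ∈ Finset.Ico 1 S.card, Polynomial.eval (g i) ((-1) ^ x *
          (Polynomial.C (((Finset.univ : Finset S).val.map f).esymm x) * Polynomial.X ^ (S.card - x))) = 0 := by
        refine Finset.sum_eq_zero fun x hx => ?_
        rw [Finset.mem_Ico] at hx
        rw [← MvPolynomial.aeval_esymm_eq_multiset_esymm S Ω x f, hes x hx.1 hx.2]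
        simp
      rw [e4, add_zero]
      simp [Multiset.esymm]
    rw [e3, Nat.sub_self, pow_zero, mul_one] at e1
    simp only [Polynomial.eval_mul, Polynomial.eval_pow, Polynomial.eval_neg, Polynomial.eval_one,
      Polynomial.eval_C] at e1
    linear_combination -e1
  intro i hi j hj
  rw [hkey i hi, hkey j hj]

end Pool.Agent.H12.ON
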