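import Pool.Agent.H12.ON.Val

/-! # [H12 ON PSM] Vanishing of the mixed power sums

`S` finite, for `Q ∈ S`: `x = Q.1 ∉ V`, `y = Q.2 = θ x + ∑_{j<M} γ_j x^(-j) + r x^(-M)` for every `M` (`r ∈ V`), the same `θ`, `γ_j` (algebraic over `k`) for
all `Q`. `c(m,i) = ∑_Q x^(m-i) y^i ∈ k` for `1 ≤ m < N = |S|`, `i ≤ m`. Claim `A(m)` for `1 ≤ m < N`: `γ_j = 0` for `j < m` and all `c(m,i) = 0`.
`m = 1`: `c(1,0) = c(1,1) = 0` is `h1`; `y = θ x + γ_0 + (small)`, sum: `N γ_0 ∈ m_V`, `γ_0` algebraic: `γ_0 = 0` (`val_unit`; `N ≠ 0` in characteristic 0).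
`m ≥ 2`, `A(1), …, A(m-1)`: `γ_0 = … = γ_(m-2) = 0`, so `y = θ x + γ x^(1-m) + r x^(-m)`, `γ = γ_(m-1)`, and
`x^(m-i) y^i = θ^i x^m + i θ^(i-1) γ + (element of m_V)` (binomial theorem; every other term contains `x^(-1)`). Sum over `Q`:
`c(m,i) - θ^i c(m,0) - i θ^(i-1) N γ ∈ m_V` and it is algebraic over `k`, so `= 0` (`val_unit`). `i = 1, 2`:
`c₁ = θ c₀ + N γ`, `c₂ = θ² c₀ + 2 θ N γ = 2 θ c₁ - θ² c₀`: `θ² c₀ - 2 θ c₁ + c₂ = 0`, so `c₀ = c₁ = c₂ = 0` by `hq` (`2 ≠ 0`), `γ = 0`, and all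
`c(m,i) = 0`. -/

namespace Pool.Agent.H12.ON

open Finset

/-- the binomial theorem modulo `u ^ (m + 1)` -/
private theorem pow_exp {Ω : Type} [Field Ω] {V : ValuationSubring Ω} {θ g r u : Ω} (hθ : θ ∈ V) (hg : g ∈ V)
    (hr : r ∈ V) (hu : u ∈ V) {m : ℕ} (hm : 1 ≤ m) (i : ℕ) :
    ∃ s ∈ V, (θ + g * u ^ m + r * u ^ (m + 1)) ^ i = θ ^ i + i * θ ^ (i - 1) * g * u ^ m + s * u ^ (m + 1) := by
  induction i with
  | zero => exact ⟨0, V.zero_mem, by simp⟩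
  | succ i ih =>
    obtain ⟨s, hs, he⟩ := ih
    obtain ⟨l, rfl⟩ : ∃ l, m = l + 1 := ⟨m - 1, by omega⟩
    have hiV : ((i : ℕ) : Ω) ∈ V := natCast_mem V i
    refine ⟨i * θ ^ (i - 1) * g * g * u ^ l + s * (θ + g * u ^ (l + 1) + r * u ^ (l + 1 + 1)) +
      r * (θ ^ i + i * θ ^ (i - 1) * g * u ^ (l + 1)), ?_, ?_⟩
    · have h1 : (i : Ω) * θ ^ (i - 1) * g ∈ V := V.mul_mem _ _ (V.mul_mem _ _ hiV (pow_mem hθ _)) hg
      refine V.add_mem _ _ (V.add_mem _ _ (V.mul_mem _ _ (V.mul_mem _ _ h1 hg) (pow_mem hu _)) (V.mul_mem _ _ hs ?_))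
        (V.mul_mem _ _ hr (V.add_mem _ _ (pow_mem hθ _) (V.mul_mem _ _ h1 (pow_mem hu _))))
      exact V.add_mem _ _ (V.add_mem _ _ hθ (V.mul_mem _ _ hg (pow_mem hu _))) (V.mul_mem _ _ hr (pow_mem hu _))
    · rw [pow_succ, he, Nat.add_sub_cancel, Nat.cast_succ]
      have h2 : (i : Ω) * θ ^ (i - 1) * θ = i * θ ^ i := by
        rcases i with - | i
        · simp
        · rw [Nat.add_sub_cancel, mul_assoc, ← pow_succ]
      have h3 : (i : Ω) * θ ^ i = i * θ ^ (i - 1) * θ := h2.symm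
      have h4 : ((i : Ω) + 1) * θ ^ i = i * θ ^ (i - 1) * θ + θ ^ i := by rw [add_mul, one_mul, h3]
      rw [h4]
      ring

/-- one point -/
private theorem one_pt {Ω : Type} [Field Ω] {V : ValuationSubring Ω} {θ x y : Ω} {γ : ℕ → Ω} (hθ : θ ∈ V)
    (hγ : ∀ j, γ j ∈ V) (hx : x ∉ V)
    (hy : ∀ M : ℕ, ∃ r ∈ V, y = θ * x + ∑ j ∈ range M, γ j * x⁻¹ ^ j + r * x⁻¹ ^ M) {m i : ℕ} (hm : 1 ≤ m)
    (hi : i ≤ m) (h0 : ∀ j, j + 1 < m → γ j = 0) :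
    x ^ (m - i) * y ^ i - θ ^ i * x ^ m - i * θ ^ (i - 1) * γ (m - 1) ∈ V.nonunits := by
  have hx0 : x ≠ 0 := by
    rintro rfl
    exact hx V.zero_mem
  have hu : x⁻¹ ∈ V.nonunits := V.inv_mem_nonunits_iff.2 (Or.inr hx)
  have huV : x⁻¹ ∈ V := V.nonunits_le hu
  obtain ⟨r, hr, hyr⟩ := hy m
  obtain ⟨l, rfl⟩ : ∃ l, m = l + 1 := ⟨m - 1, by omega⟩
  rw [Finset.sum_range_succ, Finset.sum_eq_zero (fun j hj => by
    rw [h0 j (by have := Finset.mem_range.1 hj; omega), zero_mul]), zero_add] at hyr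
  obtain ⟨s, hs, he⟩ := pow_exp hθ (hγ l) hr huV hm i
  have h1 : y = x * (θ + γ l * x⁻¹ ^ (l + 1) + r * x⁻¹ ^ (l + 1 + 1)) := by
    rw [hyr]
    have e1 : x * (γ l * x⁻¹ ^ (l + 1)) = γ l * x⁻¹ ^ l := by
      rw [pow_succ]
      field_simp
    have e2 : x * (r * x⁻¹ ^ (l + 1 + 1)) = r * x⁻¹ ^ (l + 1) := by
      rw [pow_succ x⁻¹ (l + 1)]
      field_simp
    rw [mul_add, mul_add, e1, e2]
    ring
  have h2 : x ^ (l + 1 - i) * y ^ i = x ^ (l + 1) * (θ ^ i + i * θ ^ (i - 1) * γ l * x⁻¹ ^ (l + 1) +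
      s * x⁻¹ ^ (l + 1 + 1)) := by
    rw [h1, mul_pow, he, ← mul_assoc, ← pow_add]
    congr 2
    omega
  have h3 : x ^ (l + 1) * x⁻¹ ^ (l + 1) = 1 := by rw [← mul_pow, mul_inv_cancel₀ hx0, one_pow]
  have h4 : x ^ (l + 1 - i) * y ^ i - θ ^ i * x ^ (l + 1) - i * θ ^ (i - 1) * γ (l + 1 - 1) = s * x⁻¹ := by
    rw [h2, Nat.add_sub_cancel]
    have e : x ^ (l + 1) * (θ ^ i + i * θ ^ (i - 1) * γ l * x⁻¹ ^ (l + 1) + s * x⁻¹ ^ (l + 1 + 1)) =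
        θ ^ i * x ^ (l + 1) + i * θ ^ (i - 1) * γ l * (x ^ (l + 1) * x⁻¹ ^ (l + 1)) +
          s * x⁻¹ * (x ^ (l + 1) * x⁻¹ ^ (l + 1)) := by ring
    rw [e, h3]
    ring
  rw [h4, V.mem_nonunits_iff, map_mul]
  have h5 : V.valuation s ≤ 1 := (V.valuation_le_one_iff s).2 hs
  have h6 : V.valuation x⁻¹ < 1 := V.mem_nonunits_iff.1 hu
  calc V.valuation s * V.valuation x⁻¹ ≤ 1 * V.valuation x⁻¹ := mul_le_mul_left h5 _
    _ < 1 := by rwa [one_mul]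

/-- all points -/
private theorem all_pt {k Ω : Type} [Field k] [CharZero k] [Field Ω] [Algebra k Ω] {V : ValuationSubring Ω}
    (hV : Ov k V) {S : Finset (Ω × Ω)} {θ : Ω} {γ : ℕ → Ω} (hθ : IsAlgebraic k θ)
    (hγ : ∀ j, IsAlgebraic k (γ j))
    (hS : ∀ Q ∈ S, Q.1 ∉ V ∧ ∀ M : ℕ, ∃ r ∈ V,
      Q.2 = θ * Q.1 + ∑ j ∈ range M, γ j * Q.1⁻¹ ^ j + r * Q.1⁻¹ ^ M)
    (hc : ∀ m i : ℕ, 1 ≤ m → m < S.card → i ≤ m →
      ∃ c : k, ∑ Q ∈ S, Q.1 ^ (m - i) * Q.2 ^ i = algebraMap k Ω c) {m i : ℕ} (hm : 1 ≤ m) (hmN : m < S.card)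
    (hi : i ≤ m) (h0 : ∀ j, j + 1 < m → γ j = 0) :
    ∑ Q ∈ S, Q.1 ^ (m - i) * Q.2 ^ i = θ ^ i * ∑ Q ∈ S, Q.1 ^ (m - 0) * Q.2 ^ 0 +
      i * θ ^ (i - 1) * (S.card * γ (m - 1)) := by
  have h1 : ∑ Q ∈ S, Q.1 ^ (m - i) * Q.2 ^ i - θ ^ i * ∑ Q ∈ S, Q.1 ^ (m - 0) * Q.2 ^ 0 -
      i * θ ^ (i - 1) * (S.card * γ (m - 1)) =
      ∑ Q ∈ S, (Q.1 ^ (m - i) * Q.2 ^ i - θ ^ i * Q.1 ^ m - i * θ ^ (i - 1) * γ (m - 1)) := by
    rw [Finset.sum_sub_distrib, Finset.sum_sub_distrib, ← Finset.mul_sum, Finset.sum_const, nsmul_eq_mul]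
    simp only [Nat.sub_zero, pow_zero, mul_one]
    ring
  have h2 : ∑ Q ∈ S, Q.1 ^ (m - i) * Q.2 ^ i - θ ^ i * ∑ Q ∈ S, Q.1 ^ (m - 0) * Q.2 ^ 0 -
      i * θ ^ (i - 1) * (S.card * γ (m - 1)) ∈ V.nonunits := by
    rw [h1]
    exact sum_mem fun Q hQ => one_pt (val_alg hV hθ) (fun j => val_alg hV (hγ j)) (hS Q hQ).1 (hS Q hQ).2 hm hi h0
  obtain ⟨c, hc1⟩ := hc m i hm hmN hi
  obtain ⟨c₀, hc0⟩ := hc m 0 hm hmN (Nat.zero_le _)
  have h3 : IsAlgebraic k (∑ Q ∈ S, Q.1 ^ (m - i) * Q.2 ^ i - θ ^ i * ∑ Q ∈ S, Q.1 ^ (m - 0) * Q.2 ^ 0 -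
      i * θ ^ (i - 1) * (S.card * γ (m - 1))) := by
    rw [hc1, hc0]
    have hn : ∀ n : ℕ, IsAlgebraic k ((n : ℕ) : Ω) := fun n => by
      have := isAlgebraic_algebraMap (A := Ω) (n : k)
      rwa [map_natCast] at this
    exact ((isAlgebraic_algebraMap c).sub ((hθ.pow i).mul (isAlgebraic_algebraMap c₀))).sub
      (((hn i).mul (hθ.pow (i - 1))).mul ((hn S.card).mul (hγ _)))
  have h4 : ∑ Q ∈ S, Q.1 ^ (m - i) * Q.2 ^ i - θ ^ i * ∑ Q ∈ S, Q.1 ^ (m - 0) * Q.2 ^ 0 -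
      i * θ ^ (i - 1) * (S.card * γ (m - 1)) = 0 := by
    by_contra h5
    exact val_unit hV h3 h5 h2
  linear_combination h4

theorem psm {k Ω : Type} [Field k] [CharZero k] [Field Ω] [Algebra k Ω] {V : ValuationSubring Ω}
    (hV : Ov k V) {S : Finset (Ω × Ω)} {θ : Ω} {γ : ℕ → Ω} (hθ : IsAlgebraic k θ)
    (hγ : ∀ j, IsAlgebraic k (γ j))
    (hq : ∀ a b c : k, algebraMap k Ω a + algebraMap k Ω b * θ + algebraMap k Ω c * θ ^ 2 = 0 →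
      a = 0 ∧ b = 0 ∧ c = 0)
    (hS : ∀ Q ∈ S, Q.1 ∉ V ∧ ∀ M : ℕ, ∃ r ∈ V,
      Q.2 = θ * Q.1 + ∑ j ∈ range M, γ j * Q.1⁻¹ ^ j + r * Q.1⁻¹ ^ M)
    (hc : ∀ m i : ℕ, 1 ≤ m → m < S.card → i ≤ m →
      ∃ c : k, ∑ Q ∈ S, Q.1 ^ (m - i) * Q.2 ^ i = algebraMap k Ω c)
    (h1 : ∑ Q ∈ S, Q.1 = 0) (h2 : ∑ Q ∈ S, Q.2 = 0) :
    ∀ m i : ℕ, 1 ≤ m → m < S.card → i ≤ m → ∑ Q ∈ S, Q.1 ^ (m - i) * Q.2 ^ i = 0 := by
  have hch : CharZero Ω := charZero_of_injective_algebraMap (algebraMap k Ω).injective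
  have key : ∀ m : ℕ, 1 ≤ m → m < S.card → (∀ j, j < m → γ j = 0) ∧
      ∀ i ≤ m, ∑ Q ∈ S, Q.1 ^ (m - i) * Q.2 ^ i = 0 := by
    intro m
    induction m using Nat.strong_induction_on with
    | _ m ih =>
      intro hm hmN
      have h0 : ∀ j, j + 1 < m → γ j = 0 := fun j hj => (ih (j + 1) hj (by omega) (by omega)).1 j (by omega)
      have hN : (S.card : Ω) ≠ 0 := Nat.cast_ne_zero.2 (by omega)
      have hk := fun i hi => all_pt hV hθ hγ hS hc hm hmN (i := i) hi h0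
      have hz : ∑ Q ∈ S, Q.1 ^ (m - 0) * Q.2 ^ 0 = 0 ∧ γ (m - 1) = 0 := by
        rcases Nat.lt_or_ge 1 m with h2m | h2m
        · have e1 := hk 1 hm
          have e2 := hk 2 h2m
          obtain ⟨c₀, hc0⟩ := hc m 0 hm hmN (Nat.zero_le _)
          obtain ⟨c₁, hc1⟩ := hc m 1 hm hmN hm
          obtain ⟨c₂, hc2⟩ := hc m 2 hm hmN h2m
          rw [hc0, hc1] at e1
          rw [hc0, hc2] at e2
          simp only [Nat.cast_one, Nat.sub_self, pow_zero, mul_one, one_mul, pow_one] at e1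
          have e3 : (2 - 1 : ℕ) = 1 := rfl
          rw [e3, pow_one] at e2
          have e4 : ((2 : ℕ) : Ω) = 2 := by norm_num
          rw [e4] at e2
          have h3 := hq c₂ (-2 * c₁) c₀ (by
            rw [map_mul, map_neg, map_ofNat]
            linear_combination e2 - 2 * θ * e1)
          have h4 : c₁ = 0 := by
            have := h3.2.1
            have h5 : (-2 : k) ≠ 0 := by norm_num
            exact (mul_eq_zero.1 this).resolve_left h5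
          rw [hc0, h3.2.2, map_zero]
          refine ⟨rfl, ?_⟩
          rw [h4, h3.2.2, map_zero, mul_zero, zero_add] at e1
          exact (mul_eq_zero.1 e1.symm).resolve_left hN
        · have hm1 : m = 1 := by omega
          subst hm1
          have e1 := hk 1 le_rfl
          simp only [Nat.sub_self, pow_zero, one_mul, pow_one, Nat.cast_one, Nat.sub_zero, mul_one] at e1 ⊢
          rw [h1, h2, mul_zero, zero_add] at e1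
          exact ⟨h1, (mul_eq_zero.1 e1.symm).resolve_left hN⟩
      refine ⟨fun j hj => ?_, fun i hi => ?_⟩
      · rcases Nat.lt_or_ge (j + 1) m with h3 | h3
        · exact h0 j h3
        · have : j = m - 1 := by omega
          rw [this]
          exact hz.2
      · rw [hk i hi, hz.1, hz.2, mul_zero, mul_zero, mul_zero, add_zero]
  exact fun m i hm hmN hi => (key m hm hmN).2 i hi

end Pool.Agent.H12.ON
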