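import Pool.Agent.H12.ON.Nrm
import Pool.Agent.H12.ON.Gal
import Pool.Agent.H12.ON.Lnk
import Pool.Agent.H12.ON.Deg

/-! # [H12 ON TRC] Sums over the class of a generic point are polynomials

`S` = the class of `P` (finite). `T = ∑_{Q' ∈ S} p(Q')`.
(a) `T` is fixed by all `σ : Ω ≃ₐ[k] Ω` with `σ P = P`: `σ` permutes `S` (`Link.map`: `Q ~ P` gives `σ Q ~ σ P = P`, `σ Q` is a zero of `F`; the inverse
too). So `T ∈ k(P)` (`fixed_mem`).
(b) `V` over `k` with `P.1 ∈ V`: all `Q'.1 ∈ V` (link), `Q'.2 ∈ V` (`pt_fin`), `T ∈ V`. So `T` is integral over `k[P.1]` (`int_of_all`), `nrm`: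
`T = q₀(P)`, `red`: `T = q(P)` with `m 1 < n` on the support of `q`.
(c) degree: let `q ≠ 0`, `V` over `k` with `P.1 ∉ V` (`exists_inf`), `d = totalDegree p`. For `Q' ∈ S`: `p(Q')/Q'.1^d ∈ V` (`top_res`, with the `θ` of
`pt_inf`) and `Q'.1/P.1 ∈ V`, so `T/P.1^d ∈ V`; `P.1^(deg q)/T ∈ V` by `top_unit`. Product: `P.1^(deg q - d) ∈ V` if `deg q > d`: contradiction.
(d) For `Q ∈ S` let `σ P = Q` (`exists_aut`; `Q.1` is transcendental: `Link.tr`). `σ` maps the class of `P` onto the class of `Q`, which is `S`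
(`cls_eq`), so `σ T = T`, and `σ T = σ (q(P)) = q(Q)`. -/

namespace Pool.Agent.H12.ON

open MvPolynomial IntermediateField

private theorem ev_map {k Ω : Type} [Field k] [Field Ω] [Algebra k Ω] (σ : Ω ≃ₐ[k] Ω) (a b : Ω)
    (p : MvPolynomial (Fin 2) k) : σ (aeval ![a, b] p) = aeval ![σ a, σ b] p := by
  have h := MvPolynomial.comp_aeval_apply (![a, b] : Fin 2 → Ω) (σ : Ω →ₐ[k] Ω) p
  have h2 : (fun i => (σ : Ω →ₐ[k] Ω) ((![a, b] : Fin 2 → Ω) i)) = ![σ a, σ b] := by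
    funext i
    fin_cases i <;> rfl
  rw [h2] at h
  exact h

private theorem ev_mem {k Ω : Type} [Field k] [Field Ω] [Algebra k Ω] {V : ValuationSubring Ω} (hV : Ov k V)
    {a b : Ω} (ha : a ∈ V) (hb : b ∈ V) (p : MvPolynomial (Fin 2) k) : aeval ![a, b] p ∈ V := by
  induction p using MvPolynomial.induction_on with
  | C c =>
    rw [aeval_C]
    exact hV c
  | add p q hp hq =>
    rw [map_add]
    exact V.add_mem _ _ hp hq
  | mul_X p i hp =>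
    rw [map_mul, aeval_X]
    refine V.mul_mem _ _ hp ?_
    fin_cases i
    · exact ha
    · exact hb

private theorem inv_sum {k Ω : Type} [Field k] [Field Ω] [Algebra k Ω] {F : MvPolynomial (Fin 2) k} {P : Ω × Ω}
    {S : Finset (Ω × Ω)} (hS : ∀ Q, Q ∈ S ↔ Q ∈ cls k F P) (p : MvPolynomial (Fin 2) k) (σ : Ω ≃ₐ[k] Ω)
    (hσ : (σ P.1, σ P.2) ∈ S) :
    σ (∑ Q' ∈ S, aeval ![Q'.1, Q'.2] p) = ∑ Q' ∈ S, aeval ![Q'.1, Q'.2] p := by
  classical
  obtain ⟨τ, hτ⟩ : ∃ τ : Ω × Ω → Ω × Ω, τ = fun Q => (σ Q.1, σ Q.2) := ⟨_, rfl⟩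
  have hinj : Function.Injective τ := by
    rintro ⟨a, b⟩ ⟨c, d⟩ h
    rw [hτ] at h
    simp only [Prod.mk.injEq] at h
    exact Prod.ext (σ.injective h.1) (σ.injective h.2)
  have hsub : S.image τ ⊆ S := by
    intro Q hQ
    obtain ⟨R, hR, rfl⟩ := Finset.mem_image.1 hQ
    rw [hS] at hR hσ ⊢
    rw [← cls_eq hσ]
    refine ⟨?_, ?_⟩
    · rw [hτ]
      change aeval ![σ R.1, σ R.2] F = 0
      rw [← ev_map, hR.1, map_zero]
    · rw [hτ]
      exact hR.2.map σ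
  have himg : S.image τ = S :=
    Finset.eq_of_subset_of_card_le hsub (by rw [Finset.card_image_of_injective _ hinj])
  rw [map_sum]
  conv_rhs => rw [← himg, Finset.sum_image fun _ _ _ _ h => hinj h]
  refine Finset.sum_congr rfl fun Q _ => ?_
  rw [ev_map, hτ]

theorem trc {k Ω : Type} [Field k] [CharZero k] [Field Ω] [IsAlgClosed Ω] [Algebra k Ω] {n : ℕ}
    {F : MvPolynomial (Fin 2) k} (hF : Cv k Ω n F) {P : Ω × Ω} (h0 : aeval ![P.1, P.2] F = 0)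
    (hP : Transcendental k P.1) (hΩ : Algebra.IsAlgebraic k⟮P.1⟯ Ω) {S : Finset (Ω × Ω)}
    (hS : ∀ Q, Q ∈ S ↔ Q ∈ cls k F P) (p : MvPolynomial (Fin 2) k) :
    ∃ q : MvPolynomial (Fin 2) k, q.totalDegree ≤ p.totalDegree ∧ (∀ m ∈ q.support, m 1 < n) ∧
      ∀ Q ∈ S, aeval ![Q.1, Q.2] q = ∑ Q' ∈ S, aeval ![Q'.1, Q'.2] p := by
  obtain ⟨T, hT⟩ : ∃ T, T = ∑ Q' ∈ S, aeval ![Q'.1, Q'.2] p := ⟨_, rfl⟩
  have hPS : P ∈ S := (hS P).2 ⟨h0, Link.rfl P⟩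
  have hTK : T ∈ adjoin k {P.1, P.2} := by
    refine fixed_mem hΩ fun σ h1 h2 => ?_
    rw [hT]
    exact inv_sum hS p σ (by rw [h1, h2]; exact hPS)
  have hTi : IsIntegral (Algebra.adjoin k {P.1}) T := by
    refine int_of_all fun V hV hx => ?_
    rw [hT]
    refine sum_mem fun Q hQ => ?_
    rw [hS] at hQ
    have hQ1 : Q.1 ∈ V := (hQ.2 V hV).1.1 hx
    exact ev_mem hV hQ1 (pt_fin hF.toTp hV hQ.1 hQ1) p
  obtain ⟨q₀, hq₀⟩ := nrm hF h0 hP hTK hTi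
  obtain ⟨g, q, hq, -, hqn⟩ := red hF.toTp q₀
  have hTq : T = aeval ![P.1, P.2] q := by
    rw [hq₀, hq, map_add, map_mul, h0, mul_zero, zero_add]
  refine ⟨q, ?_, hqn, ?_⟩
  · by_cases hq0 : q = 0
    · rw [hq0, totalDegree_zero]
      exact Nat.zero_le _
    obtain ⟨V, hV, hPV⟩ := exists_inf (k := k) hP
    have hP0 : P.1 ≠ 0 := fun h => hPV (h ▸ V.zero_mem)
    obtain ⟨-, θ, hθ, hPθ⟩ := pt_inf hF.toTp hV h0 hPV
    have hθa : IsAlgebraic k θ := ⟨ftop n F, hF.toTp.irr.ne_zero, hθ⟩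
    have h1 : T / P.1 ^ p.totalDegree ∈ V := by
      rw [hT, Finset.sum_div]
      refine sum_mem fun Q hQ => ?_
      rw [hS] at hQ
      have hl : Link k P Q := hQ.2
      obtain ⟨hQV, hQθ⟩ := hl.theta hV hPV hPθ
      have hQ0 : Q.1 ≠ 0 := fun h => hQV (h ▸ V.zero_mem)
      have h2 := (top_res hV hQV hθa hQθ (le_refl p.totalDegree)).1
      have h3 := ((hl V hV).2 hPV).2.1
      have h4 : aeval ![Q.1, Q.2] p / P.1 ^ p.totalDegree =
          aeval ![Q.1, Q.2] p / Q.1 ^ p.totalDegree * (Q.1 / P.1) ^ p.totalDegree := by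
        rw [div_pow, div_mul_div_cancel₀ (pow_ne_zero _ hQ0)]
      rw [h4]
      exact V.mul_mem _ _ h2 (pow_mem h3 _)
    obtain ⟨hT0, -, h2⟩ := top_unit hF.toTp hV h0 hPV hq0 hqn
    rw [← hTq] at hT0 h2
    by_contra hcon
    rw [not_le] at hcon
    have h3 : P.1 ^ q.totalDegree / T * (T / P.1 ^ p.totalDegree) ∈ V := V.mul_mem _ _ h2 h1
    rw [div_mul_div_cancel₀ hT0] at h3
    obtain ⟨e, he⟩ : ∃ e, q.totalDegree = p.totalDegree + 1 + e :=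
      ⟨q.totalDegree - p.totalDegree - 1, by omega⟩
    have hinv : P.1⁻¹ ∈ V := (V.mem_or_inv_mem P.1).resolve_left hPV
    have h4 : P.1 = P.1 ^ q.totalDegree / P.1 ^ p.totalDegree * P.1⁻¹ ^ e := by
      rw [he, inv_pow, pow_add, pow_add, pow_one]
      field_simp
    apply hPV
    rw [h4]
    exact V.mul_mem _ _ h3 (pow_mem hinv _)
  · intro Q hQ
    have hQ' := (hS Q).1 hQ
    obtain ⟨σ, h1, h2⟩ := exists_aut hF.toTp h0 hQ'.1 hP (Link.tr hQ'.2 hP) hΩ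
    have h3 := inv_sum hS p σ (by rw [h1, h2]; exact hQ)
    rw [← hT, hTq, ev_map, h1, h2] at h3
    rw [← hT, h3, ← hTq]

end Pool.Agent.H12.ON
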