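import Pool.Agent.H12.ON.Fin
import Pool.Agent.H12.ON.Trc
import Pool.Agent.H12.ON.Inj
import Pool.Agent.H12.ON.Psm
import Pool.Agent.H12.ON.Nwt
import Pool.Agent.H12.ON.Gex
import Pool.Agent.H12.ON.Hmt

/-! # [H12 ON ONE] The class of a generic point of a curve without homothety has one element

`S` = the class of `P` as a finset (`cls_finite`), `N = |S| ≥ 1` (`P ∈ S`). If `N = 1` then `Q = P`. Let `N ≥ 2`.
(1) For every `p` with `totalDegree p < N` the sum `T = ∑_{Q' ∈ S} p(Q')` is a constant in `k`: `trc` gives `q` with `totalDegree q ≤ totalDegree p < N`,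
`q(Q) = T` on `S`; if `1 ≤ totalDegree q` then `inj_card` gives `N ≤ totalDegree q`, contradiction; so `q = C c` (`totalDegree = 0`).
(2) `p = X 0, X 1`: `∑ Q.1 = c₁`, `∑ Q.2 = c₂`, `w = (c₁/N, c₂/N)` (`N ≠ 0` in characteristic zero). `S~ = {(Q.1 - w₁, Q.2 - w₂)}` (image of an
injective map, `N` elements), sums of the coordinates `0`. `V` over `k` with `P.1 ∉ V` (`exists_inf`), `θ` from `pt_inf`; for the shifted points
`x~ = x - w₁ ∉ V`, `y~/x~ - θ ∈ m_V` (`Link.theta`; `x~/x - 1 ∈ m_V`). `Gex` for `tr (w₁,w₂) F` (`trl_tp`, `trl_eval`, `trl_ftop`): `γ`. `hq` of `psm`: `θ` is a zero of the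
irreducible `ftop n F` of degree `n ≥ 3`. `hc` of `psm`: (1) with `p = (X 0 - C w₁)^(m-i) (X 1 - C w₂)^i`. So by `psm` all mixed power sums of order
`1 ≤ m < N` of `S~` vanish, also those of `x~ + y~` (binomial theorem).
(3) `nwt` for `x~`, `y~`, `x~ + y~`: for the shifted `P~ = (x,y)`, `Q~ = (x',y')`: `x'^N = x^N`, `y'^N = y^N`, `(x'+y')^N = (x+y)^N`. `x` is transcendental; `y ≠ 0` and
`x + y ≠ 0` (`not_line` with `c = 0`, `c = -1`). `ζ₁ = x'/x`, `ζ₂ = y'/y`, `ζ₃ = (x'+y')/(x+y)` are roots of unity, algebraic: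
`(ζ₁ - ζ₃) x = (ζ₃ - ζ₂) y`. If `ζ₃ ≠ ζ₂`: `y = c x` with `c` algebraic, against `not_line`; so `ζ₃ = ζ₂` and `ζ₁ = ζ₃`. `Q~ = ζ P~`, `homot`: `ζ = 1`, `Q = P`. -/

namespace Pool.Agent.H12.ON

open MvPolynomial IntermediateField

/-- sums of polynomials of small degree over the class are constants -/
private theorem sum_const {k Ω : Type} [Field k] [CharZero k] [Field Ω] [IsAlgClosed Ω] [Algebra k Ω] {n : ℕ}
    {F : MvPolynomial (Fin 2) k} (hF : Cv k Ω n F) {P : Ω × Ω} (h0 : aeval ![P.1, P.2] F = 0)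
    (hP : Transcendental k P.1) (hΩ : Algebra.IsAlgebraic k⟮P.1⟯ Ω) {S : Finset (Ω × Ω)}
    (hS : ∀ Q, Q ∈ S ↔ Q ∈ cls k F P) (p : MvPolynomial (Fin 2) k) (hp : p.totalDegree < S.card) :
    ∃ c : k, ∑ Q ∈ S, aeval ![Q.1, Q.2] p = algebraMap k Ω c := by
  obtain ⟨q, hq1, hq2, hq3⟩ := trc hF h0 hP hΩ hS p
  have hPS : P ∈ S := (hS P).2 ⟨h0, Link.rfl P⟩
  rcases Nat.eq_zero_or_pos q.totalDegree with h | h
  · have h1 := totalDegree_eq_zero_iff_eq_C.1 h
    refine ⟨coeff 0 q, ?_⟩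
    rw [← hq3 P hPS, h1, coeff_C, if_pos _root_.rfl]
    exact aeval_C _ _
  · have h1 := inj_card hF.toTp h0 hP (S := S) (fun Q hQ => (hS Q).1 hQ) hq2 h
      (fun Q hQ => (hq3 Q hQ).trans (hq3 P hPS).symm)
    omega

/-- the shifted point at the place -/
private theorem shift_inf {k Ω : Type} [Field k] [Field Ω] [Algebra k Ω] {V : ValuationSubring Ω}
    (hV : Ov k V) {x y θ : Ω} (a b : k) (hx : x ∉ V) (hθ : θ ∈ V) (hy : y / x - θ ∈ V.nonunits) :
    x - algebraMap k Ω a ∉ V ∧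
      (y - algebraMap k Ω b) / (x - algebraMap k Ω a) - θ ∈ V.nonunits := by
  have h1 : x - algebraMap k Ω a ∉ V := by
    intro h
    have h2 := V.add_mem _ _ h (hV a)
    rw [sub_add_cancel] at h2
    exact hx h2
  refine ⟨h1, ?_⟩
  have hx0 : x ≠ 0 := fun h => hx (h ▸ V.zero_mem)
  have hx1 : x - algebraMap k Ω a ≠ 0 := fun h => h1 (h ▸ V.zero_mem)
  have h2 : (x - algebraMap k Ω a)⁻¹ ∈ V.nonunits := by
    rw [V.mem_nonunits_iff_or, inv_inv]
    exact Or.inr h1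
  have h3 : (y - algebraMap k Ω b) / (x - algebraMap k Ω a) - θ =
      (1 + algebraMap k Ω a * (x - algebraMap k Ω a)⁻¹) * (y / x - θ) +
        (θ * algebraMap k Ω a - algebraMap k Ω b) * (x - algebraMap k Ω a)⁻¹ := by
    field_simp
    ring
  have hm : ∀ u v : Ω, u ∈ V → v ∈ V.nonunits → u * v ∈ V.nonunits := by
    intro u v hu hv
    rw [V.mem_nonunits_iff_exists_mem_maximalIdeal] at hv ⊢
    obtain ⟨hv1, hv2⟩ := hv
    exact ⟨V.mul_mem _ _ hu hv1, Ideal.mul_mem_left _ (⟨u, hu⟩ : V) hv2⟩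
  have h4 : (x - algebraMap k Ω a)⁻¹ ∈ V := (V.mem_or_inv_mem _).resolve_left h1
  rw [h3]
  refine V.nonunits.add_mem (hm _ _ ?_ hy) (hm _ _ ?_ h2)
  · exact V.add_mem _ _ V.one_mem (V.mul_mem _ _ (hV a) h4)
  · exact sub_mem (V.mul_mem _ _ hθ (hV a)) (hV b)

private theorem th_li {k Ω : Type} [Field k] [Field Ω] [Algebra k Ω] {n : ℕ} {F : MvPolynomial (Fin 2) k}
    (hF : Tp k n F) {θ : Ω} (hθ : Polynomial.aeval θ (ftop n F) = 0) (a b c : k)
    (h : algebraMap k Ω a + algebraMap k Ω b * θ + algebraMap k Ω c * θ ^ 2 = 0) :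
    a = 0 ∧ b = 0 ∧ c = 0 := by
  obtain ⟨p, hp⟩ : ∃ p : Polynomial k, p = Polynomial.C a + Polynomial.C b * Polynomial.X +
      Polynomial.C c * Polynomial.X ^ 2 := ⟨_, rfl⟩
  have h1 : Polynomial.aeval θ p = 0 := by
    rw [hp]
    simpa using h
  have h2 : ftop n F ∣ p := by
    by_contra hd
    obtain ⟨u, v, huv⟩ := (hF.irr.coprime_iff_not_dvd).2 hd
    have h3 := congrArg (Polynomial.aeval θ) huv
    rw [map_add, map_mul, map_mul, hθ, h1, mul_zero, mul_zero, add_zero, map_one] at h3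
    exact zero_ne_one h3
  have h3 : p.natDegree < (ftop n F).natDegree := by
    rw [hF.top]
    refine lt_of_le_of_lt ?_ (show 2 < n from hF.n3)
    rw [hp]
    compute_degree
  have h4 := Polynomial.eq_zero_of_dvd_of_natDegree_lt h2 h3
  have h5 : p.coeff 0 = a := by rw [hp]; simp
  have h6 : p.coeff 1 = b := by rw [hp]; simp [Polynomial.coeff_C]
  have h7 : p.coeff 2 = c := by rw [hp]; simp
  rw [h4, Polynomial.coeff_zero] at h5 h6 h7
  exact ⟨h5.symm, h6.symm, h7.symm⟩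

/-- the last step: three power maps -/
private theorem last_step {k Ω : Type} [Field k] [CharZero k] [Field Ω] [Algebra k Ω] {n : ℕ}
    {F : MvPolynomial (Fin 2) k} (hF : Cv k Ω n F) (w : Fin 2 → k) {x y x' y' : Ω}
    (hx : Transcendental k x)
    (h0 : aeval ![x + algebraMap k Ω (w 0), y + algebraMap k Ω (w 1)] F = 0)
    (h0' : aeval ![x' + algebraMap k Ω (w 0), y' + algebraMap k Ω (w 1)] F = 0)
    {N : ℕ} (hN : 1 ≤ N) (h1 : x' ^ N = x ^ N) (h2 : y' ^ N = y ^ N)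
    (h3 : (x' + y') ^ N = (x + y) ^ N) : x' = x ∧ y' = y := by
  have hx0 : x ≠ 0 := by
    rintro rfl
    exact hx isAlgebraic_zero
  have hy0 : y ≠ 0 := by
    have h := not_line hF w hx h0 (c := 0) isAlgebraic_zero
    rwa [zero_mul] at h
  have hxy : x + y ≠ 0 := by
    have h := not_line hF w hx h0 (c := -1) isAlgebraic_one.neg
    intro h4
    refine h ?_
    linear_combination h4
  have hroot : ∀ u v : Ω, v ≠ 0 → u ^ N = v ^ N → (u / v) ^ N = 1 := by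
    intro u v hv huv
    rw [div_pow, huv, div_self (pow_ne_zero _ hv)]
  have halg : ∀ z : Ω, z ^ N = 1 → IsAlgebraic k z := by
    intro z hz
    refine IsAlgebraic.of_pow (n := N) hN ?_
    rw [hz]
    exact isAlgebraic_one
  obtain ⟨z1, hz1⟩ : ∃ z1 : Ω, z1 = x' / x := ⟨_, rfl⟩
  obtain ⟨z2, hz2⟩ : ∃ z2 : Ω, z2 = y' / y := ⟨_, rfl⟩
  obtain ⟨z3, hz3⟩ : ∃ z3 : Ω, z3 = (x' + y') / (x + y) := ⟨_, rfl⟩
  have e1 : x' = z1 * x := by rw [hz1, div_mul_cancel₀ _ hx0]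
  have e2 : y' = z2 * y := by rw [hz2, div_mul_cancel₀ _ hy0]
  have e3 : x' + y' = z3 * (x + y) := by rw [hz3, div_mul_cancel₀ _ hxy]
  have a1 : IsAlgebraic k z1 := halg _ (by rw [hz1]; exact hroot _ _ hx0 h1)
  have a2 : IsAlgebraic k z2 := halg _ (by rw [hz2]; exact hroot _ _ hy0 h2)
  have a3 : IsAlgebraic k z3 := halg _ (by rw [hz3]; exact hroot _ _ hxy h3)
  have e4 : (z1 - z3) * x = (z3 - z2) * y := by
    linear_combination e3 - e1 - e2
  have e5 : z3 = z2 := by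
    by_contra hne
    have hne' : z3 - z2 ≠ 0 := sub_ne_zero.2 hne
    refine not_line hF w hx h0 (c := (z1 - z3) / (z3 - z2)) ?_ ?_
    · rw [div_eq_mul_inv]
      exact (a1.sub a3).mul (a3.sub a2).inv
    · rw [div_mul_eq_mul_div, e4, mul_div_cancel_left₀ _ hne']
  have e6 : z1 = z2 := by
    rw [e5, sub_self, zero_mul] at e4
    rcases mul_eq_zero.1 e4 with h | h
    · exact sub_eq_zero.1 h
    · exact absurd h hx0
  have hz0 : z2 ≠ 0 := by
    intro h
    have h4 := hroot _ _ hy0 h2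
    rw [← hz2, h, zero_pow (by omega)] at h4
    exact zero_ne_one h4
  rw [e1, e2, e6] at h0'
  have e7 := homot hF w hx h0 a2 hz0 h0'
  rw [e1, e2, e6, e7, one_mul, one_mul]
  exact ⟨rfl, rfl⟩

theorem link_eq {k Ω : Type} [Field k] [CharZero k] [Field Ω] [IsAlgClosed Ω] [Algebra k Ω] {n : ℕ}
    {F : MvPolynomial (Fin 2) k} (hF : Cv k Ω n F) {P : Ω × Ω} (h0 : aeval ![P.1, P.2] F = 0)
    (hP : Transcendental k P.1) (hΩ : Algebra.IsAlgebraic k⟮P.1⟯ Ω) {Q : Ω × Ω} (hQ : Q ∈ cls k F P) :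
    Q = P := by
  classical
  have hfin := cls_finite hF h0 hP
  obtain ⟨S, hSdef⟩ : ∃ S : Finset (Ω × Ω), S = hfin.toFinset := ⟨_, rfl⟩
  have hS : ∀ Q, Q ∈ S ↔ Q ∈ cls k F P := fun Q => by rw [hSdef, Set.Finite.mem_toFinset]
  have hPS : P ∈ S := (hS P).2 ⟨h0, Link.rfl P⟩
  have hQS : Q ∈ S := (hS Q).2 hQ
  by_contra hne
  have hN : 2 ≤ S.card := Finset.one_lt_card.2 ⟨Q, hQS, P, hPS, hne⟩
  have hcz : CharZero Ω := charZero_of_injective_algebraMap (algebraMap k Ω).injective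
  have hNk : (S.card : k) ≠ 0 := Nat.cast_ne_zero.2 (by omega)
  have hsum := sum_const hF h0 hP hΩ hS
  -- the centre
  obtain ⟨c1, hc1⟩ := hsum (X 0) (by rw [totalDegree_X]; omega)
  obtain ⟨c2, hc2⟩ := hsum (X 1) (by rw [totalDegree_X]; omega)
  have hc1' : ∑ Q ∈ S, Q.1 = algebraMap k Ω c1 := by
    rw [← hc1]
    refine Finset.sum_congr rfl fun Q _ => ?_
    rw [aeval_X]
    rfl
  have hc2' : ∑ Q ∈ S, Q.2 = algebraMap k Ω c2 := by
    rw [← hc2]
    refine Finset.sum_congr rfl fun Q _ => ?_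
    rw [aeval_X]
    rfl
  obtain ⟨w, hw⟩ : ∃ w : Fin 2 → k, w = ![c1 / S.card, c2 / S.card] := ⟨_, rfl⟩
  have hw0 : w 0 = c1 / S.card := by rw [hw]; rfl
  have hw1 : w 1 = c2 / S.card := by rw [hw]; rfl
  -- the shifted set
  have hginj : Function.Injective
      (fun Q : Ω × Ω => ((Q.1 - algebraMap k Ω (w 0), Q.2 - algebraMap k Ω (w 1)) : Ω × Ω)) := by
    intro A B hAB
    have h1 : A.1 - algebraMap k Ω (w 0) = B.1 - algebraMap k Ω (w 0) := congrArg Prod.fst hAB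
    have h2 : A.2 - algebraMap k Ω (w 1) = B.2 - algebraMap k Ω (w 1) := congrArg Prod.snd hAB
    exact Prod.ext (sub_left_injective h1) (sub_left_injective h2)
  obtain ⟨g, hg⟩ : ∃ g : (Ω × Ω) ↪ (Ω × Ω), ∀ Q, g Q = (Q.1 - algebraMap k Ω (w 0), Q.2 - algebraMap k Ω (w 1)) :=
    ⟨⟨_, hginj⟩, fun _ => rfl⟩
  obtain ⟨S', hS'⟩ : ∃ S' : Finset (Ω × Ω), S' = S.map g := ⟨_, rfl⟩
  have hcard : S'.card = S.card := by rw [hS', Finset.card_map]
  have hsumS : ∀ f : Ω × Ω → Ω, ∑ Q ∈ S', f Q =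
      ∑ Q ∈ S, f (Q.1 - algebraMap k Ω (w 0), Q.2 - algebraMap k Ω (w 1)) := by
    intro f
    rw [hS', Finset.sum_map]
    exact Finset.sum_congr rfl fun Q _ => by rw [hg]
  -- the place
  obtain ⟨V, hV, hPV⟩ := exists_inf (k := k) hP
  obtain ⟨_, θ, hθ, hPθ⟩ := pt_inf hF.toTp hV h0 hPV
  have hθa : IsAlgebraic k θ := ⟨ftop n F, hF.toTp.irr.ne_zero, hθ⟩
  have hθV : θ ∈ V := val_alg hV hθa
  have hn1 : 1 ≤ n := le_trans (by norm_num) hF.toTp.n3
  have hftr := (trl_ftop hn1 hF.toTp.deg w).2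
  obtain ⟨γ, hγ, hexp⟩ := gex (trl_tp hF.toTp w) (θ := θ) (by rw [hftr]; exact hθ)
  have hmain := psm (k := k) hV (S := S') (θ := θ) (γ := γ) hθa hγ (th_li hF.toTp hθ) ?_ ?_ ?_ ?_
  rotate_left
  · intro A hA
    rw [hS', Finset.mem_map] at hA
    obtain ⟨B, hB, rfl⟩ := hA
    have hBc := (hS B).1 hB
    obtain ⟨hB1, hB2⟩ := Link.theta hBc.2 hV hPV hPθ
    obtain ⟨hB3, hB4⟩ := shift_inf hV (w 0) (w 1) hB1 hθV hB2
    rw [hg]
    refine ⟨hB3, ?_⟩
    refine hexp V hV _ _ ?_ hB3 hB4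
    rw [trl_eval, sub_add_cancel, sub_add_cancel]
    exact hBc.1
  · intro m i hm1 hm2 him
    rw [hcard] at hm2
    obtain ⟨c, hc⟩ := hsum ((X 0 - C (w 0)) ^ (m - i) * (X 1 - C (w 1)) ^ i) (by
      refine lt_of_le_of_lt ?_ hm2
      have hd : ∀ (j : Fin 2), (X j - C (w j) : MvPolynomial (Fin 2) k).totalDegree ≤ 1 := by
        intro j
        refine (totalDegree_sub_C_le _ _).trans ?_
        rw [totalDegree_X]
      refine (totalDegree_mul _ _).trans ?_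
      have h1 := (totalDegree_pow (X 0 - C (w 0) : MvPolynomial (Fin 2) k) (m - i)).trans
        (Nat.mul_le_mul_left _ (hd 0))
      have h2 := (totalDegree_pow (X 1 - C (w 1) : MvPolynomial (Fin 2) k) i).trans
        (Nat.mul_le_mul_left _ (hd 1))
      omega)
    refine ⟨c, ?_⟩
    rw [← hc, hsumS]
    refine Finset.sum_congr rfl fun A _ => ?_
    rw [map_mul, map_pow, map_pow, map_sub, map_sub, aeval_X, aeval_X, aeval_C, aeval_C]
    rfl
  · rw [hsumS]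
    change ∑ Q ∈ S, (Q.1 - algebraMap k Ω (w 0)) = 0
    rw [Finset.sum_sub_distrib, hc1', Finset.sum_const, nsmul_eq_mul, hw0, ← map_natCast (algebraMap k Ω),
      ← map_mul, mul_div_cancel₀ _ hNk, sub_self]
  · rw [hsumS]
    change ∑ Q ∈ S, (Q.2 - algebraMap k Ω (w 1)) = 0
    rw [Finset.sum_sub_distrib, hc2', Finset.sum_const, nsmul_eq_mul, hw1, ← map_natCast (algebraMap k Ω),
      ← map_mul, mul_div_cancel₀ _ hNk, sub_self]
  -- the power sums
  have p1 := nwt S' (fun A => A.1) (fun m h1 h2 => by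
    have h3 := hmain m 0 h1 h2 (Nat.zero_le _)
    simpa using h3)
  have p2 := nwt S' (fun A => A.2) (fun m h1 h2 => by
    have h3 := hmain m m h1 h2 le_rfl
    simpa using h3)
  have p3 := nwt S' (fun A => A.1 + A.2) (fun m h1 h2 => by
    change ∑ A ∈ S', (A.1 + A.2) ^ m = 0
    have h4 : ∀ A : Ω × Ω, (A.1 + A.2) ^ m =
        ∑ j ∈ Finset.range (m + 1), A.1 ^ j * A.2 ^ (m - j) * (m.choose j : Ω) := fun A => add_pow _ _ _
    simp_rw [h4]
    rw [Finset.sum_comm]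
    refine Finset.sum_eq_zero fun j hj => ?_
    have hj' : j ≤ m := Nat.lt_succ_iff.1 (Finset.mem_range.1 hj)
    have h3 := hmain m (m - j) h1 h2 (Nat.sub_le _ _)
    rw [Nat.sub_sub_self hj'] at h3
    rw [← Finset.sum_mul, h3, zero_mul])
  have hgP : g P ∈ S' := by rw [hS']; exact Finset.mem_map_of_mem _ hPS
  have hgQ : g Q ∈ S' := by rw [hS']; exact Finset.mem_map_of_mem _ hQS
  have q1 := p1 _ hgQ _ hgP
  have q2 := p2 _ hgQ _ hgP
  have q3 := p3 _ hgQ _ hgP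
  rw [hg, hg] at q1 q2 q3
  have hx : Transcendental k (P.1 - algebraMap k Ω (w 0)) := by
    intro h
    refine hP ?_
    have h1 := h.add (isAlgebraic_algebraMap (w 0))
    rwa [sub_add_cancel] at h1
  obtain ⟨r1, r2⟩ := last_step hF w (x := P.1 - algebraMap k Ω (w 0)) (y := P.2 - algebraMap k Ω (w 1))
    (x' := Q.1 - algebraMap k Ω (w 0)) (y' := Q.2 - algebraMap k Ω (w 1)) hx
    (by rw [sub_add_cancel, sub_add_cancel]; exact h0)
    (by rw [sub_add_cancel, sub_add_cancel]; exact hQ.1) (N := S'.card) (by omega) q1 q2 q3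
  exact hne (Prod.ext (sub_left_injective r1) (sub_left_injective r2))

end Pool.Agent.H12.ON
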