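import Pool.Agent.H12.ON.Li

/-! # [H12 ON PRO] The equations correspond

`G = F₂(A X + w)` vanishes at the generic zero `(x,y)` of `F₁`, so `G = q F₁` (`gen_zero`). `G ≠ 0`: `G(A⁻¹(X - w)) = F₂ ≠ 0` (`det A ≠ 0`). The total degree of `G` is `≤ n` (linear
substitution), the one of `F₁` is `n` (`ftop` has degree `n`, so it is not zero), total degrees are additive over a field (`totalDegree_mul_of_isDomain`): `q = C c`, `c ≠ 0`. -/

namespace Pool.Agent.H12.ON

open MvPolynomial

private theorem tot_sub {k : Type} [Field k] {g : Fin 2 → MvPolynomial (Fin 2) k}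
    (hg : ∀ i, (g i).totalDegree ≤ 1) (p : MvPolynomial (Fin 2) k) :
    (aeval g p).totalDegree ≤ p.totalDegree := by
  classical
  rw [aeval_def, eval₂_eq']
  refine totalDegree_finsetSum_le fun m hm => ?_
  refine (totalDegree_mul _ _).trans ?_
  rw [algebraMap_eq, totalDegree_C, zero_add]
  refine (totalDegree_finsetProd _ _).trans ?_
  rw [Fin.sum_univ_two]
  have h1 : ∀ i, (g i ^ m i).totalDegree ≤ m i := fun i =>
    (totalDegree_pow _ _).trans ((Nat.mul_le_mul_left _ (hg i)).trans (by rw [mul_one]))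
  have h2 : m 0 + m 1 ≤ p.totalDegree := by
    have h3 := le_totalDegree hm
    rw [Finsupp.sum_fintype _ _ (fun _ => rfl), Fin.sum_univ_two] at h3
    exact h3
  have h4 := h1 0
  have h5 := h1 1
  omega

private theorem tot_eq {k : Type} [Field k] {n : ℕ} {F : MvPolynomial (Fin 2) k} (hF : Tp k n F) :
    F.totalDegree = n := by
  refine le_antisymm hF.deg ?_
  have h1 : (ftop n F).coeff n ≠ 0 := by
    have h2 : (ftop n F).leadingCoeff ≠ 0 := Polynomial.leadingCoeff_ne_zero.2 hF.irr.ne_zero
    unfold Polynomial.leadingCoeff at h2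
    rwa [hF.top] at h2
  have h3 : (ftop n F).coeff n = F.coeff (Finsupp.single 0 (n - n) + Finsupp.single 1 n) := by
    unfold ftop
    rw [Polynomial.finsetSum_coeff, Finset.sum_eq_single n]
    · rw [Polynomial.coeff_monomial, if_pos rfl]
    · intro b _ hb
      rw [Polynomial.coeff_monomial, if_neg hb]
    · intro h
      exact absurd (Finset.mem_range.2 (Nat.lt_succ_self n)) h
  rw [h3] at h1
  have h4 := le_totalDegree (mem_support_iff.2 h1)
  rw [Finsupp.sum_fintype _ _ (fun _ => rfl), Fin.sum_univ_two] at h4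
  simpa using h4

private theorem comp_ae {k : Type} [Field k] {B : Type} [CommRing B] [Algebra k B]
    (h : Fin 2 → B) (g : Fin 2 → MvPolynomial (Fin 2) k) (p : MvPolynomial (Fin 2) k) :
    aeval h (aeval g p) = aeval (fun i => aeval h (g i)) p := by
  rw [← AlgHom.comp_apply, comp_aeval]

theorem pro {k M : Type} [Field k] [Field M] [Algebra k M] {n : ℕ} {F₁ F₂ : MvPolynomial (Fin 2) k}
    (hF₁ : Tp k n F₁) (hF₂ : Tp k n F₂) {x y : M} (h1 : aeval ![x, y] F₁ = 0) (hx : Transcendental k x)
    {A : Matrix (Fin 2) (Fin 2) k} {w : Fin 2 → k} (hA : A.det ≠ 0)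
    (h2 : aeval ![algebraMap k M (A 0 0) * x + algebraMap k M (A 0 1) * y + algebraMap k M (w 0),
      algebraMap k M (A 1 0) * x + algebraMap k M (A 1 1) * y + algebraMap k M (w 1)] F₂ = 0) :
    ∃ c : k, c ≠ 0 ∧ aeval (fun i => ∑ j, C (A i j) * X j + C (w i) : Fin 2 → MvPolynomial (Fin 2) k) F₂ =
      C c * F₁ := by
  classical
  obtain ⟨g, hg⟩ : ∃ g : Fin 2 → MvPolynomial (Fin 2) k,
    g = fun i => ∑ j, C (A i j) * X j + C (w i) := ⟨_, rfl⟩
  rw [← hg]
  have hgd : ∀ i, (g i).totalDegree ≤ 1 := by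
    intro i
    rw [hg]
    refine (totalDegree_add _ _).trans (max_le ?_ ?_)
    · refine totalDegree_finsetSum_le fun j _ => ?_
      refine (totalDegree_mul _ _).trans ?_
      rw [totalDegree_C, totalDegree_X]
    · rw [totalDegree_C]
      exact Nat.zero_le _
  -- the substitution vanishes at the generic zero
  have hG0 : aeval ![x, y] (aeval g F₂) = 0 := by
    rw [comp_ae, ← h2]
    congr 2
    funext i
    rw [hg]
    fin_cases i
    · simp [Fin.sum_univ_two]
    · simp [Fin.sum_univ_two]
  obtain ⟨q, hq⟩ := gen_zero hF₁ h1 hx hG0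
  -- it is not zero
  have hGne : aeval g F₂ ≠ 0 := by
    intro h
    obtain ⟨b, hb⟩ : ∃ b : Fin 2 → MvPolynomial (Fin 2) k,
      b = fun i => ∑ j, C (A⁻¹ i j) * (X j - C (w j)) := ⟨_, rfl⟩
    have hbg : ∀ i, aeval b (g i) = X i := by
      intro i
      have hAA : A * A⁻¹ = 1 := Matrix.mul_nonsing_inv A (isUnit_iff_ne_zero.2 hA)
      have he : ∀ i l, ∑ j, A i j * A⁻¹ j l = (1 : Matrix (Fin 2) (Fin 2) k) i l := by
        intro i l
        rw [← hAA, Matrix.mul_apply]
      have h3 : aeval b (g i) = ∑ j, C (A i j) * b j + C (w i) := by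
        rw [hg]
        simp only [map_add, map_sum, map_mul, aeval_X, algHom_C, algebraMap_eq]
      have h4 : ∑ j, C (A i j) * b j =
          ∑ l, C ((1 : Matrix (Fin 2) (Fin 2) k) i l) * (X l - C (w l)) := by
        rw [hb]
        simp only [Finset.mul_sum]
        rw [Finset.sum_comm]
        refine Finset.sum_congr rfl fun l _ => ?_
        rw [← he i l, map_sum, Finset.sum_mul]
        refine Finset.sum_congr rfl fun j _ => ?_
        rw [C_mul]
        ring
      rw [h3, h4, Finset.sum_eq_single i]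
      · rw [Matrix.one_apply_eq, C_1, one_mul, sub_add_cancel]
      · intro l _ hl
        rw [Matrix.one_apply_ne (Ne.symm hl), C_0, zero_mul]
      · intro h5
        exact absurd (Finset.mem_univ i) h5
    have h6 : aeval b (aeval g F₂) = F₂ := by
      rw [comp_ae]
      have h7 : (fun i => aeval b (g i)) = X := funext hbg
      rw [h7, aeval_X_left_apply]
    rw [h, map_zero] at h6
    have h8 : ftop n F₂ = 0 := by
      rw [← h6]
      unfold ftop
      simp
    exact hF₂.irr.ne_zero h8
  have hF1ne : F₁ ≠ 0 := by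
    intro h
    rw [h, zero_mul] at hq
    exact hGne hq
  have hqne : q ≠ 0 := by
    intro h
    rw [h, mul_zero] at hq
    exact hGne hq
  have hdeg : (aeval g F₂).totalDegree ≤ n := (tot_sub hgd F₂).trans hF₂.deg
  rw [hq, totalDegree_mul_of_isDomain hF1ne hqne, tot_eq hF₁] at hdeg
  have hq0 : q.totalDegree = 0 := by omega
  have hqC := totalDegree_eq_zero_iff_eq_C.1 hq0
  refine ⟨q.coeff 0, ?_, ?_⟩
  · intro h
    rw [h, C_0] at hqC
    exact hqne hqC
  · rw [← hqC, hq, mul_comm]

end Pool.Agent.H12.ON
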