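import Pool.Agent.H12.ON.Tht
import Pool.Agent.H12.ON.Vrs

/-! # [H12 ON PUL] From the ultrapower back to the sequences

Representatives: `A i j = cl (a i j)`, `w i = cl (v i)`, `c = cl d`, all `Small H` (definition of `Q0 H`): numerators and denominators `≤ (H N + 2)^B` for a common `B`. For almost all `N` (finitely many
conditions): `det (a N) ≠ 0` (`cl` of the determinant is not zero; for an ultrafilter `¬ eventually (= 0)` gives `eventually (≠ 0)`), `d N ≠ 0`, the two equations for the points, and the identity of polynomials: map to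
`QS`; `Th ℚ` of both sides (`th_of` for `map Fh_j`, `th_sub` with `U i = ∑_j C (A i j) X j + C (w i)`, `u i N` the same with `a N`, `v N`): the classes of the two sequences of polynomials agree, so they are eventually
equal. -/

namespace Pool.Agent.H12.ON

open MvPolynomial Pool.Agent.H82.NS Filter

private theorem cl_ne {f : ℕ → ℚ} (h : (cl f : QS) ≠ 0) : ∀ᶠ N in UU, f N ≠ 0 := by
  have h1 : ¬ ∀ᶠ N in UU, f N = 0 := by
    intro h2
    apply h
    rw [cl_zero, cl_eq]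
    exact h2
  exact Ultrafilter.eventually_not.2 h1

private theorem map_ae {R S : Type} [CommRing R] [CommRing S] (g : R →+* S)
    (f : Fin 2 → MvPolynomial (Fin 2) R) (p : MvPolynomial (Fin 2) R) :
    map g (aeval f p) = aeval (fun i => map g (f i)) (map g p) := by
  induction p using MvPolynomial.induction_on with
  | C a =>
    rw [map_C, aeval_C, aeval_C, MvPolynomial.algebraMap_eq, MvPolynomial.algebraMap_eq, map_C]
  | add p q hp hq => rw [map_add, map_add, hp, hq, map_add, map_add]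
  | mul_X p i hp => rw [map_mul, map_mul, hp, aeval_X, map_mul, map_X, map_mul, aeval_X]

private theorem th_c (f : ℕ → ℚ) : Th ℚ (C (cl f)) = cl (fun N => C (f N)) := by
  unfold Th
  rw [eval₂Hom_C, germMap_cl]

private theorem th_x (i : Fin 2) : Th ℚ (X i) = cl (fun _ => X i) := by
  unfold Th
  rw [eval₂Hom_X']

private theorem th_isu {H : ℕ → ℕ} {n : ℕ} {F : ℕ → MvPolynomial (Fin 2) ℤ} (hd : ∀ N, (F N).totalDegree ≤ n)
    {Fh : MvPolynomial (Fin 2) (Q0 H)} (hU : IsU H n F Fh) :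
    Th ℚ (map (Q0 H).subtype Fh) = cl (fun N => map (Int.castRingHom ℚ) (F N)) := by
  refine th_of (n := n) (fun N => (Finset.sup_mono (support_map_subset _ _)).trans (hd N)) fun m => ?_
  rw [coeff_map]
  refine (hU.2 m).trans ?_
  congr 1

private theorem th_lin {H : ℕ → ℕ} {α β γ : Q0 H} {f g h : ℕ → ℚ} (hα : (α : QS) = cl f) (hβ : (β : QS) = cl g)
    (hγ : (γ : QS) = cl h) : Th ℚ (map (Q0 H).subtype (C α * X 0 + C β * X 1 + C γ)) =
      cl (fun N => C (f N) * X 0 + C (g N) * X 1 + C (h N)) := by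
  have h1 : (map (Q0 H).subtype (C α * X 0 + C β * X 1 + C γ) : MvPolynomial (Fin 2) QS) =
      C (cl f) * X 0 + C (cl g) * X 1 + C (cl h) := by
    rw [map_add, map_add, map_mul, map_mul, map_C, map_C, map_C, map_X, map_X, ← hα, ← hβ, ← hγ]
    rfl
  rw [h1, map_add, map_add, map_mul, map_mul, th_c, th_c, th_c, th_x, th_x]
  rfl

private theorem ht_le {H : ℕ → ℕ} {f : ℕ → ℚ} {C B : ℕ}
    (h : ∀ N, (f N).num.natAbs ≤ (H N + 2) ^ C ∧ (f N).den ≤ (H N + 2) ^ C) (hCB : C ≤ B) (N : ℕ) :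
    Ht ((H N + 2) ^ B) (f N) := by
  have h1 : (H N + 2) ^ C ≤ (H N + 2) ^ B := Nat.pow_le_pow_right (by omega) hCB
  exact ⟨(h N).1.trans h1, (h N).2.trans h1⟩

theorem pul {H : ℕ → ℕ} {n : ℕ} {F₁ F₂ : ℕ → MvPolynomial (Fin 2) ℤ} (hd₁ : ∀ N, (F₁ N).totalDegree ≤ n)
    (hd₂ : ∀ N, (F₂ N).totalDegree ≤ n) {Fh₁ Fh₂ : MvPolynomial (Fin 2) (Q0 H)} (hU₁ : IsU H n F₁ Fh₁)
    (hU₂ : IsU H n F₂ Fh₂) {x₁ y₁ x₂ y₂ : ℕ → ℤ} {A : Matrix (Fin 2) (Fin 2) (Q0 H)} {w : Fin 2 → Q0 H}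
    {c : Q0 H} (hA : A.det ≠ 0) (hc : c ≠ 0)
    (hx : (cl (fun N => (x₂ N : ℚ)) : QS) = (A 0 0 : QS) * cl (fun N => (x₁ N : ℚ)) +
        (A 0 1 : QS) * cl (fun N => (y₁ N : ℚ)) + (w 0 : QS))
    (hy : (cl (fun N => (y₂ N : ℚ)) : QS) = (A 1 0 : QS) * cl (fun N => (x₁ N : ℚ)) +
        (A 1 1 : QS) * cl (fun N => (y₁ N : ℚ)) + (w 1 : QS))
    (hF : aeval (fun i => ∑ j, C (A i j) * X j + C (w i) : Fin 2 → MvPolynomial (Fin 2) (Q0 H)) Fh₂ =
      C c * Fh₁) :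
    ∃ B : ℕ, ∀ᶠ N in UU, Rel ((H N + 2) ^ B) (F₁ N) (F₂ N) ![x₁ N, y₁ N] ![x₂ N, y₂ N] := by
  have hA' : ∀ i j, ∃ f : ℕ → ℚ, Small H f ∧ ((A i j : Q0 H) : QS) = cl f := fun i j => (A i j).2
  have hw' : ∀ i, ∃ f : ℕ → ℚ, Small H f ∧ ((w i : Q0 H) : QS) = cl f := fun i => (w i).2
  obtain ⟨d, ⟨Cd, hCd⟩, hd⟩ : ∃ f : ℕ → ℚ, Small H f ∧ (c : QS) = cl f := c.2
  choose a ha hAa using hA'
  choose v hv hwv using hw'
  choose Ca hCa using ha
  choose Cv hCv using hv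
  -- the determinant
  have hdet : ∀ᶠ N in UU, (Matrix.of fun i j => a i j N : Matrix (Fin 2) (Fin 2) ℚ).det ≠ 0 := by
    have h1 : ((A.det : Q0 H) : QS) ≠ 0 := fun h => hA (by exact_mod_cast h)
    have h2 : ((A.det : Q0 H) : QS) = cl (fun N => a 0 0 N * a 1 1 N - a 0 1 N * a 1 0 N) := by
      rw [Matrix.det_fin_two]
      have h3 : ((A 0 0 * A 1 1 - A 0 1 * A 1 0 : Q0 H) : QS) =
        ((A 0 0 : Q0 H) : QS) * ((A 1 1 : Q0 H) : QS) - ((A 0 1 : Q0 H) : QS) * ((A 1 0 : Q0 H) : QS) := rfl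
      rw [h3, hAa, hAa, hAa, hAa]
      rfl
    rw [h2] at h1
    filter_upwards [cl_ne h1] with N hN
    rw [Matrix.det_fin_two]
    exact hN
  have hd0 : ∀ᶠ N in UU, d N ≠ 0 := by
    refine cl_ne ?_
    rw [← hd]
    exact fun h => hc (by exact_mod_cast h)
  have hx' : ∀ᶠ N in UU, (x₂ N : ℚ) = a 0 0 N * x₁ N + a 0 1 N * y₁ N + v 0 N := by
    rw [hAa, hAa, hwv, cl_mul, cl_mul, cl_add, cl_add, cl_eq] at hx
    exact hx
  have hy' : ∀ᶠ N in UU, (y₂ N : ℚ) = a 1 0 N * x₁ N + a 1 1 N * y₁ N + v 1 N := by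
    rw [hAa, hAa, hwv, cl_mul, cl_mul, cl_add, cl_add, cl_eq] at hy
    exact hy
  -- the polynomials
  have hP : ∀ᶠ N in UU, aeval (fun i => ∑ j, C (a i j N) * X j + C (v i N) : Fin 2 → MvPolynomial (Fin 2) ℚ)
      (map (Int.castRingHom ℚ) (F₂ N)) = C (d N) * map (Int.castRingHom ℚ) (F₁ N) := by
    have h1 := congrArg (fun p => Th ℚ (map (Q0 H).subtype p)) hF
    change Th ℚ (map (Q0 H).subtype _) = Th ℚ (map (Q0 H).subtype _) at h1
    rw [map_ae, map_mul, map_mul, map_C, th_isu hd₁ hU₁] at h1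
    have h2 : ∀ i : Fin 2, Th ℚ (map (Q0 H).subtype (∑ j, C (A i j) * X j + C (w i))) =
        cl (fun N => ∑ j, C (a i j N) * X j + C (v i N)) := by
      intro i
      rw [Fin.sum_univ_two, th_lin (hAa i 0) (hAa i 1) (hwv i)]
      congr 1
      funext N
      rw [Fin.sum_univ_two]
    have h5 := th_sub (th_isu hd₂ hU₂) (U := fun i => map (Q0 H).subtype (∑ j, C (A i j) * X j + C (w i)))
      (u := fun i N => ∑ j, C (a i j N) * X j + C (v i N)) h2
    rw [h5] at h1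
    have h6 : (Q0 H).subtype c = cl d := hd
    rw [h6, th_c, cl_mul, cl_eq] at h1
    exact h1
  refine ⟨(∑ i, ∑ j, Ca i j) + (∑ i, Cv i) + Cd, ?_⟩
  filter_upwards [hdet, hd0, hx', hy', hP] with N h1 h2 h3 h4 h5
  refine ⟨fun i j => a i j N, fun i => v i N, d N, h1, h2, ?_, ?_, ?_, ?_, ?_⟩
  · intro i j
    refine ht_le (hCa i j) ?_ N
    have e1 : Ca i j ≤ ∑ j, Ca i j := Finset.single_le_sum (f := fun j => Ca i j) (fun _ _ => Nat.zero_le _) (Finset.mem_univ j)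
    have e2 : ∑ j, Ca i j ≤ ∑ i, ∑ j, Ca i j :=
      Finset.single_le_sum (f := fun i => ∑ j, Ca i j) (fun _ _ => Nat.zero_le _) (Finset.mem_univ i)
    omega
  · intro i
    refine ht_le (hCv i) ?_ N
    have e1 : Cv i ≤ ∑ i, Cv i := Finset.single_le_sum (f := fun i => Cv i) (fun _ _ => Nat.zero_le _) (Finset.mem_univ i)
    omega
  · exact ht_le hCd (by omega) N
  · intro i
    fin_cases i
    · simpa [Fin.sum_univ_two] using h3
    · simpa [Fin.sum_univ_two] using h4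
  · have h6 : aeval (fun i => ∑ j, C (a i j N) * X j + C (v i N) : Fin 2 → MvPolynomial (Fin 2) ℚ) (F₂ N) =
        aeval (fun i => ∑ j, C (a i j N) * X j + C (v i N) : Fin 2 → MvPolynomial (Fin 2) ℚ)
          (map (Int.castRingHom ℚ) (F₂ N)) := by
      have := aeval_map_algebraMap ℚ (fun i => ∑ j, C (a i j N) * X j + C (v i N) : Fin 2 → MvPolynomial (Fin 2) ℚ) (F₂ N)
      exact this.symm
    rw [← h5]
    exact h6

end Pool.Agent.H12.ON
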