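import Pool.Agent.H12.ON.Cor
import Pool.Agent.H12.ON.Pro
import Pool.Agent.H12.ON.Pul
import Pool.Agent.H12.ON.Nea
import Pool.Agent.H12.ON.Cmp

/-! # [H12 ON PAI] Two exceptional pairs at the same real field are affinely related

Suppose that no `E` works. `E₁` from `near_exists`, `E₂, C₀` from `cmp`; `C = 2 C₀ + 2`. For each `N` choose a counterexample for `E = N + E₁ + E₂ + 2`: `F₁ N, …` with `Good`, `H₁ N ≤ H₂ N`, `(H_j N)^(N+E₁+E₂+2) < max(|x_j N|,|y_j N|)`, real zeros `θ_j N`, equal fields, near,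
and `¬ Rel ((H₂ N)^(N+…)) …`. `near_exists`: `2 ≤ |x_j N|`, `max ≤ |x_j N|²`. `cmp` in both directions: `max₂ ≤ max₁^C₀`, `max₁ ≤ max₂^C₀`, so `|x₂| ≤ max₂ ≤ max₁^C₀ ≤ |x₁|^(2 C₀) ≤ |x₁|^C` and the same with `1`, `2` exchanged. `H := H₂` (a sequence).
`hb₂`: `(H₂ N)^N < max₂ ≤ |x₂ N|²`; for given `C'`, `(H₂ N + 2)^C' ≤ (H₂ N)^(2C')` (`H₂ ≥ 2`), so it is `≤ |x₂ N|` for `N ≥ 4 C' + 1`. `hb₁`: `(H₂ N)^N < max₂ ≤ max₁^C₀ ≤ |x₁ N|^(2 C₀)`. (Statements for all large `N` hold for almost all `N`: `Filter.Eventually` for the hyperfilter, which is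
below `cofinite`.) `exists_isu` (the coefficients of `F₁ N` are bounded by `H₁ N ≤ H₂ N`): `Fh₁, Fh₂`. `core`: `A, w`. `pro` with `x = cl x₁` in `QS` (transcendental: not in `V0 H`, `zer_big`, `val_alg`; `Tp` from `trf`; `h2` from `zer_pt` and the two equations): `c`. `pul`: `B` and almost all `N` with
`Rel ((H₂ N + 2)^B) …`; for `N ≥ 2 B`: `(H₂ N + 2)^B ≤ (H₂ N)^N`, so `Rel ((H₂ N)^(N+…)) …` (monotone in the bound): contradiction. -/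

namespace Pool.Agent.H12.ON

open MvPolynomial Pool.Agent.H82.NS Filter

theorem Rel.mono {B B' : ℕ} (h : B ≤ B') {F G : MvPolynomial (Fin 2) ℤ} {P Q : Fin 2 → ℤ}
    (hR : Rel B F G P Q) : Rel B' F G P Q := by
  obtain ⟨A, w, c, h1, h2, h3, h4, h5, h6, h7⟩ := hR
  exact ⟨A, w, c, h1, h2, fun i j => ⟨(h3 i j).1.trans h, (h3 i j).2.trans h⟩,
    fun i => ⟨(h4 i).1.trans h, (h4 i).2.trans h⟩, ⟨h5.1.trans h, h5.2.trans h⟩, h6, h7⟩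

private theorem two_sq {h : ℕ} (hh : 2 ≤ h) (C : ℕ) : ((h + 2 : ℕ) : ℤ) ^ C ≤ (h : ℤ) ^ (2 * C) := by
  rw [pow_mul]
  refine pow_le_pow_left₀ (by positivity) ?_ C
  push_cast
  have : (2 : ℤ) ≤ (h : ℤ) := by exact_mod_cast hh
  nlinarith

private theorem two_sqn {h : ℕ} (hh : 2 ≤ h) (C : ℕ) : (h + 2) ^ C ≤ h ^ (2 * C) := by
  rw [pow_mul]
  refine Nat.pow_le_pow_left ?_ C
  nlinarith

/-- the bound from below -/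
private theorem big_aux {h : ℕ} (hh : 2 ≤ h) {X : ℤ} (hX : 0 ≤ X) {N D C : ℕ} (hD : (h : ℤ) ^ N < X ^ D)
    (hN : 2 * C * D ≤ N) : ((h + 2 : ℕ) : ℤ) ^ C ≤ X := by
  by_contra hcon
  push Not at hcon
  have hh1 : (1 : ℤ) ≤ (h : ℤ) := by exact_mod_cast (by omega : 1 ≤ h)
  have h1 : X ≤ (h : ℤ) ^ (2 * C) := hcon.le.trans (two_sq hh C)
  have h2 : X ^ D ≤ ((h : ℤ) ^ (2 * C)) ^ D := pow_le_pow_left₀ hX h1 D
  rw [← pow_mul] at h2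
  have h3 : (h : ℤ) ^ (2 * C * D) ≤ (h : ℤ) ^ N := pow_le_pow_right₀ hh1 hN
  linarith

private theorem ev_big (k : ℕ) : ∀ᶠ N in UU, k ≤ N :=
  (eventually_ge_atTop k).filter_mono (Nat.hyperfilter_le_atTop)

private theorem abs_q0 (H : ℕ → ℕ) {z : QS} (hz : z ∈ Q0 H) : |z| ∈ Q0 H := by
  rcases abs_choice z with h | h
  · rw [h]
    exact hz
  · rw [h]
    exact (Q0 H).neg_mem hz

private theorem tr_of {H : ℕ → ℕ} {x : QS} (hx : x ∉ V0 H) : Transcendental (Q0 H) x := by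
  intro h
  exact hx (val_alg (k := Q0 H) (V := V0 H) (fun e => ⟨|(e : QS)|, abs_q0 H e.2, le_rfl⟩) h)

private theorem cmp_pow {a b c : ℤ} {C0 : ℕ} (ha : 0 ≤ a) (h1 : a ≤ b ^ C0) (hb : 0 ≤ b) (h2 : b ≤ c ^ 2)
    (hc : 2 ≤ c) : a ≤ c ^ (2 * C0 + 2) := by
  have h3 : b ^ C0 ≤ (c ^ 2) ^ C0 := pow_le_pow_left₀ hb h2 C0
  rw [← pow_mul] at h3
  have h4 : c ^ (2 * C0) ≤ c ^ (2 * C0 + 2) := pow_le_pow_right₀ (by linarith) (by omega)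
  linarith

theorem pair (n : ℕ) (hn4 : 4 ≤ n) : ∃ E : ℕ, ∀ (F₁ F₂ : MvPolynomial (Fin 2) ℤ) (H₁ H₂ : ℕ) (θ₁ θ₂ : ℝ)
    (x₁ y₁ x₂ y₂ : ℤ), Good n F₁ → Good n F₂ → 2 ≤ H₁ → H₁ ≤ H₂ →
    (∀ m, |F₁.coeff m| ≤ (H₁ : ℤ)) → (∀ m, |F₂.coeff m| ≤ (H₂ : ℤ)) →
    Polynomial.aeval θ₁ (ftop n F₁) = 0 → Polynomial.aeval θ₂ (ftop n F₂) = 0 →
    Subfield.closure {θ₁} = Subfield.closure {θ₂} → Near θ₁ x₁ y₁ → Near θ₂ x₂ y₂ →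
    aeval ![x₁, y₁] F₁ = (0 : ℤ) → aeval ![x₂, y₂] F₂ = (0 : ℤ) → (H₁ : ℤ) ^ E < max |x₁| |y₁| →
    (H₂ : ℤ) ^ E < max |x₂| |y₂| → Rel (H₂ ^ E) F₁ F₂ ![x₁, y₁] ![x₂, y₂] := by
  have hn : 3 ≤ n := by omega
  obtain ⟨E1, hE1⟩ := near_exists n hn
  obtain ⟨E2, C0, hE2⟩ := cmp n hn4
  by_contra hcon
  push Not at hcon
  choose F₁ F₂ H₁ H₂ θ₁ θ₂ x₁ y₁ x₂ y₂ hG1 hG2 hH1 hH hc1 hc2 ht1 ht2 hcl hn1 hn2 hz1 hz2 hb1 hb2 hR using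
    fun N : ℕ => hcon (N + E1 + E2 + 2)
  have hH2 : ∀ N, 2 ≤ H₂ N := fun N => (hH1 N).trans (hH N)
  have one1 : ∀ N, (1 : ℤ) ≤ (H₁ N : ℤ) := fun N => by
    have := hH1 N
    exact_mod_cast (by omega : 1 ≤ H₁ N)
  have one2 : ∀ N, (1 : ℤ) ≤ (H₂ N : ℤ) := fun N => by
    have := hH2 N
    exact_mod_cast (by omega : 1 ≤ H₂ N)
  have big1 : ∀ N E, E ≤ N + E1 + E2 + 2 → (H₁ N : ℤ) ^ E < max |x₁ N| |y₁ N| := fun N E hE =>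
    (pow_le_pow_right₀ (one1 N) hE).trans_lt (hb1 N)
  have big2 : ∀ N E, E ≤ N + E1 + E2 + 2 → (H₂ N : ℤ) ^ E < max |x₂ N| |y₂ N| := fun N E hE =>
    (pow_le_pow_right₀ (one2 N) hE).trans_lt (hb2 N)
  have ne1 : ∀ N, 2 ≤ |x₁ N| ∧ max |x₁ N| |y₁ N| ≤ |x₁ N| ^ 2 := fun N => by
    have h := hE1 (F₁ N) (H₁ N) (hG1 N).deg (hG1 N).lead (hH1 N) (hc1 N) (x₁ N) (y₁ N) (hz1 N)
      (big1 N E1 (by omega))
    exact ⟨h.1, h.2.1⟩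
  have ne2 : ∀ N, 2 ≤ |x₂ N| ∧ max |x₂ N| |y₂ N| ≤ |x₂ N| ^ 2 := fun N => by
    have h := hE1 (F₂ N) (H₂ N) (hG2 N).deg (hG2 N).lead (hH2 N) (hc2 N) (x₂ N) (y₂ N) (hz2 N)
      (big2 N E1 (by omega))
    exact ⟨h.1, h.2.1⟩
  have cm1 : ∀ N, max |x₂ N| |y₂ N| ≤ (max |x₁ N| |y₁ N|) ^ C0 := fun N =>
    hE2 (F₁ N) (F₂ N) (H₁ N) (H₂ N) (θ₁ N) (θ₂ N) (x₁ N) (y₁ N) (x₂ N) (y₂ N) (hG1 N).deg (hG2 N).deg
      (hG1 N).lead (hG2 N).lead (hH1 N) (hH2 N) (hc1 N) (hc2 N) (ht1 N) (ht2 N) (hcl N) (hn1 N) (hn2 N)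
      (hz1 N) (hz2 N) (big1 N E2 (by omega)) (big2 N E2 (by omega))
  have cm2 : ∀ N, max |x₁ N| |y₁ N| ≤ (max |x₂ N| |y₂ N|) ^ C0 := fun N =>
    hE2 (F₂ N) (F₁ N) (H₂ N) (H₁ N) (θ₂ N) (θ₁ N) (x₂ N) (y₂ N) (x₁ N) (y₁ N) (hG2 N).deg (hG1 N).deg
      (hG2 N).lead (hG1 N).lead (hH2 N) (hH1 N) (hc2 N) (hc1 N) (ht2 N) (ht1 N) (hcl N).symm (hn2 N) (hn1 N)
      (hz2 N) (hz1 N) (big2 N E2 (by omega)) (big1 N E2 (by omega))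
  have mx1 : ∀ N, 0 ≤ max |x₁ N| |y₁ N| := fun N => (abs_nonneg _).trans (le_max_left _ _)
  have mx2 : ∀ N, 0 ≤ max |x₂ N| |y₂ N| := fun N => (abs_nonneg _).trans (le_max_left _ _)
  have h12 : ∀ N, |x₁ N| ≤ |x₂ N| ^ (2 * C0 + 2) := fun N =>
    cmp_pow (abs_nonneg _) ((le_max_left _ _).trans (cm2 N)) (mx2 N) (ne2 N).2 (ne2 N).1
  have h12' : ∀ N, |x₂ N| ≤ |x₁ N| ^ (2 * C0 + 2) := fun N =>
    cmp_pow (abs_nonneg _) ((le_max_left _ _).trans (cm1 N)) (mx1 N) (ne1 N).2 (ne1 N).1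
  have hb₂ : ∀ C : ℕ, ∀ᶠ N in UU, ((H₂ N + 2 : ℕ) : ℤ) ^ C ≤ |x₂ N| := by
    intro C
    filter_upwards [ev_big (2 * C * 2)] with N hN
    exact big_aux (hH2 N) (abs_nonneg _) ((big2 N N (by omega)).trans_le (ne2 N).2) hN
  have hb₁ : ∀ C : ℕ, ∀ᶠ N in UU, ((H₂ N + 2 : ℕ) : ℤ) ^ C ≤ |x₁ N| := by
    intro C
    filter_upwards [ev_big (2 * C * (2 * C0))] with N hN
    refine big_aux (hH2 N) (abs_nonneg _) (D := 2 * C0) ?_ hN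
    have h1 := big2 N N (by omega)
    have h2 := pow_le_pow_left₀ (mx1 N) (ne1 N).2 C0
    rw [← pow_mul] at h2
    exact h1.trans_le ((cm1 N).trans h2)
  obtain ⟨Fh₁, hU₁⟩ := exists_isu H₂ (n := n) (F := F₁) (fun N => (hG1 N).deg)
    (fun N m => (hc1 N m).trans (by exact_mod_cast hH N))
  obtain ⟨Fh₂, hU₂⟩ := exists_isu H₂ (n := n) (F := F₂) (fun N => (hG2 N).deg) (fun N m => hc2 N m)
  obtain ⟨A, w, hA, hx, hy⟩ := core hn hG1 hG2 hU₁ hU₂ hz1 hz2 hb₁ hb₂ ht1 ht2 hcl hn1 hn2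
    (C := 2 * C0 + 2) (by omega) (fun N => (ne1 N).1) (fun N => (ne2 N).1) h12 h12'
  have hp1 := zer_pt (fun N => (hG1 N).deg) hU₁ hz1
  have hp2 := zer_pt (fun N => (hG2 N).deg) hU₂ hz2
  rw [hx, hy] at hp2
  obtain ⟨c, hc, hF⟩ := pro (trf hn hG1 hU₁).toTp (trf hn hG2 hU₂).toTp hp1 (tr_of (zer_big hb₁)) hA hp2
  obtain ⟨B, hB⟩ := pul (fun N => (hG1 N).deg) (fun N => (hG2 N).deg) hU₁ hU₂ hA hc hx hy hF
  obtain ⟨N, hN1, hN2⟩ := (hB.and (ev_big (2 * B))).exists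
  refine hR N (hN1.mono ?_)
  refine (two_sqn (hH2 N) B).trans ?_
  exact Nat.pow_le_pow_right (by have := hH2 N; omega) (by omega)

end Pool.Agent.H12.ON
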