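import Pool.Agent.H12.ON.Hen
import Pool.Agent.H12.ON.Apy
import Pool.Agent.H12.ON.Lin
import Pool.Agent.H12.ON.Exp
import Pool.Agent.H12.ON.Cna
import Pool.Agent.H12.ON.Lnk

/-! # [H12 ON SZERO] A polynomial in two points which vanishes at all linked pairs

`kk = AdjoinRoot (ftop n F)` (a field, `[kk:k] = n`), `θ` its root; `f'(θ) ≠ 0` (characteristic zero, irreducible: separable). `formal_root`: `φ`.
`K` from `cna`, `R = {(a,b) : a + b ≤ 2K}`, `s` from `exists_van` with `I = J = box n K`, `ψ = φ`.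
Let `P, Q` be linked zeros of `F`, `P.1` transcendental, `e = ev2 s P Q`. Let `V` be over `k`. If `P.1 ∈ V`: `P.2 ∈ V` (`pt_fin`), `Q.1 ∈ V`
(link), `Q.2 ∈ V`, so `e ∈ V`. If `P.1 ∉ V`: `pt_inf` gives `θ_V` with `P.2/P.1 - θ_V ∈ V.nonunits`, also `Q.2/Q.1 - θ_V` (`Link.theta`); let
`ι : kk →ₐ[k] Ω`, `θ ↦ θ_V` (`AdjoinRoot.liftAlgHom`; `ι(kk) ⊆ V` by `val_alg`); `Apx` for both by `apx_root`. `exp2` with `K1 = K2 = K`, `N = 2K+1`:
`e = P.1^K Q.1^K (∑ …)`, where the terms with `a + b ≤ 2K` vanish; with `Q.1 = ε P.1`, `ε` a unit of `V`: every remaining term is in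
`P.1^(2K) * P.1^(-(2K+1)) * V ⊆ V.nonunits` (`P.1⁻¹ ∈ V.nonunits`). So `e ∈ V.nonunits`. By `all_zero` `e = 0`. -/

namespace Pool.Agent.H12.ON

open MvPolynomial Finset

private theorem sz_nu {Ω : Type} [Field Ω] {V : ValuationSubring Ω} {t s : Ω} (ht : t ∈ V.nonunits)
    (hs : s ∈ V) : s * t ∈ V.nonunits := by
  rw [V.mem_nonunits_iff, map_mul]
  exact lt_of_le_of_lt (mul_le_of_le_one_left' ((V.valuation_le_one_iff s).mpr hs))
    (V.mem_nonunits_iff.mp ht)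

private theorem sz_inv {Ω : Type} [Field Ω] {V : ValuationSubring Ω} {x : Ω} (hx : x ∉ V) :
    x⁻¹ ∈ V.nonunits := by
  rw [V.mem_nonunits_iff, map_inv₀]
  have h1 : 1 < V.valuation x := by
    rw [← not_le, V.valuation_le_one_iff]
    exact hx
  exact inv_lt_one_of_one_lt₀ h1

private theorem sz_sum {Ω ι : Type} [Field Ω] {V : ValuationSubring Ω} (S : Finset ι) (f : ι → Ω)
    (h : ∀ i ∈ S, f i ∈ V.nonunits) : ∑ i ∈ S, f i ∈ V.nonunits := by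
  classical
  induction S using Finset.induction_on with
  | empty => rw [Finset.sum_empty]; exact V.nonunits.zero_mem
  | insert a S ha ih =>
    rw [Finset.sum_insert ha]
    exact V.nonunits.add_mem (h a (Finset.mem_insert_self _ _))
      (ih fun i hi => h i (Finset.mem_insert_of_mem hi))

private theorem sz_key {Ω : Type} [Field Ω] {V : ValuationSubring Ω} {x x' : Ω} (hx : x ∉ V)
    (h1 : x / x' ∈ V) (h2 : x' / x ∈ V) (hx' : x' ≠ 0) (K a b : ℕ) (hab : 2 * K + 1 ≤ a + b) {r : Ω} (hr : r ∈ V) :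
    x ^ K * x' ^ K * (r * x⁻¹ ^ a * x'⁻¹ ^ b) ∈ V.nonunits := by
  have hx0 : x ≠ 0 := by rintro rfl; exact hx V.zero_mem
  obtain ⟨c, hc⟩ : ∃ c, a + b = 2 * K + (c + 1) := ⟨a + b - 2 * K - 1, by omega⟩
  have ht := sz_inv hx
  have htV : x⁻¹ ∈ V := V.nonunits_subset ht
  have e : x ^ K * x' ^ K * (r * x⁻¹ ^ a * x'⁻¹ ^ b) =
      ((x' / x) ^ K * r * (x / x') ^ b * x⁻¹ ^ c) * x⁻¹ := by
    have e1 : x'⁻¹ = (x / x') * x⁻¹ := by field_simp
    have e2 : x' = (x' / x) * x := by field_simp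
    have e3 : x ^ (2 * K) * x⁻¹ ^ (a + b) = x⁻¹ ^ (c + 1) := by
      rw [hc, pow_add, ← mul_assoc, ← mul_pow, mul_inv_cancel₀ hx0, one_pow, one_mul]
    obtain ⟨δ, hδ⟩ : ∃ δ, δ = x / x' := ⟨_, rfl⟩
    obtain ⟨ε, hε⟩ : ∃ ε, ε = x' / x := ⟨_, rfl⟩
    rw [← hδ] at e1 ⊢
    rw [← hε] at e2 ⊢
    rw [e1]
    nth_rewrite 1 [e2]
    calc x ^ K * (ε * x) ^ K * (r * x⁻¹ ^ a * (δ * x⁻¹) ^ b) =
        ε ^ K * r * δ ^ b * (x ^ (2 * K) * x⁻¹ ^ (a + b)) := by ring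
      _ = _ := by rw [e3]; ring
  rw [e]
  exact sz_nu ht (mul_mem (mul_mem (mul_mem (pow_mem h2 _) hr) (pow_mem h1 _)) (pow_mem htV _))

theorem exists_s0 {k Ω : Type} [Field k] [CharZero k] [Field Ω] [IsAlgClosed Ω] [Algebra k Ω] {n : ℕ}
    {F : MvPolynomial (Fin 2) k} (hF : Tp k n F) : ∃ (K : ℕ) (s : ℕ × ℕ → ℕ × ℕ → k),
      (∃ u ∈ box n K, ∃ v ∈ box n K, s u v ≠ 0) ∧ ∀ P Q : Ω × Ω, aeval ![P.1, P.2] F = 0 →
        aeval ![Q.1, Q.2] F = 0 → Transcendental k P.1 → Link k P Q →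
        ev2 k (box n K) (box n K) s P Q = 0 := by
  classical
  obtain ⟨K, hK⟩ := cna n hF.n3
  haveI hfact : Fact (Irreducible (ftop n F)) := ⟨hF.irr⟩
  have hf0 : ftop n F ≠ 0 := hF.irr.ne_zero
  have h0 : Polynomial.aeval (AdjoinRoot.root (ftop n F)) (ftop n F) = 0 := by
    rw [AdjoinRoot.aeval_eq, AdjoinRoot.mk_self]
  have h1 : Polynomial.aeval (AdjoinRoot.root (ftop n F)) (Polynomial.derivative (ftop n F)) ≠ 0 :=
    hF.irr.separable.aeval_derivative_ne_zero h0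
  haveI hfd : FiniteDimensional k (AdjoinRoot (ftop n F)) := (AdjoinRoot.powerBasis hf0).finite
  have hfr : Module.finrank k (AdjoinRoot (ftop n F)) = n := by
    rw [(AdjoinRoot.powerBasis hf0).finrank, AdjoinRoot.powerBasis_dim, hF.top]
  obtain ⟨φ, hφ0, hφ⟩ := formal_root hF.deg h0 h1
  obtain ⟨s, hs, hvan⟩ := exists_van (box n K) (box n K) K K φ φ
    ((range (2 * K + 1) ×ˢ range (2 * K + 1)).filter (fun w => w.1 + w.2 ≤ 2 * K)) (by rw [hfr]; exact hK)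
  refine ⟨K, s, hs, fun P Q hP hQ htr hlink => ?_⟩
  have hout : ∀ V : ValuationSubring Ω, Ov k V → P.1 ∉ V →
      ev2 k (box n K) (box n K) s P Q ∈ V.nonunits := by
    intro V hV hPV
    obtain ⟨-, θV, hθ1, hθ2⟩ := pt_inf hF hV hP hPV
    obtain ⟨hQV, hQθ⟩ := hlink.theta hV hPV hθ2
    obtain ⟨hd1, hd2, -⟩ := (hlink V hV).2 hPV
    have hQ0 : Q.1 ≠ 0 := fun h => hQV (h ▸ V.zero_mem)
    have hev : (ftop n F).eval₂ (Algebra.ofId k Ω) θV = 0 := hθ1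
    obtain ⟨ι, hι⟩ : ∃ ι : AdjoinRoot (ftop n F) →ₐ[k] Ω, ι (AdjoinRoot.root (ftop n F)) = θV :=
      ⟨AdjoinRoot.liftAlgHom (ftop n F) (Algebra.ofId k Ω) θV hev, AdjoinRoot.liftAlgHom_root _ _ _ _⟩
    have hιV : ∀ c, ι c ∈ V := fun c => val_alg hV ((Algebra.IsAlgebraic.isAlgebraic c).algHom ι)
    have hA1 := apx_root hF.deg ι hιV hPV hP hφ (by rw [hφ0]; exact h1) (by rw [hφ0, hι]; exact hθ2)
    have hA2 := apx_root hF.deg ι hιV hQV hQ hφ (by rw [hφ0]; exact h1) (by rw [hφ0, hι]; exact hQθ)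
    obtain ⟨r, r', hr, hr', he⟩ := exp2 ι hιV hPV hQV hA1 hA2 n K K (2 * K + 1) s
    rw [he, mul_add, mul_add, Finset.mul_sum]
    refine V.nonunits.add_mem (V.nonunits.add_mem (sz_sum _ _ fun w hw => ?_) ?_) ?_
    · by_cases hw2 : w.1 + w.2 ≤ 2 * K
      · rw [hvan w (Finset.mem_filter.2 ⟨hw, hw2⟩), map_zero, zero_mul, zero_mul, mul_zero]
        exact V.nonunits.zero_mem
      · exact sz_key hPV hd1 hd2 hQ0 K w.1 w.2 (by omega) (hιV _)
    · have h3 := sz_key hPV hd1 hd2 hQ0 K (2 * K + 1) 0 (by omega) hr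
      rwa [pow_zero, mul_one] at h3
    · have h3 := sz_key hPV hd1 hd2 hQ0 K 0 (2 * K + 1) (by omega) hr'
      rwa [pow_zero, mul_one] at h3
  have hin : ∀ V : ValuationSubring Ω, Ov k V → ev2 k (box n K) (box n K) s P Q ∈ V := by
    intro V hV
    by_cases hPV : P.1 ∈ V
    · have hQV : Q.1 ∈ V := (hlink V hV).1.1 hPV
      have hP2 := pt_fin hF hV hP hPV
      have hQ2 := pt_fin hF hV hQ hQV
      unfold ev2 mon
      exact sum_mem fun u _ => sum_mem fun v _ => mul_mem (mul_mem (hV _)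
        (mul_mem (pow_mem hPV _) (pow_mem hP2 _))) (mul_mem (pow_mem hQV _) (pow_mem hQ2 _))
    · exact V.nonunits_subset (hout V hV hPV)
  exact all_zero htr hin hout

end Pool.Agent.H12.ON
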