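import Pool.Agent.H12.ON.Nd

/-! # [H12 ON THT] Polynomials over an ultrapower and ultrapowers of polynomials

`Th R : R*[X,Y] → (R[X,Y])*`, the ring homomorphism with `cl c ↦ cl (C c)`, `X i ↦ cl (X i)`. For `p = ∑_{m ∈ supp} monomial m (cl (c m))`:
`Th p = cl (fun N => ∑_{m ∈ supp} monomial m (c m N))` (`Th` is a ring homomorphism; `cl` of finite sums and products).
* `th_rep`: representatives with support in the support of `p`.
* `th_of`: if the `q N` have bounded degree and the right coefficients then `Th p = cl q` (finitely many monomials: eventually all coefficients of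
  `q N` agree with those of a representative; compare with `th_rep`).
* `th_coeff`: conversely `Th p = cl q` gives `p.coeff m = cl (coeff m (q N))`. `th_inj`.
* `th_eval`, `th_sub`, `th_pd`, `th_map`: ring homomorphisms (derivation) which agree on constants and variables; it is enough to know them for a
  representative, since `cl q = cl q'` means eventually equal. -/

namespace Pool.Agent.H12.ON

open MvPolynomial Pool.Agent.H82.NS Filter

/-- `R*[X,Y] → (R[X,Y])*` -/
noncomputable def Th (R : Type) [CommRing R] :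
    MvPolynomial (Fin 2) (Ult R) →+* Ult (MvPolynomial (Fin 2) R) :=
  eval₂Hom (germMap (C : R →+* MvPolynomial (Fin 2) R)) (fun i => cl (fun _ => X i))

variable {R : Type} [CommRing R]

/-- the class of a sequence as a ring homomorphism -/
private noncomputable def clh (A : Type) [CommRing A] : (ℕ → A) →+* Ult A where
  toFun := cl
  map_one' := rfl
  map_zero' := rfl
  map_mul' := fun _ _ => rfl
  map_add' := fun _ _ => rfl

private theorem cl_sum {A ι : Type} [CommRing A] (s : Finset ι) (f : ι → ℕ → A) :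
    ∑ m ∈ s, cl (f m) = cl (fun N => ∑ m ∈ s, f m N) := by
  have h := map_sum (clh A) f s
  have h2 : (∑ m ∈ s, f m) = fun N => ∑ m ∈ s, f m N := by
    funext N
    rw [Finset.sum_apply]
  rw [h2] at h
  exact h.symm

private theorem cl_pow {A : Type} [CommRing A] (f : ℕ → A) (k : ℕ) : (cl f) ^ k = cl (fun N => f N ^ k) :=
  (map_pow (clh A) f k).symm

private theorem cl_nat {A : Type} [CommRing A] (k : ℕ) : ((k : ℕ) : Ult A) = cl (fun _ => (k : A)) :=
  (map_natCast (clh A) k).symm

private theorem cl_prod {A B : Type} [CommRing A] [CommRing B] (m : Fin 2 →₀ ℕ) (c : ℕ → A) (f : A →+* B)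
    (g : Fin 2 → ℕ → B) : germMap f (cl c) * m.prod (fun i k => (cl (g i) : Ult B) ^ k) =
      cl (fun N => f (c N) * m.prod (fun i k => g i N ^ k)) := by
  rw [Finsupp.prod_fintype _ _ (fun _ => pow_zero _), Fin.prod_univ_two, cl_pow, cl_pow, germMap_cl, cl_mul, cl_mul]
  congr 1
  funext N
  rw [Finsupp.prod_fintype _ _ (fun _ => pow_zero _), Fin.prod_univ_two]

private theorem th_mon (m : Fin 2 →₀ ℕ) (c : ℕ → R) :
    Th R (monomial m (cl c)) = cl (fun N => monomial m (c N)) := by
  unfold Th
  rw [eval₂Hom_monomial]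
  refine (cl_prod m c (C : R →+* MvPolynomial (Fin 2) R) (fun i _ => X i)).trans ?_
  congr 1
  funext N
  exact (monomial_eq (s := m) (a := c N)).symm

private theorem th_sum (s : Finset (Fin 2 →₀ ℕ)) (c : (Fin 2 →₀ ℕ) → ℕ → R) :
    Th R (∑ m ∈ s, monomial m (cl (c m))) = cl (fun N => ∑ m ∈ s, monomial m (c m N)) := by
  rw [map_sum, ← cl_sum]
  exact Finset.sum_congr rfl fun m _ => th_mon m (c m)

private theorem eq_sum {A : Type} [CommRing A] (p : MvPolynomial (Fin 2) A) (s : Finset (Fin 2 →₀ ℕ))
    (h : p.support ⊆ s) : p = ∑ m ∈ s, monomial m (p.coeff m) := by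
  conv_lhs => rw [as_sum p]
  refine Finset.sum_subset h fun m _ hm => ?_
  rw [notMem_support_iff.1 hm, map_zero]

private theorem rep_aux (p : MvPolynomial (Fin 2) (Ult R)) : ∃ q : ℕ → MvPolynomial (Fin 2) R,
    (∀ N, (q N).support ⊆ p.support) ∧ Th R p = cl q ∧ ∀ m, p.coeff m = cl (fun N => (q N).coeff m) := by
  classical
  choose c hc using fun m : Fin 2 →₀ ℕ => cl_surj (p.coeff m)
  refine ⟨fun N => ∑ m ∈ p.support, monomial m (c m N), ?_, ?_, ?_⟩
  · intro N m hm
    by_contra hcon
    rw [mem_support_iff, coeff_sum] at hm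
    apply hm
    refine Finset.sum_eq_zero fun m' hm' => ?_
    rw [coeff_monomial, if_neg]
    rintro rfl
    exact hcon hm'
  · conv_lhs => rw [eq_sum p p.support (Finset.Subset.refl _)]
    rw [← th_sum]
    congr 1
    exact Finset.sum_congr rfl fun m _ => by rw [← hc m]
  · intro m
    have h1 : ∀ N, coeff m (∑ m' ∈ p.support, monomial m' (c m' N)) = if m ∈ p.support then c m N else 0 := by
      intro N
      rw [coeff_sum]
      simp only [coeff_monomial, Finset.sum_ite_eq']
    by_cases hm : m ∈ p.support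
    · have h2 : (fun N => coeff m (∑ m' ∈ p.support, monomial m' (c m' N))) = c m := by
        funext N
        rw [h1, if_pos hm]
      rw [h2]
      exact hc m
    · have h2 : (fun N => coeff m (∑ m' ∈ p.support, monomial m' (c m' N))) = fun _ => (0 : R) := by
        funext N
        rw [h1, if_neg hm]
      rw [h2, notMem_support_iff.1 hm]
      rfl

theorem th_rep (p : MvPolynomial (Fin 2) (Ult R)) : ∃ q : ℕ → MvPolynomial (Fin 2) R,
    (∀ N, (q N).support ⊆ p.support) ∧ Th R p = cl q := by
  obtain ⟨q, h1, h2, -⟩ := rep_aux p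
  exact ⟨q, h1, h2⟩

theorem th_coeff {p : MvPolynomial (Fin 2) (Ult R)} {q : ℕ → MvPolynomial (Fin 2) R}
    (h : Th R p = cl q) (m : Fin 2 →₀ ℕ) : p.coeff m = cl (fun N => (q N).coeff m) := by
  obtain ⟨q', -, h2, h3⟩ := rep_aux p
  rw [h3 m, cl_eq]
  have h4 := cl_eq.1 (h2.symm.trans h)
  exact h4.mono fun N hN => by rw [hN]

theorem th_of {n : ℕ} {p : MvPolynomial (Fin 2) (Ult R)} {q : ℕ → MvPolynomial (Fin 2) R}
    (hq : ∀ N, (q N).totalDegree ≤ n) (h : ∀ m, p.coeff m = cl (fun N => (q N).coeff m)) :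
    Th R p = cl q := by
  classical
  let s : Finset (Fin 2 →₀ ℕ) := (Finset.range (n + 1) ×ˢ Finset.range (n + 1)).image
    (fun u : ℕ × ℕ => Finsupp.single 0 u.1 + Finsupp.single 1 u.2) ∪ p.support
  have hs : ∀ N, (q N).support ⊆ s := by
    intro N m hm
    refine Finset.mem_union_left _ (Finset.mem_image.2 ⟨(m 0, m 1), ?_, ?_⟩)
    · have h1 := (le_totalDegree hm).trans (hq N)
      rw [Finsupp.sum_fintype _ _ (fun _ => rfl), Fin.sum_univ_two] at h1
      exact Finset.mem_product.2 ⟨Finset.mem_range.2 (by show m 0 < n + 1; omega), Finset.mem_range.2 (by show m 1 < n + 1; omega)⟩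
    · ext i
      fin_cases i <;> simp
  have h1 : p = ∑ m ∈ s, monomial m (cl (fun N => (q N).coeff m)) := by
    conv_lhs => rw [eq_sum p s Finset.subset_union_right]
    exact Finset.sum_congr rfl fun m _ => by rw [h m]
  rw [h1, th_sum]
  congr 1
  funext N
  exact (eq_sum (q N) s (hs N)).symm

theorem th_inj : Function.Injective (Th R) := by
  intro p p' h
  obtain ⟨q, -, h2, h3⟩ := rep_aux p
  ext m
  rw [h3 m, th_coeff (h.symm.trans h2) m]

/-- additive maps which agree on monomials -/
private theorem transfer {B : Type} [CommRing B] (P : MvPolynomial (Fin 2) (Ult R) →+ Ult B)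
    (Q : ℕ → MvPolynomial (Fin 2) R →+ B)
    (hPQ : ∀ (m : Fin 2 →₀ ℕ) (c : ℕ → R), P (monomial m (cl c)) = cl (fun N => Q N (monomial m (c N))))
    {p : MvPolynomial (Fin 2) (Ult R)} {q : ℕ → MvPolynomial (Fin 2) R} (h : Th R p = cl q) :
    P p = cl (fun N => Q N (q N)) := by
  have h1 : p = ∑ m ∈ p.support, monomial m (cl (fun N => (q N).coeff m)) := by
    conv_lhs => rw [eq_sum p p.support (Finset.Subset.refl _)]
    exact Finset.sum_congr rfl fun m _ => by rw [th_coeff h m]
  have h2 : Th R p = cl (fun N => ∑ m ∈ p.support, monomial m ((q N).coeff m)) := by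
    rw [← th_sum, ← h1]
  have h3 := cl_eq.1 (h2.symm.trans h)
  have h4 : P p = cl (fun N => Q N (∑ m ∈ p.support, monomial m ((q N).coeff m))) := by
    have h5 : P p = ∑ m ∈ p.support, P (monomial m (cl (fun N => (q N).coeff m))) := by
      conv_lhs => rw [h1]
      rw [map_sum]
    rw [h5, Finset.sum_congr rfl fun m _ => hPQ m _, cl_sum]
    congr 1
    funext N
    rw [map_sum]
  rw [h4, cl_eq]
  exact h3.mono fun N hN => by rw [hN]

theorem th_eval {p : MvPolynomial (Fin 2) (Ult R)} {q : ℕ → MvPolynomial (Fin 2) R} (h : Th R p = cl q)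
    (a b : ℕ → R) : aeval ![cl a, cl b] p = cl (fun N => aeval ![a N, b N] (q N)) := by
  have hv : (![cl a, cl b] : Fin 2 → Ult R) = fun i => cl (![a, b] i) := by
    funext i
    fin_cases i <;> rfl
  refine transfer (B := R) ((aeval (R := Ult R) (![cl a, cl b] : Fin 2 → Ult R)).toRingHom.toAddMonoidHom)
    (fun N => (aeval (R := R) (![a N, b N] : Fin 2 → R)).toRingHom.toAddMonoidHom) ?_ h
  intro m c
  show aeval (R := Ult R) (![cl a, cl b] : Fin 2 → Ult R) (monomial m (cl c)) =
    cl (fun N => aeval (R := R) (![a N, b N] : Fin 2 → R) (monomial m (c N)))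
  rw [aeval_monomial, hv]
  refine (cl_prod m c (RingHom.id R) ![a, b]).trans ?_
  congr 1
  funext N
  rw [aeval_monomial]
  have h2 : (![a N, b N] : Fin 2 → R) = fun i => ![a, b] i N := by
    funext i
    fin_cases i <;> rfl
  rw [h2]
  rfl

theorem th_pd {p : MvPolynomial (Fin 2) (Ult R)} {q : ℕ → MvPolynomial (Fin 2) R} (h : Th R p = cl q)
    (i : Fin 2) : Th R (pderiv i p) = cl (fun N => pderiv i (q N)) := by
  refine transfer (B := MvPolynomial (Fin 2) R)
    ((Th R).toAddMonoidHom.comp (pderiv (R := Ult R) i).toLinearMap.toAddMonoidHom)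
    (fun _ => (pderiv (R := R) i).toLinearMap.toAddMonoidHom) ?_ h
  intro m c
  show Th R (pderiv i (monomial m (cl c))) = cl (fun N => pderiv i (monomial m (c N)))
  rw [pderiv_monomial, cl_nat, cl_mul, th_mon]
  congr 1
  funext N
  rw [pderiv_monomial]

theorem th_sub {p : MvPolynomial (Fin 2) (Ult R)} {q : ℕ → MvPolynomial (Fin 2) R} (h : Th R p = cl q)
    {U : Fin 2 → MvPolynomial (Fin 2) (Ult R)} {u : Fin 2 → ℕ → MvPolynomial (Fin 2) R}
    (hU : ∀ i, Th R (U i) = cl (u i)) :
    Th R (aeval U p) = cl (fun N => aeval (fun i => u i N) (q N)) := by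
  refine transfer (B := MvPolynomial (Fin 2) R)
    ((Th R).toAddMonoidHom.comp (aeval (R := Ult R) U).toRingHom.toAddMonoidHom)
    (fun N => (aeval (R := R) (fun i => u i N)).toRingHom.toAddMonoidHom) ?_ h
  intro m c
  show Th R (aeval U (monomial m (cl c))) = cl (fun N => aeval (fun i => u i N) (monomial m (c N)))
  rw [aeval_monomial, map_mul]
  have h1 : Th R (algebraMap (Ult R) (MvPolynomial (Fin 2) (Ult R)) (cl c)) = germMap (C : R →+* MvPolynomial (Fin 2) R) (cl c) :=
    eval₂Hom_C _ _ _
  have h2 : Th R (m.prod fun i k => U i ^ k) = m.prod fun i k => (cl (u i) : Ult (MvPolynomial (Fin 2) R)) ^ k := by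
    rw [Finsupp.prod_fintype _ _ (fun _ => pow_zero _), Finsupp.prod_fintype _ _ (fun _ => pow_zero _), Fin.prod_univ_two,
      Fin.prod_univ_two, map_mul, map_pow, map_pow, hU, hU]
  rw [h1, h2]
  refine (cl_prod m c (C : R →+* MvPolynomial (Fin 2) R) u).trans ?_
  congr 1
  funext N
  rw [aeval_monomial]
  rfl

theorem th_map {S : Type} [CommRing S] (f : R →+* S) {p : MvPolynomial (Fin 2) (Ult R)}
    {q : ℕ → MvPolynomial (Fin 2) R} (h : Th R p = cl q) :
    Th S (map (germMap f) p) = cl (fun N => map f (q N)) := by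
  refine transfer (B := MvPolynomial (Fin 2) S)
    ((Th S).toAddMonoidHom.comp (MvPolynomial.map (germMap f)).toAddMonoidHom)
    (fun _ => (MvPolynomial.map f).toAddMonoidHom) ?_ h
  intro m c
  show Th S (map (germMap f) (monomial m (cl c))) = cl (fun N => map f (monomial m (c N)))
  rw [map_monomial, germMap_cl, th_mon]
  congr 1
  funext N
  rw [map_monomial]

end Pool.Agent.H12.ON
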