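import Pool.Agent.H12.ON.Tht

/-! # [H12 ON TIR] Irreducibility passes to the ultrapower

`p = G K` in `R*[X,Y]`, `Th G = cl g`, `Th K = cl k` (`th_rep`), so eventually `q N = g N * k N`, and `g N` or `k N` is a unit, that is a nonzero constant. One
alternative holds for almost all `N` (ultrafilter: `Filter.Ultrafilter.eventually_or` for the hyperfilter), say `g N = C (c N)`, `c N ≠ 0`: then
`Th G = Th (C (cl c))`, `G = C (cl c)` (`th_inj`), a unit as `cl c ≠ 0`. `p` is not a unit: if `p = C (cl c)` then eventually `q N = C (c N)`, which is `0` or a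
unit. -/

namespace Pool.Agent.H12.ON

open MvPolynomial Pool.Agent.H82.NS Filter

private theorem unit_of {R : Type} [Field R] {G : MvPolynomial (Fin 2) (Ult R)}
    {g : ℕ → MvPolynomial (Fin 2) R} (h : Th R G = cl g) (hg : ∀ᶠ N in UU, IsUnit (g N)) : IsUnit G := by
  have h1 : ∀ᶠ N in UU, g N = C ((g N).coeff 0) ∧ (g N).coeff 0 ≠ 0 := by
    refine hg.mono fun N hN => ?_
    obtain ⟨r, hr, hgr⟩ := isUnit_iff_eq_C_of_isReduced.1 hN
    have h2 : (g N).coeff 0 = r := by rw [hgr, coeff_zero_C]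
    rw [h2]
    exact ⟨hgr, hr.ne_zero⟩
  have h2 : G = C (cl fun N => (g N).coeff 0) := by
    apply th_inj
    rw [h]
    have h3 : Th R (C (cl fun N => (g N).coeff 0)) = germMap (C : R →+* MvPolynomial (Fin 2) R) (cl fun N => (g N).coeff 0) :=
      eval₂Hom_C _ _ _
    rw [h3, germMap_cl, cl_eq]
    exact h1.mono fun N hN => hN.1
  rw [h2, isUnit_iff_eq_C_of_isReduced]
  refine ⟨_, ?_, rfl⟩
  rw [isUnit_iff_ne_zero, cl_zero, Ne, cl_eq]
  intro h3
  obtain ⟨N, hN⟩ := (h1.and h3).exists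
  exact hN.1.2 hN.2

theorem tir {R : Type} [Field R] {p : MvPolynomial (Fin 2) (Ult R)} {q : ℕ → MvPolynomial (Fin 2) R}
    (h : Th R p = cl q) (hq : ∀ N, Irreducible (q N)) : Irreducible p := by
  constructor
  · intro hp
    obtain ⟨w, hw⟩ := (hp.map (Th R)).exists_right_inv
    obtain ⟨g, rfl⟩ := cl_surj w
    rw [h, cl_mul, cl_one, cl_eq] at hw
    obtain ⟨N, hN⟩ := hw.exists
    exact (hq N).not_isUnit (IsUnit.of_mul_eq_one _ hN)
  · intro G K hGK
    obtain ⟨g, hg⟩ := cl_surj (Th R G)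
    obtain ⟨k, hk⟩ := cl_surj (Th R K)
    rw [hGK, map_mul, hg, hk, cl_mul, cl_eq] at h
    have h1 : ∀ᶠ N in UU, IsUnit (g N) ∨ IsUnit (k N) :=
      h.mono fun N hN => (hq N).isUnit_or_isUnit hN.symm
    rcases Ultrafilter.eventually_or.1 h1 with h2 | h2
    · exact Or.inl (unit_of hg h2)
    · exact Or.inr (unit_of hk h2)

end Pool.Agent.H12.ON
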