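import Pool.Agent.H12.ON.Li

/-! # [H12 ON TRD] The conductor: `F_y(x,y) z ∈ k[x,y]` for integral `z`

`A = k[x]` (`x` transcendental, so a polynomial ring, integrally closed), `K = k(x)`, `L = k(x,y)` (finite, separable over `K`, characteristic zero).
`F(x,Y)/c` (`c ∈ k` the coefficient of `Y^n`) is monic in `A[Y]`, has the zero `y`, and is the minimal polynomial of `y` over `K`: `y` has degree
`n` over `K` because the `x^i y^j`, `j < n`, are independent over `k` (`mon_li`). `(F/c)'(y) = F_y(x,y)/c`. Mathlib
(`Mathlib/RingTheory/DedekindDomain/Different.lean`, `traceForm_dualSubmodule_adjoin` and its neighbours): the dual of `A[y]` for the trace form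
of `L/K` is `(1/F_y) A[y]`. If `z ∈ L` is integral over `A` then `Tr(z y^i) ∈ A` for all `i` (`z y^i` is integral, `A` integrally closed), so `z` is in the
dual of `A[y]`, `F_y z ∈ A[y] = k[x,y]`. Another possibility (Euler, no trace form): `∑_σ z^σ F(x,Y)/((Y - y^σ))` has coefficients in `A`, at
`Y = y` it is `z F_y(x,y)`.
`hx`: `x` transcendental. In the statement `z ∈ adjoin k {x,y}` (field) and `z` is integral over `Algebra.adjoin k {x}`. -/

namespace Pool.Agent.H12.ON

open MvPolynomial IntermediateField

private theorem fy_core {A K Ω : Type} [CommRing A] [IsDomain A] [IsIntegrallyClosed A] [Field K] [CharZero K]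
    [Algebra A K] [IsFractionRing A K] [Field Ω] [Algebra A Ω] [Algebra K Ω] [IsScalarTower A K Ω] {y z : Ω}
    {G : Polynomial A} (hG : G.Monic) (h0 : Polynomial.aeval y G = 0)
    (hz : z ∈ IntermediateField.adjoin K {y}) (hi : IsIntegral A z) :
    ∃ P : Polynomial A, Polynomial.aeval y (Polynomial.derivative G) * z = Polynomial.aeval y P := by
  have hy : IsIntegral A y := ⟨G, hG, h0⟩
  have hyK : IsIntegral K y := hy.tower_top
  have hfd : FiniteDimensional K (IntermediateField.adjoin K {y}) := IntermediateField.adjoin.finiteDimensional hyK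
  have htow : IsScalarTower A (IntermediateField.adjoin K {y}) Ω :=
    IsScalarTower.of_algebraMap_eq fun a => rfl
  have htf : Module.IsTorsionFree A Ω := by
    rw [Module.isTorsionFree_iff_algebraMap_injective, IsScalarTower.algebraMap_eq A K Ω]
    exact (algebraMap K Ω).injective.comp (IsFractionRing.injective A K)
  obtain ⟨y', hy'⟩ : ∃ y' : IntermediateField.adjoin K {y}, y' = AdjoinSimple.gen K y := ⟨_, rfl⟩
  have hyy : algebraMap (IntermediateField.adjoin K {y}) Ω y' = y := by rw [hy']; rfl
  have htop : Algebra.adjoin K {y'} = ⊤ := by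
    rw [hy']
    have h1 := IntermediateField.adjoin.powerBasis hyK
    exact (IntermediateField.adjoin.powerBasis hyK).adjoin_gen_eq_top
  have hyi : IsIntegral A y' := by
    rw [← isIntegral_algebraMap_iff (algebraMap (IntermediateField.adjoin K {y}) Ω).injective, hyy]
    exact hy
  obtain ⟨z', hz'⟩ : ∃ z' : IntermediateField.adjoin K {y}, z' = ⟨z, hz⟩ := ⟨_, rfl⟩
  have hzz : algebraMap (IntermediateField.adjoin K {y}) Ω z' = z := by rw [hz']; rfl
  have hzi : IsIntegral A z' := by
    rw [← isIntegral_algebraMap_iff (algebraMap (IntermediateField.adjoin K {y}) Ω).injective, hzz]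
    exact hi
  have hmem : z' ∈ (Algebra.traceForm K (IntermediateField.adjoin K {y})).dualSubmodule
      (Subalgebra.toSubmodule (Algebra.adjoin A {y'})) := by
    rw [LinearMap.BilinForm.mem_dualSubmodule]
    intro w hw
    have hwi : IsIntegral A w := by
      have h1 : Algebra.adjoin A {y'} ≤ integralClosure A _ := by
        rw [Algebra.adjoin_le_iff, Set.singleton_subset_iff]
        exact hyi
      exact h1 hw
    have h2 := Algebra.isIntegral_trace (L := K) (hzi.mul hwi)
    rw [Algebra.traceForm_apply, Submodule.mem_one]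
    exact IsIntegrallyClosed.isIntegral_iff.1 h2
  rw [traceForm_dualSubmodule_adjoin A K htop hyi] at hmem
  have hne : Polynomial.aeval y' (Polynomial.derivative (minpoly K y')) ≠ 0 :=
    (Algebra.IsSeparable.isSeparable K y').aeval_derivative_ne_zero (minpoly.aeval _ _)
  obtain ⟨w, hw, hwz⟩ := hmem
  have hwz' : Polynomial.aeval y' (Polynomial.derivative (minpoly K y')) * z' = w := by
    rw [← hwz]
    show _ * ((Polynomial.aeval y' (Polynomial.derivative (minpoly K y')))⁻¹ • w) = w
    rw [smul_eq_mul, mul_inv_cancel_left₀ hne]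
  have hw2 : w ∈ Algebra.adjoin A {y'} := hw
  rw [Algebra.adjoin_singleton_eq_range_aeval] at hw2
  obtain ⟨P0, hP0⟩ := hw2
  obtain ⟨h, hh⟩ := minpoly.isIntegrallyClosed_dvd hy h0
  have hmin : minpoly K y' = (minpoly A y).map (algebraMap A K) := by
    have h1 : minpoly A y = minpoly A y' := by
      have h2 := minpoly.algebraMap_eq (A := A) (algebraMap (IntermediateField.adjoin K {y}) Ω).injective y'
      rw [hyy] at h2
      exact h2
    rw [h1]
    exact minpoly.isIntegrallyClosed_eq_field_fractions' K hyi
  refine ⟨h * P0, ?_⟩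
  have hk : Polynomial.aeval y (Polynomial.derivative (minpoly A y)) * z = Polynomial.aeval y P0 := by
    have h1 := congrArg (algebraMap (IntermediateField.adjoin K {y}) Ω) hwz'
    rw [map_mul, hzz, ← hP0, ← Polynomial.aeval_algebraMap_apply, hyy, hmin, Polynomial.derivative_map,
      Polynomial.aeval_map_algebraMap] at h1
    rw [h1]
    have h2 := Polynomial.aeval_algebraMap_apply Ω y' P0
    rw [hyy] at h2
    rw [h2]
    rfl
  have hd : Polynomial.aeval y (Polynomial.derivative G) =
      Polynomial.aeval y (Polynomial.derivative (minpoly A y)) * Polynomial.aeval y h := by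
    rw [hh, Polynomial.derivative_mul, map_add, map_mul, map_mul, minpoly.aeval, zero_mul, add_zero]
  rw [hd, map_mul, ← hk]
  ring


private theorem phi_sum {k A : Type} [Field k] [CommRing A] [Algebra k A] (a : A) (F : MvPolynomial (Fin 2) k) :
    aeval ![Polynomial.C a, Polynomial.X] F =
      ∑ m ∈ F.support, Polynomial.monomial (m 1) (algebraMap k A (F.coeff m) * a ^ (m 0)) := by
  rw [aeval_def, eval₂_eq']
  refine Finset.sum_congr rfl fun m _ => ?_
  rw [Fin.prod_univ_two]
  show algebraMap k (Polynomial A) (coeff m F) * (Polynomial.C a ^ m 0 * Polynomial.X ^ m 1) = _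
  rw [← Polynomial.C_mul_X_pow_eq_monomial, Polynomial.C_mul, Polynomial.C_pow, mul_assoc]
  rfl

private theorem phi_der {k A : Type} [Field k] [CommRing A] [Algebra k A] (a : A) (F : MvPolynomial (Fin 2) k) :
    Polynomial.derivative (aeval ![Polynomial.C a, Polynomial.X] F) =
      aeval ![Polynomial.C a, Polynomial.X] (pderiv 1 F) := by
  induction F using MvPolynomial.induction_on with
  | C c =>
    rw [pderiv_C, map_zero, aeval_C]
    exact Polynomial.derivative_C
  | add p q hp hq => rw [map_add, map_add, map_add, map_add, hp, hq]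
  | mul_X p i hp =>
    rw [map_mul, Polynomial.derivative_mul, hp, Derivation.leibniz, smul_eq_mul, smul_eq_mul, map_add,
      map_mul, map_mul, aeval_X]
    have h1 : Polynomial.derivative ((![Polynomial.C a, Polynomial.X] : Fin 2 → Polynomial A) i) =
        aeval ![Polynomial.C a, Polynomial.X] (pderiv 1 (X i : MvPolynomial (Fin 2) k)) := by
      fin_cases i
      · show Polynomial.derivative (Polynomial.C a) = aeval _ (pderiv 1 (X 0 : MvPolynomial (Fin 2) k))
        rw [pderiv_X_of_ne (by decide), map_zero, Polynomial.derivative_C]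
      · show Polynomial.derivative (Polynomial.X) = aeval _ (pderiv 1 (X 1 : MvPolynomial (Fin 2) k))
        rw [pderiv_X_self, map_one, Polynomial.derivative_X]
    rw [h1]
    ring

private theorem lead_ne {k : Type} [Field k] {n : ℕ} {F : MvPolynomial (Fin 2) k} (hF : Tp k n F) :
    F.coeff (Finsupp.single 1 n) ≠ 0 := by
  have h1 : (ftop n F).leadingCoeff ≠ 0 := Polynomial.leadingCoeff_ne_zero.2 hF.irr.ne_zero
  rw [Polynomial.leadingCoeff, hF.top] at h1
  intro h2
  apply h1
  unfold ftop
  rw [Polynomial.finsetSum_coeff, Finset.sum_eq_single n]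
  · rw [Polynomial.coeff_monomial, if_pos rfl, Nat.sub_self, Finsupp.single_zero, zero_add]
    exact h2
  · intro j _ hj
    rw [Polynomial.coeff_monomial, if_neg hj]
  · intro h
    exact absurd (Finset.mem_range.2 (Nat.lt_succ_self n)) h

private theorem supp_le {k : Type} [Field k] {n : ℕ} {F : MvPolynomial (Fin 2) k} (hF : Tp k n F) {m : Fin 2 →₀ ℕ}
    (hm : m ∈ F.support) : m 0 + m 1 ≤ n := by
  have h1 := (le_totalDegree hm).trans hF.deg
  have h2 : (m.sum fun _ e => e) = m 0 + m 1 := by
    rw [Finsupp.sum_fintype _ _ (fun _ => rfl), Fin.sum_univ_two]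
  rw [h2] at h1
  exact h1

private theorem phi_monic {k A : Type} [Field k] [CommRing A] [Algebra k A] {n : ℕ} {F : MvPolynomial (Fin 2) k}
    (hF : Tp k n F) (a : A) :
    (Polynomial.C (algebraMap k A (F.coeff (Finsupp.single 1 n))⁻¹) *
      aeval ![Polynomial.C a, Polynomial.X] F).Monic := by
  classical
  refine Polynomial.monic_of_natDegree_le_of_coeff_eq_one n ?_ ?_
  · refine (Polynomial.natDegree_C_mul_le _ _).trans ?_
    rw [phi_sum]
    refine Polynomial.natDegree_sum_le_of_forall_le _ _ fun m hm => ?_
    refine (Polynomial.natDegree_monomial_le _).trans ?_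
    have := supp_le hF hm
    omega
  · rw [Polynomial.coeff_C_mul, phi_sum, Polynomial.finsetSum_coeff, Finset.sum_eq_single (Finsupp.single 1 n)]
    · have h1 : (Finsupp.single (1 : Fin 2) n) 1 = n := Finsupp.single_eq_same
      have h0 : (Finsupp.single (1 : Fin 2) n) 0 = 0 := Finsupp.single_eq_of_ne (by decide)
      rw [h1, h0, Polynomial.coeff_monomial, if_pos rfl, pow_zero, mul_one, ← map_mul,
        inv_mul_cancel₀ (lead_ne hF), map_one]
    · intro m hm hne
      rw [Polynomial.coeff_monomial, if_neg]
      intro h1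
      apply hne
      have h2 := supp_le hF hm
      ext i
      fin_cases i
      · have h0 : (Finsupp.single (1 : Fin 2) n) 0 = 0 := Finsupp.single_eq_of_ne (by decide)
        show m 0 = (Finsupp.single (1 : Fin 2) n) 0
        rw [h0]
        omega
      · have h3 : (Finsupp.single (1 : Fin 2) n) 1 = n := Finsupp.single_eq_same
        show m 1 = (Finsupp.single (1 : Fin 2) n) 1
        rw [h3]
        exact h1
    · intro h
      exact absurd (mem_support_iff.2 (lead_ne hF)) h

open scoped IntermediateField.algebraAdjoinAdjoin in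
theorem fy_mul {k Ω : Type} [Field k] [CharZero k] [Field Ω] [Algebra k Ω] {n : ℕ}
    {F : MvPolynomial (Fin 2) k} (hF : Tp k n F) {x y z : Ω} (h0 : aeval ![x, y] F = 0)
    (hx : Transcendental k x) (hz : z ∈ adjoin k {x, y}) (hi : IsIntegral (Algebra.adjoin k {x}) z) :
    ∃ p : MvPolynomial (Fin 2) k, aeval ![x, y] (pderiv 1 F) * z = aeval ![x, y] p := by
  classical
  have hint : IsIntegrallyClosed (Algebra.adjoin k {x}) :=
    IsIntegrallyClosed.of_equiv (Polynomial.algEquivOfTranscendental k x hx).toRingEquiv
  have hcz : CharZero (IntermediateField.adjoin k {x}) := charZero_of_injective_algebraMap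
    (algebraMap k (IntermediateField.adjoin k {x})).injective
  obtain ⟨xA, hxA⟩ : ∃ xA : Algebra.adjoin k {x}, (xA : Ω) = x := ⟨⟨x, Algebra.self_mem_adjoin_singleton k x⟩, rfl⟩
  have hev : ∀ p : MvPolynomial (Fin 2) k,
      Polynomial.aeval y (aeval ![Polynomial.C xA, Polynomial.X] p) = aeval ![x, y] p := by
    intro p
    have h1 : ((Polynomial.aeval (R := Algebra.adjoin k {x}) y).restrictScalars k).comp
        (aeval ![Polynomial.C xA, Polynomial.X]) = aeval ![x, y] := by
      apply MvPolynomial.algHom_ext
      intro i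
      rw [AlgHom.comp_apply, aeval_X, aeval_X]
      fin_cases i
      · show Polynomial.aeval y (Polynomial.C xA) = x
        rw [Polynomial.aeval_C]
        exact hxA
      · show Polynomial.aeval y Polynomial.X = y
        rw [Polynomial.aeval_X]
    exact DFunLike.congr_fun h1 p
  obtain ⟨c, hc⟩ : ∃ c, c = F.coeff (Finsupp.single 1 n) := ⟨_, rfl⟩
  have hc0 : c ≠ 0 := by rw [hc]; exact lead_ne hF
  have hmon := phi_monic (A := Algebra.adjoin k {x}) hF xA
  rw [← hc] at hmon
  have hG0 : Polynomial.aeval y (Polynomial.C (algebraMap k (Algebra.adjoin k {x}) c⁻¹) *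
      aeval ![Polynomial.C xA, Polynomial.X] F) = 0 := by
    rw [map_mul, hev, h0, mul_zero]
  have hzK : z ∈ IntermediateField.adjoin (IntermediateField.adjoin k {x}) {y} := by
    have h1 : IntermediateField.adjoin k {x, y} ≤
        (IntermediateField.adjoin (IntermediateField.adjoin k {x}) {y}).restrictScalars k := by
      rw [IntermediateField.adjoin_le_iff]
      intro w hw
      rcases hw with rfl | hw
      · have h2 : w ∈ IntermediateField.adjoin k {w} := IntermediateField.mem_adjoin_simple_self k w
        exact (IntermediateField.adjoin (IntermediateField.adjoin k {w}) {y}).algebraMap_mem ⟨w, h2⟩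
      · rw [Set.mem_singleton_iff] at hw
        rw [hw]
        exact IntermediateField.mem_adjoin_simple_self _ y
    exact h1 hz
  obtain ⟨P, hP⟩ := fy_core (K := IntermediateField.adjoin k {x}) hmon hG0 hzK hi
  rw [Polynomial.derivative_C_mul, phi_der, map_mul, hev, Polynomial.aeval_C] at hP
  have hrange : ∀ Q : Polynomial (Algebra.adjoin k {x}),
      Polynomial.aeval y Q ∈ (aeval ![x, y] : MvPolynomial (Fin 2) k →ₐ[k] Ω).range := by
    intro Q
    have hx' : x ∈ (aeval ![x, y] : MvPolynomial (Fin 2) k →ₐ[k] Ω).range := ⟨X 0, by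
      show aeval ![x, y] (X 0) = x
      rw [aeval_X]
      rfl⟩
    have hy' : y ∈ (aeval ![x, y] : MvPolynomial (Fin 2) k →ₐ[k] Ω).range := ⟨X 1, by
      show aeval ![x, y] (X 1) = y
      rw [aeval_X]
      rfl⟩
    have hle : Algebra.adjoin k {x} ≤ (aeval ![x, y] : MvPolynomial (Fin 2) k →ₐ[k] Ω).range := by
      rw [Algebra.adjoin_le_iff, Set.singleton_subset_iff]
      exact hx'
    rw [Polynomial.aeval_eq_sum_range]
    refine Subalgebra.sum_mem _ fun i _ => ?_
    have h1 : Q.coeff i • y ^ i = ((Q.coeff i : Algebra.adjoin k {x}) : Ω) * y ^ i := by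
      rw [Algebra.smul_def]
      rfl
    rw [h1]
    exact Subalgebra.mul_mem _ (hle (Q.coeff i).2) (Subalgebra.pow_mem _ hy' i)
  obtain ⟨p, hp⟩ := hrange P
  refine ⟨C c * p, ?_⟩
  rw [map_mul, aeval_C]
  have hp' : aeval ![x, y] p = Polynomial.aeval y P := hp
  rw [hp', ← hP]
  have hcc : algebraMap k Ω c * algebraMap (Algebra.adjoin k {x}) Ω (algebraMap k (Algebra.adjoin k {x}) c⁻¹) = 1 := by
    rw [← IsScalarTower.algebraMap_apply, ← map_mul, mul_inv_cancel₀ hc0, map_one]
  linear_combination (aeval ![x, y] (pderiv 1 F) * z) * (-hcc)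

end Pool.Agent.H12.ON
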